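import Pool.Agent.MP_c853c5_nt.X.Tame

/-!
A cut along the level set of any Lipschitz function, with overlap.
-/

set_option autoImplicit false

open Finset Filter

namespace Pool.Agent.MP_c853c5_nt.X

open Pool.Agent.MP_c853c5_nt.S

/-- Lipschitz in the first `k` coordinates -/
def Lip (k : ℕ) (f : Pt → ℝ) : Prop := ∃ C : ℝ, 0 ≤ C ∧ ∀ (a b : Pt) (δ : ℝ), 0 ≤ δ →
  (∀ j < k, |a j - b j| ≤ δ) → |f a - f b| ≤ C * δ

section

variable {k : ℕ} {f g : Pt → ℝ}

lemma Lip.const (k : ℕ) (c : ℝ) : Lip k fun _ => c := ⟨0, le_rfl, fun _ _ _ _ _ => by simp⟩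

lemma Lip.coord {j : ℕ} (h : j < k) : Lip k fun a => a j :=
  ⟨1, zero_le_one, fun _ _ _ _ e => by simpa using e j h⟩

lemma Lip.add (h : Lip k f) (h' : Lip k g) : Lip k fun a => f a + g a := by
  obtain ⟨C, h1, h2⟩ := h
  obtain ⟨D, h3, h4⟩ := h'
  refine ⟨C + D, add_nonneg h1 h3, fun a b δ d e => ?_⟩
  rw [add_sub_add_comm, add_mul]
  exact (abs_add_le _ _).trans (add_le_add (h2 a b δ d e) (h4 a b δ d e))

lemma Lip.mul (c : ℝ) (h : Lip k f) : Lip k fun a => c * f a := by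
  obtain ⟨C, h1, h2⟩ := h
  refine ⟨|c| * C, by positivity, fun a b δ d e => ?_⟩
  rw [← mul_sub, abs_mul, mul_assoc]
  exact mul_le_mul_of_nonneg_left (h2 a b δ d e) (abs_nonneg c)

lemma Lip.sub (h : Lip k f) (h' : Lip k g) : Lip k fun a => f a - g a := by
  simpa only [neg_one_mul, ← sub_eq_add_neg] using h.add (h'.mul (-1))

lemma Lip.sum {ι : Type*} (s : Finset ι) {F : ι → Pt → ℝ} (h : ∀ i ∈ s, Lip k (F i)) :
    Lip k fun a => ∑ i ∈ s, F i a := by
  classical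
  induction s using Finset.induction_on with
  | empty => simpa using Lip.const k 0
  | insert i s hi ih =>
    simpa only [sum_insert hi] using
      (h i (mem_insert_self _ _)).add (ih fun j hj => h j (mem_insert_of_mem hj))

lemma Lip.lsum {ι : Type*} (l : List ι) {F : ι → Pt → ℝ} (h : ∀ i ∈ l, Lip k (F i)) :
    Lip k fun a => (l.map fun i => F i a).sum := by
  induction l with
  | nil => simpa using Lip.const k 0
  | cons i l ih =>
    rw [List.forall_mem_cons] at h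
    simpa only [List.map_cons, List.sum_cons] using h.1.add (ih h.2)

lemma Lip.lin (k : ℕ) (c : ℕ → ℝ) : Lip k fun a => ∑ j ∈ range k, c j * a j :=
  Lip.sum _ fun j hj => (Lip.coord (mem_range.1 hj)).mul (c j)

end

open Classical in
/-- rounding to the grid of mesh `1 / N` -/
noncomputable def rnd (N M : ℕ) (s : ℝ) : ℝ :=
  (((range M).filter fun i : ℕ => (2 * i + 1 : ℝ) / (2 * N) < s).card : ℝ) / N

lemma rnd_near {N M : ℕ} (hN : 0 < N) {s : ℝ} (h0 : 0 ≤ s) (hM : s * N ≤ M) :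
    |s - rnd N M s| ≤ 1 / N := by
  have N0 : (0 : ℝ) < N := Nat.cast_pos.2 hN
  have e : ((range M).filter fun i : ℕ => (2 * i + 1 : ℝ) / (2 * N) < s) =
      range ⌈s * N - 1 / 2⌉₊ := by
    ext i
    rw [mem_filter, mem_range, mem_range, Nat.lt_ceil, div_lt_iff₀ (by positivity),
      ← Nat.cast_lt (α := ℝ)]
    exact ⟨fun h => by linarith [h.2], fun h => ⟨by linarith, by linarith⟩⟩
  have h1 := Nat.le_ceil (s * N - 1 / 2)
  have h2 : (⌈s * N - 1 / 2⌉₊ : ℝ) ≤ s * N + 1 := by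
    have := Nat.ceil_lt_add_one (mul_nonneg h0 N0.le)
    have : (⌈s * N - 1 / 2⌉₊ : ℝ) ≤ ⌈s * N⌉₊ := Nat.cast_le.2 (Nat.ceil_mono (by linarith))
    linarith
  rw [rnd, e, card_range, show s - (⌈s * N - 1 / 2⌉₊ : ℝ) / N = (s * N - ⌈s * N - 1 / 2⌉₊) / N by
    field_simp, abs_div, abs_of_pos N0]
  exact div_le_div_of_nonneg_right (abs_le.2 ⟨by linarith, by linarith⟩) N0.le

lemma tame_grid (k N M : ℕ) (Φ : Pt → Prop) :
    Tame k fun a => Φ fun j => if j < k then rnd N M (a j) else 0 := by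
  classical
  refine ⟨((range k ×ˢ range M).image fun p : ℕ × ℕ =>
    (⟨{p.1}, ∅, (2 * p.2 + 1 : ℝ) / (2 * N)⟩ : Row)).toList, fun r hr => ?_, fun a a' h e => ?_⟩
  · obtain ⟨p, hp, rfl⟩ := mem_image.1 (mem_toList.1 hr)
    refine ⟨by simpa using (mem_product.1 hp).1, by simp, by simp, by simp, fun _ c => ?_,
      fun _ c => ?_⟩
    · have c' : (2 * p.2 + 1 : ℝ) = 2 * N := eq_of_div_eq_one c
      have : 2 * p.2 + 1 = 2 * N := by exact_mod_cast c'
      omega
    · have : (0 : ℝ) ≤ (2 * p.2 + 1 : ℝ) / (2 * N) := by positivity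
      simp only at c
      linarith
  · refine (congrArg Φ (funext fun j => ?_)).mp e
    split_ifs with hj
    · refine congrArg (fun s : Finset ℕ => (s.card : ℝ) / N) (filter_congr fun i hi => ?_)
      have := h _ (mem_toList.2 (mem_image.2 ⟨(j, i), mem_product.2 ⟨mem_range.2 hj, hi⟩, rfl⟩))
      simp only [Row.Same, Row.val, sum_singleton, sum_empty, sub_zero] at this
      exact this.elim (fun c => iff_of_false c.1.not_gt c.2.not_gt) fun c => iff_of_true c.1 c.2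
    · rfl

/-- the general cut; the sizes are bounded by `B` -/
theorem gsplit {sg : Bool} {t l l' e e' : ℝ} {k : ℕ} {kind : ℕ → Kind} {Ω : Pt → Prop}
    {f : Pt → ℝ} (hf : Lip k f) (he : e < e') (B : ℕ)
    (hB : ∀ a, Ω a → (∀ j < k, 1 / 50 ≤ a j) → ∀ j < k, a j ≤ B)
    (h1 : H sg t k kind (fun a => Ω a ∧ f a ≤ e') l)
    (h2 : H sg t k kind (fun a => Ω a ∧ e ≤ f a) l') : H sg t k kind Ω (l + l') := by
  intro Q hQ hΩ
  obtain ⟨C, hC, hf⟩ := hf
  obtain ⟨N, hN⟩ := exists_nat_gt (C / ((e' - e) / 2))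
  have N0 : (0 : ℝ) < N := lt_of_le_of_lt (div_nonneg hC (by linarith)) hN
  have key : ∀ a, Q a → |f a - f fun j => if j < k then rnd N (B * N) (a j) else 0| ≤
      (e' - e) / 2 := fun a ha => by
    refine (hf _ _ (1 / N) (by positivity) fun j hj => ?_).trans ?_
    · rw [if_pos hj]
      refine rnd_near (Nat.cast_pos.1 N0) (by linarith [(hΩ a ha).2 j hj]) ?_
      rw [Nat.cast_mul]
      exact mul_le_mul_of_nonneg_right (hB a (hΩ a ha).1 (hΩ a ha).2 j hj) N0.le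
    · rw [div_lt_iff₀ (by linarith)] at hN
      rw [mul_one_div, div_le_iff₀ N0]
      linarith
  have a1 := h1 _ (xTame.1 k _ _ hQ (tame_grid k N (B * N) fun b => f b ≤ (e + e') / 2))
    fun a c => ⟨⟨(hΩ a c.1).1, by linarith [c.2, (abs_le.1 (key a c.1)).2]⟩, (hΩ a c.1).2⟩
  have a2 := h2 _ (xTame.1 k _ _ hQ (tame_grid k N (B * N) fun b => (e + e') / 2 < f b))
    fun a c => ⟨⟨(hΩ a c.1).1, by linarith [c.2, (abs_le.1 (key a c.1)).1]⟩, (hΩ a c.1).2⟩
  refine (a1.add a2).congr (Eventually.of_forall fun x n _ => ?_)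
  exact add_Tame (fun a => by
    have := le_or_gt (f fun j => if j < k then rnd N (B * N) (a j) else 0) ((e + e') / 2)
    tauto) (fun a b1 b2 => b1.2.not_gt b2.2) x n

/-- the same without a bound on the sizes -/
theorem xGSplit {sg : Bool} {t l l' e e' : ℝ} {k : ℕ} {kind : ℕ → Kind} {Ω : Pt → Prop}
    {f : Pt → ℝ} (hf : Lip k f) (he : e < e') (hk : 1 ≤ k) (hv : KV k kind)
    (h1 : H sg t k kind (fun a => Ω a ∧ f a ≤ e') l)
    (h2 : H sg t k kind (fun a => Ω a ∧ e ≤ f a) l') : H sg t k kind Ω (l + l') := by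
  refine xMono xTame sg t _ _ k kind Ω (fun a => Ω a ∧ ∀ j < k, a j ≤ (2 : ℕ)) hk hv le_rfl
    (fun a ha h3 h4 => ⟨ha, fun j hj => ?_⟩) (gsplit hf he 2 (fun a ha _ => ha.2)
      (fun Q hQ c => h1 Q hQ fun a ha => ⟨⟨(c a ha).1.1.1, (c a ha).1.2⟩, (c a ha).2⟩)
      fun Q hQ c => h2 Q hQ fun a ha => ⟨⟨(c a ha).1.1.1, (c a ha).1.2⟩, (c a ha).2⟩)
  have := single_le_sum (f := a) (fun i hi => by linarith [(h3 i (mem_range.1 hi)).1])
    (mem_range.2 hj)
  have u : un = 1 / 1000000 := rfl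
  push_cast
  linarith [(abs_le.1 h4).2]

end Pool.Agent.MP_c853c5_nt.X
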