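import Pool.Agent.MP_c853c5_nt.X.SndL

/-!
The leaf of type II from inequalities in node coordinates.
-/

set_option autoImplicit false

open Finset

namespace Pool.Agent.MP_c853c5_nt.X

open Pool.Agent.MP_c853c5_nt.S Pool.Agent.MP_c853c5_nt.REG

variable {S : NS} {A : ℕ → Finset ℕ} {t : ℝ} {sg : Bool} {tn : ℕ}

lemma Y_near (h : Inv S A) (hk : S.k ≤ 16) {a b : Pt}
    (hb : ∀ i < S.k, a i - un ≤ b i ∧ b i ≤ a i + un) {j : ℕ} (hj : j < S.k) :
    |Y A b j - Y A a j| ≤ 16 / SC := by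
  have s := (h.sub j hj).1
  have c : ((A j).card : ℝ) ≤ 16 := by
    exact_mod_cast ((card_le_card s).trans_eq (card_range _)).trans hk
  rw [Y, Y, ← sum_sub_distrib]
  refine (abs_sum_le_sum_abs _ _).trans ((sum_le_card_nsmul _ _ un fun i hi => ?_).trans ?_)
  · have := hb i (mem_range.1 (s hi))
    exact abs_le.2 ⟨by linarith [this.1], by linarith [this.2]⟩
  · rw [nsmul_eq_mul, un_eq_SndL, SC_eq_SndL]
    linarith

/-- a weighted sum at a nearby point of total size one -/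
lemma wsum_near (h : Inv S A) (hk : S.k ≤ 16) (w : ℕ → ℝ) {a b : Pt}
    (hb : ∀ i < S.k, a i - un ≤ b i ∧ b i ≤ a i + un) :
    ∑ i ∈ range S.k, w i * b i ≤ w 0 * Y A b 0 + ∑ j ∈ Ico 1 S.k,
      ((w j - w (get S.par j)) * Y A a j + |w j - w (get S.par j)| * (16 / SC)) := by
  rw [h.wsum]
  refine add_le_add le_rfl (sum_le_sum fun j hj => ?_)
  have := mul_le_mul_of_nonneg_left (Y_near h hk hb (mem_Ico.1 hj).2)
    (abs_nonneg (w j - w (get S.par j)))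
  rw [← abs_mul, mul_sub] at this
  linarith [(abs_le.1 this).2]

/-- every row of the polytope holds on `Ω`, with room for the perturbation -/
theorem leaf2_node (R : Rules) (h1 : 1 / 3 ≤ t) (h2 : t < (tn : ℝ) / SC)
    (h3 : (tn : ℝ) / SC ≤ 1 / 2) {x : PP} {G : ℕ} (hL : Leaf2) (hx : x.Good tn) (hI : Inv S A)
    (hk : S.k ≤ 16) (hP : hasP S = true) (hG : ∀ j < S.k, d4 G j < x.k) {Ω : Pt → Prop}
    (h : ∀ a, Ω a → (∀ j < S.k, 1 / 50 ≤ a j) → ∀ y ∈ x.P, wt y.1 G 0 + ∑ j ∈ Ico 1 S.k,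
      ((wt y.1 G j - wt y.1 G (get S.par j)) * Y A a j +
        |wt y.1 G j - wt y.1 G (get S.par j)| * (16 / SC)) ≤ (y.2 : ℝ) / SC) :
    H sg t S.k S.kind Ω 0 := by
  obtain ⟨p, hp, hp0⟩ := hasP_ok hP
  refine H.big (R.leaf2 hL sg _ t _ _ _ h1 h2 h3 hI.pos hI.kv fun B a ha _ hc => ?_)
  have u := un_eq_SndL
  refine reg2_of (η := 1 / 10000) (K := 64) (i := ⟨p, hp⟩) (by linarith) (by norm_num)
    ((hc ⟨p, hp⟩).2.2.2 (kind_P hp0)) (by linarith [(hc ⟨p, hp⟩).1, ha.2 p hp])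
    fun w hw hs => hx _ w (fun j => d4 G j) (fun j => hG j j.2) (fun j => (hw j).1) hs
      fun y hy => le_trans ?_ (h a ha.1 ha.2 y hy)
  have := wsum_near hI hk (wt y.1 G) (a := a) (b := fun i => if h : i < S.k then w ⟨i, h⟩ else 0)
    fun i hi => by
      rw [dif_pos hi]
      exact ⟨(hc ⟨i, hi⟩).1.trans (hw _).2.1, (hw _).2.2.trans (hc ⟨i, hi⟩).2.1⟩
  rw [Y, hI.top, sum_range, sum_range] at this
  simpa only [Fin.is_lt, dif_pos, Fin.eta, hs, mul_one, wt] using this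

end Pool.Agent.MP_c853c5_nt.X
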