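import Pool.Agent.MP_c853c5_nt.X.SndA

/-!
Soundness of the checker: propagation, splitting and opening.
-/

set_option autoImplicit false

open Finset

namespace Pool.Agent.MP_c853c5_nt.X

open Pool.Agent.MP_c853c5_nt.S Pool.Agent.MP_c853c5_nt.REG

lemma cdiv {p q : ℕ} (h : p ≤ q) : (p : ℝ) / SC ≤ (q : ℝ) / SC :=
  div_le_div_of_nonneg_right (by exact_mod_cast h) SC_pos.le

lemma half_le (σ : ℕ) : (σ : ℝ) / SC ≤ 2 * ((Nat.shiftRight (Nat.succ σ) 1 : ℕ) : ℝ) / SC := by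
  have : σ ≤ 2 * Nat.shiftRight (Nat.succ σ) 1 := by
    rw [Nat.shiftRight_eq, Nat.shiftRight_eq_div_pow]
    omega
  simpa using cdiv this

lemma sum_nn {f : ℕ → ℝ} {l : List ℕ} (h : ∀ e ∈ l, 0 ≤ f e) : 0 ≤ (l.map f).sum :=
  List.sum_nonneg fun x hx => by
    obtain ⟨e, he, rfl⟩ := List.mem_map.1 hx
    exact h e he

lemma cdv_ok {σ c : ℕ} {u : ℝ} (hc : 0 < c) (h : (c : ℝ) * u ≤ (σ : ℝ) / SC) :
    u ≤ (cdv σ c : ℝ) / SC := by
  have e : σ ≤ c * cdv σ c := by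
    rw [cdv, force_eq]
    have := Nat.lt_mul_div_succ (σ + (c - 1)) hc
    show σ ≤ c * ((σ + (c - 1)) / c)
    rw [mul_add] at this
    omega
  have e' := h.trans (cdiv e)
  rw [Nat.cast_mul, mul_div_assoc] at e'
  exact le_of_mul_le_mul_left e' (by exact_mod_cast hc)

lemma tHi_ok {k σ lo : ℕ} {y : Pt} (h1 : ∀ j < k, (get lo j : ℝ) / SC ≤ y j) (l : List ℕ) :
    ∀ hi, (∀ e ∈ l, nd e < k) →
      (l.map fun e => (cf e : ℝ) * (y (nd e) - (get lo (nd e) : ℝ) / SC)).sum ≤ (σ : ℝ) / SC →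
      (∀ j < k, y j ≤ (get hi j : ℝ) / SC) → ∀ j < k, y j ≤ (get (tHi σ lo l hi) j : ℝ) / SC := by
  induction l with
  | nil => exact fun hi _ _ h => h
  | cons e l ih =>
    intro hi hl hs h2
    rw [List.forall_mem_cons] at hl
    rw [List.map_cons, List.sum_cons] at hs
    have n0 := mul_nonneg (Nat.cast_nonneg (cf e)) (sub_nonneg.2 (h1 _ hl.1))
    have n1 := sum_nn (f := fun e => (cf e : ℝ) * (y (nd e) - (get lo (nd e) : ℝ) / SC))
      fun e he => mul_nonneg (Nat.cast_nonneg _) (sub_nonneg.2 (h1 _ (hl.2 e he)))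
    have e1 : tHi σ lo (e :: l) hi = force (nd e) fun j => force (Nat.add (get lo j)
        (cdv σ (cnd (dup e l) (Nat.mul 2 (cf e)) (cf e)))) fun v =>
        cnd (Nat.blt v (get hi j)) (force (put hi j v) (tHi σ lo l)) (tHi σ lo l hi) := rfl
    have e2 : y (nd e) ≤ ((Nat.add (get lo (nd e))
        (cdv σ (cnd (dup e l) (Nat.mul 2 (cf e)) (cf e))) : ℕ) : ℝ) / SC := by
      rw [Nat.add_eq, Nat.cast_add, add_div, cnd_eq, ← sub_le_iff_le_add']
      split_ifs with c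
      · cases l with
        | nil => exact absurd c Bool.false_ne_true
        | cons f l =>
          obtain rfl : e = f := Nat.eq_of_beq_eq_true c
          rw [List.map_cons, List.sum_cons] at hs
          have n2 := sum_nn (f := fun e => (cf e : ℝ) * (y (nd e) - (get lo (nd e) : ℝ) / SC))
            (l := l) fun e he => mul_nonneg (Nat.cast_nonneg _)
              (sub_nonneg.2 (h1 _ (hl.2 e (List.mem_cons_of_mem _ he))))
          refine cdv_ok (Nat.mul_pos two_pos (Nat.succ_pos _)) ?_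
          rw [Nat.mul_eq, Nat.cast_mul, Nat.cast_ofNat]
          linarith
      · exact cdv_ok (Nat.succ_pos _) (by linarith)
    rw [e1, force_eq, force_eq, cnd_eq, force_eq]
    split_ifs with c
    · refine ih _ hl.2 (by linarith) fun j hj => ?_
      rw [Nat.blt_eq] at c
      rw [get_put _ _ (c.trans (get_lt hi _))]
      split_ifs with d
      · rwa [d]
      · exact h2 j hj
    · exact ih _ hl.2 (by linarith) h2

lemma tLo_ok {k σ hi : ℕ} {y : Pt} (h1 : ∀ j < k, y j ≤ (get hi j : ℝ) / SC) (l : List ℕ) :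
    ∀ lo, (∀ e ∈ l, nd e < k) →
      (l.map fun e => (cf e : ℝ) * ((get hi (nd e) : ℝ) / SC - y (nd e))).sum ≤ (σ : ℝ) / SC →
      (∀ j < k, (get lo j : ℝ) / SC ≤ y j) → ∀ j < k, (get (tLo σ hi l lo) j : ℝ) / SC ≤ y j := by
  induction l with
  | nil => exact fun hi _ _ h => h
  | cons e l ih =>
    intro lo hl hs h2
    rw [List.forall_mem_cons] at hl
    rw [List.map_cons, List.sum_cons] at hs
    have n0 := mul_nonneg (Nat.cast_nonneg (cf e)) (sub_nonneg.2 (h1 _ hl.1))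
    have n1 := sum_nn (f := fun e => (cf e : ℝ) * ((get hi (nd e) : ℝ) / SC - y (nd e)))
      fun e he => mul_nonneg (Nat.cast_nonneg _) (sub_nonneg.2 (h1 _ (hl.2 e he)))
    have e1 : tLo σ hi (e :: l) lo = force (nd e) fun j =>
        force (Nat.sub (get hi j) (cdv σ (cf e))) fun v =>
        cnd (Nat.blt (get lo j) v) (force (put lo j v) (tLo σ hi l)) (tLo σ hi l lo) := rfl
    have e2 : (get hi (nd e) : ℝ) / SC - y (nd e) ≤ (cdv σ (cf e) : ℝ) / SC :=
      cdv_ok (Nat.succ_pos _) (by linarith)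
    rw [e1, force_eq, force_eq, cnd_eq, force_eq]
    split_ifs with c
    · refine ih _ hl.2 (by linarith) fun j hj => ?_
      rw [Nat.blt_eq, Nat.sub_eq] at c
      rw [Nat.sub_eq, get_put _ _ ((Nat.sub_le _ _).trans_lt (get_lt hi _))]
      split_ifs with d
      · rw [d, Nat.cast_sub (by omega), sub_div]
        linarith
      · exact h2 j hj
    · exact ih _ hl.2 (by linarith) h2

lemma map_sub (f g : ℕ → ℝ) (l : List ℕ) :
    (l.map fun e => f e - g e).sum = (l.map f).sum - (l.map g).sum := by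
  induction l with
  | nil => simp
  | cons e l ih => simp only [List.map_cons, List.sum_cons, ih]; ring

lemma sumL_cast (v : ℕ) (l : List ℕ) :
    (l.map fun e => (cf e : ℝ) * ((get v (nd e) : ℝ) / SC)).sum = (sumL v l : ℝ) / SC := by
  rw [sumL_eq]
  induction l with
  | nil => simp
  | cons e l ih =>
    simp only [List.map_cons, List.sum_cons, ih, Nat.cast_add, add_div, Nat.cast_mul, mul_div_assoc]

lemma nrm_cases {k : ℕ} (rs : List Rw) : ∀ (lo hi : ℕ) (K : ℕ → ℕ → List Rw → ℕ),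
    (∀ r ∈ rs, r.In k) →
    (nrm rs lo hi K = 0 ∧ ∀ y, Bx k lo hi y → ¬ ∀ r ∈ rs, r.ok y) ∨
      ∃ lo' hi' rs', nrm rs lo hi K = K lo' hi' rs' ∧ (∀ r ∈ rs', r ∈ rs) ∧
        ∀ y, Bx k lo hi y → (∀ r ∈ rs, r.ok y) → Bx k lo' hi' y := by
  induction rs with
  | nil => exact fun lo hi K _ => Or.inr ⟨lo, hi, [], rfl, fun _ h => h, fun _ h _ => h⟩
  | cons r rs ih =>
    intro lo hi K hr
    rw [List.forall_mem_cons] at hr
    have e1 : nrm (r :: rs) lo hi K = force (Nat.add r.c1 (sumL lo r.l1)) fun a =>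
        force (Nat.add r.c2 (sumL hi r.l2)) fun b => cnd (Nat.blt b a) 0
        (cnd (Nat.ble (Nat.add r.c1 (sumL hi r.l1)) (Nat.add r.c2 (sumL lo r.l2))) (nrm rs lo hi K)
          (force (Nat.sub b a) fun σ => force (tHi σ lo r.l1 hi) fun hi' =>
           force (tLo σ hi r.l2 lo) fun lo' =>
           nrm rs lo' hi' fun lo2 hi2 rs2 => K lo2 hi2 (r :: rs2))) := rfl
    simp only [e1, force_eq, cnd_eq, Nat.blt_eq, Nat.add_eq, Nat.sub_eq, List.forall_mem_cons]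
    split_ifs with c1 c2
    · refine Or.inl ⟨rfl, fun y hy h => ?_⟩
      have g : ((r.c2 + sumL hi r.l2 : ℕ) : ℝ) / SC < ((r.c1 + sumL lo r.l1 : ℕ) : ℝ) / SC :=
        div_lt_div_of_pos_right (by exact_mod_cast c1) SC_pos
      simp only [Nat.cast_add, add_div] at g
      have := h.1
      rw [Rw.ok] at this
      linarith [hy.lb hr.1.1, hy.ub hr.1.2]
    · rcases ih lo hi K hr.2 with g | ⟨lo', hi', rs', g1, g2, g3⟩
      · exact Or.inl ⟨g.1, fun y hy h => g.2 y hy h.2⟩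
      · exact Or.inr ⟨lo', hi', rs', g1, fun q hq => List.mem_cons_of_mem _ (g2 q hq),
          fun y hy h => g3 y hy h.2⟩
    · have key : ∀ y, Bx k lo hi y → r.ok y →
          Bx k (tLo (r.c2 + sumL hi r.l2 - (r.c1 + sumL lo r.l1)) hi r.l2 lo)
            (tHi (r.c2 + sumL hi r.l2 - (r.c1 + sumL lo r.l1)) lo r.l1 hi) y := by
        intro y hy h j hj
        rw [Rw.ok] at h
        have a1 := hy.lb hr.1.1
        have a2 := hy.ub hr.1.2
        refine ⟨tLo_ok (fun j hj => (hy j hj).2) _ _ hr.1.2 ?_ (fun j hj => (hy j hj).1) j hj,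
          tHi_ok (fun j hj => (hy j hj).1) _ _ hr.1.1 ?_ (fun j hj => (hy j hj).2) j hj⟩ <;>
        · simp only [mul_sub]
          rw [map_sub, sumL_cast, Nat.cast_sub (not_lt.1 c1)]
          simp only [Nat.cast_add, add_div, sub_div]
          unfold W at *
          linarith
      rcases ih _ _ (fun lo2 hi2 rs2 => K lo2 hi2 (r :: rs2)) hr.2 with
        g | ⟨lo', hi', rs', g1, g2, g3⟩
      · exact Or.inl ⟨g.1, fun y hy h => g.2 y (key y hy h.1) h.2⟩
      · exact Or.inr ⟨lo', hi', r :: rs', g1, List.forall_mem_cons.2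
          ⟨List.mem_cons_self, fun q hq => List.mem_cons_of_mem _ (g2 q hq)⟩,
          fun y hy h => g3 y (key y hy h.1) h.2⟩

variable {t : ℝ} {sg : Bool} {S : NS} {A : ℕ → Finset ℕ} {ih : Bool → NS → ℕ → ℕ}

lemma Inv.upd (h : Inv S A) (lo hi : ℕ) {rs : List Rw} (hr : ∀ r ∈ rs, r.In S.k) :
    Inv ⟨S.k, S.par, S.kd, lo, hi, rs⟩ A :=
  ⟨h.pos, h.kv, h.par, h.sub, h.top, h.tree, hr, h.le⟩

lemma val_empty (R : Rules) (h : ∀ A a, Inv S A → ¬ Om S A a) : Val t sg S 0 := fun _ A hI =>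
  R.mono sg t 0 _ _ _ _ _ hI.pos hI.kv (by simp) (fun a ha _ _ => h A a hI ha) (R.empty sg t _ _)

lemma nrm_ok (R : Rules) (H : ∀ sg S s, Val t sg S (ih sg S s)) (s : ℕ) :
    Val t sg S (nrm S.rs S.lo S.hi fun lo hi rs => ih sg ⟨S.k, S.par, S.kd, lo, hi, rs⟩ s) := by
  intro hl A hI
  rcases nrm_cases S.rs S.lo S.hi (fun lo hi rs => ih sg ⟨S.k, S.par, S.kd, lo, hi, rs⟩ s)
    hI.rows with g | ⟨lo, hi, rs, g1, g2, g3⟩
  · rw [g.1]
    exact R.mono sg t 0 _ _ _ _ _ hI.pos hI.kv (by simp) (fun a ha _ _ => g.2 _ ha.1 ha.2)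
      (R.empty sg t _ _)
  · rw [g1] at hl ⊢
    exact R.mono sg t _ _ _ _ _ _ hI.pos hI.kv le_rfl
      (fun a ha _ _ => ⟨g3 _ ha.1 ha.2, fun r hr => ha.2 r (g2 r hr)⟩)
      (H sg _ s hl A (hI.upd lo hi fun r hr => hI.rows r (g2 r hr)))

lemma emp_ok (R : Rules) (d : ℕ) : Val t sg S (grd (imp S ⟨1, [], 0, []⟩ d) 0) :=
  Val.grd fun h => val_empty R fun A a hI ha => by
    have := imp_ok h hI ha ⟨by simp, by simp⟩
    simp only [Rw.ok, List.map_nil, List.sum_nil, Nat.cast_one, Nat.cast_zero, zero_div,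
      add_zero] at this
    exact this.not_gt (one_div_pos.2 SC_pos)

lemma empW_ok (R : Rules) (d : ℕ) : Val t sg S (grd (impW S ⟨1, [], 0, []⟩ d) 0) :=
  Val.grd fun h => val_empty R fun A a hI ha => by
    have := impW_ok h hI ha ⟨by simp, by simp⟩
    simp only [Rw.ok, List.map_nil, List.sum_nil, Nat.cast_one, Nat.cast_zero, zero_div,
      add_zero] at this
    exact this.not_gt (one_div_pos.2 SC_pos)

lemma val_two {s : ℕ} {f g : ℕ → ℕ}
    (h : ∀ u v, f u < INF → g v < INF → ∀ A, Inv S A →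
      H sg t S.k S.kind (Om S A) ((f u : ℝ) / 10 ^ 9 + (g v : ℝ) / 10 ^ 9)) :
    Val t sg S (two s f g) := by
  simp only [two, force_eq, Nat.add_eq]
  intro hl A hI
  rw [Nat.cast_add, add_div]
  exact h _ _ (by omega) (by omega) A hI

lemma spl_ok (R : Rules) (H : ∀ sg S s, Val t sg S (ih sg S s)) {j c : ℕ} (hc : c < 16777216)
    (s : ℕ) : Val t sg S (spl ih sg S j c s) := by
  refine Val.grd fun h => val_two fun u v h1 h2 A hI => ?_
  simp only [band_eq, Bool.and_eq_true, Nat.blt_eq, force_eq] at h h1 h2 ⊢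
  obtain ⟨s1, s2, s3⟩ := hI.sub j h.2
  have e : ∀ a, Row.val ⟨A j, ∅, (c : ℝ) / SC⟩ a = Y A a j := fun a => by simp [Row.val, Y]
  refine R.split sg t _ _ _ _ _ ⟨A j, ∅, (c : ℝ) / SC⟩
    ⟨s1, empty_subset _, disjoint_empty_right _, ⟨j, mem_union_left _ s2⟩,
      fun g => (s3 h.1.ne' (g.ge (mem_range.2 hI.pos))).elim,
      fun g => (notMem_empty 0 (g.ge (mem_range.2 hI.pos))).elim⟩
    (R.mono sg t _ _ _ _ _ _ hI.pos hI.kv le_rfl (fun a ha _ _ => ⟨fun n hn => ?_, ha.1.2⟩)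
      (H sg _ u h1 A (hI.upd _ _ hI.rows)))
    (R.mono sg t _ _ _ _ _ _ hI.pos hI.kv le_rfl (fun a ha _ _ => ⟨fun n hn => ?_, ha.1.2⟩)
      (H sg _ v h2 A (hI.upd _ _ hI.rows)))
  · refine ⟨(ha.1.1 n hn).1, ?_⟩
    simp only [get_put _ _ hc]
    split_ifs with d
    · rw [d, ← e]
      exact ha.2
    · exact (ha.1.1 n hn).2
  · refine ⟨?_, (ha.1.1 n hn).2⟩
    simp only [get_put _ _ hc]
    split_ifs with d
    · rw [d, ← e]
      exact ha.2
    · exact (ha.1.1 n hn).1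

lemma spa_ok (R : Rules) (H : ∀ sg S s, Val t sg S (ih sg S s)) (X X' c1 c2 s : ℕ) :
    Val t sg S (spa ih sg S X X' c1 c2 s) := by
  refine Val.grd fun h => val_two fun u v h1 h2 A hI => ?_
  simp only [band_eq, bor_eq, bnot_eq, Bool.and_eq_true, Bool.or_eq_true, Nat.beq_eq, anyN_iff,
    Bool.not_eq_true', addRow_eq, ← Bool.not_eq_true, Nat.add_eq] at h h1 h2 ⊢
  obtain ⟨⟨g1, n, hn, g2⟩, g3, g4⟩ := h
  have hSC : (SC : ℝ) = 1000000 := by norm_num [SC]
  refine R.split sg t _ _ _ _ _ ⟨(range S.k).filter fun i => bit X i = true,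
      (range S.k).filter fun i => bit X' i = true, ((c2 : ℝ) - c1) / SC⟩
    ⟨filter_subset _ _, filter_subset _ _, disjoint_filter.2 fun i _ e1 e2 => ?_,
      ⟨n, by simpa [hn] using g2⟩, fun _ e => g3 ?_, fun _ e => g4 ?_⟩
    (R.mono sg t _ _ _ _ _ _ hI.pos hI.kv le_rfl (fun a ha _ _ => ⟨ha.1.1,
        List.forall_mem_cons.2 ⟨(rowOf_iff hI _ _ _ _ a).2 ?_, ha.1.2⟩⟩)
      (H sg _ u h1 A (hI.upd _ _ (List.forall_mem_cons.2 ⟨rowOf_lt _ _ _ _ _ _, hI.rows⟩))))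
    (R.mono sg t _ _ _ _ _ _ hI.pos hI.kv le_rfl (fun a ha _ _ => ⟨ha.1.1,
        List.forall_mem_cons.2 ⟨(rowOf_iff hI _ _ _ _ a).2 ?_, ha.1.2⟩⟩)
      (H sg _ v h2 A (hI.upd _ _ (List.forall_mem_cons.2 ⟨rowOf_lt _ _ _ _ _ _, hI.rows⟩))))
  · have := congrArg (·.testBit i) g1
    rw [bit_eq] at e1 e2
    simp [Nat.land_eq, Nat.testBit_and, e1, e2] at this
  · rw [div_eq_iff SC_pos.ne', hSC] at e
    exact_mod_cast (by linarith : (c2 : ℝ) = c1 + 1000000)
  · rw [div_eq_iff SC_pos.ne', hSC] at e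
    exact_mod_cast (by linarith : (c1 : ℝ) = c2 + 1000000)
  · have : ms S.k X a - ms S.k X' a ≤ ((c2 : ℝ) - c1) / SC := ha.2
    rw [sub_div] at this
    linarith
  · have : ((c2 : ℝ) - c1) / SC ≤ ms S.k X a - ms S.k X' a := ha.2
    rw [sub_div] at this
    linarith

end Pool.Agent.MP_c853c5_nt.X
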