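import Pool.Agent.MP_c853c5_nt.X.CarveD
import Pool.Agent.MP_c853c5_nt.X.GSplit
import Pool.Agent.MP_c853c5_nt.X.LeafN
import Pool.Agent.MP_c853c5_nt.X.SndB

/-!
Soundness of the rule that cuts out a polytope.
-/

set_option autoImplicit false

open Finset

namespace Pool.Agent.MP_c853c5_nt.X

open Pool.Agent.MP_c853c5_nt.S Pool.Agent.MP_c853c5_nt.REG

lemma ent_ok {d j : ℕ} (hj : j < 16) : nd (ent d j) = j ∧ cf (ent d j) = d + 1 := by
  have e : ent d j = d * 16 + j := by rw [ent, Nat.add_eq, Nat.shiftLeft_eq', Nat.shiftLeft_eq]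
  constructor
  · show ent d j % 16 = j
    omega
  · show ent d j >>> 4 + 1 = d + 1
    rw [Nat.shiftRight_eq_div_pow]
    omega

lemma W_ent {p q j : ℕ} (hj : j < 16) (h : q < p) (y : Pt) :
    W y (ent (Nat.pred (Nat.sub p q)) j) = ((p : ℝ) - q) * y j := by
  rw [W, (ent_ok hj).1, (ent_ok hj).2, ← Nat.cast_sub h.le, Nat.pred_eq_sub_one, Nat.sub_eq,
    Nat.sub_add_cancel (by omega)]

lemma mkRow_ok (par G c n : ℕ) (hn : n < 16) : ∃ (m : ℕ) (l1 l2 : List ℕ),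
    (∀ K, mkRow par G c n K = K m l1 l2) ∧ (∀ e ∈ l1, nd e < n + 1) ∧ (∀ e ∈ l2, nd e < n + 1) ∧
      (m : ℝ) = ∑ j ∈ Ico 1 (n + 1), |wt c G j - wt c G (get par j)| ∧
      ∀ y : Pt, (l1.map (W y)).sum - (l2.map (W y)).sum =
        ∑ j ∈ Ico 1 (n + 1), (wt c G j - wt c G (get par j)) * y j := by
  induction n with
  | zero => exact ⟨0, [], [], fun _ => rfl, by simp, by simp, by simp, by simp⟩
  | succ n ih =>
    obtain ⟨m, l1, l2, h1, h2, h3, h4, h5⟩ := ih (by omega)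
    have h2' : ∀ e ∈ l1, nd e < n + 1 + 1 := fun e he => (h2 e he).trans (by omega)
    have h3' : ∀ e ∈ l2, nd e < n + 1 + 1 := fun e he => (h3 e he).trans (by omega)
    simp only [sum_Ico_succ_top (show 1 ≤ n + 1 by omega), ← h4, ← h5]
    simp only [wt]
    have e : ∀ K, mkRow par G c (n + 1) K =
        force (dg c (12 * d4 G (n + 1))) fun p => force (dg c (12 * d4 G (get par (n + 1)))) fun q =>
        cnd (Nat.blt q p)
          (mkRow par G c n fun m l1 l2 =>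
            K (Nat.sub p q + m) (ent (Nat.pred (Nat.sub p q)) (n + 1) :: l1) l2)
          (cnd (Nat.blt p q)
            (mkRow par G c n fun m l1 l2 =>
              K (Nat.sub q p + m) l1 (ent (Nat.pred (Nat.sub q p)) (n + 1) :: l2))
            (mkRow par G c n K)) := fun K => by
      simp only [mkRow, force_eq]
      rfl
    simp only [force_eq, cnd_eq, Nat.blt_eq, h1] at e
    generalize dg c (12 * d4 G (n + 1)) = p at *
    generalize dg c (12 * d4 G (get par (n + 1))) = q at *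
    rcases lt_trichotomy q p with g | rfl | g
    · have g' : (q : ℝ) ≤ p := Nat.cast_le.2 g.le
      refine ⟨_, _, _, fun K => by rw [e, if_pos g], List.forall_mem_cons.2
        ⟨by rw [(ent_ok hn).1]; omega, h2'⟩, h3', ?_, fun y => ?_⟩
      · rw [Nat.cast_add, Nat.sub_eq, Nat.cast_sub g.le, abs_of_nonneg (sub_nonneg.2 g'), add_comm]
      · rw [List.map_cons, List.sum_cons, W_ent hn g]
        ring
    · exact ⟨m, l1, l2, fun K => by rw [e, if_neg (lt_irrefl _), if_neg (lt_irrefl _)], h2', h3',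
        by simp, by simp⟩
    · have g' : (p : ℝ) ≤ q := Nat.cast_le.2 g.le
      refine ⟨_, _, _, fun K => by rw [e, if_neg g.not_gt, if_pos g], h2', List.forall_mem_cons.2
        ⟨by rw [(ent_ok hn).1]; omega, h3'⟩, ?_, fun y => ?_⟩
      · rw [Nat.cast_add, Nat.sub_eq, Nat.cast_sub g.le, abs_of_nonpos (sub_nonpos.2 g')]
        ring
      · rw [List.map_cons, List.sum_cons, W_ent hn g]
        ring

variable {S : NS} {A : ℕ → Finset ℕ} {t : ℝ} {sg : Bool} {tn : ℕ}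

/-- the row `y` holds at all points of total size one near `a` -/
def Pr (k G : ℕ) (y : ℕ × ℕ) (a : Pt) : Prop := ∀ b : Pt,
  (∀ i < k, 0 ≤ b i ∧ a i - un ≤ b i ∧ b i ≤ a i + un) → ∑ i ∈ range k, b i = 1 →
    ∑ i ∈ range k, wt y.1 G i * b i ≤ (y.2 : ℝ) / SC

lemma leaf2_pr (R : Rules) (h1 : 1 / 3 ≤ t) (h2 : t < (tn : ℝ) / SC) (h3 : (tn : ℝ) / SC ≤ 1 / 2)
    {x : PP} {G : ℕ} (hL : Leaf2) (hx : x.Good tn) (hI : Inv S A) (hP : hasP S = true)
    (hG : ∀ j < S.k, d4 G j < x.k) :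
    H sg t S.k S.kind (fun a => ∀ y ∈ x.P, Pr S.k G y a) 0 := by
  obtain ⟨p, hp, hp0⟩ := hasP_ok hP
  refine H.big (R.leaf2 hL sg _ t _ _ _ h1 h2 h3 hI.pos hI.kv fun B a ha _ hc => ?_)
  have u := un_eq_SndL
  refine reg2_of (η := 1 / 10000) (K := 64) (i := ⟨p, hp⟩) (by linarith) (by norm_num)
    ((hc ⟨p, hp⟩).2.2.2 (kind_P hp0)) (by linarith [(hc ⟨p, hp⟩).1, ha.2 p hp])
    fun w hw hs => hx _ w (fun j => d4 G j) (fun j => hG j j.2) (fun j => (hw j).1) hs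
      fun y hy => ?_
  have := ha.1 y hy (fun i => if h : i < S.k then w ⟨i, h⟩ else 0) (fun i hi => by
    rw [dif_pos hi]
    exact ⟨(hw _).1, (hc ⟨i, hi⟩).1.trans (hw _).2.1, (hw _).2.2.trans (hc ⟨i, hi⟩).2.1⟩)
    (by simpa only [sum_range, Fin.is_lt, dif_pos, Fin.eta] using hs)
  simpa only [sum_range, Fin.is_lt, dif_pos, Fin.eta, wt] using this

lemma H.anti {k : ℕ} {kind : ℕ → Kind} {Ω Ω' : Pt → Prop} {l : ℝ} (h : H sg t k kind Ω' l)
    (e : ∀ a, Ω a → Ω' a) : H sg t k kind Ω l :=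
  fun Q hQ hΩ => h Q hQ fun a ha => ⟨e a (hΩ a ha).1, (hΩ a ha).2⟩

/-- the list of weights is sound for the box of `S` -/
def RLok (S : NS) (A : ℕ → Finset ℕ) (G : ℕ) (r : RL) : Prop := ∀ (c u v : ℕ) (b : Pt),
  (∀ j < S.k, Bx16 S (Y A b) j) → rowLe c r u v = true →
    (u : ℝ) / SC + (if false = true then -1 else 1) *
      (∑ i ∈ range S.k, wt c G i * b i - wt c G 0 * Y A b 0) ≤ (v : ℝ) / SC

/-- propagation inside a region -/
lemma nrm_in (hI : Inv S A) {K : ℕ → ℕ → List Rw → ℕ} {Ψ : Pt → Prop}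
    (h : ∀ lo hi rs, Inv ⟨S.k, S.par, S.kd, lo, hi, rs⟩ A → K lo hi rs < INF →
      H sg t S.k S.kind (fun a => Ψ a ∧ Om ⟨S.k, S.par, S.kd, lo, hi, rs⟩ A a)
        ((K lo hi rs : ℝ) / 10 ^ 9)) (hl : nrm S.rs S.lo S.hi K < INF) :
    H sg t S.k S.kind (fun a => Ψ a ∧ Om S A a) ((nrm S.rs S.lo S.hi K : ℝ) / 10 ^ 9) := by
  rcases nrm_cases S.rs S.lo S.hi K hI.rows with g | ⟨lo, hi, rs, g1, g2, g3⟩
  · rw [g.1, Nat.cast_zero, zero_div]
    exact (xEmpty sg t _ _).anti fun a ha => g.2 _ ha.2.1 ha.2.2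
  · rw [g1] at hl ⊢
    exact (h lo hi rs (hI.upd lo hi fun r hr => hI.rows r (g2 r hr)) hl).anti
      fun a ha => ⟨ha.1, g3 _ ha.2.1 ha.2.2, fun r hr => ha.2.2 r (g2 r hr)⟩

lemma lip_Y (hI : Inv S A) {j : ℕ} (hj : j < S.k) : Lip S.k fun a => Y A a j :=
  Lip.sum _ fun _ hi => Lip.coord (mem_range.1 ((hI.sub j hj).1 hi))

lemma crv_ok {ih : NS → ℕ → ℕ} (hH : ∀ S s, Val t sg S (ih S s)) {k par kd G : ℕ} (hk : k ≤ 16)
    (P : List (ℕ × ℕ)) : ∀ (lo hi : ℕ) (rs : List Rw) (r : RL) (s : ℕ) (Ψ : Pt → Prop),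
    Inv ⟨k, par, kd, lo, hi, rs⟩ A → RLok ⟨k, par, kd, lo, hi, rs⟩ A G r →
    H sg t k (NS.kind ⟨k, par, kd, lo, hi, rs⟩) (fun a => Ψ a ∧ ∀ y ∈ P, Pr k G y a) 0 →
    crv ih k par kd G (Nat.mul 12 (d4 G 0)) P lo hi rs r s < INF →
    H sg t k (NS.kind ⟨k, par, kd, lo, hi, rs⟩) (fun a => Ψ a ∧ Om ⟨k, par, kd, lo, hi, rs⟩ A a)
      ((crv ih k par kd G (Nat.mul 12 (d4 G 0)) P lo hi rs r s : ℝ) / 10 ^ 9) := by
  induction P with
  | nil =>
    intro lo hi rs r s Ψ _ _ h _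
    rw [show crv ih k par kd G (Nat.mul 12 (d4 G 0)) [] lo hi rs r s = 0 from rfl, Nat.cast_zero,
      zero_div]
    exact h.anti fun a ha => ⟨ha.1, by simp⟩
  | cons y P IH =>
    intro lo hi rs r s Ψ hI hr h hl
    have k1 : 1 ≤ k := hI.pos
    obtain ⟨m, l1, l2, e1, i1, i2, e2, e3⟩ := mkRow_ok par G y.1 (Nat.pred k)
      (by rw [Nat.pred_eq_sub_one]; omega)
    rw [show Nat.pred k + 1 = k by rw [Nat.pred_eq_sub_one]; omega] at i1 i2 e2 e3
    have h' : H sg t k (NS.kind ⟨k, par, kd, lo, hi, rs⟩)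
        (fun a => (Ψ a ∧ Pr k G y a) ∧ ∀ z ∈ P, Pr k G z a) 0 :=
      h.anti fun a ha => ⟨ha.1.1, List.forall_mem_cons.2 ⟨ha.1.2, ha.2⟩⟩
    have w0 : ((Nat.mul (dg y.1 (Nat.mul 12 (d4 G 0))) 1000000 : ℕ) : ℝ) / SC = wt y.1 G 0 := by
      rw [Nat.mul_eq, Nat.cast_mul, SC_eq_SndL, wt]
      simp
    have e : crv ih k par kd G (Nat.mul 12 (d4 G 0)) (y :: P) lo hi rs r s =
        force (Nat.mul (dg y.1 (Nat.mul 12 (d4 G 0))) 1000000) fun u =>
        cnd (rowLe y.1 r u y.2) (crv ih k par kd G (Nat.mul 12 (d4 G 0)) P lo hi rs r s)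
          (mkRow par G y.1 (Nat.pred k) fun m l1 l2 =>
            force (Nat.add u (Nat.mul 16 m)) fun c => force y.2 fun e =>
            two s
              (fun v => force (Nat.succ c) fun c' => nrm (⟨e, l2, c', l1⟩ :: rs) lo hi
                fun lo' hi' rs' => ih ⟨k, par, kd, lo', hi', rs'⟩ v)
              fun v => nrm (⟨c, l1, e, l2⟩ :: rs) lo hi fun lo' hi' rs' =>
                mkRL ⟨k, par, kd, lo', hi', rs'⟩ G false (Nat.pred k) fun r' =>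
                  crv ih k par kd G (Nat.mul 12 (d4 G 0)) P lo' hi' rs' r' v) := by
      simp only [crv]
    rw [e, force_eq, cnd_eq] at hl ⊢
    generalize Nat.mul (dg y.1 (Nat.mul 12 (d4 G 0))) 1000000 = u at *
    have y0 : ∀ b : Pt, Y A b 0 = ∑ i ∈ range k, b i := fun b => by rw [Y, hI.top]
    split_ifs at hl ⊢ with c
    · refine (IH lo hi rs r s _ hI hr h' hl).anti fun a ha => ⟨⟨ha.1, fun b hb hs => ?_⟩, ha.2⟩
      have := hr _ _ _ b (fun j hj => bx16_of hI ha.2 hk hb hj) c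
      simp only [Bool.false_eq_true, if_false, one_mul, y0, hs, w0] at this
      linarith
    simp only [e1, force_eq, two, Nat.add_eq] at hl ⊢
    generalize Nat.mod (Nat.shiftRight s 16) (one (Nat.mod s 65536)) = v at *
    generalize Nat.shiftRight (Nat.shiftRight s 16) (Nat.mod s 65536) = v' at *
    have I1 := hI.upd lo hi (rs := ⟨y.2, l2, Nat.succ (u + Nat.mul 16 m), l1⟩ :: rs)
      (List.forall_mem_cons.2 ⟨⟨i2, i1⟩, hI.rows⟩)
    have I2 := hI.upd lo hi (rs := ⟨u + Nat.mul 16 m, l1, y.2, l2⟩ :: rs)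
      (List.forall_mem_cons.2 ⟨⟨i1, i2⟩, hI.rows⟩)
    have a1 := nrm_in (sg := sg) (t := t) (Ψ := fun _ => True) I1
      (K := fun lo' hi' rs' => ih ⟨k, par, kd, lo', hi', rs'⟩ v)
      (fun lo' hi' rs' I g => (hH _ v g A I).anti fun a ha => ha.2) (lt_of_le_of_lt le_self_add hl)
    have a2 := nrm_in (sg := sg) (t := t) (Ψ := fun a => Ψ a ∧ Pr k G y a) I2
      (K := fun lo' hi' rs' => mkRL ⟨k, par, kd, lo', hi', rs'⟩ G false (Nat.pred k) fun r' =>
        crv ih k par kd G (Nat.mul 12 (d4 G 0)) P lo' hi' rs' r' v')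
      (fun lo' hi' rs' I g => by
        obtain ⟨r', g1, g2⟩ := row_ok I G false
        rw [g1] at g ⊢
        exact IH lo' hi' rs' r' v' _ I g2 h' g) (lt_of_le_of_lt le_add_self hl)
    have cc : ((u + Nat.mul 16 m : ℕ) : ℝ) / SC = wt y.1 G 0 + m * (16 / SC) := by
      rw [Nat.cast_add, add_div, w0, Nat.mul_eq, Nat.cast_mul, Nat.cast_ofNat]
      ring
    rw [Nat.cast_add, add_div, add_comm]
    refine xGSplit (f := fun a => ∑ j ∈ Ico 1 k, (wt y.1 G j - wt y.1 G (get par j)) * Y A a j)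
      (e := (y.2 : ℝ) / SC - ((u + Nat.mul 16 m : ℕ) : ℝ) / SC - 1 / SC)
      (e' := (y.2 : ℝ) / SC - ((u + Nat.mul 16 m : ℕ) : ℝ) / SC)
      (Lip.sum _ fun j hj => (lip_Y hI (mem_Ico.1 hj).2).mul _)
      (sub_lt_self _ (one_div_pos.2 SC_pos)) k1 hI.kv
      (a2.anti fun a ha => ⟨⟨ha.1.1, fun b hb hs => ?_⟩, ha.1.2.1,
        List.forall_mem_cons.2 ⟨?_, ha.1.2.2⟩⟩)
      (a1.anti fun a ha => ⟨trivial, ha.1.2.1,
        List.forall_mem_cons.2 ⟨?_, ha.1.2.2⟩⟩)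
    · have g1 := wsum_near hI hk (wt y.1 G) (a := a) fun i hi => (hb i hi).2
      have g2 := ha.2
      rw [y0, hs, sum_add_distrib, ← sum_mul] at g1
      simp only [cc, e2] at g1 g2
      linarith
    · have g2 := ha.2
      simp only [← e3, Rw.ok] at g2 ⊢
      linarith
    · have g2 := ha.2
      simp only [← e3, Rw.ok, Nat.cast_succ, add_div] at g2 ⊢
      linarith

theorem carve_ok (R : Rules) (h1 : 1 / 3 ≤ t) (h2 : t < (tn : ℝ) / SC) (h3 : (tn : ℝ) / SC ≤ 1 / 2)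
    (hL : Leaf2) {PL : BT PP} (hx : PL.All (PP.Good tn)) {ih : Bool → NS → ℕ → ℕ}
    (hH : ∀ sg S s, Val t sg S (ih sg S s)) (sg : Bool) (S : NS) (s : ℕ) :
    Val t sg S (carve PL ih sg S s) := by
  simp only [carve, force_eq]
  refine Val.grd fun g hl A hI => ?_
  obtain ⟨r, e, hr⟩ := row_ok hI
    (Nat.mod (Nat.shiftRight s 16) (one (Nat.mul 4 S.k))) false
  rw [e] at hl ⊢
  simp only [band_eq, Bool.and_eq_true, Nat.ble_eq, allN_iff, Nat.blt_eq] at g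
  exact (crv_ok (hH sg) g.1 _ _ _ _ r _ (fun _ => True) hI hr
    ((leaf2_pr R h1 h2 h3 hL (hx.find _) hI g.2.1 g.2.2).anti fun _ ha => ha.2) hl).anti
      fun _ ha => ⟨trivial, ha⟩

end Pool.Agent.MP_c853c5_nt.X
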