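import Pool.Agent.MP_c853c5_nt.X.CvD
import Pool.Agent.MP_c853c5_nt.X.Carve

/-!
Soundness of the rule that cuts out a polytope in two passes.
-/

set_option autoImplicit false

open Finset

namespace Pool.Agent.MP_c853c5_nt.X

open Pool.Agent.MP_c853c5_nt.S Pool.Agent.MP_c853c5_nt.REG

variable {S : NS} {A : ℕ → Finset ℕ} {t : ℝ} {sg : Bool} {tn : ℕ}

lemma w0_cast (c G : ℕ) :
    ((Nat.mul (dg c (Nat.mul 12 (d4 G 0))) 1000000 : ℕ) : ℝ) / SC = wt c G 0 := by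
  rw [Nat.mul_eq, Nat.cast_mul, SC_eq_SndL, wt]
  simp

/-- the row of a polytope in node coordinates, and the cut along it -/
lemma cut_step (hI : Inv S A) (G : ℕ) (y : ℕ × ℕ) : ∃ (m : ℕ) (l1 l2 : List ℕ),
    (∀ K, mkRow S.par G y.1 (Nat.pred S.k) K = K m l1 l2) ∧ (∀ e ∈ l1, nd e < S.k) ∧
    (∀ e ∈ l2, nd e < S.k) ∧
    ∀ c, c = Nat.add (Nat.mul (dg y.1 (Nat.mul 12 (d4 G 0))) 1000000) (Nat.mul 16 m) →
      (∀ a, Rw.ok ⟨c, l1, y.2, l2⟩ (Y A a) → Pr S.k G y a) ∧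
      ∀ (Ω : Pt → Prop) (l l' : ℝ),
        H sg t S.k S.kind (fun a => Ω a ∧ Rw.ok ⟨c, l1, y.2, l2⟩ (Y A a)) l →
        H sg t S.k S.kind (fun a => Ω a ∧ Rw.ok ⟨y.2, l2, Nat.succ c, l1⟩ (Y A a)) l' →
        H sg t S.k S.kind Ω (l + l') := by
  have k1 := hI.pos
  have k2 := hI.le
  obtain ⟨m, l1, l2, e1, i1, i2, e2, e3⟩ := mkRow_ok S.par G y.1 (Nat.pred S.k)
    (by rw [Nat.pred_eq_sub_one]; omega)
  rw [show Nat.pred S.k + 1 = S.k by rw [Nat.pred_eq_sub_one]; omega] at i1 i2 e2 e3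
  refine ⟨m, l1, l2, e1, i1, i2, fun c hc => ⟨fun a g b hb hs => ?_, fun Ω l l' a2 a1 => ?_⟩⟩
  · have g1 := wsum_near hI k2 (wt y.1 G) (a := a) fun i hi => (hb i hi).2
    rw [Y, hI.top, hs, sum_add_distrib, ← sum_mul, ← e2, ← e3] at g1
    rw [Rw.ok, hc, Nat.add_eq, Nat.cast_add, add_div, w0_cast, Nat.mul_eq, Nat.cast_mul,
      Nat.cast_ofNat, mul_div_right_comm, mul_comm] at g
    linarith
  · refine xGSplit
      (f := fun a => ∑ j ∈ Ico 1 S.k, (wt y.1 G j - wt y.1 G (get S.par j)) * Y A a j)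
      (e := (y.2 : ℝ) / SC - (c : ℝ) / SC - 1 / SC) (e' := (y.2 : ℝ) / SC - (c : ℝ) / SC)
      (Lip.sum _ fun j hj => (lip_Y hI (mem_Ico.1 hj).2).mul _)
      (sub_lt_self _ (one_div_pos.2 SC_pos)) k1 hI.kv
      (a2.anti fun a ha => ⟨ha.1, ?_⟩) (a1.anti fun a ha => ⟨ha.1, ?_⟩)
    · have g2 := ha.2
      simp only [← e3, Rw.ok] at g2 ⊢
      linarith
    · have g2 := ha.2
      simp only [← e3, Rw.ok, Nat.cast_succ, add_div] at g2 ⊢
      linarith

/-- a sound test of implied rows -/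
def Imok (im : NS → Rw → ℕ → Bool) : Prop := ∀ (S : NS) (A : ℕ → Finset ℕ) (a : Pt) (r : Rw) (d : ℕ),
  im S r d = true → Inv S A → Om S A a → r.In S.k → r.ok (Y A a)

theorem impW_im : Imok impW := fun _ _ _ _ _ => impW_ok

theorem imp_im : Imok imp := fun _ _ _ _ _ => imp_ok

variable {im : NS → Rw → ℕ → Bool}

lemma vf_ok (hm : Imok im) (hI : Inv S A) {G : ℕ} {r : RL} (hr : RLok S A G r)
    (P : List (ℕ × ℕ)) : ∀ dn s, vf im S G (Nat.mul 12 (d4 G 0)) r P dn s < INF →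
    vf im S G (Nat.mul 12 (d4 G 0)) r P dn s = 0 ∧ ∀ a, Om S A a →
      (∀ i, bit dn i = true → Pr S.k G (nth P i) a) → ∀ y ∈ P, Pr S.k G y a := by
  induction P with
  | nil => exact fun _ _ _ => ⟨rfl, by simp⟩
  | cons y P IH =>
    intro dn s hl
    obtain ⟨m, l1, l2, e1, i1, i2, e2⟩ := cut_step (sg := true) (t := 0) hI G y
    have e : vf im S G (Nat.mul 12 (d4 G 0)) r (y :: P) dn s =
        force (Nat.shiftRight dn 1) fun dn' =>
        cnd (bit dn 0) (vf im S G (Nat.mul 12 (d4 G 0)) r P dn' s)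
          (force (Nat.mul (dg y.1 (Nat.mul 12 (d4 G 0))) 1000000) fun u =>
            cnd (rowLe y.1 r u y.2) (vf im S G (Nat.mul 12 (d4 G 0)) r P dn' s)
              (mkRow S.par G y.1 (Nat.pred S.k) fun m l1 l2 =>
                force (Nat.add u (Nat.mul 16 m)) fun c =>
                force (Nat.mul 12 (Nat.mod s 32)) fun n => force (Nat.shiftRight s 5) fun v =>
                force (Nat.mod v (one n)) fun d => grd (im S ⟨c, l1, y.2, l2⟩ d)
                  (force (Nat.shiftRight v n) (vf im S G (Nat.mul 12 (d4 G 0)) r P dn')))) := by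
      simp only [vf]
    have nx : ∀ s', vf im S G (Nat.mul 12 (d4 G 0)) r P (Nat.shiftRight dn 1) s' < INF →
        (∀ a, Om S A a → (bit dn 0 = true → Pr S.k G y a) → Pr S.k G y a) →
        vf im S G (Nat.mul 12 (d4 G 0)) r P (Nat.shiftRight dn 1) s' = 0 ∧ ∀ a, Om S A a →
          (∀ i, bit dn i = true → Pr S.k G (nth (y :: P) i) a) → ∀ z ∈ y :: P, Pr S.k G z a :=
      fun s' g f => ⟨(IH _ _ g).1, fun a ha h => List.forall_mem_cons.2 ⟨f a ha (h 0),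
        (IH _ _ g).2 a ha fun i hi => h (i + 1) (by
          rwa [bit_eq, Nat.shiftRight_eq, Nat.testBit_shiftRight, add_comm, ← bit_eq] at hi)⟩⟩
    simp only [e, force_eq, cnd_eq, e1] at hl ⊢
    split_ifs at hl ⊢ with c1 c2
    · exact nx _ hl fun _ _ g => g c1
    · refine nx _ hl fun a ha _ b hb hs => ?_
      have := hr _ _ _ b (fun j hj => bx16_of hI ha hI.le hb hj) c2
      rw [Y, hI.top] at this
      simp only [Bool.false_eq_true, if_false, one_mul, hs, w0_cast] at this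
      linarith
    · obtain ⟨g1, g2⟩ := grd_lt hl
      rw [g2] at hl ⊢
      exact nx _ hl fun a ha _ => (e2 _ rfl).1 a (hm _ _ _ _ _ g1 hI ha ⟨i1, i2⟩)

lemma cut_ok (hm : Imok im) {ih : NS → ℕ → ℕ} (hH : ∀ S s, Val t sg S (ih S s)) {k par kd G : ℕ}
    {P : List (ℕ × ℕ)} {Ψ : Pt → Prop}
    (h : H sg t k (fun j => kindOf (get kd j)) (fun a => Ψ a ∧ ∀ y ∈ P, Pr k G y a) 0) (n : ℕ) :
    ∀ (lo hi : ℕ) (rs : List Rw) (dn s : ℕ), Inv ⟨k, par, kd, lo, hi, rs⟩ A →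
    cut im ih k par kd G (Nat.mul 12 (d4 G 0)) P n lo hi rs dn s < INF →
    H sg t k (fun j => kindOf (get kd j))
      (fun a => (Ψ a ∧ ∀ i, bit dn i = true → Pr k G (nth P i) a) ∧ Om ⟨k, par, kd, lo, hi, rs⟩ A a)
      ((cut im ih k par kd G (Nat.mul 12 (d4 G 0)) P n lo hi rs dn s : ℝ) / 10 ^ 9) := by
  induction n with
  | zero =>
    intro lo hi rs dn s hI hl
    obtain ⟨r, g1, g2⟩ := row_ok hI G false
    have e : cut im ih k par kd G (Nat.mul 12 (d4 G 0)) P 0 lo hi rs dn s =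
      vf im ⟨k, par, kd, lo, hi, rs⟩ G (Nat.mul 12 (d4 G 0)) r P dn s := g1 _
    rw [e] at hl ⊢
    obtain ⟨g3, g4⟩ := vf_ok hm hI g2 P dn s hl
    rw [g3, Nat.cast_zero, zero_div]
    exact h.anti fun a ha => ⟨ha.1.1, g4 a ha.2 ha.1.2⟩
  | succ n IH =>
    intro lo hi rs dn s hI hl
    obtain ⟨m, l1, l2, e1, i1, i2, e2⟩ := cut_step (sg := sg) (t := t) hI G (nth P (Nat.mod s 64))
    have e : cut im ih k par kd G (Nat.mul 12 (d4 G 0)) P (n + 1) lo hi rs dn s =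
        force (Nat.mod s 64) fun i => force (Nat.mod (Nat.shiftRight s 6) 4) fun f =>
        force (nth P i).1 fun w => force (nth P i).2 fun e =>
        force (Nat.lor dn (one i)) fun dn' =>
        mkRow par G w (Nat.pred k) fun m l1 l2 =>
          force (Nat.add (Nat.mul (dg w (Nat.mul 12 (d4 G 0))) 1000000) (Nat.mul 16 m)) fun c =>
          two (Nat.shiftRight s 8)
            (fun v => force (Nat.succ c) fun c' => ih ⟨k, par, kd, lo, hi, ⟨e, l2, c', l1⟩ :: rs⟩ v)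
            fun v => cnd (Nat.beq f 0) (cut im ih k par kd G (Nat.mul 12 (d4 G 0)) P n lo hi
                (⟨c, l1, e, l2⟩ :: rs) dn' v)
              (cnd (Nat.beq f 1) (nrm (⟨c, l1, e, l2⟩ :: rs) lo hi fun lo' hi' rs' =>
                  cut im ih k par kd G (Nat.mul 12 (d4 G 0)) P n lo' hi' rs' dn' v)
                (cut im ih k par kd G (Nat.mul 12 (d4 G 0)) P n lo hi rs dn' v)) := by
      simp only [cut]
    simp only [e, force_eq, e1, two, Nat.add_eq] at hl ⊢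
    generalize Nat.mod s 64 = i at *
    generalize Nat.shiftRight s 8 = s' at *
    generalize Nat.mod (Nat.shiftRight s' 16) (one (Nat.mod s' 65536)) = v at *
    generalize Nat.shiftRight (Nat.shiftRight s' 16) (Nat.mod s' 65536) = v' at *
    obtain ⟨e3, e4⟩ := e2 _ rfl
    simp only [Nat.add_eq] at e3 e4
    generalize Nat.mul (dg (nth P i).1 (Nat.mul 12 (d4 G 0))) 1000000 + Nat.mul 16 m = c at *
    have I1 := hI.upd lo hi (rs := ⟨(nth P i).2, l2, Nat.succ c, l1⟩ :: rs)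
      (List.forall_mem_cons.2 ⟨⟨i2, i1⟩, hI.rows⟩)
    have I2 := hI.upd lo hi (rs := ⟨c, l1, (nth P i).2, l2⟩ :: rs)
      (List.forall_mem_cons.2 ⟨⟨i1, i2⟩, hI.rows⟩)
    have a2 := lt_of_le_of_lt le_add_self hl
    rw [Nat.cast_add, add_div, add_comm]
    refine e4 _ _ _ ?_ ((hH _ v (lt_of_le_of_lt le_self_add hl) A I1).anti fun a ha =>
      ⟨ha.1.2.1, List.forall_mem_cons.2 ⟨ha.2, ha.1.2.2⟩⟩)
    have dn' : ∀ a, (∀ j, bit dn j = true → Pr k G (nth P j) a) →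
        Rw.ok ⟨c, l1, (nth P i).2, l2⟩ (Y A a) →
        ∀ j, bit (Nat.lor dn (one i)) j = true → Pr k G (nth P j) a := fun a g1 g2 j hj => by
      rw [bit_eq, Nat.lor_eq, Nat.testBit_or, Bool.or_eq_true, ← bit_eq, ← bit_eq, bit_one] at hj
      exact hj.elim (g1 j) fun g => g ▸ e3 a g2
    simp only [cnd_eq] at a2 ⊢
    split_ifs at a2 ⊢
    · exact (IH _ _ _ _ _ I2 a2).anti fun a ha => ⟨⟨ha.1.1.1, dn' a ha.1.1.2 ha.2⟩, ha.1.2.1,
        List.forall_mem_cons.2 ⟨ha.2, ha.1.2.2⟩⟩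
    · exact (nrm_in I2 (fun lo' hi' rs' I g => IH lo' hi' rs' _ _ I g) a2).anti fun a ha =>
        ⟨⟨ha.1.1.1, dn' a ha.1.1.2 ha.2⟩, ha.1.2.1, List.forall_mem_cons.2 ⟨ha.2, ha.1.2.2⟩⟩
    · exact (IH _ _ _ _ _ hI a2).anti fun a ha => ⟨⟨ha.1.1.1, dn' a ha.1.1.2 ha.2⟩, ha.1.2⟩

/-- if the rows of `P` give loss zero in the region, the state is settled by the cuts -/
theorem cv_ok (hm : Imok im) {ih : NS → ℕ → ℕ} (hH : ∀ S s, Val t sg S (ih S s)) (hI : Inv S A)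
    {G : ℕ} {P : List (ℕ × ℕ)}
    (h : H sg t S.k S.kind (fun a => Om S A a ∧ ∀ y ∈ P, Pr S.k G y a) 0) {s : ℕ}
    (hl : cv im ih S G P s < INF) :
    H sg t S.k S.kind (Om S A) ((cv im ih S G P s : ℝ) / 10 ^ 9) := by
  simp only [cv, force_eq] at hl ⊢
  exact (cut_ok hm hH h _ _ _ _ _ _ hI hl).anti fun a ha =>
    ⟨⟨ha, fun i hi => by simp [bit_zero] at hi⟩, ha⟩

theorem cvR_ok (hm : Imok im) (R : Rules) (h1 : 1 / 3 ≤ t) (h2 : t < (tn : ℝ) / SC)
    (h4 : 2 * tn ≤ SC) (hL : Leaf2) {PL : BT PP} (hx : PL.All (PP.Good tn)) :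
    XTok t (cvR im PL) := fun _ ih _ hH sg S s => by
  have : (2 : ℝ) * tn ≤ SC := by exact_mod_cast h4
  simp only [cvR, force_eq]
  refine Val.grd fun g hl A hI => ?_
  simp only [band_eq, Bool.and_eq_true, allN_iff, Nat.blt_eq] at g
  exact cv_ok hm (hH sg) hI ((leaf2_pr R h1 h2 ((div_le_iff₀ SC_pos).2 (by linarith)) hL
    (hx.find _) hI g.1 g.2).anti fun _ ha => ha.2) hl

end Pool.Agent.MP_c853c5_nt.X
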