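import Pool.Agent.MP_c853c5_nt.X.Defs

/-! The leaves of the exact calculus. -/

set_option autoImplicit false

open Finset Filter

namespace Pool.Agent.MP_c853c5_nt.X

open Pool.Agent.MP_c853c5_nt.S

lemma pos_Drop {k n : ℕ} {μ : ℕ → ℕ} (h : μ ∈ tup k n) (j : ℕ) : μ j ≠ 0 := by
  obtain ⟨h1, h2, h3⟩ := mem_tup.1 h
  rcases lt_or_ge j k with hj | hj
  · exact prod_ne_zero_iff.1 (h2 ▸ h1) j (mem_range.2 hj)
  · rw [h3 j hj]
    exact one_ne_zero

theorem xDrop (h : PFStmt) : DropStmt := by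
  intro t m k kind Ω B h1 h2 h3
  refine drop0 (h3.of_le ?_)
  filter_upwards [eventually_gt_atTop 1] with x hx n _
  rw [h]
  classical
  refine Nat.cast_le.2 (card_le_card fun μ hμ => ?_)
  simp only [mem_filter] at hμ ⊢
  obtain ⟨a1, ⟨a2, -⟩, a3⟩ := hμ
  refine ⟨a1, fun j hj => ?_⟩
  have hp : ∀ l, (0 : ℝ) < μ l := fun l => Nat.cast_pos.2 (Nat.pos_of_ne_zero (pos_Drop a1 l))
  obtain ⟨b1, b2, b3⟩ := h2 _ a2 j hj
  have b4 : x ^ (B j).lo < μ j := (Real.lt_logb_iff_rpow_lt hx (hp j)).1 b1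
  refine ⟨pos_Drop a1 j, b4, (Real.logb_le_iff_le_rpow hx (hp j)).1 b2, ?_, by simp [h1 j hj]⟩
  have b5 := a3 j hj
  generalize kind j = κ at b3 b5
  cases κ with
  | P => exact (rough_prime b5).2 ((Real.rpow_le_rpow_of_exponent_le hx.le b3).trans_lt b4)
  | R c => exact Rough.anti hx.le b3 b5
  | L l =>
    exact fun p hp1 hp2 => ((Real.lt_logb_iff_rpow_lt hx (hp l)).1 b3).trans_le
      (Nat.cast_le.2 (b5 p hp1 hp2))

theorem xLeaf2 (h : CutStmt) : Leaf2Stmt := by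
  intro hL sg τ t k kind Ω h1 h2 h3 hk hv hr Q hQ hΩ
  refine Sg.of_ev (h t k 0 kind (range k) Q hk hv subset_rfl (fun j hj _ => mem_range.2 hj)
    (fun c => absurd (mem_range.2 hk) c) hQ (fun a ha => (hΩ a ha).2) fun β a ha hs hc _ => ?_)
  have := hL τ t h1 h2 h3 k (fun j => β j)
    (hr (fun j => β j) a (hΩ a ha).1 hs fun j => hc j (mem_range.2 j.2))
  refine this.congr (Eventually.of_forall fun x n _ => ?_)
  rw [PF, prod_range]

lemma prod_sk_Drop {r i : ℕ} (hi : i ≤ r) (g : ℕ → AF) :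
    ∏ j ∈ range (r + 1), g j = (∏ j : Fin r, g (sk i j)) * g i := by
  rw [prod_range, Fin.prod_univ_succAbove _ ⟨i, Nat.lt_succ_of_le hi⟩, mul_comm]
  congr 1
  refine prod_congr rfl fun j _ => congrArg g ?_
  unfold sk Fin.succAbove
  simp only [Fin.lt_def, Fin.val_castSucc]
  split_ifs <;> rfl

theorem xLeafS (h : CutStmt) : LeafSStmt := by
  intro hL sg τ t r i kind Ω h1 h2 h3 hi hv hP hr Q hQ hΩ
  refine Sg.of_ev (h t (r + 1) i kind ((range (r + 1)).erase i) Q (by omega) hv (erase_subset _ _)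
    (fun j hj e => mem_erase.2 ⟨e, mem_range.2 hj⟩) (fun _ => hP) hQ (fun a ha => (hΩ a ha).2)
    fun β a ha hs hc hf => ?_)
  obtain ⟨z, e, hz, hl⟩ := hf i (Nat.lt_succ_of_le hi) (notMem_erase _ _)
  have hc' : ∀ j : Fin r, Cl (kind (sk i j)) (a (sk i j)) (β (sk i j)) := fun j => by
    refine hc _ (mem_erase.2 ⟨?_, mem_range.2 ?_⟩) <;> have := j.2 <;> unfold sk <;>
      split_ifs <;> omega
  have := hL τ t h1 h2 h3 r (fun j => β (sk i j)) z (fun j => (hc' j).2.2.1) hz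
    (hr (fun j => β (sk i j)) a z (hΩ a ha).1 hs hc' hz hl)
  refine this.congr (Eventually.of_forall fun x n _ => ?_)
  rw [PF, prod_sk_Drop hi, e]

end Pool.Agent.MP_c853c5_nt.X
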