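import Pool.Agent.MP_c853c5_nt.X.Defs2
import Pool.Agent.MP_c853c5_nt.X.Drop

/-! The leaf with two sieved factors. -/

set_option autoImplicit false

open Finset Filter

namespace Pool.Agent.MP_c853c5_nt.X

open Pool.Agent.MP_c853c5_nt.S

lemma sk_lt_LeafS2 {i j n : ℕ} (h : j < n) : sk i j < n + 1 := by
  unfold sk
  split_ifs <;> omega

lemma sk_ne_LeafS2 (i j : ℕ) : sk i j ≠ i := by
  unfold sk
  split_ifs <;> omega

theorem xLeafS2 (h : CutStmt2) : LeafS2Stmt := by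
  intro hL sg τ t r i j kind Ω h1 h2 h3 hi hj hv hP hP2 hr Q hQ hΩ
  refine Sg.of_ev (h t (r + 2) i kind ((range (r + 2)).erase i) Q (by omega) hv (erase_subset _ _)
    (fun j hj e => mem_erase.2 ⟨e, mem_range.2 hj⟩) (fun _ => hP) hQ (fun a ha => (hΩ a ha).2)
    fun β a ha hs hc hf => ?_)
  have i2 : i < r + 2 := by omega
  obtain ⟨z, e, hz, hl⟩ := hf i i2 (notMem_erase _ _)
  have m1 : ∀ m < r + 1, sk i m ∈ (range (r + 2)).erase i := fun m hm =>
    mem_erase.2 ⟨sk_ne_LeafS2 _ _, mem_range.2 (sk_lt_LeafS2 hm)⟩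
  have hc' : ∀ m : Fin r, Cl (kind (sk i (sk j m))) (a (sk i (sk j m))) (β (sk i (sk j m))) :=
    fun m => (hc _ (m1 _ (sk_lt_LeafS2 m.2))).1
  obtain ⟨⟨c1, c2, c3, -⟩, c4, c5⟩ := hc _ (m1 j (by omega))
  have j2 : sk i j < r + 2 := sk_lt_LeafS2 (by omega)
  have a1 := (hΩ a ha).2
  have a2 : a (sk i j) + a i ≤ ∑ m ∈ range (r + 2), a m := by
    rw [← sum_pair (sk_ne_LeafS2 i j)]
    refine sum_le_sum_of_subset_of_nonneg (fun m hm => ?_)
      fun m hm _ => by linarith [a1 m (mem_range.1 hm)]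
    rcases mem_insert.1 hm with rfl | hm
    · exact mem_range.2 j2
    · rw [mem_singleton.1 hm]
      exact mem_range.2 i2
  have u : un = 1 / 1000000 := rfl
  have := hL τ t h1 h2 h3 r (fun m => β (sk i (sk j m))) z (β (sk i j)).a (β (sk i j)).lo
    (β (sk i j)).hi (fun m => (hc' m).2.2.1) hz (by linarith) (by linarith [a1 _ j2])
    (by linarith [a1 _ i2, (abs_le.1 hs).2])
    (hr (fun m => β (sk i (sk j m))) a z _ _ _ (hΩ a ha).1 a1 hs hc' hz (by linarith) hl (c5 hP2)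
      c1 c2)
  refine this.congr (Eventually.of_forall fun x n _ => ?_)
  have e2 : β (sk i j) = ⟨(β (sk i j)).lo, (β (sk i j)).hi, (β (sk i j)).a, none⟩ := by
    rw [← c4]
  rw [PF, prod_sk_Drop hi, e, ← prod_range (fun m => bf x (β (sk i m))), prod_sk_Drop hj, ← e2]

end Pool.Agent.MP_c853c5_nt.X
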