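import Mathlib.Algebra.BigOperators.Intervals
import Mathlib.Algebra.Order.Ring.GeomSum
import Mathlib.Data.Nat.Bitwise

/-!
Vectors packed into fields of `w` bits.
-/

set_option autoImplicit false

open Finset

namespace Pool.Agent.MP_c853c5_nt.X

def pw (w : ℕ) (f : ℕ → ℕ) (n : ℕ) : ℕ := ∑ r ∈ range n, f r * 2 ^ (w * r)

variable {w n : ℕ} {f g : ℕ → ℕ}

lemma pw_congr (h : ∀ r < n, f r = g r) : pw w f n = pw w g n :=
  sum_congr rfl fun r hr => by rw [h r (mem_range.1 hr)]

lemma pw_add (w n : ℕ) (f g : ℕ → ℕ) : pw w f n + pw w g n = pw w (fun r => f r + g r) n := by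
  simp only [pw, add_mul, sum_add_distrib]

lemma pw_mul (w n c : ℕ) (f : ℕ → ℕ) : pw w f n * c = pw w (fun r => f r * c) n := by
  simp only [pw, sum_mul, mul_right_comm]

lemma pw_sub (h : ∀ r < n, g r ≤ f r) : pw w f n - pw w g n = pw w (fun r => f r - g r) n := by
  rw [Nat.sub_eq_of_eq_add]
  rw [pw_add]
  exact pw_congr fun r hr => (Nat.sub_add_cancel (h r hr)).symm

lemma pw_succ (w n : ℕ) (f : ℕ → ℕ) : pw w f (n + 1) = 2 ^ (w * n) * f n + pw w f n := by
  rw [pw, sum_range_succ, add_comm, mul_comm, pw]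

lemma pw_lt (h : ∀ r < n, f r < 2 ^ w) : pw w f n < 2 ^ (w * n) := by
  induction n with
  | zero => simp [pw]
  | succ n ih =>
    have h1 := ih fun r hr => h r (by omega)
    have h2 := Nat.mul_le_mul_left (2 ^ (w * n)) (Nat.succ_le_of_lt (h n (by omega)))
    rw [pw_succ, mul_add, mul_one, pow_add]
    rw [Nat.mul_succ] at h2
    omega

lemma pw_bit (h : ∀ r < n, f r < 2 ^ w) (r : ℕ) {i : ℕ} (hi : i < w) :
    (pw w f n).testBit (w * r + i) = (decide (r < n) && (f r).testBit i) := by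
  induction n with
  | zero => simp [pw]
  | succ n ih =>
    have h' : ∀ r < n, f r < 2 ^ w := fun r hr => h r (by omega)
    rw [pw_succ, Nat.testBit_two_pow_mul_add _ (pw_lt h'), ih h']
    rcases lt_trichotomy r n with e | rfl | e
    · have := Nat.mul_le_mul_left w (Nat.succ_le_of_lt e)
      rw [Nat.mul_succ] at this
      rw [if_pos (by omega), decide_eq_true e, decide_eq_true (by omega)]
    · simp
    · have := Nat.mul_le_mul_left w (Nat.succ_le_of_lt e)
      rw [Nat.mul_succ] at this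
      rw [if_neg (by omega), decide_eq_false (by omega), Bool.false_and]
      exact Nat.testBit_lt_two_pow ((h n (by omega)).trans_le
        (Nat.pow_le_pow_right two_pos (by omega)))

/-- numbers are determined by the bits of their fields -/
lemma pw_ext (hw : 0 < w) {x y : ℕ}
    (h : ∀ r, ∀ i < w, x.testBit (w * r + i) = y.testBit (w * r + i)) : x = y :=
  Nat.eq_of_testBit_eq fun j => by
    simpa only [Nat.div_add_mod] using h (j / w) (j % w) (Nat.mod_lt _ hw)

lemma pw_land (hw : 0 < w) (hf : ∀ r < n, f r < 2 ^ w) (hg : ∀ r < n, g r < 2 ^ w) :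
    pw w f n &&& pw w g n = pw w (fun r => f r &&& g r) n := pw_ext hw fun r i hi => by
  rw [Nat.testBit_and, pw_bit hf r hi, pw_bit hg r hi,
    pw_bit (fun r hr => Nat.and_le_left.trans_lt (hf r hr)) r hi, Nat.testBit_and]
  cases decide (r < n) <;> simp

lemma pw_xor (hw : 0 < w) (hf : ∀ r < n, f r < 2 ^ w) (hg : ∀ r < n, g r < 2 ^ w) :
    pw w f n ^^^ pw w g n = pw w (fun r => f r ^^^ g r) n := pw_ext hw fun r i hi => by
  rw [Nat.testBit_xor, pw_bit hf r hi, pw_bit hg r hi,
    pw_bit (fun r hr => Nat.xor_lt_two_pow (hf r hr) (hg r hr)) r hi, Nat.testBit_xor]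
  cases decide (r < n) <;> simp

/-- the lowest `b` bits of the fields of any number -/
lemma pw_cut {b : ℕ} (hw : 0 < w) (hb : b ≤ w) (x n : ℕ) :
    x &&& pw w (fun _ => 2 ^ b - 1) n = pw w (fun r => (x >>> (w * r)) % 2 ^ b) n := by
  have e : 2 ^ b ≤ 2 ^ w := Nat.pow_le_pow_right two_pos hb
  have e' := Nat.two_pow_pos b
  refine pw_ext hw fun r i hi => ?_
  rw [Nat.testBit_and, pw_bit (fun _ _ => by omega) r hi,
    pw_bit (fun _ _ => (Nat.mod_lt _ e').trans_le e) r hi, Nat.testBit_two_pow_sub_one,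
    Nat.testBit_mod_two_pow, Nat.testBit_shiftRight]
  cases decide (r < n) <;> simp [Bool.and_comm]

/-- a part of a field -/
lemma pw_get (h : ∀ r < n, f r < 2 ^ w) {r s b : ℕ} (hr : r < n) (hs : s + b ≤ w) :
    (pw w f n >>> (w * r + s)) % 2 ^ b = (f r >>> s) % 2 ^ b :=
  Nat.eq_of_testBit_eq fun i => by
    rw [Nat.testBit_mod_two_pow, Nat.testBit_mod_two_pow, Nat.testBit_shiftRight,
      Nat.testBit_shiftRight]
    by_cases hi : i < b
    · rw [add_assoc, pw_bit h r (by omega), decide_eq_true hr, Bool.true_and]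
    · simp [hi]

/-- the bit `s` of every field -/
lemma pw_mask (h : ∀ r < n, f r < 2 ^ w) {s : ℕ} (hs : s < w) :
    (pw w f n >>> s) &&& pw w (fun _ => 1) n = pw w (fun r => (f r >>> s) % 2) n := by
  have := pw_cut (b := 1) (by omega : 0 < w) (by omega) (pw w f n >>> s) n
  rw [show (fun _ : ℕ => 2 ^ 1 - 1) = fun _ => 1 from rfl] at this
  rw [this]
  refine pw_congr fun r hr => ?_
  rw [← Nat.shiftRight_add, add_comm, pw_get h hr (by omega), pow_one]

lemma pw_one (hw : 0 < w) (n : ℕ) : (2 ^ (w * n) - 1) / (2 ^ w - 1) = pw w (fun _ => 1) n := by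
  rw [pow_mul, ← Nat.geomSum_eq (Nat.one_lt_two_pow hw.ne')]
  simp only [pw, one_mul, pow_mul]

end Pool.Agent.MP_c853c5_nt.X
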