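import Pool.Agent.MP_c853c5_nt.X.FCD
import Pool.Agent.MP_c853c5_nt.X.Pk
import Pool.Agent.MP_c853c5_nt.X.Cv

/-!
Soundness of the simultaneous test of the rows of a polytope.
-/

set_option autoImplicit false

open Finset

namespace Pool.Agent.MP_c853c5_nt.X

open Pool.Agent.MP_c853c5_nt.S Pool.Agent.MP_c853c5_nt.REG

variable {S : NS} {A : ℕ → Finset ℕ} {t : ℝ} {sg : Bool} {w n : ℕ}

lemma ones_eq (hw : 44 ≤ w) (n : ℕ) : ones w n = pw w (fun _ => 1) n := by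
  rw [ones, one_eq, one_eq]
  exact pw_one (by omega) n

lemma lt_w (hw : 44 ≤ w) {x : ℕ} (h : x < 2 ^ 44) : x < 2 ^ w :=
  h.trans_le (Nat.pow_le_pow_right two_pos hw)

lemma col_eq (hw : 44 ≤ w) (R g : ℕ) : col R (Nat.mul (pw w (fun _ => 1) n) 4095) g =
    pw w (fun r => dg (rowQ w R r).1 (12 * g)) n := by
  rw [Nat.mul_eq, pw_mul]
  refine (pw_cut (b := 12) (by omega) (by omega) _ n).trans (pw_congr fun r _ => ?_)
  show R >>> (12 * g + 40) >>> (w * r) % 4096 = R >>> (w * r + 40) >>> (12 * g) % 4096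
  rw [← Nat.shiftRight_add, ← Nat.shiftRight_add]
  congr 2
  omega

lemma st1_eq (hw : 44 ≤ w) {p q z : ℕ → ℕ} (hp : ∀ r, p r < 4096) (hq : ∀ r, q r < 4096)
    {lo hi : ℕ} (hz : ∀ r < n, 4096 * hi ≤ z r) :
    st1 (pw w (fun _ => 1) n) (Nat.mul (pw w (fun _ => 1) n) 4096) (pw w z n) lo hi
      (Nat.sub (Nat.add (pw w p n) (Nat.mul (pw w (fun _ => 1) n) 4096)) (pw w q n)) =
      pw w (fun r => z r + (q r - p r) * lo - (p r - q r) * hi) n := by
  have hx : ∀ r < n, p r + 1 * 4096 - q r < 2 ^ w := fun r _ => lt_w hw (by have := hp r; omega)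
  simp only [st1, st2, Nat.mul_eq, Nat.add_eq, Nat.sub_eq, Nat.land_eq, Nat.shiftRight_eq, pw_mul,
    pw_add]
  rw [pw_sub fun r _ => by have := hq r; omega, pw_mask hx (by omega), pw_mul,
    pw_land (by omega) hx fun r _ => lt_w hw (by omega),
    pw_congr (f := fun r => _ &&& _) (g := fun r => p r - q r) fun r _ => ?_, pw_add,
    pw_sub fun r _ => by have := hq r; omega, pw_mul, pw_mul, pw_add,
    pw_sub fun r hr => ?_]
  · exact pw_congr fun r _ => by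
      rw [show p r - q r + 1 * 4096 - (p r + 1 * 4096 - q r) = q r - p r by have := hq r; omega]
  · exact le_add_right ((Nat.mul_le_mul_right _ (by have := hp r; omega)).trans (hz r hr))
  · have h1 := hp r
    have h2 := hq r
    rw [Nat.shiftRight_eq_div_pow]
    rcases le_or_gt (q r) (p r) with e | e
    · rw [show (p r + 1 * 4096 - q r) / 2 ^ 12 % 2 * 4095 = 2 ^ 12 - 1 by omega,
        Nat.and_two_pow_sub_one_eq_mod]
      omega
    · rw [show (p r + 1 * 4096 - q r) / 2 ^ 12 % 2 * 4095 = 0 by omega, Nat.and_zero]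
      omega

lemma dg_lt (c s : ℕ) : dg c s < 4096 := Nat.mod_lt _ (by norm_num)

lemma fqZ_ok (hw : 44 ≤ w) (R G : ℕ) {z0 : ℕ → ℕ} (h0 : ∀ r < n, 2 ^ 42 ≤ z0 r) (m : ℕ)
    (hm : m < 16) : ∃ z : ℕ → ℕ, fqZ R (pw w (fun _ => 1) n) (Nat.mul (pw w (fun _ => 1) n) 4096)
      (Nat.mul (pw w (fun _ => 1) n) 4095) S.par S.lo S.hi G (pw w z0 n) m = pw w z n ∧
      ∀ r < n, z0 r ≤ z r + m * 2 ^ 37 ∧ z r ≤ z0 r + m * 2 ^ 37 ∧
        ∀ y : Pt, (∀ j ≤ m, Bx16 S y j) → (z r : ℝ) + (∑ j ∈ Ico 1 (m + 1),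
          (wt (rowQ w R r).1 G j - wt (rowQ w R r).1 G (get S.par j)) * y j) * SC ≤ z0 r := by
  induction m with
  | zero => exact ⟨z0, rfl, fun r _ => by simp⟩
  | succ m ih =>
    obtain ⟨z, e, h⟩ := ih (by omega)
    have b1 := get_lt S.lo (m + 1)
    have b2 := get_lt S.hi (m + 1)
    have hz : ∀ r < n, 4096 * (get S.hi (m + 1) + 16) ≤ z r := fun r hr => by
      have := h0 r hr
      have := (h r hr).1
      omega
    refine ⟨_, Eq.trans ?_ (st1_eq (lo := get S.lo (m + 1) - 16) hw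
      (fun r => dg_lt (rowQ w R r).1 (12 * d4 G (m + 1)))
      (fun r => dg_lt (rowQ w R r).1 (12 * d4 G (get S.par (m + 1)))) hz), fun r hr => ?_⟩
    · rw [← e, ← col_eq hw, ← col_eq hw]
      rfl
    obtain ⟨h1, h2, h3⟩ := h r hr
    have h4 := hz r hr
    simp only [sum_Ico_succ_top (show 1 ≤ m + 1 by omega), wt] at h3 ⊢
    have p1 := dg_lt (rowQ w R r).1 (12 * d4 G (m + 1))
    have q1 := dg_lt (rowQ w R r).1 (12 * d4 G (get S.par (m + 1)))
    generalize dg (rowQ w R r).1 (12 * d4 G (m + 1)) = p at *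
    generalize dg (rowQ w R r).1 (12 * d4 G (get S.par (m + 1))) = q at *
    have a1 : (q - p) * (get S.lo (m + 1) - 16) ≤ 4096 * 16777216 :=
      Nat.mul_le_mul (by omega) (by omega)
    have a2 : (p - q) * (get S.hi (m + 1) + 16) ≤ 4096 * (get S.hi (m + 1) + 16) :=
      Nat.mul_le_mul_right _ (by omega)
    refine ⟨by omega, by omega, fun y hy => ?_⟩
    have := term_le p q _ _ (hy (m + 1) le_rfl).1 (hy (m + 1) le_rfl).2
    rw [Nat.cast_sub (by omega), Nat.cast_add]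
    linarith [h3 y fun j hj => hy j (by omega)]

lemma fqB_ok (hI : Inv S A) (hw : 44 ≤ w) {R G r : ℕ} (hr : r < n)
    (hb : (fqB R (ones w n) S G).testBit (w * r) = true) {a : Pt} (ha : Om S A a) :
    Pr S.k G (rowQ w R r) a := fun b h hs => by
  have k1 := hI.pos
  have k2 := hI.le
  have e2 : ∀ r, (rowQ w R r).2 < 2 ^ 40 := fun r => Nat.mod_lt _ (by norm_num)
  have e1 : ∀ r, dg (rowQ w R r).1 (12 * d4 G 0) < 4096 := fun r => dg_lt _ _
  have e3 : Nat.land R (Nat.mul (pw w (fun _ => 1) n) 1099511627775) =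
      pw w (fun r => (rowQ w R r).2) n := by
    rw [Nat.mul_eq, pw_mul]
    exact pw_cut (b := 40) (by omega) (by omega) _ n
  rw [fqB, force_eq, force_eq, ones_eq hw, e3, col_eq hw,
    Nat.mul_eq (y := 8796093022208), Nat.mul_eq (y := 1000000), pw_mul, pw_mul, Nat.add_eq, pw_add, Nat.sub_eq,
    pw_sub fun r _ => by have := e1 r; omega] at hb
  obtain ⟨z, e, hz⟩ := fqZ_ok (S := S) (n := n) hw R G (z0 := fun r => (rowQ w R r).2 +
    1 * 8796093022208 - dg (rowQ w R r).1 (12 * d4 G 0) * 1000000)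
    (fun r _ => by have := e1 r; omega) (Nat.pred S.k) (by rw [Nat.pred_eq_sub_one]; omega)
  rw [Nat.pred_eq_sub_one] at hz
  have z1 : ∀ r < n, z r < 2 ^ 44 := fun r hr => by
    have := (hz r hr).2.1
    have := e2 r
    omega
  rw [e, Nat.land_eq, Nat.shiftRight_eq, pw_mask (fun r hr => lt_w hw (z1 r hr)) (by omega),
    ← add_zero (w * r), pw_bit (fun r _ => lt_w hw (by omega)) r (by omega),
    Nat.shiftRight_eq_div_pow, Bool.and_eq_true, Nat.testBit_zero, decide_eq_true_iff,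
    decide_eq_true_iff] at hb
  have z2 : (8796093022208 : ℝ) ≤ z r := by exact_mod_cast (by omega : 8796093022208 ≤ z r)
  have := (hz r hr).2.2 (Y A b) fun j hj => bx16_of hI ha k2 h (by omega)
  rw [Nat.sub_add_cancel k1, Nat.cast_sub (by have := e1 r; omega)] at this
  rw [hI.wsum, Y, hI.top, hs, le_div_iff₀ SC_pos, add_mul, mul_one, wt]
  push_cast at this
  rw [SC_eq_SndL] at *
  linarith

/-- the rows of the polytope give loss zero -/
def PQ.Gd (t : ℝ) (gd : NS → ℕ → ℕ → Bool) (q : PQ) : Prop := 44 ≤ q.w ∧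
  ∀ (sg : Bool) (S : NS) (A : ℕ → Finset ℕ) (G : ℕ), Inv S A → gd S G q.k = true →
    H sg t S.k S.kind (fun a => ∀ r < q.n, Pr S.k G (rowQ q.w q.R r) a) 0

def PP.Gd (t : ℝ) (gd : NS → ℕ → ℕ → Bool) (x : PP) : Prop :=
  ∀ (sg : Bool) (S : NS) (A : ℕ → Finset ℕ) (G : ℕ), Inv S A → gd S G x.k = true →
    (∀ j < S.k, d4 G j < x.k) ∧ H sg t S.k S.kind (fun a => ∀ y ∈ x.P, Pr S.k G y a) 0

lemma eqP_ok (q : PQ) (P : List (ℕ × ℕ)) : ∀ s, eqP q P s = true → s ≤ q.n ∧ ∀ y ∈ P, ∃ r < q.n,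
    y.1 = low (rowQ q.w q.R r).1 (12 * q.k) ∧ y.2 = (rowQ q.w q.R r).2 := by
  induction P with
  | nil => exact fun s h => ⟨Nat.le_of_ble_eq_true h, by simp⟩
  | cons y P ih =>
    intro s h
    have h' : band (band (Nat.beq y.1 (low (rowQ q.w q.R s).1 (12 * q.k)))
      (Nat.beq y.2 (rowQ q.w q.R s).2)) (eqP q P (s + 1)) = true := h
    simp only [band_eq, Bool.and_eq_true, Nat.beq_eq] at h'
    obtain ⟨h1, h2⟩ := ih _ h'.2
    exact ⟨by omega, List.forall_mem_cons.2 ⟨⟨s, h1, h'.1⟩, h2⟩⟩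

lemma dg_low (c : ℕ) {g k : ℕ} (h : g < k) : dg (low c (12 * k)) (12 * g) = dg c (12 * g) := by
  rw [low, one_eq]
  refine Nat.eq_of_testBit_eq fun i => ?_
  show ((c % 2 ^ (12 * k)) >>> (12 * g) % 2 ^ 12).testBit i = (c >>> (12 * g) % 2 ^ 12).testBit i
  simp only [Nat.testBit_mod_two_pow, Nat.testBit_shiftRight]
  by_cases e : i < 12
  · rw [decide_eq_true (show 12 * g + i < 12 * k by omega), Bool.true_and]
  · simp [e]

variable {gd : NS → ℕ → ℕ → Bool}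

lemma PQ.of_ok {q : PQ} {x : PP} (h : q.ok x = true) (hx : x.Gd t gd) : q.Gd t gd := by
  simp only [PQ.ok, band_eq, Bool.and_eq_true, Nat.beq_eq, Nat.ble_eq] at h
  refine ⟨h.1.2, fun sg S A G hI g => ?_⟩
  rw [h.1.1] at g
  obtain ⟨h1, h2⟩ := hx sg S A G hI g
  refine h2.anti fun a ha y hy b hb hs => ?_
  obtain ⟨r, hr, e1, e2⟩ := (eqP_ok q _ 0 h.2).2 y hy
  rw [e2]
  refine le_trans (le_of_eq (sum_congr rfl fun j hj => ?_)) (ha r hr b hb hs)
  rw [e1, wt, wt, dg_low _ (h.1.1 ▸ h1 j (mem_range.1 hj))]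

theorem btQ_ok {T : BT PQ} : ∀ {U : BT PP}, btQ T U = true → U.All (PP.Gd t gd) →
    T.All (PQ.Gd t gd) := by
  induction T with
  | lf q =>
    intro U h hU
    cases U
    exacts [PQ.of_ok h hU, absurd h Bool.false_ne_true]
  | nd n l r il ir =>
    intro U h hU
    cases U with
    | lf x => exact absurd h Bool.false_ne_true
    | nd m l' r' =>
      have h' : band (btQ l l') (btQ r r') = true := h
      rw [band_eq, Bool.and_eq_true] at h'
      exact ⟨il h'.1 hU.1, ir h'.2 hU.2⟩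

lemma BT.All.imp {α : Type} {p q : α → Prop} (h : ∀ x, p x → q x) {T : BT α} (hT : T.All p) :
    T.All q := by
  induction T with
  | lf x => exact h x hT
  | nd n l r il ir => exact ⟨il hT.1, ir hT.2⟩

/-- polytopes of type II -/
theorem gd2_ok (R : Rules) {tn : ℕ} (h1 : 1 / 3 ≤ t) (h2 : t < (tn : ℝ) / SC) (h4 : 2 * tn ≤ SC)
    (hL : Leaf2) {PL : BT PP} (hx : PL.All (PP.Good tn)) : PL.All (PP.Gd t g2) := by
  have : (2 : ℝ) * tn ≤ SC := by exact_mod_cast h4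
  refine hx.imp fun x hx sg S A G hI c => ?_
  simp only [g2, band_eq, Bool.and_eq_true, allN_iff, Nat.blt_eq] at c
  exact ⟨c.2, leaf2_pr R h1 h2 ((div_le_iff₀ SC_pos).2 (by linarith)) hL hx hI c.1 c.2⟩

lemma hdQ_ok {T : BT PQ} (hT : T.All (PQ.Gd t gd)) (hI : Inv S A) (sg : Bool) {s : ℕ}
    {K : ℕ → ℕ → ℕ → ℕ → ℕ → ℕ → ℕ → ℕ} (hl : hdQ gd T S s K < INF) : ∃ w R n G v, 44 ≤ w ∧
      hdQ gd T S s K = K w R (ones w n) G (Nat.mul 12 (d4 G 0)) (fqB R (ones w n) S G) v ∧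
      H sg t S.k S.kind (fun a => ∀ r < n, Pr S.k G (rowQ w R r) a) 0 := by
  simp only [hdQ, force_eq] at hl ⊢
  have := hT.find (Nat.mod s 65536)
  generalize T.find (Nat.mod s 65536) = q at *
  obtain ⟨k, n, w, R⟩ := q
  obtain ⟨h1, h2⟩ := grd_lt hl
  exact ⟨w, R, n, _, _, this.1, h2, this.2 sg S A _ hI h1⟩

lemma ndQ_ok (hI : Inv S A) (w R G r : ℕ) : ∃ (c : ℕ) (l1 l2 : List ℕ),
    (∀ K, ndQ w R S.par G (Nat.mul 12 (d4 G 0)) S.k r K = K c l1 (rowQ w R r).2 l2) ∧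
    (∀ e ∈ l1, nd e < S.k) ∧ (∀ e ∈ l2, nd e < S.k) ∧
    (∀ a, Rw.ok ⟨c, l1, (rowQ w R r).2, l2⟩ (Y A a) → Pr S.k G (rowQ w R r) a) ∧
      ∀ (Ω : Pt → Prop) (l l' : ℝ),
        H sg t S.k S.kind (fun a => Ω a ∧ Rw.ok ⟨c, l1, (rowQ w R r).2, l2⟩ (Y A a)) l →
        H sg t S.k S.kind (fun a => Ω a ∧ Rw.ok ⟨(rowQ w R r).2, l2, Nat.succ c, l1⟩ (Y A a)) l' →
        H sg t S.k S.kind Ω (l + l') := by
  obtain ⟨m, l1, l2, e1, i1, i2, e2⟩ := cut_step (sg := sg) (t := t) hI G (rowQ w R r)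
  exact ⟨_, l1, l2, fun K => by simp only [ndQ, force_eq, e1], i1, i2, e2 _ rfl⟩

lemma ones_bit (hw : 44 ≤ w) {r : ℕ} (hr : r < n) : (ones w n).testBit (w * r) = true := by
  rw [ones_eq hw, ← add_zero (w * r), pw_bit (fun r _ => lt_w hw (by omega)) r (by omega),
    decide_eq_true hr]
  rfl

/-- the lowest bit is removed -/
lemma low_bit {X : ℕ} (h : X ≠ 0) : ∃ i, X - (X &&& (X - 1)) = 2 ^ i ∧
    ∀ j, j ≠ i → (X &&& (X - 1)).testBit j = X.testBit j := by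
  obtain ⟨i, m, ⟨q, rfl⟩, rfl⟩ := Nat.exists_eq_two_pow_mul_odd h
  have p := Nat.two_pow_pos i
  have l : 2 ^ i < 2 ^ (i + 1) := by omega
  have e1 : 2 ^ i * (2 * q + 1) = 2 ^ (i + 1) * q + 2 ^ i := by ring
  have e2 : 2 ^ (i + 1) * q + 2 ^ i - 1 = 2 ^ (i + 1) * q + (2 ^ i - 1) := by omega
  have e3 : (2 ^ (i + 1) * q + 2 ^ i) &&& (2 ^ (i + 1) * q + (2 ^ i - 1)) = 2 ^ (i + 1) * q + 0 :=
    Nat.eq_of_testBit_eq fun j => by
      rw [Nat.testBit_and, Nat.testBit_two_pow_mul_add _ l, Nat.testBit_two_pow_mul_add _ (by omega),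
        Nat.testBit_two_pow_mul_add _ (by omega)]
      split_ifs
      · simp only [Nat.testBit_two_pow, Nat.testBit_two_pow_sub_one, Nat.zero_testBit,
          Bool.and_eq_false_imp, decide_eq_true_iff, decide_eq_false_iff_not]
        omega
      · exact Bool.and_self _
  rw [e1, e2, e3]
  refine ⟨i, by omega, fun j hj => ?_⟩
  rw [Nat.testBit_two_pow_mul_add _ l, Nat.testBit_two_pow_mul_add _ (by omega),
    Nat.testBit_two_pow_of_ne hj.symm, Nat.zero_testBit]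

lemma rowQ_div (w R r : ℕ) : rowQ 0 (R / 2 ^ (w * r)) 0 = rowQ w R r := by
  simp only [rowQ, Nat.shiftRight_eq, Nat.add_eq, Nat.mul_eq, ← Nat.shiftRight_eq_div_pow,
    ← Nat.shiftRight_add, mul_zero, zero_add, add_zero]

lemma pqL_ok (hI : Inv S A) (w R G : ℕ) (K : List Rw → ℕ) (c : ℕ) :
    ∀ (X : ℕ) (L : List Rw), (∀ r ∈ L, r.In S.k) →
    pqL R S.k S.par G (Nat.mul 12 (d4 G 0)) K c X L < INF → ∃ L',
      pqL R S.k S.par G (Nat.mul 12 (d4 G 0)) K c X L = K L' ∧ (∀ r ∈ L', r.In S.k) ∧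
      ∀ a, (∀ r ∈ L', r.ok (Y A a)) → (∀ r ∈ L, r.ok (Y A a)) ∧
        ∀ r, X.testBit (w * r) = true → Pr S.k G (rowQ w R r) a := by
  induction c with
  | zero => exact fun _ _ _ h => absurd h (lt_irrefl _)
  | succ c ih =>
    intro X L hL hl
    obtain ⟨c', l1, l2, e1, i1, i2, e2, -⟩ := ndQ_ok (sg := true) (t := 0) hI 0
      (Nat.div R (Nat.sub X (Nat.land X (Nat.pred X)))) G 0
    have e : pqL R S.k S.par G (Nat.mul 12 (d4 G 0)) K (c + 1) X L = cnd (Nat.beq X 0) (K L)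
        (force (Nat.land X (Nat.pred X)) fun X' => force (Nat.div R (Nat.sub X X')) fun R' =>
          ndQ 0 R' S.par G (Nat.mul 12 (d4 G 0)) S.k 0 fun c1 l1 e l2 =>
            pqL R S.k S.par G (Nat.mul 12 (d4 G 0)) K c X' (⟨c1, l1, e, l2⟩ :: L)) := rfl
    simp only [e, force_eq, cnd_eq, e1, Nat.beq_eq] at hl ⊢
    split_ifs at hl ⊢ with g
    · exact ⟨L, rfl, hL, fun a h => ⟨h, by simp [g]⟩⟩
    obtain ⟨L', g1, g2, g3⟩ := ih _ _ (List.forall_mem_cons.2 ⟨⟨i1, i2⟩, hL⟩) hl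
    refine ⟨L', g1, g2, fun a h => ?_⟩
    obtain ⟨g4, g5⟩ := g3 a h
    rw [List.forall_mem_cons] at g4
    refine ⟨g4.2, fun r hr => ?_⟩
    obtain ⟨i, b1, b2⟩ := low_bit g
    by_cases d : w * r = i
    · have := e2 a g4.1
      rwa [show Nat.div R (Nat.sub X (Nat.land X (Nat.pred X))) = R / 2 ^ (w * r) from
        congrArg (R / ·) (d ▸ b1), rowQ_div] at this
    · exact g5 r ((b2 _ d).trans hr)

theorem pqP_ok {T : BT PQ} (hT : T.All (PQ.Gd t gd)) : Prok t (pqP gd T) :=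
  fun sg S A s K hI hl => by
  obtain ⟨w, R, n, G, v, hw, e, h⟩ := hdQ_ok hT hI sg hl
  rw [pqP, e, force_eq] at hl ⊢
  obtain ⟨L, g1, g2, g3⟩ := pqL_ok hI w R G _ _ _ _ (by simp) hl
  refine ⟨L, v, g1, g2, h.anti fun a ha r hr => ?_⟩
  cases c : (fqB R (ones w n) S G).testBit (w * r)
  · refine (g3 a ha.2).2 r ?_
    rw [Nat.xor_eq, Nat.testBit_xor, c, ones_bit hw hr]
    rfl
  · exact fqB_ok hI hw hr c ha.1

end Pool.Agent.MP_c853c5_nt.X
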