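import Pool.Agent.MP_c853c5_nt.X.GdP
import Pool.Agent.MP_c853c5_nt.X.Cv

/-!
Soundness of the grid rule.
-/

set_option autoImplicit false

open Finset Filter

namespace Pool.Agent.MP_c853c5_nt.X

open Pool.Agent.MP_c853c5_nt.S Pool.Agent.MP_c853c5_nt.REG

variable {S : NS} {A : ℕ → Finset ℕ} {t : ℝ} {sg : Bool} {g : Gr}

lemma H.cases {k : ℕ} {kind : ℕ → Kind} {Ω B : Pt → Prop} {l l' : ℝ} (b1 : Tame k B)
    (b2 : Tame k fun a => ¬ B a) (h1 : H sg t k kind (fun a => Ω a ∧ B a) l)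
    (h2 : H sg t k kind (fun a => Ω a ∧ ¬ B a) l') : H sg t k kind Ω (l + l') := fun Q hQ hΩ =>
  ((h1 _ (xTame.1 k _ _ hQ b1) fun a c => ⟨⟨(hΩ a c.1).1, c.2⟩, (hΩ a c.1).2⟩).add
    (h2 _ (xTame.1 k _ _ hQ b2) fun a c => ⟨⟨(hΩ a c.1).1, c.2⟩, (hΩ a c.1).2⟩)).congr
    (Eventually.of_forall fun x n _ => add_Tame (fun a => by tauto) (fun _ c d => d.2 c.2) x n)

/-! ### the cell of a point -/

lemma off_succ (bs j : ℕ) : off bs (j + 1) = off bs j + b3 bs j := Nat.add_comm _ _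

lemma off_mono (bs : ℕ) : Monotone (off bs) :=
  monotone_nat_of_le_succ fun j => off_succ bs j ▸ Nat.le_add_right _ _

lemma enc_Gd (bs : ℕ) {x : ℕ → ℕ} (hx : ∀ j, x j < 2 ^ b3 bs j) (n : ℕ) :
    ∑ j ∈ range n, x j * 2 ^ off bs j < 2 ^ off bs n ∧
      ∀ j < n, cx bs j (∑ j ∈ range n, x j * 2 ^ off bs j) = x j := by
  induction n with
  | zero => exact ⟨by simp, by simp⟩
  | succ n ih =>
    rw [sum_range_succ]
    refine ⟨?_, fun j hj => ?_⟩
    · rw [off_succ, pow_add]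
      have := Nat.mul_le_mul_right (2 ^ off bs n) (Nat.succ_le_of_lt (hx n))
      rw [Nat.succ_mul] at this
      linarith [ih.1]
    rcases Nat.lt_succ_iff_lt_or_eq.1 hj with e | rfl
    · obtain ⟨d, hd⟩ := Nat.exists_eq_add_of_le (off_mono bs (Nat.succ_le_of_lt e))
      rw [← ih.2 j e, cx, cx, hd, off_succ, pow_add, pow_add, ← mul_assoc, mul_right_comm,
        ← mul_assoc, mul_right_comm _ (2 ^ off bs j), Nat.add_mul_div_right _ _ (by positivity),
        Nat.add_mul_mod_self_right]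
    · rw [cx, Nat.add_mul_div_right _ _ (by positivity), Nat.div_eq_of_lt ih.1, zero_add,
        Nat.mod_eq_of_lt (hx j)]

/-- the grid lines above `y` -/
def abv (g : Gr) (S : NS) (j : ℕ) (y : ℝ) : Set ℕ :=
  {i | 2 ^ b3 g.bs j ≤ i + 1 ∨ y ≤ ((get S.lo j + (i + 1) * get g.h j : ℕ) : ℝ) / SC}

noncomputable def idx (g : Gr) (S : NS) (y : Pt) : ℕ :=
  ∑ j ∈ range S.k, sInf (abv g S j (y j)) * 2 ^ off g.bs j

lemma abv_mem (g : Gr) (S : NS) (j : ℕ) (y : ℝ) : 2 ^ b3 g.bs j - 1 ∈ abv g S j y :=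
  Or.inl (by omega)

lemma idx_ok (hg : g.OK S) {y : Pt} (hy : Bx S.k S.lo S.hi y) :
    idx g S y < 2 ^ g.B ∧ Cell g S (idx g S y) y := by
  have hx : ∀ j, sInf (abv g S j (y j)) < 2 ^ b3 g.bs j := fun j =>
    (Nat.sInf_le (abv_mem g S j _)).trans_lt (Nat.sub_one_lt (by positivity))
  obtain ⟨h1, h2⟩ := enc_Gd g.bs hx S.k
  refine ⟨hg.hB ▸ h1, fun j j1 hj => ?_⟩
  rw [idx, h2 j hj]
  constructor
  · rcases Nat.eq_zero_or_eq_succ_pred (sInf (abv g S j (y j))) with e | e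
    · simpa [e] using (hy j hj).1
    · have := Nat.notMem_of_lt_sInf (s := abv g S j (y j)) (m := (sInf (abv g S j (y j))).pred)
        (by omega)
      rw [e]
      exact (not_le.1 fun c => this (Or.inr c)).le
  · refine (Nat.sInf_mem ⟨_, abv_mem g S j (y j)⟩).elim (fun e => ?_) id
    exact (hy j hj).2.trans (cdiv ((hg.cov j j1 hj).trans
      (Nat.add_le_add_left ((mul_comm _ _).trans_le (Nat.mul_le_mul_right _ e)) _)))

lemma idx_tame (hI : Inv S A) (hg : g.OK S) (Φ : ℕ → Prop) :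
    Tame S.k fun a => Φ (idx g S (Y A a)) := by
  classical
  refine ⟨((Ico 1 S.k ×ˢ range 128).image fun p : ℕ × ℕ => (⟨A p.1, ∅,
    ((get S.lo p.1 + (p.2 + 1) * get g.h p.1 : ℕ) : ℝ) / SC⟩ : Row)).toList, fun r hr => ?_,
    fun a a' h e => ?_⟩
  · obtain ⟨p, hp, rfl⟩ := mem_image.1 (mem_toList.1 hr)
    obtain ⟨j1, j2⟩ := mem_Ico.1 (mem_product.1 hp).1
    obtain ⟨s1, s2, s3⟩ := hI.sub _ j2
    exact ⟨s1, empty_subset _, disjoint_empty_right _, ⟨_, mem_union_left _ s2⟩,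
      fun c => (s3 (by omega) (c.ge (mem_range.2 hI.pos))).elim,
      fun c => (notMem_empty 0 (c.ge (mem_range.2 hI.pos))).elim⟩
  · refine (congrArg Φ (sum_congr rfl fun j hj => congrArg (fun s => sInf s * _)
      (Set.ext fun i => or_congr_right' fun c => ?_))).mp e
    have j1 : 1 ≤ j := Nat.pos_of_ne_zero fun d => c (by rw [d, hg.b0]; omega)
    have : 2 ^ b3 g.bs j ≤ 2 ^ 7 := Nat.pow_le_pow_right two_pos
      (Nat.le_of_lt_succ (Nat.mod_lt _ (by norm_num)))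
    have := h _ (mem_toList.2 (mem_image.2 ⟨(j, i), mem_product.2
      ⟨mem_Ico.2 ⟨j1, mem_range.1 hj⟩, mem_range.2 (by omega)⟩, rfl⟩))
    simp only [Row.Same, Row.val, sum_empty, sub_zero] at this
    exact this.elim (fun c => iff_of_true c.1.le c.2.le) fun c => iff_of_false c.1.not_ge c.2.not_ge

lemma on_T (hg : g.OK S) {c : ℕ} (hc : c < 2 ^ g.B) : onM g.T c := by
  have key : ∀ n, (pk n fun _ => 2 ^ 31) < 2 ^ (32 * n) ∧
      ∀ c < n, onM (pk n fun _ => 2 ^ 31) c := fun n => by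
    induction n with
    | zero => simp [pk]
    | succ n ih =>
      have e : (pk (n + 1) fun _ => 2 ^ 31) = 2 ^ (32 * n) * 2 ^ 31 + pk n fun _ => 2 ^ 31 := by
        rw [pk, sum_range_succ, add_comm, mul_comm]
        rfl
      refine ⟨?_, fun c hc => ?_⟩
      · rw [e, mul_add, pow_add]
        have := ih.1
        omega
      rw [e, onM, Nat.testBit_two_pow_mul_add _ ih.1]
      split_ifs with d
      · exact ih.2 c (by omega)
      · rw [Nat.testBit_two_pow, decide_eq_true_iff]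
        omega
  exact hg.hT ▸ (key _).2 c hc

/-! ### the items -/

lemma ltA_ok (hL : LtStmt) (hI : Inv S A) (hg : g.OK S) {L : List Rw} (h : ∀ r ∈ L, r.In S.k)
    {a : Pt} (ha : OmM g S A (ltA g S L) a) : ∀ r ∈ L, r.ok (Y A a) := by
  obtain ⟨h1, c, h2, h3, h4⟩ := ha
  induction L with
  | nil => simp
  | cons r L ih =>
    have e : ltA g S (r :: L) = ltM g S r &&& ltA g S L := rfl
    rw [onM, e, Nat.testBit_and, Bool.and_eq_true] at h3
    rw [List.forall_mem_cons] at h ⊢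
    exact ⟨hL g S r c _ hg hI.pos h.1.1 h.1.2 h2 h3.1 h4 h1.1, ih h.2 h3.2⟩

theorem ofP_ok (hL : LtStmt) {p : Prov} (hp : Prok t p) : Itok t (ofP p) :=
  fun g _ sg S A s K _ hI hg hl => by
  obtain ⟨L, u, e, h1, h2⟩ := hp sg S A s _ hI hl
  refine ⟨ltA g S L, u, 0, by rw [ofP, e, zero_add], ?_⟩
  rw [Nat.cast_zero, zero_div]
  exact h2.anti fun a ha => ⟨ha.1, ltA_ok hL hI hg h1 ha⟩

theorem noI_ok (t : ℝ) : Itok t noI := fun _ _ _ _ _ _ _ _ _ _ h => absurd h (lt_irrefl _)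

lemma kil_ok (g : Gr) (S : NS) (c : ℕ) (rs : List Rw) : ∀ m, onM (kil g S rs m) c →
    ∃ r ∈ rs, onM (ltM g S ⟨Nat.succ r.c2, r.l2, r.c1, r.l1⟩) c := by
  induction rs with
  | nil => exact fun m h => by simp [kil, onM] at h
  | cons r rs ih =>
    intro m h
    have e : kil g S (r :: rs) m = force (Nat.shiftRight m 1) fun m' =>
      cnd (bit m 0) (ltM g S ⟨Nat.succ r.c2, r.l2, r.c1, r.l1⟩ ||| kil g S rs m')
        (kil g S rs m') := rfl
    have nx := fun h => (ih (Nat.shiftRight m 1) h).imp fun q hq =>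
      And.intro (List.mem_cons_of_mem r hq.1) hq.2
    rw [e, force_eq, cnd_eq] at h
    split_ifs at h
    · rw [onM, Nat.testBit_or, Bool.or_eq_true] at h
      exact h.elim (fun h => ⟨r, List.mem_cons_self, h⟩) nx
    · exact nx h

theorem killI_ok (hL : LtStmt) (t : ℝ) : Itok t killI := fun g _ sg S A s K _ hI hg _ => by
  refine ⟨_, _, 0, by simp only [killI, force_eq, zero_add]; rfl, ?_⟩
  rw [Nat.cast_zero, zero_div]
  refine (xEmpty sg t _ _).anti fun a ⟨h1, c, h2, h3, h4⟩ => ?_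
  obtain ⟨r, hr, h5⟩ := kil_ok g S c _ _ h3
  have h6 := hL g S _ c _ hg hI.pos (hI.rows r hr).2 (hI.rows r hr).1 h2 h5 h4 h1.1
  have h7 := h1.2 r hr
  simp only [Rw.ok, Nat.cast_succ, add_div] at h6 h7
  linarith [one_div_pos.2 SC_pos]

theorem smallP_ok (t : ℝ) : Prok t smallP := fun sg S A s K hI hl => by
  simp only [smallP, force_eq] at hl ⊢
  obtain ⟨h1, h2⟩ := grd_lt hl
  refine ⟨_, _, h2.trans (addRow_eq ..), List.forall_mem_singleton.2 (rowOf_lt ..),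
    H.big ((xEmpty sg t _ _).anti fun a ha => ?_)⟩
  have h3 := (rowOf_iff hI _ _ _ _ a).1 (ha.1.2 _ List.mem_cons_self)
  rw [ms_one (Nat.blt_eq ▸ h1), ms_zero, SC_eq_SndL] at h3
  have := ha.2 _ (Nat.blt_eq ▸ h1)
  push_cast at h3
  linarith

lemma subB_ok (g : Gr) (S : NS) (d n : ℕ) (hn : n < 16) : ∃ (lo hi : ℕ) (L : List Rw),
    (∀ K, subB g S d n K = K lo hi L) ∧ (∀ r ∈ L, r.In (n + 1)) ∧
    ∀ y, Bx S.k S.lo S.hi y → (∀ r ∈ L, r.ok y) → Bx S.k lo hi y := by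
  induction n with
  | zero => exact ⟨_, _, [], fun _ => rfl, by simp, fun _ h _ => h⟩
  | succ n ih =>
    obtain ⟨lo, hi, L, h1, h2, h3⟩ := ih (by omega)
    have e : nd (n + 1) < n + 1 + 1 := (nd_le _).trans_lt (by omega)
    refine ⟨_, _, _, fun K => by
      simp only [subB, force_eq] at h1 ⊢
      exact h1 _, ?_, fun y hy h j hj => ?_⟩
    · simp only [List.forall_mem_cons]
      exact ⟨⟨by simp, by simpa using e⟩, ⟨by simpa using e, by simp⟩, fun r hr =>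
        ⟨fun e he => ((h2 r hr).1 e he).trans (by omega),
          fun e he => ((h2 r hr).2 e he).trans (by omega)⟩⟩
    · simp only [List.forall_mem_cons, Rw.ok, List.map_nil, List.sum_nil, List.map_cons,
        List.sum_cons, add_zero, Nat.cast_zero, zero_div, zero_add, W_lt hn] at h
      simp only [mn_eq, get_put _ _ ((min_le_right _ _).trans_lt (get_lt _ _))]
      split_ifs with c
      · subst c
        refine ⟨(cdiv (min_le_left _ _)).trans h.1, ?_⟩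
        rw [Nat.cast_min, ← min_div_div_right SC_pos.le]
        exact le_min h.2.1 (hy _ hj).2
      · exact h3 y hy h.2.2 j hj

theorem childI_ok (hL : LtStmt) (t : ℝ) : Itok t childI := fun g ih sg S A s K hH hI hg hl => by
  have := hI.pos
  have := hI.le
  obtain ⟨lo, hi, L, h1, h2, h3⟩ := subB_ok g S (Nat.mod s (one (Nat.mul 16 (Nat.pred S.k))))
    (Nat.pred S.k) (by rw [Nat.pred_eq_sub_one]; omega)
  rw [show Nat.pred S.k + 1 = S.k by rw [Nat.pred_eq_sub_one]; omega] at h2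
  simp only [childI, force_eq, h1, two, Nat.add_eq] at hl ⊢
  exact ⟨_, _, _, rfl, (hH sg _ _ (lt_of_le_of_lt le_self_add hl) A (hI.upd lo hi hI.rows)).anti
    fun a ha => ⟨h3 _ ha.1.1 (ltA_ok hL hI hg h2 ha), ha.1.2⟩⟩

/-! ### the rule -/

lemma gLoop_ok {IT : BT Item} (hT : IT.All (Itok t)) {MS : Gr → NS → ℕ → ℕ → ℕ} (hM : MSok MS)
    {ih : Rec} (hH : ∀ sg S s, Val t sg S (ih sg S s)) (hI : Inv S A) (hg : g.OK S) (n : ℕ) :
    ∀ al s, gLoop IT MS g ih sg S n al s < INF →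
      H sg t S.k S.kind (fun a => Om S A a ∧ onM al (idx g S (Y A a)))
        ((gLoop IT MS g ih sg S n al s : ℝ) / 10 ^ 9) := by
  have key : ∀ m a, Om S A a → onM m (idx g S (Y A a)) → OmM g S A m a := fun m a ha h =>
    ⟨ha, _, (idx_ok hg ha.1).1, h, (idx_ok hg ha.1).2⟩
  induction n with
  | zero =>
    intro al s hl
    have e : gLoop IT MS g ih sg S 0 al s = cnd (Nat.beq al 0) 0 (grd sg (MS g S al s)) := rfl
    rw [e, cnd_eq] at hl ⊢
    split_ifs at hl ⊢ with c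
    · rw [Nat.cast_zero, zero_div]
      refine (xEmpty sg t _ _).anti fun a ha => ?_
      simpa [onM, Nat.eq_of_beq_eq_true c] using ha.2
    · obtain ⟨rfl, h2⟩ := grd_lt hl
      rw [h2] at hl ⊢
      exact (drop0 (hM g S A al s hI hg hl)).anti fun a ha => key _ a ha.1 ha.2
  | succ n IH =>
    intro al s hl
    have e : gLoop IT MS g ih sg S (n + 1) al s = IT.find (Nat.mod s 16) g ih sg S
        (Nat.shiftRight s 4) fun m u => gLoop IT MS g ih sg S n (al ^^^ (al &&& m)) u := by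
      simp only [gLoop, force_eq]
      rfl
    rw [e] at hl ⊢
    obtain ⟨m, u, l, h1, h2⟩ := hT.find _ g ih sg S A _ _ hH hI hg hl
    rw [h1] at hl ⊢
    rw [Nat.cast_add, add_div]
    refine H.cases (idx_tame hI hg (onM m)) (idx_tame hI hg fun c => ¬ onM m c)
      (h2.anti fun a ha => key _ a ha.1.1 ha.2)
      ((IH _ _ (lt_of_le_of_lt le_add_self hl)).anti fun a ha => ⟨ha.1.1, ?_⟩)
    have h3 := ha.1.2
    have h4 := ha.2
    simp only [onM, Bool.not_eq_true] at h3 h4 ⊢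
    simp [h3, h4]

theorem gdR_ok (hk : MkStmt) {IT : BT Item} (hT : IT.All (Itok t)) {MS : Gr → NS → ℕ → ℕ → ℕ}
    (hM : MSok MS) : XTok t (gdR IT MS) := fun _ ih _ hH sg S s hl A hI => by
  simp only [gdR, force_eq] at hl ⊢
  obtain ⟨g, hg, e⟩ := hk S _ _ hI.pos hl
  rw [e] at hl ⊢
  exact (gLoop_ok hT hM hH hI hg _ _ _ hl).anti fun a ha => ⟨ha, on_T hg (idx_ok hg ha.1).1⟩

/-! ### polytopes as providers -/

lemma rowsP_ok (hI : Inv S A) {G : ℕ} {r : RL} (hr : RLok S A G r) (P : List (ℕ × ℕ)) :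
    ∃ L : List Rw, (∀ K, rowsP S G (Nat.mul 12 (d4 G 0)) r P K = K L) ∧ (∀ q ∈ L, q.In S.k) ∧
      ∀ a, Om S A a → (∀ q ∈ L, q.ok (Y A a)) → ∀ y ∈ P, Pr S.k G y a := by
  induction P with
  | nil => exact ⟨[], fun _ => rfl, by simp, by simp⟩
  | cons y P IH =>
    obtain ⟨L, h1, h2, h3⟩ := IH
    obtain ⟨m, l1, l2, e1, i1, i2, e2⟩ := cut_step (sg := true) (t := 0) hI G y
    have e : ∀ K, rowsP S G (Nat.mul 12 (d4 G 0)) r (y :: P) K =
        force (Nat.mul (dg y.1 (Nat.mul 12 (d4 G 0))) 1000000) fun u =>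
        cnd (rowLe y.1 r u y.2) (rowsP S G (Nat.mul 12 (d4 G 0)) r P K)
          (mkRow S.par G y.1 (Nat.pred S.k) fun m l1 l2 =>
            force (Nat.add u (Nat.mul 16 m)) fun c =>
            rowsP S G (Nat.mul 12 (d4 G 0)) r P fun L => K (⟨c, l1, y.2, l2⟩ :: L)) := fun K => by
      simp only [rowsP]
    simp only [e, force_eq, cnd_eq, e1, h1]
    split_ifs with c
    · refine ⟨L, fun _ => rfl, h2, fun a ha h => List.forall_mem_cons.2
        ⟨fun b hb hs => ?_, h3 a ha h⟩⟩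
      have := hr _ _ _ b (fun j hj => bx16_of hI ha hI.le hb hj) c
      rw [Y, hI.top] at this
      simp only [Bool.false_eq_true, if_false, one_mul, hs, w0_cast] at this
      linarith
    · exact ⟨_, fun _ => rfl, List.forall_mem_cons.2 ⟨⟨i1, i2⟩, h2⟩, fun a ha h =>
        List.forall_mem_cons.2 ⟨(e2 _ rfl).1 a (h _ List.mem_cons_self),
          h3 a ha fun q hq => h q (List.mem_cons_of_mem _ hq)⟩⟩

/-- the rows of `P` in node coordinates -/
theorem polyK_ok (hI : Inv S A) (G : ℕ) (P : List (ℕ × ℕ)) : ∃ L : List Rw,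
    (∀ K, polyK S G P K = K L) ∧ (∀ q ∈ L, q.In S.k) ∧
      ∀ a, Om S A a → (∀ q ∈ L, q.ok (Y A a)) → ∀ y ∈ P, Pr S.k G y a := by
  obtain ⟨r, g1, g2⟩ := row_ok hI G false
  obtain ⟨L, h1, h2⟩ := rowsP_ok hI g2 P
  exact ⟨L, fun K => by rw [polyK, force_eq, g1, h1], h2⟩

theorem tabP_ok {gd : NS → ℕ → ℕ → Bool} {PL : BT PP}
    (h : ∀ (sg : Bool) (S : NS) (A : ℕ → Finset ℕ) (i G : ℕ), Inv S A →
      gd S G (PL.find i).k = true →
      H sg t S.k S.kind (fun a => ∀ y ∈ (PL.find i).P, Pr S.k G y a) 0) :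
    Prok t (tabP gd PL) := fun sg S A s K hI hl => by
  simp only [tabP, force_eq] at hl ⊢
  obtain ⟨h1, h2⟩ := grd_lt hl
  obtain ⟨L, e, h3, h4⟩ := polyK_ok hI (Nat.mod (Nat.shiftRight s 16) (one (Nat.mul 4 S.k)))
    (PL.find (Nat.mod s 65536)).P
  exact ⟨L, _, h2.trans (e _), h3, (h sg S A _ _ hI h1).anti fun a ha => h4 a ha.1 ha.2⟩

theorem t2P_ok (R : Rules) {tn : ℕ} (h1 : 1 / 3 ≤ t) (h2 : t < (tn : ℝ) / SC) (h4 : 2 * tn ≤ SC)
    (hL : Leaf2) {PL : BT PP} (hx : PL.All (PP.Good tn)) : Prok t (tabP g2 PL) := by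
  have : (2 : ℝ) * tn ≤ SC := by exact_mod_cast h4
  refine tabP_ok fun sg S A i G hI c => ?_
  simp only [g2, band_eq, Bool.and_eq_true, allN_iff, Nat.blt_eq] at c
  exact leaf2_pr R h1 h2 ((div_le_iff₀ SC_pos).2 (by linarith)) hL (hx.find _) hI c.1 c.2

end Pool.Agent.MP_c853c5_nt.X
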