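import Pool.Agent.MP_c853c5_nt.X.Defs
import Pool.Agent.MP_c853c5_nt.L.Mass

/-!
Numbers with a factorisation close to a hyperplane are rare.
-/

set_option autoImplicit false

open Finset Filter

namespace Pool.Agent.MP_c853c5_nt.X

open Pool.Agent.MP_c853c5_nt.S

/-- rough numbers above `1` of size in `(x ^ c, x ^ (c + w)]` -/
noncomputable def blk_Bad (c w : ℝ) : Blk := ⟨max c 0, c + w, 1 / 100, none⟩

lemma gb_Bad (c w : ℝ) {β : ℝ} (h : 1 / 100 ≤ β) : L.GB (blk_Bad c w) β ≤ 100 * β := by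
  have h1 := L.Om_le (β / (1 / 100) - 1) L.cc_le_one le_rfl
  rw [Real.log_one] at h1
  have h2 : max 0 (L.Om (β / (1 / 100) - 1)) ≤ 100 * β - 1 := max_le (by linarith) (by linarith)
  change 1 + max 0 (L.Om (β / (1 / 100) - 1)) ≤ _
  linarith

lemma dens_Bad (c w β₁ β₂ : ℝ) : L.Dens (fun x => bf x (blk_Bad c w)) β₁ β₂ 100 :=
  L.dens_bf (by norm_num [blk_Bad]) (le_max_right c 0) (by norm_num)
    fun _ _ _ _ _ h => gb_Bad c w h

lemma fx_Bad (c : ℝ) {w : ℝ} (hw : 0 ≤ w) :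
    L.Fx (fun x => bf x (blk_Bad c w)) (max (max c 0) (1 / 100)) (c + w) (100 * w) := by
  have h0 : 0 ≤ (blk_Bad c w).lo := le_max_right c 0
  refine ⟨L.pos_bf _, L.sup_bf h0, ?_, by positivity⟩
  rcases le_total (blk_Bad c w).hi (max (blk_Bad c w).lo (blk_Bad c w).a) with h | h
  · exact (L.lm_empty h0 h).mono (Eventually.of_forall fun _ _ => le_rfl) (by positivity)
  · refine (L.lm_gen (w := 100) (by norm_num [blk_Bad]) h0 (by norm_num) h
      fun _ _ _ h => gb_Bad c w h).mono (Eventually.of_forall fun _ _ => le_rfl) ?_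
    have : c ≤ max (max c 0) (1 / 100) := (le_max_left _ _).trans (le_max_left _ _)
    change 100 * (c + w - max (max c 0) (1 / 100)) ≤ _
    linarith

lemma mem_Bad {x c w : ℝ} (hx : 1 < x) {m : ℕ} (h1 : 1 < m) (h : Rough x (1 / 100) m)
    (h2 : c < Real.logb x m) (h3 : Real.logb x m ≤ c + w) : 1 ≤ bf x (blk_Bad c w) m := by
  have m1 : (1 : ℝ) < m := by exact_mod_cast h1
  have m0 : (0 : ℝ) < m := by linarith
  exact (bf_of_mem ⟨by omega, (Real.lt_logb_iff_rpow_lt hx m0).1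
    (max_lt h2 (Real.logb_pos hx m1)), (Real.logb_le_iff_le_rpow hx m0).1 h3, h,
    by simp [blk_Bad]⟩).ge

lemma one_le_Bad {f g : AF} (hf : Nn f) (hg : Nn g) {a b : ℕ} (h : a * b ≠ 0) (ha : 1 ≤ f a)
    (hb : 1 ≤ g b) : 1 ≤ (f * g) (a * b) := by
  rw [ArithmeticFunction.mul_apply]
  refine le_trans ?_ (single_le_sum (f := fun p : ℕ × ℕ => f p.1 * g p.2)
    (fun p _ => mul_nonneg (hf _) (hg _)) (a := (a, b)) (Nat.mem_divisorsAntidiagonal.2 ⟨rfl, h⟩))
  exact one_le_mul_of_one_le_of_one_le ha hb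

lemma log_Bad {x : ℝ} (hx : 2 ≤ x) {m n : ℕ} (h0 : 1 < m) (h1 : m ≤ n) (h2 : (n : ℝ) ≤ 2 * x) :
    0 < Real.logb x m ∧ Real.logb x m ≤ 2 := by
  have m1 : (1 : ℝ) < m := by exact_mod_cast h0
  have m2 : (m : ℝ) ≤ n := by exact_mod_cast h1
  refine ⟨Real.logb_pos (by linarith) m1,
    (Real.logb_le_iff_le_rpow (by linarith) (by linarith)).2 ?_⟩
  rw [Real.rpow_two]
  nlinarith

theorem xBad : BadStmt := by
  intro e ε hε
  obtain ⟨h, h0, h1, h2⟩ : ∃ h : ℝ, 0 < h ∧ h ≤ 1 ∧ 20000000 * h ≤ ε :=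
    ⟨min 1 (ε / 20000000), lt_min one_pos (by positivity), min_le_left _ _, by
      linarith [min_le_right 1 (ε / 20000000)]⟩
  refine ⟨h, h0, ?_⟩
  have w4 : 0 ≤ 4 * h := by positivity
  have m1 := L.mass_of (fx_Bad (e - 2 * h) w4) (by norm_num) (dens_Bad 0 3 _ _)
  have m2 := L.mass_of (fx_Bad ((1 + e) / 2 - 2 * h) w4) (by norm_num) (dens_Bad 0 3 _ _)
  have m3 := Mass.sum (range (⌈2 / h⌉₊ + 1)) fun k _ => L.mass_of
    ((fx_Bad (e + k * h - 2 * h) w4).mul (fx_Bad (k * h - h) h0.le)) (by norm_num)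
    (dens_Bad 0 3 _ _)
  refine (((m1.add m2).add m3).mono ?_).of_le ?_
  · have a1 : (⌈2 / h⌉₊ : ℝ) < 2 / h + 1 := Nat.ceil_lt_add_one (by positivity)
    have a2 : (⌈2 / h⌉₊ : ℝ) * h ≤ 2 + h := by
      have := mul_le_mul_of_nonneg_right a1.le h0.le
      rwa [add_mul, div_mul_cancel₀ _ h0.ne', one_mul] at this
    rw [sum_const, card_range, nsmul_eq_mul]
    push_cast
    nlinarith [mul_le_mul_of_nonneg_right a2 h0.le, mul_le_mul_of_nonneg_right h1 h0.le]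
  filter_upwards [eventually_ge_atTop 2, L.ev_two (show (1 : ℝ) < 1 + h by linarith),
    L.ev_two (show 1 - h < (1 : ℝ) by linarith)] with x hx u1 u2 n hn
  rw [Real.rpow_one] at u1 u2
  have x1 : 1 < x := by linarith
  have p1 := ((nn_bf x (blk_Bad (e - 2 * h) (4 * h))).mul (nn_bf x (blk_Bad 0 3))) n
  have p2 := ((nn_bf x (blk_Bad ((1 + e) / 2 - 2 * h) (4 * h))).mul (nn_bf x (blk_Bad 0 3))) n
  have p3 : ∀ k ∈ range (⌈2 / h⌉₊ + 1), 0 ≤ (bf x (blk_Bad (e + k * h - 2 * h) (4 * h)) *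
      bf x (blk_Bad (k * h - h) h) * bf x (blk_Bad 0 3)) n := fun k _ =>
    (((nn_bf x _).mul (nn_bf x _)).mul (nn_bf x _)) n
  have p4 := sum_nonneg p3
  rw [ArithmeticFunction.add_apply, ArithmeticFunction.add_apply, AF_sum]
  simp only [ind, ArithmeticFunction.coe_mk]
  split_ifs with hP
  swap
  · linarith
  obtain ⟨n0, hr, a, b, c, rfl, ha, hbc, hd⟩ := hP
  obtain ⟨d1, d2⟩ := abs_le.1 hd
  obtain ⟨hr', rc⟩ := rough_mul.1 hr
  obtain ⟨ra, rb⟩ := rough_mul.1 hr'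
  have b0 : b ≠ 0 := by rintro rfl; simp at hbc
  have c0 : c ≠ 0 := by rintro rfl; simp at hbc
  have hR : ∀ m : ℕ, 1 < m → m ∣ a * b * c → Rough x (1 / 100) m → 1 ≤ bf x (blk_Bad 0 3) m :=
    fun m q1 q2 q3 => by
      obtain ⟨q4, q5⟩ := log_Bad hx q1 (Nat.le_of_dvd (Nat.pos_of_ne_zero n0) q2) hn.2
      exact mem_Bad x1 q1 q3 q4 (by linarith)
  by_cases b1 : b = 1
  · subst b1
    rw [Nat.cast_one, Real.logb_one] at d1 d2
    rw [one_mul] at hbc
    have := one_le_Bad (nn_bf x _) (nn_bf x _) (mul_ne_zero (by omega) c0)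
      (mem_Bad (c := e - 2 * h) (w := 4 * h) x1 ha ra (by linarith) (by linarith))
      (hR c hbc (dvd_mul_left _ _) rc)
    rw [mul_one] at p2 p4 ⊢
    linarith
  have b2 : 1 < b := by omega
  by_cases c1 : c = 1
  · subst c1
    have a0 : (0 : ℝ) < a := by exact_mod_cast (by omega : 0 < a)
    have b3 : (0 : ℝ) < b := by exact_mod_cast (by omega : 0 < b)
    obtain ⟨w1, w2⟩ := hn
    rw [mul_one] at p1 p4 w1 w2 ⊢
    push_cast at w1 w2
    have l1 : 1 - h < Real.logb x (a * b) :=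
      (Real.lt_logb_iff_rpow_lt x1 (by positivity)).2 (by linarith)
    have l2 : Real.logb x (a * b) ≤ 1 + h :=
      (Real.logb_le_iff_le_rpow x1 (by positivity)).2 (by linarith)
    rw [Real.logb_mul a0.ne' b3.ne'] at l1 l2
    have := one_le_Bad (nn_bf x _) (nn_bf x _) (mul_ne_zero (by omega) b0)
      (mem_Bad (c := (1 + e) / 2 - 2 * h) (w := 4 * h) x1 ha ra (by linarith) (by linarith))
      (hR b b2 (by simp) rb)
    linarith
  obtain ⟨q4, q5⟩ := log_Bad hx b2 (Nat.le_of_dvd (Nat.pos_of_ne_zero n0)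
    ((dvd_mul_left b a).mul_right c)) hn.2
  have k1 : (⌈Real.logb x b / h⌉₊ : ℝ) * h < Real.logb x b + h := by
    have := mul_lt_mul_of_pos_right
      (Nat.ceil_lt_add_one (show 0 ≤ Real.logb x b / h by positivity)) h0
    rwa [add_mul, div_mul_cancel₀ _ h0.ne', one_mul] at this
  have k2 : Real.logb x b ≤ (⌈Real.logb x b / h⌉₊ : ℝ) * h :=
    (div_le_iff₀ h0).1 (Nat.le_ceil _)
  have k3 : ⌈Real.logb x b / h⌉₊ ∈ range (⌈2 / h⌉₊ + 1) :=
    mem_range.2 (Nat.lt_succ_of_le (Nat.ceil_mono (div_le_div_of_nonneg_right q5 h0.le)))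
  have k4 := single_le_sum p3 k3
  have := one_le_Bad ((nn_bf x _).mul (nn_bf x _)) (nn_bf x _) n0
    (one_le_Bad (nn_bf x _) (nn_bf x _) (mul_ne_zero (by omega) b0)
      (mem_Bad (c := e + ⌈Real.logb x b / h⌉₊ * h - 2 * h) (w := 4 * h) x1 ha ra (by linarith)
        (by linarith))
      (mem_Bad (c := ⌈Real.logb x b / h⌉₊ * h - h) (w := h) x1 b2 rb (by linarith) (by linarith)))
    (hR c (by omega) (dvd_mul_left _ _) rc)
  linarith

end Pool.Agent.MP_c853c5_nt.X
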