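import Pool.Agent.MP_c853c5_nt.X.FCD

/-!
All rows of a polytope on all cells of a grid (definitions only).
-/

set_option autoImplicit false

namespace Pool.Agent.MP_c853c5_nt.X

/-- the lanes of a node and the weight differences, shifted by `64`, of all rows -/
inductive IL : Type
  | nil : IL
  | cons (x X : ℕ) (r : IL) : IL

def mQ (q : PQ) : ℕ := Nat.div (Nat.sub (one (Nat.mul q.w q.n)) 1) (Nat.sub (one q.w) 1)
def nQ (q : PQ) : ℕ := Nat.mul (mQ q) 63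
def hQ (q : PQ) : ℕ := Nat.mul (mQ q) 64

def cQ (q : PQ) (g : ℕ) : ℕ := Nat.land (Nat.shiftRight q.R (Nat.add (Nat.mul 12 g) 40)) (nQ q)

def eQ (q : PQ) : ℕ :=
  Nat.add (Nat.land q.R (Nat.mul (mQ q) 1099511627775)) (Nat.mul (mQ q) 8796093022208)

def zQ (q : PQ) (g : ℕ) : ℕ := Nat.sub (eQ q) (Nat.mul (cQ q g) 1000000)

/-- the weights are below `64` -/
noncomputable def okQ (q : PQ) : Bool :=
  band (Nat.ble (Nat.add (Nat.mul 12 q.k) 40) q.w) (Nat.beq (Nat.land q.R (Nat.mul (mQ q)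
    (Nat.shiftLeft (Nat.mul (ones 12 q.k) 4032) 40))) 0)

def xQ (q : PQ) (g p : ℕ) : ℕ := Nat.sub (Nat.add (cQ q g) (hQ q)) (cQ q p)
def dQ (q : PQ) (g p : ℕ) : ℕ :=
  Nat.land (xQ q g p) (Nat.mul (Nat.land (Nat.shiftRight (xQ q g p) 6) (mQ q)) 63)
def sQ (q : PQ) (g p : ℕ) : ℕ := Nat.sub (Nat.add (dQ q g p) (hQ q)) (xQ q g p)

def fLo (S : NS) (j : ℕ) : ℕ := Nat.sub (get S.lo j) 16
def fHi (S : NS) (j : ℕ) : ℕ := Nat.add (get S.hi j) 16
def fUp (g : Gr) (j : ℕ) : ℕ := Nat.add (get g.up j) 16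
noncomputable def xG (g : Gr) (j : ℕ) : ℕ := nthN g.X j
def fP4 (S : NS) (j : ℕ) : ℕ := Nat.mul 4 (get S.par j)

abbrev KA := ℕ → ℕ → ℕ → ℕ → IL → ℕ

noncomputable def fA1 (q : PQ) (g : Gr) (S : NS) (ih : ℕ → ℕ → ℕ → ℕ → IL → ℕ) (j P Q V U : ℕ) (L : IL)
    (a b : ℕ) : ℕ :=
  cnd (Nat.beq a b) (ih P Q V U L) (ih (Nat.add P (Nat.mul (sQ q a b) (fLo S j)))
    (Nat.add Q (Nat.mul (dQ q a b) (fUp g j))) (Nat.add V (Nat.mul (dQ q a b) (fHi S j)))
    (Nat.add U (xG g j)) (IL.cons (xG g j) (xQ q a b) L))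

noncomputable def fAc (q : PQ) (g : Gr) (S : NS) (G : ℕ) (K : KA) (n : ℕ) : KA :=
  Nat.rec (motive := fun _ => KA) K
    (fun j ih P Q V U L => force (Nat.mod (Nat.shiftRight G (Nat.mul 4 (Nat.succ j))) 16) fun a =>
      force (Nat.mod (Nat.shiftRight G (fP4 S (Nat.succ j))) 16)
        (fA1 q g S ih (Nat.succ j) P Q V U L a)) n

noncomputable def sP (b : ℕ) (L : IL) : ℕ :=
  IL.rec (motive := fun _ => ℕ) 0
    (fun x X _ ih => Nat.add (Nat.mul (Nat.mod (Nat.div X b) 128) x) ih) L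

/-- the lanes of the row at the position `b`, a power of two -/
noncomputable def rowW (g : Gr) (L : IL) (Z T b : ℕ) : ℕ :=
  Nat.sub (Nat.add T (Nat.mul
    (Nat.sub (Nat.mod (Nat.div Z b) 17592186044416) 8795019280384) g.O)) (sP b L)

noncomputable def rw1 (g : Gr) (L : IL) (Z T X m X' : ℕ) (nx : ℕ → ℕ → ℕ) : ℕ :=
  nx X' (Nat.land (rowW g L Z T (Nat.sub X X')) m)

noncomputable def rowsW (g : Gr) (L : IL) (Z T c : ℕ) : ℕ → ℕ → ℕ :=
  Nat.rec (motive := fun _ => ℕ → ℕ → ℕ) (fun _ _ => 0)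
    (fun _ nx X m => cnd (Nat.beq X 0) m (rw1 g L Z T X m (Nat.land X (Nat.sub X 1)) nx)) c

def fT3 (g : Gr) : ℕ := Nat.shiftLeft g.O 30
def fK1 (S : NS) : ℕ := Nat.sub S.k 1

noncomputable def fpE (q : PQ) (g : Gr) : KA := fun P Q V U L =>
    rowsW g L (Nat.sub P Q) (Nat.add (fT3 g) (Nat.shiftLeft U 6)) 64
      (Nat.xor (mQ q) (Nat.land (Nat.shiftRight (Nat.sub P V) 43) (mQ q))) g.T

/-- the cells on which all rows hold -/
noncomputable def fpM (q : PQ) (g : Gr) (S : NS) (G : ℕ) : ℕ :=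
  force (Nat.mod G 16) fun a => fAc q g S G (fpE q g) (fK1 S) (zQ q a) 0 0 0 IL.nil

/-- the cells are narrow and away from zero -/
noncomputable def okG (g : Gr) (S : NS) : Bool :=
  allN (fun j => band (Nat.ble 16 (get S.lo j)) (Nat.blt (get g.wd j) 1048576)) S.k

def fW4 (S : NS) : ℕ := Nat.mul 4 S.k
def fW6 (S : NS) : ℕ := Nat.add 16 (fW4 S)
def fO4 (S : NS) : ℕ := one (fW4 S)

noncomputable def fpQ (gd : NS → ℕ → ℕ → Bool) (q : PQ) (g : Gr) (S : NS) (G v : ℕ)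
    (K : ℕ → ℕ → ℕ) : ℕ :=
  grd (band (band (okG g S) (okQ q)) (gd S G q.k)) (K (fpM q g S G) v)

/-- same code and same cells as `ofP (pqP gd T)` -/
noncomputable def fpI (gd : NS → ℕ → ℕ → Bool) (T : BT PQ) : Item := fun g _ _ S s K =>
  force (Nat.mod s 65536) fun i => force (Nat.mod (Nat.shiftRight s 16) (fO4 S)) fun G =>
  force (Nat.shiftRight s (fW6 S)) fun v => fpQ gd (T.find i) g S G v K

/-- all labels are below `m` -/
def lbl (G m : ℕ) : Bool :=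
  Nat.beq (Nat.land (Nat.lor G (Nat.add G (Nat.mul (Nat.sub 8 m) 1229782938247303441)))
    9838263505978427528) 0

noncomputable def g2f (S : NS) (G m : ℕ) : Bool := band (hasP S) (lbl G m)

/-- the primes -/
noncomputable def prM (kd n : ℕ) : ℕ :=
  Nat.rec (motive := fun _ => ℕ) 0
    (fun j ih => cnd (Nat.beq (get kd j) 0) (Nat.add (Nat.shiftLeft 8 (Nat.mul 4 j)) ih) ih) n

noncomputable def pM (S : NS) : ℕ := prM S.kd S.k

noncomputable def on1 (S : NS) (V : ℕ) : Bool :=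
  band (Nat.beq (Nat.land V (Nat.sub V 1)) 0) (Nat.blt 0 (Nat.land V (pM S)))

noncomputable def g3f (S : NS) (G m : ℕ) : Bool :=
  band (lbl G m) (on1 S (Nat.xor 9838263505978427528 (Nat.land
    (Nat.add (Nat.xor G 1229782938247303441) 8608480567731124087) 9838263505978427528)))

end Pool.Agent.MP_c853c5_nt.X
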