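import Pool.Agent.MP_c853c5_nt.X.GwD
import Pool.Agent.MP_c853c5_nt.X.FPD

/-!
The rows of a polytope on the grid of the nodes that occur in them (definitions only).
-/

set_option autoImplicit false

namespace Pool.Agent.MP_c853c5_nt.X

/-- two slopes in fields of `40` bits, `128` bits for each ratio -/
def tbA : ℕ := 0x4000000000000000000000010000000040000000000000000000002100000000209000000000000000000021900000002110000000000000000000222000000021a000000000000000000022b0000000223000000000000000000026d00000001f4000000000000000000026e000000020600000000000000000002730000000216000000000000000000029d000000020000000000000000000002a0000000021200000000000000000002a6000000022300000000000000000002c9000000021600000000000000000002e7000000020e00000000000000000002ef0000000220000000000000000000030c000000021b0000000000000000000329000000021700000000000000000003430000000216000000000000000000035e0000000216000000000000000000037800000002170000000000000000000392000000021900000000000000000003ac000000021c00000000000000000003c50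00000022100000000000000000003df00000002260000000000000000000404000000021b000000000000000000041d00000002230000000000000000000438000000022b000000000000000000045a00000002240000000000000000000475000000022e0000000000000000000497000000022900000000000000000004b8000000022500000000000000000004d2000000023300000000000000000004f2000000023100000000000000000005120000000230000000000000000000055e000000021400000000000000000005ae00000001f700000000000000000005fd00000001db000000000000000000064900000001d4000000000000000000069900000001bb00000000000000000006e700000001a500000000000000000007320000000191000000000000000000077b000000018000000000000000000007c2000000018900000000000000000007fe00000001830000000000000000000852000000018a00000000000000000008cd0000000166000000000000000000093e000000014900000000000000000009aa00000001310000000000000000000a1b00000001390000000000000000000a6d00000001340000000000000000000b0d000000010a0000000000000000000bba00000001040000000000000000000c3000000000f70000000000000000000d0e00000000e90000000000000000000dad00000000d20000000000000000000eb200000000c60000000000000000000f7000000000ae00000000000000000010a200000000a7000000000000000000114600000000a700000000000000000011f700000000a700000000000000000012b500000000a7000000000000000000138400000000a7000000000000000000146400000000a7000000000000000000155900000000a7000000000000000000166500000000a700000000000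

/-- the knots -/
def tbZ : ℕ := 0x10000000000000000000000000000003c00000000000000000000000000000002000000000000000000000000000000040000000000000000000000000000000600000000000000000000000000000008000000000000000000000000000000090000000000000000000000000000000b0000000000000000000000000000000d0000000000000000000000000000000e00000000000000000000000000000010000000000000000000000000000000120000000000000000000000000000001300000000000000000000000000000014000000000000000000000000000000160000000000000000000000000000001700000000000000000000000000000018000000000000000000000000000000190000000000000000000000000000001a0000000000000000000000000000001b0000000000000000000000000000001c0000000000000000000000000000001d0000000000000000000000000000001e0000000000000000000000000000001f0000000000000000000000000000001f000000000000000000000000000000200000000000000000000000000000002100000000000000000000000000000021000000000000000000000000000000220000000000000000000000000000002200000000000000000000000000000022000000000000000000000000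0000002300000000000000000000000000000023000000000000000000000000000000230000000000000000000000000000002300000000000000000000000000000023000000000000000000000000000000230000000000000000000000000000002400000000000000000000000000000024000000000000000000000000000000240000000000000000000000000000002400000000000000000000000000000024000000000000000000000000000000250000000000000000000000000000002500000000000000000000000000000026000000000000000000000000000000260000000000000000000000000000002600000000000000000000000000000026000000000000000000000000000000270000000000000000000000000000002700000000000000000000000000000027000000000000000000000000000000280000000000000000000000000000002800000000000000000000000000000029000000000000000000000000000000290000000000000000000000000000002a0000000000000000000000000000002a0000000000000000000000000000002b0000000000000000000000000000002b0000000000000000000000000000002b0000000000000000000000000000002b0000000000000000000000000000002b0000000000000000000000000000002b0000000000000000000000000000002b0000000000000000000000000000002b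

/-- shifts of the labels, ends, width, bits and offset of the nodes -/
inductive N2 : Type
  | nil (v c B : ℕ) : N2
  | cons (s p l c h H b o : ℕ) (r : N2) : N2

def n21 (ih : ℕ → ℕ → ℕ → N2) (par o v c j h u l y b : ℕ) : N2 :=
  N2.cons (Nat.mul 4 j) (Nat.mul 4 (get par j)) (Nat.sub l 16)
    (Nat.add (Nat.add u 16) (Nat.shiftLeft (Nat.add y 16) 36)) h (Nat.shiftLeft h 44) b o
    (ih (Nat.add o b)
      (Nat.add v (Nat.add (Nat.sub 16 l) (Nat.shiftRight (Nat.shiftLeft h b) 20)))
      (Nat.add c (Nat.sub (Nat.add l (Nat.shiftLeft h b)) y)))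

noncomputable def n20 (ih : ℕ → ℕ → ℕ → N2) (par hi bs o v c j h u l : ℕ) : N2 :=
  Nat.rec (motive := fun _ => N2) (N2.nil 1 0 0)
    (fun b _ => n21 ih par o v c j h u l (get hi j) b) (Nat.succ (b3 bs j))

noncomputable def mkN (par hi bs : ℕ) (R : List Nr) : ℕ → ℕ → ℕ → N2 :=
  List.rec (motive := fun _ => ℕ → ℕ → ℕ → N2)
    (fun o v c => Nat.rec (motive := fun _ => N2) (N2.nil 1 0 0)
      (fun B _ => N2.nil v (Nat.add 8796093022209 (Nat.mul 63 c)) B) (Nat.succ o))
    (fun r _ ih o v c => n20 ih par hi bs o v c (Nat.div r.a 44) r.h r.up r.lo) R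

noncomputable def nX (x : Ga) (S : NS) : N2 := mkN S.par S.hi x.g.bs x.R.tail 0 0 0

/-- the lanes are repeated `2 ^ g` times -/
noncomputable def rpl (g : ℕ) : ℕ → ℕ → ℕ :=
  Nat.rec (motive := fun _ => ℕ → ℕ → ℕ) (fun _ V => V)
    (fun _ ih s V => ih (Nat.add s s) (Nat.add V (Nat.shiftLeft V s))) g

/-- the lanes whose number has no bit `q` -/
noncomputable def mK (B q : ℕ) : ℕ :=
  rpl (Nat.sub B (Nat.succ q)) (Nat.shiftLeft 64 q) (gM (Nat.shiftLeft 32 q))

noncomputable def sp1 (ih : ℕ → ℕ) (B e V q : ℕ) : ℕ :=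
  ih (Nat.land (Nat.add V (Nat.shiftLeft V (Nat.shiftLeft e q))) (mK B q))

noncomputable def tSp (B o e m : ℕ) : ℕ → ℕ :=
  Nat.rec (motive := fun _ => ℕ → ℕ) (fun V => V)
    (fun i ih V => frc (Nat.add i o) (sp1 ih B e V)) m

/-- `g` bits are inserted at the position `o` of the numbers of the lanes -/
noncomputable def ins (B o g m V : ℕ) : ℕ :=
  Nat.rec (motive := fun _ => ℕ) V
    (fun _ _ => rpl g (Nat.shiftLeft 32 o) (tSp B o (Nat.mul 32 (gM g)) m V)) g

abbrev KT := ℕ → ℕ → ℕ → ℕ → ℕ → ℕ → ℕ → (ℕ → ℕ → ℕ) → (ℕ → ℕ → ℕ) → (ℕ → ℕ → ℕ) → ℕ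

def mxV (T x D : ℕ) : ℕ :=
  Nat.add (Nat.land D (Nat.sub (Nat.land D T) (Nat.shiftRight (Nat.land D T) 30))) (Nat.add T x)

def nD (n : ℕ) : ℕ := Nat.mod (Nat.shiftRight (Nat.succ n) 4) 16
def nP (n : ℕ) : ℕ := Nat.div (Nat.succ n) (Nat.mul 256 (nD n))
def nA (n : ℕ) : ℕ := Nat.xor (nD n) (nP n)
def xJ (q : PQ) (n : ℕ) : ℕ := xQ q (nA n) (nP n)
def dJ (q : PQ) (n : ℕ) : ℕ := dQ q (nA n) (nP n)
def sJ (q : PQ) (n : ℕ) : ℕ := sQ q (nA n) (nP n)
def aJ (q : PQ) (n : ℕ) : ℕ := Nat.add (dJ q n) (sJ q n)

/-- the nodes; `G` holds the groups above `4` bits, `C` is the number of bits of the small grid -/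
noncomputable def tN (q : PQ) (T G C : ℕ) (K : ℕ → ℕ → ℕ → KT) (n : N2) : KT :=
  N2.rec (motive := fun _ => KT) K
    (fun s p l c h H b t _ ih o g P Q A W U L E F => Nat.rec (motive := fun _ => ℕ)
      (ih o (Nat.add g b) P Q A W U L
        (fun B V => ins B (Nat.sub t g) (Nat.add g b) (Nat.sub C o) (F B V)) F)
      (fun n _ => ih (Nat.add o b) 0 (Nat.add P (Nat.mul (sJ q n) l))
        (Nat.add Q (Nat.mul (dJ q n) c)) (Nat.add A (Nat.mul (aJ q n) H))
        (mxV T (Nat.mul (aJ q n) H) (Nat.sub W (Nat.mul (aJ q n) H)))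
        (Nat.add (Nat.mul h (gU C o b)) U)
        (fun y V => Nat.add (Nat.mul (Nat.mod (Nat.div (xJ q n) y) 128) (Nat.mul h (gU C o b)))
          (L y V)) E E)
      (Nat.mul (Nat.land (Nat.xor (Nat.shiftRight G s) (Nat.shiftRight G p)) 240)
        (Nat.succ (Nat.land (Nat.shiftRight G p) 240)))) n

def tR3 (nx : ℕ → ℕ → ℕ → ℕ) (T X u d a b m Y Y' : ℕ) : ℕ :=
  nx X (Nat.add (Nat.add
      (Nat.mul a (Nat.land Y (Nat.sub (Nat.land Y T) (Nat.shiftRight (Nat.land Y T) 31))))
      (Nat.mul b (Nat.land Y' (Nat.sub (Nat.land Y' T) (Nat.shiftRight (Nat.land Y' T) 31))))) u)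
    (Nat.add (Nat.mul (Nat.add a b) m) d)

def tR2 (nx : ℕ → ℕ → ℕ → ℕ) (T O X u d m Y s e : ℕ) : ℕ :=
  tR3 nx T X u d (Nat.succ (Nat.div (Nat.land e 19342813113816474609254400) s))
    (Nat.succ (Nat.div (Nat.land (Nat.shiftRight e 40) 19342813113816474609254400) s)) m Y
    (Nat.sub Y (Nat.mul (Nat.shiftRight (Nat.mul (Nat.mod e 64) s) 51) O))

def tR1 (nx : ℕ → ℕ → ℕ → ℕ) (T O U : ℕ) (L : ℕ → ℕ → ℕ) (Z c X u d b y z : ℕ) : ℕ :=
  tR2 nx T O X u d (Nat.sub c (Nat.mod z 17592186044416))
    (Nat.sub (L b (Nat.mul (Nat.sub 8798240505857 (Nat.mod y 17592186044416)) O)) U)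
    (Nat.land z 18889465913886394810368)
    (Nat.shiftRight Z (Nat.shiftLeft (Nat.div (Nat.land y 75557863708322137374720)
      (Nat.land z 18889465913886394810368)) 7))

def tR0 (nx : ℕ → ℕ → ℕ → ℕ) (T O U : ℕ) (L : ℕ → ℕ → ℕ) (Y Y' Z c X u d b : ℕ) : ℕ :=
  tR1 nx T O U L Z c X u d b (Nat.div Y b) (Nat.div Y' b)

/-- the rows in the mask -/
noncomputable def tR (T O U : ℕ) (L : ℕ → ℕ → ℕ) (Y Y' Z c : ℕ) (K : ℕ → ℕ → ℕ) (n : ℕ) :
    ℕ → ℕ → ℕ → ℕ :=
  Nat.rec (motive := fun _ => ℕ → ℕ → ℕ → ℕ) (fun _ _ _ => INF)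
    (fun _ nx X u d => Nat.rec (motive := fun _ => ℕ) (K u d)
      (fun n _ => tR0 nx T O U L Y Y' Z c (Nat.land X n) u d (Nat.sub X (Nat.land X n))) X) n

def cv2 (t m w : ℕ) : ℕ := Nat.shiftRight (Nat.sub w (Nat.land w m)) t

def cv1' (t m u : ℕ) : ℕ := cv2 t m (Nat.add u m)

def zX (x : Ga) (t : ℕ) : ℕ := Nat.succ (Nat.shiftRight x.Z (Nat.sub 30 t))
def zT (x : Ga) (t : ℕ) : ℕ := Nat.add (Nat.mul (zX x t) tbA) tbZ
def fQ (q : PQ) : ℕ := Nat.mul (mQ q) 68719476735
def m4Q (q : PQ) : ℕ := Nat.shiftLeft (mQ q) 44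
def tQ (q : PQ) : ℕ := Nat.shiftLeft (mQ q) 74

noncomputable def tE1 (K : ℕ → ℕ) (q : PQ) (Z c t y C W U : ℕ) (L : ℕ → ℕ → ℕ) (E : ℕ → ℕ)
    (Y Y' D : ℕ) : ℕ :=
  tR (gT C) (gO C) U L Y Y' Z c
    (fun u d => gz (Nat.add y (Nat.add (Nat.shiftRight d 31)
        (Nat.xor (Nat.land (Nat.shiftRight (Nat.sub W (m4Q q)) 74) D) D)))
      (K (E (cv1' t (Nat.mul (gM t) (gO C)) u)))) 64 D 0 0

noncomputable def tE0 (K : ℕ → ℕ) (q : PQ) (Z t y C : ℕ) : ℕ → ℕ → ℕ → KT :=
  fun v c B o _ P Q A W U L E _ => tE1 K q Z c t (Nat.add (Nat.add y v) (Nat.xor o C)) C W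
    (Nat.shiftLeft U 6) L (E B)
    (Nat.add (Nat.sub P (Nat.land Q (fQ q))) (Nat.shiftLeft (Nat.sub W (tQ q)) 6))
    (Nat.add (Nat.sub P (Nat.land (Nat.shiftRight Q 36) (fQ q))) A)
    (Nat.xor (mQ q) (Nat.land
      (Nat.shiftRight (Nat.sub P (Nat.land (Nat.shiftRight Q 36) (fQ q))) 43) (mQ q)))

/-- zero if the table is admissible -/
noncomputable def vQ (q : PQ) : ℕ := cnd (okQ q) (Nat.sub 76 q.w) 1

noncomputable def tH (gd : NS → ℕ → ℕ → ℕ) (q : PQ) (x : Ga) (S : NS) (K : ℕ → ℕ) (t G C : ℕ) : ℕ :=
  tN q (tQ q) (Nat.shiftLeft G 4) C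
    (tE0 K q (zT x t) t
      (Nat.add (Nat.add (vQ q) (Nat.shiftRight (zX x t) 26)) (gd S G q.k)) C) (nX x S) 0 0
    (Nat.sub (eQ q) (Nat.mul (cQ q (Nat.mod G 16)) 1000000)) 0 0 (tQ q) 0
    (fun _ V => V) (fun _ V => V) fun _ V => V

/-- `16` bits for the polytope, `5` bits for the size of the small grid, `4 k` bits for the
groups; the lanes have `t` more bits -/
noncomputable def gtI (t : ℕ) (gd : NS → ℕ → ℕ → ℕ) (T : BT PQ) : AItem := fun x _ S s K =>
  frc (Nat.mod s 65536) fun i => frc (Nat.mod (Nat.shiftRight s 16) 32) (tH gd (T.find i) x S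
    (fun u => K u (Nat.shiftRight (Nat.shiftRight s 21) (fW4 S))) t
    (Nat.mod (Nat.shiftRight s 21) (fO4 S)))

def tG2 (T : ℕ) (K : ℕ → ℕ → ℕ) (α β m Y Y' c : ℕ) : ℕ :=
  K (Nat.add
      (Nat.mul α (Nat.land Y (Nat.sub (Nat.land Y T) (Nat.shiftRight (Nat.land Y T) 31))))
      (Nat.mul β (Nat.land Y' (Nat.sub (Nat.land Y' T) (Nat.shiftRight (Nat.land Y' T) 31)))))
    (Nat.add (Nat.mul (Nat.add α β) m) c)

def tG1 (T O : ℕ) (K : ℕ → ℕ → ℕ) (sx e a b M Y : ℕ) : ℕ :=
  tG2 T K (Nat.succ (Nat.mod (Nat.shiftRight e 58) 67108864))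
    (Nat.succ (Nat.mod (Nat.shiftRight e 98) 67108864)) (Nat.sub (Nat.add a M) b) Y
    (Nat.sub Y (Nat.mul (Nat.shiftLeft (Nat.mod e 64) 7) O))
    (Nat.add (Nat.mul 2 (Nat.add b M)) (Nat.shiftLeft (Nat.sub 1 sx) 31))

def tG0 (T O : ℕ) (K F : ℕ → ℕ → ℕ) (sx e μ a b M : ℕ) : ℕ :=
  tG1 T O K sx e a b M (F μ (Nat.mul (Nat.sub (Nat.add 2147483648 a) b) O))

def tGm (T O Z N : ℕ) (K F : ℕ → ℕ → ℕ) (sx W p q μ : ℕ) : ℕ :=
  tG0 T O K F sx (Nat.shiftRight Z (Nat.shiftLeft (Nat.div (Nat.shiftLeft W 6) sx) 7)) μ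
    (Nat.succ (Nat.shiftRight (Nat.mul (Nat.sub p q) μ) 20))
    (Nat.shiftRight (Nat.mul (Nat.sub q p) μ) 20)
    (Nat.mul N (Nat.add (Nat.shiftRight (Nat.mul μ sx) 20) 16))

/-- the lanes of a row and a bound for them -/
def tGE (T O Z N : ℕ) (K : ℕ → ℕ → ℕ) : KN := fun sx W _ p q F =>
  tGm T O Z N K F sx W p q (Nat.succ (Nat.div 17179869184 sx))

noncomputable def tL1 (T O Z N : ℕ) (R : NL) (ih : (ℕ → ℕ → ℕ) → ℕ) (K : ℕ → ℕ → ℕ)
    (c1 c2 P Q : ℕ) : ℕ :=
  gyN P Q 17592186044416 0 (tGE T O Z N fun v b => ih fun u c => K (Nat.add v u)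
    (Nat.add (Nat.add b c) (Nat.shiftRight (Nat.add P Q) 717))) R 0 0 0 (Nat.succ c1) c2
    fun _ V => V

noncomputable def tL (T O Z N : ℕ) (R : NL) (L : List Rw) : (ℕ → ℕ → ℕ) → ℕ :=
  List.rec (motive := fun _ => (ℕ → ℕ → ℕ) → ℕ) (fun K => K 0 0)
    (fun r _ ih K => tL1 T O Z N R ih K r.c1 r.c2 (pkV r.l1) (pkV r.l2)) L

/-- `4` bits for `t`, then the code of the provider -/
noncomputable def ofT (p : Prov) : AItem := fun x _ S s K =>
  frc (Nat.mod s 16) fun t => p S (Nat.shiftRight s 4) fun L u =>
    tL x.g.T x.g.O (zT x t) x.N (toNL 0 x.R) L fun v b =>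
      gz (Nat.add (Nat.shiftRight b 31) (Nat.shiftRight (zX x t) 26))
        (K (cv1' t (Nat.mul (gM t) x.g.O) v) u)

def lbz (G m : ℕ) : ℕ :=
  Nat.land (Nat.lor G (Nat.add G (Nat.mul (Nat.sub 8 m) 1229782938247303441))) 9838263505978427528

noncomputable def g2z (S : NS) (G m : ℕ) : ℕ := Nat.add (Nat.sub 1 (pM S)) (lbz G m)

noncomputable def onz (S : NS) (V : ℕ) : ℕ :=
  Nat.add (Nat.land V (Nat.sub V 1)) (Nat.sub 1 (Nat.land V (pM S)))

noncomputable def g3z (S : NS) (G m : ℕ) : ℕ :=
  Nat.add (lbz G m) (onz S (Nat.xor 9838263505978427528 (Nat.land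
    (Nat.add (Nat.xor G 1229782938247303441) 8608480567731124087) 9838263505978427528)))

/-- items: `0` a stored row, `1` small, `2` child, `3` is `i2`, `4` to `6` are `iu`, `7` is `i3`,
`8` is `i8`, `9` a mask of stored rows, `10` is `j2`, `11` is `j3` -/
noncomputable def ia6 (i2 i3 iu i8 j2 j3 : AItem) : BT AItem :=
  .nd 7 (.nd 3 (.nd 1 (.lf (ofT killP)) (.nd 1 (.lf (ofT smallP)) (.lf (ofI childI))))
      (.nd 1 (.lf i2) (.lf iu)))
    (.nd 2 (.nd 1 (.lf i3) (.lf i8)) (.nd 1 (.lf (ofI killI)) (.nd 1 (.lf j2) (.lf j3))))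

end Pool.Agent.MP_c853c5_nt.X
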