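import Pool.Agent.MP_c853c5_nt.X.GyD

/-!
The mass of the cells without long products (definitions only): as soon as the lanes are wide
enough, the vector is halved from the top.
-/

set_option autoImplicit false

namespace Pool.Agent.MP_c853c5_nt.X

/-- bits and weights of the nodes -/
inductive WL : Type
  | nil : WL
  | cons (b p q : ℕ) (r : WL) : WL

def fW (b p q : ℕ) : ℕ := Nat.shiftLeft (Nat.add p q) (Nat.mul 2 b)

/-- the growth of the lanes -/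
noncomputable def rP (L : WL) : ℕ :=
  WL.rec (motive := fun _ => ℕ) 1 (fun b p q _ ih => Nat.mul (fW b p q) ih) L

def gM (s : ℕ) : ℕ := Nat.sub (one s) 1

def hv1 (ih : ℕ → ℕ → ℕ) (A B i s M H : ℕ) : ℕ :=
  ih (Nat.add (Nat.land M A) H)
    (Nat.add (Nat.add (Nat.land M B) (Nat.shiftRight B s)) (Nat.shiftLeft H i))

/-- the sum and the first moment of `2 ^ b` digits of `s` bits -/
noncomputable def hv (s : ℕ) (K : ℕ → ℕ → ℕ) (b : ℕ) : ℕ → ℕ → ℕ :=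
  Nat.rec (motive := fun _ => ℕ → ℕ → ℕ) K
    (fun i ih A B => force (Nat.shiftLeft s i) fun u =>
      hv1 ih A B i u (gM u) (Nat.shiftRight A u)) b

def hf (b p q A B : ℕ) : ℕ :=
  Nat.sub (Nat.add (Nat.mul (Nat.add (Nat.mul p (gM (Nat.succ b))) q) A)
    (Nat.mul (Nat.mul 2 (Nat.sub q p)) B)) (Nat.mul (Nat.mul 2 (Nat.sub p q)) B)

noncomputable def tD (V : ℕ) (L : WL) : ℕ → ℕ :=
  WL.rec (motive := fun _ => ℕ → ℕ) (fun _ => V)
    (fun b p q _ ih s => hv s (hf b p q) b (ih (Nat.shiftLeft s b)) 0) L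

noncomputable def bU1 (ih : ℕ → ℕ → ℕ → ℕ → ℕ) (Z F V b p q m : ℕ) : ℕ :=
  grd (Nat.beq (Nat.shiftRight m F) 0)
    (force (Nat.shiftLeft F b) fun F' => ih F F' (ctZ Z b p q F F' V) m)

/-- lanes of `F` bits with values of `f` bits -/
noncomputable def bU (Z : ℕ) (K : ℕ → ℕ) (L : WL) : ℕ → ℕ → ℕ → ℕ → ℕ :=
  WL.rec (motive := fun _ => ℕ → ℕ → ℕ → ℕ → ℕ) (fun _ _ V _ => K V)
    (fun b p q r ih f F V m => Nat.rec (motive := fun _ => ℕ) (K (tD V (WL.cons b p q r) F))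
      (fun _ _ => bU1 ih Z F V b p q (Nat.mul m (fW b p q)))
      (Nat.shiftRight (rP (WL.cons b p q r)) (Nat.sub F f))) L

abbrev KW := ℕ → WL → ℕ

noncomputable def wl2 (ih : ℕ → ℕ → KW → ℕ) (K : KW) (j P b p q : ℕ) : ℕ :=
  Nat.rec (motive := fun _ => ℕ) (ih j (Nat.mul P (Nat.add p q)) K)
    (fun _ _ => ih j P fun P' L => K P' (WL.cons b p q L)) b

def wl1 (ih : ℕ → ℕ → KW → ℕ) (K : KW) (j P b d w e1 e2 : ℕ)
    (f : (ℕ → ℕ → KW → ℕ) → KW → ℕ → ℕ → ℕ → ℕ → ℕ → ℕ) : ℕ :=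
  f ih K j P b (Nat.succ (Nat.shiftRight e2 13))
    (Nat.succ (Nat.shiftRight (Nat.add e1 (cdR (Nat.mul (Nat.sub e1 e2) (Nat.sub d w)) w)) 13))

noncomputable def wl0 (ih : ℕ → ℕ → KW → ℕ) (K : KW) (W C j P b d t w : ℕ) : ℕ :=
  wl1 ih K (Nat.succ j) P b d w (eZ W C j w) (eZ W C t w) wl2

noncomputable def wlZ (bs h wd par lo hi W C n : ℕ) : ℕ → ℕ → KW → ℕ :=
  Nat.rec (motive := fun _ => ℕ → ℕ → KW → ℕ) (fun _ P K => K P WL.nil)
    (fun _ ih j P K => force (b3 bs j) fun b =>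
      wl0 ih K W C j (Nat.mul P (Nat.shiftLeft (get h j) (Nat.sub 13 b))) b (get wd j)
        (get par j) (Nat.sub (get hi j) (get lo j))) n

/-- the same value as `gL` -/
noncomputable def gLV (g : Gr) (S : NS) (W C Z e n f V m P : ℕ) : ℕ :=
  wlZ g.bs g.h g.wd S.par S.lo S.hi W C n 1 P fun P' L =>
    bU Z (fun U => cdR (Nat.mul P' U) e) L f 32 V m

noncomputable def gdU (g : Gr) (S : NS) (m n W : ℕ) : ℕ :=
  force g.B fun B => gLV g S W (acC S.kd W S.k) (gZ B) (Nat.pow 2000000000000000000000000 n) n 1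
    (Nat.land (Nat.shiftRight m 31) g.O) 1 (acP S.kd W S.k)

/-- the same value as `gdM` -/
noncomputable def gdV (g : Gr) (S : NS) (m _d : ℕ) : ℕ :=
  gdU g S m (Nat.sub S.k 1) (mkZ S.lo S.hi (chV S (Nat.sub S.k 1)) S.k)

noncomputable def gvF (g : Gr) (S : NS) (W C B n p t m c : ℕ) : ℕ :=
  gLV g S W C (gZ B) (Nat.mul (Nat.pow 2000000000000000000000000 n) m) n 17
    (Nat.land (Nat.shiftRight (Nat.add c (Nat.mul (Nat.pred (one t)) g.O)) t)
      (Nat.mul 131071 g.O)) m p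

noncomputable def yV2 (IT : BT AItem) (ih : Rec) (S : NS) (r v : ℕ) (g : Gr) (W C t : ℕ) : ℕ :=
  force g.B fun B => gyU g.bs g.h g.wd S.par S.lo S.hi W C B r 1 0 68719476736 1 fun Z N R =>
    gyLoop IT ⟨g, Z, N, ⟨0, 0, 0, get S.hi 0, get S.lo 0, 0⟩ :: R⟩ ih S
      (gvF g S W C B r (acP S.kd W S.k) t (Nat.shiftRight 65536 t)) (Nat.mod v 64)
      (Nat.shiftRight g.T 15) (Nat.shiftRight v 10)

noncomputable def yV1 (IT : BT AItem) (ih : Rec) (S : NS) (r v W : ℕ) (g : Gr) : ℕ :=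
  yV2 IT ih S r v g W (acC S.kd W S.k) (Nat.mod (Nat.shiftRight v 6) 16)

noncomputable def yV0 (IT : BT AItem) (ih : Rec) (S : NS) (s r w : ℕ) : ℕ :=
  mkGr S (Nat.shiftLeft (Nat.mod s (one w)) 3)
    (yV1 IT ih S r (Nat.shiftRight s w) (mkZ S.lo S.hi (chV S r) S.k))

/-- the same value as `gaR` -/
noncomputable def gaV (IT : BT AItem) : Rule := fun _ ih sg S s =>
  grd sg (yV0 IT ih S s (Nat.pred S.k) (Nat.mul 3 (Nat.pred S.k)))

end Pool.Agent.MP_c853c5_nt.X
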