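import Pool.Agent.MP_c853c5_nt.X.CarveD

/-!
The further rules of the checker are selected by their tags (definitions only).
-/

set_option autoImplicit false

namespace Pool.Agent.MP_c853c5_nt.X

abbrev Rule := BT Rf → Rec → Rec

/-- the rule that always fails -/
def noR : Rule := fun _ _ _ _ _ => INF

/-- tag `13`, tag `14`, otherwise a table indexed by the next `4` bits; every rule gets the code
after its tags -/
noncomputable def XT (f g : Rule) (sub : BT Rule) : Rule := fun T ih sg S s0 =>
  force (Nat.mod s0 16) fun tag => force (Nat.shiftRight s0 4) fun s =>
  cnd (Nat.beq tag 13) (f T ih sg S s)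
    (cnd (Nat.beq tag 14) (g T ih sg S s)
      (force (Nat.mod s 16) fun q => force (Nat.shiftRight s 4) fun u => sub.find q T ih sg S u))

noncomputable def carveR (PL : BT PP) : Rule := fun _ => carve PL

end Pool.Agent.MP_c853c5_nt.X
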