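import Pool.Agent.MP_c853c5_nt.X.GlueD
import Pool.Agent.MP_c853c5_nt.X.XTD

/-!
The checker with lazy arguments (definitions only); the values are those of `chk`.
-/

set_option autoImplicit false

namespace Pool.Agent.MP_c853c5_nt.X

/-- `x` if `v = 0`, failure otherwise -/
noncomputable def gz (v x : ℕ) : ℕ := Nat.rec (motive := fun _ => ℕ) x (fun _ _ => INF) v

def twY (s : ℕ) (f g : ℕ → ℕ) : ℕ :=
  Nat.add (f (Nat.mod (Nat.shiftRight s 16) (one (Nat.mod s 65536))))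
    (g (Nat.shiftRight (Nat.shiftRight s 16) (Nat.mod s 65536)))

/-- the children of the node `i`, in front of `B` -/
noncomputable def chL (par i k : ℕ) (B : List ℕ) : List ℕ :=
  Nat.rec (motive := fun _ => List ℕ) B
    (fun j ih => cnd (Nat.beq (get (Nat.lor par 16777215) j) i) (j :: ih) ih) k

/-- `alo` or `ahi` -/
noncomputable def axY (par k u v i : ℕ) : ℕ := Nat.sub (get u i) (sumL v (chL par i k []))

/-- not zero if no field is `c` -/
noncomputable def nlk (kd c k : ℕ) : ℕ :=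
  Nat.rec (motive := fun _ => ℕ) 1 (fun j ih => Nat.mul (Nat.xor (get kd j) c) ih) k

/-! ### propagation -/

noncomputable def dpc (e : ℕ) (l : List ℕ) : ℕ :=
  List.rec (motive := fun _ => ℕ) (cf e)
    (fun f _ _ => Nat.shiftLeft (cf e) (Nat.sub 1 (Nat.xor e f))) l

def cdY (σ c : ℕ) : ℕ := Nat.div (Nat.add σ (Nat.pred c)) c

noncomputable def tHY (σ lo : ℕ) (l : List ℕ) : ℕ → ℕ :=
  List.rec (motive := fun _ => ℕ → ℕ) (fun hi => hi)
    (fun e t ih hi => ih (Nat.sub hi (Nat.shiftLeft (Nat.sub (get hi (nd e))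
      (Nat.add (get lo (nd e)) (cdY σ (dpc e t)))) (Nat.mul 24 (nd e))))) l

noncomputable def tLY (σ hi : ℕ) (l : List ℕ) : ℕ → ℕ :=
  List.rec (motive := fun _ => ℕ → ℕ) (fun lo => lo)
    (fun e _ ih lo => ih (Nat.add lo (Nat.shiftLeft (Nat.sub
      (Nat.sub (get hi (nd e)) (cdY σ (cf e))) (get lo (nd e))) (Nat.mul 24 (nd e))))) l

abbrev KN3 := ℕ → ℕ → List Rw → ℕ

noncomputable def nr2 (ih : ℕ → ℕ → KN3 → ℕ) (r : Rw) (lo hi : ℕ) (K : KN3) (c1 : ℕ) (l1 : List ℕ)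
    (c2 : ℕ) (l2 : List ℕ) (a b : ℕ) : ℕ :=
  cnd (Nat.ble a b)
    (cnd (Nat.ble (Nat.add c1 (sumL hi l1)) (Nat.add c2 (sumL lo l2))) (ih lo hi K)
      (ih (Nat.mod (tLY (Nat.sub b a) hi l2 lo) 0) (Nat.mod (tHY (Nat.sub b a) lo l1 hi) 0)
        fun lo2 hi2 rs2 => K lo2 hi2 (r :: rs2))) 0

noncomputable def nrY (rs : List Rw) : ℕ → ℕ → KN3 → ℕ :=
  List.rec (motive := fun _ => ℕ → ℕ → KN3 → ℕ) (fun lo hi K => K lo hi [])
    (fun r _ ih lo hi K => Rw.rec (motive := fun _ => ℕ) (fun c1 l1 c2 l2 =>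
      nr2 ih r lo hi K c1 l1 c2 l2 (Nat.add c1 (sumL lo l1)) (Nat.add c2 (sumL hi l2))) r) rs

/-! ### rules -/

noncomputable def spY (ih : Rec) (sg : Bool) (k par kd lo hi : ℕ) (rs : List Rw) (j c s : ℕ) : ℕ :=
  gz (Nat.add (Nat.sub 1 j) (Nat.sub (Nat.succ j) k))
    (twY s (ih sg ⟨k, par, kd, lo, put hi j c, rs⟩) (ih sg ⟨k, par, kd, put lo j c, hi, rs⟩))

noncomputable def opY (f : NS → ℕ → ℕ) (k par kd lo hi : ℕ) (rs : List Rw) (i l h : ℕ)
    (L : List Rw → List Rw) (u : ℕ) : ℕ :=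
  grd (Nat.ble k 15) (force (Nat.succ k) fun k' => force (put par k i) fun par' =>
    f ⟨k', par', put (put kd i k') k 0, put lo k l, put hi k h,
      L (⟨0, k :: k :: chL par i k [], 0, [i]⟩ :: rs)⟩ u)

noncomputable def hfY (par k lo hi i : ℕ) : ℕ := Nat.shiftRight (Nat.succ (axY par k hi lo i)) 1

def mnY (a b : ℕ) : ℕ := Nat.sub a (Nat.sub a b)

noncomputable def dn2 (ih : Rec) (sg : Bool) (k par kd lo hi : ℕ) (rs : List Rw) (i ν s v h : ℕ)
    (L : List Rw → List Rw) : ℕ :=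
  gz (Nat.add (Nat.add (Nat.add (Nat.sub (Nat.succ i) k) (Nat.sub 20000 ν))
      (Nat.add (Nat.sub ν 999999) (Nat.sub 1 (nlk kd (Nat.succ i) k)))) v)
    (twY s (ih sg ⟨k, par, put kd i ν, lo, hi, ⟨ν, chL par i k [], 0, [i]⟩ :: rs⟩)
      (opY (ih (bnot sg)) k par kd lo hi rs i ν h L))

noncomputable def dnY (ih : Rec) (sg : Bool) (k par kd lo hi : ℕ) (rs : List Rw) (i ν s : ℕ) : ℕ :=
  Nat.rec (motive := fun _ => ℕ)
    (dn2 ih sg k par kd lo hi rs i ν s (Nat.sub (Nat.succ ν) (axY par k lo hi i))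
      (hfY par k lo hi i) fun M => M)
    (fun l _ => cnd (Nat.ble l 15)
      (dn2 ih sg k par kd lo hi rs i ν s (Nat.sub (Nat.succ ν) (axY par k lo hi l))
        (mnY (axY par k hi lo l) (hfY par k lo hi i))
        fun M => ⟨0, k :: chL par l k [], 0, [l]⟩ :: M)
      (dn2 ih sg k par kd lo hi rs i ν s (Nat.sub ν (Nat.succ l))
        (mnY (Nat.succ l) (hfY par k lo hi i)) fun M => M)) (get kd i)

noncomputable def upY (ih : Rec) (sg : Bool) (k par kd lo hi : ℕ) (rs : List Rw) (i s : ℕ) : ℕ :=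
  Nat.rec (motive := fun _ => ℕ) INF
    (fun l _ => gz (Nat.sub (Nat.succ i) k)
      (twY s (ih sg ⟨k, par, put kd i 0, lo, hi, rs⟩) (cnd (Nat.ble l 15)
        (opY (ih sg) k par kd lo hi rs i (axY par k lo hi l) (hfY par k lo hi i)
          fun M => ⟨0, [l], 0, chL par l k [k]⟩ :: M)
        (opY (ih sg) k par kd lo hi rs i (Nat.succ l) (hfY par k lo hi i) fun M => M))))
    (get kd i)

/-- zero if the lists are equal -/
noncomputable def difL (l : List ℕ) : List ℕ → ℕ :=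
  List.rec (motive := fun _ => List ℕ → ℕ)
    (fun m => List.rec (motive := fun _ => ℕ) 0 (fun _ _ _ => 1) m)
    (fun e _ ih m => List.rec (motive := fun _ => ℕ) 1
      (fun f t _ => Nat.add (Nat.xor e f) (ih t)) m) l

noncomputable def difR (l : List Rw) : List Rw → ℕ :=
  List.rec (motive := fun _ => List Rw → ℕ) (fun _ => 0)
    (fun r _ ih m => List.rec (motive := fun _ => ℕ) 1
      (fun q t _ => Nat.add (Nat.add (Nat.add (Nat.xor r.c1 q.c1) (Nat.xor r.c2 q.c2))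
        (Nat.add (difL r.l1 q.l1) (difL r.l2 q.l2))) (ih t)) m) l

/-- the same state is recognised at once -/
noncomputable def rfY (sg : Bool) (S : NS) (x : Rf) : ℕ :=
  Rf.rec (motive := fun _ => ℕ) (fun b U l => Nat.rec (motive := fun _ => ℕ)
    (grd (cnd sg b (bnot b)) l) (fun _ _ => leafR sg S x)
    (Nat.add (Nat.add (Nat.add (Nat.xor S.k U.k) (Nat.xor S.par U.par))
      (Nat.add (Nat.xor S.kd U.kd) (Nat.add (Nat.xor S.lo U.lo) (Nat.xor S.hi U.hi))))
      (difR U.rs S.rs))) x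

abbrev RlY := Rec → Rec

noncomputable def r0Y : RlY := fun ih sg S s => NS.rec (motive := fun _ => ℕ)
  (fun k par kd lo hi rs => force (Nat.mod (Nat.shiftRight s 4) 16) fun j =>
    spY ih sg k par kd lo hi rs j (Nat.shiftRight (Nat.add (get lo j) (get hi j)) 1)
      (Nat.shiftRight s 8)) S

noncomputable def r1Y : RlY := fun ih sg S s => NS.rec (motive := fun _ => ℕ)
  (fun k par kd lo hi rs =>
    nrY rs lo hi fun lo hi rs => ih sg ⟨k, par, kd, lo, hi, rs⟩ (Nat.shiftRight s 4)) S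

noncomputable def r4Y : RlY := fun ih sg S s => NS.rec (motive := fun _ => ℕ)
  (fun k par kd lo hi rs => force (Nat.mod (Nat.shiftRight s 4) 16) fun i =>
    force (Nat.mod (Nat.shiftRight s 8) 1048576) fun ν =>
    dnY ih sg k par kd lo hi rs i ν (Nat.shiftRight s 28)) S

noncomputable def r5Y : RlY := fun ih sg S s => NS.rec (motive := fun _ => ℕ)
  (fun k par kd lo hi rs => force (Nat.mod (Nat.shiftRight s 4) 16) fun i =>
    upY ih sg k par kd lo hi rs i (Nat.shiftRight s 8)) S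

noncomputable def r8Y : RlY := fun ih sg S s => NS.rec (motive := fun _ => ℕ)
  (fun k par kd lo hi rs => spY ih sg k par kd lo hi rs (Nat.mod (Nat.shiftRight s 4) 16)
    (Nat.mod (Nat.shiftRight s 8) 1048576) (Nat.shiftRight s 28)) S

structure RB where
  f : RlY

/-- the rule for a tag -/
noncomputable def selS (E : Env) (q : ℕ) : RB :=
  cnd (Nat.ble 13 q) ⟨E.XT E.RF⟩ (cnd (Nat.beq q 0) ⟨r0Y⟩ (cnd (Nat.beq q 1) ⟨r1Y⟩
    (cnd (Nat.beq q 4) ⟨r4Y⟩ (cnd (Nat.beq q 8) ⟨r8Y⟩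
      (cnd (Nat.beq q 10) ⟨fun _ sg S s => rfY sg S (E.RF.find (Nat.shiftRight s 4))⟩
        (cnd (Nat.beq q 2) ⟨fun _ sg S s => grd sg (E.MN (Nat.shiftRight s 4) S)⟩
          (cnd (Nat.beq q 5) ⟨r5Y⟩ ⟨step E⟩)))))))

noncomputable def stepY (E : Env) : RlY := fun ih sg S s =>
  force (Nat.mod s 16) fun q => (selS E q).f ih sg S s

noncomputable def chkY (E : Env) (fuel : ℕ) : Rec :=
  Nat.rec (motive := fun _ => Rec) (fun _ _ _ => INF) (fun _ ih => stepY E ih) fuel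

noncomputable def allY (E : Env) (l : List (Rf × ℕ)) : Bool :=
  allL (fun x : Rf × ℕ => Nat.ble (chkY E 400 x.1.sg x.1.S x.2) x.1.l) l

structure XB where
  f : Rule

noncomputable def fnX (t : BT Rule) : ℕ → XB :=
  BT.rec (motive := fun _ => ℕ → XB)
    (fun x _ => ⟨fun T ih sg S s => x T ih sg S (Nat.shiftRight s 8)⟩)
    (fun n _ _ il ir i => cnd (Nat.blt i n) (il i) (ir (Nat.sub i n))) t

noncomputable def selX (f g : Rule) (sub : BT Rule) (q : ℕ) : XB :=
  cnd (Nat.beq (Nat.mod q 16) 13) ⟨fun T ih sg S s => f T ih sg S (Nat.shiftRight s 4)⟩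
    (cnd (Nat.beq (Nat.mod q 16) 14) ⟨fun T ih sg S s => g T ih sg S (Nat.shiftRight s 4)⟩
      (fnX sub (Nat.shiftRight q 4)))

/-- the same as `XT` -/
noncomputable def XTY (f g : Rule) (sub : BT Rule) : Rule := fun T ih sg S s =>
  force (Nat.mod s 256) fun q => (selX f g sub q).f T ih sg S s

end Pool.Agent.MP_c853c5_nt.X
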