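import Pool.Agent.MP_c853c5_nt.X.GvD
import Pool.Agent.MP_c853c5_nt.X.ChYD

/-!
The rule with fractional lanes, all data of the nodes in one pass (definitions only).
-/

set_option autoImplicit false

namespace Pool.Agent.MP_c853c5_nt.X

/-- `x` is evaluated to a numeral -/
noncomputable def frc (x : ℕ) (f : ℕ → ℕ) : ℕ :=
  Nat.rec (motive := fun _ => ℕ) 0 (fun n _ => f n) (Nat.succ x)

/-- the parents; the root is sent to the field `16` -/
def pr6 (par : ℕ) : ℕ := Nat.add 16 (Nat.shiftLeft (Nat.shiftRight par 24) 24)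

noncomputable def chZ (par lo hi k : ℕ) : ℕ :=
  Nat.rec (motive := fun _ => ℕ) 0
    (fun j ih => Nat.add (Nat.shiftLeft (Nat.add (Nat.shiftLeft (get hi j) 32) (get lo j))
      (Nat.mul 64 (get par j))) ih) k

def mI (lo V i : ℕ) : ℕ := loZ (get lo i) (fT V i)
def uI (hi V i : ℕ) : ℕ := Nat.sub (get hi i) (Nat.mod (fT V i) 4294967296)

noncomputable def bw1 (kd lo hi V i m U : ℕ) : ℕ :=
  cnd (Nat.ble U m) 0 (Nat.rec (motive := fun _ => ℕ)
    (Nat.add (Nat.mul 32 (cdR 1000000000000000 m)) i)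
    (fun l _ => cnd (Nat.ble l 15) (bl2 m U i l (mI lo V l) (uI hi V l))
      (rgZ m U (Nat.succ l) (Nat.succ l) i 16)) (get kd i))

def bw2 (ih : (ℕ → ℕ → ℕ) → ℕ) (K : ℕ → ℕ → ℕ) (b : ℕ) : ℕ :=
  ih fun p c => K (Nat.mul p (Nat.shiftRight b 5)) (Nat.add c (one (Nat.mul 8 (Nat.mod b 32))))

noncomputable def acW (kd lo hi V k : ℕ) : (ℕ → ℕ → ℕ) → ℕ :=
  Nat.rec (motive := fun _ => (ℕ → ℕ → ℕ) → ℕ) (fun K => K 1 0)
    (fun i ih K => bw2 ih K (bw1 kd lo hi V i (mI lo V i) (uI hi V i))) k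

noncomputable def eI (lo hi V C t w : ℕ) : ℕ :=
  Nat.rec (motive := fun _ => ℕ) 1000000000
    (fun n _ => cnd (Nat.ble 20000 (mI lo V t))
      (eW (Nat.mul (Nat.mul 2 (Nat.succ n)) w) (Nat.add (mI lo V t) (uI hi V t))) 1000000000)
    (Nat.mod (Nat.shiftRight C (Nat.mul 8 t)) 256)

abbrev KM := ℕ → ℕ → ℕ → ℕ → ℕ → List Nr → WL → ℕ
abbrev IM := ℕ → ℕ → ℕ → ℕ → ℕ → ℕ → KM → ℕ

def zU (Z b m d : ℕ) : ℕ :=
  Nat.add Z (cdR (Nat.mul Z d) (Nat.add (Nat.shiftLeft m (Nat.succ b)) d))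

def mw3 (ih : IM) (K : KM) (j j' o o' x Z N P b h l p q : ℕ) (f : WL → WL) : ℕ :=
  ih j' o' x (zU Z b (mn0 p q) (Nat.add (Nat.sub p q) (Nat.sub q p))) (Nat.add N (one b)) P
    fun B y Z2 N2 P2 R L => K B y Z2 N2 P2
      (⟨Nat.mul 44 j, Nat.mul 44 j, h, Nat.add l h, l, gU B o b⟩ :: R) (f L)

noncomputable def mw2 (ih : IM) (K : KM) (j j' o x Z N P b h l p q : ℕ) : ℕ :=
  Nat.rec (motive := fun _ => ℕ)
    (mw3 ih K j j' o o x Z N (Nat.mul P (Nat.add p q)) b h l p q fun L => L)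
    (fun _ _ => force (Nat.add o b) fun o' =>
      mw3 ih K j j' o o' x Z N P b h l p q (WL.cons b p q)) b

noncomputable def mw1 (ih : IM) (K : KM) (j j' o x Z N P b h l d w e1 e2 : ℕ) : ℕ :=
  mw2 ih K j j' o (Nat.add x (Nat.sub (Nat.add l d) 16777214)) Z N
    (Nat.mul P (Nat.shiftLeft h (Nat.sub 13 b))) b h l (Nat.succ (Nat.shiftRight e2 13))
    (Nat.succ (Nat.shiftRight (Nat.add e1 (cdR (Nat.mul (Nat.sub e1 e2) (Nat.sub d w)) w)) 13))

def hJ (w b : ℕ) : ℕ := Nat.shiftRight (Nat.add w (gM b)) b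

noncomputable def mw0 (ih : IM) (K : KM) (lo hi V C j j' o x Z N P b t w : ℕ) : ℕ :=
  mw1 ih K j j' o x Z N P b (hJ w b) (get lo j) (Nat.shiftLeft (hJ w b) b) w
    (eI lo hi V C j w) (eI lo hi V C t w)

/-- the nodes `j, …, j + n - 1`; `x` is zero if the grid is admissible -/
noncomputable def mwL (bs par lo hi V C n : ℕ) : IM :=
  Nat.rec (motive := fun _ => IM) (fun _ o x Z N P K => K o x Z N P [] WL.nil)
    (fun _ ih j o x Z N P K => force (b3 bs j) fun b => frc (get par j) fun t =>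
      frc (Nat.succ j) fun j' =>
      mw0 ih K lo hi V C j j' o x Z N P b t (Nat.sub (get hi j) (get lo j))) n

/-- the fields of the grid that are seldom used -/
structure GrS where
  h : ℕ
  up : ℕ
  wd : ℕ
  L : List ℕ

def uT1 (x : GrS) (B o b l w p : ℕ) : GrS :=
  ⟨Nat.add x.h (Nat.shiftLeft w p), Nat.add x.up (Nat.shiftLeft (Nat.add l w) p),
    Nat.add x.wd (Nat.shiftLeft (Nat.shiftLeft w b) p), Nat.mod (Nat.mul w (gU B o b)) 0 :: x.L⟩

noncomputable def uL (lo hi bs B n : ℕ) : ℕ → ℕ → GrS :=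
  Nat.rec (motive := fun _ => ℕ → ℕ → GrS) (fun _ _ => ⟨0, 0, 0, []⟩)
    (fun _ ih j o => uT1 (ih (Nat.succ j) (Nat.add o (b3 bs j))) B o (b3 bs j) (get lo j)
      (hJ (Nat.sub (get hi j) (get lo j)) (b3 bs j)) (Nat.mul 24 j)) n

def grX (B bs u O T : ℕ) (x : GrS) : Gr := ⟨B, bs, x.h, Nat.add x.up u, x.wd, O, T, 0 :: x.L⟩

structure AB where
  f : AItem

noncomputable def fnA (t : BT AItem) : ℕ → AB :=
  BT.rec (motive := fun _ => ℕ → AB) (fun x _ => ⟨x⟩)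
    (fun n _ _ il ir i => cnd (Nat.blt i n) (il i) (ir (Nat.sub i n))) t

noncomputable def gwLoop (IT : BT AItem) (x : Ga) (T : ℕ) (ih : Rec) (S : NS) (fin : ℕ → ℕ)
    (n : ℕ) : ℕ → ℕ → ℕ :=
  Nat.rec (motive := fun _ => ℕ → ℕ → ℕ) (fun c _ => fin c)
    (fun _ nx c s => force (Nat.mod s 16) fun q =>
      (fnA IT q).f x ih S (Nat.shiftRight s 4) fun a u => nx (mnL T c a) u) n

def cO (F F' : ℕ) : ℕ := Nat.div (gM F') (gM F)

def cX (F F' b : ℕ) : ℕ :=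
  Nat.mul 2 (Nat.div (Nat.sub (Nat.succ (Nat.shiftLeft (gM b) F')) (cO F F')) (gM F))

def ctU (Z b p q F F' V : ℕ) : ℕ :=
  Nat.land (wM Z F F') (Nat.shiftRight (Nat.mul (Nat.sub
    (Nat.add (Nat.mul (Nat.add p (Nat.mul q (gM (Nat.succ b)))) (cO F F'))
      (Nat.mul p (cX F F' b))) (Nat.mul q (cX F F' b))) V) (Nat.sub F' F))

noncomputable def cU1 (ih : ℕ → ℕ → ℕ → ℕ → ℕ) (Z F V b p q m : ℕ) : ℕ :=
  gz (Nat.shiftRight m F) (force (Nat.shiftLeft F b) fun F' => ih F F' (ctU Z b p q F F' V) m)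

/-- the same value as `bU` -/
noncomputable def cU (Z : ℕ) (K : ℕ → ℕ) (L : WL) : ℕ → ℕ → ℕ → ℕ → ℕ :=
  WL.rec (motive := fun _ => ℕ → ℕ → ℕ → ℕ → ℕ) (fun _ _ V _ => K V)
    (fun b p q r ih f F V m => Nat.rec (motive := fun _ => ℕ) (K (tD V (WL.cons b p q r) F))
      (fun _ _ => cU1 ih Z F V b p q (Nat.mul m (fW b p q)))
      (Nat.shiftRight (rP (WL.cons b p q r)) (Nat.sub F f))) L

def pw2 (n : ℕ) : ℕ := Nat.pow 2000000000000000000000000 n

noncomputable def gwF (L : WL) (B O r P t m c : ℕ) : ℕ :=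
  cU (gZ B) (fun U => cdR (Nat.mul P U) (Nat.mul (pw2 r) m)) L 17 32
    (Nat.land (Nat.shiftRight (Nat.add c (Nat.mul (gM t) O)) t) (Nat.mul 131071 O)) m

noncomputable def wA3 (IT : BT AItem) (ih : Rec) (S : NS) (lo hi r bs v B Z N P : ℕ) (R : List Nr)
    (L : WL) (O T t : ℕ) : ℕ :=
  gwLoop IT ⟨grX B bs (get hi 0) O T (uL lo hi bs B r 1 0), Z, N,
      ⟨0, 0, 0, get hi 0, get lo 0, 0⟩ :: R⟩ T ih S
    (gwF L B O r P t (Nat.shiftRight 65536 t)) (Nat.mod v 64) (Nat.shiftRight T 15)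
    (Nat.shiftRight v 10)

noncomputable def wA2 (IT : BT AItem) (ih : Rec) (S : NS) (lo hi r bs v : ℕ) : KM :=
  fun B x Z N P R L => gz (Nat.add x (Nat.sub B 16)) (force (Nat.mod (Nat.shiftRight v 6) 16)
    (wA3 IT ih S lo hi r bs v B Z N P R L (Nat.mod (gO B) 0) (Nat.mod (gT B) 0)))

noncomputable def wA1 (IT : BT AItem) (ih : Rec) (S : NS) (k par kd lo hi r bs v V : ℕ) : ℕ :=
  acW kd lo hi V k fun p C => frc 1 fun j => mwL bs par lo hi V C r j 0 0 68719476736 1 p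
    (wA2 IT ih S lo hi r bs v)

noncomputable def wA0 (IT : BT AItem) (ih : Rec) (S : NS) (k par kd lo hi s r w : ℕ) : ℕ :=
  wA1 IT ih S k par kd lo hi r (Nat.shiftLeft (Nat.mod s (one w)) 3) (Nat.shiftRight s w)
    (chZ par lo hi k)

/-- the same value as `gaR` -/
noncomputable def gaW (IT : BT AItem) : Rule := fun _ ih sg S s =>
  grd sg (NS.rec (motive := fun _ => ℕ) (fun k par kd lo hi _ =>
    wA0 IT ih S k (pr6 par) kd lo hi s (Nat.pred k) (Nat.mul 3 (Nat.pred k))) S)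

end Pool.Agent.MP_c853c5_nt.X
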