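import Pool.Agent.MP_c853c5_nt.X.EWD

set_option autoImplicit false

namespace Pool.Agent.MP_c853c5_nt.X.W4950

def TT : BT TO :=
  .nd 8 (.nd 4 (.nd 2 (.nd 1 (.lf ⟨0, 7, 465023, 38492, 3534900⟩)
    (.lf ⟨0, 6, 465023, 45683, 3029900⟩))
    (.nd 1 (.lf ⟨0, 5, 465023, 53163, 2524900⟩)
    (.lf ⟨0, 5, 474297, 56238, 2524900⟩)))
    (.nd 2 (.nd 1 (.lf ⟨0, 4, 475100, 73318, 2019900⟩)
    (.lf ⟨0, 3, 475100, 77163, 1514900⟩))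
    (.nd 1 (.lf ⟨0, 3, 476786, 83163, 1514900⟩)
    (.lf ⟨1, 7, 430033, 38492, 3534900⟩))))
    (.nd 4 (.nd 2 (.nd 1 (.lf ⟨1, 6, 430033, 45683, 3029900⟩)
    (.lf ⟨1, 5, 430033, 56238, 2524900⟩))
    (.nd 1 (.lf ⟨1, 4, 430033, 65163, 2019900⟩)
    (.lf ⟨2, 7, 395043, 38492, 3534900⟩)))
    (.nd 2 (.nd 1 (.lf ⟨2, 6, 395043, 45683, 3029900⟩)
    (.lf ⟨2, 5, 395043, 53163, 2524900⟩))
    (.nd 1 (.lf ⟨3, 7, 360053, 38492, 3534900⟩)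
    (.lf ⟨3, 6, 360053, 45683, 3029900⟩))))

def PCS : List PC :=
  [⟨38492, 6, 3, 25773, 465023⟩,
   ⟨45683, 5, 3, 23719, 462940⟩,
   ⟨53163, 4, 3, 21582, 458474⟩,
   ⟨56238, 4, 3, 20703, 474297⟩,
   ⟨59163, 3, 2, 19900, 475100⟩,
   ⟨65163, 3, 2, 19900, 475100⟩,
   ⟨71163, 3, 2, 19900, 475100⟩,
   ⟨73318, 3, 2, 19900, 475100⟩,
   ⟨77163, 2, 2, 19900, 475100⟩,
   ⟨83163, 2, 2, 18214, 476786⟩]

theorem tt_ok : ttB 495000 34990 4999 PCS TT = true := by decide +kernel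

theorem ct_ok : ctE 495000 7 34990 4999 = true := by decide +kernel

end Pool.Agent.MP_c853c5_nt.X.W4950
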