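import Pool.Agent.MP_c853c5_nt.X.Defs2
import Pool.Agent.MP_c853c5_nt.REG.U

/-!
The uniform leaf as a rule of the calculus.
-/

set_option autoImplicit false

open Finset

namespace Pool.Agent.MP_c853c5_nt.X

open Pool.Agent.MP_c853c5_nt.S

lemma sum_sk_U {r i : ℕ} (hi : i ≤ r) (g : ℕ → ℝ) :
    ∑ j ∈ range (r + 1), g j = ∑ j : Fin r, g (sk i j) + g i := by
  rw [sum_range, Fin.sum_univ_succAbove _ ⟨i, Nat.lt_succ_of_le hi⟩, add_comm]
  congr 1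
  refine sum_congr rfl fun j _ => congrArg g ?_
  unfold sk Fin.succAbove
  simp only [Fin.lt_def, Fin.val_castSucc]
  split_ifs <;> rfl

lemma box_le_U {r : ℕ} {B : Fin r → Blk} {κ : Fin r → Kind} {c a : Fin r → ℝ}
    (h : ∀ m, Cl (κ m) (c m) (B m)) (ha : InBox B a) : ∑ m, a m ≤ ∑ m, c m + r * un := by
  have : ∑ m, a m ≤ ∑ m : Fin r, (c m + un) := sum_le_sum fun m _ => (ha m).2.2.trans (h m).2.1
  simpa [sum_add_distrib] using this

/-- one sieved factor of size above `τ + ν / 2 + s` and level at most `ν` -/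
theorem xU1 (hS : LeafSStmt) (hL : LeafS) {sg : Bool} {τ t ν s : ℝ} {k i : ℕ} {kind : ℕ → Kind}
    {Ω : Pt → Prop} (h1 : 1 / 3 ≤ t) (h2 : t < τ) (hs : 0 < s) (hν0 : 0 ≤ ν)
    (hν : ν + 2 * s ≤ 1 - 2 * τ) (hν1 : ν ≤ 1 / 10) (hi : i < k) (hv : KV k kind)
    (hP : kind i ≠ .P)
    (h : ∀ a, Ω a → |∑ m ∈ range k, a m - 1| ≤ un →
      τ + ν / 2 + s + k * un ≤ a i ∧ ∀ z, (kind i).lev a z → z ≤ ν) :
    H sg t k kind Ω 0 := by
  obtain ⟨r, rfl⟩ : ∃ r, k = r + 1 := ⟨k - 1, by omega⟩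
  refine hS hL sg τ t r i kind Ω h1 h2 (by linarith) (by omega) hv hP
    fun B a z ha hs1 hc _ hz => REG.u_one (by linarith) hs hν0 hν hν1 ((h a ha hs1).2 z hz)
      fun b hb => ?_
  have h3 := box_le_U hc hb
  have h4 := (h a ha hs1).1
  have h5 := (abs_le.1 hs1).2
  rw [sum_sk_U (i := i) (by omega)] at h5
  push_cast at h4
  linarith

/-- two sieved factors of total size above `τ + ν / 2 + s` and levels at most `ν` -/
theorem xU2 (hS : LeafS2Stmt) (hL : LeafS2) {sg : Bool} {τ t ν s : ℝ} {k i j : ℕ}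
    {kind : ℕ → Kind} {Ω : Pt → Prop} (h1 : 1 / 3 ≤ t) (h2 : t < τ) (hs : 0 < s) (hν0 : 0 ≤ ν)
    (hν : ν + 2 * s ≤ 1 - 2 * τ) (hν1 : ν ≤ 1 / 10) (hi : i < k) (hj : j < k) (hij : i ≠ j)
    (hv : KV k kind) (hP : kind i ≠ .P) (hP' : kind j ≠ .P)
    (h : ∀ a, Ω a → (∀ m < k, 1 / 50 ≤ a m) → |∑ m ∈ range k, a m - 1| ≤ un →
      τ + ν / 2 + s + k * un ≤ a i + a j ∧ (∀ z, (kind i).lev a z → z ≤ ν) ∧
        ∀ z, (kind j).lev a z → z ≤ ν) :
    H sg t k kind Ω 0 := by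
  obtain ⟨r, rfl⟩ : ∃ r, k = r + 2 := ⟨k - 2, by omega⟩
  obtain ⟨j, rfl, hj'⟩ : ∃ j', j = sk i j' ∧ j' ≤ r := by
    rcases lt_or_gt_of_ne hij with e | e
    · exact ⟨j - 1, by unfold sk; split_ifs <;> omega, by omega⟩
    · exact ⟨j, by unfold sk; split_ifs <;> omega, by omega⟩
  refine hS hL sg τ t r i j kind Ω h1 h2 (by linarith) (by omega) hj' hv hP hP'
    fun B a z1 z2 lo hi ha h50 hs1 hc _ _ hz1 hz2 _ _ => REG.u_two (by linarith) hs hν0 hν hν1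
      ((h a ha h50 hs1).2.1 z1 hz1) ((h a ha h50 hs1).2.2 z2 hz2) fun b hb => ?_
  have h3 := box_le_U hc hb
  have h4 := (h a ha h50 hs1).1
  have h5 := (abs_le.1 hs1).2
  have h6 := sum_sk_U hj' fun m => a (sk i m)
  have h7 : 0 ≤ un := by unfold un; norm_num
  rw [sum_sk_U (r := r + 1) (i := i) (by omega), ← sum_range fun m => a (sk i m), h6] at h5
  push_cast at h4
  linarith

end Pool.Agent.MP_c853c5_nt.X
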