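import Pool.Agent.MP_c853c5_nt.X.SndA
import Pool.Agent.MP_c853c5_nt.X.U

/-!
Soundness of the checker: the leaves.
-/

set_option autoImplicit false

open Finset

namespace Pool.Agent.MP_c853c5_nt.X

open Pool.Agent.MP_c853c5_nt.S Pool.Agent.MP_c853c5_nt.REG

variable {S : NS} {A : ℕ → Finset ℕ} {a : Pt} {t : ℝ} {sg : Bool} {tn : ℕ}

lemma SC_eq_SndL : (SC : ℝ) = 1000000 := by norm_num [SC]

lemma un_eq_SndL : un = 1 / 1000000 := rfl

/-- the weight of a block -/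
noncomputable def wt (c G : ℕ) : ℕ → ℝ := fun j => (dg c (12 * d4 G j) : ℝ)

/-- the enlarged box -/
def Bx16 (S : NS) (y : Pt) (j : ℕ) : Prop :=
  ((get S.lo j - 16 : ℕ) : ℝ) / SC ≤ y j ∧ y j ≤ ((get S.hi j + 16 : ℕ) : ℝ) / SC

lemma mkRL_ok (S : NS) (G : ℕ) (sw : Bool) (n : ℕ) : ∃ r : RL, (∀ K, mkRL S G sw n K = K r) ∧
    ∀ (c : ℕ) (y : Pt), (∀ j, j ≤ n → Bx16 S y j) → ∃ P N : ℕ, rowT c r = P * 2 ^ 48 + N ∧
      (if sw = true then -1 else 1) *
        (∑ j ∈ Ico 1 (n + 1), (wt c G j - wt c G (get S.par j)) * y j) * SC ≤ (P : ℝ) - N := by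
  induction n with
  | zero => exact ⟨RL.nil, fun _ => rfl, fun c y _ => ⟨0, 0, rfl, by simp⟩⟩
  | succ n ih =>
    obtain ⟨r, h1, h2⟩ := ih
    have e : ∀ K, mkRL S G sw (n + 1) K =
        cnd (Nat.beq (12 * d4 G (n + 1)) (12 * d4 G (get S.par (n + 1)))) (mkRL S G sw n K)
          (mkRL S G sw n fun r => K (cnd sw
            (RL.cons (12 * d4 G (get S.par (n + 1))) (12 * d4 G (n + 1))
              (get S.lo (n + 1) - 16) ((get S.hi (n + 1) + 16) <<< 48) r)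
            (RL.cons (12 * d4 G (n + 1)) (12 * d4 G (get S.par (n + 1)))
              (get S.lo (n + 1) - 16) ((get S.hi (n + 1) + 16) <<< 48) r))) := fun K => by
      simp only [mkRL, force_eq]
      rfl
    by_cases g : 12 * d4 G (n + 1) = 12 * d4 G (get S.par (n + 1))
    · refine ⟨r, fun K => ?_, fun c y hy => ?_⟩
      · rw [e, cnd_eq, if_pos (Nat.beq_eq ▸ g), h1]
      · obtain ⟨P, N, e1, e2⟩ := h2 c y fun j hj => hy j (by omega)
        refine ⟨P, N, e1, ?_⟩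
        rw [sum_Ico_succ_top (by omega), wt, wt, g, sub_self, zero_mul, add_zero]
        exact e2
    · refine ⟨_, fun K => by rw [e, cnd_eq, if_neg (Nat.beq_eq ▸ g), h1], fun c y hy => ?_⟩
      obtain ⟨P, N, e1, e2⟩ := h2 c y fun j hj => hy j (by omega)
      obtain ⟨b1, b2⟩ := hy (n + 1) le_rfl
      rw [sum_Ico_succ_top (by omega)]
      cases sw
      · have := term_le (dg c (12 * d4 G (n + 1))) (dg c (12 * d4 G (get S.par (n + 1)))) _ _ b1 b2
        refine ⟨(dg c (12 * d4 G (n + 1)) - dg c (12 * d4 G (get S.par (n + 1)))) *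
          (get S.hi (n + 1) + 16) + P, (dg c (12 * d4 G (get S.par (n + 1))) -
            dg c (12 * d4 G (n + 1))) * (get S.lo (n + 1) - 16) + N, ?_, ?_⟩
        · show _ * (_ <<< 48) + _ * _ + rowT c r = _
          rw [e1, Nat.shiftLeft_eq]
          simp only [Nat.sub_eq]
          ring
        · simp only [wt, Bool.false_eq_true, if_false, one_mul, Nat.cast_add] at *
          linarith
      · have := term_le (dg c (12 * d4 G (get S.par (n + 1)))) (dg c (12 * d4 G (n + 1))) _ _ b1 b2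
        refine ⟨(dg c (12 * d4 G (get S.par (n + 1))) - dg c (12 * d4 G (n + 1))) *
          (get S.hi (n + 1) + 16) + P, (dg c (12 * d4 G (n + 1)) -
            dg c (12 * d4 G (get S.par (n + 1)))) * (get S.lo (n + 1) - 16) + N, ?_, ?_⟩
        · show _ * (_ <<< 48) + _ * _ + rowT c r = _
          rw [e1, Nat.shiftLeft_eq]
          simp only [Nat.sub_eq]
          ring
        · simp only [wt, if_true, Nat.cast_add] at *
          linarith

lemma rowLe_ok {c u v P N : ℕ} {r : RL} (h : rowLe c r u v = true)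
    (e : rowT c r = P * 2 ^ 48 + N) : u + P ≤ v + N := by
  rw [rowLe, force_eq, cnd_eq, Nat.beq_eq] at h
  split_ifs at h with g
  rw [Nat.ble_eq, e] at g
  have g' : u + (P * 2 ^ 48 + N) >>> 48 ≤ v + (P * 2 ^ 48 + N) % 281474976710656 := g
  rw [Nat.shiftRight_eq_div_pow] at g'
  omega

/-- a point near the region lies in the enlarged box -/
lemma bx16_of (h : Inv S A) (ha : Om S A a) (hk : S.k ≤ 16) {b : Pt}
    (hb : ∀ i < S.k, 0 ≤ b i ∧ a i - un ≤ b i ∧ b i ≤ a i + un) {j : ℕ} (hj : j < S.k) :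
    Bx16 S (Y A b) j := by
  have s := (h.sub j hj).1
  have c : ((A j).card : ℝ) ≤ 16 := by
    exact_mod_cast ((card_le_card s).trans_eq (card_range _)).trans hk
  have l0 : 0 ≤ Y A b j := sum_nonneg fun i hi => (hb i (mem_range.1 (s hi))).1
  have l1 : ∑ i ∈ A j, (a i - un) ≤ Y A b j :=
    sum_le_sum fun i hi => (hb i (mem_range.1 (s hi))).2.1
  have l2 : Y A b j ≤ ∑ i ∈ A j, (a i + un) :=
    sum_le_sum fun i hi => (hb i (mem_range.1 (s hi))).2.2
  rw [sum_sub_distrib, sum_const, nsmul_eq_mul] at l1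
  rw [sum_add_distrib, sum_const, nsmul_eq_mul] at l2
  obtain ⟨m1, m2⟩ := ha.1 j hj
  rw [Bx16, SC_eq_SndL]
  rw [SC_eq_SndL] at m1 m2
  rw [un_eq_SndL] at l1 l2
  unfold Y at m1 m2
  refine ⟨?_, by push_cast; linarith⟩
  rcases le_total (get S.lo j) 16 with e | e
  · rw [Nat.sub_eq_zero_of_le e]
    simpa using l0
  · push_cast [Nat.cast_sub e]
    linarith

/-- the row test -/
lemma row_ok (h : Inv S A) (G : ℕ) (sw : Bool) : ∃ r : RL,
    (∀ K, mkRL S G sw (Nat.pred S.k) K = K r) ∧ ∀ (c u v : ℕ) (b : Pt),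
      (∀ j < S.k, Bx16 S (Y A b) j) → rowLe c r u v = true →
      (u : ℝ) / SC + (if sw = true then -1 else 1) *
        (∑ i ∈ range S.k, wt c G i * b i - wt c G 0 * Y A b 0) ≤ (v : ℝ) / SC := by
  obtain ⟨r, h1, h2⟩ := mkRL_ok S G sw (Nat.pred S.k)
  have hp := h.pos
  refine ⟨r, h1, fun c u v b hb hr => ?_⟩
  obtain ⟨P, N, e1, e2⟩ := h2 c (Y A b) fun j hj => hb j (by rw [Nat.pred_eq_sub_one] at hj; omega)
  have e3 : (u : ℝ) + P ≤ v + N := by exact_mod_cast rowLe_ok hr e1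
  rw [show Nat.pred S.k + 1 = S.k by rw [Nat.pred_eq_sub_one]; omega] at e2
  rw [h.wsum, add_sub_cancel_left]
  rw [SC_eq_SndL] at *
  linarith

lemma H.big {k : ℕ} {kind : ℕ → Kind} {Ω : Pt → Prop} {l : ℝ}
    (h : H sg t k kind (fun a => Ω a ∧ ∀ j < k, 1 / 50 ≤ a j) l) : H sg t k kind Ω l :=
  fun Q hQ hΩ => h Q hQ fun a ha => ⟨hΩ a ha, (hΩ a ha).2⟩

lemma kind_P {j : ℕ} (h : get S.kd j = 0) : S.kind j = .P := by
  rw [NS.kind, kindOf, if_pos h]

lemma kind_ne_P {j : ℕ} (h : 0 < get S.kd j) : S.kind j ≠ .P := by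
  rw [NS.kind, kindOf, if_neg h.ne']
  split_ifs <;> simp

lemma hasP_ok (h : hasP S = true) : ∃ j < S.k, get S.kd j = 0 := by
  simpa only [hasP, anyN_iff, Nat.beq_eq] using h

theorem leaf2_ok (R : Rules) (h1 : 1 / 3 ≤ t) (h2 : t < (tn : ℝ) / SC) (h3 : (tn : ℝ) / SC ≤ 1 / 2)
    {x : PP} {G : ℕ} (hL : Leaf2) (hx : x.Good tn) : Val t sg S (leaf2 S x G) := by
  refine Val.grd fun g hl A hI => ?_
  obtain ⟨r, e, hr⟩ := row_ok hI G false
  rw [force_eq, e] at hl ⊢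
  obtain ⟨g2, e2⟩ := grd_lt hl
  simp only [band_eq, Bool.and_eq_true, Nat.ble_eq, allN_iff, Nat.blt_eq] at g
  obtain ⟨hk, hP, hG⟩ := g
  obtain ⟨p, hp, hp0⟩ := hasP_ok hP
  rw [e2, Nat.cast_zero, zero_div]
  refine H.big (R.leaf2 hL sg _ t _ _ _ h1 h2 h3 hI.pos hI.kv fun B a ha _ hc => ?_)
  have u := un_eq_SndL
  refine reg2_of (η := 1 / 10000) (K := 64) (i := ⟨p, hp⟩) (by linarith) (by norm_num)
    ((hc ⟨p, hp⟩).2.2.2 (kind_P hp0)) (by linarith [(hc ⟨p, hp⟩).1, ha.2 p hp])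
    fun w hw hs => hx _ w (fun j => d4 G j) (fun j => hG j j.2) (fun j => (hw j).1) hs
      fun y hy => ?_
  have := hr y.1 _ _ (fun i => if h : i < S.k then w ⟨i, h⟩ else 0)
    (fun j hj => bx16_of hI ha.1 hk (fun i hi => by
      rw [dif_pos hi]
      exact ⟨(hw _).1, (hc ⟨i, hi⟩).1.trans (hw _).2.1, (hw _).2.2.trans (hc ⟨i, hi⟩).2.1⟩) hj)
    ((allL_iff _ _).1 g2 y hy)
  rw [Y, hI.top, sum_range, sum_range] at this
  simp only [Fin.is_lt, dif_pos, Fin.eta, hs, Bool.false_eq_true, if_false, one_mul, mul_one,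
    Nat.mul_eq, Nat.cast_mul, wt, SC_eq_SndL, Nat.cast_ofNat] at this ⊢
  linarith

lemma lev_le (h : Inv S A) (ha : Om S A a) {i : ℕ} (hi : i < S.k) (h0 : 0 < get S.kd i) {z : ℝ}
    (hz : (S.kind i).lev a z) : z ≤ (levU S i : ℝ) / SC := by
  have hv := (h.kv i hi).2
  rw [NS.kind, kindOf, if_neg h0.ne'] at hz hv
  simp only [levU, cnd_eq, Nat.ble_eq]
  split_ifs at hz hv ⊢ with e
  · have := ahi_ok h ha (hv _ rfl).1
    have hz' : z ≤ a (get S.kd i - 1) + un := hz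
    rw [Nat.pred_eq_sub_one, Nat.cast_succ, add_div]
    rw [un_eq_SndL, ← SC_eq_SndL] at hz'
    linarith
  · exact hz

lemma dg_one (n g : ℕ) : dg (one (Nat.mul 12 n)) (12 * g) = if g = n then 1 else 0 := by
  show (one (12 * n) >>> (12 * g)) % 4096 = _
  rw [one_eq, Nat.shiftRight_eq_div_pow]
  rcases lt_trichotomy g n with e | rfl | e
  · obtain ⟨d, rfl⟩ := Nat.exists_eq_add_of_lt e
    rw [if_neg e.ne, Nat.pow_div (by omega) two_pos,
      show 12 * (g + d + 1) - 12 * g = 12 + 12 * d by omega, pow_add]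
    exact Nat.mul_mod_right _ _
  · simp
  · rw [if_neg e.ne', Nat.div_eq_of_lt (Nat.pow_lt_pow_right one_lt_two (by omega))]

lemma sk_lt_SndL {i j n : ℕ} (h : j < n) : sk i j < n + 1 := by
  unfold sk
  split_ifs <;> omega

lemma sk_ne_SndL (i j : ℕ) : sk i j ≠ i := by
  unfold sk
  split_ifs <;> omega

lemma sk_surj_SndL {i m r : ℕ} (hi : i ≤ r) (hm : m < r + 1) (e : m ≠ i) : ∃ j < r, sk i j = m := by
  rcases lt_or_gt_of_ne e with g | g
  · exact ⟨m, by omega, by unfold sk; split_ifs <;> omega⟩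
  · exact ⟨m - 1, by omega, by unfold sk; split_ifs <;> omega⟩

/-- a point with given coordinates off `i` -/
lemma ext_SndL {r : ℕ} (i : ℕ) (w : Fin r → ℝ) (c : ℝ) :
    ∃ b : Pt, b i = c ∧ ∀ j : Fin r, b (sk i j) = w j := by
  refine ⟨fun m => if m = i then c else
    if h : (if m < i then m else m - 1) < r then w ⟨_, h⟩ else 0, if_pos rfl, fun j => ?_⟩
  have e : (if sk i j < i then sk i j else sk i j - 1) = j := by
    unfold sk
    split_ifs <;> omega
  simp only [if_neg (sk_ne_SndL i j), e, Fin.is_lt, dif_pos, Fin.eta]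

theorem leafS_ok (R : Rules) (h1 : 1 / 3 ≤ t) (h2 : t < (tn : ℝ) / SC) (h3 : (tn : ℝ) / SC ≤ 1 / 2)
    {i : ℕ} {x : PD} {G : ℕ} (hL : LeafS) (hx : x.Hold tn) : Val t sg S (leafS S i x G) := by
  refine Val.grd fun g hl A hI => ?_
  obtain ⟨r1, e1, hr1⟩ := row_ok hI G false
  obtain ⟨r2, e2, hr2⟩ := row_ok hI G true
  rw [force_eq, e1, e2] at hl ⊢
  obtain ⟨g2, e3⟩ := grd_lt hl
  simp only [band_eq, bor_eq, bnot_eq, Bool.and_eq_true, Bool.or_eq_true, Nat.ble_eq, allN_iff,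
    Nat.blt_eq, Nat.beq_eq, cnd_eq, Bool.not_eq_true'] at g g2
  obtain ⟨⟨hk, hi⟩, h0, hz, hP, hG⟩ := g
  rw [e3, Nat.cast_zero, zero_div]
  obtain ⟨r, hr⟩ : ∃ r, S.k = r + 1 := ⟨S.k - 1, by omega⟩
  have hv := hI.kv
  refine H.big ?_
  rw [hr] at hv ⊢
  refine R.leafS hL sg _ t r i _ _ h1 h2 h3 (by omega) hv (kind_ne_P h0)
    fun B a z ha _ hc _ hz' => ?_
  have u := un_eq_SndL
  have hG1 : ∀ j : Fin r, d4 G (sk i j) < x.m := fun j => by
    have := hG (sk i j) (hr ▸ sk_lt_SndL j.2)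
    rwa [if_neg (sk_ne_SndL i j), Nat.blt_eq] at this
  have hG2 : x.m ≤ d4 G i := by
    have := hG i hi
    rwa [if_pos rfl, Nat.ble_eq] at this
  refine DOK.dustOK (P := x.p = true) (by linarith) (fun hp => ?_)
    ((hx _ (fun j : Fin r => d4 G (sk i j)) hG1).mono id ((lev_le hI ha.1 hi h0 hz').trans
      (div_le_div_of_nonneg_right (by exact_mod_cast hz) SC_pos.le)) fun w hw hs => ?_)
  · obtain ⟨p, hp1, hp0⟩ := hasP_ok (hP.resolve_left (by simp [hp]))
    obtain ⟨j, hj, rfl⟩ := sk_surj_SndL (i := i) (by omega) (hr ▸ hp1) (by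
      rintro rfl
      omega)
    exact ⟨⟨j, hj⟩, (hc ⟨j, hj⟩).2.2.2 (kind_P hp0),
      by linarith [(hc ⟨j, hj⟩).1, ha.2 _ (sk_lt_SndL (i := i) hj)]⟩
  refine ⟨fun j => (hw j).1, fun n hn => ?_⟩
  obtain ⟨b, b1, b2⟩ := ext_SndL i w (a i)
  have hb : ∀ j < S.k, Bx16 S (Y A b) j := fun j hj => bx16_of hI ha.1 hk (fun m hm => by
    by_cases e : m = i
    · rw [e, b1]
      have := ha.2 i (hr ▸ hi)
      exact ⟨by linarith, by linarith, by linarith⟩
    · obtain ⟨j, hj, rfl⟩ := sk_surj_SndL (i := i) (by omega) (hr ▸ hm) e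
      rw [b2 ⟨j, hj⟩]
      exact ⟨(hw _).1, (hc ⟨j, hj⟩).1.trans (hw _).2.1, (hw _).2.2.trans (hc ⟨j, hj⟩).2.1⟩) hj
  have key : ∑ m ∈ range S.k, wt (one (Nat.mul 12 n)) G m * b m =
      asum (fun j : Fin r => d4 G (sk i j)) w n := by
    rw [hr, sum_sk_U (i := i) (by omega), asum, sum_filter, wt, dg_one, if_neg (by omega)]
    simp only [wt, dg_one, b2, Nat.cast_ite, Nat.cast_one, Nat.cast_zero, ite_mul, one_mul,
      zero_mul, add_zero]
  obtain ⟨y1, y2⟩ := hb 0 hI.pos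
  have w0 : 0 ≤ wt (one (Nat.mul 12 n)) G 0 := Nat.cast_nonneg _
  obtain ⟨g3, g4⟩ := g2 n hn
  constructor
  · rcases g4 with g4 | g4
    · rw [g4, Nat.cast_zero, zero_div]
      exact asum_nonneg _ (fun j => (hw j).1) _
    · have := hr2 _ _ _ b hb g4
      have := mul_le_mul_of_nonneg_left y1 w0
      simp only [if_true, Nat.mul_eq, Nat.sub_eq, Nat.cast_mul, mul_div_assoc, wt] at *
      linarith
  · rcases g3 with g3 | g3
    · refine le_trans ?_ ((one_le_div SC_pos).2 (by exact_mod_cast g3))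
      exact (sum_le_sum_of_subset_of_nonneg (filter_subset _ _) fun j _ _ => (hw j).1).trans hs
    · have := hr1 _ _ _ b hb g3
      have := mul_le_mul_of_nonneg_left y2 w0
      simp only [Bool.false_eq_true, if_false, Nat.mul_eq, Nat.add_eq, Nat.cast_mul,
        mul_div_assoc, wt] at *
      linarith

lemma ms_two {k i j : ℕ} (hi : i < k) (hj : j < k) (a : Pt) :
    ms k (Nat.lor (one i) (one j)) a = ∑ m ∈ {i, j}, a m := by
  refine sum_congr (Finset.ext fun m => ?_) fun _ _ => rfl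
  have : bit (Nat.lor (one i) (one j)) m = (bit (one i) m || bit (one j) m) := by
    simp only [bit_eq]
    exact Nat.testBit_or _ _ _
  simp only [mem_filter, mem_range, this, Bool.or_eq_true, bit_one, mem_insert, mem_singleton]
  omega

lemma hi_le_SndL {r : ℕ} {B : Fin r → Blk} {κ : Fin r → Kind} {c : Fin r → ℝ}
    (h : ∀ m, Cl (κ m) (c m) (B m)) : ∑ m, (B m).hi ≤ ∑ m, c m + r * un := by
  have : ∑ m, (B m).hi ≤ ∑ m : Fin r, (c m + un) := sum_le_sum fun m _ => (h m).2.1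
  simpa [sum_add_distrib] using this

theorem leafU_ok (R : Rules) (h1 : 1 / 3 ≤ t) (h2 : t < (tn : ℝ) / SC) (h3 : (tn : ℝ) / SC ≤ 1 / 2)
    {i j d : ℕ} (hL : LeafS) (hL2 : LeafS2) (R2 : LeafS2Stmt) (u1 : U1ok tn) (u2 : U2ok tn) :
    Val t sg S (leafU tn S i j d) := by
  rw [leafU, force_eq, force_eq]
  refine Val.grd fun g _ A hI => ?_
  generalize Nat.add (Nat.add tn 201) _ = c at g
  simp only [band_eq, Bool.and_eq_true, Nat.ble_eq, Nat.blt_eq, mx_eq] at g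
  obtain ⟨⟨hk, hij, hj⟩, ⟨hi0, hj0⟩, hu, him⟩ := g
  have hi : i < S.k := by omega
  have hA : ∀ a, Om S A a → (c : ℝ) / SC + 17 * un ≤ ∑ m ∈ {i, j}, a m := fun a ha => by
    have := (rowOf_iff hI _ _ _ _ a).1 (imp_ok him hI ha (rowOf_lt _ _ _ _ _ _))
    rw [ms_zero, ms_two hi hj, Nat.add_eq, Nat.cast_add, SC_eq_SndL] at this
    rw [SC_eq_SndL, un_eq_SndL]
    push_cast at this
    linarith
  have z1 : ∀ a z, Om S A a → (S.kind i).lev a z →
      z ≤ ((max (levU S i) (levU S j) : ℕ) : ℝ) / SC := fun a z ha hz =>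
    (lev_le hI ha hi hi0 hz).trans
      (div_le_div_of_nonneg_right (Nat.cast_le.2 (le_max_left _ _)) SC_pos.le)
  have z2 : ∀ a z, Om S A a → (S.kind j).lev a z →
      z ≤ ((max (levU S i) (levU S j) : ℕ) : ℝ) / SC := fun a z ha hz =>
    (lev_le hI ha hj hj0 hz).trans
      (div_le_div_of_nonneg_right (Nat.cast_le.2 (le_max_right _ _)) SC_pos.le)
  have hv := hI.kv
  have u := un_eq_SndL
  rw [Nat.cast_zero, zero_div]
  rcases hij.eq_or_lt with rfl | hlt
  · obtain ⟨r, hr⟩ : ∃ r, S.k = r + 1 := ⟨S.k - 1, by omega⟩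
    rw [hr] at hv ⊢
    refine R.leafS hL sg _ t r i _ _ h1 h2 h3 (by omega) hv (kind_ne_P hi0)
      fun B a z ha hs hc _ hz => u1 _ c r B z hu (z1 a z ha hz) ?_
    have f1 := hi_le_SndL hc
    have f2 := hA a ha
    have f3 := (abs_le.1 hs).2
    have f4 : (r : ℝ) ≤ 15 := by exact_mod_cast (by omega : r ≤ 15)
    rw [sum_sk_U (i := i) (by omega)] at f3
    rw [pair_eq_singleton, sum_singleton] at f2
    rw [u] at *
    linarith
  · obtain ⟨r, hr⟩ : ∃ r, S.k = r + 2 := ⟨S.k - 2, by omega⟩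
    obtain ⟨j, rfl, hj'⟩ : ∃ j', j = sk i j' ∧ j' ≤ r :=
      ⟨j - 1, by unfold sk; split_ifs <;> omega, by omega⟩
    rw [hr] at hv ⊢
    refine R2 hL2 sg _ t r i j _ _ h1 h2 h3 (by omega) hj' hv (kind_ne_P hi0) (kind_ne_P hj0)
      fun B a y1 y2 lo hi ha _ hs hc _ _ hz1 hz2 _ _ =>
        u2 _ c r B y1 y2 lo hi hu (z1 a _ ha hz1) (z2 a _ ha hz2) ?_
    have f1 := hi_le_SndL hc
    have f2 := hA a ha
    have f3 := (abs_le.1 hs).2
    have f4 : (r : ℝ) ≤ 14 := by exact_mod_cast (by omega : r ≤ 14)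
    have f5 := sum_sk_U hj' fun m => a (sk i m)
    rw [sum_sk_U (r := r + 1) (i := i) (by omega), ← sum_range fun m => a (sk i m), f5] at f3
    rw [sum_pair hlt.ne] at f2
    rw [u] at *
    linarith

lemma eqL_ok {l m : List ℕ} (h : eqL l m = true) : l = m := by
  induction l generalizing m with
  | nil =>
    cases m with
    | nil => rfl
    | cons f m => exact absurd h Bool.false_ne_true
  | cons e l ih =>
    cases m with
    | nil => exact absurd h Bool.false_ne_true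
    | cons f m =>
      have h' : band (Nat.beq e f) (eqL l m) = true := h
      rw [band_eq, Bool.and_eq_true, Nat.beq_eq] at h'
      rw [h'.1, ih h'.2]

lemma eqR_ok {r q : Rw} (h : eqR r q = true) : r = q := by
  simp only [eqR, band_eq, Bool.and_eq_true, Nat.beq_eq] at h
  cases r
  cases q
  rw [Rw.mk.injEq]
  exact ⟨h.1.1, eqL_ok h.2.1, h.1.2, eqL_ok h.2.2⟩

theorem leafR_ok {x : Rf} (hx : Val t x.sg x.S x.l) : Val t sg S (leafR sg S x) := by
  refine Val.grd fun g hl A hI => ?_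
  simp only [band_eq, Bool.and_eq_true, Nat.ble_eq, Nat.beq_eq, allN_iff, allL_iff, anyL_iff] at g
  obtain ⟨⟨hs, hk, hp, hd⟩, hb, hr⟩ := g
  have e : x.sg = sg := by
    revert hs
    cases sg <;> cases x.sg <;> simp [cnd, bnot]
  have hr' : ∀ q ∈ x.S.rs, q ∈ S.rs := fun q hq => by
    obtain ⟨r, h1, h2⟩ := hr q hq
    rwa [eqR_ok h2]
  have ek : x.S.kind = S.kind := by
    unfold NS.kind
    rw [hd]
  have := hx hl A ⟨hk ▸ hI.pos, by rw [ek, ← hk]; exact hI.kv, by rw [← hk, ← hp]; exact hI.par,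
    hk ▸ hI.sub, hk ▸ hI.top, by rw [← hk, ← hp]; exact hI.tree,
    fun q hq => hk ▸ hI.rows q (hr' q hq), hk ▸ hI.le⟩
  rw [e, ek, ← hk] at this
  refine fun Q hQ hΩ => this Q hQ fun a ha => ⟨⟨fun j hj => ?_, fun q hq =>
    (hΩ a ha).1.2 q (hr' q hq)⟩, (hΩ a ha).2⟩
  rw [← hk] at hj
  obtain ⟨m1, m2⟩ := (hΩ a ha).1.1 j hj
  exact ⟨(div_le_div_of_nonneg_right (Nat.cast_le.2 (hb j hj).1) SC_pos.le).trans m1,
    m2.trans (div_le_div_of_nonneg_right (Nat.cast_le.2 (hb j hj).2) SC_pos.le)⟩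

end Pool.Agent.MP_c853c5_nt.X
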