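import Pool.Agent.MP_c853c5_nt.X.Chk

/-!
A polytope of type II is cut out of a state (definitions only).
-/

set_option autoImplicit false

namespace Pool.Agent.MP_c853c5_nt.X

/-- the entry with coefficient `d + 1` on the node `j` -/
def ent (d j : ℕ) : ℕ := Nat.add (Nat.shiftLeft d 4) j

/-- total variation of the weights, nodes of positive and of negative weight -/
noncomputable def mkRow (par G c n : ℕ) : (ℕ → List ℕ → List ℕ → ℕ) → ℕ :=
  Nat.rec (motive := fun _ => (ℕ → List ℕ → List ℕ → ℕ) → ℕ) (fun K => K 0 [] [])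
    (fun j ih K =>
      force (dg c (Nat.mul 12 (d4 G (Nat.succ j)))) fun p =>
      force (dg c (Nat.mul 12 (d4 G (get par (Nat.succ j))))) fun q =>
      cnd (Nat.blt q p)
        (force (Nat.sub p q) fun d => force (ent (Nat.pred d) (Nat.succ j)) fun e =>
          ih fun m l1 l2 => K (Nat.add d m) (e :: l1) l2)
        (cnd (Nat.blt p q)
          (force (Nat.sub q p) fun d => force (ent (Nat.pred d) (Nat.succ j)) fun e =>
            ih fun m l1 l2 => K (Nat.add d m) l1 (e :: l2))
          (ih K))) n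

/-- the rows of `P` are tested on the box; along a row that fails the state is cut -/
noncomputable def crv (ih : NS → ℕ → ℕ) (k par kd G g0 : ℕ) (P : List (ℕ × ℕ)) :
    ℕ → ℕ → List Rw → RL → ℕ → ℕ :=
  List.rec (motive := fun _ => ℕ → ℕ → List Rw → RL → ℕ → ℕ) (fun _ _ _ _ _ => 0)
    (fun y _ nx lo hi rs r s =>
      force (Nat.mul (dg y.1 g0) 1000000) fun u =>
      cnd (rowLe y.1 r u y.2) (nx lo hi rs r s)
        (mkRow par G y.1 (Nat.pred k) fun m l1 l2 =>
          force (Nat.add u (Nat.mul 16 m)) fun c => force y.2 fun e =>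
          two s
            (fun v => force (Nat.succ c) fun c' => nrm (⟨e, l2, c', l1⟩ :: rs) lo hi
              fun lo' hi' rs' => ih ⟨k, par, kd, lo', hi', rs'⟩ v)
            fun v => nrm (⟨c, l1, e, l2⟩ :: rs) lo hi fun lo' hi' rs' =>
              mkRL ⟨k, par, kd, lo', hi', rs'⟩ G false (Nat.pred k) fun r' => nx lo' hi' rs' r' v)) P

/-- code after the tag: `16` bits for the polytope, `4 k` bits for the groups, then the cuts -/
noncomputable def carve (PL : BT PP) (ih : Bool → NS → ℕ → ℕ) (sg : Bool) (S : NS) (s : ℕ) : ℕ :=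
  force (Nat.mod s 65536) fun i => force (Nat.mul 4 S.k) fun w =>
  force (Nat.mod (Nat.shiftRight s 16) (one w)) fun G =>
  force (Nat.shiftRight s (Nat.add 16 w)) fun v =>
  grd (band (Nat.ble S.k 16)
      (band (hasP S) (allN (fun j => Nat.blt (d4 G j) (PL.find i).k) S.k)))
    (force (Nat.mul 12 (d4 G 0)) fun g0 => mkRL S G false (Nat.pred S.k) fun r =>
      crv (ih sg) S.k S.par S.kd G g0 (PL.find i).P S.lo S.hi S.rs r v)

end Pool.Agent.MP_c853c5_nt.X
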