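import Pool.Agent.MP_c853c5_nt.X.Chk
import Pool.Agent.MP_c853c5_nt.REG.U
import Pool.Agent.MP_c853c5_nt.REG.DChk

/-!
The uniform leaves and the table of claims on small primes.
-/

set_option autoImplicit false

open Finset

namespace Pool.Agent.MP_c853c5_nt.X

open Pool.Agent.MP_c853c5_nt.S Pool.Agent.MP_c853c5_nt.REG

lemma uT_real {tn z c : ℕ} (h13 : SC ≤ 3 * tn) (h : uT tn z c = true) :
    1 / 3 ≤ (tn : ℝ) / SC ∧ (z : ℝ) / SC + 2 * (1 / 5000) ≤ 1 - 2 * ((tn : ℝ) / SC) ∧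
      (z : ℝ) / SC ≤ 1 / 10 ∧ (tn : ℝ) / SC + (z : ℝ) / SC / 2 + 1 / 5000 ≤ (c : ℝ) / SC := by
  simp only [uT, Bool.and_eq_true, Nat.ble_eq] at h
  have hSC : (SC : ℝ) = 1000000 := by norm_num [SC]
  have v0 : (SC : ℝ) ≤ 3 * tn := by exact_mod_cast h13
  have v1 : (z : ℝ) ≤ 100000 := by exact_mod_cast h.1.1
  have v2 : (z : ℝ) + 2 * tn + 400 ≤ 1000000 := by exact_mod_cast h.1.2
  have v3 : (z : ℝ) + 2 * tn + 400 ≤ 2 * c := by exact_mod_cast h.2
  rw [hSC] at *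
  refine ⟨?_, ?_, ?_, ?_⟩ <;> linarith

theorem u1ok {tn : ℕ} (h13 : SC ≤ 3 * tn) : U1ok tn := by
  intro z c r B z1 h hz hB
  obtain ⟨h1, h2, h3, h4⟩ := uT_real h13 h
  refine u_one h1 (by norm_num) (div_nonneg (Nat.cast_nonneg _) SC_pos.le) h2 h3 hz fun a ha => ?_
  have : ∑ i, a i ≤ ∑ i, (B i).hi := sum_le_sum fun i _ => (ha i).2.2
  linarith

theorem u2ok {tn : ℕ} (h13 : SC ≤ 3 * tn) : U2ok tn := by
  intro z c r B z1 z2 lo hi h hz1 hz2 hB
  obtain ⟨h1, h2, h3, h4⟩ := uT_real h13 h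
  refine u_two h1 (by norm_num) (div_nonneg (Nat.cast_nonneg _) SC_pos.le) h2 h3 hz1 hz2
    fun a ha => ?_
  have : ∑ i, a i ≤ ∑ i, (B i).hi := sum_le_sum fun i _ => (ha i).2.2
  linarith

/-- the claim as a state of the dust checker -/
def PD.toSt (x : PD) : St :=
  ⟨(List.range x.m).map (get x.lo), (List.range x.m).map (get x.hi), 0, x.p, x.z⟩

theorem PD.hold_of {tn : ℕ} {x : PD} (h : x.toSt.Hold tn) : x.Hold tn := by
  intro ι _ G hG
  have hm : x.toSt.lo.length = x.m := by simp [PD.toSt]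
  refine (h ι G (hm ▸ hG)).mono id le_rfl fun a ha _ => ⟨ha.1, fun n hn => ?_, ?_⟩
  · rw [hm] at hn
    simpa only [PD.toSt, getD_range _ hn] using ha.2 n hn
  · simpa [PD.toSt] using add_nonneg (asum_nonneg _ ha.1 0) (asum_nonneg _ ha.1 1)

/-- a table of claims against a table of certificates of the same shape -/
def btD (L : Lib) (tn : ℕ) (D : Db) : BT PD → BT DT → Bool
  | .lf x, .lf t => dchk L tn D t x.toSt
  | .nd _ l r, .nd _ l' r' => btD L tn D l l' && btD L tn D r r'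
  | _, _ => false

theorem btD_ok {L : Lib} {tn : ℕ} (hL : LibOK tn L) (h13 : SC ≤ 3 * tn) (h12 : 2 * tn ≤ SC)
    {D : Db} (hD : DbOK tn D) (T : BT PD) :
    ∀ C : BT DT, btD L tn D T C = true → T.All (PD.Hold tn) := by
  induction T with
  | lf x =>
    intro C h
    cases C with
    | lf t => exact PD.hold_of (dchk_ok hL h13 h12 hD t _ h)
    | nd _ _ _ => simp [btD] at h
  | nd n l r i1 i2 =>
    intro C h
    cases C with
    | lf t => simp [btD] at h
    | nd _ l' r' =>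
      rw [btD, Bool.and_eq_true] at h
      exact ⟨i1 _ h.1, i2 _ h.2⟩

end Pool.Agent.MP_c853c5_nt.X
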