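import Pool.Agent.MP_c853c5_nt.X.SndC

/-!
Soundness of the checker.
-/

set_option autoImplicit false

open Finset

namespace Pool.Agent.MP_c853c5_nt.X

open Pool.Agent.MP_c853c5_nt.S Pool.Agent.MP_c853c5_nt.REG

/-- the leaves are sound -/
structure Lv (E : Env) (t : ℝ) : Prop where
  l2 : ∀ sg S i G, Val t sg S (leaf2 S (E.PL.find i) G)
  lS : ∀ sg S i n G, Val t sg S (leafS S i (E.PS.find n) G)
  lU : ∀ sg S i j d, Val t sg S (leafU E.tn S i j d)
  lR : ∀ sg S n, Val t sg S (leafR sg S (E.RF.find n))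
  mn : MNok E.MN
  xt : ∀ ih : Rec, (∀ sg S s, Val t sg S (ih sg S s)) →
    ∀ sg S s, Val t sg S (E.XT E.RF ih sg S s)

variable {t : ℝ} {E : Env}

lemma Val.cnd {sg b : Bool} {S : NS} {x y : ℕ} (h1 : Val t sg S x) (h2 : Val t sg S y) :
    Val t sg S (cnd b x y) := by
  cases b
  exacts [h2, h1]

lemma step_ok (R : Rules) (L : Lv E t) {ih : Bool → NS → ℕ → ℕ}
    (hH : ∀ sg S s, Val t sg S (ih sg S s)) (sg : Bool) (S : NS) (s : ℕ) :
    Val t sg S (step E ih sg S s) := by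
  simp only [step, force_eq]
  refine Val.cnd (Val.cnd (Val.cnd (spl_ok R hH ?_ _) (nrm_ok R hH _))
      (Val.cnd (Val.grd fun h hl A hI => ?_) (L.l2 _ _ _ _)))
    (Val.cnd (Val.cnd (Val.cnd (down_ok R hH _ _) (up_ok R hH _ _))
        (Val.cnd (L.lU _ _ _ _ _) (L.lS _ _ _ _ _)))
      (Val.cnd (Val.cnd (spl_ok R hH ?_ _) (spa_ok R hH _ _ _ _ _))
        (Val.cnd (L.lR _ _ _) (Val.cnd (emp_ok R _) (Val.cnd (empW_ok R _) (L.xt _ hH _ _ _))))))
  · have h1 := get_lt S.lo (Nat.mod (Nat.shiftRight s 4) 16)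
    have h2 := get_lt S.hi (Nat.mod (Nat.shiftRight s 4) 16)
    rw [Nat.shiftRight_eq, Nat.shiftRight_eq_div_pow, Nat.add_eq]
    omega
  · rw [h]
    exact drop0 (L.mn _ S A hI hl)
  · exact (Nat.mod_lt _ (by norm_num)).trans (by norm_num)

theorem chk_ok (R : Rules) (L : Lv E t) (fuel : ℕ) :
    ∀ sg S s, Val t sg S (chk E fuel sg S s) := by
  induction fuel with
  | zero => exact fun _ _ _ h => absurd h (lt_irrefl _)
  | succ n ih => exact step_ok R L ih

lemma Val.mono (R : Rules) {sg : Bool} {S : NS} {l l' : ℕ} (h : Val t sg S l) (hl : l ≤ l') :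
    Val t sg S l' := fun g A hI =>
  R.mono sg t _ _ _ _ _ _ hI.pos hI.kv (by gcongr) (fun _ ha _ _ => ha) (h (hl.trans_lt g) A hI)

theorem allC_ok (R : Rules) (L : Lv E t) {l : List (Rf × ℕ)} (h : allC E l = true) :
    ∀ x ∈ l, Val t x.1.sg x.1.S x.1.l := fun x hx =>
  (chk_ok R L 400 _ _ _).mono R (Nat.le_of_ble_eq_true ((allL_iff _ _).1 h x hx))

lemma inv_root : Inv root fun _ => {0} := by
  refine ⟨le_rfl, fun j hj => ?_, fun j h1 h2 => ?_, fun j hj => ?_, rfl, fun a i hi => ?_,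
    fun r hr => (List.not_mem_nil hr).elim, by simp [root]⟩
  · have e : root.kind j = .P := by
      obtain rfl : j = 0 := Nat.lt_one_iff.1 hj
      exact kindOf_zero
    rw [e]
    simp
  · exact absurd h2 (not_lt.2 h1)
  · obtain rfl : j = 0 := Nat.lt_one_iff.1 hj
    simp [root]
  · obtain rfl : i = 0 := Nat.lt_one_iff.1 hi
    simp [root, Y]

/-- the root of the certificate -/
theorem low_root (R : Rules) {l : ℕ} (hl : l < 10 ^ 9) (h : Val t true root l) :
    Low t (fun x => bf x (fr (3 / 5))) ((l : ℝ) / 10 ^ 9) := by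
  have h1 := h (hl.trans (by norm_num [INF])) _ inv_root
  have e : root.kind = fun _ => .P := funext fun j => by
    have : get 0 j = 0 := by simp [get_eq]
    exact (congrArg kindOf this).trans kindOf_zero
  have kv := inv_root.kv
  rw [e] at h1 kv
  refine R.root t _ (R.mono true t _ _ _ _ _ _ le_rfl kv le_rfl (fun a _ _ hs => ⟨fun j hj => ?_,
    fun r hr => (List.not_mem_nil hr).elim⟩) h1)
  obtain rfl : j = 0 := Nat.lt_one_iff.1 hj
  have e1 : get root.lo 0 = 999999 := by decide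
  have e2 : get root.hi 0 = 1000001 := by decide
  rw [sum_range_one, abs_le, un] at hs
  rw [e1, e2, Y, sum_singleton]
  norm_num [SC]
  constructor <;> linarith [hs.1, hs.2]

theorem cert_of (R : Rules) {τ : ℝ} {l : ℕ} (hl : l < 10 ^ 9)
    (h : Leaf2 → LeafS → ∀ t : ℝ, 1 / 3 ≤ t → t < τ → Val t true root l) : Cert τ :=
  fun h2 hS => ⟨3 / 5, (l : ℝ) / 10 ^ 9, by norm_num, by norm_num,
    (div_lt_one (by norm_num)).2 (by exact_mod_cast hl),
    fun t h3 h4 => low_root R hl (h h2 hS t h3 h4)⟩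

end Pool.Agent.MP_c853c5_nt.X
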