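import Pool.Agent.MP_c853c5_nt.X.GlueD
import Pool.Agent.MP_c853c5_nt.X.SndD
import Pool.Agent.MP_c853c5_nt.X.SndL
import Pool.Agent.MP_c853c5_nt.X.PDok

/-!
From checked lists of claims to the certificate.
-/

set_option autoImplicit false

namespace Pool.Agent.MP_c853c5_nt.X

open Pool.Agent.MP_c853c5_nt.S Pool.Agent.MP_c853c5_nt.REG

/-- everything the checker needs, except the table of claims -/
structure Hyp (E : Env) (t : ℝ) : Prop where
  R : Rules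
  R2 : LeafS2Stmt
  l2 : Leaf2
  lS : LeafS
  lS2 : LeafS2
  h1 : 1 / 3 ≤ t
  h2 : t < (E.tn : ℝ) / SC
  h3 : SC ≤ 3 * E.tn
  h4 : 2 * E.tn ≤ SC
  pl : E.PL.All (PP.Good E.tn)
  ps : E.PS.All (PD.Hold E.tn)
  mn : MNok E.MN
  xt : XTok t E.XT

variable {E : Env} {t : ℝ}

theorem Hyp.lv (h : Hyp E t) {T : BT Rf} (hT : T.All (ValR t)) : Lv (E.wth T) t := by
  have h3 : (E.tn : ℝ) / SC ≤ 1 / 2 := by
    have : (2 : ℝ) * E.tn ≤ SC := by exact_mod_cast h.h4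
    rw [div_le_iff₀ (by norm_num [SC])]
    linarith
  exact ⟨fun _ _ i _ => leaf2_ok h.R h.h1 h.h2 h3 h.l2 (h.pl.find i),
    fun _ _ _ n _ => leafS_ok h.R h.h1 h.h2 h3 h.lS (h.ps.find n),
    fun _ _ _ _ _ => leafU_ok h.R h.h1 h.h2 h3 h.lS h.lS2 h.R2 (u1ok h.h3) (u2ok h.h3),
    fun _ _ n => leafR_ok (hT.find n), h.mn, fun ih => h.xt T ih hT⟩

theorem lkp_all {l : List (Rf × ℕ)} (h : ∀ x ∈ l, ValR t x.1) : (lkp l).All (ValR t) := by
  induction l with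
  | nil => exact fun g => absurd g (lt_irrefl _)
  | cons x l ih => exact ⟨h x List.mem_cons_self, ih fun y hy => h y (List.mem_cons_of_mem _ hy)⟩

theorem w0 (t : ℝ) : (lkp []).All (ValR t) := lkp_all fun _ h => (List.not_mem_nil h).elim

theorem glue (h : Hyp E t) {T : BT Rf} (hT : T.All (ValR t)) {l : List (Rf × ℕ)}
    (hc : allC (E.wth T) l = true) : (lkp l).All (ValR t) :=
  lkp_all (allC_ok h.R (h.lv hT) hc)

/-- no extra leaf -/
theorem xt_none (t : ℝ) : XTok t fun _ _ _ _ _ => INF :=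
  fun _ _ _ _ _ _ _ g => absurd g (lt_irrefl _)

/-- the certificate from the claim on the root -/
theorem cert_top (R : Rules) (R2 : LeafS2Stmt) (lS2 : LeafS2) (h3 : SC ≤ 3 * E.tn)
    (h4 : 2 * E.tn ≤ SC) (pl : E.PL.All (PP.Good E.tn)) (ps : E.PS.All (PD.Hold E.tn))
    (mn : MNok E.MN)
    (xt : Leaf2 → LeafS → ∀ t : ℝ, 1 / 3 ≤ t → t < (E.tn : ℝ) / SC → XTok t E.XT)
    {l : ℕ} (hl : l < 10 ^ 9) (top : ∀ t, Hyp E t → Val t true root l) :
    Cert ((E.tn : ℝ) / SC) :=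
  cert_of R hl fun l2 lS t h1 h2 =>
    top t ⟨R, R2, l2, lS, lS2, h1, h2, h3, h4, pl, ps, mn, xt l2 lS t h1 h2⟩

end Pool.Agent.MP_c853c5_nt.X
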