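import Pool.Agent.MP_c853c5_nt.X.ChYD
import Pool.Agent.MP_c853c5_nt.X.Glue

/-!
The checker with lazy arguments is sound.
-/

set_option autoImplicit false

namespace Pool.Agent.MP_c853c5_nt.X

open Pool.Agent.MP_c853c5_nt.S Pool.Agent.MP_c853c5_nt.REG

lemma gz_eq {v : ℕ} {b : Bool} (h : v = 0 ↔ b = true) (x : ℕ) : gz v x = grd b x := by
  cases v with
  | zero => rw [h.1 rfl]; rfl
  | succ v =>
    cases b with
    | false => rfl
    | true => exact absurd (h.2 rfl) (Nat.succ_ne_zero v)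

lemma grd_congr {b : Bool} {x y : ℕ} (h : b = true → x = y) : grd b x = grd b y := by
  cases b
  exacts [rfl, h rfl]

lemma one_ne (k : ℕ) : Nat.beq (one k) 0 = false := by
  rw [← Bool.not_eq_true, Nat.beq_eq, one_eq]
  positivity

lemma cnd_tt {α : Type} (x y : α) : cnd true x y = x := by rw [cnd_eq, if_pos rfl]

lemma cnd_ff {α : Type} (x y : α) : cnd false x y = y := by rw [cnd_eq, if_neg Bool.false_ne_true]

lemma cnd_lt {α : Type} (a b : ℕ) (x y : α) : cnd (Nat.blt a b) x y = if a < b then x else y := by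
  simp only [cnd_eq, Nat.blt_eq]

lemma cnd_le {α : Type} (a b : ℕ) (x y : α) : cnd (Nat.ble a b) x y = if a ≤ b then x else y := by
  simp only [cnd_eq, Nat.ble_eq]

lemma cnd_e {α : Type} (a b : ℕ) (x y : α) : cnd (Nat.beq a b) x y = if a = b then x else y := by
  simp only [cnd_eq, Nat.beq_eq]

lemma twY_eq (s : ℕ) (f g : ℕ → ℕ) : twY s f g = two s f g := by
  simp only [twY, two, force_eq]

lemma put_add (v j : ℕ) {c : ℕ} (hc : c < 16777216) :
    put v j c + get v j * 2 ^ (24 * j) = v + c * 2 ^ (24 * j) := by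
  have e : ∀ {a : ℕ} (b d : ℕ), a < 2 ^ (24 * j) → (2 ^ (24 * j) * b + a) ^^^ (d <<< (24 * j)) =
      2 ^ (24 * j) * (b ^^^ d) + a := fun {a} b d ha => Nat.eq_of_testBit_eq fun i => by
    rw [Nat.testBit_xor, Nat.testBit_two_pow_mul_add _ ha, Nat.testBit_two_pow_mul_add _ ha,
      Nat.testBit_shiftLeft]
    split_ifs with h
    · simp [not_le.2 h]
    · simp [not_lt.1 h]
  have e2 : ∀ {a c : ℕ} (b : ℕ), a < 2 ^ 24 → c < 2 ^ 24 →
      (2 ^ 24 * b + a) ^^^ (a ^^^ c) = 2 ^ 24 * b + c := fun {a c} b ha hc =>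
    Nat.eq_of_testBit_eq fun i => by
      rw [Nat.testBit_xor, Nat.testBit_xor, Nat.testBit_two_pow_mul_add _ ha,
        Nat.testBit_two_pow_mul_add _ hc]
      split_ifs with h
      · simp
      · have g : 2 ^ 24 ≤ 2 ^ i := Nat.pow_le_pow_right two_pos (not_lt.1 h)
        rw [Nat.testBit_lt_two_pow (ha.trans_le g), Nat.testBit_lt_two_pow (hc.trans_le g)]
        simp
  have h1 := Nat.div_add_mod v (2 ^ (24 * j))
  have h2 := Nat.div_add_mod (v / 2 ^ (24 * j)) (2 ^ 24)
  have h3 : v / 2 ^ (24 * j) % 2 ^ 24 = get v j := by rw [get_eq, Nat.shiftRight_eq_div_pow]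
  have h4 := e (v / 2 ^ (24 * j)) (get v j ^^^ c) (Nat.mod_lt v (by positivity))
  have h5 := e2 (v / 2 ^ (24 * j) / 2 ^ 24) (get_lt v j) hc
  rw [h3] at h2
  rw [h2] at h5
  rw [h1, h5] at h4
  rw [show put v j c = _ from h4]
  generalize 2 ^ (24 * j) = P at *
  rw [← h2] at h1
  linarith

lemma put_dec (v j c : ℕ) : Nat.sub v (Nat.shiftLeft (Nat.sub (get v j) c) (Nat.mul 24 j)) =
    cnd (Nat.blt c (get v j)) (put v j c) v := by
  simp only [cnd_eq, Nat.blt_eq, Nat.sub_eq, Nat.shiftLeft_eq', Nat.shiftLeft_eq, Nat.mul_eq]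
  split_ifs with h
  · have := put_add v j (h.trans (get_lt v j))
    have := Nat.mul_le_mul_right (2 ^ (24 * j)) h.le
    rw [Nat.sub_mul]
    omega
  · rw [Nat.sub_eq_zero_of_le (not_lt.1 h), zero_mul, Nat.sub_zero]

lemma put_inc (v j : ℕ) {c : ℕ} (hc : c < 16777216) :
    Nat.add v (Nat.shiftLeft (Nat.sub c (get v j)) (Nat.mul 24 j)) =
      cnd (Nat.blt (get v j) c) (put v j c) v := by
  simp only [cnd_eq, Nat.blt_eq, Nat.sub_eq, Nat.shiftLeft_eq', Nat.shiftLeft_eq, Nat.mul_eq,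
    Nat.add_eq]
  split_ifs with h
  · have := put_add v j hc
    have := Nat.mul_le_mul_right (2 ^ (24 * j)) h.le
    rw [Nat.sub_mul]
    omega
  · rw [Nat.sub_eq_zero_of_le (not_lt.1 h), zero_mul, Nat.add_zero]

lemma cnd_app {α β : Type} (f : α → β) (b : Bool) (x y : α) :
    f (cnd b x y) = cnd b (f x) (f y) := by cases b <;> rfl

lemma xor_z (a b : ℕ) : Nat.xor a b = 0 ↔ a = b := Nat.xor_eq_zero_iff

lemma dpc_eq (e : ℕ) (l : List ℕ) : dpc e l = cnd (dup e l) (Nat.mul 2 (cf e)) (cf e) := by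
  cases l with
  | nil => rfl
  | cons f l =>
    show cf e <<< (1 - Nat.xor e f) = cnd (Nat.beq e f) _ _
    simp only [cnd_eq, Nat.beq_eq]
    split_ifs with h
    · rw [(xor_z e f).2 h, Nat.shiftLeft_eq, Nat.mul_eq]
      omega
    · rw [Nat.sub_eq_zero_of_le (Nat.pos_of_ne_zero fun g => h ((xor_z e f).1 g))]
      rfl

lemma cdY_eq (σ c : ℕ) : cdY σ c = cdv σ c := by rw [cdv, force_eq, cdY]

lemma tHY_eq (σ lo : ℕ) (l : List ℕ) : ∀ hi, tHY σ lo l hi = tHi σ lo l hi := by
  induction l with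
  | nil => exact fun _ => rfl
  | cons e l ih =>
    intro hi
    refine (ih _).trans ?_
    rw [put_dec, cnd_app (tHi σ lo l), dpc_eq, cdY_eq]
    simp only [tHi, force_eq]

lemma tLY_eq (σ hi : ℕ) (l : List ℕ) : ∀ lo, tLY σ hi l lo = tLo σ hi l lo := by
  induction l with
  | nil => exact fun _ => rfl
  | cons e l ih =>
    intro lo
    refine (ih _).trans ?_
    rw [put_inc (c := Nat.sub _ _) _ _ ((Nat.sub_le _ _).trans_lt (get_lt _ _)),
      cnd_app (tLo σ hi l), cdY_eq]
    simp only [tLo, force_eq]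

lemma cnd_ble {α : Type} (a b : ℕ) (x y : α) : cnd (Nat.ble a b) x y = cnd (Nat.blt b a) y x := by
  simp only [cnd_eq, Nat.blt_eq, Nat.ble_eq]
  split_ifs <;> first | rfl | omega

lemma md0 (a : ℕ) : Nat.mod a 0 = a := Nat.mod_zero a

lemma nrY_eq (rs : List Rw) : ∀ lo hi K, nrY rs lo hi K = nrm rs lo hi K := by
  induction rs with
  | nil => exact fun _ _ _ => rfl
  | cons r rs ih =>
    intro lo hi K
    obtain ⟨c1, l1, c2, l2⟩ := r
    show nr2 (nrY rs) _ lo hi K c1 l1 c2 l2 _ _ = _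
    rw [nr2, cnd_ble, ih, ih, tHY_eq, tLY_eq, md0, md0]
    simp only [nrm, force_eq]

lemma get_lor (p j : ℕ) : get (Nat.lor p 16777215) j = if j = 0 then 16777215 else get p j := by
  refine Nat.eq_of_testBit_eq fun n => ?_
  show ((p ||| (2 ^ 24 - 1)) >>> (24 * j) % 2 ^ 24).testBit n = _
  rw [Nat.testBit_mod_two_pow, Nat.testBit_shiftRight, Nat.testBit_or, Nat.testBit_two_pow_sub_one]
  split_ifs with h
  · rw [h, show 16777215 = 2 ^ 24 - 1 from rfl, Nat.testBit_two_pow_sub_one]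
    by_cases g : n < 24 <;> simp [g]
  · rw [get_eq, Nat.testBit_mod_two_pow, Nat.testBit_shiftRight]
    simp [show ¬ 24 * j + n < 24 by omega]

lemma chL_succ (par i k : ℕ) (B : List ℕ) : chL par i (k + 1) B =
    cnd (Nat.beq (get (Nat.lor par 16777215) k) i) (k :: chL par i k B) (chL par i k B) := rfl

lemma bit_one' (i j : ℕ) : bit (one i) j = decide (j = i) := by
  rw [Bool.eq_iff_iff, bit_one, decide_eq_true_iff]

lemma nl_ch {par i : ℕ} (hi : i < 16) (B : List ℕ) : ∀ {k : ℕ},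
    (∀ j, 1 ≤ j → j < k → get par j < j) → chL par i k B = nl par k (one i) ++ B := by
  intro k
  induction k with
  | zero => exact fun _ => rfl
  | succ k ih =>
    intro h
    rw [chL_succ, nl_succ, ih fun j h1 h2 => h j h1 (by omega), get_lor]
    simp only [cnd_eq, bor_eq, bnot_eq, bit_one', Nat.beq_eq, Bool.or_eq_true, decide_eq_true_iff,
      Bool.not_eq_true', decide_eq_false_iff_not]
    have := h k
    split_ifs <;> first | rfl | omega

lemma pl_one {par i : ℕ} : ∀ {k : ℕ}, (∀ j, 1 ≤ j → j < k → get par j < j) →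
    pl par k (one i) = if i < k then [i] else [] := by
  intro k
  induction k with
  | zero => exact fun _ => rfl
  | succ k ih =>
    intro h
    rw [pl_succ, ih fun j h1 h2 => h j h1 (by omega)]
    simp only [cnd_eq, band_eq, bor_eq, bnot_eq, bit_one', Nat.beq_eq, Bool.or_eq_true,
      Bool.and_eq_true, decide_eq_true_iff, Bool.not_eq_true', decide_eq_false_iff_not]
    have := h k
    split_ifs with a <;> first | rfl | omega | rw [a.1]

lemma pl_zero (par k : ℕ) : pl par k 0 = [] := by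
  induction k with
  | zero => rfl
  | succ k ih => rw [pl_succ, bit_zero, ih]; rfl

lemma nl_zero (par k : ℕ) : nl par k 0 = [] := by
  induction k with
  | zero => rfl
  | succ k ih => rw [nl_succ, bit_zero, bit_zero, ih]; cases Nat.beq k 0 <;> rfl

lemma nl_congr {p q : ℕ} (X : ℕ) : ∀ {k : ℕ}, (∀ j < k, get p j = get q j) →
    nl p k X = nl q k X := by
  intro k
  induction k with
  | zero => exact fun _ => rfl
  | succ k ih =>
    intro h
    rw [nl_succ, nl_succ, ih fun j h1 => h j (by omega), h k k.lt_succ_self]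

lemma nl_top {par k : ℕ} : ∀ {n : ℕ}, n ≤ k + 1 → (∀ j, 1 ≤ j → j < n → get par j < j) →
    nl par n (one k) = [] := by
  intro n
  induction n with
  | zero => exact fun _ _ => rfl
  | succ n ih =>
    intro g h
    rw [nl_succ, ih (by omega) fun j h1 h2 => h j h1 (by omega)]
    simp only [cnd_eq, bor_eq, bnot_eq, bit_one', Nat.beq_eq, Bool.or_eq_true, decide_eq_true_iff,
      Bool.not_eq_true', decide_eq_false_iff_not]
    have := h n
    split_ifs <;> first | rfl | omega

lemma nlk_ne (kd c k : ℕ) : nlk kd c k ≠ 0 ↔ ∀ j < k, get kd j ≠ c := by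
  induction k with
  | zero => simp [nlk]
  | succ k ih =>
    show Nat.xor (get kd k) c * nlk kd c k ≠ 0 ↔ _
    rw [mul_ne_zero_iff, ih, Nat.forall_lt_succ_right, and_comm, Ne, xor_z]

lemma mnY_eq (a b : ℕ) : mnY a b = mn a b := by
  rw [mn_eq, mnY, Nat.sub_eq, Nat.sub_eq]
  omega

lemma hfY_lt (par k lo hi i : ℕ) : hfY par k lo hi i < 16777216 := by
  have := get_lt hi i
  rw [hfY, axY, Nat.shiftRight_eq, Nat.shiftRight_eq_div_pow, Nat.sub_eq]
  omega

section
variable {k par kd lo hi : ℕ} {rs : List Rw} (hp : ∀ j, 1 ≤ j → j < k → get par j < j)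
  (hk : k ≤ 16)
include hp hk

lemma axY_eq (u v : ℕ) {i : ℕ} (h : i < k) : axY par k u v i =
    Nat.sub (sumL u (pl par k (one i))) (sumL v (nl par k (one i))) := by
  have e1 : nd i = i := Nat.mod_eq_of_lt (by omega)
  have e2 : cf i = 1 := congrArg Nat.succ (Nat.shiftRight_eq_zero i 4 (by omega))
  rw [axY, nl_ch (by omega) _ hp, List.append_nil, pl_one hp, if_pos h, sumL_eq u]
  simp [e1, e2]

lemma row_new {i a b : ℕ} (h : i < k) (h16 : k < 16) (ha : a ≤ k) (hb : b ≤ k) :
    rowOf (put par k i) (k + 1) (one a) (one b) 0 0 =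
      ⟨0, a :: (if b = k then [] else if b = i then k :: chL par b k [] else chL par b k []), 0,
        if a = k then [b] else if a = i then k :: chL par a k [b] else chL par a k [b]⟩ := by
  have p : ∀ j, get (put par k i) j = if j = k then i else get par j := get_put _ _ (by omega)
  have q : ∀ j, 1 ≤ j → j < k + 1 → get (put par k i) j < j := fun j h1 h2 => by
    rw [p]
    split_ifs with c
    exacts [c ▸ h, hp j h1 (by omega)]
  have n : ∀ {b : ℕ} (B : List ℕ), b ≤ k → nl (put par k i) (k + 1) (one b) ++ B =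
      if b = k then B else if b = i then k :: chL par b k B else chL par b k B := fun {b} B hb => by
    split_ifs with c d
    · rw [c, nl_top le_rfl q]; rfl
    all_goals
      rw [nl_ch (by omega) _ hp, nl_succ, nl_congr _ fun j hj => (p j).trans (if_neg hj.ne), p,
        if_pos rfl]
      simp only [cnd_eq, bor_eq, bnot_eq, bit_one', Nat.beq_eq, Bool.or_eq_true,
        decide_eq_true_iff, Bool.not_eq_true', decide_eq_false_iff_not]
      split_ifs <;> first | rfl | omega
  rw [rowOf, app_eq, app_eq, pl_one q, pl_one q, if_pos (by omega), if_pos (by omega), n _ ha,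
    ← n _ hb, List.append_nil]
  rfl

lemma opY_eq (f : NS → ℕ → ℕ) {i l h h' : ℕ} (X X' : ℕ) (L : List Rw → List Rw) (u : ℕ)
    (hi' : i < k) (hl : l < 16777216) (hh : h' = mn h (hfY par k lo hi i))
    (hL : k < 16 → ∀ M, L M = cnd (Nat.beq X 0) M (rowOf (put par k i) (k + 1) X X' 0 0 :: M)) :
    opY f k par kd lo hi rs i l h' L u =
      opnS ⟨k, par, kd, lo, hi, rs⟩ i l h X X' fun S' => f S' u := by
  have a := hfY_lt par k lo hi i
  have b : hfY par k lo hi i = Nat.shiftRight (Nat.succ (ahi ⟨k, par, kd, lo, hi, rs⟩ i)) 1 := by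
    rw [hfY, axY_eq hp hk _ _ hi']; rfl
  simp only [opY, opnS, force_eq, addRow_eq, ← b, ← hh, Nat.succ_eq_add_one]
  by_cases c : k < 16
  · have e1 : Nat.ble k 15 = true := by rw [Nat.ble_eq]; omega
    have e2 : band (Nat.blt k 16) (band (Nat.blt l 16777216) (Nat.blt h' 16777216)) = true := by
      rw [mn_eq] at hh
      simp only [band_eq, Bool.and_eq_true, Nat.blt_eq]
      omega
    rw [e1, e2, hL c, row_new hp hk hi' c le_rfl hi'.le, if_neg hi'.ne, if_pos rfl, if_pos rfl]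
    cases Nat.beq X 0 <;> rfl
  · have e1 : Nat.ble k 15 = false := by rw [← Bool.not_eq_true, Nat.ble_eq]; omega
    have e2 : Nat.blt k 16 = false := by rw [← Bool.not_eq_true, Nat.blt_eq]; omega
    rw [e1, e2]; rfl

lemma dn2_eq (ih : Rec) (sg : Bool) {i ν : ℕ} (s : ℕ) {v h h' : ℕ} {b : Bool} (X X' : ℕ)
    (L : List Rw → List Rw) (hv : i < k → (v = 0 ↔ b = true))
    (hh : i < k → h' = mn h (hfY par k lo hi i))
    (hL : i < k → k < 16 → ∀ M,
      L M = cnd (Nat.beq X 0) M (rowOf (put par k i) (k + 1) X X' 0 0 :: M)) :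
    dn2 ih sg k par kd lo hi rs i ν s v h' L =
      grd (band (band (Nat.blt i k) (band (Nat.ble 20000 ν) (Nat.blt ν 1000000)))
        (band (allN (fun j => bnot (Nat.beq (get kd j) (Nat.succ i))) k) b))
      (two s (fun u => ih sg ⟨k, par, put kd i ν, lo, hi, rowOf par k 0 (one i) ν 0 :: rs⟩ u)
        fun u => opnS ⟨k, par, kd, lo, hi, rs⟩ i ν h X X' fun S' => ih (bnot sg) S' u) := by
  have e := nlk_ne kd (Nat.succ i) k
  rw [dn2, gz_eq (b := band (band (Nat.blt i k) (band (Nat.ble 20000 ν) (Nat.blt ν 1000000)))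
    (band (allN (fun j => bnot (Nat.beq (get kd j) (Nat.succ i))) k) b))]
  · refine grd_congr fun g => ?_
    simp only [band_eq, Bool.and_eq_true, Nat.blt_eq] at g
    obtain ⟨⟨g1, -, g2⟩, -⟩ := g
    rw [twY_eq, rowOf, pl_zero, nl_zero, pl_one hp, if_pos g1, nl_ch (by omega) _ hp,
      List.append_nil]
    exact congrArg _ (funext fun u => opY_eq hp hk _ X X' L u g1 (by omega) (hh g1) (hL g1))
  · simp only [band_eq, bnot_eq, Bool.and_eq_true, Nat.blt_eq, Nat.ble_eq, allN_iff,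
      Bool.not_eq_true', Nat.add_eq, Nat.sub_eq, ← Bool.not_eq_true, Nat.beq_eq]
    refine ⟨fun g => ⟨by omega, e.1 (by omega), (hv (by omega)).1 (by omega)⟩, fun g => ?_⟩
    have := e.2 g.2.1
    have := (hv g.1.1).2 g.2.2
    omega

lemma dnY_eq (ih : Rec) (sg : Bool) (i ν s : ℕ)
    (hl : i < k → get kd i ≠ 0 → get kd i ≤ 16 → get kd i - 1 < k ∧ get kd i - 1 ≠ i) :
    dnY ih sg k par kd lo hi rs i ν s = down ih sg ⟨k, par, kd, lo, hi, rs⟩ i ν s := by
  simp only [dnY, down, force_eq, addRow_eq]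
  generalize get kd i = q at hl
  cases q with
  | zero =>
    simp only [Nat.beq_refl, cnd_tt]
    refine dn2_eq hp hk ih sg s 0 0 _ (fun g => ?_) (fun _ => ?_) fun _ _ _ => rfl
    · rw [axY_eq hp hk _ _ g]
      show _ ↔ Nat.blt _ _ = true
      rw [Nat.blt_eq, Nat.sub_eq, Nat.sub_eq_zero_iff_le]
      rfl
    · have := hfY_lt par k lo hi i
      rw [mn_eq]
      omega
  | succ l =>
    simp only [cnd_e, if_neg l.succ_ne_zero, show Nat.ble (l + 1) 16 = Nat.ble l 15 from rfl,
      Nat.pred_succ]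
    cases c : Nat.ble l 15 <;> simp only [cnd_tt, cnd_ff]
    · refine dn2_eq hp hk ih sg s 0 0 _ (fun g => ?_) (fun _ => mnY_eq _ _) fun _ _ _ => rfl
      show _ ↔ Nat.ble _ _ = true
      rw [Nat.ble_eq, Nat.sub_eq, Nat.sub_eq_zero_iff_le]
    · rw [Nat.ble_eq] at c
      have d : i < k → l < k ∧ l ≠ i := fun g => hl g (by omega) (by omega)
      refine dn2_eq hp hk ih sg s (one k) (one l) _ (fun g => ?_) (fun g => ?_) fun g g' M => ?_
      · rw [axY_eq hp hk _ _ (d g).1]
        show _ ↔ Nat.blt _ _ = true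
        rw [Nat.blt_eq, Nat.sub_eq, Nat.sub_eq_zero_iff_le]
        rfl
      · rw [mnY_eq, axY_eq hp hk _ _ (d g).1]
        rfl
      · rw [row_new hp hk g g' le_rfl (d g).1.le, if_neg (d g).1.ne, if_neg (d g).2, if_pos rfl,
          one_ne]
        rfl

lemma upY_eq (ih : Rec) (sg : Bool) (i s : ℕ)
    (hl : i < k → get kd i ≠ 0 → get kd i ≤ 16 → get kd i - 1 < k ∧ get kd i - 1 ≠ i) :
    upY ih sg k par kd lo hi rs i s = up ih sg ⟨k, par, kd, lo, hi, rs⟩ i s := by
  simp only [upY, up, force_eq]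
  have b := get_lt kd i
  generalize get kd i = q at hl b
  cases q with
  | zero => cases Nat.blt i k <;> rfl
  | succ l =>
    refine (gz_eq (b := band (Nat.blt i k) (Nat.blt 0 (l + 1))) ?_ _).trans (grd_congr fun g => ?_)
    · simp only [band_eq, Bool.and_eq_true, Nat.blt_eq, Nat.sub_eq]
      omega
    simp only [band_eq, Bool.and_eq_true, Nat.blt_eq] at g
    have a : hfY par k lo hi i = mn 1000000000 (hfY par k lo hi i) := by
      have := hfY_lt par k lo hi i
      rw [mn_eq]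
      omega
    rw [twY_eq]
    refine congrArg _ (funext fun u => ?_)
    simp only [show Nat.ble (l + 1) 16 = Nat.ble l 15 from rfl, Nat.pred_succ]
    cases c : Nat.ble l 15 <;> simp only [cnd_tt, cnd_ff]
    · exact opY_eq hp hk _ 0 0 _ u g.1 b a fun _ _ => rfl
    · rw [Nat.ble_eq] at c
      have d : l < k ∧ l ≠ i := hl g.1 (by omega) (by omega)
      have e : axY par k lo hi l = alo ⟨k, par, kd, lo, hi, rs⟩ l := axY_eq hp hk _ _ d.1
      refine e ▸ opY_eq hp hk _ (one l) (one k) _ u g.1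
        ((Nat.sub_le _ _).trans_lt (get_lt _ _)) a fun g' M => ?_
      rw [row_new hp hk g.1 g' d.1.le le_rfl, if_neg d.1.ne, if_neg d.2, if_pos rfl, one_ne]
      rfl

end

lemma difL_eq : ∀ (l m : List ℕ), difL l m = 0 → eqL l m = true
  | [], [], _ => rfl
  | [], _ :: _, h => absurd h one_ne_zero
  | _ :: _, [], h => absurd h one_ne_zero
  | e :: l, f :: m, h => by
    have g : Nat.xor e f + difL l m = 0 := h
    show band (Nat.beq e f) (eqL l m) = true
    rw [difL_eq l m (by omega), (xor_z e f).1 (by omega), Nat.beq_refl]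
    rfl

lemma difR_eq : ∀ (l m : List Rw), difR l m = 0 → ∀ q ∈ l, ∃ r ∈ m, eqR q r = true
  | [], _, _ => fun _ h => (List.not_mem_nil h).elim
  | _ :: _, [], h => absurd h one_ne_zero
  | r :: l, q :: m, h => by
    have g : Nat.xor r.c1 q.c1 + Nat.xor r.c2 q.c2 + (difL r.l1 q.l1 + difL r.l2 q.l2) +
      difR l m = 0 := h
    refine List.forall_mem_cons.2 ⟨⟨q, List.mem_cons_self, ?_⟩, fun x hx => ?_⟩
    · rw [eqR, difL_eq _ _ (by omega), difL_eq _ _ (by omega), (xor_z r.c1 q.c1).1 (by omega),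
        (xor_z r.c2 q.c2).1 (by omega), Nat.beq_refl, Nat.beq_refl]
      rfl
    · obtain ⟨y, hy, e⟩ := difR_eq l m (by omega) x hx
      exact ⟨y, List.mem_cons_of_mem _ hy, e⟩

lemma rfY_eq (sg : Bool) (S : NS) (x : Rf) : rfY sg S x = leafR sg S x := by
  obtain ⟨b, U, l⟩ := x
  simp only [rfY]
  generalize g : Nat.add _ (difR U.rs S.rs) = v
  cases v with
  | succ v => rfl
  | zero =>
    simp only [Nat.add_eq, Nat.add_eq_zero_iff, xor_z] at g
    obtain ⟨⟨⟨g1, g2⟩, g3, g4, g5⟩, g6⟩ := g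
    have e1 : allN (fun j => band (Nat.ble (get U.lo j) (get S.lo j))
        (Nat.ble (get S.hi j) (get U.hi j))) S.k = true := (allN_iff _ _).2 fun j _ => by
      simp [band_eq, g4, g5]
    have e2 : allL (fun q => anyL (fun r => eqR q r) S.rs) U.rs = true :=
      (allL_iff _ _).2 fun q hq => (anyL_iff _ _).2 (difR_eq _ _ g6 q hq)
    simp only [leafR, e1, e2, ← g1, g2, g3, Nat.beq_refl]
    cases cnd sg b (bnot b) <;> rfl

lemma spY_eq (ih : Rec) (sg : Bool) (k par kd lo hi : ℕ) (rs : List Rw) (j c s : ℕ) :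
    spY ih sg k par kd lo hi rs j c s = spl ih sg ⟨k, par, kd, lo, hi, rs⟩ j c s := by
  simp only [spY, spl, force_eq, twY_eq]
  refine gz_eq ?_ _
  simp only [band_eq, Bool.and_eq_true, Nat.blt_eq, Nat.sub_eq, Nat.add_eq]
  omega

lemma shr2 (s a b : ℕ) : Nat.shiftRight (Nat.shiftRight s a) b = Nat.shiftRight s (a + b) :=
  (Nat.shiftRight_add s a b).symm

theorem stepY_eq (E : Env) (ih : Rec) (sg : Bool) {S : NS} {A : ℕ → Finset ℕ} (hI : Inv S A)
    (s : ℕ) : stepY E ih sg S s = step E ih sg S s := by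
  have hq : Nat.mod s 16 < 16 := Nat.mod_lt _ (by norm_num)
  have hl := fun i a b c => (link_ok hI (i := i) a b c).2
  obtain ⟨k, par, kd, lo, hi, rs⟩ := S
  rw [stepY, force_eq]
  generalize e : Nat.mod s 16 = q at hq
  interval_cases q <;> simp only [selS, cnd_e, cnd_le, Nat.reduceLeDiff, Nat.reduceEqDiff,
    if_true, if_false, OfNat.ofNat_ne_zero, OfNat.ofNat_ne_one, OfNat.zero_ne_ofNat,
    OfNat.one_ne_ofNat, one_ne_zero, nonpos_iff_eq_zero] <;>
    simp only [step, force_eq, e, cnd_e, cnd_lt, Nat.reduceLT, Nat.reduceEqDiff, if_true, if_false,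
      r0Y, r1Y, r4Y, r5Y, r8Y, spY_eq, shr2, nrY_eq, rfY_eq, Nat.reduceAdd, lt_self_iff_false,
      OfNat.ofNat_ne_zero, one_ne_zero, Nat.ofNat_pos, Nat.one_lt_ofNat]
  · exact dnY_eq hI.par hI.le _ _ _ _ _ (hl _)
  · exact upY_eq hI.par hI.le _ _ _ _ (hl _)

variable {t : ℝ} {E : Env}

theorem chkY_ok (R : Rules) (L : Lv E t) (fuel : ℕ) :
    ∀ sg S s, Val t sg S (chkY E fuel sg S s) := by
  induction fuel with
  | zero => exact fun _ _ _ h => absurd h (lt_irrefl _)
  | succ n ih =>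
    intro sg S s h A hI
    have e : chkY E (n + 1) sg S s = step E (chkY E n) sg S s := stepY_eq E _ sg hI s
    rw [e] at h ⊢
    exact step_ok R L ih sg S s h A hI

theorem glueY (h : Hyp E t) {T : BT Rf} (hT : T.All (ValR t)) {l : List (Rf × ℕ)}
    (hc : allY (E.wth T) l = true) : (lkp l).All (ValR t) :=
  lkp_all fun x hx => (chkY_ok h.R (h.lv hT) 400 _ _ _).mono h.R
    (Nat.le_of_ble_eq_true ((allL_iff _ _).1 hc x hx))

lemma fnX_eq (u : BT Rule) : ∀ i, (fnX u i).f =
    fun T ih sg S s => u.find i T ih sg S (Nat.shiftRight s 8) := by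
  induction u with
  | lf x => exact fun _ => rfl
  | nd n l r il ir =>
    intro i
    show (cnd (Nat.blt i n) (fnX l i) (fnX r (Nat.sub i n))).f =
      fun T ih sg S s => cnd (Nat.blt i n) (l.find i) (r.find (Nat.sub i n)) T ih sg S _
    cases Nat.blt i n
    exacts [ir _, il _]

theorem XTY_eq (f g : Rule) (sub : BT Rule) : XTY f g sub = XT f g sub := by
  funext T ih sg S s
  have e1 : Nat.mod (Nat.mod s 256) 16 = Nat.mod s 16 := Nat.mod_mod_of_dvd s (by norm_num)
  have e2 : Nat.shiftRight (Nat.mod s 256) 4 = Nat.mod (Nat.shiftRight s 4) 16 := by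
    show (s % 256) >>> 4 = s >>> 4 % 16
    rw [Nat.shiftRight_eq_div_pow, Nat.shiftRight_eq_div_pow]
    omega
  simp only [XTY, XT, force_eq, selX, e1, e2, shr2]
  cases Nat.beq (Nat.mod s 16) 13
  · cases Nat.beq (Nat.mod s 16) 14
    · exact congrFun (congrFun (congrFun (congrFun (congrFun (fnX_eq _ _) T) ih) sg) S) s
    · rfl
  · rfl

end Pool.Agent.MP_c853c5_nt.X
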