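import Pool.Agent.MP_c853c5_nt.X.State
import Pool.Agent.MP_c853c5_nt.REG.Dust
import Pool.Agent.MP_c853c5_nt.S.Defs2

/-!
The certificate checker (definitions only), written with raw recursors.
-/

set_option autoImplicit false

open Finset

namespace Pool.Agent.MP_c853c5_nt.X

open Pool.Agent.MP_c853c5_nt.S Pool.Agent.MP_c853c5_nt.REG

noncomputable def bor (a b : Bool) : Bool := Bool.rec (motive := fun _ => Bool) b true a
noncomputable def band (a b : Bool) : Bool := Bool.rec (motive := fun _ => Bool) false b a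
noncomputable def bnot (a : Bool) : Bool := Bool.rec (motive := fun _ => Bool) true false a
noncomputable def mn (a b : ℕ) : ℕ := cnd (Nat.ble a b) a b
noncomputable def mx (a b : ℕ) : ℕ := cnd (Nat.ble a b) b a

/-- `x` if the test holds, failure otherwise -/
noncomputable def grd (b : Bool) (x : ℕ) : ℕ := cnd b x INF

def bit (X j : ℕ) : Bool := Nat.beq (Nat.mod (Nat.shiftRight X j) 2) 1
def one (j : ℕ) : ℕ := Nat.shiftLeft 1 j
def d4 (G j : ℕ) : ℕ := Nat.mod (Nat.shiftRight G (Nat.mul 4 j)) 16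
def dg (c s : ℕ) : ℕ := Nat.mod (Nat.shiftRight c s) 4096

noncomputable def allN (p : ℕ → Bool) (k : ℕ) : Bool :=
  Nat.rec (motive := fun _ => Bool) true (fun j ih => band (p j) ih) k

noncomputable def anyN (p : ℕ → Bool) (k : ℕ) : Bool :=
  Nat.rec (motive := fun _ => Bool) false (fun j ih => bor (p j) ih) k

noncomputable def allL {α : Type} (p : α → Bool) (l : List α) : Bool :=
  List.rec (motive := fun _ => Bool) true (fun x _ ih => band (p x) ih) l

noncomputable def anyL {α : Type} (p : α → Bool) (l : List α) : Bool :=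
  List.rec (motive := fun _ => Bool) false (fun x _ ih => bor (p x) ih) l

noncomputable def app (l m : List ℕ) : List ℕ :=
  List.rec (motive := fun _ => List ℕ) m (fun e _ ih => e :: ih) l

noncomputable def forceL (l : List ℕ) : (List ℕ → ℕ) → ℕ :=
  List.rec (motive := fun _ => (List ℕ → ℕ) → ℕ) (fun K => K [])
    (fun e _ ih K => force e fun e' => ih fun t => K (e' :: t)) l

noncomputable def sumL (v : ℕ) (l : List ℕ) : ℕ :=
  List.rec (motive := fun _ => ℕ) 0 (fun e _ ih => Nat.add (Nat.mul (cf e) (get v (nd e))) ih) l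

/-- tables -/
inductive BT (α : Type) : Type
  | lf (x : α) : BT α
  | nd (n : ℕ) (l r : BT α) : BT α

noncomputable def BT.find {α : Type} (t : BT α) : ℕ → α :=
  BT.rec (motive := fun _ => ℕ → α) (fun x _ => x)
    (fun n _ _ il ir i => cnd (Nat.blt i n) (il i) (ir (Nat.sub i n))) t

def BT.All {α : Type} (p : α → Prop) : BT α → Prop
  | .lf x => p x
  | .nd _ l r => l.All p ∧ r.All p

/-! ### sums of sizes in node coordinates -/

/-- nodes with coefficient `1` in the sum of the sizes over the mask `X` -/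
noncomputable def pl (par k X : ℕ) : List ℕ :=
  Nat.rec (motive := fun _ => List ℕ) []
    (fun j ih => cnd (band (bit X j) (bor (Nat.beq j 0) (bnot (bit X (get par j))))) (j :: ih) ih) k

/-- nodes with coefficient `-1` -/
noncomputable def nl (par k X : ℕ) : List ℕ :=
  Nat.rec (motive := fun _ => List ℕ) []
    (fun j ih => cnd (bor (bit X j) (bor (Nat.beq j 0) (bnot (bit X (get par j))))) ih (j :: ih)) k

/-- the row `c1 + ∑ X ≤ c2 + ∑ X'` -/
noncomputable def rowOf (par k X X' c1 c2 : ℕ) : Rw :=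
  ⟨c1, app (pl par k X) (nl par k X'), c2, app (nl par k X) (pl par k X')⟩

noncomputable def addRow (par k X X' c1 c2 : ℕ) (rs : List Rw) (K : List Rw → ℕ) : ℕ :=
  forceL (app (pl par k X) (nl par k X')) fun l1 =>
  forceL (app (nl par k X) (pl par k X')) fun l2 => K (⟨c1, l1, c2, l2⟩ :: rs)

noncomputable def alo (S : NS) (i : ℕ) : ℕ :=
  Nat.sub (sumL S.lo (pl S.par S.k (one i))) (sumL S.hi (nl S.par S.k (one i)))

noncomputable def ahi (S : NS) (i : ℕ) : ℕ :=
  Nat.sub (sumL S.hi (pl S.par S.k (one i))) (sumL S.lo (nl S.par S.k (one i)))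

/-! ### propagation of the rows -/

noncomputable def dup (e : ℕ) (l : List ℕ) : Bool :=
  List.rec (motive := fun _ => Bool) false (fun f _ _ => Nat.beq e f) l

/-- the quotient, rounded up -/
noncomputable def cdv (σ c : ℕ) : ℕ := force c fun c => Nat.div (Nat.add σ (Nat.pred c)) c

noncomputable def tHi (σ lo : ℕ) (l : List ℕ) : ℕ → ℕ :=
  List.rec (motive := fun _ => ℕ → ℕ) (fun hi => hi)
    (fun e t ih hi => force (nd e) fun j =>
      force (Nat.add (get lo j) (cdv σ (cnd (dup e t) (Nat.mul 2 (cf e)) (cf e)))) fun v =>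
      cnd (Nat.blt v (get hi j)) (force (put hi j v) ih) (ih hi)) l

noncomputable def tLo (σ hi : ℕ) (l : List ℕ) : ℕ → ℕ :=
  List.rec (motive := fun _ => ℕ → ℕ) (fun lo => lo)
    (fun e _ ih lo => force (nd e) fun j =>
      force (Nat.sub (get hi j) (cdv σ (cf e))) fun v =>
      cnd (Nat.blt (get lo j) v) (force (put lo j v) ih) (ih lo)) l

/-- one pass: empty regions give `0`, rows that hold on the box are forgotten -/
noncomputable def nrm (rs : List Rw) : ℕ → ℕ → (ℕ → ℕ → List Rw → ℕ) → ℕ :=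
  List.rec (motive := fun _ => ℕ → ℕ → (ℕ → ℕ → List Rw → ℕ) → ℕ) (fun lo hi K => K lo hi [])
    (fun r _ ih lo hi K =>
      force (Nat.add r.c1 (sumL lo r.l1)) fun a =>
      force (Nat.add r.c2 (sumL hi r.l2)) fun b =>
      cnd (Nat.blt b a) 0
        (cnd (Nat.ble (Nat.add r.c1 (sumL hi r.l1)) (Nat.add r.c2 (sumL lo r.l2))) (ih lo hi K)
          (force (Nat.sub b a) fun σ =>
           force (tHi σ lo r.l1 hi) fun hi' =>
           force (tLo σ hi r.l2 lo) fun lo' =>
           ih lo' hi' fun lo2 hi2 rs2 => K lo2 hi2 (r :: rs2)))) rs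

/-! ### implied rows -/

noncomputable def cntL (j : ℕ) (l : List ℕ) : ℕ :=
  List.rec (motive := fun _ => ℕ) 0 (fun e _ ih => cnd (Nat.beq (nd e) j) (Nat.add (cf e) ih) ih) l

noncomputable def Rw.add (r q : Rw) : Rw :=
  ⟨Nat.add r.c1 q.c1, app r.l1 q.l1, Nat.add r.c2 q.c2, app r.l2 q.l2⟩

def Rw.swap (r : Rw) : Rw := ⟨r.c2, r.l2, r.c1, r.l1⟩

/-- the sum of the rows selected by the mask -/
noncomputable def selR (rs : List Rw) : ℕ → Rw :=
  List.rec (motive := fun _ => ℕ → Rw) (fun _ => ⟨0, [], 0, []⟩)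
    (fun r _ ih m => cnd (bit m 0) (r.add (ih (Nat.shiftRight m 1))) (ih (Nat.shiftRight m 1))) rs

noncomputable def sumD (v : ℕ) (p n : List ℕ) (k : ℕ) : ℕ :=
  Nat.rec (motive := fun _ => ℕ) 0
    (fun j ih => Nat.add (Nat.mul (Nat.sub (cntL j p) (cntL j n)) (get v j)) ih) k

/-- the row `r` holds on the box, after cancellation -/
noncomputable def onBox (S : NS) (r : Rw) : Bool :=
  Nat.beq 1 (forceL r.l1 fun n => forceL r.l2 fun p =>
    cnd (Nat.ble (Nat.add r.c1 (sumD S.hi n p S.k)) (Nat.add r.c2 (sumD S.lo p n S.k))) 1 0)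

/-- `r` or its double follows from the selected rows -/
noncomputable def imp (S : NS) (r : Rw) (d : ℕ) : Bool :=
  onBox S ((cnd (bit d 0) (r.add r) r).add (selR S.rs (Nat.shiftRight d 1)).swap)

/-- the coefficients times `m + 1` -/
noncomputable def sclL (m : ℕ) (l : List ℕ) : List ℕ :=
  List.rec (motive := fun _ => List ℕ) []
    (fun e _ ih => Nat.add e (Nat.mul (Nat.mul 16 m) (cf e)) :: ih) l

noncomputable def Rw.scl (r : Rw) (m : ℕ) : Rw :=
  ⟨Nat.mul (Nat.succ m) r.c1, sclL m r.l1, Nat.mul (Nat.succ m) r.c2, sclL m r.l2⟩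

/-- the combination of the rows with multipliers of `12` bits -/
noncomputable def selW (rs : List Rw) : ℕ → Rw :=
  List.rec (motive := fun _ => ℕ → Rw) (fun _ => ⟨0, [], 0, []⟩)
    (fun r _ ih m => cnd (Nat.beq (Nat.mod m 4096) 0) (ih (Nat.shiftRight m 12))
      ((r.scl (Nat.pred (Nat.mod m 4096))).add (ih (Nat.shiftRight m 12)))) rs

/-- a multiple of `r` follows from a combination of the rows -/
noncomputable def impW (S : NS) (r : Rw) (d : ℕ) : Bool :=
  onBox S ((r.scl (Nat.mod d 4096)).add (selW S.rs (Nat.shiftRight d 12)).swap)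

/-! ### leaves -/

/-- shifts of the weights of a node and of its parent, enlarged box -/
inductive RL : Type
  | nil : RL
  | cons (g h lo hi : ℕ) (r : RL) : RL

noncomputable def mkRL (S : NS) (G : ℕ) (sw : Bool) (n : ℕ) : (RL → ℕ) → ℕ :=
  Nat.rec (motive := fun _ => (RL → ℕ) → ℕ) (fun K => K RL.nil)
    (fun j ih K =>
      force (Nat.mul 12 (d4 G (Nat.succ j))) fun g =>
      force (Nat.mul 12 (d4 G (get S.par (Nat.succ j)))) fun h =>
      cnd (Nat.beq g h) (ih K)
        (force (Nat.sub (get S.lo (Nat.succ j)) 16) fun lo =>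
         force (Nat.shiftLeft (Nat.add (get S.hi (Nat.succ j)) 16) 48) fun hi =>
         ih fun r => K (cnd sw (RL.cons h g lo hi r) (RL.cons g h lo hi r)))) n

noncomputable def rowT (c : ℕ) (r : RL) : ℕ :=
  RL.rec (motive := fun _ => ℕ) 0
    (fun g h lo hi _ ih => Nat.add (Nat.add (Nat.mul (Nat.sub (dg c g) (dg c h)) hi)
      (Nat.mul (Nat.sub (dg c h) (dg c g)) lo)) ih) r

/-- `u + (positive part) ≤ v + (negative part)` -/
noncomputable def rowLe (c : ℕ) (r : RL) (u v : ℕ) : Bool :=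
  Nat.beq 1 (force (rowT c r) fun T =>
    cnd (Nat.ble (Nat.add u (Nat.shiftRight T 48)) (Nat.add v (Nat.mod T 281474976710656))) 1 0)

/-- a polytope of type II: `k` groups, rows with digits of `12` bits -/
structure PP where
  k : ℕ
  P : List (ℕ × ℕ)

def PP.Good (tn : ℕ) (x : PP) : Prop :=
  ∀ (ι : Type) [Fintype ι] (w : ι → ℝ) (g : ι → ℕ), (∀ j, g j < x.k) → (∀ j, 0 ≤ w j) →
    ∑ j, w j = 1 → (∀ y ∈ x.P, ∑ j, (dg y.1 (12 * g j) : ℝ) * w j ≤ (y.2 : ℝ) / SC) →
    Eval ((tn : ℝ) / SC) (1 / 10000) 64 w (1 / 2)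

noncomputable def hasP (S : NS) : Bool := anyN (fun j => Nat.beq (get S.kd j) 0) S.k

noncomputable def leaf2 (S : NS) (x : PP) (G : ℕ) : ℕ :=
  grd (band (Nat.ble S.k 16) (band (hasP S) (allN (fun j => Nat.blt (d4 G j) x.k) S.k)))
    (force (Nat.mul 12 (d4 G 0)) fun g0 => mkRL S G false (Nat.pred S.k) fun r =>
      grd (allL (fun y : ℕ × ℕ => rowLe y.1 r (Nat.mul (dg y.1 g0) 1000000) y.2) x.P) 0)

/-- a claim on small primes: `m` groups, a box, a flag for a prime factor, a level -/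
structure PD where
  m : ℕ
  lo : ℕ
  hi : ℕ
  p : Bool
  z : ℕ

def PD.Hold (tn : ℕ) (x : PD) : Prop :=
  ∀ (ι : Type) [Fintype ι] (G : ι → ℕ), (∀ j, G j < x.m) →
    DOK ((tn : ℝ) / SC) (x.p = true) {a | (∀ j, 0 ≤ a j) ∧ ∀ n < x.m,
      (get x.lo n : ℝ) / SC ≤ asum G a n ∧ asum G a n ≤ (get x.hi n : ℝ) / SC} ((x.z : ℝ) / SC)

/-- upper bound for the level of the block `i` -/
noncomputable def levU (S : NS) (i : ℕ) : ℕ :=
  cnd (Nat.ble (get S.kd i) 16) (Nat.succ (ahi S (Nat.pred (get S.kd i)))) (get S.kd i)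

noncomputable def leafS (S : NS) (i : ℕ) (x : PD) (G : ℕ) : ℕ :=
  grd (band (band (Nat.ble S.k 16) (Nat.blt i S.k)) (band (Nat.blt 0 (get S.kd i))
      (band (Nat.ble (levU S i) x.z) (band (bor (bnot x.p) (hasP S))
        (allN (fun j => cnd (Nat.beq j i) (Nat.ble x.m (d4 G j)) (Nat.blt (d4 G j) x.m)) S.k)))))
    (force (Nat.mul 12 (d4 G 0)) fun g0 =>
      mkRL S G false (Nat.pred S.k) fun r => mkRL S G true (Nat.pred S.k) fun r' =>
      grd (allN (fun n =>
        band (bor (Nat.ble 1000000 (get x.hi n)) (rowLe (one (Nat.mul 12 n)) r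
            (Nat.mul (dg (one (Nat.mul 12 n)) g0) (Nat.add (get S.hi 0) 16)) (get x.hi n)))
          (bor (Nat.beq (get x.lo n) 0) (rowLe (one (Nat.mul 12 n)) r' (get x.lo n)
            (Nat.mul (dg (one (Nat.mul 12 n)) g0) (Nat.sub (get S.lo 0) 16))))) x.m) 0)

/-- the uniform leaf: level `z`, sieved size at least `c` -/
def uT (tn z c : ℕ) : Bool :=
  Nat.ble z 100000 && Nat.ble (z + 2 * tn + 400) 1000000 && Nat.ble (z + 2 * tn + 400) (2 * c)

def U1ok (tn : ℕ) : Prop := ∀ (z c r : ℕ) (B : Fin r → Blk) (z1 : ℝ), uT tn z c = true →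
  z1 ≤ (z : ℝ) / SC → ∑ i, (B i).hi ≤ 1 - (c : ℝ) / SC → DustOK ((tn : ℝ) / SC) B z1

def U2ok (tn : ℕ) : Prop := ∀ (z c r : ℕ) (B : Fin r → Blk) (z1 z2 lo hi : ℝ), uT tn z c = true →
  z1 ≤ (z : ℝ) / SC → z2 ≤ (z : ℝ) / SC → ∑ i, (B i).hi ≤ 1 - (c : ℝ) / SC →
  DustOK2 ((tn : ℝ) / SC) B z1 z2 lo hi

/-- blocks `i ≤ j` (one block if `i = j`) -/
noncomputable def leafU (tn : ℕ) (S : NS) (i j d : ℕ) : ℕ :=
  force (mx (levU S i) (levU S j)) fun z =>
  force (Nat.add (Nat.add tn 201) (Nat.shiftRight z 1)) fun c =>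
  grd (band (band (Nat.ble S.k 16) (band (Nat.ble i j) (Nat.blt j S.k)))
    (band (band (Nat.blt 0 (get S.kd i)) (Nat.blt 0 (get S.kd j))) (band (uT tn z c)
      (imp S (rowOf S.par S.k 0 (Nat.lor (one i) (one j)) (Nat.add c 17) 0) d)))) 0

/-! ### references -/

noncomputable def eqL (l : List ℕ) : List ℕ → Bool :=
  List.rec (motive := fun _ => List ℕ → Bool)
    (fun m => List.rec (motive := fun _ => Bool) true (fun _ _ _ => false) m)
    (fun e _ ih m => List.rec (motive := fun _ => Bool) false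
      (fun f t _ => band (Nat.beq e f) (ih t)) m) l

noncomputable def eqR (r q : Rw) : Bool :=
  band (band (Nat.beq r.c1 q.c1) (Nat.beq r.c2 q.c2)) (band (eqL r.l1 q.l1) (eqL r.l2 q.l2))

structure Rf where
  sg : Bool
  S : NS
  l : ℕ

noncomputable def leafR (sg : Bool) (S : NS) (x : Rf) : ℕ :=
  grd (band (band (cnd sg x.sg (bnot x.sg)) (band (Nat.beq S.k x.S.k)
      (band (Nat.beq S.par x.S.par) (Nat.beq S.kd x.S.kd))))
    (band (allN (fun j => band (Nat.ble (get x.S.lo j) (get S.lo j))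
        (Nat.ble (get S.hi j) (get x.S.hi j))) S.k)
      (allL (fun q => anyL (fun r => eqR q r) S.rs) x.S.rs))) x.l

/-! ### opening -/

/-- new node `k` below `i` with box `[l, h]`; the rows `a k ≤ a i` and `∑ X ≤ ∑ X'` are added -/
noncomputable def opnS (S : NS) (i l h X X' : ℕ) (K : NS → ℕ) : ℕ :=
  force (mn h (Nat.shiftRight (Nat.succ (ahi S i)) 1)) fun h' =>
  grd (band (Nat.blt S.k 16) (band (Nat.blt l 16777216) (Nat.blt h' 16777216)))
    (force (Nat.succ S.k) fun k' =>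
     force (put S.par S.k i) fun par =>
     force (put (put S.kd i k') S.k 0) fun kd =>
     force (put S.lo S.k l) fun lo =>
     force (put S.hi S.k h') fun hi =>
     addRow par k' (one S.k) (one i) 0 0 S.rs fun rs =>
     cnd (Nat.beq X 0) (K ⟨k', par, kd, lo, hi, rs⟩)
       (addRow par k' X X' 0 0 rs fun rs' => K ⟨k', par, kd, lo, hi, rs'⟩))

abbrev Rec := Bool → NS → ℕ → ℕ

structure Env where
  tn : ℕ
  PL : BT PP
  PS : BT PD
  MN : ℕ → NS → ℕ
  RF : BT Rf
  XT : BT Rf → Rec → Rec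

/-- two children: the length of the first code is given by `16` bits -/
noncomputable def two (s : ℕ) (f g : ℕ → ℕ) : ℕ :=
  force (Nat.mod s 65536) fun n => force (Nat.shiftRight s 16) fun u =>
  force (force (Nat.mod u (one n)) f) fun a => Nat.add a (force (Nat.shiftRight u n) g)

noncomputable def spl (ih : Bool → NS → ℕ → ℕ) (sg : Bool) (S : NS) (j c s : ℕ) : ℕ :=
  grd (band (Nat.blt 0 j) (Nat.blt j S.k))
    (two s (fun u => force (put S.hi j c) fun hi => ih sg ⟨S.k, S.par, S.kd, S.lo, hi, S.rs⟩ u)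
      fun u => force (put S.lo j c) fun lo => ih sg ⟨S.k, S.par, S.kd, lo, S.hi, S.rs⟩ u)

noncomputable def spa (ih : Bool → NS → ℕ → ℕ) (sg : Bool) (S : NS) (X X' c1 c2 s : ℕ) : ℕ :=
  grd (band (band (Nat.beq (Nat.land X X') 0) (anyN (fun j => bor (bit X j) (bit X' j)) S.k))
      (band (bnot (Nat.beq c2 (Nat.add c1 1000000))) (bnot (Nat.beq c1 (Nat.add c2 1000000)))))
    (two s (fun u => addRow S.par S.k X X' c1 c2 S.rs fun rs =>
        ih sg ⟨S.k, S.par, S.kd, S.lo, S.hi, rs⟩ u)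
      fun u => addRow S.par S.k X' X c2 c1 S.rs fun rs =>
        ih sg ⟨S.k, S.par, S.kd, S.lo, S.hi, rs⟩ u)

noncomputable def down (ih : Bool → NS → ℕ → ℕ) (sg : Bool) (S : NS) (i ν s : ℕ) : ℕ :=
  force (get S.kd i) fun q =>
  grd (band (band (Nat.blt i S.k) (band (Nat.ble 20000 ν) (Nat.blt ν 1000000)))
      (band (allN (fun j => bnot (Nat.beq (get S.kd j) (Nat.succ i))) S.k)
        (cnd (Nat.beq q 0) (Nat.blt ν (alo S i))
          (cnd (Nat.ble q 16) (Nat.blt ν (alo S (Nat.pred q))) (Nat.ble ν q)))))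
    (two s (fun u => force (put S.kd i ν) fun kd =>
        addRow S.par S.k 0 (one i) ν 0 S.rs fun rs => ih sg ⟨S.k, S.par, kd, S.lo, S.hi, rs⟩ u)
      fun u => cnd (Nat.beq q 0) (opnS S i ν 1000000000 0 0 fun S' => ih (bnot sg) S' u)
        (cnd (Nat.ble q 16)
          (opnS S i ν (ahi S (Nat.pred q)) (one S.k) (one (Nat.pred q)) fun S' => ih (bnot sg) S' u)
          (opnS S i ν q 0 0 fun S' => ih (bnot sg) S' u)))

noncomputable def up (ih : Bool → NS → ℕ → ℕ) (sg : Bool) (S : NS) (i s : ℕ) : ℕ :=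
  force (get S.kd i) fun q =>
  grd (band (Nat.blt i S.k) (Nat.blt 0 q))
    (two s (fun u => force (put S.kd i 0) fun kd => ih sg ⟨S.k, S.par, kd, S.lo, S.hi, S.rs⟩ u)
      fun u => cnd (Nat.ble q 16)
        (opnS S i (alo S (Nat.pred q)) 1000000000 (one (Nat.pred q)) (one S.k) fun S' => ih sg S' u)
        (opnS S i q 1000000000 0 0 fun S' => ih sg S' u))

noncomputable def step (E : Env) (ih : Bool → NS → ℕ → ℕ) (sg : Bool) (S : NS) (s0 : ℕ) : ℕ :=
  force (Nat.mod s0 16) fun tag => force (Nat.shiftRight s0 4) fun s =>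
  cnd (Nat.blt tag 4)
    (cnd (Nat.blt tag 2)
      (cnd (Nat.beq tag 0)
        (force (Nat.mod s 16) fun j =>
          force (Nat.shiftRight (Nat.add (get S.lo j) (get S.hi j)) 1) fun c =>
          spl ih sg S j c (Nat.shiftRight s 4))
        (nrm S.rs S.lo S.hi fun lo hi rs => ih sg ⟨S.k, S.par, S.kd, lo, hi, rs⟩ s))
      (cnd (Nat.beq tag 2) (grd sg (E.MN s S))
        (leaf2 S (E.PL.find (Nat.mod s 65536)) (Nat.shiftRight s 16))))
    (cnd (Nat.blt tag 8)
      (cnd (Nat.blt tag 6)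
        (cnd (Nat.beq tag 4)
          (force (Nat.mod s 16) fun i => force (Nat.mod (Nat.shiftRight s 4) 1048576) fun ν =>
            down ih sg S i ν (Nat.shiftRight s 24))
          (force (Nat.mod s 16) fun i => up ih sg S i (Nat.shiftRight s 4)))
        (cnd (Nat.beq tag 6)
          (force (Nat.mod s 16) fun i => force (Nat.mod (Nat.shiftRight s 4) 16) fun j =>
            leafU E.tn S i j (Nat.shiftRight s 8))
          (force (Nat.mod s 16) fun i =>
            leafS S i (E.PS.find (Nat.mod (Nat.shiftRight s 4) 65536)) (Nat.shiftRight s 20))))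
      (cnd (Nat.blt tag 10)
        (cnd (Nat.beq tag 8)
          (force (Nat.mod s 16) fun j => force (Nat.mod (Nat.shiftRight s 4) 1048576) fun c =>
            spl ih sg S j c (Nat.shiftRight s 24))
          (force (Nat.mod s 65536) fun X => force (Nat.mod (Nat.shiftRight s 16) 65536) fun X' =>
            force (Nat.mod (Nat.shiftRight s 32) 1048576) fun c1 =>
            force (Nat.mod (Nat.shiftRight s 52) 1048576) fun c2 =>
            spa ih sg S X X' c1 c2 (Nat.shiftRight s 72)))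
        (cnd (Nat.beq tag 10) (leafR sg S (E.RF.find s))
          (cnd (Nat.beq tag 11) (grd (imp S ⟨1, [], 0, []⟩ s) 0)
            (cnd (Nat.beq tag 12) (grd (impW S ⟨1, [], 0, []⟩ s) 0) (E.XT E.RF ih sg S s0))))))

noncomputable def chk (E : Env) (fuel : ℕ) : Bool → NS → ℕ → ℕ :=
  Nat.rec (motive := fun _ => Bool → NS → ℕ → ℕ) (fun _ _ _ => INF) (fun _ ih => step E ih) fuel

def root : NS := ⟨1, 0, 0, 999999, 1000001, []⟩

/-- a list of claims with their codes -/
noncomputable def allC (E : Env) (l : List (Rf × ℕ)) : Bool :=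
  allL (fun x : Rf × ℕ => Nat.ble (chk E 400 x.1.sg x.1.S x.2) x.1.l) l

/-- further rules are sound -/
def XTok (t : ℝ) (XT : BT Rf → Rec → Rec) : Prop := ∀ (T : BT Rf) (ih : Rec),
  (T.All fun x => Val t x.sg x.S x.l) → (∀ sg S s, Val t sg S (ih sg S s)) →
  ∀ sg S s, Val t sg S (XT T ih sg S s)

/-- the hypotheses on the tables -/
structure Env.OK (E : Env) (t : ℝ) : Prop where
  pl : E.PL.All (PP.Good E.tn)
  ps : E.PS.All (PD.Hold E.tn)
  mn : MNok E.MN
  rf : E.RF.All fun x => Val t x.sg x.S x.l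
  xt : XTok t E.XT
  u1 : U1ok E.tn
  u2 : U2ok E.tn

end Pool.Agent.MP_c853c5_nt.X
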