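import Pool.Agent.MP_c853c5_nt.X.Defs

/-!
From products of blocks to a tame region.
-/

set_option autoImplicit false

open Finset Filter

namespace Pool.Agent.MP_c853c5_nt.X

open Pool.Agent.MP_c853c5_nt.S

lemma cells_Cut (T : Finset ℕ) (N : ℕ) : ∃ E : Finset (ℕ → ℕ), ∀ e, e ∈ E ↔
    (∀ j ∈ T, e j < N) ∧ ∀ j, j ∉ T → e j = 0 := by
  classical
  refine ⟨(T.pi fun _ => range N).image fun e j => if h : j ∈ T then e j h else 0, fun e => ?_⟩
  simp only [mem_image, Finset.mem_pi, mem_range]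
  constructor
  · rintro ⟨f, hf, rfl⟩
    exact ⟨fun j hj => by simp [hj, hf j hj], fun j hj => by simp [hj]⟩
  · rintro ⟨h1, h2⟩
    refine ⟨fun j _ => e j, fun j hj => h1 j hj, funext fun j => ?_⟩
    by_cases h : j ∈ T
    · exact dif_pos h
    · exact (dif_neg h).trans (h2 j h).symm

/-- the level of a block of the cell -/
noncomputable def lv_Cut (h s : ℝ) (e : ℕ → ℕ) (j : ℕ) : Kind → ℝ
  | .P => e j * h
  | .R c => c
  | .L l => (e l + s) * h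

/-- the blocks of a cell -/
noncomputable def bk_Cut (h s : ℝ) (kind : ℕ → Kind) (T : Finset ℕ) (e : ℕ → ℕ) (j : ℕ) : Blk :=
  if j ∈ T then ⟨e j * h, (e j + 1) * h, lv_Cut h s e j (kind j), none⟩
  else fr (lv_Cut h s e j (kind j))

/-- the point is compatible with the cell -/
def Cmp_Cut (k : ℕ) (T : Finset ℕ) (h : ℝ) (e : ℕ → ℕ) (a : Pt) : Prop :=
  |∑ j ∈ range k, a j - 1| ≤ h ∧ ∀ j ∈ T, e j * h ≤ a j ∧ a j ≤ (e j + 1) * h

lemma lt_iff_Cut {x y : ℝ} (hx : 1 < x) {m : ℕ} (hm : m ≠ 0) :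
    x ^ y < m ↔ y < Real.logb x m :=
  (Real.lt_logb_iff_rpow_lt hx (by exact_mod_cast Nat.pos_of_ne_zero hm)).symm

lemma le_iff_Cut {x y : ℝ} (hx : 1 < x) {m : ℕ} (hm : m ≠ 0) :
    (m : ℝ) ≤ x ^ y ↔ Real.logb x m ≤ y :=
  (Real.logb_le_iff_le_rpow hx (by exact_mod_cast Nat.pos_of_ne_zero hm)).symm

lemma mem_Cut {x h s : ℝ} (hx : 1 < x) {kind : ℕ → Kind} {T : Finset ℕ} {e : ℕ → ℕ} {j m : ℕ} :
    (bk_Cut h s kind T e j).Mem x m ↔ m ≠ 0 ∧
      (j ∈ T → e j * h < Real.logb x m ∧ Real.logb x m ≤ (e j + 1) * h) ∧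
      (j ∉ T → Real.logb x m ≤ 2) ∧ Rough x (lv_Cut h s e j (kind j)) m := by
  unfold bk_Cut
  by_cases hj : j ∈ T
  · rw [if_pos hj]
    refine and_congr_right fun hm => ?_
    simp only [lt_iff_Cut hx hm, le_iff_Cut hx hm, hj, Option.mem_def, reduceCtorEq, false_imp_iff,
      implies_true, and_true, true_imp_iff, not_true, true_and, and_assoc]
  · rw [if_neg hj, mem_fr hx]
    refine and_congr_right fun hm => ?_
    simp only [le_iff_Cut hx hm, hj, false_imp_iff, true_and, not_false_iff, true_imp_iff]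

lemma close_Cut {k i : ℕ} {T : Finset ℕ} (hT : ∀ j < k, j ≠ i → j ∈ T) {h : ℝ} (h0 : 0 ≤ h)
    {e : ℕ → ℕ} {a a' : Pt} (ha : Cmp_Cut k T h e a) (ha' : Cmp_Cut k T h e a') {j : ℕ}
    (hj : j < k) : |a j - a' j| ≤ (k + 2) * h := by
  have key : ∀ l ∈ T, |a l - a' l| ≤ h := fun l hl => by
    have := ha.2 l hl
    have := ha'.2 l hl
    rw [abs_le]
    constructor <;> linarith
  have hk : (0 : ℝ) ≤ k * h := by positivity
  by_cases c : j ∈ T
  · linarith [key j c]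
  · have hji : j = i := by_contra fun n => c (hT j hj n)
    have e1 := add_sum_erase (range k) a (mem_range.2 hj)
    have e2 := add_sum_erase (range k) a' (mem_range.2 hj)
    have e3 : |∑ l ∈ (range k).erase j, a l - ∑ l ∈ (range k).erase j, a' l| ≤ k * h := by
      rw [← sum_sub_distrib]
      refine (abs_sum_le_sum_abs _ _).trans ((sum_le_card_nsmul _ _ h fun l hl => key l
        (hT l (mem_range.1 (mem_of_mem_erase hl)) (hji ▸ ne_of_mem_erase hl))).trans ?_)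
      rw [nsmul_eq_mul]
      refine mul_le_mul_of_nonneg_right ?_ h0
      exact_mod_cast (card_erase_le).trans (card_range k).le
    have e4 := abs_le.1 ha.1
    have e5 := abs_le.1 ha'.1
    have e6 := abs_le.1 e3
    rw [abs_le]
    constructor <;> linarith

lemma sum_close_Cut {k : ℕ} {A : Finset ℕ} (hA : A ⊆ range k) {δ : ℝ} (h0 : 0 ≤ δ) {a a' : Pt}
    (h : ∀ j < k, |a j - a' j| ≤ δ) : |∑ j ∈ A, a j - ∑ j ∈ A, a' j| ≤ k * δ := by
  rw [← sum_sub_distrib]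
  refine (abs_sum_le_sum_abs _ _).trans ((sum_le_card_nsmul _ _ δ fun l hl =>
    h l (mem_range.1 (hA hl))).trans ?_)
  rw [nsmul_eq_mul]
  refine mul_le_mul_of_nonneg_right ?_ h0
  exact_mod_cast (card_le_card hA).trans (card_range k).le

lemma val_close_Cut {k : ℕ} {r : Row} (hr : r.Adm k) {δ : ℝ} (h0 : 0 ≤ δ) {a a' : Pt}
    (h : ∀ j < k, |a j - a' j| ≤ δ) : |r.val a - r.val a'| ≤ 2 * (k * δ) := by
  have h1 := abs_le.1 (sum_close_Cut hr.1 h0 h)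
  have h2 := abs_le.1 (sum_close_Cut hr.2.1 h0 h)
  unfold Row.val
  rw [abs_le]
  constructor <;> linarith

lemma win_Cut {h : ℝ} (h0 : 0 < h) : ∀ᶠ x : ℝ in atTop, 1 < x ∧ ∀ n : ℕ, Win x n →
    |Real.logb x n - 1| ≤ h := by
  filter_upwards [eventually_gt_atTop 1,
    (tendsto_rpow_atTop h0).eventually_ge_atTop 2] with x hx h2
  refine ⟨hx, fun n hn => ?_⟩
  have hx0 : 0 < x := by linarith
  have hn0 : (0 : ℝ) < n := by linarith [hn.1]
  rw [abs_le]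
  constructor
  · have : 1 - h ≤ Real.logb x n := by
      rw [Real.le_logb_iff_rpow_le hx hn0, Real.rpow_sub hx0, Real.rpow_one,
        div_le_iff₀ (by linarith)]
      nlinarith [hn.1]
    linarith
  · have : Real.logb x n ≤ 1 + h := by
      rw [Real.logb_le_iff_le_rpow hx hn0, Real.rpow_add hx0, Real.rpow_one]
      nlinarith [hn.2]
    linarith

lemma ne_zero_Cut {k n : ℕ} {μ : ℕ → ℕ} (h : μ ∈ tup k n) {j : ℕ} (hj : j < k) : μ j ≠ 0 := by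
  obtain ⟨h1, h2, -⟩ := mem_tup.1 h
  exact prod_ne_zero_iff.1 (h2 ▸ h1) j (mem_range.2 hj)

lemma sum_pt_Cut {k n : ℕ} {μ : ℕ → ℕ} (h : μ ∈ tup k n) (x : ℝ) :
    ∑ j ∈ range k, pt x μ j = Real.logb x n := by
  rw [← (mem_tup.1 h).2.1, Nat.cast_prod, Real.logb_prod _ _ fun j hj => by
    exact_mod_cast ne_zero_Cut h (mem_range.1 hj)]
  rfl

open Classical in
lemma count_Cut (h1 : PFStmt) {k : ℕ} (S : Finset (ℕ → ℕ)) (β : (ℕ → ℕ) → ℕ → Blk) (x : ℝ) (n : ℕ)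
    (hd : ∀ e ∈ S, ∀ e' ∈ S, ∀ μ : ℕ → ℕ, (∀ j < k, (β e j).Mem x (μ j)) →
      (∀ j < k, (β e' j).Mem x (μ j)) → e = e') :
    (∑ e ∈ S, PF k (β e) x) n =
      (((tup k n).filter fun μ => ∃ e ∈ S, ∀ j < k, (β e j).Mem x (μ j)).card : ℝ) := by
  rw [AF_sum, sum_congr rfl fun e _ => h1 k (β e) x n, ← Nat.cast_sum, ← card_biUnion]
  · congr 2
    ext μ
    simp only [mem_biUnion, mem_filter]
    exact ⟨fun ⟨e, a, b, c⟩ => ⟨b, e, a, c⟩, fun ⟨b, e, a, c⟩ => ⟨e, a, b, c⟩⟩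
  · intro e he e' he' hne
    refine disjoint_left.2 fun μ a b => hne ?_
    exact hd e he e' he' μ (mem_filter.1 a).2 (mem_filter.1 b).2

lemma sandwich_Cut {α : Type} (s : Finset α) (Pm P Pp : α → Prop) [DecidablePred Pm]
    [DecidablePred P] [DecidablePred Pp] {b : ℝ} (hb : 0 ≤ b) (h1 : ∀ μ ∈ s, Pm μ → P μ)
    (h2 : ∀ μ ∈ s, P μ → Pp μ) (h3 : ∀ μ ∈ s, Pp μ → ¬ Pm μ → (s.card : ℝ) ≤ b) :
    ((s.filter Pm).card : ℝ) ≤ (s.filter P).card ∧ ((s.filter P).card : ℝ) ≤ (s.filter Pp).card ∧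
      ((s.filter Pp).card : ℝ) ≤ (s.filter Pm).card + b := by
  refine ⟨Nat.cast_le.2 (card_le_card (monotone_filter_right _ h1)),
    Nat.cast_le.2 (card_le_card (monotone_filter_right _ h2)), ?_⟩
  by_cases c : ∃ μ ∈ s, Pp μ ∧ ¬ Pm μ
  · obtain ⟨μ, a1, a2, a3⟩ := c
    have : ((s.filter Pp).card : ℝ) ≤ s.card := Nat.cast_le.2 (card_filter_le _ _)
    linarith [h3 μ a1 a2 a3, Nat.cast_nonneg (α := ℝ) (s.filter Pm).card]
  · have : ((s.filter Pp).card : ℝ) ≤ (s.filter Pm).card :=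
      Nat.cast_le.2 (card_le_card (monotone_filter_right _ fun μ a1 a2 =>
        by_contra fun a3 => c ⟨μ, a1, a2, a3⟩))
    linarith

lemma ind_nonneg_Cut (P : ℕ → Prop) (n : ℕ) : 0 ≤ ind P n := by
  show (0 : ℝ) ≤ @ite _ _ (_) _ _
  split_ifs <;> norm_num

lemma ind_one_Cut {P : ℕ → Prop} {n : ℕ} (h0 : n ≠ 0) (h : P n) : ind P n = 1 := if_pos ⟨h0, h⟩

lemma ind_le_Cut {P : ℕ → Prop} {n : ℕ} {b : ℝ} (hb : 0 ≤ b) (h : n ≠ 0 → P n → 1 ≤ b) :
    ind P n ≤ b := by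
  by_cases c : n ≠ 0 ∧ P n
  · rw [ind_one_Cut c.1 c.2]
    exact h c.1 c.2
  · exact (if_neg c).trans_le hb

/-- near one of the rows -/
def Near_Cut (k : ℕ) (R : List Row) (h x : ℝ) (n : ℕ) : Prop :=
  ∃ r ∈ R, ∃ μ ∈ tup k n, (∀ j < k, 1 < μ j ∧ Rough x (1 / 100) (μ j)) ∧
    |r.val (pt x μ) - r.e| ≤ h

lemma rows_Cut (h4 : RowStmt) {k : ℕ} (R : List Row) (hR : ∀ r ∈ R, r.Adm k) :
    ∀ ε : ℝ, 0 < ε → ∃ h : ℝ, 0 < h ∧ Mass (fun x => ind (Near_Cut k R h x)) ε := by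
  induction R with
  | nil =>
    refine fun ε hε => ⟨1, one_pos, (mass_zero.of_le (Eventually.of_forall fun x n _ => ?_)).mono
      hε.le⟩
    exact ind_le_Cut le_rfl fun _ ⟨r, hr, _⟩ => absurd hr List.not_mem_nil
  | cons r R ih =>
    intro ε hε
    obtain ⟨a, a0, ha⟩ := h4 k r (hR r List.mem_cons_self) _ (half_pos hε)
    obtain ⟨b, b0, hb⟩ := ih (fun r hr => hR r (List.mem_cons_of_mem _ hr)) _ (half_pos hε)
    refine ⟨min a b, lt_min a0 b0, ((ha.add hb).of_le (Eventually.of_forall fun x n _ => ?_)).mono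
      (add_halves ε).le⟩
    rw [ArithmeticFunction.add_apply]
    refine ind_le_Cut (add_nonneg (ind_nonneg_Cut _ _) (ind_nonneg_Cut _ _)) ?_
    rintro hn ⟨r', hr', μ, c1, c2, c3⟩
    rcases List.mem_cons.1 hr' with rfl | hr'
    · rw [ind_one_Cut hn ⟨μ, c1, c2, c3.trans (min_le_left _ _)⟩]
      exact le_add_of_nonneg_right (ind_nonneg_Cut _ _)
    · rw [ind_one_Cut (P := Near_Cut k R b x) hn ⟨r', hr', μ, c1, c2, c3.trans (min_le_right _ _)⟩]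
      exact le_add_of_nonneg_left (ind_nonneg_Cut _ _)

/-- the standing assumptions -/
structure Ctx_Cut (k i : ℕ) (kind : ℕ → Kind) (T : Finset ℕ) (Q : Pt → Prop) (h : ℝ) : Prop where
  kv : KV k kind
  sub : T ⊆ range k
  all : ∀ j < k, j ≠ i → j ∈ T
  np : i ∉ T → kind i ≠ .P
  big : ∀ a, Q a → ∀ j < k, 1 / 50 ≤ a j
  pos : 0 < h
  le_un : h ≤ un
  small : (k + 2) * h ≤ 1 / 100

section

variable {k i : ℕ} {kind : ℕ → Kind} {T : Finset ℕ} {Q : Pt → Prop} {h s t x : ℝ} {e : ℕ → ℕ}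
  {a : Pt} {n : ℕ} {μ : ℕ → ℕ}

lemma Ctx_Cut.inT (c : Ctx_Cut k i kind T Q h) {j : ℕ} (hj : j < k) (hk : kind j = .P) : j ∈ T := by
  by_contra hT
  have e : j = i := by_contra fun n => hT (c.all j hj n)
  subst e
  exact c.np hT hk

lemma Ctx_Cut.link (c : Ctx_Cut k i kind T Q h) {j l : ℕ} (hj : j < k) (hk : kind j = .L l) :
    l ∈ T := c.inT ((c.kv j hj).2 l hk).1 ((c.kv j hj).2 l hk).2

lemma Ctx_Cut.tiny (c : Ctx_Cut k i kind T Q h) : h ≤ 1 / 100 :=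
  c.le_un.trans (by norm_num [un])

lemma Ctx_Cut.lo (c : Ctx_Cut k i kind T Q h) (hq : Q a) (ha : Cmp_Cut k T h e a) {j : ℕ}
    (hj : j ∈ T) : 1 / 100 ≤ e j * h := by
  linarith [c.big a hq j (mem_range.1 (c.sub hj)), (ha.2 j hj).2, c.tiny]

lemma Ctx_Cut.lv (c : Ctx_Cut k i kind T Q h) (hq : Q a) (ha : Cmp_Cut k T h e a) (hs : 0 ≤ s)
    {j : ℕ} (hj : j < k) : 1 / 100 ≤ lv_Cut h s e j (kind j) := by
  cases hk : kind j with
  | P => exact c.lo hq ha (c.inT hj hk)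
  | R b => exact le_trans (by norm_num) ((c.kv j hj).1 b hk).1
  | L l =>
    have := c.lo hq ha (c.link hj hk)
    have := mul_nonneg hs c.pos.le
    show 1 / 100 ≤ (e l + s) * h
    linarith

lemma Ctx_Cut.isP (c : Ctx_Cut k i kind T Q h) (hq : Q a) (ha : Cmp_Cut k T h e a) {j : ℕ}
    (hj : j ∈ T) (hk : kind j = .P) : (bk_Cut h s kind T e j).IsP := by
  have h1 := c.lo hq ha hj
  unfold bk_Cut
  rw [if_pos hj, hk]
  refine ⟨le_trans (by norm_num) h1, ?_, rfl⟩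
  show (e j + 1) * h ≤ 2 * (e j * h)
  linarith [c.tiny]

lemma Ctx_Cut.ev (c : Ctx_Cut k i kind T Q h)
    (hyp : ∀ (β : ℕ → Blk) (a : Pt), Q a → |∑ j ∈ range k, a j - 1| ≤ un →
      (∀ j ∈ T, Cl (kind j) (a j) (β j)) →
      (∀ j < k, j ∉ T → ∃ z, β j = fr z ∧ 0 < z ∧ (kind j).lev a z) → Ev t (PF k β))
    (hq : Q a) (ha : Cmp_Cut k T h e a) (hs : 0 ≤ s) (hs1 : s ≤ 1) :
    Ev t (PF k (bk_Cut h s kind T e)) := by
  refine hyp _ a hq (ha.1.trans c.le_un) (fun j hj => ?_) fun j hj hT =>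
    ⟨_, if_neg hT, lt_of_lt_of_le (by norm_num) (c.lv hq ha hs hj), ?_⟩
  · have h1 := c.isP (s := s) hq ha hj
    have h2 := c.lv hq ha hs (mem_range.1 (c.sub hj))
    have h3 := ha.2 j hj
    have h4 := c.le_un
    unfold bk_Cut at h1 ⊢
    rw [if_pos hj] at h1 ⊢
    refine ⟨?_, ?_, h2, h1⟩
    · show a j - un ≤ e j * h
      linarith
    · show (e j + 1) * h ≤ a j + un
      linarith
  · cases hk : kind j with
    | P => exact hT (c.inT hj hk)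
    | R b => exact le_rfl
    | L l =>
      have := (ha.2 l (c.link hj hk)).1
      have := mul_le_mul_of_nonneg_right hs1 c.pos.le
      show (e l + s) * h ≤ a l + un
      linarith [c.le_un]

lemma Ctx_Cut.cmp (c : Ctx_Cut k i kind T Q h) (hx : 1 < x) (hμ : μ ∈ tup k n)
    (hn : |Real.logb x n - 1| ≤ h) (hm : ∀ j < k, (bk_Cut h s kind T e j).Mem x (μ j)) :
    Cmp_Cut k T h e (pt x μ) := by
  refine ⟨by rwa [sum_pt_Cut hμ], fun j hj => ?_⟩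
  have := ((mem_Cut hx).1 (hm j (mem_range.1 (c.sub hj)))).2.1 hj
  exact ⟨this.1.le, this.2⟩

lemma Ctx_Cut.ok (c : Ctx_Cut k i kind T Q h) (hx : 1 < x) (hq : Q a) (ha : Cmp_Cut k T h e a)
    (hm : ∀ j < k, (bk_Cut h 1 kind T e j).Mem x (μ j)) {j : ℕ} (hj : j < k) :
    (kind j).ok x μ j := by
  have h1 := ((mem_Cut hx).1 (hm j hj)).2.2.2
  cases hk : kind j with
  | P => exact (((c.isP hq ha (c.inT hj hk) hk).mem_iff hx.le).1 (hm j hj)).1
  | R b => rwa [hk] at h1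
  | L l =>
    rw [hk] at h1
    intro p hp hd
    have h2 := (mem_Cut hx).1 (hm l ((c.kv j hj).2 l hk).1)
    have h3 := (le_iff_Cut hx h2.1).2 (h2.2.1 (c.link hj hk)).2
    exact_mod_cast (h3.trans_lt (h1 p hp hd)).le

lemma Ctx_Cut.up (c : Ctx_Cut k i kind T Q h) (hx : 1 < x) (hμ : μ ∈ tup k n)
    (hn : |Real.logb x n - 1| ≤ h) (hq : Q (pt x μ)) (ho : ∀ j < k, (kind j).ok x μ j) :
    ∃ e : ℕ → ℕ, ((∀ j ∈ T, e j < ⌈2 / h⌉₊) ∧ ∀ j, j ∉ T → e j = 0) ∧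
      ∀ j < k, (bk_Cut h 0 kind T e j).Mem x (μ j) := by
  have h0 := c.pos
  have h1 := c.big _ hq
  have h2 : ∀ j < k, pt x μ j ≤ 2 := fun j hj => by
    have := single_le_sum (f := pt x μ) (s := range k)
      (fun l hl => le_trans (by norm_num) (h1 l (mem_range.1 hl))) (mem_range.2 hj)
    rw [sum_pt_Cut hμ] at this
    linarith [(abs_le.1 hn).2, c.tiny]
  have h3 : ∀ j < k, 1 ≤ ⌈pt x μ j / h⌉₊ := fun j hj =>
    Nat.ceil_pos.2 (div_pos (lt_of_lt_of_le (by norm_num) (h1 j hj)) h0)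
  obtain ⟨e, he, he'⟩ : ∃ e : ℕ → ℕ, (∀ j ∈ T, e j + 1 = ⌈pt x μ j / h⌉₊) ∧
      ∀ j, j ∉ T → e j = 0 :=
    ⟨fun j => if j ∈ T then ⌈pt x μ j / h⌉₊ - 1 else 0, fun j hj => by
      beta_reduce
      rw [if_pos hj, Nat.sub_add_cancel (h3 j (mem_range.1 (c.sub hj)))], fun j hj => if_neg hj⟩
  have h4 : ∀ j ∈ T, e j * h < pt x μ j ∧ pt x μ j ≤ (e j + 1) * h := fun j hj => by
    have a1 := Nat.le_ceil (pt x μ j / h)
    have a2 := Nat.ceil_lt_add_one (div_nonneg (le_trans (by norm_num)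
      (h1 j (mem_range.1 (c.sub hj)))) h0.le)
    rw [← he j hj, Nat.cast_add, Nat.cast_one] at a1 a2
    exact ⟨(lt_div_iff₀ h0).1 (by linarith), (div_le_iff₀ h0).1 a1⟩
  refine ⟨e, ⟨fun j hj => ?_, he'⟩, fun j hj => (mem_Cut hx).2
    ⟨ne_zero_Cut hμ hj, h4 j, fun _ => h2 j hj, ?_⟩⟩
  · have := Nat.ceil_mono (div_le_div_of_nonneg_right (h2 j (mem_range.1 (c.sub hj))) h0.le)
    have := he j hj
    omega
  · have a1 := ho j hj
    cases hk : kind j with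
    | P =>
      rw [hk] at a1
      exact (rough_prime a1).2 ((lt_iff_Cut hx (ne_zero_Cut hμ hj)).2 (h4 j (c.inT hj hk)).1)
    | R b => rwa [hk] at a1
    | L l =>
      rw [hk] at a1
      intro p hp hd
      have a2 := (lt_iff_Cut hx (ne_zero_Cut hμ ((c.kv j hj).2 l hk).1)).2 (h4 l (c.link hj hk)).1
      show x ^ (((e l : ℝ) + 0) * h) < p
      rw [add_zero]
      exact a2.trans_le (by exact_mod_cast a1 p hp hd)

lemma Ctx_Cut.uniq (c : Ctx_Cut k i kind T Q h) (hx : 1 < x) {e' : ℕ → ℕ}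
    (h1 : ∀ j, j ∉ T → e j = 0) (h2 : ∀ j, j ∉ T → e' j = 0)
    (hm : ∀ j < k, (bk_Cut h s kind T e j).Mem x (μ j))
    (hm' : ∀ j < k, (bk_Cut h s kind T e' j).Mem x (μ j)) : e = e' := by
  funext j
  by_cases hj : j ∈ T
  · have a1 := ((mem_Cut hx).1 (hm j (mem_range.1 (c.sub hj)))).2.1 hj
    have a2 := ((mem_Cut hx).1 (hm' j (mem_range.1 (c.sub hj)))).2.1 hj
    have a3 : e j < e' j + 1 := by
      exact_mod_cast lt_of_mul_lt_mul_right (a1.1.trans_le a2.2) c.pos.le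
    have a4 : e' j < e j + 1 := by
      exact_mod_cast lt_of_mul_lt_mul_right (a2.1.trans_le a1.2) c.pos.le
    omega
  · rw [h1 j hj, h2 j hj]

lemma Ctx_Cut.rough (c : Ctx_Cut k i kind T Q h) (hx : 1 < x) (hμ : μ ∈ tup k n)
    (hn : |Real.logb x n - 1| ≤ h) (hq : Q a) (ha : Cmp_Cut k T h e a)
    (hm : ∀ j < k, (bk_Cut h 0 kind T e j).Mem x (μ j)) :
    (∀ j < k, 1 < μ j ∧ Rough x (1 / 100) (μ j)) ∧ Rough x (1 / 100) n := by
  have h1 : ∀ j < k, Rough x (1 / 100) (μ j) := fun j hj =>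
    ((mem_Cut hx).1 (hm j hj)).2.2.2.anti hx.le (c.lv hq ha le_rfl hj)
  refine ⟨fun j hj => ⟨?_, h1 j hj⟩, fun p hp hd => ?_⟩
  · have a1 := abs_le.1 (close_Cut c.all c.pos.le ha (c.cmp hx hμ hn hm) hj)
    have a2 : x ^ (0 : ℝ) < μ j := (lt_iff_Cut hx (ne_zero_Cut hμ hj)).2 (by
      show 0 < pt x μ j
      linarith [c.big a hq j hj, c.small])
    rw [Real.rpow_zero] at a2
    exact_mod_cast a2
  · rw [← (mem_tup.1 hμ).2.1] at hd
    obtain ⟨j, hj, hd⟩ := (Prime.dvd_finsetProd_iff hp.prime _).1 hd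
    exact h1 j (mem_range.1 hj) p hp hd

lemma Ctx_Cut.bad (c : Ctx_Cut k i kind T Q h) (hx : 1 < x) (hμ : μ ∈ tup k n)
    (h1 : ∀ j < k, 1 < μ j) (hm : ∀ j < k, (bk_Cut h 0 kind T e j).Mem x (μ j)) {j : ℕ}
    (hj : j < k) (hm' : ¬ (bk_Cut h 1 kind T e j).Mem x (μ j)) :
    ∃ a b c : ℕ, n = a * b * c ∧ 1 < a ∧ 1 < b * c ∧
      |Real.logb x a - Real.logb x b - 0| ≤ h := by
  have a1 := (mem_Cut hx).1 (hm j hj)
  have a2 : ¬ Rough x (lv_Cut h 1 e j (kind j)) (μ j) := fun r =>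
    hm' ((mem_Cut hx).2 ⟨a1.1, a1.2.1, a1.2.2.1, r⟩)
  have a3 := a1.2.2.2
  cases hk : kind j with
  | P => exact absurd (by rw [hk] at a3 ⊢; exact a3) a2
  | R b => exact absurd (by rw [hk] at a3 ⊢; exact a3) a2
  | L l =>
    rw [hk] at a2 a3
    obtain ⟨hl, hP⟩ := (c.kv j hj).2 l hk
    have hne : l ≠ j := fun e => by
      rw [e, hk] at hP
      cases hP
    unfold Rough at a2
    push Not at a2
    obtain ⟨p, hp, hd, hle⟩ := a2
    have b1 : ((e l : ℝ) + 0) * h < Real.logb x p := (lt_iff_Cut hx hp.ne_zero).1 (a3 p hp hd)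
    have b2 : Real.logb x p ≤ ((e l : ℝ) + 1) * h := (le_iff_Cut hx hp.ne_zero).1 hle
    have b3 := ((mem_Cut hx).1 (hm l hl)).2.1 (c.link hj hk)
    have b4 : μ l * μ j ∣ n := by
      rw [← (mem_tup.1 hμ).2.1, ← prod_pair hne]
      exact prod_dvd_prod_of_subset _ _ _
        (insert_subset (mem_range.2 hl) (singleton_subset_iff.2 (mem_range.2 hj)))
    obtain ⟨w, hw⟩ := (mul_dvd_mul_left (μ l) hd).trans b4
    have w0 : w ≠ 0 := fun e => (mem_tup.1 hμ).1 (by rw [hw, e, mul_zero])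
    refine ⟨μ l, p, w, hw, h1 l hl,
      hp.one_lt.trans_le (Nat.le_mul_of_pos_right _ (Nat.pos_of_ne_zero w0)), ?_⟩
    rw [abs_le]
    constructor <;> linarith [b3.1, b3.2]

lemma Ctx_Cut.near (c : Ctx_Cut k i kind T Q h) {r : Row} (hr : r.Adm k) {a' a'' : Pt}
    (ha : Cmp_Cut k T h e a) (ha' : Cmp_Cut k T h e a') (ha'' : Cmp_Cut k T h e a'')
    (hn : ¬ r.Same a' a'') : |r.val a - r.e| ≤ 2 * (k * ((k + 2) * h)) := by
  have h0 : (0 : ℝ) ≤ (k + 2) * h := by have := c.pos; positivity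
  have h1 := abs_le.1 (val_close_Cut hr h0 fun j hj => close_Cut c.all c.pos.le ha ha' hj)
  have h2 := abs_le.1 (val_close_Cut hr h0 fun j hj => close_Cut c.all c.pos.le ha ha'' hj)
  unfold Row.Same at hn
  rw [abs_le]
  constructor
  · by_contra k1
    exact hn (Or.inl ⟨by linarith, by linarith⟩)
  · by_contra k1
    exact hn (Or.inr ⟨by linarith, by linarith⟩)

end

theorem xCut (h1 : PFStmt) (h2 : CntStmt) (h3 : BadStmt) (h4 : RowStmt) : CutStmt := by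
  classical
  intro t k i kind T Q _ hkv hsub hall hnp ⟨R, hR, hRQ⟩ hbig hyp
  obtain ⟨C, hC, hcnt⟩ := h2 k
  suffices key : ∀ δ : ℝ, 0 < δ → Low t (SF k kind Q) (0 + δ) ∧ Up t (SF k kind Q) (0 + δ) from
    ⟨Low.of_forall fun δ hδ => (key δ hδ).1, Up.of_forall fun δ hδ => (key δ hδ).2⟩
  intro δ hδ
  obtain ⟨a, a0, ha⟩ := rows_Cut h4 R hR (δ / (2 * C)) (by positivity)
  obtain ⟨b, b0, hb⟩ := h3 0 (δ / (2 * C)) (by positivity)
  have hM := (ha.add hb).smul hC.le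
  rw [show C * (δ / (2 * C) + δ / (2 * C)) = δ by field_simp; norm_num] at hM
  obtain ⟨h, h0, hh1, hh2, hh3, hh4⟩ : ∃ h : ℝ, 0 < h ∧ h ≤ un ∧ h ≤ b ∧ (k + 2) * h ≤ 1 / 100 ∧
      2 * (k * ((k + 2) * h)) ≤ a := by
    have e1 : ∀ u v : ℝ, 0 < v → ∀ᶠ h in nhdsWithin (0 : ℝ) (Set.Ioi 0), u * h ≤ v :=
      fun u v hv => nhdsWithin_le_nhds
        (((continuous_const.mul continuous_id).tendsto' 0 0 (by simp)).eventually_le_const hv)
    obtain ⟨h, c0, c1, c2, c3, c4⟩ := (eventually_mem_nhdsWithin.and ((e1 1 un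
      (by norm_num [un])).and ((e1 1 b b0).and ((e1 (k + 2) (1 / 100) (by norm_num)).and
      (e1 (2 * (k * (k + 2))) a a0))))).exists
    exact ⟨h, c0, by linarith, by linarith, c3, by linarith⟩
  have c : Ctx_Cut k i kind T Q h := ⟨hkv, hsub, hall, hnp, hbig, h0, hh1, hh3⟩
  obtain ⟨E, hE⟩ := cells_Cut T ⌈2 / h⌉₊
  obtain ⟨Sp, hSp⟩ : ∃ S : Finset (ℕ → ℕ), ∀ e, e ∈ S ↔ e ∈ E ∧ ∃ a, Q a ∧ Cmp_Cut k T h e a :=
    ⟨E.filter _, fun _ => mem_filter⟩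
  obtain ⟨Sm, hSm⟩ : ∃ S : Finset (ℕ → ℕ), ∀ e, e ∈ S ↔ e ∈ Sp ∧ ∀ a, Cmp_Cut k T h e a → Q a :=
    ⟨Sp.filter _, fun _ => mem_filter⟩
  have hm : Low t (fun x => ∑ e ∈ Sm, PF k (bk_Cut h 1 kind T e) x) 0 := by
    have := Low.sum (t := t) Sm (F := fun e => PF k (bk_Cut h 1 kind T e)) (L := fun _ => 0)
      fun e he => by
        obtain ⟨-, a, q1, q2⟩ := (hSp e).1 ((hSm e).1 he).1
        exact (c.ev hyp q1 q2 zero_le_one le_rfl).1
    rwa [sum_const_zero] at this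
  have hp : Up t (fun x => ∑ e ∈ Sp, PF k (bk_Cut h 0 kind T e) x) 0 := by
    have := Up.sum (t := t) Sp (F := fun e => PF k (bk_Cut h 0 kind T e)) (L := fun _ => 0)
      fun e he => by
        obtain ⟨-, a, q1, q2⟩ := (hSp e).1 he
        exact (c.ev hyp q1 q2 le_rfl zero_le_one).2
    rwa [sum_const_zero] at this
  have z : ∀ e ∈ Sp, ∀ j, j ∉ T → e j = 0 := fun e he => ((hE e).1 ((hSp e).1 he).1).2
  have main : ∀ᶠ x : ℝ in atTop, ∀ n, Win x n →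
      (∑ e ∈ Sm, PF k (bk_Cut h 1 kind T e) x) n ≤ SF k kind Q x n ∧
      SF k kind Q x n ≤ (∑ e ∈ Sp, PF k (bk_Cut h 0 kind T e) x) n ∧
      (∑ e ∈ Sp, PF k (bk_Cut h 0 kind T e) x) n ≤ (∑ e ∈ Sm, PF k (bk_Cut h 1 kind T e) x) n +
        (C • (ind (Near_Cut k R a x) + ind fun n => Rough x (1 / 100) n ∧ ∃ a b' c : ℕ,
          n = a * b' * c ∧ 1 < a ∧ 1 < b' * c ∧ |Real.logb x a - Real.logb x b' - 0| ≤ b)) n := by
    filter_upwards [win_Cut h0, hcnt] with x hw hc n hn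
    obtain ⟨hx, hw⟩ := hw
    rw [count_Cut h1 Sm _ x n fun e he e' he' μ =>
        c.uniq hx (z e ((hSm e).1 he).1) (z e' ((hSm e').1 he').1),
      count_Cut h1 Sp _ x n fun e he e' he' μ => c.uniq hx (z e he) (z e' he'), AF_smul,
      ArithmeticFunction.add_apply]
    refine sandwich_Cut (tup k n) _ _ _
      (mul_nonneg hC.le (add_nonneg (ind_nonneg_Cut _ _) (ind_nonneg_Cut _ _))) ?_ ?_ ?_
    · rintro μ hμ ⟨e, he, hm⟩
      obtain ⟨q1, q2⟩ := (hSm e).1 he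
      have q3 := c.cmp hx hμ (hw n hn) hm
      exact ⟨q2 _ q3, fun j hj => c.ok hx (q2 _ q3) q3 hm hj⟩
    · rintro μ hμ ⟨q1, q2⟩
      obtain ⟨e, he, hm⟩ := c.up hx hμ (hw n hn) q1 q2
      exact ⟨e, (hSp e).2 ⟨(hE e).2 he, _, q1, c.cmp hx hμ (hw n hn) hm⟩, hm⟩
    · rintro μ hμ ⟨e, he, hm⟩ hno
      obtain ⟨-, a1, q1, q2⟩ := (hSp e).1 he
      obtain ⟨r1, r2⟩ := c.rough hx hμ (hw n hn) q1 q2 hm
      have n0 := (mem_tup.1 hμ).1
      refine (hc n hn.2 r2).trans (le_mul_of_one_le_right hC.le ?_)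
      by_cases q : ∀ a, Cmp_Cut k T h e a → Q a
      · have q3 : ¬ ∀ j < k, (bk_Cut h 1 kind T e j).Mem x (μ j) := fun q3 =>
          hno ⟨e, (hSm e).2 ⟨he, q⟩, q3⟩
        push Not at q3
        obtain ⟨j, hj, q3⟩ := q3
        obtain ⟨u, v, w, s1, s2, s3, s4⟩ := c.bad hx hμ (fun j hj => (r1 j hj).1) hm hj q3
        refine le_add_of_nonneg_of_le (ind_nonneg_Cut _ _) (ind_one_Cut n0 ?_).ge
        exact ⟨r2, u, v, w, s1, s2, s3, s4.trans hh2⟩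
      · push Not at q
        obtain ⟨a2, q3, q4⟩ := q
        have q5 : ¬ ∀ r ∈ R, r.Same a1 a2 := fun q5 => q4 (hRQ a1 a2 q5 q1)
        push Not at q5
        obtain ⟨r, hr, q5⟩ := q5
        refine le_add_of_le_of_nonneg (ind_one_Cut n0 ?_).ge (ind_nonneg_Cut _ _)
        exact ⟨r, hr, μ, hμ, r1,
          (c.near (hR r hr) (c.cmp hx hμ (hw n hn) hm) q2 q3 q5).trans hh4⟩
  exact ⟨hm.of_le hM (main.mono fun x hx n hn =>
      ⟨(hx n hn).1, (hx n hn).2.1.trans (hx n hn).2.2⟩),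
    hp.of_le hM (main.mono fun x hx n hn =>
      ⟨(hx n hn).2.1, (hx n hn).2.2.trans (add_le_add (hx n hn).1 le_rfl)⟩)⟩

end Pool.Agent.MP_c853c5_nt.X
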