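import Pool.Agent.MP_c853c5_nt.X.Defs

/-!
From products of blocks to a tame region.
-/

set_option autoImplicit false

open Finset Filter

namespace Pool.Agent.MP_c853c5_nt.X

open Pool.Agent.MP_c853c5_nt.S

/-- near a hyperplane -/
def slabB (k : ℕ) (r : Row) (h x : ℝ) (n : ℕ) : Prop :=
  ∃ μ ∈ tup k n, (∀ j < k, 1 < μ j ∧ Rough x (1 / 100) (μ j)) ∧ |r.val (pt x μ) - r.e| ≤ h

/-- two close divisors -/
def badB (h x : ℝ) (n : ℕ) : Prop :=
  Rough x (1 / 100) n ∧ ∃ a b c : ℕ, n = a * b * c ∧ 1 < a ∧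
    1 < b * c ∧ |Real.logb x a - Real.logb x b - 0| ≤ h

lemma ind_nonneg_CutB (P : ℕ → Prop) (n : ℕ) : 0 ≤ ind P n := by
  simp only [ind, ArithmeticFunction.coe_mk]
  split_ifs <;> norm_num

lemma ind_eq_CutB {P : ℕ → Prop} {n : ℕ} (h0 : n ≠ 0) (h : P n) : ind P n = 1 := if_pos ⟨h0, h⟩

lemma ind_le_CutB {P Q R : ℕ → Prop} {n : ℕ} (h : P n → Q n ∨ R n) :
    ind P n ≤ ind Q n + ind R n := by
  by_cases h1 : n ≠ 0 ∧ P n
  · rw [ind_eq_CutB h1.1 h1.2]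
    rcases h h1.2 with h2 | h2
    · rw [ind_eq_CutB h1.1 h2]
      linarith [ind_nonneg_CutB R n]
    · rw [ind_eq_CutB h1.1 h2]
      linarith [ind_nonneg_CutB Q n]
  · have : ind P n = 0 := if_neg h1
    rw [this]
    exact add_nonneg (ind_nonneg_CutB _ _) (ind_nonneg_CutB _ _)

lemma mass_CutB (h3 : BadStmt) (h4 : RowStmt) (k : ℕ) (R : List Row) (hR : ∀ r ∈ R, r.Adm k) :
    ∀ ε : ℝ, 0 < ε → ∃ h : ℝ, 0 < h ∧
      Mass (fun x => ind fun n => badB h x n ∨ ∃ r ∈ R, slabB k r h x n) ε := by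
  induction R with
  | nil =>
    intro ε hε
    obtain ⟨h, h0, hm⟩ := h3 0 ε hε
    refine ⟨h, h0, hm.of_le (Eventually.of_forall fun x n _ => le_of_eq ?_)⟩
    simp [badB]
  | cons r R ih =>
    intro ε hε
    obtain ⟨h, h0, hm⟩ := ih (fun r' hr => hR r' (List.mem_cons_of_mem _ hr)) _ (half_pos hε)
    obtain ⟨h', h0', hm'⟩ := h4 k r (hR r List.mem_cons_self) _ (half_pos hε)
    refine ⟨min h h', lt_min h0 h0', ?_⟩
    have := hm.add hm'
    rw [add_halves] at this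
    refine this.of_le (Eventually.of_forall fun x n _ => ?_)
    rw [ArithmeticFunction.add_apply]
    refine ind_le_CutB ?_
    rintro (⟨h5, a, b, c, h6, h7, h8, h9⟩ | ⟨r', hr', μ, h5, h6, h7⟩)
    · exact Or.inl (Or.inl ⟨h5, a, b, c, h6, h7, h8, h9.trans (min_le_left _ _)⟩)
    · rcases List.mem_cons.1 hr' with rfl | hr'
      · exact Or.inr ⟨μ, h5, h6, h7.trans (min_le_right _ _)⟩
      · exact Or.inl (Or.inr ⟨r', hr', μ, h5, h6, h7.trans (min_le_left _ _)⟩)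

lemma cells_CutB (T : Finset ℕ) (N : ℕ) : ∃ E : Finset (ℕ → ℕ), ∀ e,
    e ∈ E ↔ (∀ j ∈ T, e j < N) ∧ ∀ j, j ∉ T → e j = 0 := by
  classical
  refine ⟨(Fintype.piFinset fun _ : T => range N).image
    fun g j => if h : j ∈ T then g ⟨j, h⟩ else 0, fun e => ?_⟩
  simp only [mem_image, Fintype.mem_piFinset, mem_range]
  constructor
  · rintro ⟨g, hg, rfl⟩
    exact ⟨fun j hj => (dif_pos hj).trans_lt (hg _), fun j hj => dif_neg hj⟩
  · rintro ⟨h1, h2⟩
    refine ⟨fun j => e j, fun j => h1 j j.2, funext fun j => ?_⟩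
    by_cases hj : j ∈ T
    · exact dif_pos hj
    · exact (dif_neg hj).trans (h2 j hj).symm

/-- the point lies over the cell -/
def cmpB (k : ℕ) (T : Finset ℕ) (h : ℝ) (e : ℕ → ℕ) (a : Pt) : Prop :=
  |∑ j ∈ range k, a j - 1| ≤ h ∧ ∀ j ∈ T, (e j : ℝ) * h ≤ a j ∧ a j ≤ (e j + 1 : ℝ) * h

lemma near_CutB {k i : ℕ} {T : Finset ℕ} {h : ℝ} {e : ℕ → ℕ} {a a' : Pt} (h0 : 0 ≤ h)
    (hT : ∀ j < k, j ≠ i → j ∈ T) (ha : cmpB k T h e a) (ha' : cmpB k T h e a') {j : ℕ}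
    (hj : j < k) : |a j - a' j| ≤ (k + 2 : ℝ) * h := by
  have hk : (0 : ℝ) ≤ k * h := by positivity
  have h1 : ∀ l ∈ T, |a l - a' l| ≤ h := fun l hl => by
    rw [abs_le]
    constructor <;> linarith [(ha.2 l hl).1, (ha.2 l hl).2, (ha'.2 l hl).1, (ha'.2 l hl).2]
  by_cases hjT : j ∈ T
  · linarith [h1 j hjT]
  have hji : j = i := by
    by_contra hne
    exact hjT (hT j hj hne)
  have h2 : |∑ l ∈ (range k).erase j, (a l - a' l)| ≤ k * h := by
    refine (abs_sum_le_sum_abs _ _).trans ((sum_le_card_nsmul _ _ h fun l hl => ?_).trans ?_)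
    · exact h1 l (hT l (mem_range.1 (mem_of_mem_erase hl)) (hji ▸ ne_of_mem_erase hl))
    · rw [nsmul_eq_mul]
      refine mul_le_mul_of_nonneg_right ?_ h0
      exact_mod_cast (card_erase_le.trans (card_range k).le)
  have h3 := add_sum_erase (range k) a (mem_range.2 hj)
  have h4 := add_sum_erase (range k) a' (mem_range.2 hj)
  rw [sum_sub_distrib] at h2
  have h5 := abs_le.1 ha.1
  have h6 := abs_le.1 ha'.1
  have h7 := abs_le.1 h2
  rw [abs_le]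
  constructor <;> linarith [h5.1, h5.2, h6.1, h6.2, h7.1, h7.2]

lemma val_CutB {k : ℕ} {r : Row} (hr : r.Adm k) {a a' : Pt} {d : ℝ} (h0 : 0 ≤ d)
    (h : ∀ j < k, |a j - a' j| ≤ d) : |r.val a - r.val a'| ≤ 2 * k * d := by
  have h1 : ∀ A : Finset ℕ, A ⊆ range k → |∑ j ∈ A, a j - ∑ j ∈ A, a' j| ≤ k * d := by
    intro A hA
    rw [← sum_sub_distrib]
    refine (abs_sum_le_sum_abs _ _).trans
      ((sum_le_card_nsmul _ _ d fun l hl => h l (mem_range.1 (hA hl))).trans ?_)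
    rw [nsmul_eq_mul]
    refine mul_le_mul_of_nonneg_right ?_ h0
    exact_mod_cast ((card_le_card hA).trans (card_range k).le)
  have h2 := abs_le.1 (h1 _ hr.1)
  have h3 := abs_le.1 (h1 _ hr.2.1)
  unfold Row.val
  rw [abs_le]
  constructor <;> linarith [h2.1, h2.2, h3.1, h3.2]

lemma side_CutB {r : Row} {a a' b : Pt} {D : ℝ} (h : ¬ r.Same a a')
    (h1 : |r.val b - r.val a| ≤ D) (h2 : |r.val b - r.val a'| ≤ D) : |r.val b - r.e| ≤ D := by
  unfold Row.Same at h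
  rw [not_or, not_and_or, not_and_or, not_lt, not_lt, not_lt, not_lt] at h
  obtain ⟨h3, h4⟩ := abs_le.1 h1
  obtain ⟨h5, h6⟩ := abs_le.1 h2
  rw [abs_le]
  rcases h with ⟨h7 | h7, h8 | h8⟩ <;> constructor <;> linarith

/-- the level of a block -/
noncomputable def lvB (h d : ℝ) (e : ℕ → ℕ) (j : ℕ) : Kind → ℝ
  | .P => e j * h
  | .R c => c
  | .L l => (e l + d) * h

/-- the blocks of a cell -/
noncomputable def blB (kind : ℕ → Kind) (T : Finset ℕ) (h d : ℝ) (e : ℕ → ℕ) (j : ℕ) : Blk :=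
  if j ∈ T then ⟨e j * h, (e j + 1 : ℝ) * h, lvB h d e j (kind j), none⟩
  else fr (lvB h d e j (kind j))

lemma mem_bl_CutB {kind : ℕ → Kind} {T : Finset ℕ} {h d x : ℝ} {e : ℕ → ℕ} {j m : ℕ}
    (hx : 1 < x) : (blB kind T h d e j).Mem x m ↔ m ≠ 0 ∧ Rough x (lvB h d e j (kind j)) m ∧
      (j ∈ T → x ^ ((e j : ℝ) * h) < m ∧ (m : ℝ) ≤ x ^ ((e j + 1 : ℝ) * h)) ∧
      (j ∉ T → (m : ℝ) ≤ x ^ (2 : ℝ)) := by
  unfold blB
  by_cases hj : j ∈ T
  · rw [if_pos hj]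
    simp only [Blk.Mem, hj]
    tauto
  · rw [if_neg hj, mem_fr hx]
    tauto

lemma sum_pt_CutB {k n : ℕ} {μ : ℕ → ℕ} (x : ℝ) (hμ : μ ∈ tup k n) :
    ∑ j ∈ range k, pt x μ j = Real.logb x n := by
  obtain ⟨h0, h1, -⟩ := mem_tup.1 hμ
  have h2 : ∀ j ∈ range k, (μ j : ℝ) ≠ 0 := fun j hj => by
    have := prod_ne_zero_iff.1 (h1.symm ▸ h0) j hj
    exact_mod_cast this
  rw [← h1, Nat.cast_prod, Real.logb_prod _ _ h2]
  rfl

lemma win_CutB {h : ℝ} (h0 : 0 < h) : ∀ᶠ x : ℝ in atTop, ∀ n : ℕ, Win x n →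
    |Real.logb x n - 1| ≤ h := by
  filter_upwards [eventually_gt_atTop 1,
    (tendsto_rpow_atTop h0).eventually_ge_atTop 2] with x hx h2 n hn
  have hx0 : 0 < x := by linarith
  have hn0 : (0 : ℝ) < n := lt_trans (by linarith) hn.1
  rw [abs_le]
  constructor
  · have : 1 - h ≤ Real.logb x n := by
      rw [Real.le_logb_iff_rpow_le hx hn0, Real.rpow_sub hx0, Real.rpow_one,
        div_le_iff₀ (by linarith)]
      nlinarith [hn.1]
    linarith
  · have : Real.logb x n ≤ 1 + h := by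
      rw [Real.logb_le_iff_le_rpow hx hn0, Real.rpow_add hx0, Real.rpow_one]
      nlinarith [hn.2]
    linarith

open Classical in
/-- the number of factorisations with a property -/
noncomputable def cnB (k n : ℕ) (P : (ℕ → ℕ) → Prop) : ℝ := (((tup k n).filter P).card : ℝ)

lemma cn_mono_CutB {k n : ℕ} {P P' : (ℕ → ℕ) → Prop} (h : ∀ μ ∈ tup k n, P μ → P' μ) :
    cnB k n P ≤ cnB k n P' := by
  classical
  refine Nat.cast_le.2 (card_le_card fun μ hμ => ?_)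
  rw [mem_filter] at hμ ⊢
  exact ⟨hμ.1, h μ hμ.1 hμ.2⟩

lemma cn_le_CutB (k n : ℕ) (P : (ℕ → ℕ) → Prop) : cnB k n P ≤ (tup k n).card := by
  classical
  exact Nat.cast_le.2 (card_le_card (filter_subset _ _))

lemma SF_eq_CutB (k : ℕ) (kind : ℕ → Kind) (Q : Pt → Prop) (x : ℝ) (n : ℕ) :
    SF k kind Q x n = cnB k n fun μ => Q (pt x μ) ∧ ∀ j < k, (kind j).ok x μ j := by
  simp only [SF, cnB, ArithmeticFunction.coe_mk]
  congr

/-- the tuple lies in the blocks of a cell of `S` -/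
def inB (k : ℕ) (kind : ℕ → Kind) (T : Finset ℕ) (h d x : ℝ) (S : Finset (ℕ → ℕ))
    (μ : ℕ → ℕ) : Prop :=
  ∃ e ∈ S, ∀ j < k, (blB kind T h d e j).Mem x (μ j)

lemma card_CutB (h1 : PFStmt) {k : ℕ} {kind : ℕ → Kind} {T : Finset ℕ} (hT : T ⊆ range k)
    {h d x : ℝ} (h0 : 0 < h) (hx : 1 < x) (S : Finset (ℕ → ℕ))
    (hS : ∀ e ∈ S, ∀ j, j ∉ T → e j = 0) (n : ℕ) :
    (∑ e ∈ S, PF k (blB kind T h d e) x) n = cnB k n (inB k kind T h d x S) := by
  classical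
  rw [AF_sum, sum_congr rfl fun e _ => h1 k (blB kind T h d e) x n, ← Nat.cast_sum,
    ← card_biUnion]
  · unfold cnB
    congr 2
    ext μ
    simp only [mem_biUnion, mem_filter, inB]
    exact ⟨fun ⟨e, a, b, c⟩ => ⟨b, e, a, c⟩, fun ⟨b, e, a, c⟩ => ⟨e, a, b, c⟩⟩
  · intro e he e' he' hne
    rw [Function.onFun, disjoint_left]
    intro μ hμ hμ'
    refine hne (funext fun j => ?_)
    by_cases hj : j ∈ T
    · have hjk := mem_range.1 (hT hj)
      obtain ⟨a1, a2⟩ := ((mem_bl_CutB hx).1 ((mem_filter.1 hμ).2 j hjk)).2.2.1 hj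
      obtain ⟨a3, a4⟩ := ((mem_bl_CutB hx).1 ((mem_filter.1 hμ').2 j hjk)).2.2.1 hj
      have b1 := lt_of_mul_lt_mul_right
        ((Real.rpow_lt_rpow_left_iff hx).1 (a1.trans_le a4)) h0.le
      have b2 := lt_of_mul_lt_mul_right
        ((Real.rpow_lt_rpow_left_iff hx).1 (a3.trans_le a2)) h0.le
      have b3 : e j < e' j + 1 := by exact_mod_cast b1
      have b4 : e' j < e j + 1 := by exact_mod_cast b2
      omega
    · rw [hS e he j hj, hS e' he' j hj]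

lemma ev_sum_CutB {t : ℝ} {ι : Type} (S : Finset ι) (F : ι → ℝ → AF) (h : ∀ e ∈ S, Ev t (F e)) :
    Ev t fun x => ∑ e ∈ S, F e x := by
  have h1 := Low.sum (t := t) S (F := F) (L := fun _ => 0) fun e he => (h e he).1
  have h2 := Up.sum (t := t) S (F := F) (L := fun _ => 0) fun e he => (h e he).2
  rw [sum_const_zero] at h1 h2
  exact ⟨h1, h2⟩

section

variable {k i : ℕ} {kind : ℕ → Kind} {T : Finset ℕ} {Q : Pt → Prop} {h x : ℝ}

/-- a link target has a cell -/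
lemma link_CutB (hT : ∀ j < k, j ≠ i → j ∈ T) (hi : i ∉ T → kind i ≠ .P)
    {j : ℕ} (hj : j < k) (hP : kind j = .P) : j ∈ T := by
  by_contra hn
  have : j = i := by
    by_contra hne
    exact hn (hT j hj hne)
  exact hi (this ▸ hn) (this ▸ hP)

lemma lv_CutB (hK : KV k kind) (hT : ∀ j < k, j ≠ i → j ∈ T) (hi : i ∉ T → kind i ≠ .P)
    (h0 : 0 < h) (h1 : h ≤ 1 / 100) {d : ℝ} (hd : 0 ≤ d) {e : ℕ → ℕ} {a : Pt}
    (ha : cmpB k T h e a) (hl : ∀ j < k, 1 / 50 ≤ a j) {j : ℕ} (hj : j < k) :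
    1 / 100 ≤ lvB h d e j (kind j) := by
  have key : ∀ l < k, kind l = .P → 1 / 100 ≤ (e l : ℝ) * h := fun l hl' hP => by
    have := (ha.2 l (link_CutB hT hi hl' hP)).2
    linarith [hl l hl']
  cases hk : kind j with
  | P => exact key j hj hk
  | R c => exact le_trans (by norm_num) ((hK j hj).1 c hk).1
  | L l =>
    obtain ⟨h2, h3⟩ := (hK j hj).2 l hk
    have := key l h2 h3
    show 1 / 100 ≤ (e l + d) * h
    nlinarith

lemma cmp_CutB (hx : 1 < x) (hT : T ⊆ range k) {d : ℝ} {e : ℕ → ℕ} {n : ℕ} {μ : ℕ → ℕ}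
    (hμ : μ ∈ tup k n) (hn : |Real.logb x n - 1| ≤ h)
    (hm : ∀ j < k, (blB kind T h d e j).Mem x (μ j)) : cmpB k T h e (pt x μ) := by
  refine ⟨by rwa [sum_pt_CutB x hμ], fun j hj => ?_⟩
  obtain ⟨a0, -, a1, -⟩ := (mem_bl_CutB hx).1 (hm j (mem_range.1 (hT hj)))
  have b0 : (0 : ℝ) < μ j := by exact_mod_cast Nat.pos_of_ne_zero a0
  exact ⟨(Real.le_logb_iff_rpow_le hx b0).2 (a1 hj).1.le,
    (Real.logb_le_iff_le_rpow hx b0).2 (a1 hj).2⟩

/-- an admissible tuple lies in an outer cell -/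
lemma outer_CutB (hK : KV k kind) (hT' : T ⊆ range k) (hT : ∀ j < k, j ≠ i → j ∈ T)
    (hi : i ∉ T → kind i ≠ .P) (h0 : 0 < h) (hx : 2 ≤ x) {N : ℕ} (hN : 2 / h ≤ N) {n : ℕ}
    (hn : Win x n) {μ : ℕ → ℕ} (hμ : μ ∈ tup k n) (hl : ∀ j < k, 1 / 50 ≤ pt x μ j)
    (hok : ∀ j < k, (kind j).ok x μ j) :
    ∃ e : ℕ → ℕ, (∀ j ∈ T, e j < N) ∧ (∀ j, j ∉ T → e j = 0) ∧
      ∀ j < k, (blB kind T h 0 e j).Mem x (μ j) := by
  have hx1 : 1 < x := by linarith
  obtain ⟨n0, hp, -⟩ := mem_tup.1 hμ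
  have m0 : ∀ j < k, μ j ≠ 0 := fun j hj =>
    prod_ne_zero_iff.1 (hp.symm ▸ n0) j (mem_range.2 hj)
  have m1 : ∀ j < k, (0 : ℝ) < μ j := fun j hj => by
    exact_mod_cast Nat.pos_of_ne_zero (m0 j hj)
  have m2 : ∀ j < k, (μ j : ℝ) ≤ x ^ (2 : ℝ) := fun j hj => by
    have b1 : μ j ≤ n :=
      Nat.le_of_dvd (Nat.pos_of_ne_zero n0) (hp ▸ dvd_prod_of_mem μ (mem_range.2 hj))
    have b2 : (μ j : ℝ) ≤ n := by exact_mod_cast b1
    rw [Real.rpow_two]
    nlinarith [hn.2]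
  set e : ℕ → ℕ := fun j => if j ∈ T then ⌈pt x μ j / h⌉₊ - 1 else 0 with he
  have c1 : ∀ j ∈ T, (e j : ℝ) * h < pt x μ j ∧ pt x μ j ≤ (e j + 1 : ℝ) * h ∧ e j < N := by
    intro j hj
    have hjk := mem_range.1 (hT' hj)
    have b0 : 0 < pt x μ j / h := div_pos (by linarith [hl j hjk]) h0
    have b1 : 0 < ⌈pt x μ j / h⌉₊ := Nat.ceil_pos.2 b0
    have b2 : e j + 1 = ⌈pt x μ j / h⌉₊ := by
      simp only [he, if_pos hj]
      omega
    have b3 : (e j + 1 : ℝ) = ⌈pt x μ j / h⌉₊ := by exact_mod_cast b2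
    have b4 := Nat.le_ceil (pt x μ j / h)
    have b5 := Nat.ceil_lt_add_one b0.le
    have b6 : pt x μ j ≤ 2 := (Real.logb_le_iff_le_rpow hx1 (m1 j hjk)).2 (m2 j hjk)
    have b7 : ⌈pt x μ j / h⌉₊ ≤ N :=
      Nat.ceil_le.2 ((div_le_div_of_nonneg_right b6 h0.le).trans hN)
    refine ⟨(lt_div_iff₀ h0).1 (by linarith), (div_le_iff₀ h0).1 (by linarith), by omega⟩
  have c2 : ∀ j ∈ T, x ^ ((e j : ℝ) * h) < μ j ∧ (μ j : ℝ) ≤ x ^ ((e j + 1 : ℝ) * h) :=
    fun j hj => ⟨(Real.lt_logb_iff_rpow_lt hx1 (m1 j (mem_range.1 (hT' hj)))).1 (c1 j hj).1,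
      (Real.logb_le_iff_le_rpow hx1 (m1 j (mem_range.1 (hT' hj)))).1 (c1 j hj).2.1⟩
  refine ⟨e, fun j hj => (c1 j hj).2.2, fun j hj => if_neg hj, fun j hj =>
    (mem_bl_CutB hx1).2 ⟨m0 j hj, ?_, c2 j, fun _ => m2 j hj⟩⟩
  have b := hok j hj
  cases hk : kind j with
  | P =>
    rw [hk] at b
    exact (rough_prime b).2 (c2 j (link_CutB hT hi hj hk)).1
  | R c =>
    rw [hk] at b
    exact b
  | L l =>
    rw [hk] at b
    obtain ⟨h2, h3⟩ := (hK j hj).2 l hk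
    intro p hp hd
    have b1 : (μ l : ℝ) ≤ p := by exact_mod_cast b p hp hd
    show x ^ (((e l : ℝ) + 0) * h) < p
    rw [add_zero]
    exact (c2 l (link_CutB hT hi h2 h3)).1.trans_le b1

lemma isP_CutB (h1 : h ≤ 1 / 100) {d : ℝ} {e : ℕ → ℕ} {j : ℕ} (hj : j ∈ T)
    (hk : kind j = .P) (hl : 1 / 100 ≤ lvB h d e j (kind j)) : (blB kind T h d e j).IsP := by
  unfold blB
  rw [if_pos hj]
  rw [hk] at hl ⊢
  have hl' : 1 / 100 ≤ (e j : ℝ) * h := hl
  exact ⟨by positivity, show (e j + 1 : ℝ) * h ≤ 2 * ((e j : ℝ) * h) by linarith, rfl⟩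

/-- a tuple in the inner blocks has the right kinds -/
lemma inner_CutB (hK : KV k kind) (hT : ∀ j < k, j ≠ i → j ∈ T) (hi : i ∉ T → kind i ≠ .P)
    (h1 : h ≤ 1 / 100) (hx : 1 < x) {e : ℕ → ℕ} {μ : ℕ → ℕ}
    (hl : ∀ j < k, 1 / 100 ≤ lvB h 1 e j (kind j))
    (hm : ∀ j < k, (blB kind T h 1 e j).Mem x (μ j)) : ∀ j < k, (kind j).ok x μ j := by
  intro j hj
  have b := ((mem_bl_CutB hx).1 (hm j hj)).2.1
  cases hk : kind j with
  | P =>
    exact (((isP_CutB h1 (link_CutB hT hi hj hk) hk (hl j hj)).mem_iff hx.le).1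
      (hm j hj)).1
  | R c =>
    rw [hk] at b
    exact b
  | L l =>
    rw [hk] at b
    obtain ⟨h2, h3⟩ := (hK j hj).2 l hk
    intro p hp hd
    have b1 := (((mem_bl_CutB hx).1 (hm l h2)).2.2.1 (link_CutB hT hi h2 h3)).2
    exact_mod_cast (b1.trans_lt (b p hp hd)).le

/-- outer but not inner blocks -/
lemma gap_CutB (hK : KV k kind) (hT : ∀ j < k, j ≠ i → j ∈ T) (hi : i ∉ T → kind i ≠ .P)
    (h0 : 0 < h) (hx : 1 < x) {e : ℕ → ℕ} {n : ℕ} {μ : ℕ → ℕ} (hμ : μ ∈ tup k n)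
    (hm : ∀ j < k, (blB kind T h 0 e j).Mem x (μ j))
    (hn : ¬ ∀ j < k, (blB kind T h 1 e j).Mem x (μ j)) :
    ∃ a b c : ℕ, n = a * b * c ∧ 1 < a ∧ 1 < b * c ∧
      |Real.logb x a - Real.logb x b - 0| ≤ h := by
  obtain ⟨n0, hp, -⟩ := mem_tup.1 hμ
  push Not at hn
  obtain ⟨j, hj, hn⟩ := hn
  obtain ⟨a0, a1, a2, a3⟩ := (mem_bl_CutB hx).1 (hm j hj)
  have a4 : ¬ Rough x (lvB h 1 e j (kind j)) (μ j) := fun b =>
    hn ((mem_bl_CutB hx).2 ⟨a0, b, a2, a3⟩)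
  cases hk : kind j with
  | P => rw [hk] at a1 a4; exact absurd a1 a4
  | R c => rw [hk] at a1 a4; exact absurd a1 a4
  | L l =>
    rw [hk] at a1 a4
    obtain ⟨h2, h3⟩ := (hK j hj).2 l hk
    have hne : j ≠ l := by
      rintro rfl
      rw [hk] at h3
      cases h3
    unfold Rough at a4
    push Not at a4
    obtain ⟨p, hp1, ⟨q, hq⟩, hp2⟩ := a4
    have hp3 : x ^ (((e l : ℝ) + 0) * h) < p := a1 p hp1 ⟨q, hq⟩
    have hp4 : (p : ℝ) ≤ x ^ (((e l : ℝ) + 1) * h) := hp2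
    rw [add_zero] at hp3
    obtain ⟨b0, -, b1, -⟩ := (mem_bl_CutB hx).1 (hm l h2)
    obtain ⟨b2, b3⟩ := b1 (link_CutB hT hi h2 h3)
    have b4 : (1 : ℝ) < μ l := (Real.one_le_rpow hx.le (by positivity)).trans_lt b2
    have b5 : 1 < μ l := by exact_mod_cast b4
    have b6 : n = p * μ l * (q * ∏ s ∈ ((range k).erase j).erase l, μ s) := by
      rw [← hp, ← mul_prod_erase _ μ (mem_range.2 hj),
        ← mul_prod_erase _ μ (mem_erase.2 ⟨hne.symm, mem_range.2 h2⟩), hq]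
      ring
    have p0 : (0 : ℝ) < p := by exact_mod_cast hp1.pos
    refine ⟨p, μ l, _, b6, hp1.one_lt, ?_, ?_⟩
    · refine b5.trans_le (Nat.le_mul_of_pos_right _ (Nat.pos_of_ne_zero fun b => n0 ?_))
      rw [b6, b, mul_zero]
    · have d1 := (Real.lt_logb_iff_rpow_lt hx p0).2 hp3
      have d2 := (Real.logb_le_iff_le_rpow hx p0).2 hp4
      have d3 := (Real.lt_logb_iff_rpow_lt hx (by linarith)).2 b2
      have d4 := (Real.logb_le_iff_le_rpow hx (by linarith)).2 b3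
      rw [abs_le]
      constructor <;> linarith

lemma rough_CutB {c : ℝ} {n : ℕ} {μ : ℕ → ℕ} (hμ : μ ∈ tup k n)
    (hm : ∀ j < k, Rough x c (μ j)) : Rough x c n := by
  intro p hp hd
  rw [← (mem_tup.1 hμ).2.1] at hd
  obtain ⟨j, hj, hd⟩ := (Nat.Prime.prime hp).exists_mem_finset_dvd hd
  exact hm j (mem_range.1 hj) p hp hd

end

/-- the cut lemma, with more information on the blocks -/
theorem cut_strong (h1 : PFStmt) (h2 : CntStmt) (h3 : BadStmt) (h4 : RowStmt) (t : ℝ) (k i : ℕ)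
    (kind : ℕ → Kind) (T : Finset ℕ) (Q : Pt → Prop) (hK : KV k kind) (hT' : T ⊆ range k)
    (hT : ∀ j < k, j ≠ i → j ∈ T) (hi : i ∉ T → kind i ≠ .P) (hQ : Tame k Q)
    (hl : ∀ a, Q a → ∀ j < k, 1 / 50 ≤ a j)
    (hE : ∀ (β : ℕ → Blk) (a : Pt), Q a → |∑ j ∈ range k, a j - 1| ≤ un →
      (∀ j ∈ T, Cl (kind j) (a j) (β j) ∧ (β j).b = none ∧ (β j).lo ≤ (β j).hi ∧
        (kind j ≠ .P → (kind j).lev a (β j).a)) →
      (∀ j < k, j ∉ T → ∃ z, β j = fr z ∧ 0 < z ∧ (kind j).lev a z) → Ev t (PF k β)) :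
    Ev t (SF k kind Q) := by
  classical
  obtain ⟨R, hR, hQ⟩ := hQ
  obtain ⟨C, hC0, hC⟩ := h2 k
  have key : ∀ δ : ℝ, 0 < δ → Low t (SF k kind Q) (0 + δ) ∧ Up t (SF k kind Q) (0 + δ) := by
    intro δ hδ
    obtain ⟨g, g0, hg⟩ := mass_CutB h3 h4 k R hR (δ / C) (div_pos hδ hC0)
    have hg' := hg.smul hC0.le
    rw [mul_div_cancel₀ _ hC0.ne'] at hg'
    have hk0 : (0 : ℝ) ≤ k := Nat.cast_nonneg k
    obtain ⟨h, h0, hu, hg1, hg2, hs⟩ : ∃ h : ℝ, 0 < h ∧ h ≤ un ∧ h ≤ g ∧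
        2 * k * ((k + 2 : ℝ) * h) ≤ g ∧ (k + 2 : ℝ) * h ≤ 1 / 100 := by
      have u0 : 0 < un := by norm_num [un]
      set w : ℝ := min un (min g (1 / 100)) with hw
      have w0 : 0 < w := lt_min u0 (lt_min g0 (by norm_num))
      have w1 : w ≤ un := min_le_left _ _
      have w2 : w ≤ g := (min_le_right _ _).trans (min_le_left _ _)
      have w3 : w ≤ 1 / 100 := (min_le_right _ _).trans (min_le_right _ _)
      set D : ℝ := (2 * k + 1) * (k + 2) with hD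
      have D0 : 0 < D := by positivity
      have e1 : D * (w / D) = w := mul_div_cancel₀ _ D0.ne'
      have e2 : 0 < w / D := div_pos w0 D0
      generalize w / D = v at e1 e2
      have e3 : 0 ≤ k * v := by positivity
      have e4 : 0 ≤ k * (k * v) := by positivity
      have e5 : 2 * (k * (k * v)) + 5 * (k * v) + 2 * v = w := by
        rw [← e1, hD]
        ring
      refine ⟨v, e2, by linarith, by linarith, ?_, ?_⟩ <;> nlinarith
    have hh : h ≤ 1 / 100 := by nlinarith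
    obtain ⟨E, hE'⟩ := cells_CutB T ⌈2 / h⌉₊
    set S₁ := E.filter fun e => ∃ a, cmpB k T h e a ∧ Q a with hS₁
    set S₀ := S₁.filter fun e => ∀ a, cmpB k T h e a → Q a with hS₀
    have z1 : ∀ e ∈ S₁, ∀ j, j ∉ T → e j = 0 := fun e he => ((hE' e).1 (mem_filter.1 he).1).2
    have z0 : ∀ e ∈ S₀, ∀ j, j ∉ T → e j = 0 := fun e he => z1 e (mem_filter.1 he).1
    have lv : ∀ d : ℝ, 0 ≤ d → ∀ e ∈ S₁, ∀ j < k, 1 / 100 ≤ lvB h d e j (kind j) := by
      intro d hd e he j hj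
      obtain ⟨a, ha, hQa⟩ := (mem_filter.1 he).2
      exact lv_CutB hK hT hi h0 hh hd ha (hl a hQa) hj
    have ev : ∀ d : ℝ, 0 ≤ d → d ≤ 1 → ∀ e ∈ S₁, Ev t (PF k (blB kind T h d e)) := by
      intro d hd hd1 e he
      obtain ⟨a, ha, hQa⟩ := (mem_filter.1 he).2
      have lev : ∀ j < k, kind j ≠ .P → (kind j).lev a (lvB h d e j (kind j)) := by
        intro j hj hne
        cases hk : kind j with
        | P => exact absurd hk hne
        | R c => exact le_rfl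
        | L l =>
          obtain ⟨b2, b3⟩ := (hK j hj).2 l hk
          have := (ha.2 l (link_CutB hT hi b2 b3)).1
          show (e l + d) * h ≤ a l + un
          nlinarith
      refine hE _ a hQa (ha.1.trans hu) (fun j hj => ?_) fun j hj hjT => ?_
      · have hjk := mem_range.1 (hT' hj)
        have b0 := fun hk => isP_CutB hh hj hk (lv d hd e he j hjk)
        obtain ⟨b1, b2⟩ := ha.2 j hj
        unfold blB at b0 ⊢
        rw [if_pos hj] at b0 ⊢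
        exact ⟨⟨show a j - un ≤ e j * h by linarith, show (e j + 1 : ℝ) * h ≤ a j + un by linarith,
          lv d hd e he j hjk, b0⟩, rfl, show e j * h ≤ (e j + 1 : ℝ) * h by linarith, lev j hjk⟩
      · exact ⟨_, if_neg hjT, lt_of_lt_of_le (by norm_num) (lv d hd e he j hj),
          lev j hj fun hk => hjT (link_CutB hT hi hj hk)⟩
    have e1 := ev_sum_CutB S₁ _ (ev 0 le_rfl zero_le_one)
    have e0 := ev_sum_CutB S₀ _ fun e he => ev 1 zero_le_one le_rfl e (mem_filter.1 he).1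
    have main : ∀ᶠ x : ℝ in atTop, ∀ n, Win x n →
        (∑ e ∈ S₀, PF k (blB kind T h 1 e) x) n ≤ SF k kind Q x n ∧
        SF k kind Q x n ≤ (∑ e ∈ S₁, PF k (blB kind T h 0 e) x) n ∧
        (∑ e ∈ S₁, PF k (blB kind T h 0 e) x) n ≤ (∑ e ∈ S₀, PF k (blB kind T h 1 e) x) n +
          (C • ind fun n => badB g x n ∨ ∃ r ∈ R, slabB k r g x n) n := by
      filter_upwards [hC, win_CutB h0, eventually_ge_atTop 2] with x hC hw hx n hn
      have hx1 : 1 < x := by linarith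
      have hw := hw n hn
      rw [card_CutB h1 hT' h0 hx1 S₀ z0, card_CutB h1 hT' h0 hx1 S₁ z1, SF_eq_CutB, AF_smul]
      refine ⟨cn_mono_CutB ?_, cn_mono_CutB ?_, ?_⟩
      · rintro μ hμ ⟨e, he, hm⟩
        exact ⟨(mem_filter.1 he).2 _ (cmp_CutB hx1 hT' hμ hw hm),
          inner_CutB hK hT hi hh hx1 (lv 1 zero_le_one e (mem_filter.1 he).1) hm⟩
      · rintro μ hμ ⟨b1, b2⟩
        obtain ⟨e, c1, c2, c3⟩ :=
          outer_CutB hK hT' hT hi h0 hx (Nat.le_ceil (2 / h)) hn hμ (hl _ b1) b2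
        exact ⟨e, mem_filter.2 ⟨(hE' e).2 ⟨c1, c2⟩, _, cmp_CutB hx1 hT' hμ hw c3, b1⟩, c3⟩
      · by_cases hb : ∀ μ ∈ tup k n, inB k kind T h 0 x S₁ μ → inB k kind T h 1 x S₀ μ
        · exact (cn_mono_CutB hb).trans
            (le_add_of_nonneg_right (mul_nonneg hC0.le (ind_nonneg_CutB _ _)))
        push Not at hb
        obtain ⟨μ, hμ, ⟨e, he, hm⟩, hb⟩ := hb
        have r1 : ∀ j < k, Rough x (1 / 100) (μ j) := fun j hj =>
          ((mem_bl_CutB hx1).1 (hm j hj)).2.1.anti hx1.le (lv 0 le_rfl e he j hj)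
        have r2 := rough_CutB hμ r1
        have r3 : badB g x n ∨ ∃ r ∈ R, slabB k r g x n := by
          by_cases he0 : e ∈ S₀
          · obtain ⟨a, b, c, d1, d2, d3, d4⟩ :=
              gap_CutB hK hT hi h0 hx1 hμ hm fun d => hb ⟨e, he0, d⟩
            exact Or.inl ⟨r2, a, b, c, d1, d2, d3, d4.trans hg1⟩
          obtain ⟨a, ha, hQa⟩ := (mem_filter.1 he).2
          have d0 : ¬ ∀ a, cmpB k T h e a → Q a := fun d => he0 (mem_filter.2 ⟨he, d⟩)
          push Not at d0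
          obtain ⟨a', ha', hQa'⟩ := d0
          have d1 : ¬ ∀ r ∈ R, r.Same a a' := fun d => hQa' (hQ a a' d hQa)
          push Not at d1
          obtain ⟨r, hr, d1⟩ := d1
          have d2 := cmp_CutB hx1 hT' hμ hw hm
          have d3 : (0 : ℝ) ≤ (k + 2 : ℝ) * h := by positivity
          refine Or.inr ⟨r, hr, μ, hμ, fun j hj => ⟨?_, r1 j hj⟩, (side_CutB d1
            (val_CutB (hR r hr) d3 fun j hj => near_CutB h0.le hT d2 ha hj)
            (val_CutB (hR r hr) d3 fun j hj => near_CutB h0.le hT d2 ha' hj)).trans hg2⟩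
          have d4 := (abs_le.1 (near_CutB h0.le hT d2 ha hj)).1
          have d5 : 0 < Real.logb x (μ j) := by
            have : pt x μ j = Real.logb x (μ j) := rfl
            linarith [hl a hQa j hj]
          by_contra d6
          have d7 : μ j = 1 := by
            have := ((mem_bl_CutB hx1).1 (hm j hj)).1
            omega
          rw [d7] at d5
          simp at d5
        rw [ind_eq_CutB (mem_tup.1 hμ).1 r3, mul_one]
        exact ((cn_le_CutB _ _ _).trans (hC n hn.2 r2)).trans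
          (le_add_of_nonneg_left (Nat.cast_nonneg _))
    exact ⟨Low.of_le e0.1 hg' (main.mono fun x hx n hn =>
        ⟨(hx n hn).1, (hx n hn).2.1.trans (hx n hn).2.2⟩),
      Up.of_le e1.2 hg' (main.mono fun x hx n hn =>
        ⟨(hx n hn).2.1, (hx n hn).2.2.trans (add_le_add (hx n hn).1 le_rfl)⟩)⟩
  exact ⟨Low.of_forall fun δ hδ => (key δ hδ).1, Up.of_forall fun δ hδ => (key δ hδ).2⟩

theorem xCutB (h1 : PFStmt) (h2 : CntStmt) (h3 : BadStmt) (h4 : RowStmt) : CutStmt :=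
  fun t k i kind T Q _ hK hT' hT hi hQ hl hE =>
    cut_strong h1 h2 h3 h4 t k i kind T Q hK hT' hT hi hQ hl fun β a b1 b2 b3 b4 =>
      hE β a b1 b2 (fun j hj => (b3 j hj).1) b4

end Pool.Agent.MP_c853c5_nt.X
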