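import Pool.Agent.MP_c853c5_nt.X.Defs2
import Pool.Agent.MP_c853c5_nt.X.CutB

set_option autoImplicit false

namespace Pool.Agent.MP_c853c5_nt.X

theorem xCut2 (h1 : PFStmt) (h2 : CntStmt) (h3 : BadStmt) (h4 : RowStmt) : CutStmt2 :=
  fun t k i kind T Q _ hK hT' hT hi hQ hl hE =>
    cut_strong h1 h2 h3 h4 t k i kind T Q hK hT' hT hi hQ hl fun β a b1 b2 b3 b4 =>
      hE β a b1 b2 (fun j hj => ⟨(b3 j hj).1, (b3 j hj).2.1, (b3 j hj).2.2.2⟩) b4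

end Pool.Agent.MP_c853c5_nt.X
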