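import Pool.Agent.MP_c853c5_nt.X.XTD

/-!
A polytope is cut out in two passes (definitions only).
-/

set_option autoImplicit false

namespace Pool.Agent.MP_c853c5_nt.X

noncomputable def nth (P : List (ℕ × ℕ)) : ℕ → ℕ × ℕ :=
  List.rec (motive := fun _ => ℕ → ℕ × ℕ) (fun _ => (0, 0))
    (fun y _ ih i => Nat.rec (motive := fun _ => ℕ × ℕ) y (fun n _ => ih n) i) P

/-- second pass: a row was cut, or holds on the box, or follows from the stored rows -/
noncomputable def vf (im : NS → Rw → ℕ → Bool) (S : NS) (G g0 : ℕ) (r : RL) (P : List (ℕ × ℕ)) :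
    ℕ → ℕ → ℕ :=
  List.rec (motive := fun _ => ℕ → ℕ → ℕ) (fun _ _ => 0)
    (fun y _ nx dn s =>
      force (Nat.shiftRight dn 1) fun dn' =>
      cnd (bit dn 0) (nx dn' s)
        (force (Nat.mul (dg y.1 g0) 1000000) fun u =>
          cnd (rowLe y.1 r u y.2) (nx dn' s)
            (mkRow S.par G y.1 (Nat.pred S.k) fun m l1 l2 =>
              force (Nat.add u (Nat.mul 16 m)) fun c =>
              force (Nat.mul 12 (Nat.mod s 32)) fun n => force (Nat.shiftRight s 5) fun v =>
              force (Nat.mod v (one n)) fun d =>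
              grd (im S ⟨c, l1, y.2, l2⟩ d) (force (Nat.shiftRight v n) (nx dn'))))) P

/-- first pass: `n` cuts, each with `6` bits for the row and `2` bits for the mode -/
noncomputable def cut (im : NS → Rw → ℕ → Bool) (ih : NS → ℕ → ℕ) (k par kd G g0 : ℕ)
    (P : List (ℕ × ℕ)) (n : ℕ) : ℕ → ℕ → List Rw → ℕ → ℕ → ℕ :=
  Nat.rec (motive := fun _ => ℕ → ℕ → List Rw → ℕ → ℕ → ℕ)
    (fun lo hi rs dn s => mkRL ⟨k, par, kd, lo, hi, rs⟩ G false (Nat.pred k) fun r =>
      vf im ⟨k, par, kd, lo, hi, rs⟩ G g0 r P dn s)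
    (fun _ nx lo hi rs dn s =>
      force (Nat.mod s 64) fun i => force (Nat.mod (Nat.shiftRight s 6) 4) fun f =>
      force (nth P i).1 fun w => force (nth P i).2 fun e =>
      force (Nat.lor dn (one i)) fun dn' =>
      mkRow par G w (Nat.pred k) fun m l1 l2 =>
        force (Nat.add (Nat.mul (dg w g0) 1000000) (Nat.mul 16 m)) fun c =>
        two (Nat.shiftRight s 8)
          (fun v => force (Nat.succ c) fun c' => ih ⟨k, par, kd, lo, hi, ⟨e, l2, c', l1⟩ :: rs⟩ v)
          fun v => cnd (Nat.beq f 0) (nx lo hi (⟨c, l1, e, l2⟩ :: rs) dn' v)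
            (cnd (Nat.beq f 1)
              (nrm (⟨c, l1, e, l2⟩ :: rs) lo hi fun lo' hi' rs' => nx lo' hi' rs' dn' v)
              (nx lo hi rs dn' v))) n

/-- `5` bits for the number of cuts, then the cuts, then the data of the second pass -/
noncomputable def cv (im : NS → Rw → ℕ → Bool) (ih : NS → ℕ → ℕ) (S : NS) (G : ℕ)
    (P : List (ℕ × ℕ)) (s : ℕ) : ℕ :=
  force (Nat.mul 12 (d4 G 0)) fun g0 => force (Nat.mod s 32) fun n =>
    force (Nat.shiftRight s 5) (cut im ih S.k S.par S.kd G g0 P n S.lo S.hi S.rs 0)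

/-- code after the tag: `16` bits for the polytope, `4 k` bits for the groups, then `cv` -/
noncomputable def cvR (im : NS → Rw → ℕ → Bool) (PL : BT PP) : Rule := fun _ ih sg S s =>
  force (Nat.mod s 65536) fun i => force (Nat.mul 4 S.k) fun w =>
  force (Nat.mod (Nat.shiftRight s 16) (one w)) fun G =>
  grd (band (hasP S) (allN (fun j => Nat.blt (d4 G j) (PL.find i).k) S.k))
    (force (Nat.shiftRight s (Nat.add 16 w)) (cv im (ih sg) S G (PL.find i).P))

end Pool.Agent.MP_c853c5_nt.X
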