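import Pool.Agent.MP_c853c5_nt.S.Basic

/-!
An exact calculus for the sieve decomposition: factorisations with conditions on the sizes.
-/

set_option autoImplicit false

open Finset Filter

namespace Pool.Agent.MP_c853c5_nt.X

open Pool.Agent.MP_c853c5_nt.S

/-- exponent vectors -/
abbrev Pt := ℕ → ℝ

/-- the slack -/
noncomputable def un : ℝ := 1 / 1000000

/-- lower bounds at the sign `true`, upper bounds at the sign `false` -/
def Sg : Bool → ℝ → (ℝ → AF) → ℝ → Prop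
  | true => Low
  | false => Up

/-! ### tuples -/

def ex {k : ℕ} (m : Fin k → ℕ) : ℕ → ℕ := fun j => if h : j < k then m ⟨j, h⟩ else 1

open Classical in
/-- factorisations of `n` into `k` factors -/
noncomputable def tup (k n : ℕ) : Finset (ℕ → ℕ) := (Nat.finMulAntidiag k n).image ex

lemma mem_tup {k n : ℕ} {μ : ℕ → ℕ} :
    μ ∈ tup k n ↔ n ≠ 0 ∧ ∏ j ∈ range k, μ j = n ∧ ∀ j, k ≤ j → μ j = 1 := by
  classical
  simp only [tup, mem_image, Nat.mem_finMulAntidiag]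
  constructor
  · rintro ⟨m, ⟨h1, h2⟩, rfl⟩
    refine ⟨h2, ?_, fun j hj => dif_neg hj.not_gt⟩
    rw [prod_range, ← h1]
    exact prod_congr rfl fun j _ => dif_pos j.2
  · rintro ⟨h1, h2, h3⟩
    refine ⟨fun j => μ j, ⟨by rw [← h2, prod_range], h1⟩, funext fun j => ?_⟩
    by_cases h : j < k
    · exact dif_pos h
    · exact (dif_neg h).trans (h3 j (not_lt.1 h)).symm

/-- the exponent vector of a tuple -/
noncomputable def pt (x : ℝ) (μ : ℕ → ℕ) : Pt := fun j => Real.logb x (μ j)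

/-- prime, rough above a constant, rough above another factor -/
inductive Kind where
  | P : Kind
  | R (c : ℝ) : Kind
  | L (l : ℕ) : Kind

def Kind.ok (x : ℝ) (μ : ℕ → ℕ) (j : ℕ) : Kind → Prop
  | .P => (μ j).Prime
  | .R c => Rough x c (μ j)
  | .L l => ∀ p : ℕ, p.Prime → p ∣ μ j → μ l ≤ p

/-- valid kinds -/
def KV (k : ℕ) (kind : ℕ → Kind) : Prop := ∀ j < k,
  (∀ c, kind j = .R c → 1 / 50 ≤ c ∧ c < 1) ∧ ∀ l, kind j = .L l → l < k ∧ kind l = .P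

/-- a hyperplane -/
structure Row where
  A : Finset ℕ
  B : Finset ℕ
  e : ℝ

noncomputable def Row.val (r : Row) (a : Pt) : ℝ := ∑ j ∈ r.A, a j - ∑ j ∈ r.B, a j

/-- transversal to the simplex -/
def Row.Adm (k : ℕ) (r : Row) : Prop := r.A ⊆ range k ∧ r.B ⊆ range k ∧ Disjoint r.A r.B ∧
  (r.A ∪ r.B).Nonempty ∧ (r.A = range k → r.e ≠ 1) ∧ (r.B = range k → r.e ≠ -1)

/-- strictly on the same side -/
def Row.Same (r : Row) (a a' : Pt) : Prop :=
  (r.val a < r.e ∧ r.val a' < r.e) ∨ (r.e < r.val a ∧ r.e < r.val a')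

/-- the boundary lies on finitely many hyperplanes -/
def Tame (k : ℕ) (Q : Pt → Prop) : Prop := ∃ R : List Row, (∀ r ∈ R, r.Adm k) ∧
  ∀ a a', (∀ r ∈ R, r.Same a a') → Q a → Q a'

open Classical in
/-- the number of admissible factorisations -/
noncomputable def SF (k : ℕ) (kind : ℕ → Kind) (Q : Pt → Prop) (x : ℝ) : AF :=
  ⟨fun n => (((tup k n).filter fun μ => Q (pt x μ) ∧ ∀ j < k, (kind j).ok x μ j).card : ℝ),
    by simp [tup]⟩

/-- the bound holds for every tame part of `Ω` -/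
def H (sg : Bool) (t : ℝ) (k : ℕ) (kind : ℕ → Kind) (Ω : Pt → Prop) (l : ℝ) : Prop :=
  ∀ Q : Pt → Prop, Tame k Q → (∀ a, Q a → Ω a ∧ ∀ j < k, 1 / 50 ≤ a j) →
    Sg sg t (SF k kind Q) l

/-- a product of blocks -/
noncomputable def PF (k : ℕ) (β : ℕ → Blk) (x : ℝ) : AF := ∏ j ∈ range k, bf x (β j)

open Classical in
noncomputable def ind (P : ℕ → Prop) : AF :=
  ⟨fun n => if n ≠ 0 ∧ P n then 1 else 0, by simp⟩

/-! ### the side conditions of the rules -/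

/-- implied by the kind -/
def Kind.imp (a : Pt) (j : ℕ) : Kind → Prop
  | .P => True
  | .R c => c < a j
  | .L l => a l ≤ a j

/-- the level `ν` is below the present level -/
def Kind.above (ν : ℝ) (a : Pt) (j : ℕ) : Kind → Prop
  | .P => ν < a j
  | .R c => ν ≤ c
  | .L l => ν < a l

/-- `q` is at most the present level -/
def Kind.top (a : Pt) (q : ℝ) : Kind → Prop
  | .P => True
  | .R c => q ≤ c
  | .L l => q ≤ a l

/-- `q` is at least the present level -/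
def Kind.bot (a : Pt) (q : ℝ) : Kind → Prop
  | .P => True
  | .R c => c ≤ q
  | .L l => a l ≤ q

/-- the level of a block that contains the factor -/
def Kind.drop (a : Pt) (B : Blk) : Kind → Prop
  | .P => B.a ≤ B.lo
  | .R c => B.a ≤ c
  | .L l => B.a < a l

/-- the level of the free block -/
def Kind.lev (a : Pt) (z : ℝ) : Kind → Prop
  | .P => False
  | .R c => z ≤ c
  | .L l => z ≤ a l + un

/-- the factors `i` and `k` are merged -/
noncomputable def mg (i k : ℕ) (a : Pt) : Pt :=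
  Function.update (Function.update a i (a i + a k)) k 0

/-- the least prime factor of the factor `i` becomes the factor `k` -/
def opn (kind : ℕ → Kind) (i k : ℕ) : ℕ → Kind :=
  Function.update (Function.update kind i (.L k)) k .P

/-- skip `i` -/
def sk (i j : ℕ) : ℕ := if j < i then j else j + 1

/-- the block lies near the size `s` -/
def Cl (κ : Kind) (s : ℝ) (B : Blk) : Prop :=
  s - un ≤ B.lo ∧ B.hi ≤ s + un ∧ 1 / 100 ≤ B.a ∧ (κ = .P → B.IsP)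

/-! ### auxiliary statements -/

def ProdStmt : Prop := ∀ (k : ℕ) (g : ℕ → AF) (n : ℕ),
  (∏ j ∈ range k, g j) n = ∑ μ ∈ tup k n, ∏ j ∈ range k, g j (μ j)

open Classical in
def PFStmt : Prop := ∀ (k : ℕ) (β : ℕ → Blk) (x : ℝ) (n : ℕ),
  PF k β x n = (((tup k n).filter fun μ => ∀ j < k, (β j).Mem x (μ j)).card : ℝ)

def CntStmt : Prop := ∀ k : ℕ, ∃ C : ℝ, 0 < C ∧ ∀ᶠ x : ℝ in atTop, ∀ n : ℕ, (n : ℝ) ≤ 2 * x →
  Rough x (1 / 100) n → ((tup k n).card : ℝ) ≤ C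

def BadStmt : Prop := ∀ e ε : ℝ, 0 < ε → ∃ h : ℝ, 0 < h ∧
  Mass (fun x => ind fun n => Rough x (1 / 100) n ∧ ∃ a b c : ℕ, n = a * b * c ∧ 1 < a ∧
    1 < b * c ∧ |Real.logb x a - Real.logb x b - e| ≤ h) ε

def RowStmt : Prop := ∀ (k : ℕ) (r : Row), r.Adm k → ∀ ε : ℝ, 0 < ε → ∃ h : ℝ, 0 < h ∧
  Mass (fun x => ind fun n => ∃ μ ∈ tup k n, (∀ j < k, 1 < μ j ∧ Rough x (1 / 100) (μ j)) ∧
    |r.val (pt x μ) - r.e| ≤ h) ε

/-- closure properties -/
def TameStmt : Prop :=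
  (∀ (k : ℕ) (Q Q' : Pt → Prop), Tame k Q → Tame k Q' → Tame k fun a => Q a ∧ Q' a) ∧
  (∀ k : ℕ, Tame k fun _ => True) ∧
  (∀ (k : ℕ) (r : Row), r.Adm k → Tame k (fun a => r.val a ≤ r.e) ∧
    Tame k (fun a => r.val a < r.e) ∧ Tame k (fun a => r.e ≤ r.val a) ∧
    Tame k fun a => r.e < r.val a) ∧
  (∀ (k i : ℕ) (Q : Pt → Prop), i < k → Tame k Q → Tame (k + 1) fun a => Q (mg i k a)) ∧
  ∀ (k j : ℕ) (kind : ℕ → Kind), KV k kind → j < k → Tame k fun a => (kind j).imp a j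

/-- from products of blocks to a tame region; the factors outside `T` are free -/
def CutStmt : Prop := ∀ (t : ℝ) (k i : ℕ) (kind : ℕ → Kind) (T : Finset ℕ) (Q : Pt → Prop),
  1 ≤ k → KV k kind → T ⊆ range k → (∀ j < k, j ≠ i → j ∈ T) → (i ∉ T → kind i ≠ .P) →
  Tame k Q → (∀ a, Q a → ∀ j < k, 1 / 50 ≤ a j) →
  (∀ (β : ℕ → Blk) (a : Pt), Q a → |∑ j ∈ range k, a j - 1| ≤ un →
    (∀ j ∈ T, Cl (kind j) (a j) (β j)) →
    (∀ j < k, j ∉ T → ∃ z, β j = fr z ∧ 0 < z ∧ (kind j).lev a z) → Ev t (PF k β)) →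
  Ev t (SF k kind Q)

/-! ### the rules -/

def MonoStmt : Prop := ∀ (sg : Bool) (t l l' : ℝ) (k : ℕ) (kind : ℕ → Kind) (Ω Ω' : Pt → Prop),
  1 ≤ k → KV k kind → l ≤ l' →
  (∀ a, Ω a → (∀ j < k, 1 / 50 ≤ a j ∧ (kind j).imp a j) → |∑ j ∈ range k, a j - 1| ≤ un →
    Ω' a) →
  H sg t k kind Ω' l → H sg t k kind Ω l'

def EmptyStmt : Prop := ∀ (sg : Bool) (t : ℝ) (k : ℕ) (kind : ℕ → Kind),
  H sg t k kind (fun _ => False) 0

def SplitStmt : Prop := ∀ (sg : Bool) (t l l' : ℝ) (k : ℕ) (kind : ℕ → Kind) (Ω : Pt → Prop)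
  (r : Row), r.Adm k → H sg t k kind (fun a => Ω a ∧ r.val a ≤ r.e) l →
  H sg t k kind (fun a => Ω a ∧ r.e ≤ r.val a) l' → H sg t k kind Ω (l + l')

def DownStmt : Prop := ∀ (sg : Bool) (t l l' ν : ℝ) (k i : ℕ) (kind : ℕ → Kind)
  (Ω Ω' : Pt → Prop), KV k kind → i < k → (∀ j < k, kind j ≠ .L i) → 1 / 50 ≤ ν →
  (∀ a, Ω a → (kind i).above ν a i) →
  (∀ a, Ω (mg i k a) → ν ≤ a k → a k ≤ a i → (kind i).top a (a k) → Ω' a) →
  H sg t k (Function.update kind i (.R ν)) Ω l → H (!sg) t (k + 1) (opn kind i k) Ω' l' →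
  H sg t k kind Ω (l + l')

def UpStmt : Prop := ∀ (sg : Bool) (t l l' : ℝ) (k i : ℕ) (kind : ℕ → Kind)
  (Ω Ω' : Pt → Prop), KV k kind → i < k → kind i ≠ .P →
  (∀ a, Ω (mg i k a) → a k ≤ a i → (kind i).bot a (a k) → Ω' a) →
  H sg t k (Function.update kind i .P) Ω l → H sg t (k + 1) (opn kind i k) Ω' l' →
  H sg t k kind Ω (l + l')

def DropStmt : Prop := ∀ (t m : ℝ) (k : ℕ) (kind : ℕ → Kind) (Ω : Pt → Prop) (B : ℕ → Blk),
  (∀ j < k, (B j).b = none) →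
  (∀ a, Ω a → ∀ j < k, (B j).lo < a j ∧ a j ≤ (B j).hi ∧ (kind j).drop a (B j)) →
  Mass (PF k B) m → H true t k kind Ω m

def Leaf2Stmt : Prop := Leaf2 → ∀ (sg : Bool) (τ t : ℝ) (k : ℕ) (kind : ℕ → Kind)
  (Ω : Pt → Prop), 1 / 3 ≤ t → t < τ → τ ≤ 1 / 2 → 1 ≤ k → KV k kind →
  (∀ (B : Fin k → Blk) (a : Pt), Ω a → |∑ j ∈ range k, a j - 1| ≤ un →
    (∀ j : Fin k, Cl (kind j) (a j) (B j)) → Reg2 τ B) →
  H sg t k kind Ω 0

def LeafSStmt : Prop := LeafS → ∀ (sg : Bool) (τ t : ℝ) (r i : ℕ) (kind : ℕ → Kind)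
  (Ω : Pt → Prop), 1 / 3 ≤ t → t < τ → τ ≤ 1 / 2 → i ≤ r → KV (r + 1) kind → kind i ≠ .P →
  (∀ (B : Fin r → Blk) (a : Pt) (z : ℝ), Ω a → |∑ j ∈ range (r + 1), a j - 1| ≤ un →
    (∀ j : Fin r, Cl (kind (sk i j)) (a (sk i j)) (B j)) → 0 < z → (kind i).lev a z →
    DustOK τ B z) →
  H sg t (r + 1) kind Ω 0

def RootStmt : Prop := ∀ t l : ℝ, H true t 1 (fun _ => .P) (fun _ => True) l →
  Low t (fun x => bf x (fr (3 / 5))) l

/-- all rules -/
structure Rules : Prop where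
  mono : MonoStmt
  empty : EmptyStmt
  split : SplitStmt
  down : DownStmt
  up : UpStmt
  drop : DropStmt
  leaf2 : Leaf2Stmt
  leafS : LeafSStmt
  root : RootStmt

/-! ### signs -/

section

variable {sg : Bool} {t l l' : ℝ} {f g : ℝ → AF}

lemma Sg.mono (h : Sg sg t f l) (hl : l ≤ l') : Sg sg t f l' := by
  cases sg
  exacts [Up.mono h hl, Low.mono h hl]

lemma Sg.add (hf : Sg sg t f l) (hg : Sg sg t g l') : Sg sg t (fun x => f x + g x) (l + l') := by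
  cases sg
  exacts [Up.add hf hg, Low.add hf hg]

lemma Sg.sub (hf : Sg sg t f l) (hg : Sg (!sg) t g l') :
    Sg sg t (fun x => f x - g x) (l + l') := by
  cases sg
  exacts [Up.sub hf hg, Low.sub hf hg]

lemma Sg.congr (h : Sg sg t f l) (e : ∀ᶠ x in atTop, ∀ n, Win x n → f x n = g x n) :
    Sg sg t g l := by
  cases sg
  exacts [Up.congr h e, Low.congr h e]

lemma Sg.of_ev (h : Ev t f) : Sg sg t f 0 := by
  cases sg
  exacts [h.2, h.1]

end

lemma SF_nonneg (k : ℕ) (kind : ℕ → Kind) (Q : Pt → Prop) (x : ℝ) (n : ℕ) :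
    0 ≤ SF k kind Q x n := Nat.cast_nonneg _

lemma SF_mono {k : ℕ} {kind : ℕ → Kind} {Q Ω : Pt → Prop} (h : ∀ a, Q a → Ω a) (x : ℝ) (n : ℕ) :
    SF k kind Q x n ≤ SF k kind Ω x n := by
  classical
  refine Nat.cast_le.2 (card_le_card fun μ hμ => ?_)
  rw [mem_filter] at hμ ⊢
  exact ⟨hμ.1, h _ hμ.2.1, hμ.2.2⟩

/-- a term with the sign plus may be dropped -/
theorem drop0 {t m : ℝ} {k : ℕ} {kind : ℕ → Kind} {Ω : Pt → Prop}
    (h : Mass (SF k kind fun a => Ω a ∧ ∀ j < k, 1 / 50 ≤ a j) m) : H true t k kind Ω m :=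
  fun Q _ hQ => Low.drop (h.of_le (Eventually.of_forall fun x n _ => SF_mono hQ x n))
    (Eventually.of_forall fun x n _ => SF_nonneg k kind Q x n)

end Pool.Agent.MP_c853c5_nt.X
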