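import Pool.Agent.MP_c853c5_nt.X.Defs
import Pool.Agent.MP_c853c5_nt.S.Defs2

/-!
The rule for a leaf with two sieved factors.
-/

set_option autoImplicit false

open Finset Filter

namespace Pool.Agent.MP_c853c5_nt.X

open Pool.Agent.MP_c853c5_nt.S

/-- the cut with the level of every block -/
def CutStmt2 : Prop := ∀ (t : ℝ) (k i : ℕ) (kind : ℕ → Kind) (T : Finset ℕ) (Q : Pt → Prop),
  1 ≤ k → KV k kind → T ⊆ range k → (∀ j < k, j ≠ i → j ∈ T) → (i ∉ T → kind i ≠ .P) →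
  Tame k Q → (∀ a, Q a → ∀ j < k, 1 / 50 ≤ a j) →
  (∀ (β : ℕ → Blk) (a : Pt), Q a → |∑ j ∈ range k, a j - 1| ≤ un →
    (∀ j ∈ T, Cl (kind j) (a j) (β j) ∧ (β j).b = none ∧
      (kind j ≠ .P → (kind j).lev a (β j).a)) →
    (∀ j < k, j ∉ T → ∃ z, β j = fr z ∧ 0 < z ∧ (kind j).lev a z) → Ev t (PF k β)) →
  Ev t (SF k kind Q)

theorem CutStmt2.cut (h : CutStmt2) : CutStmt := fun t k i kind T Q h1 h2 h3 h4 h5 h6 h7 h8 =>
  h t k i kind T Q h1 h2 h3 h4 h5 h6 h7 fun β a ha hs hT hF =>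
    h8 β a ha hs (fun j hj => (hT j hj).1) hF

/-- the factor `i` is free, the factor `sk i j` is sieved and of known size -/
def LeafS2Stmt : Prop := LeafS2 → ∀ (sg : Bool) (τ t : ℝ) (r i j : ℕ) (kind : ℕ → Kind)
  (Ω : Pt → Prop), 1 / 3 ≤ t → t < τ → τ ≤ 1 / 2 → i ≤ r + 1 → j ≤ r → KV (r + 2) kind →
  kind i ≠ .P → kind (sk i j) ≠ .P →
  (∀ (B : Fin r → Blk) (a : Pt) (z1 z2 lo hi : ℝ), Ω a → (∀ m < r + 2, 1 / 50 ≤ a m) →
    |∑ m ∈ range (r + 2), a m - 1| ≤ un →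
    (∀ m : Fin r, Cl (kind (sk i (sk j m))) (a (sk i (sk j m))) (B m)) → 0 < z1 → 0 < z2 →
    (kind i).lev a z1 → (kind (sk i j)).lev a z2 → a (sk i j) - un ≤ lo →
    hi ≤ a (sk i j) + un → DustOK2 τ B z1 z2 lo hi) →
  H sg t (r + 2) kind Ω 0

end Pool.Agent.MP_c853c5_nt.X
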