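import Pool.Agent.MP_c853c5_nt.X.FQ

/-!
Soundness of the fast rules.
-/

set_option autoImplicit false
set_option exponentiation.threshold 800

open Finset

namespace Pool.Agent.MP_c853c5_nt.X

open Pool.Agent.MP_c853c5_nt.S Pool.Agent.MP_c853c5_nt.REG

variable {S : NS} {A : ℕ → Finset ℕ} {t : ℝ} {sg : Bool} {w n : ℕ}

/-- a vector with its sum -/
def PV (f : ℕ → ℕ) : ℕ := 2 ^ (44 * 16) * ∑ j ∈ range 16, f j + pw 44 f 16

lemma PV_lin (f g : ℕ → ℕ) (m : ℕ) : PV f + m * PV g = PV fun j => f j + g j * m := by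
  simp only [PV, ← pw_add, ← pw_mul, sum_add_distrib, ← sum_mul]
  ring

lemma pkV_eq (l : List ℕ) : pkV l = PV fun j => cntL j l := by
  induction l with
  | nil => simp [pkV, PV, cntL, pw]
  | cons e l ih =>
    have h : nd e ∈ range 16 := mem_range.2 (Nat.mod_lt _ (by norm_num))
    have e1 : ∀ j, cntL j (e :: l) = cntL j l + (if nd e = j then 1 else 0) * cf e := fun j => by
      rw [show cntL j (e :: l) = cnd (Nat.beq (nd e) j) (cf e + cntL j l) (cntL j l) from rfl,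
        cnd_eq]
      simp only [Nat.beq_eq]
      split_ifs <;> ring
    simp only [e1, ← PV_lin, ← ih]
    simp only [PV, pw, ite_mul, one_mul, zero_mul, sum_ite_eq, h, if_true, mul_one]
    show cf e * (one (44 * nd e) + one (44 * 16)) + pkV l = _
    rw [one_eq, one_eq]
    ring

lemma f44_PV {f : ℕ → ℕ} (h : ∑ j ∈ range 16, f j < 2 ^ 44) {j : ℕ} (hj : j < 16) :
    f44 (PV f) j = f j := by
  have h1 : ∀ i < 16, f i < 2 ^ 44 := fun i hi =>
    (single_le_sum (fun _ _ => Nat.zero_le _) (mem_range.2 hi)).trans_lt h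
  have := pw_get (w := 44) (n := 16 + 1) (f := fun i => if i < 16 then f i else ∑ j ∈ range 16, f j)
    (fun i _ => by split_ifs with e; exacts [h1 i e, h]) (r := j) (s := 0) (b := 44) (by omega) le_rfl
  rw [pw_succ, if_neg (lt_irrefl _), pw_congr (g := f) fun i hi => if_pos hi, if_pos hj,
    Nat.shiftRight_zero, Nat.mod_eq_of_lt (h1 j hj)] at this
  exact this

/-- the inequality of a vector row -/
def Vok (k c1 : ℕ) (f : ℕ → ℕ) (c2 : ℕ) (g : ℕ → ℕ) (y : Pt) : Prop :=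
  (c1 : ℝ) / SC + ∑ j ∈ range k, (f j : ℝ) * y j ≤ (c2 : ℝ) / SC + ∑ j ∈ range k, (g j : ℝ) * y j

lemma cmb_ok {k : ℕ} (K : ℕ → ℕ → ℕ → ℕ → ℕ) (rs : List Rw) : ∀ (X d c1 c2 : ℕ) (f g : ℕ → ℕ),
    (∀ r ∈ rs, r.In k) → ∃ (c1' c2' : ℕ) (f' g' : ℕ → ℕ),
      cmb rs X d c1 (PV f) c2 (PV g) K = K c1' (PV f') c2' (PV g') ∧
      ∀ y, (∀ r ∈ rs, r.ok y) → Vok k c1' f' c2' g' y → Vok k c1 f c2 g y := by
  induction rs with
  | nil => exact fun X d c1 c2 f g _ => ⟨c1, c2, f, g, rfl, fun _ _ h => h⟩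
  | cons r rs ih =>
    intro X d c1 c2 f g h
    rw [List.forall_mem_cons] at h
    have e : cmb (r :: rs) X d c1 (PV f) c2 (PV g) K = cnd (Nat.beq X 0) (K c1 (PV f) c2 (PV g))
        (force (Nat.shiftRight X 1) fun X' =>
          cnd (Nat.beq (Nat.mod X 2) 0) (cmb rs X' d c1 (PV f) c2 (PV g) K)
            (force (Nat.succ (Nat.mod d 65536)) fun m => force (Nat.shiftRight d 16) fun d' =>
              force (Nat.add c1 (Nat.mul m r.c2)) fun c1' =>
              force (Nat.add (PV f) (Nat.mul m (pkV r.l2))) fun p' =>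
              force (Nat.add c2 (Nat.mul m r.c1)) fun c2' =>
              force (Nat.add (PV g) (Nat.mul m (pkV r.l1))) fun n' =>
                cmb rs X' d' c1' p' c2' n' K)) := by
      simp only [cmb]
    simp only [e, force_eq, cnd_eq, Nat.add_eq, Nat.mul_eq, pkV_eq, PV_lin, List.forall_mem_cons]
    split_ifs
    · exact ⟨c1, c2, f, g, rfl, fun _ _ h => h⟩
    · obtain ⟨c1', c2', f', g', e1, e2⟩ := ih _ _ c1 c2 f g h.2
      exact ⟨_, _, _, _, e1, fun y hy => e2 y hy.2⟩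
    · obtain ⟨c1', c2', f', g', e1, e2⟩ := ih _ _ _ _ _ _ h.2
      refine ⟨_, _, _, _, e1, fun y hy hv => ?_⟩
      have h1 := e2 y hy.2 hv
      have h2 := hy.1
      generalize Nat.succ (Nat.mod d 65536) = m at h1
      rw [Rw.ok, sum_cnt y h.1.1, sum_cnt y h.1.2] at h2
      have h3 := mul_le_mul_of_nonneg_left h2 (Nat.cast_nonneg m)
      simp only [Vok, Nat.cast_add, Nat.cast_mul, add_mul, sum_add_distrib, add_div,
        mul_right_comm _ (m : ℝ), ← sum_mul, mul_div_assoc] at h1 ⊢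
      linarith

lemma boxT_ok {lo hi p q : ℕ} {y : Pt} (k : ℕ) (hy : Bx k lo hi y) : ∃ P N : ℕ,
    boxT lo hi p q k = P * 2 ^ 80 + N ∧ (∑ j ∈ range k, (f44 p j : ℝ) * y j -
      ∑ j ∈ range k, (f44 q j : ℝ) * y j) * SC ≤ (P : ℝ) - N := by
  induction k with
  | zero => exact ⟨0, 0, rfl, by simp⟩
  | succ k ih =>
    obtain ⟨P, N, e1, e2⟩ := ih fun j hj => hy j (by omega)
    have e : boxT lo hi p q (k + 1) = force (f44 p k) fun a => force (f44 q k) fun b =>
        cnd (Nat.blt b a) (Nat.add (Nat.shiftLeft (Nat.mul (Nat.sub a b) (get hi k)) 80)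
          (boxT lo hi p q k)) (Nat.add (Nat.mul (Nat.sub b a) (get lo k)) (boxT lo hi p q k)) := rfl
    have := term_le (f44 p k) (f44 q k) _ _ (hy k (by omega)).1 (hy k (by omega)).2
    simp only [e, force_eq, cnd_eq, Nat.blt_eq, e1, Nat.add_eq, Nat.mul_eq, Nat.sub_eq,
      Nat.shiftLeft_eq', Nat.shiftLeft_eq, sum_range_succ]
    split_ifs with c
    · refine ⟨(f44 p k - f44 q k) * get hi k + P, N, by ring, ?_⟩
      rw [Nat.sub_eq_zero_of_le c.le, zero_mul, Nat.cast_zero] at this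
      rw [Nat.cast_add]
      linarith
    · refine ⟨P, (f44 q k - f44 p k) * get lo k + N, by ring, ?_⟩
      rw [Nat.sub_eq_zero_of_le (not_lt.1 c), zero_mul, Nat.cast_zero] at this
      rw [Nat.cast_add]
      linarith

theorem impP_ok {k lo hi d : ℕ} {rs : List Rw} {r : Rw} (h : impP k lo hi rs r d < INF)
    (hk : k ≤ 16) (hs : ∀ q ∈ rs, q.In k) (hr : r.In k) : impP k lo hi rs r d = 0 ∧
      ∀ y, Bx k lo hi y → (∀ q ∈ rs, q.ok y) → r.ok y := by
  have e0 : ∀ m l, m * pkV l = PV fun j => 0 + cntL j l * m := fun m l => by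
    rw [← PV_lin, pkV_eq]
    simp [PV, pw]
  simp only [impP, force_eq, Nat.mul_eq, e0] at h ⊢
  obtain ⟨c1, c2, f, g, e1, e2⟩ := cmb_ok (k := k) (fun c1 p c2 n => grd (band
    (Nat.blt (Nat.shiftRight (Nat.add p n) 704) 17592186044416)
      (Nat.ble (Nat.add c1 (Nat.shiftRight (boxT lo hi p n k) 80))
        (Nat.add c2 (Nat.mod (boxT lo hi p n k) 1208925819614629174706176)))) 0) rs _ _ _ _ _ _ hs
  rw [e1] at h ⊢
  obtain ⟨h1, h2⟩ := grd_lt h
  refine ⟨h2, fun y hy hq => ?_⟩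
  obtain ⟨P, N, e3, e4⟩ := boxT_ok (p := PV f) (q := PV g) k hy
  simp only [band_eq, Bool.and_eq_true, Nat.blt_eq, Nat.ble_eq, e3, Nat.add_eq, Nat.shiftRight_eq,
    Nat.shiftRight_eq_div_pow] at h1
  have b : ∑ j ∈ range 16, f j + ∑ j ∈ range 16, g j < 2 ^ 44 := by
    refine lt_of_le_of_lt ((Nat.le_div_iff_mul_le (Nat.two_pow_pos _)).2 ?_) h1.1
    rw [PV, PV, add_mul, mul_comm, mul_comm _ (2 ^ 704)]
    exact Nat.add_le_add (Nat.le_add_right _ _) (Nat.le_add_right _ _)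
  rw [sum_congr rfl fun j hj => by rw [f44_PV (by omega) ((mem_range.1 hj).trans_le hk)],
    sum_congr (f := fun j => (f44 (PV g) j : ℝ) * y j) rfl fun j hj => by
      rw [f44_PV (by omega) ((mem_range.1 hj).trans_le hk)]] at e4
  have c0 : c1 + (P * 2 ^ 80 + N) / 2 ^ 80 ≤ c2 + (P * 2 ^ 80 + N) % 2 ^ 80 := h1.2
  have c : (c1 : ℝ) + P ≤ c2 + N := by exact_mod_cast (by clear h1; omega : c1 + P ≤ c2 + N)
  have := e2 y hq (by
    rw [Vok, SC_eq_SndL] at *
    linarith)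
  have m0 : (0 : ℝ) < (Nat.succ (Nat.mod d 65536) : ℕ) := Nat.cast_pos.2 (Nat.succ_pos _)
  generalize Nat.succ (Nat.mod d 65536) = m at this m0
  simp only [Vok, zero_add, Nat.cast_mul, mul_div_assoc, mul_comm _ (m : ℝ), mul_assoc, ← mul_sum,
    ← mul_add] at this
  rw [Rw.ok, sum_cnt y hr.1, sum_cnt y hr.2]
  exact le_of_mul_le_mul_left this m0

theorem empR_ok (t : ℝ) : XTok t empR := fun _ _ _ _ sg S s hl A hI => by
  obtain ⟨h1, h2⟩ := impP_ok hl hI.le hI.rows ⟨by simp, by simp⟩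
  rw [empR, h1, Nat.cast_zero, zero_div]
  refine (xEmpty sg t _ _).anti fun a ha => ?_
  have := h2 _ ha.1 ha.2
  simp only [Rw.ok, List.map_nil, List.sum_nil, Nat.cast_one, Nat.cast_zero, zero_div,
    add_zero] at this
  exact this.not_gt (one_div_pos.2 SC_pos)

lemma nmk_cases {k : ℕ} (rs : List Rw) : ∀ (lo hi s : ℕ) (K : ℕ → ℕ → List Rw → ℕ → ℕ),
    (∀ r ∈ rs, r.In k) →
    (nmk rs lo hi s K = 0 ∧ ∀ y, Bx k lo hi y → ¬ ∀ r ∈ rs, r.ok y) ∨
      ∃ lo' hi' rs' s', nmk rs lo hi s K = K lo' hi' rs' s' ∧ (∀ r ∈ rs', r ∈ rs) ∧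
        ∀ y, Bx k lo hi y → (∀ r ∈ rs, r.ok y) → Bx k lo' hi' y := by
  induction rs with
  | nil => exact fun lo hi s K _ => Or.inr ⟨lo, hi, [], s, rfl, fun _ h => h, fun _ h _ => h⟩
  | cons r rs ih =>
    intro lo hi s K hr
    rw [List.forall_mem_cons] at hr
    have e1 : nmk (r :: rs) lo hi s K = force (Nat.mod s 4) fun q =>
        force (Nat.shiftRight s 2) fun s' =>
        cnd (Nat.beq q 0) (nmk rs lo hi s' fun lo2 hi2 rs2 => K lo2 hi2 (r :: rs2))
        (cnd (Nat.beq q 2) (nmk rs lo hi s' K)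
          (force (Nat.add r.c1 (sumL lo r.l1)) fun a =>
           force (Nat.add r.c2 (sumL hi r.l2)) fun b =>
           cnd (Nat.blt b a) 0
            (force (Nat.sub b a) fun σ =>
             force (tHi σ lo r.l1 hi) fun hi' =>
             force (tLo σ hi r.l2 lo) fun lo' =>
             cnd (Nat.beq q 1) (nmk rs lo' hi' s' fun lo2 hi2 rs2 => K lo2 hi2 (r :: rs2))
               (nmk rs lo' hi' s' K)))) := by
      simp only [nmk]
    have nx : ∀ lo' hi' s' (b : Prop) [Decidable b],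
        (∀ y, Bx k lo hi y → r.ok y → Bx k lo' hi' y) → ∀ v, v = (if b then
          nmk rs lo' hi' s' fun lo2 hi2 rs2 => K lo2 hi2 (r :: rs2) else nmk rs lo' hi' s' K) →
        (v = 0 ∧ ∀ y, Bx k lo hi y → ¬ (r.ok y ∧ ∀ r ∈ rs, r.ok y)) ∨
          ∃ lo' hi' rs' s', v = K lo' hi' rs' s' ∧ (∀ q ∈ rs', q ∈ r :: rs) ∧
            ∀ y, Bx k lo hi y → (r.ok y ∧ ∀ r ∈ rs, r.ok y) → Bx k lo' hi' y := by
      intro lo' hi' s' b _ key v hv
      split_ifs at hv <;> rw [hv]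
      · rcases ih lo' hi' s' (fun lo2 hi2 rs2 => K lo2 hi2 (r :: rs2)) hr.2 with
          g | ⟨lo2, hi2, rs', s2, g1, g2, g3⟩
        · exact Or.inl ⟨g.1, fun y hy h => g.2 y (key y hy h.1) h.2⟩
        · exact Or.inr ⟨lo2, hi2, r :: rs', s2, g1, List.forall_mem_cons.2
            ⟨List.mem_cons_self, fun q hq => List.mem_cons_of_mem _ (g2 q hq)⟩,
            fun y hy h => g3 y (key y hy h.1) h.2⟩
      · rcases ih lo' hi' s' K hr.2 with g | ⟨lo2, hi2, rs', s2, g1, g2, g3⟩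
        · exact Or.inl ⟨g.1, fun y hy h => g.2 y (key y hy h.1) h.2⟩
        · exact Or.inr ⟨lo2, hi2, rs', s2, g1, fun q hq => List.mem_cons_of_mem _ (g2 q hq),
            fun y hy h => g3 y (key y hy h.1) h.2⟩
    simp only [e1, force_eq, cnd_eq, List.forall_mem_cons]
    by_cases c1 : Nat.beq (Nat.mod s 4) 0 = true
    · exact nx lo hi _ True (fun _ h _ => h) _ (by rw [if_pos c1, if_pos trivial])
    by_cases c2 : Nat.beq (Nat.mod s 4) 2 = true
    · exact nx lo hi _ False (fun _ h _ => h) _ (by rw [if_neg c1, if_pos c2, if_neg id])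
    rw [if_neg c1, if_neg c2]
    simp only [Nat.blt_eq, Nat.add_eq, Nat.sub_eq]
    by_cases c3 : r.c2 + sumL hi r.l2 < r.c1 + sumL lo r.l1
    · refine Or.inl ⟨if_pos c3, fun y hy h => ?_⟩
      have g : ((r.c2 + sumL hi r.l2 : ℕ) : ℝ) / SC < ((r.c1 + sumL lo r.l1 : ℕ) : ℝ) / SC :=
        div_lt_div_of_pos_right (by exact_mod_cast c3) SC_pos
      simp only [Nat.cast_add, add_div] at g
      have := h.1
      rw [Rw.ok] at this
      linarith [hy.lb hr.1.1, hy.ub hr.1.2]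
    refine nx _ _ _ _ (fun y hy h j hj => ?_) _ (if_neg c3)
    rw [Rw.ok] at h
    have a1 := hy.lb hr.1.1
    have a2 := hy.ub hr.1.2
    refine ⟨tLo_ok (fun j hj => (hy j hj).2) _ _ hr.1.2 ?_ (fun j hj => (hy j hj).1) j hj,
      tHi_ok (fun j hj => (hy j hj).1) _ _ hr.1.1 ?_ (fun j hj => (hy j hj).2) j hj⟩ <;>
    · simp only [mul_sub]
      rw [map_sub, sumL_cast, Nat.cast_sub (not_lt.1 c3)]
      simp only [Nat.cast_add, add_div, sub_div]
      unfold W at *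
      linarith

theorem nmR_ok (t : ℝ) : XTok t nmR := fun _ ih _ hH sg S s hl A hI => by
  rw [nmR] at hl ⊢
  rcases nmk_cases S.rs S.lo S.hi s (fun lo hi rs s' => ih sg ⟨S.k, S.par, S.kd, lo, hi, rs⟩ s')
    hI.rows with g | ⟨lo, hi, rs, s', g1, g2, g3⟩
  · rw [g.1, Nat.cast_zero, zero_div]
    exact (xEmpty sg t _ _).anti fun a ha => g.2 _ ha.1 ha.2
  · rw [g1] at hl ⊢
    exact (hH sg _ s' hl A (hI.upd lo hi fun r hr => hI.rows r (g2 r hr))).anti
      fun a ha => ⟨g3 _ ha.1 ha.2, fun r hr => ha.2 r (g2 r hr)⟩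

lemma fcv_ok {ih : NS → ℕ → ℕ} (hH : ∀ S s, Val t sg S (ih S s)) (hw : 44 ≤ w)
    {R k par kd lo hi G : ℕ}
    (h : H sg t k (fun j => kindOf (get kd j)) (fun a => ∀ r < n, Pr k G (rowQ w R r) a) 0) (c : ℕ) :
    ∀ (B : ℕ) (rs : List Rw) (s : ℕ), Inv ⟨k, par, kd, lo, hi, rs⟩ A →
    fcv ih w R (ones w n) k par kd lo hi G (Nat.mul 12 (d4 G 0)) c B rs s < INF →
    H sg t k (fun j => kindOf (get kd j)) (fun a => (∀ r < n, B.testBit (w * r) = true →
      Pr k G (rowQ w R r) a) ∧ Om ⟨k, par, kd, lo, hi, rs⟩ A a)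
      ((fcv ih w R (ones w n) k par kd lo hi G (Nat.mul 12 (d4 G 0)) c B rs s : ℝ) / 10 ^ 9) := by
  induction c with
  | zero =>
    intro B rs s hI hl
    obtain ⟨h1, h2⟩ := grd_lt hl
    rw [show fcv ih w R (ones w n) k par kd lo hi G (Nat.mul 12 (d4 G 0)) 0 B rs s = 0 from h2,
      Nat.cast_zero, zero_div, Nat.eq_of_beq_eq_true h1]
    exact h.anti fun a ha r hr => ha.1 r hr (ones_bit hw hr)
  | succ c IH =>
    intro B rs s hI hl
    obtain ⟨c', l1, l2, e1, i1, i2, e3, e4⟩ := ndQ_ok (sg := sg) (t := t) hI w R G (Nat.mod s 64)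
    have e : fcv ih w R (ones w n) k par kd lo hi G (Nat.mul 12 (d4 G 0)) (c + 1) B rs s =
        force (Nat.mod s 64) fun r => force (Nat.mod (Nat.shiftRight s 6) 4) fun q =>
        force (Nat.shiftRight s 8) fun s => force (Nat.lor B (one (Nat.mul w r))) fun B' =>
        ndQ w R par G (Nat.mul 12 (d4 G 0)) k r fun c1 l1 e l2 =>
        cnd (Nat.beq q 0)
          (force (Nat.mod s 256) fun m => force (Nat.shiftRight s 8) fun u =>
            force (low u m) fun d => grd (Nat.beq (impP k lo hi rs ⟨c1, l1, e, l2⟩ d) 0)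
              (force (Nat.shiftRight u m)
                (fcv ih w R (ones w n) k par kd lo hi G (Nat.mul 12 (d4 G 0)) c B' rs)))
          (two s
            (fun v => force (Nat.succ c1) fun c' =>
              ih ⟨k, par, kd, lo, hi, ⟨e, l2, c', l1⟩ :: rs⟩ v)
            fun v => cnd (Nat.beq q 1) (fcv ih w R (ones w n) k par kd lo hi G
              (Nat.mul 12 (d4 G 0)) c B' (⟨c1, l1, e, l2⟩ :: rs) v)
              (fcv ih w R (ones w n) k par kd lo hi G (Nat.mul 12 (d4 G 0)) c B' rs v)) := by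
      simp only [fcv]
    simp only [e, force_eq, e1, two, Nat.add_eq, cnd_eq] at hl ⊢
    generalize Nat.mod s 64 = i at *
    generalize Nat.shiftRight s 8 = s' at *
    have dn : ∀ a, (∀ r < n, B.testBit (w * r) = true → Pr k G (rowQ w R r) a) →
        Rw.ok ⟨c', l1, (rowQ w R i).2, l2⟩ (Y A a) → ∀ r < n,
        (Nat.lor B (one (Nat.mul w i))).testBit (w * r) = true → Pr k G (rowQ w R r) a :=
      fun a g1 g2 r hr hj => by
        rw [Nat.lor_eq, Nat.testBit_or, Bool.or_eq_true, one_eq, Nat.testBit_two_pow,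
          decide_eq_true_iff, Nat.mul_eq, Nat.mul_right_inj (by omega)] at hj
        exact hj.elim (g1 r hr) fun g => g ▸ e3 a g2
    by_cases q0 : Nat.beq (Nat.mod (Nat.shiftRight s 6) 4) 0 = true
    · rw [if_pos q0] at hl ⊢
      obtain ⟨h1, h2⟩ := grd_lt hl
      rw [h2] at hl ⊢
      have := (impP_ok ((Nat.eq_of_beq_eq_true h1).trans_lt (by decide)) hI.le hI.rows ⟨i1, i2⟩).2
      exact (IH _ _ _ hI hl).anti fun a ha => ⟨dn a ha.1 (this _ ha.2.1 ha.2.2), ha.2⟩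
    rw [if_neg q0] at hl ⊢
    have I1 := hI.upd lo hi (rs := ⟨(rowQ w R i).2, l2, Nat.succ c', l1⟩ :: rs)
      (List.forall_mem_cons.2 ⟨⟨i2, i1⟩, hI.rows⟩)
    have I2 := hI.upd lo hi (rs := ⟨c', l1, (rowQ w R i).2, l2⟩ :: rs)
      (List.forall_mem_cons.2 ⟨⟨i1, i2⟩, hI.rows⟩)
    have a2 := lt_of_le_of_lt le_add_self hl
    rw [Nat.cast_add, add_div, add_comm]
    refine e4 _ _ _ ?_ ((hH _ _ (lt_of_le_of_lt le_self_add hl) A I1).anti fun a ha =>
      ⟨ha.1.2.1, List.forall_mem_cons.2 ⟨ha.2, ha.1.2.2⟩⟩)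
    split_ifs at a2 ⊢
    · exact (IH _ _ _ I2 a2).anti fun a ha => ⟨dn a ha.1.1 ha.2, ha.1.2.1,
        List.forall_mem_cons.2 ⟨ha.2, ha.1.2.2⟩⟩
    · exact (IH _ _ _ hI a2).anti fun a ha => ⟨dn a ha.1.1 ha.2, ha.1.2⟩

theorem fcR_ok {gd : NS → ℕ → ℕ → Bool} {T : BT PQ} (hT : T.All (PQ.Gd t gd)) :
    XTok t (fcR gd T) := fun _ ih _ hH sg S s hl A hI => by
  obtain ⟨w, R, n, G, v, hw, e, h⟩ := hdQ_ok hT hI sg hl
  rw [fcR, e, force_eq] at hl ⊢
  exact (fcv_ok (hH sg) hw h _ _ _ _ hI hl).anti fun a ha =>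
    ⟨fun r hr hb => fqB_ok hI hw hr hb ha, ha⟩

end Pool.Agent.MP_c853c5_nt.X
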