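import Pool.Agent.MP_c853c5_nt.X.Chk

/-!
Soundness of the checker: the arithmetic layer.
-/

set_option autoImplicit false

open Finset

namespace Pool.Agent.MP_c853c5_nt.X

open Pool.Agent.MP_c853c5_nt.S Pool.Agent.MP_c853c5_nt.REG

lemma bor_eq (a b : Bool) : bor a b = (a || b) := by cases a <;> rfl
lemma band_eq (a b : Bool) : band a b = (a && b) := by cases a <;> rfl
lemma bnot_eq (a : Bool) : bnot a = !a := by cases a <;> rfl

lemma mn_eq (a b : ℕ) : mn a b = min a b := by
  rw [mn, cnd_eq]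
  split_ifs with h <;> rw [Nat.ble_eq] at h <;> omega

lemma mx_eq (a b : ℕ) : mx a b = max a b := by
  rw [mx, cnd_eq]
  split_ifs with h <;> rw [Nat.ble_eq] at h <;> omega

lemma grd_lt {b : Bool} {x : ℕ} (h : grd b x < INF) : b = true ∧ grd b x = x := by
  cases b
  · exact absurd h (lt_irrefl _)
  · exact ⟨rfl, rfl⟩

lemma Val.grd {t : ℝ} {sg b : Bool} {S : NS} {x : ℕ} (h : b = true → Val t sg S x) :
    Val t sg S (grd b x) := fun hl => by
  obtain ⟨h1, h2⟩ := grd_lt hl
  rw [h2] at hl ⊢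
  exact h h1 hl

lemma bit_eq (X j : ℕ) : bit X j = X.testBit j := by
  rw [Nat.testBit_eq_decide_div_mod_eq, Bool.eq_iff_iff, decide_eq_true_iff, bit, Nat.beq_eq,
    ← Nat.shiftRight_eq_div_pow]
  rfl

lemma one_eq (j : ℕ) : one j = 2 ^ j := Nat.one_shiftLeft j

lemma bit_one (i j : ℕ) : bit (one i) j = true ↔ j = i := by
  rw [bit_eq, one_eq, Nat.testBit_two_pow, decide_eq_true_iff, eq_comm]

lemma bit_zero (j : ℕ) : bit 0 j = false := by rw [bit_eq, Nat.zero_testBit]

lemma allN_iff (p : ℕ → Bool) (k : ℕ) : allN p k = true ↔ ∀ j < k, p j = true := by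
  induction k with
  | zero => simp [allN]
  | succ k ih =>
    rw [show allN p (k + 1) = band (p k) (allN p k) from rfl, band_eq, Bool.and_eq_true, ih,
      Nat.forall_lt_succ_right, and_comm]

lemma anyN_iff (p : ℕ → Bool) (k : ℕ) : anyN p k = true ↔ ∃ j < k, p j = true := by
  induction k with
  | zero => simp [anyN]
  | succ k ih =>
    rw [show anyN p (k + 1) = bor (p k) (anyN p k) from rfl, bor_eq, Bool.or_eq_true, ih,
      Nat.exists_lt_succ_right, or_comm]

lemma allL_iff {α : Type} (p : α → Bool) (l : List α) :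
    allL p l = true ↔ ∀ x ∈ l, p x = true := by
  induction l with
  | nil => simp [allL]
  | cons x l ih =>
    rw [show allL p (x :: l) = band (p x) (allL p l) from rfl, band_eq, Bool.and_eq_true, ih,
      List.forall_mem_cons]

lemma anyL_iff {α : Type} (p : α → Bool) (l : List α) :
    anyL p l = true ↔ ∃ x ∈ l, p x = true := by
  induction l with
  | nil => simp [anyL]
  | cons x l ih =>
    rw [show anyL p (x :: l) = bor (p x) (anyL p l) from rfl, bor_eq, Bool.or_eq_true, ih]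
    simp

lemma app_eq (l m : List ℕ) : app l m = l ++ m := by
  induction l with
  | nil => rfl
  | cons e l ih => exact congrArg (e :: ·) ih

lemma forceL_eq (l : List ℕ) (K : List ℕ → ℕ) : forceL l K = K l := by
  induction l generalizing K with
  | nil => rfl
  | cons e l ih =>
    show force e (fun e' => forceL l fun t => K (e' :: t)) = _
    rw [force_eq, ih]

lemma sumL_eq (v : ℕ) (l : List ℕ) :
    sumL v l = (l.map fun e => cf e * get v (nd e)).sum := by
  induction l with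
  | nil => rfl
  | cons e l ih => exact congrArg (cf e * get v (nd e) + ·) ih

lemma BT.All.find {α : Type} {p : α → Prop} {t : BT α} (h : t.All p) (i : ℕ) : p (t.find i) := by
  induction t generalizing i with
  | lf x => exact h
  | nd n l r il ir =>
    show p (cnd (Nat.blt i n) (l.find i) (r.find (Nat.sub i n)))
    cases Nat.blt i n
    exacts [ir h.2 _, il h.1 _]

lemma addRow_eq (par k X X' c1 c2 : ℕ) (rs : List Rw) (K : List Rw → ℕ) :
    addRow par k X X' c1 c2 rs K = K (rowOf par k X X' c1 c2 :: rs) := by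
  rw [addRow, forceL_eq, forceL_eq, rowOf]

/-! ### sums over masks -/

/-- the total size of the blocks in the mask -/
noncomputable def ms (k X : ℕ) (a : Pt) : ℝ := ∑ i ∈ (range k).filter (fun i => bit X i = true), a i

lemma ms_one {k i : ℕ} (h : i < k) (a : Pt) : ms k (one i) a = a i := by
  rw [ms, sum_eq_single_of_mem i (by simp [h, bit_one]) fun j hj hne =>
    (hne ((bit_one i j).1 (mem_filter.1 hj).2)).elim]

lemma ms_zero (k : ℕ) (a : Pt) : ms k 0 a = 0 := by simp [ms, bit_zero]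

lemma pl_succ (par k X : ℕ) : pl par (k + 1) X = cnd (band (bit X k)
    (bor (Nat.beq k 0) (bnot (bit X (get par k))))) (k :: pl par k X) (pl par k X) := rfl

lemma nl_succ (par k X : ℕ) : nl par (k + 1) X = cnd (bor (bit X k)
    (bor (Nat.beq k 0) (bnot (bit X (get par k))))) (nl par k X) (k :: nl par k X) := rfl

lemma pl_lt (par k X : ℕ) : ∀ e ∈ pl par k X, e < k := by
  induction k with
  | zero => simp [pl]
  | succ k ih =>
    rw [pl_succ, cnd_eq]
    split_ifs
    · exact List.forall_mem_cons.2 ⟨k.lt_succ_self, fun e he => (ih e he).trans k.lt_succ_self⟩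
    · exact fun e he => (ih e he).trans k.lt_succ_self

lemma nl_lt (par k X : ℕ) : ∀ e ∈ nl par k X, e < k := by
  induction k with
  | zero => simp [nl]
  | succ k ih =>
    rw [nl_succ, cnd_eq]
    split_ifs
    · exact fun e he => (ih e he).trans k.lt_succ_self
    · exact List.forall_mem_cons.2 ⟨k.lt_succ_self, fun e he => (ih e he).trans k.lt_succ_self⟩

lemma pl_nd (par k X : ℕ) : ∀ e ∈ pl par k X, nd e < k :=
  fun e he => (nd_le e).trans_lt (pl_lt _ _ _ e he)

lemma nl_nd (par k X : ℕ) : ∀ e ∈ nl par k X, nd e < k :=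
  fun e he => (nd_le e).trans_lt (nl_lt _ _ _ e he)

lemma pl_nl (par X : ℕ) (y : Pt) (k : ℕ) :
    ((pl par (k + 1) X).map y).sum - ((nl par (k + 1) X).map y).sum =
      (if bit X 0 = true then 1 else 0) * y 0 + ∑ j ∈ Ico 1 (k + 1),
        ((if bit X j = true then 1 else 0) - if bit X (get par j) = true then 1 else 0) * y j := by
  induction k with
  | zero =>
    rw [pl_succ, nl_succ]
    cases bit X 0 <;> simp [cnd, band, bor, pl, nl]
  | succ k ih =>
    rw [sum_Ico_succ_top (by omega), ← add_assoc, ← ih, pl_succ par (k + 1), nl_succ par (k + 1),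
      show Nat.beq (k + 1) 0 = false from rfl]
    cases bit X (k + 1) <;> cases bit X (get par (k + 1)) <;>
      simp [cnd, band, bor, bnot] <;> ring

variable {S : NS} {A : ℕ → Finset ℕ} {a : Pt}

lemma Inv.ms (h : Inv S A) (X : ℕ) (a : Pt) : ms S.k X a =
    ((pl S.par S.k X).map (W (Y A a))).sum - ((nl S.par S.k X).map (W (Y A a))).sum := by
  rw [List.map_congr_left fun e he => W_lt ((pl_lt _ _ _ e he).trans_le h.le) _,
    List.map_congr_left fun e he => W_lt ((nl_lt _ _ _ e he).trans_le h.le) _]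
  obtain ⟨k, hk⟩ := Nat.exists_eq_add_of_le' h.pos
  have := h.wsum (fun j => if bit X j = true then 1 else 0) a
  rw [X.ms, sum_filter]
  simp only [ite_mul, one_mul, zero_mul] at this ⊢
  rw [this, hk, pl_nl]
  simp only [ite_mul, one_mul, zero_mul]

lemma rowOf_iff (h : Inv S A) (X X' c1 c2 : ℕ) (a : Pt) :
    (rowOf S.par S.k X X' c1 c2).ok (Y A a) ↔
      (c1 : ℝ) / SC + ms S.k X a ≤ (c2 : ℝ) / SC + ms S.k X' a := by
  simp only [rowOf, Rw.ok, app_eq, List.map_append, List.sum_append, h.ms]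
  constructor <;> intro _ <;> linarith

lemma rowOf_lt (par k X X' c1 c2 : ℕ) : (∀ e ∈ (rowOf par k X X' c1 c2).l1, nd e < k) ∧
    ∀ e ∈ (rowOf par k X X' c1 c2).l2, nd e < k := by
  simp only [rowOf, app_eq, List.mem_append]
  exact ⟨fun e he => he.elim (pl_nd _ _ _ e) (nl_nd _ _ _ e),
    fun e he => he.elim (nl_nd _ _ _ e) (pl_nd _ _ _ e)⟩

/-- the box of the nodes -/
def Bx (k lo hi : ℕ) (y : Pt) : Prop :=
  ∀ j < k, (get lo j : ℝ) / SC ≤ y j ∧ y j ≤ (get hi j : ℝ) / SC

lemma Bx.lb {k lo hi : ℕ} {y : Pt} (h : Bx k lo hi y) {l : List ℕ} (hl : ∀ e ∈ l, nd e < k) :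
    (sumL lo l : ℝ) / SC ≤ (l.map (W y)).sum := by
  rw [sumL_eq]
  induction l with
  | nil => simp
  | cons e l ih =>
    rw [List.forall_mem_cons] at hl
    simp only [List.map_cons, List.sum_cons, Nat.cast_add, add_div, Nat.cast_mul, mul_div_assoc]
    exact add_le_add (mul_le_mul_of_nonneg_left (h _ hl.1).1 (Nat.cast_nonneg _)) (ih hl.2)

lemma Bx.ub {k lo hi : ℕ} {y : Pt} (h : Bx k lo hi y) {l : List ℕ} (hl : ∀ e ∈ l, nd e < k) :
    (l.map (W y)).sum ≤ (sumL hi l : ℝ) / SC := by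
  rw [sumL_eq]
  induction l with
  | nil => simp
  | cons e l ih =>
    rw [List.forall_mem_cons] at hl
    simp only [List.map_cons, List.sum_cons, Nat.cast_add, add_div, Nat.cast_mul, mul_div_assoc]
    exact add_le_add (mul_le_mul_of_nonneg_left (h _ hl.1).2 (Nat.cast_nonneg _)) (ih hl.2)

lemma sub_le_cast (p q : ℕ) : (p : ℝ) / SC - (q : ℝ) / SC ≤ ((Nat.sub p q : ℕ) : ℝ) / SC := by
  rw [← sub_div]
  refine div_le_div_of_nonneg_right ?_ SC_pos.le
  rw [sub_le_iff_le_add]
  exact_mod_cast (le_tsub_add : p ≤ p - q + q)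

lemma ahi_ok (h : Inv S A) (ha : Om S A a) {i : ℕ} (hi : i < S.k) :
    a i ≤ (ahi S i : ℝ) / SC := by
  rw [← ms_one hi a, h.ms]
  exact (sub_le_sub (Bx.ub ha.1 (pl_nd _ _ _)) (Bx.lb ha.1 (nl_nd _ _ _))).trans (sub_le_cast _ _)

lemma alo_ok (h : Inv S A) (ha : Om S A a) {i : ℕ} (hi : i < S.k) (h0 : 0 < alo S i) :
    (alo S i : ℝ) / SC ≤ a i := by
  rw [← ms_one hi a, h.ms]
  refine le_trans (le_of_eq ?_)
    (sub_le_sub (Bx.lb ha.1 (pl_nd _ _ _)) (Bx.ub ha.1 (nl_nd _ _ _)))
  rw [← sub_div, ← Nat.cast_sub (Nat.sub_pos_iff_lt.1 h0).le]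
  rfl

/-! ### implied rows -/

lemma sum_cnt (y : Pt) {k : ℕ} {l : List ℕ} (hl : ∀ e ∈ l, nd e < k) :
    (l.map (W y)).sum = ∑ j ∈ range k, (cntL j l : ℝ) * y j := by
  induction l with
  | nil => simp [cntL]
  | cons e l ih =>
    rw [List.forall_mem_cons] at hl
    have e1 : ∀ j, (cntL j (e :: l) : ℝ) * y j =
        (if nd e = j then (cf e : ℝ) * y j else 0) + (cntL j l : ℝ) * y j := fun j => by
      rw [show cntL j (e :: l) = cnd (Nat.beq (nd e) j) (cf e + cntL j l) (cntL j l) from rfl,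
        cnd_eq]
      simp only [Nat.beq_eq]
      split_ifs <;> push_cast <;> ring
    simp only [e1, sum_add_distrib, sum_ite_eq, mem_range, hl.1, if_true, List.map_cons,
      List.sum_cons, ih hl.2, W]

lemma sumD_eq (v : ℕ) (p n : List ℕ) (k : ℕ) :
    sumD v p n k = ∑ j ∈ range k, (cntL j p - cntL j n) * get v j := by
  induction k with
  | zero => rfl
  | succ k ih => rw [sum_range_succ, ← ih]; exact add_comm _ _

lemma onBox_ok {r : Rw} {y : Pt} (h : onBox S r = true) (hy : Bx S.k S.lo S.hi y)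
    (h1 : ∀ e ∈ r.l1, nd e < S.k) (h2 : ∀ e ∈ r.l2, nd e < S.k) : r.ok y := by
  rw [onBox, forceL_eq, forceL_eq, cnd_eq, Nat.beq_eq] at h
  split_ifs at h with g
  rw [Nat.ble_eq, sumD_eq, sumD_eq] at g
  have g' : (r.c1 : ℝ) + ∑ j ∈ range S.k, (((cntL j r.l1 - cntL j r.l2) * get S.hi j : ℕ) : ℝ) ≤
      r.c2 + ∑ j ∈ range S.k, (((cntL j r.l2 - cntL j r.l1) * get S.lo j : ℕ) : ℝ) := by
    exact_mod_cast g
  have key := sum_le_sum fun j (hj : j ∈ range S.k) => term_le (cntL j r.l1) (cntL j r.l2) _ _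
    (hy j (mem_range.1 hj)).1 (hy j (mem_range.1 hj)).2
  rw [sum_sub_distrib, ← sum_mul] at key
  simp only [sub_mul, sum_sub_distrib] at key
  rw [Rw.ok, sum_cnt y h1, sum_cnt y h2, ← sub_nonneg]
  refine nonneg_of_mul_nonneg_left ?_ SC_pos
  have e := SC_pos.ne'
  field_simp
  nlinarith

lemma Rw.add_ok {r q : Rw} {y : Pt} (h : r.ok y) (h' : q.ok y) : (r.add q).ok y := by
  simp only [Rw.ok, Rw.add, app_eq, List.map_append, List.sum_append, Nat.add_eq, Nat.cast_add,
    add_div] at *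
  linarith

/-- the indices of the row are nodes -/
def Rw.In (r : Rw) (k : ℕ) : Prop := (∀ e ∈ r.l1, nd e < k) ∧ ∀ e ∈ r.l2, nd e < k

lemma Rw.In.add {r q : Rw} {k : ℕ} (h : r.In k) (h' : q.In k) : (r.add q).In k := by
  simp only [Rw.In, Rw.add, app_eq, List.mem_append]
  exact ⟨fun e he => he.elim (h.1 e) (h'.1 e), fun e he => he.elim (h.2 e) (h'.2 e)⟩

lemma selR_ok {rs : List Rw} {y : Pt} {k : ℕ} (h : ∀ r ∈ rs, r.ok y ∧ r.In k) (m : ℕ) :
    (selR rs m).ok y ∧ (selR rs m).In k := by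
  induction rs generalizing m with
  | nil => simp [selR, Rw.ok, Rw.In]
  | cons r rs ih =>
    rw [List.forall_mem_cons] at h
    have := ih h.2 (Nat.shiftRight m 1)
    show (cnd (bit m 0) (r.add (selR rs (Nat.shiftRight m 1))) (selR rs (Nat.shiftRight m 1))).ok y ∧
      (cnd (bit m 0) (r.add (selR rs (Nat.shiftRight m 1))) (selR rs (Nat.shiftRight m 1))).In k
    cases bit m 0
    exacts [this, ⟨Rw.add_ok h.1.1 this.1, h.1.2.add this.2⟩]

theorem imp_ok {r : Rw} {d : ℕ} (h : imp S r d = true) (hI : Inv S A) (ha : Om S A a)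
    (hr : r.In S.k) : r.ok (Y A a) := by
  obtain ⟨h1, h2⟩ := selR_ok (fun q hq => ⟨ha.2 q hq, hI.rows q hq⟩) (Nat.shiftRight d 1)
  have h3 : (selR S.rs (Nat.shiftRight d 1)).swap.In S.k := ⟨h2.2, h2.1⟩
  unfold imp at h
  revert h
  cases bit d 0 <;> intro h
  · have := onBox_ok h ha.1 (hr.add h3).1 (hr.add h3).2
    simp only [cnd, Rw.ok, Rw.add, Rw.swap, app_eq, List.map_append, List.sum_append, Nat.add_eq,
      Nat.cast_add, add_div] at *
    linarith
  · have := onBox_ok h ha.1 ((hr.add hr).add h3).1 ((hr.add hr).add h3).2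
    simp only [cnd, Rw.ok, Rw.add, Rw.swap, app_eq, List.map_append, List.sum_append, Nat.add_eq,
      Nat.cast_add, add_div] at *
    linarith

lemma sclL_ok (m : ℕ) (y : Pt) {k : ℕ} (l : List ℕ) :
    ((sclL m l).map (W y)).sum = (m + 1) * (l.map (W y)).sum ∧
      ((∀ e ∈ l, nd e < k) → ∀ e ∈ sclL m l, nd e < k) := by
  induction l with
  | nil => simp [sclL]
  | cons e l ih =>
    have e1 : nd (e + 16 * m * cf e) = nd e := by
      rw [mul_assoc]
      exact Nat.add_mul_mod_self_left _ _ _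
    have e2 : cf (e + 16 * m * cf e) = (m + 1) * cf e := by
      show (e + 16 * m * cf e) >>> 4 + 1 = _
      have e3 : cf e = e / 16 + 1 := congrArg Nat.succ (Nat.shiftRight_eq_div_pow e 4)
      rw [Nat.shiftRight_eq_div_pow, mul_assoc, Nat.add_mul_div_left _ _ (by norm_num), add_mul]
      omega
    rw [show sclL m (e :: l) = (e + 16 * m * cf e) :: sclL m l from rfl]
    simp only [List.map_cons, List.sum_cons, List.forall_mem_cons, ih.1, W, e1, e2]
    exact ⟨by push_cast; ring, fun h => ⟨h.1, ih.2 h.2⟩⟩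

lemma Rw.scl_iff (r : Rw) (m : ℕ) (y : Pt) : (r.scl m).ok y ↔ r.ok y := by
  have hm : (0 : ℝ) < m + 1 := by positivity
  simp only [Rw.ok, Rw.scl, (sclL_ok m y (k := 0) _).1, Nat.mul_eq, Nat.cast_mul, Nat.cast_succ,
    mul_div_assoc, ← mul_add]
  exact mul_le_mul_iff_right₀ hm

lemma Rw.In.scl {r : Rw} {k : ℕ} (h : r.In k) (m : ℕ) : (r.scl m).In k :=
  ⟨(sclL_ok m (fun _ => 0) _).2 h.1, (sclL_ok m (fun _ => 0) _).2 h.2⟩

lemma selW_ok {rs : List Rw} {y : Pt} {k : ℕ} (h : ∀ r ∈ rs, r.ok y ∧ r.In k) (m : ℕ) :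
    (selW rs m).ok y ∧ (selW rs m).In k := by
  induction rs generalizing m with
  | nil => simp [selW, Rw.ok, Rw.In]
  | cons r rs ih =>
    rw [List.forall_mem_cons] at h
    have := ih h.2 (Nat.shiftRight m 12)
    rw [show selW (r :: rs) m = cnd (Nat.beq (Nat.mod m 4096) 0) (selW rs (Nat.shiftRight m 12))
      ((r.scl (Nat.pred (Nat.mod m 4096))).add (selW rs (Nat.shiftRight m 12))) from rfl]
    cases Nat.beq (Nat.mod m 4096) 0
    exacts [⟨Rw.add_ok ((r.scl_iff _ y).2 h.1.1) this.1, (h.1.2.scl _).add this.2⟩, this]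

theorem impW_ok {r : Rw} {d : ℕ} (h : impW S r d = true) (hI : Inv S A) (ha : Om S A a)
    (hr : r.In S.k) : r.ok (Y A a) := by
  obtain ⟨h1, h2⟩ := selW_ok (fun q hq => ⟨ha.2 q hq, hI.rows q hq⟩) (Nat.shiftRight d 12)
  have h3 := (hr.scl (Nat.mod d 4096)).add
    (show (selW S.rs (Nat.shiftRight d 12)).swap.In S.k from ⟨h2.2, h2.1⟩)
  have := onBox_ok h ha.1 h3.1 h3.2
  rw [← r.scl_iff (Nat.mod d 4096)]
  generalize r.scl (Nat.mod d 4096) = q at this
  simp only [Rw.ok, Rw.add, Rw.swap, app_eq, List.map_append, List.sum_append, Nat.add_eq,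
    Nat.cast_add, add_div] at *
  linarith

end Pool.Agent.MP_c853c5_nt.X
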