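import Pool.Agent.MP_c853c5_nt.X.GdD
import Pool.Agent.MP_c853c5_nt.X.Pk
import Pool.Agent.MP_c853c5_nt.X.SndA

/-!
The lane library: packed vectors with fields of `32` bits, the grid, the test of a row.
-/

set_option autoImplicit false
set_option exponentiation.threshold 2000

open Finset

namespace Pool.Agent.MP_c853c5_nt.X

open Pool.Agent.MP_c853c5_nt.S Pool.Agent.MP_c853c5_nt.REG

namespace Ln

lemma pk_succ (n : ℕ) (f : ℕ → ℕ) : pk (n + 1) f = pk n f + f n * 2 ^ (32 * n) :=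
  sum_range_succ _ _

lemma pk_congr {n : ℕ} {f g : ℕ → ℕ} (h : ∀ c < n, f c = g c) : pk n f = pk n g :=
  sum_congr rfl fun c hc => by rw [h c (mem_range.1 hc)]

lemma pk_zero (n : ℕ) : pk n (fun _ => 0) = 0 := by simp [pk]

lemma pk_add (n : ℕ) (f g : ℕ → ℕ) : pk n f + pk n g = pk n fun c => f c + g c := by
  simp only [pk, add_mul, sum_add_distrib]

lemma pk_smul (n w : ℕ) (f : ℕ → ℕ) : w * pk n f = pk n fun c => w * f c := by
  simp only [pk, mul_sum, mul_assoc]

lemma pk_sub {n : ℕ} {f g : ℕ → ℕ} (h : ∀ c < n, g c ≤ f c) :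
    pk n f - pk n g = pk n fun c => f c - g c := by
  refine Nat.sub_eq_of_eq_add ?_
  rw [pk_add]
  exact pk_congr fun c hc => (Nat.sub_add_cancel (h c hc)).symm

lemma pk_lt {n : ℕ} {f : ℕ → ℕ} (h : ∀ c < n, f c < 2 ^ 32) : pk n f < 2 ^ (32 * n) := by
  induction n with
  | zero => simp [pk]
  | succ n ih =>
    have h1 := ih fun c hc => h c (Nat.lt_succ_of_lt hc)
    have h2 : (f n + 1) * 2 ^ (32 * n) ≤ 2 ^ 32 * 2 ^ (32 * n) :=
      Nat.mul_le_mul_right _ (h n (Nat.lt_succ_self n))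
    rw [pk_succ, show 32 * (n + 1) = 32 + 32 * n by ring, pow_add]
    rw [add_mul, one_mul] at h2
    omega

lemma pk_bit {n : ℕ} {f : ℕ → ℕ} (h : ∀ c < n, f c < 2 ^ 32) (c : ℕ) {i : ℕ} (hi : i < 32) :
    (pk n f).testBit (32 * c + i) = (decide (c < n) && (f c).testBit i) := by
  induction n with
  | zero => simp [pk]
  | succ n ih =>
    have h0 : ∀ c < n, f c < 2 ^ 32 := fun c hc => h c (Nat.lt_succ_of_lt hc)
    rw [pk_succ, add_comm, mul_comm (f n), Nat.testBit_two_pow_mul_add _ (pk_lt h0)]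
    rcases lt_trichotomy c n with g | g | g
    · rw [if_pos (by omega), ih h0, decide_eq_true g, decide_eq_true (Nat.lt_succ_of_lt g)]
    · subst g
      rw [if_neg (by omega), Nat.add_sub_cancel_left, decide_eq_true (Nat.lt_succ_self c),
        Bool.true_and]
    · rw [if_neg (by omega), decide_eq_false (by omega : ¬ c < n + 1), Bool.false_and]
      exact Nat.testBit_lt_two_pow ((h n (Nat.lt_succ_self n)).trans_le
        (Nat.pow_le_pow_right two_pos (by omega)))

lemma pk_app (n m : ℕ) (f g : ℕ → ℕ) :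
    pk n f + pk m g <<< (32 * n) = pk (n + m) fun c => if c < n then f c else g (c - n) := by
  rw [Nat.shiftLeft_eq, pk, pk, pk, sum_range_add, sum_mul]
  congr 1
  · exact sum_congr rfl fun c hc => by rw [if_pos (mem_range.1 hc)]
  · refine sum_congr rfl fun c _ => ?_
    rw [if_neg (by omega), Nat.add_sub_cancel_left, mul_add, pow_add]
    ring

/-- two copies of the lanes, the second one changed by `w` -/
lemma pk_two {n : ℕ} (hn : 0 < n) (f : ℕ → ℕ) (w : ℕ) :
    pk n f + (pk n fun c => f c + w) <<< (32 * n) =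
      pk (n * 2) fun c => f (c % n) + w * (c / n) := by
  rw [pk_app, mul_two]
  refine pk_congr fun c hc => ?_
  split_ifs with g
  · rw [Nat.mod_eq_of_lt g, Nat.div_eq_of_lt g, mul_zero, add_zero]
  · have e : c = c - n + n := by omega
    have g' : c - n < n := by omega
    generalize c - n = d at e g'
    subst e
    rw [Nat.add_mod_right, Nat.mod_eq_of_lt g', Nat.add_div_right _ hn, Nat.div_eq_of_lt g',
      zero_add, mul_one]

lemma dbl_eq (m : ℕ) : ∀ {n : ℕ} (_ : 0 < n) (f : ℕ → ℕ),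
    dbl m (32 * n) (pk n f) = pk (n * 2 ^ m) fun c => f (c % n) := by
  induction m with
  | zero =>
    intro n _ f
    rw [pow_zero, mul_one]
    exact pk_congr fun c hc => by rw [Nat.mod_eq_of_lt hc]
  | succ m ih =>
    intro n hn f
    show force (pk n f + pk n f <<< (32 * n)) (fun V' => force (2 * (32 * n)) fun s' =>
      dbl m s' V') = _
    have e := pk_two hn f 0
    simp only [add_zero, zero_mul] at e
    rw [force_eq, force_eq, e, show 2 * (32 * n) = 32 * (n * 2) by ring,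
      ih (Nat.mul_pos hn two_pos), show n * 2 * 2 ^ m = n * 2 ^ (m + 1) by ring]
    exact pk_congr fun c _ => by rw [Nat.mod_mul_right_mod]

lemma rmp_eq (b : ℕ) : ∀ {n : ℕ} (_ : 0 < n) (f : ℕ → ℕ) (w : ℕ) (K : ℕ → ℕ → ℕ → ℕ),
    rmp b (32 * n) (pk n fun _ => 1) (pk n f) w K =
      K (32 * (n * 2 ^ b)) (pk (n * 2 ^ b) fun _ => 1)
        (pk (n * 2 ^ b) fun c => f (c % n) + w * (c / n)) := by
  induction b with
  | zero =>
    intro n _ f w K
    rw [pow_zero, mul_one]
    refine congrArg (K _ _) (pk_congr fun c hc => ?_)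
    rw [Nat.mod_eq_of_lt hc, Nat.div_eq_of_lt hc, mul_zero, add_zero]
  | succ b ih =>
    intro n hn f w K
    show force (pk n f + (pk n f + w * pk n fun _ => 1) <<< (32 * n)) (fun X' =>
      force ((pk n fun _ => 1) + (pk n fun _ => 1) <<< (32 * n)) fun O' =>
      force (2 * (32 * n)) fun s' => force (2 * w) fun w' => rmp b s' O' X' w' K) = _
    have e := pk_two hn (fun _ => 1) 0
    simp only [add_zero, zero_mul] at e
    have e' := pk_two hn f w
    rw [force_eq, force_eq, force_eq, force_eq, e, pk_smul, pk_add]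
    simp only [mul_one]
    rw [e', show 2 * (32 * n) = 32 * (n * 2) by ring,
      ih (Nat.mul_pos hn two_pos), show n * 2 * 2 ^ b = n * 2 ^ (b + 1) by ring]
    refine congrArg (K _ _) (pk_congr fun c _ => ?_)
    rw [Nat.mod_mul_right_mod, Nat.mod_mul_right_div_self, ← Nat.div_div_eq_div_mul, add_assoc,
      mul_comm 2 w, mul_assoc, ← mul_add, Nat.mod_add_div]

lemma off_succ (bs j : ℕ) : off bs (j + 1) = b3 bs j + off bs j := rfl

lemma off_le (bs j n : ℕ) : off bs j ≤ off bs (j + n) := by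
  induction n with
  | zero => exact le_rfl
  | succ n ih => rw [← add_assoc, off_succ]; omega

lemma lanes_eq (bs h n : ℕ) : ∀ (j m : ℕ) (K : ℕ → List ℕ → ℕ), off bs j + m = off bs (j + n) →
    ∃ L : List ℕ, lanes bs h n j (32 * 2 ^ off bs j) (pk (2 ^ off bs j) fun _ => 1) m K =
      K (pk (2 ^ off bs (j + n)) fun _ => 1) L ∧
      ∀ i < n, nthN L i = pk (2 ^ off bs (j + n)) fun c => get h (j + i) * cx bs (j + i) c := by
  induction n with
  | zero => exact fun j m K _ => ⟨[], rfl, fun i hi => absurd hi (Nat.not_lt_zero i)⟩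
  | succ n ih =>
    intro j m K hm
    have e1 : j + (n + 1) = j + 1 + n := by ring
    have e2 := off_le bs (j + 1) n
    rw [e1] at hm ⊢
    rw [off_succ] at e2
    have e3 : 2 ^ off bs j * 2 ^ b3 bs j = 2 ^ off bs (j + 1) := by
      rw [off_succ, pow_add, mul_comm]
    have e4 : off bs (j + 1) + (m - b3 bs j) = off bs (j + 1 + n) := by
      rw [off_succ]
      omega
    obtain ⟨L, h1, h2⟩ := ih (j + 1) (m - b3 bs j) (fun O2 L => K O2
      ((pk (2 ^ off bs (j + 1 + n)) fun c => get h j * cx bs j c) :: L)) e4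
    refine ⟨(pk (2 ^ off bs (j + 1 + n)) fun c => get h j * cx bs j c) :: L, ?_, fun i hi => ?_⟩
    · show force (b3 bs j) (fun b => force (get h j) fun w => force (m - b) fun m' =>
        rmp b (32 * 2 ^ off bs j) (pk (2 ^ off bs j) fun _ => 1) 0 w fun s' O' X =>
        force (dbl m' s' X) fun X' => force (j + 1) fun j' =>
        lanes bs h n j' s' O' m' fun O2 L => K O2 (X' :: L)) = _
      rw [force_eq, force_eq, force_eq, ← pk_zero (2 ^ off bs j), rmp_eq _ (Nat.two_pow_pos _),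
        force_eq, force_eq, dbl_eq _ (Nat.mul_pos (Nat.two_pow_pos _) (Nat.two_pow_pos _)),
        ← h1]
      simp only [zero_add, Nat.mod_mul_right_div_self]
      rw [e3, ← pow_add, e4]
      rfl
    · cases i with
      | zero => rfl
      | succ i =>
        rw [show j + (i + 1) = j + 1 + i by ring]
        exact h2 i (Nat.lt_of_succ_lt_succ hi)

lemma fld_lt (f : ℕ → ℕ) (k : ℕ) : fld f k < 2 ^ (24 * k) := by
  induction k with
  | zero => exact Nat.one_pos
  | succ k ih =>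
    show mn (f k) 16777215 <<< (24 * k) + fld f k < _
    have h2 : (min (f k) 16777215 + 1) * 2 ^ (24 * k) ≤ 2 ^ 24 * 2 ^ (24 * k) :=
      Nat.mul_le_mul_right _ (by omega)
    rw [mn_eq, Nat.shiftLeft_eq, show 24 * (k + 1) = 24 + 24 * k by ring, pow_add]
    rw [add_mul, one_mul] at h2
    omega

lemma get_fld (f : ℕ → ℕ) {k j : ℕ} (hj : j < k) : get (fld f k) j = min (f j) 16777215 := by
  induction k with
  | zero => exact absurd hj (Nat.not_lt_zero j)
  | succ k ih =>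
    show get (mn (f k) 16777215 <<< (24 * k) + fld f k) j = _
    refine Nat.eq_of_testBit_eq fun i => ?_
    rw [get_eq, mn_eq, Nat.shiftLeft_eq, mul_comm (min _ _), Nat.testBit_mod_two_pow,
      Nat.testBit_shiftRight, Nat.testBit_two_pow_mul_add _ (fld_lt f k)]
    by_cases hi : i < 24
    · rcases Nat.lt_succ_iff_lt_or_eq.1 hj with g | g
      · rw [if_pos (by omega), ← ih g, get_eq, Nat.testBit_mod_two_pow, Nat.testBit_shiftRight]
      · subst g
        rw [if_neg (by omega), Nat.add_sub_cancel_left, decide_eq_true hi, Bool.true_and]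
    · rw [decide_eq_false hi, Bool.false_and]
      refine (Nat.testBit_lt_two_pow (lt_of_lt_of_le (?_ : _ < 2 ^ 24)
        (Nat.pow_le_pow_right two_pos (not_lt.1 hi)))).symm
      omega

lemma le_cdv (σ : ℕ) {c : ℕ} (hc : 0 < c) : σ ≤ cdv σ c * c := by
  rw [cdv, force_eq]
  show σ ≤ (σ + (c - 1)) / c * c
  have h1 := Nat.div_add_mod (σ + (c - 1)) c
  have h2 := Nat.mod_lt (σ + (c - 1)) hc
  rw [mul_comm] at h1
  omega

lemma cx_lt (bs j c : ℕ) : cx bs j c < 2 ^ b3 bs j := Nat.mod_lt _ (Nat.two_pow_pos _)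

/-- the lanes of a weighted sum of nodes -/
noncomputable def sx (g : Gr) (l : List ℕ) (c : ℕ) : ℕ :=
  (l.map fun e => cf e * (get g.h (nd e) * cx g.bs (nd e) c)).sum

variable {g : Gr} {S : NS}

lemma sumX_eq (hg : g.OK S) {l : List ℕ} (hl : ∀ e ∈ l, nd e < S.k) :
    sumX g.X l = pk (2 ^ g.B) (sx g l) := by
  induction l with
  | nil => exact (pk_zero _).symm
  | cons e l ih =>
    rw [List.forall_mem_cons] at hl
    show cf e * nthN g.X (nd e) + sumX g.X l = _
    rw [ih hl.2, hg.hX _ hl.1, pk_smul, pk_add]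
    rfl

lemma sx_le (hg : g.OK S) {l : List ℕ} (hl : ∀ e ∈ l, nd e < S.k) (c : ℕ) :
    sx g l c ≤ sumL g.wd l := by
  induction l with
  | nil => exact le_rfl
  | cons e l ih =>
    rw [List.forall_mem_cons] at hl
    show cf e * (get g.h (nd e) * cx g.bs (nd e) c) + sx g l c ≤
      cf e * get g.wd (nd e) + sumL g.wd l
    rw [hg.wd _ hl.1]
    exact add_le_add (Nat.mul_le_mul_left _ (Nat.mul_le_mul_left _ (cx_lt _ _ _).le)) (ih hl.2)

lemma sx_ub {k v c : ℕ} {y : Pt} {l : List ℕ} (hl : ∀ e ∈ l, nd e < k)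
    (h : ∀ j < k, y j ≤ ((get v j + get g.h j * cx g.bs j c : ℕ) : ℝ) / SC) :
    (l.map (W y)).sum ≤ ((sumL v l + sx g l c : ℕ) : ℝ) / SC := by
  induction l with
  | nil => simp [sumL, sx]
  | cons e l ih =>
    rw [List.forall_mem_cons] at hl
    have e1 : sumL v (e :: l) + sx g (e :: l) c =
        cf e * (get v (nd e) + get g.h (nd e) * cx g.bs (nd e) c) + (sumL v l + sx g l c) := by
      show cf e * get v (nd e) + sumL v l +
        (cf e * (get g.h (nd e) * cx g.bs (nd e) c) + sx g l c) = _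
      ring
    rw [e1, List.map_cons, List.sum_cons, Nat.cast_add, add_div, Nat.cast_mul, mul_div_assoc]
    exact add_le_add (mul_le_mul_of_nonneg_left (h _ hl.1) (Nat.cast_nonneg _)) (ih hl.2)

lemma sx_lb {k v c : ℕ} {y : Pt} {l : List ℕ} (hl : ∀ e ∈ l, nd e < k)
    (h : ∀ j < k, ((get v j + get g.h j * cx g.bs j c : ℕ) : ℝ) / SC ≤ y j) :
    ((sumL v l + sx g l c : ℕ) : ℝ) / SC ≤ (l.map (W y)).sum := by
  induction l with
  | nil => simp [sumL, sx]
  | cons e l ih =>
    rw [List.forall_mem_cons] at hl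
    have e1 : sumL v (e :: l) + sx g (e :: l) c =
        cf e * (get v (nd e) + get g.h (nd e) * cx g.bs (nd e) c) + (sumL v l + sx g l c) := by
      show cf e * get v (nd e) + sumL v l +
        (cf e * (get g.h (nd e) * cx g.bs (nd e) c) + sx g l c) = _
      ring
    rw [e1, List.map_cons, List.sum_cons, Nat.cast_add, add_div, Nat.cast_mul, mul_div_assoc]
    exact add_le_add (mul_le_mul_of_nonneg_left (h _ hl.1) (Nat.cast_nonneg _)) (ih hl.2)

/-- bounds for the nodes on a cell, the node `0` included -/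
lemma cell_lb (hg : g.OK S) {c : ℕ} {y : Pt} (hc : Cell g S c y) (hy : Bx S.k S.lo S.hi y) :
    ∀ j < S.k, ((get S.lo j + get g.h j * cx g.bs j c : ℕ) : ℝ) / SC ≤ y j := fun j hj => by
  rcases Nat.eq_zero_or_pos j with rfl | h
  · rw [hg.h0, zero_mul, add_zero]
    exact (hy 0 hj).1
  · rw [mul_comm]
    exact (hc j h hj).1

lemma cell_ub (hg : g.OK S) {c : ℕ} {y : Pt} (hc : Cell g S c y) (hy : Bx S.k S.lo S.hi y) :
    ∀ j < S.k, y j ≤ ((get g.up j + get g.h j * cx g.bs j c : ℕ) : ℝ) / SC := fun j hj => by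
  rcases Nat.eq_zero_or_pos j with rfl | h
  · rw [hg.h0, zero_mul, add_zero, hg.up0]
    exact (hy 0 hj).2
  · rw [hg.up j h hj, show get S.lo j + get g.h j + get g.h j * cx g.bs j c =
      get S.lo j + (cx g.bs j c + 1) * get g.h j by ring]
    exact (hc j h hj).2

/-- the comparison of two vectors of lanes -/
lemma cmp_ok {n : ℕ} {P Q : ℕ → ℕ} (hP : ∀ c < n, P c ≤ 2 ^ 31) (hQ : ∀ c < n, Q c < 2 ^ 31)
    {c : ℕ} (hc : c < n) :
    ((pk n fun c => 2 ^ 31 + Q c) - pk n P).testBit (32 * c + 31) = true ↔ P c ≤ Q c := by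
  rw [pk_sub fun c hc => (hP c hc).trans (Nat.le_add_right _ _),
    pk_bit (fun c hc => by have := hQ c hc; omega) c (by norm_num), decide_eq_true hc,
    Bool.true_and, Nat.testBit_eq_decide_div_mod_eq, decide_eq_true_iff]
  have h1 := hP c hc
  have h2 := hQ c hc
  omega

lemma onM_T (hg : g.OK S) (c : ℕ) : onM g.T c ↔ c < 2 ^ g.B := by
  rw [onM, hg.hT, pk_bit (fun _ _ => by norm_num) c (by norm_num), Nat.testBit_two_pow_self,
    Bool.and_true, decide_eq_true_iff]

lemma onM_land (m m' c : ℕ) : onM (m &&& m') c ↔ onM m c ∧ onM m' c := by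
  rw [onM, onM, onM, Nat.testBit_and, Bool.and_eq_true]

lemma onM_lor (m m' c : ℕ) : onM (m ||| m') c ↔ onM m c ∨ onM m' c := by
  rw [onM, onM, onM, Nat.testBit_or, Bool.or_eq_true]

lemma onM_zero (c : ℕ) : ¬ onM 0 c := by
  rw [onM, Nat.zero_testBit]
  exact Bool.false_ne_true

/-- the mask as a vector of lanes -/
lemma land_T (hg : g.OK S) (m : ℕ) :
    m &&& g.T = pk (2 ^ g.B) fun c => if m.testBit (32 * c + 31) = true then 2 ^ 31 else 0 := by
  refine Nat.eq_of_testBit_eq fun i => ?_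
  have hi : i % 32 < 32 := Nat.mod_lt _ (by norm_num)
  rw [← Nat.div_add_mod i 32, Nat.testBit_and, hg.hT, pk_bit (fun _ _ => by norm_num) _ hi,
    pk_bit (fun _ _ => by split_ifs <;> norm_num) _ hi]
  by_cases e : i % 32 = 31
  · rw [e]
    cases h : m.testBit (32 * (i / 32) + 31) <;> simp
  · have : (2 ^ 31).testBit (i % 32) = false := Nat.testBit_two_pow_of_ne (Ne.symm e)
    split_ifs <;> simp only [this, Nat.zero_testBit, Bool.and_false]

lemma land_T_shift (hg : g.OK S) (m : ℕ) :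
    (m &&& g.T) >>> 31 =
      pk (2 ^ g.B) fun c => if m.testBit (32 * c + 31) = true then 1 else 0 := by
  rw [Nat.shiftRight_eq_div_pow]
  refine Nat.div_eq_of_eq_mul_right (Nat.two_pow_pos _) ?_
  rw [land_T hg, pk_smul]
  exact pk_congr fun c _ => by split_ifs <;> simp

end Ln

open Ln

lemma Ln.pk_geo (n : ℕ) : 4294967295 * (pk n fun _ => 1) + 1 = 2 ^ (32 * n) ∧
    4294967295 * (pk n fun c => c) + (pk n fun _ => 1) + 2 ^ (32 * n) = n * 2 ^ (32 * n) + 1 := by
  induction n with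
  | zero => simp [pk]
  | succ n ih =>
    rw [pk_succ, pk_succ, show 32 * (n + 1) = 32 + 32 * n by ring, pow_add]
    obtain ⟨h1, h2⟩ := ih
    generalize 2 ^ (32 * n) = q at h1 h2 ⊢
    generalize (pk n fun _ => 1) = x at h1 h2 ⊢
    generalize (pk n fun c => c) = y at h2 ⊢
    constructor <;> nlinarith

lemma Ln.gO_eq (B : ℕ) : gO B = pk (2 ^ B) fun _ => 1 := by
  have h := (pk_geo (2 ^ B)).1
  show (one (32 <<< B) - 1) / 4294967295 = _
  rw [one_eq, Nat.shiftLeft_eq]
  omega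

lemma Ln.gI_eq (B : ℕ) : gI B = pk (2 ^ B) fun c => c := by
  have h := (pk_geo (2 ^ B)).2
  show ((one B - 1) <<< (32 <<< B) + 1 - gO B) / 4294967295 = _
  rw [gO_eq, one_eq, Nat.shiftLeft_eq, Nat.shiftLeft_eq, Nat.sub_mul, one_mul]
  have := Nat.le_mul_of_pos_left (2 ^ (32 * 2 ^ B)) (Nat.two_pow_pos B)
  omega

lemma Ln.gU_eq {B o b : ℕ} (hB : B ≤ 16) (h : o + b ≤ B) :
    gU B o b = pk (2 ^ B) fun c => c / 2 ^ o % 2 ^ b := by
  have p1 : 2 ^ b ≤ 2 ^ 16 := Nat.pow_le_pow_right two_pos (by omega)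
  have p2 : 2 ^ B ≤ 2 ^ 16 := Nat.pow_le_pow_right two_pos hB
  show gI B >>> o &&& (one b - 1) * gO B = _
  rw [gI_eq, gO_eq, pk_smul, one_eq]
  refine Nat.eq_of_testBit_eq fun i => ?_
  have hi : i % 32 < 32 := Nat.mod_lt _ (by norm_num)
  rw [← Nat.div_add_mod i 32, Nat.testBit_and, pk_bit (fun _ _ => by omega) _ hi,
    pk_bit (fun c _ => (Nat.mod_lt _ (Nat.two_pow_pos b)).trans_le (by omega)) _ hi, mul_one,
    Nat.testBit_two_pow_sub_one, Nat.testBit_mod_two_pow, Nat.testBit_shiftRight,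
    Nat.testBit_div_two_pow]
  by_cases e : i % 32 < b
  · rw [← add_assoc, add_comm o, add_assoc, pk_bit (fun _ _ => by omega) _ (by omega), add_comm o]
    simp only [e, decide_true, Bool.and_true, Bool.true_and]
    cases decide (i / 32 < 2 ^ B) <;> simp
  · simp [e]

/-- a further field below the others -/
lemma Ln.get_low {v x j : ℕ} (hv : 2 ^ (24 * (j + 1)) ∣ v) (hx : x < 16777216) :
    2 ^ (24 * j) ∣ v + x <<< (24 * j) ∧ get (v + x <<< (24 * j)) j = x ∧
      ∀ i, j < i → get (v + x <<< (24 * j)) i = get v i := by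
  obtain ⟨m, rfl⟩ := hv
  have e : 2 ^ (24 * (j + 1)) * m + x <<< (24 * j) = 2 ^ (24 * j) * (2 ^ 24 * m + x) := by
    rw [Nat.shiftLeft_eq]
    ring
  have h2 : x <<< (24 * j) < 2 ^ (24 * (j + 1)) := by
    rw [Nat.shiftLeft_eq, show 24 * (j + 1) = 24 + 24 * j by ring, pow_add]
    exact Nat.mul_lt_mul_of_pos_right hx (Nat.two_pow_pos _)
  refine ⟨⟨_, e⟩, ?_, fun i hi => Nat.eq_of_testBit_eq fun n => ?_⟩
  · rw [e, get_eq, Nat.shiftRight_eq_div_pow, Nat.mul_div_cancel_left _ (Nat.two_pow_pos _)]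
    omega
  · rw [get_eq, get_eq, Nat.testBit_mod_two_pow, Nat.testBit_mod_two_pow, Nat.testBit_shiftRight,
      Nat.testBit_shiftRight, Nat.testBit_two_pow_mul_add _ h2, if_neg (by omega),
      Nat.testBit_two_pow_mul, decide_eq_true (by omega : 24 * i + n ≥ 24 * (j + 1)), Bool.true_and]

lemma Ln.mkL_eq (lo hi bs n : ℕ) : ∀ (j : ℕ) (K : KL), mkL lo hi bs n j (off bs j) K < INF →
    ∃ (h up wd : ℕ) (L : List ℕ), mkL lo hi bs n j (off bs j) K = K (off bs (j + n)) h up wd L ∧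
      (2 ^ (24 * j) ∣ h ∧ 2 ^ (24 * j) ∣ up ∧ 2 ^ (24 * j) ∣ wd) ∧ ∀ i, j ≤ i → i < j + n →
        get up i = get lo i + get h i ∧ get wd i = get h i * 2 ^ b3 bs i ∧
        get hi i ≤ get lo i + get h i * 2 ^ b3 bs i ∧
        nthN L (i - j) = get h i * gU (off bs (j + n)) (off bs i) (b3 bs i) := by
  induction n with
  | zero => exact fun j K _ => ⟨0, 0, 0, [], rfl, by simp, fun i h1 h2 => by omega⟩
  | succ n ih =>
    intro j K hl
    have e : mkL lo hi bs (n + 1) j (off bs j) K = force (b3 bs j) fun b =>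
      mkT (mkL lo hi bs n) j (off bs j) K b (get lo j)
        ((get hi j - get lo j + (one b - 1)) >>> b) (24 * j) := rfl
    rw [e, force_eq, mkT] at hl ⊢
    obtain ⟨h1, h2⟩ := grd_lt hl
    have e2 : Nat.add (off bs j) (b3 bs j) = off bs (j + 1) := Nat.add_comm _ _
    rw [h2, force_eq, e2] at hl ⊢
    have a4 : get hi j - get lo j ≤
        (get hi j - get lo j + (one (b3 bs j) - 1)) >>> b3 bs j * 2 ^ b3 bs j := by
      have := le_cdv (get hi j - get lo j) (Nat.two_pow_pos (b3 bs j))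
      rw [cdv, force_eq] at this
      rw [one_eq, Nat.shiftRight_eq_div_pow]
      exact this
    generalize (get hi j - get lo j + (one (b3 bs j) - 1)) >>> b3 bs j = w at h1 hl a4 ⊢
    rw [Nat.blt_eq] at h1
    have a1 : get lo j + w * 2 ^ b3 bs j < 16777215 := Nat.shiftLeft_eq .. ▸ h1
    have a2 : w ≤ w * 2 ^ b3 bs j := Nat.le_mul_of_pos_right _ (Nat.two_pow_pos _)
    obtain ⟨h, up, wd, L, e3, ⟨d1, d2, d3⟩, h3⟩ := ih (j + 1) _ hl
    obtain ⟨c1, c2, c3⟩ := get_low d1 (x := w) (by omega)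
    obtain ⟨c4, c5, c6⟩ := get_low d2 (x := get lo j + w) (by omega)
    obtain ⟨c7, c8, c9⟩ := get_low d3 (x := w <<< b3 bs j) (by rw [Nat.shiftLeft_eq]; omega)
    rw [show j + (n + 1) = j + 1 + n by ring]
    refine ⟨_, _, _, _, e3, ⟨c1, c4, c7⟩, fun i i1 i2 => ?_⟩
    simp only [Nat.add_eq, Nat.shiftLeft_eq'] at c2 c5 c8 ⊢
    rcases i1.eq_or_lt with rfl | i3
    · rw [c2, c5, c8, Nat.sub_self]
      exact ⟨rfl, Nat.shiftLeft_eq .., by omega, Nat.mod_zero _⟩
    · rw [c3 i i3, c6 i i3, c9 i i3, show i - j = i - (j + 1) + 1 by omega]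
      exact h3 i i3 i2

theorem mk_ok : MkStmt := fun S bs K hk hl => by
  rw [mkGr] at hl ⊢
  obtain ⟨h1, h2⟩ := grd_lt hl
  have h4 : b3 bs 0 = 0 := Nat.eq_of_beq_eq_true h1
  have e0 : off bs 1 = 0 := h4
  rw [h2] at hl ⊢
  obtain ⟨h, up, wd, L, e, ⟨d1, d2, d3⟩, h3⟩ := mkL_eq S.lo S.hi bs (Nat.pred S.k) 1 _ (e0 ▸ hl)
  rw [show 1 + Nat.pred S.k = S.k by rw [Nat.pred_eq_sub_one]; omega] at e h3
  rw [e0] at e
  rw [e] at hl ⊢
  obtain ⟨h5, h6⟩ := grd_lt hl
  rw [Nat.ble_eq] at h5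
  refine ⟨_, ?_, h6⟩
  have z : ∀ {v : ℕ}, 2 ^ (24 * 1) ∣ v → get v 0 = 0 := fun hv =>
    Nat.mod_eq_zero_of_dvd hv
  obtain ⟨-, c1, c2⟩ := get_low (j := 0) d2 (get_lt S.hi 0)
  refine ⟨rfl, h5, h4, z d1, (Nat.mod_zero _).trans (gO_eq _), (Nat.mod_zero _).trans ?_,
    fun j hj => ?_, c1, fun j h1 hj => (c2 j h1).trans (h3 j h1 hj).1, fun j hj => ?_,
    fun j h1 hj => (h3 j h1 hj).2.2.1⟩
  · show gO _ <<< 31 = _
    rw [gO_eq, Nat.shiftLeft_eq, mul_comm, pk_smul]
    rfl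
  · cases j with
    | zero =>
      show 0 = pk _ fun c => get h 0 * _
      simp only [z d1, zero_mul, pk_zero]
    | succ j =>
      have := off_le bs (j + 1 + 1) (S.k - (j + 1 + 1))
      rw [show j + 1 + 1 + (S.k - (j + 1 + 1)) = S.k by omega, off_succ] at this
      refine (h3 (j + 1) (by omega) hj).2.2.2.trans ?_
      rw [gU_eq h5 (by omega), pk_smul]
      rfl
  · rcases Nat.eq_zero_or_pos j with rfl | h1
    · show get wd 0 = get h 0 * _
      rw [z d1, z d3, zero_mul]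
    · exact (h3 j h1 hj).2.1

/-- the five vectors -/
def Ln.v5 (g : Gr) (S : NS) : ℕ → ℕ
  | 0 => S.lo
  | 1 => g.up
  | 2 => S.hi
  | 3 => g.wd
  | _ => o24

lemma Ln.get_v4 {j : ℕ} (hj : j < 16) : get o24 j = 1 :=
  (by decide +kernel : ∀ j < 16, get o24 j = 1) j hj

lemma Ln.ent5 (g : Gr) (S : NS) {j : ℕ} (hj : j < 16) :
    Nat.land (Nat.shiftRight (g5 g S) (Nat.mul 24 j)) m5 =
      pw 384 (fun i => get (v5 g S i) j) 5 := by
  have e1 : m5 = pw 384 (fun _ => 2 ^ 24 - 1) 5 := by decide +kernel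
  have e5 : ∀ (w : ℕ) (f : ℕ → ℕ), pw w f 5 = f 4 <<< (w * 4) + (f 3 <<< (w * 3) +
      (f 2 <<< (w * 2) + (f 1 <<< (w * 1) + f 0))) := fun w f => by
    simp only [pw, sum_range_succ, range_zero, sum_empty, Nat.shiftLeft_eq]
    ring
  have e2 : g5 g S = pw 384 (fun i => c5 (v5 g S i)) 5 := by
    rw [e5]
    simp only [g5, Nat.add_eq, Nat.shiftLeft_eq', v5, Nat.reduceMul]
  simp only [c5, one_eq] at e2
  rw [e1, e2, Nat.land_eq, pw_cut (by norm_num) (by norm_num)]
  refine pw_congr fun i hi => ?_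
  rw [Nat.shiftRight_eq, ← Nat.shiftRight_add, add_comm,
    pw_get (f := fun i => Nat.mod (v5 g S i) (2 ^ 384)) (fun _ _ => Nat.mod_lt _ (Nat.two_pow_pos _))
      hi (by rw [Nat.mul_eq]; omega), get_eq]
  show (v5 g S i % 2 ^ 384) >>> _ % _ = _
  refine Nat.eq_of_testBit_eq fun n => ?_
  simp only [Nat.testBit_mod_two_pow, Nat.testBit_shiftRight, Nat.mul_eq]
  by_cases h : n < 24
  · rw [decide_eq_true (show 24 * j + n < 384 by omega), Bool.true_and]
  · simp [h]

lemma Ln.pas_eq {op : ℕ → ℕ → ℕ} (h : ∀ a x y, op (op a x) y = op a (x + y)) (h0 : ∀ a, op a 0 = a)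
    (g : Gr) (S : NS) (l : List ℕ) : ∀ (s : ℕ) (f : ℕ → ℕ) (K : ℕ → (ℕ → ℕ) → ℕ),
    pas op g (g5 g S) l s f K =
      K (s + pw 384 (fun i => sumL (v5 g S i) l) 5) fun a => op (f a) (sumX g.X l) := by
  induction l with
  | nil =>
    intro s f K
    show K s f = K (s + pw 384 (fun _ => 0) 5) fun a => op (f a) 0
    simp only [h0, pw, zero_mul, sum_const_zero, add_zero]
  | cons e l ih =>
    intro s f K
    have e1 : pas op g (g5 g S) (e :: l) s f K = force (nd e) fun j => pas op g (g5 g S) l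
      (Nat.add s (Nat.mul (cf e) (Nat.land (Nat.shiftRight (g5 g S) (Nat.mul 24 j)) m5)))
        (fun a => op (f a) (Nat.mul (cf e) (xg g j))) K := rfl
    rw [e1, force_eq, ih, ent5 g S (j := nd e) (Nat.mod_lt _ (by norm_num)), Nat.add_eq, Nat.mul_eq, mul_comm,
      pw_mul, add_assoc, pw_add]
    simp only [h, mul_comm _ (cf e)]
    rfl

lemma Ln.sumL_le (v : ℕ) (l : List ℕ) : sumL v l ≤ sumL o24 l * 16777216 := by
  induction l with
  | nil => exact Nat.zero_le _
  | cons e l ih =>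
    show cf e * get v (nd e) + sumL v l ≤ (cf e * get _ (nd e) + sumL _ l) * 16777216
    rw [get_v4 (j := nd e) (Nat.mod_lt _ (by norm_num)), mul_one, add_mul]
    exact Nat.add_le_add (Nat.mul_le_mul_left _ (get_lt _ _).le) ih

lemma Ln.f5_eq {g : Gr} {S : NS} {l : List ℕ} (h : sumL o24 l < 4294967296) (i s : ℕ) (hi : i < 5)
    (hs : s = 384 * i) : f5 (0 + pw 384 (fun i => sumL (v5 g S i) l) 5) s = sumL (v5 g S i) l := by
  have b : ∀ i, sumL (v5 g S i) l < 2 ^ 384 := fun i => ((sumL_le _ l).trans_lt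
    (show _ < 2 ^ 56 by omega)).trans_le (Nat.pow_le_pow_right two_pos (by norm_num))
  have := pw_get (s := 0) (b := 384) (fun i _ => b i) hi le_rfl
  rw [Nat.shiftRight_zero, Nat.mod_eq_of_lt (b i)] at this
  rw [zero_add, f5, c5, one_eq, hs]
  exact this

theorem lt_ok : LtStmt := fun g S r c y hg _ h1 h2 hc hm hcell hy => by
  have hy' : Bx S.k S.lo S.hi y := hy
  rw [ltM, pas_eq (op := Nat.sub) Nat.sub_sub Nat.sub_zero,
    pas_eq (op := Nat.add) Nat.add_assoc Nat.add_zero, lt2, cnd_eq] at hm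
  split_ifs at hm with z
  swap
  · exact absurd hm (onM_zero c)
  have z0 : ∀ f : ℕ → ℕ, f 4 * 2 ^ (384 * 4) ≤ 0 + pw 384 f 5 := fun f => by
    rw [zero_add, pw_succ, mul_comm]
    exact Nat.le_add_right _ _
  have z' : sumL o24 r.l1 + sumL o24 r.l2 < 4294967296 := by
    rw [Nat.blt_eq, Nat.shiftRight_eq, show 1536 = 384 * 4 from rfl, Nat.shiftRight_eq_div_pow] at z
    have := (Nat.le_div_iff_mul_le (Nat.two_pow_pos _)).2 ((add_mul _ _ _).trans_le
      (Nat.add_le_add (z0 fun i => sumL (v5 g S i) r.l1) (z0 fun i => sumL (v5 g S i) r.l2)))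
    have := this.trans_lt z
    simpa only [v5] using this
  have z1 : sumL o24 r.l1 < 4294967296 := by omega
  have z2 : sumL o24 r.l2 < 4294967296 := by omega
  have z3 := f5_eq (g := g) (S := S) z2 0 0 (by norm_num) rfl
  rw [f5, Nat.shiftRight_eq, Nat.shiftRight_zero] at z3
  rw [z3, f5_eq z1 2 768 (by norm_num) rfl, f5_eq z1 1 384 (by norm_num) rfl,
    f5_eq z1 3 1152 (by norm_num) rfl, f5_eq z2 3 1152 (by norm_num) rfl, cnd_eq] at hm
  simp only [v5] at hm
  split_ifs at hm with a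
  · rw [Nat.ble_eq] at a
    have a' : (r.c1 : ℝ) + sumL S.hi r.l1 ≤ r.c2 + sumL S.lo r.l2 := by exact_mod_cast a
    have a2 := div_le_div_of_nonneg_right a' SC_pos.le
    have a3 := hy'.ub h1
    have a4 := hy'.lb h2
    rw [add_div, add_div] at a2
    rw [Rw.ok]
    linarith
  rw [lt3, cnd_eq] at hm
  split_ifs at hm with b
  swap
  · exact absurd hm (onM_zero c)
  rw [Nat.blt_eq] at b
  generalize hp : Nat.add r.c1 (sumL g.up r.l1) = p at hm b
  generalize hq : Nat.add r.c2 (sumL S.lo r.l2) = q at hm b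
  have b1 : p - q + sumL g.wd r.l1 < 2147483648 := Nat.left_le_or.trans_lt b
  have b2 : q - p + sumL g.wd r.l2 < 2147483648 := Nat.right_le_or.trans_lt b
  have hm' : onM (((2147483648 + (q - p)) * g.O + sumX g.X r.l2 -
      ((p - q) * g.O + sumX g.X r.l1)) &&& g.T) c := by
    rw [show 2147483648 + (q - p) = p - q + (2147483648 + q - p) by omega, add_mul, add_assoc,
      Nat.add_sub_add_left]
    exact hm
  rw [onM_land, sumX_eq hg h1, sumX_eq hg h2, hg.hO, pk_smul, pk_smul, pk_add, pk_add] at hm'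
  have e := hm'.1
  simp only [mul_one, add_assoc] at e
  have e2 := (cmp_ok (P := fun c => p - q + sx g r.l1 c) (Q := fun c => q - p + sx g r.l2 c)
    (fun c _ => by have := sx_le hg h1 c; omega) (fun c _ => by have := sx_le hg h2 c; omega)
    hc).1 e
  have hp' : r.c1 + sumL g.up r.l1 = p := hp
  have hq' : r.c2 + sumL S.lo r.l2 = q := hq
  have e3 : r.c1 + (sumL g.up r.l1 + sx g r.l1 c) ≤ r.c2 + (sumL S.lo r.l2 + sx g r.l2 c) := by
    omega
  have e4 : (r.c1 : ℝ) + (sumL g.up r.l1 + sx g r.l1 c : ℕ) ≤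
      r.c2 + (sumL S.lo r.l2 + sx g r.l2 c : ℕ) := by exact_mod_cast e3
  have a2 := div_le_div_of_nonneg_right e4 SC_pos.le
  have a3 := sx_ub h1 (cell_ub hg hcell hy')
  have a4 := sx_lb h2 (cell_lb hg hcell hy')
  rw [add_div, add_div] at a2
  rw [Rw.ok]
  linarith

end Pool.Agent.MP_c853c5_nt.X
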