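import Pool.Agent.MP_c853c5_nt.X.FPD
import Pool.Agent.MP_c853c5_nt.X.FQ
import Pool.Agent.MP_c853c5_nt.X.Lane
import Pool.Agent.MP_c853c5_nt.DT.L3D

/-!
Soundness of the test of all rows of a polytope on all cells of a grid.
-/

set_option autoImplicit false

open Finset

namespace Pool.Agent.MP_c853c5_nt.X

open Pool.Agent.MP_c853c5_nt.S Pool.Agent.MP_c853c5_nt.REG Ln

variable {S : NS} {A : ℕ → Finset ℕ} {t : ℝ} {sg : Bool} {q : PQ} {g : Gr}

/-! ### the columns -/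

/-- the weight of the group `a` in the row `r` -/
def uQ (q : PQ) (a r : ℕ) : ℕ := dg (rowQ q.w q.R r).1 (12 * a) % 64

lemma uQ_lt (q : PQ) (a r : ℕ) : uQ q a r < 64 := Nat.mod_lt _ (by norm_num)

lemma mQ_eq (hw : 44 ≤ q.w) : mQ q = pw q.w (fun _ => 1) q.n := by
  rw [mQ, one_eq, one_eq]
  exact pw_one (by omega) _

lemma cQ_eq (hw : 44 ≤ q.w) (a : ℕ) : cQ q a = pw q.w (uQ q a) q.n := by
  rw [cQ, nQ, mQ_eq hw, Nat.mul_eq (y := 63), pw_mul]
  refine (pw_cut (b := 6) (by omega) (by omega) _ _).trans (pw_congr fun r _ => ?_)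
  show q.R >>> (12 * a + 40) >>> (q.w * r) % 64 = q.R >>> (q.w * r + 40) >>> (12 * a) % 4096 % 64
  rw [← Nat.shiftRight_add, ← Nat.shiftRight_add, Nat.mod_mod_of_dvd _ (by norm_num)]
  congr 2
  omega

lemma xQ_eq (hw : 44 ≤ q.w) (a b : ℕ) :
    xQ q a b = pw q.w (fun r => uQ q a r + 64 - uQ q b r) q.n := by
  rw [xQ, hQ, cQ_eq hw, cQ_eq hw, mQ_eq hw, Nat.mul_eq, pw_mul, Nat.add_eq, pw_add, Nat.sub_eq,
    pw_sub fun r _ => by have := uQ_lt q b r; omega]

lemma dQ_eq (hw : 44 ≤ q.w) (a b : ℕ) :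
    dQ q a b = pw q.w (fun r => uQ q a r - uQ q b r) q.n := by
  have hx : ∀ r < q.n, uQ q a r + 64 - uQ q b r < 2 ^ q.w := fun r _ =>
    lt_w hw (by have := uQ_lt q a r; omega)
  rw [dQ, xQ_eq hw, mQ_eq hw]
  simp only [Nat.mul_eq, Nat.land_eq, Nat.shiftRight_eq]
  rw [pw_mask hx (by omega), pw_mul, pw_land (by omega) hx fun r _ => lt_w hw (by omega)]
  refine pw_congr fun r _ => ?_
  have h1 := uQ_lt q a r
  have h2 := uQ_lt q b r
  rw [Nat.shiftRight_eq_div_pow]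
  rcases le_or_gt (uQ q b r) (uQ q a r) with e | e
  · rw [show (uQ q a r + 64 - uQ q b r) / 2 ^ 6 % 2 * 63 = 2 ^ 6 - 1 by omega,
      Nat.and_two_pow_sub_one_eq_mod]
    omega
  · rw [show (uQ q a r + 64 - uQ q b r) / 2 ^ 6 % 2 * 63 = 0 by omega, Nat.and_zero]
    omega

lemma sQ_eq (hw : 44 ≤ q.w) (a b : ℕ) :
    sQ q a b = pw q.w (fun r => uQ q b r - uQ q a r) q.n := by
  rw [sQ, dQ_eq hw, xQ_eq hw, hQ, mQ_eq hw, Nat.mul_eq, pw_mul, Nat.add_eq, pw_add, Nat.sub_eq,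
    pw_sub fun r _ => by have := uQ_lt q b r; omega]
  exact pw_congr fun r _ => by have := uQ_lt q b r; omega

lemma rowQ_lt (w R r : ℕ) : (rowQ w R r).2 < 2 ^ 40 := Nat.mod_lt _ (by norm_num)

lemma zQ_eq (hw : 44 ≤ q.w) (a : ℕ) : zQ q a =
    pw q.w (fun r => (rowQ q.w q.R r).2 + 8796093022208 - uQ q a r * 1000000) q.n := by
  have e3 : Nat.land q.R (Nat.mul (pw q.w (fun _ => 1) q.n) 1099511627775) =
      pw q.w (fun r => (rowQ q.w q.R r).2) q.n := by
    rw [Nat.mul_eq, pw_mul]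
    exact pw_cut (b := 40) (by omega) (by omega) _ _
  rw [zQ, eQ, mQ_eq hw, e3, cQ_eq hw, Nat.mul_eq, Nat.mul_eq, pw_mul, pw_mul, Nat.add_eq, pw_add,
    Nat.sub_eq, pw_sub fun r _ => by have := uQ_lt q a r; omega]

lemma okQ_ok (hw : 44 ≤ q.w) (h : okQ q = true) {r a : ℕ} (hr : r < q.n) (ha : a < q.k) :
    dg (rowQ q.w q.R r).1 (12 * a) = uQ q a r := by
  simp only [okQ, band_eq, Bool.and_eq_true, Nat.ble_eq, Nat.beq_eq, Nat.add_eq, Nat.mul_eq,
    Nat.land_eq, Nat.shiftLeft_eq', mQ_eq hw, pw_mul, one_mul] at h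
  obtain ⟨h1, h2⟩ := h
  have e : ones 12 q.k * 4032 = pw 12 (fun _ => 4032) q.k := by
    rw [ones, one_eq, one_eq]
    exact (congrArg (· * 4032) (pw_one (by omega) _)).trans (pw_mul ..)
  have l1 : ∀ r < q.k, (fun _ : ℕ => 4032) r < 2 ^ 12 := fun _ _ => by norm_num
  have l2 : pw 12 (fun _ => 4032) q.k <<< 40 < 2 ^ q.w := by
    rw [Nat.shiftLeft_eq]
    exact (Nat.mul_lt_mul_of_pos_right (pw_lt l1) (Nat.two_pow_pos _)).trans_le
      (by rw [← pow_add]; exact Nat.pow_le_pow_right two_pos h1)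
  rw [e] at h2
  refine (Nat.mod_eq_of_lt (Nat.lt_pow_two_of_testBit (n := 6) _ fun i hi => ?_)).symm
  show (q.R >>> (q.w * r + 40) >>> (12 * a) % 2 ^ 12).testBit i = false
  rw [Nat.testBit_mod_two_pow, Nat.testBit_shiftRight, Nat.testBit_shiftRight]
  by_cases c : i < 12
  · have := congrArg (·.testBit (q.w * r + (40 + (12 * a + i)))) h2
    simp only [Nat.testBit_and, Nat.zero_testBit] at this
    rw [pw_bit (fun _ _ => l2) r (by omega), Nat.testBit_shiftLeft, Nat.add_sub_cancel_left,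
      pw_bit l1 a c, decide_eq_true hr, decide_eq_true ha, decide_eq_true (Nat.le_add_right _ _),
      show (4032 : ℕ).testBit i = true by interval_cases i <;> rfl] at this
    rw [add_assoc]
    simpa using fun _ => by simpa using this
  · simp [c]

lemma pw_fld {w n r b : ℕ} {f : ℕ → ℕ} (hb : b ≤ w) (h : ∀ r < n, f r < 2 ^ b) (hr : r < n) :
    pw w f n / 2 ^ (w * r) % 2 ^ b = f r := by
  have := pw_get (s := 0) (b := b) (fun r hr => (h r hr).trans_le (Nat.pow_le_pow_right two_pos hb))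
    hr (by omega)
  rwa [add_zero, Nat.shiftRight_eq_div_pow, Nat.shiftRight_zero, Nat.mod_eq_of_lt (h r hr)] at this

/-! ### sums over the nodes -/

/-- positive and negative parts of the coefficients of the row `r` -/
def sPos (q : PQ) (par G m r : ℕ) (f : ℕ → ℕ) : ℕ :=
  ∑ j ∈ Ico 1 (m + 1), (uQ q (d4 G j) r - uQ q (d4 G (get par j)) r) * f j

def sNeg (q : PQ) (par G m r : ℕ) (f : ℕ → ℕ) : ℕ :=
  ∑ j ∈ Ico 1 (m + 1), (uQ q (d4 G (get par j)) r - uQ q (d4 G j) r) * f j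

lemma sPos_succ (q : PQ) (par G m r : ℕ) (f : ℕ → ℕ) : sPos q par G (m + 1) r f =
    (uQ q (d4 G (m + 1)) r - uQ q (d4 G (get par (m + 1))) r) * f (m + 1) + sPos q par G m r f := by
  rw [sPos, sum_Ico_succ_top (by omega), add_comm, sPos]

lemma sNeg_succ (q : PQ) (par G m r : ℕ) (f : ℕ → ℕ) : sNeg q par G (m + 1) r f =
    (uQ q (d4 G (get par (m + 1))) r - uQ q (d4 G (m + 1)) r) * f (m + 1) + sNeg q par G m r f := by
  rw [sNeg, sum_Ico_succ_top (by omega), add_comm, sNeg]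

lemma sum_bd {m c : ℕ} (hm : m < 16) {u v f : ℕ → ℕ} (hu : ∀ j, u j < 64)
    (h : ∀ j ∈ Ico 1 (m + 1), f j ≤ c) : ∑ j ∈ Ico 1 (m + 1), (u j - v j) * f j ≤ 945 * c := by
  refine (sum_le_card_nsmul _ _ (63 * c) fun j hj =>
    Nat.mul_le_mul (by have := hu j; omega) (h j hj)).trans ?_
  rw [Nat.card_Ico, smul_eq_mul, ← mul_assoc]
  exact Nat.mul_le_mul_right _ (by omega)

lemma sPos_le {par G m r c : ℕ} (hm : m < 16) {f : ℕ → ℕ} (h : ∀ j ∈ Ico 1 (m + 1), f j ≤ c) :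
    sPos q par G m r f ≤ 945 * c := sum_bd hm (fun _ => uQ_lt ..) h

lemma sNeg_le {par G m r c : ℕ} (hm : m < 16) {f : ℕ → ℕ} (h : ∀ j ∈ Ico 1 (m + 1), f j ≤ c) :
    sNeg q par G m r f ≤ 945 * c := sum_bd hm (fun _ => uQ_lt ..) h

lemma sPos_add (q : PQ) (par G m r : ℕ) (f f' : ℕ → ℕ) :
    sPos q par G m r (fun j => f j + f' j) = sPos q par G m r f + sPos q par G m r f' := by
  simp only [sPos, mul_add, sum_add_distrib]

lemma sNeg_add (q : PQ) (par G m r : ℕ) (f f' : ℕ → ℕ) :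
    sNeg q par G m r (fun j => f j + f' j) = sNeg q par G m r f + sNeg q par G m r f' := by
  simp only [sNeg, mul_add, sum_add_distrib]

lemma sPos_mono {par G m r : ℕ} {f f' : ℕ → ℕ} (h : ∀ j ∈ Ico 1 (m + 1), f j ≤ f' j) :
    sPos q par G m r f ≤ sPos q par G m r f' :=
  sum_le_sum fun j hj => Nat.mul_le_mul_left _ (h j hj)

/-- a row holds near a point -/
lemma pr_of (hI : Inv S A) {G r : ℕ} {lo hi : ℕ → ℕ} {a : Pt}
    (hu : ∀ j < S.k, dg (rowQ q.w q.R r).1 (12 * d4 G j) = uQ q (d4 G j) r)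
    (hb : ∀ j ∈ Ico 1 S.k, ((lo j + 16 : ℕ) : ℝ) / SC ≤ Y A a j ∧
      Y A a j + 16 / SC ≤ (hi j : ℝ) / SC)
    (h : uQ q (d4 G 0) r * 1000000 + sPos q S.par G (S.k - 1) r hi ≤
      (rowQ q.w q.R r).2 + sNeg q S.par G (S.k - 1) r lo) : Pr S.k G (rowQ q.w q.R r) a :=
    fun b h1 hs => by
  have h2 : (∑ j ∈ Ico 1 S.k, (wt (rowQ q.w q.R r).1 G j -
      wt (rowQ q.w q.R r).1 G (get S.par j)) * Y A b j) * SC ≤
      (sPos q S.par G (S.k - 1) r hi : ℝ) - sNeg q S.par G (S.k - 1) r lo := by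
    rw [sPos, sNeg, Nat.sub_add_cancel hI.pos, Nat.cast_sum, Nat.cast_sum, ← sum_sub_distrib,
      sum_mul]
    refine sum_le_sum fun j hj => ?_
    obtain ⟨j1, j2⟩ := mem_Ico.1 hj
    obtain ⟨b1, b2⟩ := hb j hj
    have := abs_le.1 (Y_near hI hI.le (fun i hi => (h1 i hi).2) j2)
    rw [Nat.cast_add, add_div, Nat.cast_ofNat] at b1
    rw [wt, wt, hu j j2, hu _ ((hI.par j j1 j2).trans j2)]
    exact term_le _ _ _ _ (by linarith) (by linarith)
  have h3 : ((uQ q (d4 G 0) r * 1000000 + sPos q S.par G (S.k - 1) r hi : ℕ) : ℝ) ≤ _ :=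
    Nat.cast_le.2 h
  rw [hI.wsum, Y, hI.top, hs, le_div_iff₀ SC_pos, add_mul, mul_one, wt, hu 0 hI.pos]
  push_cast at h3
  rw [SC_eq_SndL] at *
  linarith

/-! ### the lanes -/

/-- the shift of the cell `c` on the node `j` -/
noncomputable def hX (g : Gr) (c j : ℕ) : ℕ := get g.h j * cx g.bs j c

lemma fAc_ok (hw : 44 ≤ q.w) (hg : g.OK S) (G m : ℕ) (hm : m < S.k) : ∀ (P Q V U : ℕ) (L : IL),
    ∃ (us : ℕ → ℕ) (ps : ℕ → ℕ → ℕ) (L' : IL), (∀ K, fAc q g S G K m P Q V U L =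
      K (P + pw q.w (fun r => sNeg q S.par G m r (fLo S)) q.n)
        (Q + pw q.w (fun r => sPos q S.par G m r (fUp g)) q.n)
        (V + pw q.w (fun r => sPos q S.par G m r (fHi S)) q.n) (U + pk (2 ^ g.B) us) L') ∧
      ∀ r < q.n, sP (2 ^ (q.w * r)) L' = sP (2 ^ (q.w * r)) L + pk (2 ^ g.B) (ps r) ∧
        ∀ c, ps r c + sNeg q S.par G m r (hX g c) = 64 * us c + sPos q S.par G m r (hX g c) := by
  induction m with
  | zero =>
    exact fun P Q V U L => ⟨fun _ => 0, fun _ _ => 0, L, fun K => by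
      simp [sPos, sNeg, pw, pk, fAc], fun r _ => by simp [sPos, sNeg, pk]⟩
  | succ m ih =>
    intro P Q V U L
    have e : ∀ K, fAc q g S G K (m + 1) P Q V U L = fA1 q g S (fAc q g S G K m) (m + 1) P Q V U L
        (d4 G (m + 1)) (d4 G (get S.par (m + 1))) := fun K => by
      show force _ (fun a => force _ (fA1 q g S _ _ P Q V U L a)) = _
      rw [force_eq, force_eq]
      rfl
    simp only [e, fA1, cnd_eq, Nat.beq_eq, sPos_succ, sNeg_succ]
    split_ifs with c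
    · simp only [← c, Nat.sub_self, zero_mul, zero_add]
      exact ih (by omega) P Q V U L
    · obtain ⟨us, ps, L', h1, h2⟩ := ih (by omega)
        (P + sQ q (d4 G (m + 1)) (d4 G (get S.par (m + 1))) * fLo S (m + 1))
        (Q + dQ q (d4 G (m + 1)) (d4 G (get S.par (m + 1))) * fUp g (m + 1))
        (V + dQ q (d4 G (m + 1)) (d4 G (get S.par (m + 1))) * fHi S (m + 1))
        (U + xG g (m + 1)) (IL.cons (xG g (m + 1))
          (xQ q (d4 G (m + 1)) (d4 G (get S.par (m + 1)))) L)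
      refine ⟨fun c => hX g c (m + 1) + us c, fun r c => (uQ q (d4 G (m + 1)) r + 64 -
        uQ q (d4 G (get S.par (m + 1))) r) * hX g c (m + 1) + ps r c, L', fun K => ?_,
        fun r hr => ⟨?_, fun c => ?_⟩⟩
      · refine (h1 K).trans ?_
        simp only [sQ_eq hw, dQ_eq hw, pw_mul, add_assoc, pw_add, xG, hg.hX _ hm, pk_add, hX]
      · rw [(h2 r hr).1]
        show xQ q _ _ / 2 ^ (q.w * r) % 2 ^ 7 * xG g (m + 1) + sP _ L + _ = _
        rw [xQ_eq hw, pw_fld (by omega) (fun r _ => by have := uQ_lt q (d4 G (m + 1)) r; omega) hr,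
          xG, hg.hX _ hm, pk_smul, add_comm _ (sP _ L), add_assoc, pk_add]
        rfl
      · have h3 := (h2 r hr).2 c
        have h4 := uQ_lt q (d4 G (get S.par (m + 1))) r
        beta_reduce
        generalize uQ q (d4 G (m + 1)) r = a at *
        generalize uQ q (d4 G (get S.par (m + 1))) r = b at *
        have : (a + 64 - b) * hX g c (m + 1) + (b - a) * hX g c (m + 1) =
            64 * hX g c (m + 1) + (a - b) * hX g c (m + 1) := by
          rw [← add_mul, ← add_mul]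
          congr 1
          omega
        omega

lemma rowsW_ok (g : Gr) (L : IL) (Z T c n : ℕ) : ∀ X m, onM (rowsW g L Z T n X m) c →
    onM m c ∧ ∀ i, X.testBit i = true → onM (rowW g L Z T (2 ^ i)) c := by
  induction n with
  | zero => exact fun _ _ h => absurd h (onM_zero c)
  | succ n ih =>
    intro X m h
    have e : rowsW g L Z T (n + 1) X m = cnd (Nat.beq X 0) m (rowsW g L Z T n (X &&& (X - 1))
      (rowW g L Z T (X - (X &&& (X - 1))) &&& m)) := rfl
    simp only [e, cnd_eq, Nat.beq_eq] at h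
    split_ifs at h with d
    · exact ⟨h, by simp [d]⟩
    obtain ⟨h1, h2⟩ := ih _ _ h
    obtain ⟨i, b1, b2⟩ := low_bit d
    rw [onM_land, b1] at h1
    refine ⟨h1.2, fun j hj => ?_⟩
    by_cases e : j = i
    · exact e ▸ h1.1
    · exact h2 j ((b2 j e).trans hj)

lemma rowW_ok (hg : g.OK S) {w n r c : ℕ} {z us ps po ng : ℕ → ℕ} {L : IL} (hw : 44 ≤ w)
    (hr : r < n) (hz : ∀ r < n, z r < 2 ^ 44) (h1 : z r ≤ 8796093022208 + 990904320)
    (h2 : sP (2 ^ (w * r)) L = pk (2 ^ g.B) ps) (h3 : ∀ c, ps c + ng c = 64 * us c + po c)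
    (h4 : ∀ c, po c ≤ 990904320) (h5 : ∀ c, ng c ≤ 990904320)
    (h : onM (rowW g L (pw w z n) (fT3 g + (pk (2 ^ g.B) us).shiftLeft 6) (2 ^ (w * r))) c) :
    8796093022208 + po c ≤ z r + ng c := by
  have e : rowW g L (pw w z n) (fT3 g + (pk (2 ^ g.B) us).shiftLeft 6) (2 ^ (w * r)) =
      pk (2 ^ g.B) fun c => 1073741824 + 64 * us c + (z r - 8795019280384) - ps c := by
    have e1 : fT3 g = 1073741824 * g.O := (Nat.shiftLeft_eq _ _).trans (mul_comm _ _)
    have e2 : (pk (2 ^ g.B) us).shiftLeft 6 = 64 * pk (2 ^ g.B) us :=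
      (Nat.shiftLeft_eq _ _).trans (mul_comm _ _)
    have e3 : Nat.mod (Nat.div (pw w z n) (2 ^ (w * r))) 17592186044416 = z r := pw_fld hw hz hr
    rw [rowW, e1, e2, e3, h2, hg.hO, Nat.mul_eq, Nat.add_eq, Nat.sub_eq, Nat.sub_eq, pk_smul,
      pk_smul, pk_smul, pk_add, pk_add, pk_sub fun c _ => by have := h3 c; have := h4 c; omega]
    simp only [mul_one]
  rw [e, onM, pk_bit (fun c _ => by have := h3 c; have := h5 c; omega) c (by norm_num),
    Bool.and_eq_true, Nat.testBit_eq_decide_div_mod_eq, decide_eq_true_iff,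
    decide_eq_true_iff] at h
  have := h3 c
  have := h4 c
  have := h5 c
  omega

theorem fpM_ok (hI : Inv S A) (hg : g.OK S) (hw : 44 ≤ q.w) (h1 : okG g S = true)
    (h2 : okQ q = true) {G c : ℕ} (hG : ∀ j < S.k, d4 G j < q.k) {a : Pt} (ha : Om S A a)
    (hm : onM (fpM q g S G) c) (hy : Cell g S c (Y A a)) {r : ℕ}
    (hr : r < q.n) : Pr S.k G (rowQ q.w q.R r) a := by
  have k1 := hI.pos
  have k2 := hI.le
  simp only [okG, allN_iff, band_eq, Bool.and_eq_true, Nat.ble_eq, Nat.blt_eq] at h1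
  obtain ⟨us, ps, L, e1, e2⟩ := fAc_ok hw hg G (S.k - 1) (by omega) (zQ q (d4 G 0)) 0 0 0 IL.nil
  have e : fpM q g S G = fAc q g S G (fpE q g) (S.k - 1) (zQ q (d4 G 0)) 0 0 0 IL.nil :=
    force_eq _ _
  have hu := fun j (hj : j < S.k) => okQ_ok hw h2 hr (hG j hj)
  have m1 : ∀ {j}, j ∈ Ico 1 (S.k - 1 + 1) → 1 ≤ j ∧ j < S.k := fun h => by
    have := mem_Ico.1 h
    omega
  have a1 := fun r => sNeg_le (q := q) (par := S.par) (G := G) (m := S.k - 1) (r := r)
    (c := 16777232) (f := fLo S) (by omega) fun j _ => by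
      have := get_lt S.lo j
      show get S.lo j - 16 ≤ _
      omega
  have a2 := fun r => sPos_le (q := q) (par := S.par) (G := G) (m := S.k - 1) (r := r)
    (c := 16777232) (f := fUp g) (by omega) fun j _ => Nat.add_le_add_right (get_lt _ j).le 16
  have a3 := fun r => sPos_le (q := q) (par := S.par) (G := G) (m := S.k - 1) (r := r)
    (c := 16777232) (f := fHi S) (by omega) fun j _ => Nat.add_le_add_right (get_lt _ j).le 16
  have a4 := rowQ_lt q.w q.R
  have a5 := uQ_lt q (d4 G 0)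
  have x1 : ∀ c, ∀ j ∈ Ico 1 (S.k - 1 + 1), hX g c j ≤ 1048576 := fun c j hj => by
    have := (h1 j (m1 hj).2).2
    rw [hg.wd j (m1 hj).2] at this
    exact (Nat.mul_le_mul_left _ (cx_lt g.bs j c).le).trans this.le
  have a6 := fun c => sPos_le (q := q) (par := S.par) (G := G) (r := r) (by omega) (x1 c)
  have a7 := fun c => sNeg_le (q := q) (par := S.par) (G := G) (r := r) (by omega) (x1 c)
  have a8 : sPos q S.par G (S.k - 1) r (fHi S) ≤ sPos q S.par G (S.k - 1) r (fUp g) +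
      945 * 1048576 := by
    refine le_trans (sPos_mono (f' := fun j => fUp g j + get g.wd j) fun j hj => ?_)
      ((sPos_add ..).trans_le (Nat.add_le_add_left (sPos_le (by omega) fun j hj =>
        (h1 j (m1 hj).2).2.le) _))
    have := hg.cov j (m1 hj).1 (m1 hj).2
    show get S.hi j + 16 ≤ get g.up j + 16 + _
    rw [hg.up j (m1 hj).1 (m1 hj).2, hg.wd j (m1 hj).2]
    omega
  rw [e, e1, fpE] at hm
  simp only [zero_add, zQ_eq hw, pw_add, Nat.sub_eq, Nat.add_eq, Nat.xor_eq, Nat.land_eq,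
    Nat.shiftRight_eq, mQ_eq hw] at hm
  rw [pw_sub fun r _ => by have := a2 r; have := a5 r; omega,
    pw_sub fun r _ => by have := a3 r; have := a5 r; omega,
    pw_mask (fun r _ => lt_w hw (by have := a1 r; have := a4 r; omega)) (by omega)] at hm
  have b1 := a1 r
  have b2 := a2 r
  have b3 := a3 r
  have b4 := a4 r
  have b5 := a5 r
  by_cases d : uQ q (d4 G 0) r * 1000000 + sPos q S.par G (S.k - 1) r (fHi S) ≤
      (rowQ q.w q.R r).2 + sNeg q S.par G (S.k - 1) r (fLo S)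
  · refine pr_of hI hu (fun j hj => ?_) d
    obtain ⟨j1, j2⟩ := mem_Ico.1 hj
    rw [show fLo S j + 16 = get S.lo j from Nat.sub_add_cancel (h1 j j2).1,
      show fHi S j = get S.hi j + 16 from rfl, Nat.cast_add, add_div, Nat.cast_ofNat]
    exact ⟨(ha.1 j j2).1, add_le_add_left (ha.1 j j2).2 _⟩
  have h3 := (rowsW_ok _ _ _ _ _ _ _ _ hm).2 (q.w * r) (by
    rw [Nat.testBit_xor, ← add_zero (q.w * r), pw_bit (fun r _ => lt_w hw (by omega)) r (by omega),
      pw_bit (fun r _ => lt_w hw (by omega)) r (by omega), decide_eq_true hr,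
      Nat.shiftRight_eq_div_pow]
    rw [show ∀ x : ℕ, x < 2 ^ 43 → x / 2 ^ 43 % 2 = 0 from fun x h => by omega, Nat.zero_testBit]
    · rfl
    · omega)
  obtain ⟨e3, e4⟩ := e2 r hr
  have h4 := rowW_ok hg hw hr (fun r _ => by have := a1 r; have := a4 r; omega) (by omega)
    (e3.trans (zero_add _)) e4 a6 a7 h3
  refine pr_of (lo := fun j => fLo S j + hX g c j) (hi := fun j => fUp g j + hX g c j) hI hu
    (fun j hj => ?_) ?_
  · obtain ⟨j1, j2⟩ := mem_Ico.1 hj
    have c1 := cell_lb hg hy ha.1 j j2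
    have c2 := cell_ub hg hy ha.1 j j2
    rw [show fLo S j + hX g c j + 16 = get S.lo j + hX g c j by
        have := (h1 j j2).1
        show get S.lo j - 16 + _ + 16 = _
        omega,
      show fUp g j + hX g c j = get g.up j + hX g c j + 16 from Nat.add_right_comm .., Nat.cast_add
        _ 16, add_div, Nat.cast_ofNat]
    exact ⟨c1, add_le_add_left c2 _⟩
  · rw [sPos_add, sNeg_add]
    show _ + (_ + sPos q S.par G (S.k - 1) r (hX g c)) ≤ _ + (_ + sNeg q S.par G (S.k - 1) r (hX g c))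
    omega

theorem fpI_of {gd : NS → ℕ → ℕ → Bool} {T : BT PQ} (hT : T.All (PQ.Gd t gd))
    (hl : ∀ S G m, S.k ≤ 16 → gd S G m = true → ∀ j < S.k, d4 G j < m) : Itok t (fpI gd T) :=
    fun g _ sg S A s K _ hI hg h => by
  simp only [fpI, force_eq, fpQ] at h ⊢
  obtain ⟨h1, h2⟩ := grd_lt h
  simp only [band_eq, Bool.and_eq_true] at h1
  obtain ⟨hw, h3⟩ := hT.find (Nat.mod s 65536)
  refine ⟨_, _, 0, h2.trans (zero_add _).symm, ?_⟩
  rw [Nat.cast_zero, zero_div]
  exact (h3 sg S A _ hI h1.2).anti fun a ⟨b1, c, _, b3, b4⟩ r hr =>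
    fpM_ok hI hg hw h1.1.1 h1.1.2 (hl _ _ _ hI.le h1.2) b1 b3 b4 hr

/-! ### the guards -/

lemma dig_mod (G : ℕ) : G % 2 ^ 64 = pw 4 (d4 G) 16 := by
  rw [← Nat.and_two_pow_sub_one_eq_mod,
    show 2 ^ 64 - 1 = pw 4 (fun _ => 2 ^ 4 - 1) 16 by decide +kernel]
  exact pw_cut (by omega) le_rfl G 16

/-- a constant is added to all digits -/
lemma dig_add {G c j : ℕ} (h : ∀ j < 16, d4 G j + c < 16) (hj : j < 16) :
    (G + c * 1229782938247303441).testBit (4 * j + 3) = decide (8 ≤ d4 G j + c) := by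
  have e : ∀ x : ℕ, x.testBit (4 * j + 3) = (x % 2 ^ 64).testBit (4 * j + 3) := fun x => by
    rw [Nat.testBit_mod_two_pow, decide_eq_true (by omega), Bool.true_and]
  rw [e, ← Nat.mod_add_mod, ← e, dig_mod, mul_comm c,
    show 1229782938247303441 = pw 4 (fun _ => 1) 16 by decide +kernel, pw_mul, pw_add,
    pw_bit (fun r hr => by have := h r hr; omega) j (by omega), decide_eq_true hj, Bool.true_and,
    Nat.testBit_eq_decide_div_mod_eq, decide_eq_decide]
  have := h j hj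
  omega

lemma bit8 {j : ℕ} (hj : j < 16) : (9838263505978427528 : ℕ).testBit (4 * j + 3) = true := by
  interval_cases j <;> rfl

lemma lbl_ok {G m : ℕ} (h : lbl G m = true) : ∀ j < 16, d4 G j < 8 ∧ d4 G j < m := by
  have h1 : ∀ j < 16, G.testBit (4 * j + 3) = false ∧
      (G + (8 - m) * 1229782938247303441).testBit (4 * j + 3) = false := fun j hj => by
    have := congrArg (·.testBit (4 * j + 3)) (Nat.eq_of_beq_eq_true h)
    simpa only [Nat.land_eq, Nat.lor_eq, Nat.testBit_and, Nat.testBit_or, bit8 hj, Bool.and_true,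
      Nat.zero_testBit, Bool.or_eq_false_iff, Nat.add_eq, Nat.mul_eq, Nat.sub_eq] using this
  have h2 : ∀ j < 16, d4 G j < 8 := fun j hj => by
    have := dig_add (G := G) (c := 0) (fun j _ => Nat.mod_lt _ (by norm_num)) hj
    rw [zero_mul, add_zero, (h1 j hj).1, false_eq_decide_iff] at this
    omega
  intro j hj
  have := dig_add (G := G) (c := 8 - m) (fun j hj => by have := h2 j hj; omega) hj
  rw [(h1 j hj).2, false_eq_decide_iff] at this
  have := h2 j hj
  omega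

lemma prM_eq (kd n : ℕ) : prM kd n = pw 4 (fun j => if get kd j = 0 then 8 else 0) n := by
  induction n with
  | zero => rfl
  | succ n ih =>
    rw [pw_succ, ← ih]
    show cnd (Nat.beq (get kd n) 0) (8 <<< (4 * n) + prM kd n) (prM kd n) = _
    simp only [cnd_eq, Nat.beq_eq, Nat.shiftLeft_eq]
    split_ifs
    · rw [mul_comm]
    · rw [mul_zero, zero_add]

lemma cnt3_of {kd G m p : ℕ} (hp : get kd p = 0) (n : ℕ) (h1 : ∀ j < n, d4 G j < m)
    (h2 : ∀ j < n, d4 G j = 1 ↔ j = p) : cnt3 kd G m n = if p < n then 1 else 0 := by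
  induction n with
  | zero => rfl
  | succ n ih =>
    have e : cnt3 kd G m (n + 1) = if d4 G n < m then if d4 G n = 1 then
        if get kd n = 0 then cnt3 kd G m n + 1 else 2 else cnt3 kd G m n else 2 := by
      simp only [cnt3, force_eq, cnd_eq, Nat.blt_eq, Nat.beq_eq]
    rw [e, ih (fun j hj => h1 j (by omega)) (fun j hj => h2 j (by omega)), if_pos (h1 n (by omega))]
    by_cases c : n = p
    · rw [if_pos ((h2 n (by omega)).2 c), if_pos (c ▸ hp), if_neg (by omega), if_pos (by omega)]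
    · rw [if_neg fun d => c ((h2 n (by omega)).1 d)]
      exact if_congr (by omega) rfl rfl

lemma g2f_ok {G m : ℕ} (hk : S.k ≤ 16) (h : g2f S G m = true) : g2 S G m = true := by
  simp only [g2f, g2, band_eq, Bool.and_eq_true, allN_iff, Nat.blt_eq] at h ⊢
  exact ⟨h.1, fun j hj => (lbl_ok h.2 j (by omega)).2⟩

lemma g3f_ok {G m : ℕ} (hk : S.k ≤ 16) (h : g3f S G m = true) : g3 S G m = true := by
  simp only [g3f, on1, band_eq, Bool.and_eq_true, Nat.blt_eq, Nat.beq_eq, Nat.land_eq, Nat.xor_eq,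
    Nat.add_eq, Nat.sub_eq] at h
  obtain ⟨h1, h2, h3⟩ := h
  have e : ∀ j < 16, d4 (G ^^^ 1229782938247303441) j = d4 G j ^^^ 1 := fun j hj => by
    show (G ^^^ _) >>> (4 * j) % 2 ^ 4 = G >>> (4 * j) % 2 ^ 4 ^^^ 1
    rw [Nat.shiftRight_xor_distrib, Nat.xor_mod_two_pow]
    congr 1
    interval_cases j <;> rfl
  have e' : ∀ d < 8, (d ^^^ 1) + 7 < 16 ∧ (8 ≤ (d ^^^ 1) + 7 ↔ d ≠ 1) := by decide
  have h4 : ∀ j < 16, (9838263505978427528 ^^^ ((G ^^^ 1229782938247303441) + 8608480567731124087 &&&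
      9838263505978427528)).testBit (4 * j + 3) = true ↔ d4 G j = 1 := fun j hj => by
    rw [Nat.testBit_xor, Nat.testBit_and, bit8 hj, show 8608480567731124087 =
      7 * 1229782938247303441 from rfl, dig_add (fun j hj => by
        rw [e j hj]; exact (e' _ (lbl_ok h1 j hj).1).1) hj, e j hj]
    simp [(e' _ (lbl_ok h1 j hj).1).2]
  generalize 9838263505978427528 ^^^ _ = V at *
  obtain ⟨i, rfl⟩ := (Nat.and_sub_one_eq_zero_iff_isPowerOfTwo (n := V)
    (by rintro rfl; simp at h3)).1 h2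
  have h5 : (pM S).testBit i = true := by
    by_contra c
    rw [Nat.two_pow_and, Bool.eq_false_iff.2 c] at h3
    simp at h3
  rw [pM, prM_eq, ← Nat.div_add_mod i 4, pw_bit (fun _ _ => by split_ifs <;> norm_num) _
    (Nat.mod_lt _ (by norm_num)), Bool.and_eq_true, decide_eq_true_iff] at h5
  have h6 := h5.2
  split_ifs at h6 with c
  · rw [show 8 = 2 ^ 3 from rfl, Nat.testBit_two_pow, decide_eq_true_iff] at h6
    rw [g3, cnt3_of c _ (fun j hj => (lbl_ok h1 j (by omega)).2) fun j hj => by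
      rw [← h4 j (by omega), Nat.testBit_two_pow, decide_eq_true_iff]
      omega, if_pos h5.1]
    rfl
  · simp at h6

lemma PQ.Gd.imp {gd gd' : NS → ℕ → ℕ → Bool} (h : ∀ S G m, S.k ≤ 16 → gd' S G m = true →
    gd S G m = true) {T : BT PQ} (hT : T.All (PQ.Gd t gd)) : T.All (PQ.Gd t gd') :=
  hT.imp fun _ hq => ⟨hq.1, fun sg S A G hI c => hq.2 sg S A G hI (h _ _ _ hI.le c)⟩

theorem gd2f {T : BT PQ} (hT : T.All (PQ.Gd t g2)) : T.All (PQ.Gd t g2f) :=
  PQ.Gd.imp (fun _ _ _ => g2f_ok) hT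

theorem gd3f {T : BT PQ} (hT : T.All (PQ.Gd t g3)) : T.All (PQ.Gd t g3f) :=
  PQ.Gd.imp (fun _ _ _ => g3f_ok) hT

lemma g2f_lt (S : NS) (G m : ℕ) (hk : S.k ≤ 16) (h : g2f S G m = true) : ∀ j < S.k, d4 G j < m :=
    fun j hj => by
  rw [g2f, band_eq, Bool.and_eq_true] at h
  exact (lbl_ok h.2 j (by omega)).2

lemma g3f_lt (S : NS) (G m : ℕ) (hk : S.k ≤ 16) (h : g3f S G m = true) : ∀ j < S.k, d4 G j < m :=
    fun j hj => by
  rw [g3f, band_eq, Bool.and_eq_true] at h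
  exact (lbl_ok h.1 j (by omega)).2

theorem fp2_ok {T : BT PQ} (hT : T.All (PQ.Gd t g2)) : Itok t (fpI g2f T) :=
  fpI_of (gd2f hT) g2f_lt

theorem fp3_ok {T : BT PQ} (hT : T.All (PQ.Gd t g3)) : Itok t (fpI g3f T) :=
  fpI_of (gd3f hT) g3f_lt

end Pool.Agent.MP_c853c5_nt.X
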