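import Pool.Agent.MP_c853c5_nt.X.MassD

/-!
The second order mass bound (definitions only), written with raw recursors.
-/

set_option autoImplicit false

namespace Pool.Agent.MP_c853c5_nt.X

/-- lower and upper bound of a block in one field -/
noncomputable def wOf (S : NS) (V i : ℕ) : ℕ :=
  force (fT V i) fun T => Nat.add (loR (get S.lo i) T)
    (Nat.shiftLeft (Nat.sub (get S.hi i) (Nat.mod T 4294967296)) 32)

noncomputable def mkW (S : NS) (V n : ℕ) : ℕ :=
  Nat.rec (motive := fun _ => ℕ) 0
    (fun i ih => Nat.add (Nat.shiftLeft (wOf S V i) (Nat.mul 64 i)) ih) n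

/-- a rough block of size in `(m, U]` and level in `[z, y]`: `32` times the density plus the
block that carries the slope -/
noncomputable def rgh (m U z y i l : ℕ) : ℕ :=
  cnd (Nat.ble U z) 0
    (force (Nat.mul (cnd (Nat.ble U (Nat.mul 2 z)) 1000000000 (gUR U z)) 1000000) fun g =>
     force (cdR g m) fun a =>
     force (cdR (Nat.mul 1000000000000000 (Nat.sub m (Nat.sub m y))) (Nat.mul m z)) fun b =>
     force (Nat.add b (Nat.sub (cdR g U) b)) fun c =>
     cnd (Nat.ble (Nat.mul (Nat.mul a m) (Nat.add z y)) (Nat.mul (Nat.mul c z) (Nat.add m U)))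
       (Nat.add (Nat.mul 32 a) i) (Nat.add (Nat.mul 32 c) l))

noncomputable def blk (S : NS) (W i : ℕ) : ℕ :=
  force (fT W i) fun w => force (Nat.mod w 4294967296) fun m => force (Nat.shiftRight w 32) fun U =>
  cnd (Nat.ble U m) 0
    (force (get S.kd i) fun q =>
     cnd (Nat.beq q 0) (Nat.add (Nat.mul 32 (cdR 1000000000000000 m)) i)
       (cnd (Nat.ble q 16)
         (force (Nat.pred q) fun l => force (fT W l) fun w' =>
          force (Nat.mod w' 4294967296) fun z =>
          force (Nat.add z (Nat.sub (Nat.shiftRight w' 32) z)) fun y => rgh m U z y i l)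
         (rgh m U q q i 16)))

/-- the product of the densities and the numbers of slopes -/
noncomputable def accB (S : NS) (W n : ℕ) : (ℕ → ℕ → ℕ) → ℕ :=
  Nat.rec (motive := fun _ => (ℕ → ℕ → ℕ) → ℕ) (fun K => K 1 0)
    (fun i ih K => force (blk S W i) fun b => ih fun p c =>
      K (Nat.mul p (Nat.shiftRight b 5)) (Nat.add c (one (Nat.mul 8 (Nat.mod b 32))))) n

/-- an upper bound for `exp (-p / q)` -/
noncomputable def eU (p q : ℕ) : ℕ :=
  force (Nat.mul 2 (Nat.mul q q)) fun a =>
  cdR (Nat.mul 1000000000 a) (Nat.add a (Nat.mul p (Nat.add p (Nat.mul 2 q))))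

/-- the decay of the block `t` over the width `w` -/
noncomputable def eX (W C t w : ℕ) : ℕ :=
  force (Nat.mod (Nat.shiftRight C (Nat.mul 8 t)) 256) fun n =>
  cnd (Nat.beq n 0) 1000000000
    (force (fT W t) fun x => force (Nat.mod x 4294967296) fun m =>
     cnd (Nat.ble 20000 m)
       (force (Nat.mul 2 (Nat.mul n w)) fun p => force (Nat.add m (Nat.shiftRight x 32)) fun q =>
         eU p q) 1000000000)

noncomputable def difN (d : ℕ) (D : List ℕ) : ℕ → ℕ :=
  List.rec (motive := fun _ => ℕ → ℕ) (fun s => Nat.pow s d)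
    (fun x _ ih s => cnd (Nat.beq s 0) 0 (Nat.sub (ih s) (force (Nat.sub s x) ih))) D

/-- the factors of the nodes; the row is `b + ∑ l1 ≤ a + ∑ l2` -/
noncomputable def nodeP (S : NS) (W C : ℕ) (l1 l2 : List ℕ) (n : ℕ) :
    List ℕ → ℕ → ℕ → ℕ → ℕ → ℕ → ℕ :=
  Nat.rec (motive := fun _ => List ℕ → ℕ → ℕ → ℕ → ℕ → ℕ → ℕ)
    (fun D d F e a b => force (cntL 0 l1) fun x => force (cntL 0 l2) fun y =>
      force (Nat.sub (Nat.add a (Nat.mul (Nat.sub y x) (get S.hi 0)))
        (Nat.add b (Nat.mul (Nat.sub x y) (get S.lo 0)))) fun s => cdR (Nat.mul F (difN d D s)) e)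
    (fun i ih D d F e a b => force (Nat.succ i) fun j =>
      force (get S.lo j) fun lo => force (get S.hi j) fun hi => force (Nat.sub hi lo) fun w =>
      force (eX W C j w) fun e1 => force (eX W C (get S.par j) w) fun e2 =>
      force (cntL j l1) fun x => force (cntL j l2) fun y =>
      cnd (Nat.beq x y)
        (force (Nat.mul F (Nat.mul w (Nat.add e2 e1))) fun F' =>
         force (Nat.mul e 2000000000000000000000000) fun e' => ih D d F' e' a b)
        (force (Nat.sub x y) fun u => force (Nat.sub y x) fun v => force (Nat.add u v) fun c =>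
         force (Nat.mul c w) fun z => force (Nat.succ d) fun d' =>
         force (Nat.mul F (Nat.mul 2 (Nat.add e2 (Nat.sub e1 e2)))) fun F' =>
         force (Nat.mul (Nat.mul e 2000000000000000000000000) (Nat.mul c d')) fun e' =>
         ih (z :: D) d' F' e' (Nat.add a (Nat.mul v hi)) (Nat.add b (Nat.mul u lo)))) n

noncomputable def M2 (q : Rw) (S : NS) : ℕ :=
  grd (Nat.ble S.k 16) (force (Nat.pred S.k) fun n => force (chV S n) fun V =>
    force (mkW S V S.k) fun W => accB S W S.k fun p c => force p fun p' => force c fun C =>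
    forceL q.l1 fun l1 => forceL q.l2 fun l2 => nodeP S W C l1 l2 n [] 0 p' 1 q.c2 q.c1)

/-- `d = 0` is the first order bound, otherwise `d - 1` selects the rows that are added up -/
noncomputable def MN2 (d : ℕ) (S : NS) : ℕ :=
  cnd (Nat.beq d 0) (MN 0 S) (M2 (selR S.rs (Nat.pred d)) S)

end Pool.Agent.MP_c853c5_nt.X
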