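import Pool.Agent.MP_c853c5_nt.X.Defs

/-!
Products of arithmetic functions as sums over factorisations, and a bound for the number of
factorisations of a rough number.
-/

set_option autoImplicit false

open Finset Filter

namespace Pool.Agent.MP_c853c5_nt.X

open Pool.Agent.MP_c853c5_nt.S

lemma prod_update_Tup {M : Type*} [CommMonoid M] (k : ℕ) (F : ℕ → ℕ → M) (μ : ℕ → ℕ) (b : ℕ) :
    ∏ j ∈ range k, F j (Function.update μ k b j) = ∏ j ∈ range k, F j (μ j) :=
  prod_congr rfl fun j hj => by rw [Function.update_of_ne (mem_range.1 hj).ne]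

theorem xProd : ProdStmt := by
  classical
  intro k g
  induction k with
  | zero =>
    intro n
    simp only [range_zero, prod_empty, sum_const, nsmul_eq_mul, mul_one]
    by_cases hn : n = 1
    · subst hn
      have : tup 0 1 = {fun _ => 1} := by
        ext μ
        simp only [mem_tup, range_zero, prod_empty, mem_singleton]
        constructor
        · rintro ⟨-, -, h⟩
          exact funext fun j => h j (Nat.zero_le j)
        · rintro rfl
          exact ⟨one_ne_zero, trivial, fun _ _ => rfl⟩
      rw [this]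
      simp
    · have : tup 0 n = ∅ := by
        ext μ
        simp only [mem_tup, range_zero, prod_empty, notMem_empty, iff_false]
        rintro ⟨-, h, -⟩
        exact hn h.symm
      rw [this, ArithmeticFunction.one_apply_ne hn]
      simp
  | succ k ih =>
    intro n
    rw [prod_range_succ, ArithmeticFunction.mul_apply]
    simp_rw [ih, sum_mul]
    rw [sum_sigma']
    refine sum_bij' (fun s _ => Function.update s.2 k s.1.2)
      (fun μ _ => ⟨(∏ j ∈ range k, μ j, μ k), Function.update μ k 1⟩) ?_ ?_ ?_ ?_ ?_
    · rintro ⟨⟨a, b⟩, μ⟩ h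
      simp only [mem_sigma, Nat.mem_divisorsAntidiagonal, mem_tup] at h
      obtain ⟨⟨hab, hn⟩, -, h2, h3⟩ := h
      refine mem_tup.2 ⟨hn, ?_, fun j hj => ?_⟩
      · rw [prod_range_succ, prod_update_Tup k (fun _ m => m) μ b, h2, Function.update_self, hab]
      · dsimp only
        rw [Function.update_of_ne (by omega)]
        exact h3 j (by omega)
    · intro μ h
      obtain ⟨hn, h2, h3⟩ := mem_tup.1 h
      rw [prod_range_succ] at h2
      simp only [mem_sigma, Nat.mem_divisorsAntidiagonal, mem_tup]
      refine ⟨⟨h2, hn⟩, ?_, prod_update_Tup k (fun _ m => m) μ 1, fun j hj => ?_⟩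
      · intro h0
        rw [h0, zero_mul] at h2
        exact hn h2.symm
      · rcases hj.eq_or_lt with rfl | hj
        · exact Function.update_self ..
        · rw [Function.update_of_ne hj.ne']
          exact h3 j hj
    · rintro ⟨⟨a, b⟩, μ⟩ h
      simp only [mem_sigma, Nat.mem_divisorsAntidiagonal, mem_tup] at h
      obtain ⟨-, -, h2, h3⟩ := h
      have e1 : ∏ j ∈ range k, Function.update μ k b j = a := by
        rw [prod_update_Tup k (fun _ m => m) μ b, h2]
      have e2 : Function.update (Function.update μ k b) k 1 = μ := by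
        rw [Function.update_idem, ← h3 k le_rfl, Function.update_eq_self]
      simp only [e1, e2, Function.update_self]
    · intro μ _
      simp only [Function.update_idem, Function.update_eq_self]
    · rintro ⟨⟨a, b⟩, μ⟩ _
      dsimp only
      rw [prod_range_succ, prod_update_Tup k (fun j m => g j m) μ b, Function.update_self]

theorem xPF : PFStmt := by
  classical
  intro k β x n
  rw [PF, xProd, card_filter, Nat.cast_sum]
  refine sum_congr rfl fun μ _ => ?_
  split_ifs with h
  · rw [Nat.cast_one]
    exact prod_eq_one fun j hj => bf_of_mem (h j (mem_range.1 hj))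
  · rw [Nat.cast_zero]
    push Not at h
    obtain ⟨j, hj, h⟩ := h
    exact prod_eq_zero (mem_range.2 hj) (bf_of_not h)

lemma card_tup_Tup (k n : ℕ) : (tup k n).card ≤ n.divisors.card ^ k := by
  classical
  refine card_image_le.trans ?_
  calc (Nat.finMulAntidiag k n).card
      ≤ (Fintype.piFinset fun _ : Fin k => n.divisors).card := by
        refine card_le_card fun f hf => Fintype.mem_piFinset.2 fun i => ?_
        exact Nat.mem_divisors.2
          ⟨Nat.dvd_of_mem_finMulAntidiag hf i, (Nat.mem_finMulAntidiag.1 hf).2⟩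
    _ = n.divisors.card ^ k := by simp [Fintype.card_piFinset]

lemma card_div_Tup {y : ℝ} (hy : 0 ≤ y) (n : ℕ) (hn : n ≠ 0)
    (h : ∀ p : ℕ, p.Prime → p ∣ n → y < p) :
    ∃ w : ℕ, n.divisors.card ≤ 2 ^ w ∧ y ^ w ≤ n := by
  refine ⟨∑ p ∈ n.primeFactors, n.factorization p, ?_, ?_⟩
  · rw [Nat.card_divisors hn, ← prod_pow_eq_pow_sum]
    exact prod_le_prod' fun p _ => Nat.lt_two_pow_self
  · have e : (n : ℝ) = ∏ p ∈ n.primeFactors, (p : ℝ) ^ n.factorization p := by
      conv_lhs => rw [← Nat.prod_factorization_pow_eq_self hn]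
      rw [Finsupp.prod, Nat.support_factorization]
      push_cast
      rfl
    rw [e, ← prod_pow_eq_pow_sum]
    refine prod_le_prod (fun p _ => pow_nonneg hy _) fun p hp => ?_
    exact pow_le_pow_left₀ hy
      (h p (Nat.prime_of_mem_primeFactors hp) (Nat.dvd_of_mem_primeFactors hp)).le _

theorem xCnt : CntStmt := by
  intro k
  refine ⟨(2 ^ 200) ^ k, by positivity, (eventually_ge_atTop 2).mono fun x hx n hn hr => ?_⟩
  rcases eq_or_ne n 0 with rfl | hn0
  · have : tup k 0 = ∅ := by simp [tup]
    rw [this, card_empty, Nat.cast_zero]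
    positivity
  have hx1 : (1 : ℝ) < x := by linarith
  have hx0 : (0 : ℝ) < x := by linarith
  obtain ⟨w, h1, h2⟩ := card_div_Tup (Real.rpow_nonneg hx0.le (1 / 100)) n hn0 hr
  have hw : w ≤ 200 := by
    have h3 : x ^ ((1 / 100 : ℝ) * w) ≤ x ^ (2 : ℝ) := by
      rw [Real.rpow_mul hx0.le, Real.rpow_natCast, Real.rpow_two]
      nlinarith
    have h4 := (Real.rpow_le_rpow_left_iff hx1).1 h3
    have h5 : (w : ℝ) ≤ 200 := by linarith
    exact_mod_cast h5
  have h6 : (tup k n).card ≤ (2 ^ 200) ^ k :=
    (card_tup_Tup k n).trans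
      (Nat.pow_le_pow_left (h1.trans (Nat.pow_le_pow_right two_pos hw)) k)
  exact_mod_cast h6

end Pool.Agent.MP_c853c5_nt.X
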