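import Pool.Agent.MP_c853c5_nt.X.Open
import Pool.Agent.MP_c853c5_nt.X.Tup
import Pool.Agent.MP_c853c5_nt.L.Mass

/-!
The nested mass bound: factorisations whose subtree products lie in a box.
-/

set_option autoImplicit false

open Finset Filter

namespace Pool.Agent.MP_c853c5_nt.X

open Pool.Agent.MP_c853c5_nt.S Pool.Agent.MP_c853c5_nt.L

open Classical in
/-- restriction to the sizes in `[lo, hi]` -/
noncomputable def rst (g : Fam) (lo hi : ℝ) : Fam := fun x =>
  ⟨fun m => if x ^ lo ≤ (m : ℝ) ∧ (m : ℝ) ≤ x ^ hi then g x m else 0, by simp⟩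

lemma rst_apply (g : Fam) (lo hi x : ℝ) (m : ℕ) :
    rst g lo hi x m = if x ^ lo ≤ (m : ℝ) ∧ (m : ℝ) ≤ x ^ hi then g x m else 0 := by
  simp only [rst, ArithmeticFunction.coe_mk]

lemma pos_rst {g : Fam} (h : Pos g) (lo hi : ℝ) : Pos (rst g lo hi) :=
  h.mono fun x hx m => by
    rw [rst_apply]
    split_ifs
    exacts [hx m, le_rfl]

lemma sup_rst (g : Fam) (lo hi : ℝ) : Sup (rst g lo hi) lo hi :=
  Eventually.of_forall fun x m hm => by
    rw [rst_apply] at hm
    exact (ite_ne_right_iff.1 hm).1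

lemma lm_rst {g : Fam} {w : ℝ} (h : Pos g) (hw : 0 ≤ w) (hd : ∀ a b, Dens g a b w) (lo hi : ℝ) :
    LM (rst g lo hi) (w * max 0 (hi - lo)) := by
  rcases le_or_gt lo hi with e | e
  · rw [max_eq_right (sub_nonneg.2 e)]
    refine ldens _ g lo hi (lo - 1) (hi + 1) w (by linarith) e (by linarith) hw h
      (h.mono fun x hx m => ?_) (sup_rst g lo hi) (hd _ _)
    rw [rst_apply]
    split_ifs
    exacts [le_rfl, hx m]
  · refine (Fx.zero 0 0).lm.mono (ev_pos.mono fun x hx m => ?_) (by positivity)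
    rw [rst_apply, if_neg fun c =>
      (Real.rpow_lt_rpow_of_exponent_lt hx e).not_ge (c.1.trans c.2)]
    exact le_rfl

/-- the subtree sums lie in the box -/
def Tr (k : ℕ) (par : ℕ → ℕ) (lo hi : ℕ → ℝ) (a : Pt) : Prop :=
  ∃ y : Pt, (∀ i < k, y i = a i + ∑ j ∈ (Ico 1 k).filter (fun j => par j = i), y j) ∧
    ∀ j, 1 ≤ j → j < k → lo j ≤ y j ∧ y j ≤ hi j

open Classical in
/-- the weighted number of factorisations in the box -/
noncomputable def Wn (k : ℕ) (par : ℕ → ℕ) (lo hi : ℕ → ℝ) (F : ℕ → Fam) : Fam := fun x =>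
  ⟨fun n => ∑ μ ∈ (tup k n).filter (fun μ => Tr k par lo hi (pt x μ)), ∏ j ∈ range k, F j x (μ j),
    by simp [tup]⟩

variable {par : ℕ → ℕ} {lo hi : ℕ → ℝ}

lemma Tr.mg {r : ℕ} {a : Pt} (hp : ∀ j, 1 ≤ j → j ≤ r → par j < j) (hr : 1 ≤ r)
    (h : Tr (r + 1) par lo hi a) :
    Tr r par lo hi (mg (par r) r a) ∧ lo r ≤ a r ∧ a r ≤ hi r := by
  obtain ⟨y, h1, h2⟩ := h
  have e : y r = a r := by
    rw [h1 r r.lt_succ_self, sum_eq_zero fun j hj => ?_, add_zero]
    obtain ⟨g1, g2⟩ := mem_filter.1 hj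
    rw [mem_Ico] at g1
    have := hp j g1.1 (by omega)
    omega
  refine ⟨⟨y, fun i hi => ?_, fun j g1 g2 => h2 j g1 (by omega)⟩, e ▸ h2 r hr r.lt_succ_self⟩
  rw [h1 i (by omega), sum_filter, sum_filter, sum_Ico_succ_top hr, e]
  split_ifs with c
  · subst c
    rw [X.mg, Function.update_of_ne hi.ne, Function.update_self]
    ring
  · rw [mg_ne_Open (Ne.symm c) hi.ne, add_zero]

lemma Wn_step {r : ℕ} {F : ℕ → Fam} {x : ℝ} (hp : ∀ j, 1 ≤ j → j ≤ r → par j < j) (hr : 1 ≤ r)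
    (hx : 1 < x) (hF : ∀ j ≤ r, ∀ m, 0 ≤ F j x m) (n : ℕ) :
    Wn (r + 1) par lo hi F x n ≤ Wn r par lo hi
      (Function.update F (par r) fun x => rst (F r) (lo r) (hi r) x * F (par r) x) x n := by
  classical
  have hi' := hp r hr le_rfl
  have m := mem_range.2 hi'
  have e : ∀ μ : ℕ → ℕ, ∏ j ∈ range r, Function.update F (par r)
      (fun x => rst (F r) (lo r) (hi r) x * F (par r) x) j x (μ j) =
      ∑ p ∈ (μ (par r)).divisorsAntidiagonal, rst (F r) (lo r) (hi r) x p.1 * F (par r) x p.2 *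
        ∏ j ∈ (range r).erase (par r), F j x (μ j) := fun μ => by
    rw [← mul_prod_erase _ _ m, Function.update_self, ArithmeticFunction.mul_apply, sum_mul]
    exact sum_congr rfl fun p _ => congrArg _
      (prod_congr rfl fun j hj => by rw [Function.update_of_ne (mem_erase.1 hj).1])
  simp only [Wn, ArithmeticFunction.coe_mk, e]
  rw [sum_sigma']
  refine le_of_eq_of_le ?_ (sum_le_sum_of_subset_of_nonneg
    (s := ((tup (r + 1) n).filter fun μ => Tr (r + 1) par lo hi (pt x μ)).image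
      fun μ => (⟨mrg_Open (par r) r μ, (μ r, μ (par r))⟩ : Σ _ : ℕ → ℕ, ℕ × ℕ))
    (fun z hz => ?_) fun z _ _ => ?_)
  · rw [sum_image fun μ _ ν _ h => ?_]
    · refine sum_congr rfl fun μ hμ => ?_
      obtain ⟨g1, g2⟩ := mem_filter.1 hμ
      have p0 : (0 : ℝ) < μ r := Nat.cast_pos.2 (pos_Open g1 r)
      obtain ⟨-, g3, g4⟩ := g2.mg hp hr
      rw [rst_apply, if_pos ⟨(Real.le_logb_iff_rpow_le hx p0).1 g3,
        (Real.logb_le_iff_le_rpow hx p0).1 g4⟩, prod_range_succ, ← mul_prod_erase _ _ m,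
        prod_congr rfl fun j hj => congrArg (F j x)
          (mrg_ne_Open (μ := μ) (mem_erase.1 hj).1 (mem_range.1 (mem_erase.1 hj).2).ne)]
      ring
    · obtain ⟨g1, g2⟩ := Sigma.mk.inj_iff.1 h
      obtain ⟨g3, g4⟩ := Prod.mk.inj (eq_of_heq g2)
      funext j
      by_cases c : j = r
      · rwa [c]
      by_cases c' : j = par r
      · rwa [c']
      rw [← mrg_ne_Open (μ := μ) c' c, g1, mrg_ne_Open c' c]
  · obtain ⟨μ, hμ, rfl⟩ := mem_image.1 hz
    obtain ⟨g1, g2⟩ := mem_filter.1 hμ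
    refine mem_sigma.2 ⟨mem_filter.2 ⟨mrg_mem_Open hi' g1, ?_⟩, ?_⟩
    · rw [pt_mrg_Open hi' (pos_Open g1)]
      exact (g2.mg hp hr).1
    · simp only [Nat.mem_divisorsAntidiagonal, mrg_i_Open hi']
      exact ⟨mul_comm _ _, (mul_pos (pos_Open g1 _) (pos_Open g1 _)).ne'⟩
  · refine mul_nonneg (mul_nonneg ?_ (hF _ hi'.le _))
      (prod_nonneg fun j hj => hF j (mem_range.1 (mem_erase.1 hj).2).le _)
    rw [rst_apply]
    split_ifs
    exacts [hF r le_rfl _, le_rfl]

/-- the nested bound -/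
theorem dens_nest (r : ℕ) : ∀ (F : ℕ → Fam) (ρ μ : ℕ → ℝ), (∀ j, 1 ≤ j → j ≤ r → par j < j) →
    (∀ j ≤ r, Pos (F j) ∧ 0 ≤ ρ j ∧ 0 ≤ μ j ∧ ∀ a b, Dens (F j) a b (ρ j)) →
    (∀ j, 1 ≤ j → j ≤ r → LM (rst (F j) (lo j) (hi j)) (μ j)) →
    (∀ j, 1 ≤ j → j ≤ r → 1 ≤ par j → ρ (par j) * max 0 (hi (par j) - lo (par j)) ≤ μ (par j)) →
    ρ 0 ≤ μ 0 → ∀ a b, Dens (Wn (r + 1) par lo hi F) a b (∏ j ∈ range (r + 1), μ j) := by
  classical
  induction r with
  | zero =>
    intro F ρ μ _ h1 _ _ h4 a b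
    obtain ⟨g1, -, -, g2⟩ := h1 0 le_rfl
    refine ((g2 a b).mono (g1.mono fun x hx n _ _ => ?_)).weak le_rfl le_rfl (by simpa using h4)
    have := xProd 1 (fun j => F j x) n
    rw [prod_range_one] at this
    rw [this]
    exact sum_le_sum_of_subset_of_nonneg (filter_subset _ _) fun μ _ _ => by
      rw [prod_range_one]
      exact hx _
  | succ r ih =>
    intro F ρ μ hp h1 h2 h3 h4 a b
    have hi' := hp (r + 1) (by omega) le_rfl
    obtain ⟨p1, -, p2, -⟩ := h1 (r + 1) le_rfl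
    obtain ⟨q1, q2, q3, q4⟩ := h1 _ hi'.le
    have d : ∀ a b, Dens (fun x => rst (F (r + 1)) (lo (r + 1)) (hi (r + 1)) x * F (par (r + 1)) x)
        a b (μ (r + 1) * ρ (par (r + 1))) := fun a b =>
      dconv _ _ _ _ a b _ _ p2 q2 (pos_rst p1 _ _) (sup_rst _ _ _) (h2 _ (by omega) le_rfl) (q4 _ _)
    have := ih (Function.update F (par (r + 1))
        fun x => rst (F (r + 1)) (lo (r + 1)) (hi (r + 1)) x * F (par (r + 1)) x)
      (Function.update ρ (par (r + 1)) (μ (r + 1) * ρ (par (r + 1))))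
      (Function.update μ (par (r + 1)) (μ (r + 1) * μ (par (r + 1))))
      (fun j g1 g2 => hp j g1 (by omega)) (fun j g => ?_) (fun j g1 g2 => ?_)
      (fun j g1 g2 g3 => ?_) ?_ a b
    · refine (this.mono ?_).weak le_rfl le_rfl (le_of_eq ?_)
      · have : ∀ᶠ x : ℝ in atTop, ∀ j ∈ range (r + 2), ∀ m, 0 ≤ F j x m :=
          (eventually_all_finset _).2 fun j hj => (h1 j (by rw [mem_range] at hj; omega)).1
        filter_upwards [this, ev_pos] with x g1 g2 n _ _
        exact Wn_step hp (by omega) g2 (fun j hj => g1 j (mem_range.2 (by omega))) n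
      · rw [prod_update_of_mem (mem_range.2 hi'), prod_range_succ μ (r + 1),
          ← mul_prod_erase _ μ (mem_range.2 hi'), sdiff_singleton_eq_erase]
        ring
    · by_cases c : j = par (r + 1)
      · simp only [c, Function.update_self]
        exact ⟨(pos_rst p1 _ _).mul q1, mul_nonneg p2 q2, mul_nonneg p2 q3, d⟩
      · simp only [Function.update_of_ne c]
        exact h1 j (by omega)
    · by_cases c : j = par (r + 1)
      · simp only [c, Function.update_self]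
        refine (lm_rst ((pos_rst p1 _ _).mul q1) (mul_nonneg p2 q2) d _ _).mono
          (Eventually.of_forall fun _ _ => le_rfl) ?_
        rw [mul_assoc]
        exact mul_le_mul_of_nonneg_left (h3 (r + 1) (by omega) le_rfl (c ▸ g1)) p2
      · simp only [Function.update_of_ne c]
        exact h2 j g1 (by omega)
    · have := h3 j g1 (by omega) g3
      by_cases c : par j = par (r + 1)
      · simp only [c, Function.update_self] at this ⊢
        rw [mul_assoc]
        exact mul_le_mul_of_nonneg_left this p2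
      · simpa only [Function.update_of_ne c] using this
    · by_cases c : 0 = par (r + 1)
      · rw [← c, Function.update_self, Function.update_self]
        exact mul_le_mul_of_nonneg_left h4 p2
      · simpa only [Function.update_of_ne c] using h4

/-- the count of admissible factorisations is bounded by the weighted count -/
lemma SF_le_Wn {k : ℕ} {kind : ℕ → Kind} {Q : Pt → Prop} {F : ℕ → Fam} {x : ℝ} {n : ℕ}
    (hF : ∀ j < k, ∀ m, 0 ≤ F j x m)
    (h : ∀ μ ∈ tup k n, Q (pt x μ) → (∀ j < k, (kind j).ok x μ j) →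
      Tr k par lo hi (pt x μ) ∧ ∀ j < k, 1 ≤ F j x (μ j)) :
    SF k kind Q x n ≤ Wn k par lo hi F x n := by
  classical
  simp only [SF, Wn, ArithmeticFunction.coe_mk]
  rw [card_eq_sum_ones, Nat.cast_sum]
  refine (sum_le_sum fun μ hμ => ?_).trans (sum_le_sum_of_subset_of_nonneg (fun μ hμ => ?_)
    fun μ _ _ => prod_nonneg fun j hj => hF j (mem_range.1 hj) _)
  · obtain ⟨g1, g2, g3⟩ := mem_filter.1 hμ
    rw [Nat.cast_one]
    exact one_le_prod fun j hj => (h μ g1 g2 g3).2 j (mem_range.1 hj)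
  · obtain ⟨g1, g2, g3⟩ := mem_filter.1 hμ
    exact mem_filter.2 ⟨g1, (h μ g1 g2 g3).1⟩

end Pool.Agent.MP_c853c5_nt.X
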