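import Pool.Agent.MP_c853c5_nt.X.MassD
import Pool.Agent.MP_c853c5_nt.X.MassR
import Pool.Agent.MP_c853c5_nt.X.SndA
import Pool.Agent.MP_c853c5_nt.L.MassN

/-!
Soundness of the nested mass bound.
-/

set_option autoImplicit false

open Finset Filter

namespace Pool.Agent.MP_c853c5_nt.X

open Pool.Agent.MP_c853c5_nt.S Pool.Agent.MP_c853c5_nt.REG Pool.Agent.MP_c853c5_nt.L

lemma SC_eq_Mass : (SC : ℝ) = 1000000 := by norm_num [SC]

lemma lgR_eq (k : ℕ) : ∀ l u, lgR k l u = lgU k l u := by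
  induction k with
  | zero => exact fun _ _ => rfl
  | succ k ih =>
    intro l u
    have : lgR (k + 1) l u = cnd (Nat.ble (10 * u) (11 * l)) (lgU0 l u)
        (95310200 + lgR k (11 * l) (10 * u)) := by
      simp only [lgR, force_eq]
      rfl
    simp only [this, cnd_eq, Nat.ble_eq, ih, lgU]

lemma w0R_eq {a m M : ℕ} (h : 2 * a < M) : w0R a m M = L.w0 SC a m M := by
  have e : gUR M a = gU M a := by
    simp only [gUR, force_eq, cnd_eq, Nat.ble_eq, lgR_eq, gU, if_neg h.not_ge]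
    rfl
  simp only [w0R, force_eq, mx_eq, mn_eq, e]
  rfl

lemma fld_sum (B i : ℕ) (t : ℕ → ℕ) : ∀ (s : Finset ℕ) (p : ℕ → ℕ), ∑ j ∈ s, t j < B →
    (∑ j ∈ s, t j * B ^ p j) / B ^ i % B = ∑ j ∈ s.filter (fun j => p j = i), t j := by
  have key : ∀ (s : Finset ℕ) (p : ℕ → ℕ), ∑ j ∈ s, t j * B ^ p j =
      ∑ j ∈ s.filter (fun j => p j = 0), t j +
        B * ∑ j ∈ s.filter (fun j => ¬ p j = 0), t j * B ^ (p j - 1) := fun s p => by
    rw [← sum_filter_add_sum_filter_not s fun j => p j = 0, mul_sum]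
    congr 1
    · exact sum_congr rfl fun j hj => by rw [(mem_filter.1 hj).2, pow_zero, mul_one]
    · refine sum_congr rfl fun j hj => ?_
      obtain ⟨n, hn⟩ := Nat.exists_eq_succ_of_ne_zero (mem_filter.1 hj).2
      rw [hn, Nat.succ_sub_one, pow_succ]
      ring
  induction i with
  | zero =>
    intro s p h
    rw [pow_zero, Nat.div_one, key, Nat.add_mul_mod_self_left, Nat.mod_eq_of_lt
      ((sum_le_sum_of_subset (filter_subset _ _)).trans_lt h)]
  | succ i ih =>
    intro s p h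
    rw [pow_succ', ← Nat.div_div_eq_div_mul, key, Nat.add_mul_div_left _ _ (by omega),
      Nat.div_eq_of_lt ((sum_le_sum_of_subset (filter_subset _ _)).trans_lt h), zero_add,
      ih _ _ ((sum_le_sum_of_subset (filter_subset _ _)).trans_lt h), filter_filter]
    exact sum_congr (filter_congr fun j _ => by omega) fun _ _ => rfl

lemma chV_eq (S : NS) (n : ℕ) : chV S n =
    ∑ j ∈ Ico 1 (n + 1), (get S.hi j * 2 ^ 32 + get S.lo j) * (2 ^ 64) ^ get S.par j := by
  induction n with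
  | zero => rfl
  | succ n ih =>
    rw [sum_Ico_succ_top (by omega), ← ih, add_comm (chV S n), ← pow_mul, ← Nat.shiftLeft_eq,
      ← Nat.shiftLeft_eq]
    rfl

/-- the children of a node -/
def chn (S : NS) (i : ℕ) : Finset ℕ := (Ico 1 S.k).filter fun j => get S.par j = i

lemma fT_eq {S : NS} {r : ℕ} (hr : S.k = r + 1) (hk : S.k ≤ 16) (i : ℕ) : fT (chV S r) i =
    (∑ j ∈ chn S i, get S.hi j) * 2 ^ 32 + ∑ j ∈ chn S i, get S.lo j := by
  show chV S r >>> (64 * i) % 2 ^ 64 = _
  rw [Nat.shiftRight_eq_div_pow, pow_mul, chV_eq, ← hr, fld_sum, sum_add_distrib, sum_mul, chn]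
  refine (sum_le_card_nsmul _ _ (2 ^ 57) fun j _ => ?_).trans_lt ?_
  · have := get_lt S.hi j
    have := get_lt S.lo j
    omega
  · rw [Nat.card_Ico, smul_eq_mul]
    omega

/-- primes, or rough numbers of level `a`, of size above `m` and up to `M` -/
noncomputable def FN (p : Bool) (a m M : ℕ) : Fam := fun x =>
  if p = true then ind fun n => n.Prime ∧ x ^ ((m : ℝ) / SC) < n ∧ (n : ℝ) ≤ x ^ ((M : ℝ) / SC)
  else bf x (mkB SC m M a none)

section node

variable {p : Bool} {a m M : ℕ}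

lemma ind_le_Mass {P : ℕ → Prop} {n : ℕ} {y : ℝ} (h0 : 0 ≤ y) (h : P n → 1 ≤ y) :
    ind P n ≤ y := by
  simp only [ind, ArithmeticFunction.coe_mk]
  split_ifs with e
  exacts [h e.2, h0]

lemma FN_nonneg (x : ℝ) (n : ℕ) : 0 ≤ FN p a m M x n := by
  unfold FN
  split_ifs
  · simp only [ind, ArithmeticFunction.coe_mk]
    split_ifs <;> norm_num
  · exact nn_bf _ _ _

lemma FN_zero (h : M ≤ m) : ∀ᶠ x : ℝ in atTop, ∀ n, FN p a m M x n ≤ 0 :=
  ev_pos.mono fun x hx n => by
    have := (Real.rpow_le_rpow_of_exponent_le hx.le (cast_div_le SC h)).not_gt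
    unfold FN
    split_ifs
    · exact ind_le_Mass le_rfl fun e => absurd (e.2.1.trans_le e.2.2) this
    · exact bf_le le_rfl fun e => absurd (e.2.1.trans_le e.2.2.1) this

lemma FN_dens (hm : 5000 ≤ m) (hp : p = false → 5000 ≤ a ∧ 2 * a < M) (α β : ℝ) :
    Dens (FN p a m M) α β (rhoR p a m M / VV) := by
  have s := a_ge (S := SC) (by norm_num [SC]) (show SC ≤ 200 * m by unfold SC; omega)
  cases p
  · obtain ⟨h1, h2⟩ := hp rfl
    show Dens (fun x => bf x (mkB SC m M a none)) α β (w0R a m M / VV)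
    refine (dens_bf (w := wM SC a none m M / VV)
      (a_ge (by norm_num [SC]) (show SC ≤ 200 * a by unfold SC; omega))
      (by simp only [mkB]; positivity) (by positivity) fun y _ _ g3 g4 _ =>
        wM_ge (by norm_num [SC]) (by omega) (by omega) g3 g4).weak le_rfl le_rfl ?_
    refine div_le_div_of_nonneg_right (Nat.cast_le.2 ?_) VV_pos.le
    rw [wM, w0R_eq h2]
    split_ifs
    exacts [Nat.zero_le _, le_rfl]
  · refine (dprime_all _ α β ((m : ℝ) / SC) s (Eventually.of_forall fun x n _ _ =>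
      ind_le_Mass (by split_ifs <;> norm_num) fun e => (if_pos ⟨e.1, e.2.1.le⟩).ge)).weak
        le_rfl le_rfl ?_
    refine (one_div_le_one_div_of_le (by linarith) (le_max_right _ _)).trans ?_
    have := le_cd 1000000000000000 m
    rw [one_div_div, le_div_iff₀ VV_pos, VV_eq, SC_eq_Mass]
    refine le_of_eq_of_le ?_ this
    push_cast
    ring

lemma FN_lm (hm : 0 < m) (h : m ≤ M) : LM (FN true a m M) (lgR 8 m M / VV) := by
  refine (lprime_all _ _ _ (div_pos (Nat.cast_pos.2 hm) SC_pos) (cast_div_le SC h)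
    (Eventually.of_forall fun x n =>
      ind_le_Mass (by split_ifs <;> norm_num) fun e => (if_pos e).ge)).mono
    (Eventually.of_forall fun _ _ => le_rfl) ?_
  rw [div_div_div_cancel_right₀ SC_pos.ne', le_div_iff₀ VV_pos, mul_comm, lgR_eq]
  exact lgU_ge 8 hm h

lemma wid_le (w lo hi : ℕ) : (w : ℝ) / VV * max 0 ((hi : ℝ) / SC - (lo : ℝ) / SC) ≤
    (cdR (Nat.mul w (Nat.sub hi lo)) 1000000 : ℝ) / VV := by
  have h1 : max 0 ((hi : ℝ) / SC - (lo : ℝ) / SC) ≤ ((Nat.sub hi lo : ℕ) : ℝ) / SC :=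
    max_le (by positivity) (X.sub_le_cast hi lo)
  refine (mul_le_mul_of_nonneg_left h1 (by positivity)).trans ?_
  rw [div_mul_eq_mul_div, SC_eq_Mass]
  refine div_le_div_of_nonneg_right (le_of_eq_of_le ?_ (le_cd _ _)) VV_pos.le
  rw [Nat.mul_eq, Nat.cast_mul, mul_div_assoc, Nat.cast_ofNat]

end node

variable {S : NS} {A : ℕ → Finset ℕ} {r : ℕ}

lemma loR_ge (lo T : ℕ) : 19999 ≤ loR lo T := by
  rw [loR, force_eq, mx_eq, Nat.pred_eq_sub_one]
  omega

/-- the size of a block from the box -/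
lemma size_ok (h : Inv S A) (hr : S.k = r + 1) (hk : S.k ≤ 16) {a : Pt} (ha : Om S A a) {i : ℕ}
    (hi : i < S.k) (h50 : 1 / 50 ≤ a i) :
    (loR (get S.lo i) (fT (chV S r) i) : ℝ) / SC < a i ∧
      a i ≤ ((Nat.sub (get S.hi i) (Nat.mod (fT (chV S r) i) 4294967296) : ℕ) : ℝ) / SC := by
  have e := fT_eq hr hk i
  have t := h.tree a i hi
  have l1 : ((∑ j ∈ chn S i, get S.lo j : ℕ) : ℝ) / SC ≤ ∑ j ∈ chn S i, Y A a j := by
    rw [Nat.cast_sum, sum_div]
    exact sum_le_sum fun j hj => (ha.1 j (mem_Ico.1 (mem_filter.1 hj).1).2).1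
  have l2 : ∑ j ∈ chn S i, Y A a j ≤ ((∑ j ∈ chn S i, get S.hi j : ℕ) : ℝ) / SC := by
    rw [Nat.cast_sum, sum_div]
    exact sum_le_sum fun j hj => (ha.1 j (mem_Ico.1 (mem_filter.1 hj).1).2).2
  obtain ⟨b1, b2⟩ := ha.1 i hi
  rw [← chn] at t
  generalize ∑ j ∈ chn S i, get S.lo j = N at *
  generalize ∑ j ∈ chn S i, get S.hi j = P at *
  generalize fT (chV S r) i = T at *
  constructor
  · have : loR (get S.lo i) T + 1 = 20000 ∨ loR (get S.lo i) T + 1 + P ≤ get S.lo i := by
      rw [loR, force_eq, mx_eq, Nat.pred_eq_sub_one, Nat.sub_eq, Nat.shiftRight_eq,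
        Nat.shiftRight_eq_div_pow]
      omega
    rw [SC_eq_Mass] at *
    rcases this with c | c
    · have c' : (loR (get S.lo i) T : ℝ) + 1 = 20000 := by exact_mod_cast c
      linarith
    · have c' : (loR (get S.lo i) T : ℝ) + 1 + P ≤ get S.lo i := by exact_mod_cast c
      linarith
  · refine le_trans ?_ (X.sub_le_cast _ _)
    have : (Nat.mod T 4294967296 : ℝ) / SC ≤ (N : ℝ) / SC :=
      cast_div_le SC (show T % 4294967296 ≤ N by omega)
    linarith

lemma rec_prod (f : ℕ → ℕ) (n : ℕ) : Nat.rec (motive := fun _ => ℕ) (f 0)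
    (fun j ih => Nat.mul (f (Nat.succ j)) ih) n = ∏ j ∈ range (n + 1), f j := by
  induction n with
  | zero => exact (prod_range_one _).symm
  | succ n ih => rw [prod_range_succ, ← ih]; exact Nat.mul_comm _ _

lemma prR_eq (S : NS) (V n : ℕ) : prR S V n = ∏ j ∈ range (n + 1), muR S V j := by
  rw [prR, rec_prod (muR S V)]

/-- level, size range and primality flag of a node -/
noncomputable def aN (S : NS) (V j : ℕ) : ℕ := lvR S V (get S.kd j)
noncomputable def mN (S : NS) (V j : ℕ) : ℕ := max (loR (get S.lo j) (fT V j)) (aN S V j)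
def uN (S : NS) (V j : ℕ) : ℕ := Nat.sub (get S.hi j) (Nat.mod (fT V j) 4294967296)
noncomputable def pN (S : NS) (V j : ℕ) : Bool :=
  bor (Nat.beq (get S.kd j) 0) (Nat.ble (uN S V j) (Nat.mul 2 (aN S V j)))
noncomputable def rN (S : NS) (V j : ℕ) : ℕ :=
  if uN S V j ≤ mN S V j then 0 else rhoR (pN S V j) (aN S V j) (mN S V j) (uN S V j)

lemma muR_eq (S : NS) (V j : ℕ) : muR S V j = if uN S V j ≤ mN S V j then 0 else
    if j = 0 then rN S V j else
      if pN S V j = true ∧ fT V j = 0 then lgR 8 (mN S V j) (uN S V j) else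
        cdR (Nat.mul (rN S V j) (Nat.sub (get S.hi j) (get S.lo j))) 1000000 := by
  have : muR S V j = cnd (Nat.ble (uN S V j) (mN S V j)) 0
      (cnd (Nat.beq j 0) (rhoR (pN S V j) (aN S V j) (mN S V j) (uN S V j)) (cnd (pN S V j)
        (cnd (Nat.beq (fT V j) 0) (lgR 8 (mN S V j) (uN S V j))
          (cdR (Nat.mul (rhoR true (aN S V j) (mN S V j) (uN S V j))
            (Nat.sub (get S.hi j) (get S.lo j))) 1000000))
        (cdR (Nat.mul (rhoR false (aN S V j) (mN S V j) (uN S V j))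
          (Nat.sub (get S.hi j) (get S.lo j))) 1000000))) := by
    simp only [muR, force_eq, mx_eq, aN, mN, uN, pN]
  rw [this, rN]
  cases pN S V j <;> simp only [cnd_eq, Nat.ble_eq, Nat.beq_eq, Bool.false_eq_true, false_and,
    true_and, if_true, if_false] <;> split_ifs <;> rfl

lemma lev_ok (h : Inv S A) (V : ℕ) {j : ℕ} (hj : j < S.k) (h0 : get S.kd j ≠ 0) :
    5000 ≤ aN S V j := by
  simp only [aN, lvR, cnd_eq, Nat.beq_eq, Nat.ble_eq, if_neg h0, force_eq]
  split_ifs with e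
  · exact le_trans (by norm_num) (loR_ge _ _)
  · have := ((h.kv j hj).1 _ (by rw [NS.kind, kindOf, if_neg h0, if_neg e])).1
    rw [SC_eq_Mass, le_div_iff₀ (by norm_num)] at this
    have : (5000 : ℝ) ≤ get S.kd j := by linarith
    exact_mod_cast this

/-- every factor lies in its family -/
lemma FN_one (h : Inv S A) (hr : S.k = r + 1) (hk : S.k ≤ 16) {x : ℝ} (hx : 1 < x) {μ : ℕ → ℕ}
    (h0 : ∀ j, 0 < μ j) (ha : Om S A (pt x μ)) (h50 : ∀ j < S.k, 1 / 50 ≤ pt x μ j) {j : ℕ}
    (hj : j < S.k) (ho : (S.kind j).ok x μ j) :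
    1 ≤ FN (pN S (chV S r) j) (aN S (chV S r) j) (mN S (chV S r) j) (uN S (chV S r) j) x (μ j) := by
  obtain ⟨s1, s2⟩ := size_ok h hr hk ha hj (h50 j hj)
  have n1 := one_lt_Open h0 (h50 j hj)
  have u : (μ j : ℝ) ≤ x ^ ((uN S (chV S r) j : ℝ) / SC) :=
    (Real.logb_le_iff_le_rpow hx (Nat.cast_pos.2 (h0 j))).1 s2
  have hv := (h.kv j hj).2
  have ro : Rough x ((aN S (chV S r) j : ℝ) / SC) (μ j) := by
    refine rough_of_ok_Open hx h0 ho ?_
    simp only [aN, lvR, cnd_eq, Nat.beq_eq, Nat.ble_eq, force_eq, NS.kind, kindOf] at hv ⊢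
    split_ifs at hv ⊢ with e e'
    · show _ < pt x μ j
      rw [Nat.cast_zero, zero_div]
      linarith [h50 j hj]
    · exact (size_ok h hr hk ha (hv _ rfl).1 (h50 _ (hv _ rfl).1)).1
    · exact le_rfl
  have l : x ^ ((mN S (chV S r) j : ℝ) / SC) < μ j := by
    rw [mN]
    rcases le_total (loR (get S.lo j) (fT (chV S r) j)) (aN S (chV S r) j) with e | e
    · rw [max_eq_right e]
      exact rough_lt n1 ro
    · rw [max_eq_left e]
      exact (lt_pt_Open hx h0).1 s1
  unfold FN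
  split_ifs with e
  · refine (if_pos ⟨(h0 j).ne', ?_, l, u⟩).ge
    simp only [pN, bor_eq, Bool.or_eq_true, Nat.beq_eq, Nat.ble_eq] at e
    rcases e with e | e
    · rwa [NS.kind, kindOf, if_pos e] at ho
    · by_contra hp
      refine absurd ((sq_lt (by linarith) n1 hp ro).trans_le u)
        (Real.rpow_le_rpow_of_exponent_le hx.le ?_).not_gt
      have := cast_div_le SC e
      rwa [Nat.mul_eq, Nat.cast_mul, mul_div_assoc, Nat.cast_ofNat] at this
  · exact (bf_of_mem (B := mkB SC _ _ _ none) ⟨(h0 j).ne', l, u, ro, by simp [mkB]⟩).ge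

theorem mn_ok : MNok MN := by
  classical
  intro d S A h hl
  obtain ⟨g, e⟩ := grd_lt hl
  rw [Nat.ble_eq] at g
  obtain ⟨r, hr⟩ : ∃ r, S.k = r + 1 := ⟨S.k - 1, by have := h.pos; omega⟩
  rw [MN, e, force_eq, force_eq, show Nat.pred S.k = r by rw [hr]; rfl]
  by_cases hz : ∀ j < S.k, 0 < get S.hi j
  swap
  · simp only [not_forall, not_lt, Nat.le_zero] at hz
    obtain ⟨j, hj, hz⟩ := hz
    refine (mass_zero.of_le (Eventually.of_forall fun x n _ => ?_)).mono (by positivity)
    simp only [SF, ArithmeticFunction.coe_mk, ArithmeticFunction.zero_apply]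
    rw [filter_eq_empty_iff.2 fun μ _ c => ?_, card_empty, Nat.cast_zero]
    have c1 := (c.1.1.1 j hj).2
    have c2 : pt x μ j ≤ Y A (pt x μ) j := single_le_sum (fun i hi => by
      linarith [c.1.2 i (mem_range.1 ((h.sub j hj).1 hi))]) (h.sub j hj).2.1
    rw [hz, Nat.cast_zero, zero_div] at c1
    linarith [c.1.2 j hj]
  set V := chV S r with hV
  have m5 : ∀ j, 5000 ≤ mN S V j := fun j =>
    le_max_of_le_left (le_trans (by norm_num) (loR_ge _ _))
  have P : ∀ j, Pos (FN (pN S V j) (aN S V j) (mN S V j) (uN S V j)) := fun j =>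
    Eventually.of_forall FN_nonneg
  have D : ∀ j ≤ r, ∀ a b, Dens (FN (pN S V j) (aN S V j) (mN S V j) (uN S V j)) a b
      (rN S V j / VV) := fun j hj a b => by
    rw [rN]
    split_ifs with c
    · exact (Dens.zero ((FN_zero c).mono fun x hx n _ _ => hx n)).weak le_rfl le_rfl (by simp)
    · refine FN_dens (m5 j) (fun c' => ?_) a b
      rw [← Bool.not_eq_true] at c'
      simp only [pN, bor_eq, Bool.or_eq_true, Nat.beq_eq, Nat.ble_eq, not_or, not_le] at c'
      exact ⟨lev_ok h V (by omega) c'.1, c'.2⟩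
  have key := dens_nest (par := get S.par) (lo := fun j => (get S.lo j : ℝ) / SC)
    (hi := fun j => (get S.hi j : ℝ) / SC) r
    (fun j => FN (pN S V j) (aN S V j) (mN S V j) (uN S V j)) (fun j => rN S V j / VV)
    (fun j => muR S V j / VV) (fun j h1 h2 => h.par j h1 (by omega))
    (fun j hj => ⟨P j, by positivity, by positivity, D j hj⟩) (fun j h1 h2 => ?_)
    (fun j h1 h2 h3 => ?_) ?_ 1 1
  · refine (key.mass.of_le (ev_pos.mono fun x hx n _ => ?_)).mono ?_
    · rw [← hr]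
      exact SF_le_Wn (fun j _ m => FN_nonneg x m) fun μ hμ hQ ho =>
        ⟨⟨Y A (pt x μ), h.tree _, fun j _ hj => hQ.1.1 j hj⟩,
          fun j hj => FN_one h hr g hx (pos_Open hμ) hQ.1 hQ.2 hj (ho j hj)⟩
    · have := le_cd (prR S V r) (1000000000 ^ r)
      rw [prod_div_distrib, prod_const, card_range, ← Nat.cast_prod, ← prR_eq, pow_succ,
        ← div_div, VV_eq, show (10 : ℝ) ^ 9 = 1000000000 by norm_num]
      push_cast at this
      exact div_le_div_of_nonneg_right this (by norm_num)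
  · have le : ∀ᶠ x : ℝ in atTop, ∀ n, rst (FN (pN S V j) (aN S V j) (mN S V j) (uN S V j))
        (get S.lo j / SC) (get S.hi j / SC) x n ≤
        FN (pN S V j) (aN S V j) (mN S V j) (uN S V j) x n := Eventually.of_forall fun x n => by
      rw [rst_apply]
      split_ifs
      exacts [le_rfl, FN_nonneg x n]
    rw [muR_eq, if_neg (show ¬ j = 0 by omega)]
    split_ifs with c c'
    · exact (Fx.zero 0 0).lm.mono (EL.trans le (FN_zero c)) (by simp)
    · rw [c'.1] at le ⊢
      exact (FN_lm (by have := m5 j; omega) (not_le.1 c).le).mono le le_rfl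
    · exact (lm_rst (P j) (by positivity) (D j h2) _ _).mono
        (Eventually.of_forall fun _ _ => le_rfl) (wid_le _ _ _)
  · rw [muR_eq, if_neg (show ¬ get S.par j = 0 by omega)]
    split_ifs with c c'
    · simp [rN, c]
    · have c2 := c'.2
      rw [hV, fT_eq hr g] at c2
      have : get S.hi j ≤ ∑ i ∈ chn S (get S.par j), get S.hi i :=
        single_le_sum (fun _ _ => Nat.zero_le _) (mem_filter.2 ⟨mem_Ico.2 ⟨h1, by omega⟩, rfl⟩)
      have := hz j (by omega)
      omega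
    · exact wid_le _ _ _
  · rw [muR_eq, if_pos rfl]
    split_ifs with c
    · simp [rN, c]
    · exact le_rfl

end Pool.Agent.MP_c853c5_nt.X
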