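import Pool.Agent.MP_c853c5_nt.X.M2C
import Pool.Agent.MP_c853c5_nt.X.M2D
import Pool.Agent.MP_c853c5_nt.X.Mass

/-!
Soundness of the second order mass bound.
-/

set_option autoImplicit false

open Finset Filter

namespace Pool.Agent.MP_c853c5_nt.X

open Pool.Agent.MP_c853c5_nt.S Pool.Agent.MP_c853c5_nt.REG Pool.Agent.MP_c853c5_nt.L

/-! ### differences -/

lemma difN_eq (d : ℕ) (D : List ℕ) : D.length ≤ d + 1 → ∀ (s : ℕ) (σ : ℝ), (s : ℝ) / SC = max σ 0 →
    (difN (d + 1) D s : ℝ) = (d + 1).factorial * SC ^ (d + 1) *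
      dif (D.map fun x : ℕ => (x : ℝ) / SC) (tp (d + 1)) σ := by
  induction D with
  | nil =>
    intro _ s σ h
    have : ((d + 1).factorial : ℝ) ≠ 0 := by positivity
    have := SC_pos.ne'
    rw [show difN (d + 1) [] s = s ^ (d + 1) from rfl, List.map_nil, dif, tp, ← h, div_pow]
    push_cast
    field_simp
  | cons x D ih =>
    intro hl s σ h
    rw [List.length_cons] at hl
    have h1 := ih (by omega) s σ h
    have h2 := ih (by omega) (s - x) (σ - x / SC) (by
      have x0 : (0 : ℝ) ≤ x / SC := by positivity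
      rcases le_total s x with e | e
      · rw [Nat.sub_eq_zero_of_le e, max_eq_right]
        · simp
        · linarith [le_max_left σ 0, cast_div_le SC e]
      · rw [Nat.cast_sub e, sub_div, h]
        have := cast_div_le SC e
        rw [h] at this
        rcases le_total σ 0 with g | g
        · rw [max_eq_right g] at this ⊢
          rw [max_eq_right (by linarith)]
          linarith
        · rw [max_eq_left g] at this ⊢
          rw [max_eq_left (by linarith)])
    have h3 : difN (d + 1) D (s - x) ≤ difN (d + 1) D s := by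
      rw [← Nat.cast_le (α := ℝ), h1, h2]
      refine mul_le_mul_of_nonneg_left (dif_mono' _ (fun y hy => ?_) _ (by simp; omega)
        (sub_le_self _ (by positivity))) (by positivity)
      obtain ⟨z, -, rfl⟩ := List.mem_map.1 hy
      positivity
    rw [show difN (d + 1) (x :: D) s = cnd (Nat.beq s 0) 0
      (difN (d + 1) D s - force (s - x) (difN (d + 1) D)) from rfl, force_eq, cnd_eq, List.map_cons,
      dif, mul_sub, ← h1, ← h2]
    split_ifs with e
    · rw [Nat.beq_eq] at e
      simp [e]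
    · exact Nat.cast_sub h3

lemma difN_ge (D : List ℕ) (s : ℕ) (σ : ℝ) (h : (s : ℝ) / SC = max σ 0) :
    D.length.factorial * SC ^ D.length *
      dif (D.map fun x : ℕ => (x : ℝ) / SC) (tp D.length) σ ≤ difN D.length D s := by
  cases D with
  | nil =>
    rw [show difN ([] : List ℕ).length [] s = s ^ 0 from rfl]
    simp only [List.length_nil, List.map_nil, dif, tp]
    split_ifs <;> simp
  | cons x D => exact (difN_eq D.length (x :: D) le_rfl s σ h).ge

lemma eU_ge (p : ℕ) {q : ℕ} (hq : 0 < q) : VV * Real.exp (-((p : ℝ) / q)) ≤ eU p q := by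
  have q0 : (0 : ℝ) < q := by exact_mod_cast hq
  have h1 := Real.quadratic_le_exp_of_nonneg (x := (p : ℝ) / q) (by positivity)
  rw [eU, force_eq, Real.exp_neg]
  refine le_trans ?_ (le_cd _ _)
  refine (mul_le_mul_of_nonneg_left (inv_anti₀ (by positivity) h1) VV_pos.le).trans_eq ?_
  simp only [Nat.mul_eq, Nat.add_eq, VV_eq]
  push_cast
  field_simp
  ring

/-! ### the fields -/

variable {S : NS} {A : ℕ → Finset ℕ} {r : ℕ}

/-- lower and upper bound of a block -/
def mW (W i : ℕ) : ℕ := fT W i % 4294967296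

def uW (W i : ℕ) : ℕ := fT W i >>> 32

noncomputable def sW (k W t : ℕ) : ℝ :=
  if t < k ∧ 20000 ≤ mW W t then 2 * SC / ((mW W t + uW W t : ℕ) : ℝ) else 0

lemma sW_nn (k W t : ℕ) : 0 ≤ sW k W t := by
  unfold sW
  split_ifs <;> positivity

lemma loR_lt (i T : ℕ) : loR (get S.lo i) T < 16777216 := by
  have := get_lt S.lo i
  rw [loR, force_eq, mx_eq, Nat.pred_eq_sub_one, Nat.sub_eq]
  omega

lemma fT_mkW (hk : S.k ≤ 16) (V : ℕ) {i : ℕ} (hi : i < S.k) : fT (mkW S V S.k) i = wOf S V i := by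
  have e : ∀ n, mkW S V n = ∑ j ∈ range n, wOf S V j * (2 ^ 64) ^ j := fun n => by
    induction n with
    | zero => rfl
    | succ n ih => rw [sum_range_succ, ← ih, add_comm (mkW S V n), ← pow_mul, ← Nat.shiftLeft_eq]; rfl
  show mkW S V S.k >>> (64 * i) % 2 ^ 64 = _
  rw [Nat.shiftRight_eq_div_pow, pow_mul, e, fld_sum _ _ _ _ fun j => j, filter_eq',
    if_pos (mem_range.2 hi), sum_singleton]
  refine (sum_le_card_nsmul _ _ (2 ^ 57) fun j _ => ?_).trans_lt ?_
  · have := get_lt S.hi j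
    have := loR_lt (S := S) j (fT V j)
    rw [wOf, force_eq, Nat.add_eq, Nat.shiftLeft_eq', Nat.shiftLeft_eq, Nat.sub_eq]
    omega
  · rw [card_range, smul_eq_mul]
    omega

lemma lb_W (hr : S.k = r + 1) (hk : S.k ≤ 16) {i : ℕ} (hi : i < S.k) :
    Lb S i (mW (mkW S (chV S r) S.k) i / SC) (uW (mkW S (chV S r) S.k) i / SC)
      (sW S.k (mkW S (chV S r) S.k) i) := by
  have e := fT_eq hr hk i
  have l1 : ∑ j ∈ S.ch i, S.L j = ((∑ j ∈ chn S i, get S.lo j : ℕ) : ℝ) / SC := by
    rw [Nat.cast_sum, sum_div]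
    rfl
  have l2 : ∑ j ∈ S.ch i, S.H j = ((∑ j ∈ chn S i, get S.hi j : ℕ) : ℝ) / SC := by
    rw [Nat.cast_sum, sum_div]
    rfl
  have b := loR_lt (S := S) i (fT (chV S r) i)
  have b' := loR_ge (get S.lo i) (fT (chV S r) i)
  have e1 : mW (mkW S (chV S r) S.k) i = loR (get S.lo i) (fT (chV S r) i) := by
    rw [mW, fT_mkW hk _ hi, wOf, force_eq, Nat.add_eq, Nat.shiftLeft_eq', Nat.shiftLeft_eq]
    omega
  have e2 : uW (mkW S (chV S r) S.k) i = get S.hi i - fT (chV S r) i % 4294967296 := by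
    rw [uW, fT_mkW hk _ hi, wOf, force_eq, Nat.add_eq, Nat.shiftLeft_eq', Nat.shiftLeft_eq,
      Nat.shiftRight_eq_div_pow, Nat.sub_eq]
    show _ = get S.hi i - Nat.mod _ _
    omega
  have e3 : loR (get S.lo i) (fT (chV S r) i) = 19999 ∨
      loR (get S.lo i) (fT (chV S r) i) + 1 + ∑ j ∈ chn S i, get S.hi j ≤ get S.lo i := by
    rw [loR, force_eq, mx_eq, Nat.pred_eq_sub_one, Nat.sub_eq, Nat.shiftRight_eq,
      Nat.shiftRight_eq_div_pow]
    omega
  unfold sW
  rw [e1, e2]
  generalize loR (get S.lo i) (fT (chV S r) i) = m at *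
  have m0 : (19999 : ℝ) ≤ m := by exact_mod_cast b'
  have e4 : m ≠ 19999 → (m : ℝ) / SC < S.al S.L S.H i := fun c => by
    have c' : (m : ℝ) + 1 + (∑ j ∈ chn S i, get S.hi j : ℕ) ≤ get S.lo i := by
      exact_mod_cast e3.resolve_left c
    rw [NS.al, l2, NS.L, SC_eq_Mass]
    linarith
  refine ⟨by rw [SC_eq_Mass]; linarith, ?_, ?_⟩
  · rw [l1, NS.H]
    refine le_trans ?_ (X.sub_le_cast _ _)
    exact sub_le_sub_left (cast_div_le SC (by omega)) _
  · split_ifs with c
    · refine Or.inr ⟨e4 (by omega), div_pos (by linarith [SC_pos]) (by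
        exact_mod_cast (show 0 < m + _ by omega)), le_of_eq ?_⟩
      have := SC_pos.ne'
      have : (m : ℝ) + (get S.hi i - fT (chV S r) i % 4294967296 : ℕ) ≠ 0 := by positivity
      rw [Nat.cast_add]
      field_simp
    · have : m = 19999 := by omega
      exact Or.inl ⟨rfl, lt_max_of_lt_right (by rw [this, SC_eq_Mass]; norm_num)⟩

/-! ### the blocks -/

lemma rgh_spec {m U z y i l : ℕ} (hm : 0 < m) (hz : 0 < z) (hi : i < 32) (hl : l < 32) :
    (U : ℝ) / SC ≤ max ((m : ℝ) / SC) (z / SC) ∨ (rgh m U z y i l % 32 = i ∧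
      ((1 : ℝ) + max 0 (L.Om (U / SC / (z / SC) - 1))) / (m / SC) ≤
        ((rgh m U z y i l >>> 5 : ℕ) : ℝ) / VV) ∨
    (rgh m U z y i l % 32 = l ∧
      min 1 ((y : ℝ) / SC / (m / SC)) / (z / SC) ≤ ((rgh m U z y i l >>> 5 : ℕ) : ℝ) / VV ∧
      ((1 : ℝ) + max 0 (L.Om (U / SC / (z / SC) - 1))) / (U / SC) ≤
        ((rgh m U z y i l >>> 5 : ℕ) : ℝ) / VV) := by
  by_cases h : U ≤ z
  · exact Or.inl (le_max_of_le_right (cast_div_le SC h))
  right
  have m0 : (0 : ℝ) < m := by exact_mod_cast hm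
  have z0 : (0 : ℝ) < z := by exact_mod_cast hz
  have s0 := SC_pos.ne'
  have e : cnd (Nat.ble U (Nat.mul 2 z)) 1000000000 (gUR U z) = gU U z := by
    simp only [gUR, force_eq, cnd_eq, Nat.ble_eq, lgR_eq, gU]
    rfl
  have g := gU_ge hz (y := U) le_rfl
  have key : ∀ n : ℕ, 0 < n → ∀ c : ℕ, cd (gU U z * 1000000) n ≤ c →
      (1 + max 0 (L.Om (U / z - 1))) / (n / SC) ≤ (c : ℝ) / VV := fun n hn c hc => by
    have n0 : (0 : ℝ) < n := by exact_mod_cast hn
    have g1 := (le_cd _ _).trans (Nat.cast_le.2 hc)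
    rw [div_le_iff₀ n0] at g1
    rw [div_div_eq_mul_div, div_le_div_iff₀ n0 VV_pos, SC_eq_Mass]
    push_cast at g1
    linarith
  rw [div_div_div_cancel_right₀ s0, div_div_div_cancel_right₀ s0]
  simp only [rgh, force_eq, cnd_eq (Nat.ble U z), Nat.ble_eq, if_neg h, e]
  rw [cnd_eq]
  split_ifs with c
  · refine Or.inl ⟨by simp only [Nat.add_eq, Nat.mul_eq]; omega, key m hm _ ?_⟩
    simp only [Nat.add_eq, Nat.mul_eq, Nat.shiftRight_eq_div_pow]
    show cdR _ _ ≤ _
    omega
  · refine Or.inr ⟨by simp only [Nat.add_eq, Nat.mul_eq]; omega, ?_, key U (by omega) _ ?_⟩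
    · have g1 := le_cd (1000000000000000 * min m y) (m * z)
      rw [le_div_iff₀ VV_pos]
      refine le_trans (le_of_eq_of_le ?_ g1) (Nat.cast_le.2 ?_)
      · rw [← div_self m0.ne', min_div_div_right m0.le, SC_eq_Mass, VV_eq]
        push_cast
        field_simp
        ring
      · simp only [Nat.add_eq, Nat.mul_eq, Nat.sub_eq, Nat.shiftRight_eq_div_pow,
          show m - (m - y) = min m y by omega]
        show cdR _ _ ≤ _
        omega
    · simp only [Nat.add_eq, Nat.mul_eq, Nat.sub_eq, Nat.shiftRight_eq_div_pow]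
      show cdR _ _ ≤ _
      omega

lemma blk_ok (hI : Inv S A) (hr : S.k = r + 1) (hk : S.k ≤ 16) (h0 : S.L 0 ≤ S.H 0) {W : ℕ}
    (hl : ∀ j < S.k, Lb S j (mW W j / SC) (uW W j / SC) (sW S.k W j)) {i : ℕ} (hi : i < S.k) :
    Blk2 S A r (sW S.k W) i (blk S W i % 32) ((blk S W i >>> 5 : ℕ) / VV) := by
  have m0 : ∀ j < S.k, 0 < mW W j := fun j hj => by
    have := (hl j hj).ge
    by_contra c
    rw [show mW W j = 0 by omega] at this
    norm_num at this
  have e : blk S W i = if uW W i ≤ mW W i then 0 else if get S.kd i = 0 then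
      32 * cd 1000000000000000 (mW W i) + i else if get S.kd i ≤ 16 then
      rgh (mW W i) (uW W i) (mW W (get S.kd i - 1))
        (mW W (get S.kd i - 1) + (uW W (get S.kd i - 1) - mW W (get S.kd i - 1))) i (get S.kd i - 1)
      else rgh (mW W i) (uW W i) (get S.kd i) (get S.kd i) i 16 := by
    simp only [blk, force_eq, cnd_eq, Nat.ble_eq, Nat.beq_eq]
    rfl
  by_cases c1 : get S.kd i = 0
  · refine blk2_P hI hr h0 hl hi (by positivity) (by rw [NS.kind, kindOf, if_pos c1]) ?_
    rw [e, if_pos c1]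
    split_ifs with c
    · exact Or.inl (cast_div_le SC c)
    · refine Or.inr ⟨by omega, ?_⟩
      rw [Nat.shiftRight_eq_div_pow, show (32 * cd 1000000000000000 (mW W i) + i) / 2 ^ 5 =
        cd 1000000000000000 (mW W i) by omega, one_div_div, le_div_iff₀ VV_pos, VV_eq, SC_eq_Mass]
      refine le_of_eq_of_le ?_ (le_cd _ _)
      push_cast
      ring
  by_cases c2 : get S.kd i ≤ 16
  · have q : S.kind i = .L (get S.kd i - 1) := by rw [NS.kind, kindOf, if_neg c1, if_pos c2]
    refine blk2_L hI hr h0 hl hi (by positivity) q ?_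
    rw [e, if_neg c1, if_pos c2]
    split_ifs with c
    · exact Or.inl (le_max_of_le_left (cast_div_le SC c))
    · rw [← cast_max_div (uW W (get S.kd i - 1)), show max (uW W (get S.kd i - 1)) (mW W (get S.kd i - 1)) =
        mW W (get S.kd i - 1) + (uW W (get S.kd i - 1) - mW W (get S.kd i - 1)) by omega]
      exact rgh_spec (m0 i hi) (m0 _ ((hI.kv i hi).2 _ q).1) (by omega) (by omega)
  · refine blk2_R hI hr h0 hl hi (by positivity) (c := get S.kd i / SC)
      (by rw [NS.kind, kindOf, if_neg c1, if_neg c2]) ?_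
    rw [e, if_neg c1, if_neg c2]
    split_ifs with c
    · exact Or.inl (le_max_of_le_left (cast_div_le SC c))
    · refine (rgh_spec (m0 i hi) (by omega) (by omega) (by omega)).imp_right
        (Or.imp_right fun h => ⟨?_, h.2⟩)
      rw [h.1, sW, if_neg (by omega)]

lemma accB_eq (W n : ℕ) : ∀ K : ℕ → ℕ → ℕ, accB S W n K =
    K (∏ i ∈ range n, blk S W i >>> 5) (∑ i ∈ range n, 1 * 256 ^ (blk S W i % 32)) := by
  induction n with
  | zero => exact fun _ => rfl
  | succ n ih =>
    intro K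
    rw [show accB S W (n + 1) K = force (blk S W n) fun b => accB S W n fun p c =>
      K (p * b >>> 5) (c + one (8 * (b % 32))) from rfl, force_eq, ih, prod_range_succ,
      sum_range_succ, one_eq, pow_mul, one_mul (256 ^ (blk S W n % 32))]
    rfl

lemma eX_ge {W C t : ℕ} (ht : t < S.k) {lo hi : ℕ} (h : lo ≤ hi) :
    VV * Real.exp (-(((C >>> (8 * t) % 256 : ℕ) : ℝ) * sW S.k W t * ((hi : ℝ) / SC - lo / SC))) ≤
      eX W C t (hi - lo) := by
  have e : eX W C t (hi - lo) = if C >>> (8 * t) % 256 = 0 then 1000000000 else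
      if 20000 ≤ mW W t then eU (2 * (C >>> (8 * t) % 256 * (hi - lo))) (mW W t + uW W t)
      else 1000000000 := by
    simp only [eX, force_eq, cnd_eq, Nat.ble_eq, Nat.beq_eq]
    rfl
  rw [e, sW]
  by_cases c1 : C >>> (8 * t) % 256 = 0
  · simp [c1, VV]
  rw [if_neg c1]
  by_cases c2 : 20000 ≤ mW W t
  · rw [if_pos c2, if_pos ⟨ht, c2⟩]
    refine le_of_eq_of_le ?_ (eU_ge _ (by omega))
    have := SC_pos.ne'
    rw [Nat.cast_mul, Nat.cast_mul, Nat.cast_sub h]
    congr 3
    push_cast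
    field_simp
  · rw [if_neg c2, if_neg fun c => c2 c.2]
    simp [VV]

/-- the total slope of the block `t` -/
noncomputable def slp (k W C t : ℕ) : ℝ := ((C >>> (8 * t) % 256 : ℕ) : ℝ) * sW k W t

lemma nodeP_ge (hI : Inv S A) {W C : ℕ} (q : Rw) (hL : ∀ j < S.k, get S.lo j ≤ get S.hi j) (n : ℕ) :
    n < S.k → ∀ (D : List ℕ) (F e a b : ℕ) (K : ℝ), 0 < e → 0 ≤ K →
      K * e ≤ F * (D.length.factorial * SC ^ D.length) →
      K * (∏ j ∈ range n, fac S.L S.H (slp S.k W C) (fun j => slp S.k W C (get S.par j)) q.u q.v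
        (j + 1) / VV) * dif (rowD S.L S.H q.u q.v n (D.map fun x : ℕ => (x : ℝ) / SC))
        (tp (rowD S.L S.H q.u q.v n (D.map fun x : ℕ => (x : ℝ) / SC)).length)
        (((a : ℝ) - b) / SC - ∑ j ∈ range (n + 1), (q.u j * S.L j - q.v j * S.H j)) ≤
      nodeP S W C q.l1 q.l2 n D D.length F e a b := by
  have s0 := SC_pos.ne'
  induction n with
  | zero =>
    intro _ D F e a b K he hK h
    have e0 : (0 : ℝ) < e := by exact_mod_cast he
    have e1 : nodeP S W C q.l1 q.l2 0 D D.length F e a b = cd (F * difN D.length D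
        (a + (cntL 0 q.l2 - cntL 0 q.l1) * get S.hi 0 -
          (b + (cntL 0 q.l1 - cntL 0 q.l2) * get S.lo 0))) e := by
      simp only [nodeP, force_eq]
      rfl
    have g := difN_ge D (a + (cntL 0 q.l2 - cntL 0 q.l1) * get S.hi 0 -
      (b + (cntL 0 q.l1 - cntL 0 q.l2) * get S.lo 0))
      (((a : ℝ) - b) / SC - (q.u 0 * S.L 0 - q.v 0 * S.H 0)) (by
        have e2 : ((a : ℝ) - b) / SC - (q.u 0 * S.L 0 - q.v 0 * S.H 0) =
            (((a + (cntL 0 q.l2 - cntL 0 q.l1) * get S.hi 0 : ℕ) : ℝ) -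
              (b + (cntL 0 q.l1 - cntL 0 q.l2) * get S.lo 0 : ℕ)) / SC := by
          simp only [Rw.u, Rw.v, NS.L, NS.H, Nat.cast_add, Nat.cast_mul]
          ring
        rw [e2]
        generalize a + (cntL 0 q.l2 - cntL 0 q.l1) * get S.hi 0 = x
        generalize b + (cntL 0 q.l1 - cntL 0 q.l2) * get S.lo 0 = y
        rcases le_total x y with c | c
        · rw [Nat.sub_eq_zero_of_le c, max_eq_right (div_nonpos_of_nonpos_of_nonneg
            (sub_nonpos.2 (Nat.cast_le.2 c)) SC_pos.le)]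
          simp
        · rw [Nat.cast_sub c, max_eq_left (div_nonneg (sub_nonneg.2 (Nat.cast_le.2 c)) SC_pos.le)])
    have g0 := dif_nonneg (D.map fun x : ℕ => (x : ℝ) / SC) (fun y hy => by
      obtain ⟨z, -, rfl⟩ := List.mem_map.1 hy
      positivity) (((a : ℝ) - b) / SC - (q.u 0 * S.L 0 - q.v 0 * S.H 0))
    rw [e1, prod_range_zero, mul_one, rowD, zero_add, sum_range_one]
    refine le_trans ?_ (le_cd _ _)
    rw [List.length_map] at g0 ⊢
    rw [le_div_iff₀ e0, Nat.cast_mul]
    nlinarith [mul_le_mul_of_nonneg_right h g0, mul_le_mul_of_nonneg_left g (Nat.cast_nonneg F)]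
  | succ n ih =>
    intro hn D F e a b K he hK h
    have w0 := hL (n + 1) hn
    have g1 := eX_ge (W := W) (C := C) hn w0
    have g2 := eX_ge (W := W) (C := C) ((hI.par (n + 1) (by omega) hn).trans hn) w0
    have g3 : VV * gw (slp S.k W C (n + 1)) (slp S.k W C (get S.par (n + 1))) (S.L (n + 1))
        (S.H (n + 1)) (S.H (n + 1)) (S.H (n + 1)) ≤
        eX W C (n + 1) (get S.hi (n + 1) - get S.lo (n + 1)) := by
      rw [gw, sub_self, mul_zero, sub_zero]
      exact g1
    have g4 : VV * gw (slp S.k W C (n + 1)) (slp S.k W C (get S.par (n + 1))) (S.L (n + 1))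
        (S.H (n + 1)) (S.L (n + 1)) (S.L (n + 1)) ≤
        eX W C (get S.par (n + 1)) (get S.hi (n + 1) - get S.lo (n + 1)) := by
      rw [gw, sub_self, mul_zero, neg_zero, zero_sub]
      exact g2
    have g5 : S.H (n + 1) - S.L (n + 1) = ((get S.hi (n + 1) - get S.lo (n + 1) : ℕ) : ℝ) / SC := by
      rw [Nat.cast_sub w0, sub_div]
      rfl
    have g6 : q.u (n + 1) + q.v (n + 1) = ((cntL (n + 1) q.l1 - cntL (n + 1) q.l2 +
        (cntL (n + 1) q.l2 - cntL (n + 1) q.l1) : ℕ) : ℝ) := (Nat.cast_add _ _).symm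
    have e1 : nodeP S W C q.l1 q.l2 (n + 1) D D.length F e a b =
        if cntL (n + 1) q.l1 = cntL (n + 1) q.l2 then
          nodeP S W C q.l1 q.l2 n D D.length (F * ((get S.hi (n + 1) - get S.lo (n + 1)) *
            (eX W C (get S.par (n + 1)) (get S.hi (n + 1) - get S.lo (n + 1)) +
              eX W C (n + 1) (get S.hi (n + 1) - get S.lo (n + 1)))))
            (e * 2000000000000000000000000) a b
        else nodeP S W C q.l1 q.l2 n ((cntL (n + 1) q.l1 - cntL (n + 1) q.l2 +
            (cntL (n + 1) q.l2 - cntL (n + 1) q.l1)) * (get S.hi (n + 1) - get S.lo (n + 1)) :: D)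
          (D.length + 1) (F * (2 * (eX W C (get S.par (n + 1)) (get S.hi (n + 1) - get S.lo (n + 1))
            + (eX W C (n + 1) (get S.hi (n + 1) - get S.lo (n + 1)) -
              eX W C (get S.par (n + 1)) (get S.hi (n + 1) - get S.lo (n + 1))))))
          (e * 2000000000000000000000000 * ((cntL (n + 1) q.l1 - cntL (n + 1) q.l2 +
            (cntL (n + 1) q.l2 - cntL (n + 1) q.l1)) * (D.length + 1)))
          (a + (cntL (n + 1) q.l2 - cntL (n + 1) q.l1) * get S.hi (n + 1))
          (b + (cntL (n + 1) q.l1 - cntL (n + 1) q.l2) * get S.lo (n + 1)) := by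
      simp only [nodeP, force_eq, cnd_eq, Nat.beq_eq]
      rfl
    rw [e1, rowD, prod_range_succ, sum_range_succ _ (n + 1), mul_comm (∏ j ∈ range n, _),
      ← mul_assoc, add_comm (∑ j ∈ range (n + 1), _), ← sub_sub, fac, g5, g6]
    simp only [Nat.cast_eq_zero]
    generalize hG : gw (slp S.k W C (n + 1)) (slp S.k W C (get S.par (n + 1))) (S.L (n + 1))
      (S.H (n + 1)) (S.H (n + 1)) (S.H (n + 1)) = G at *
    generalize hG' : gw (slp S.k W C (n + 1)) (slp S.k W C (get S.par (n + 1))) (S.L (n + 1))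
      (S.H (n + 1)) (S.L (n + 1)) (S.L (n + 1)) = G' at *
    have G0 : 0 ≤ G := hG ▸ (Real.exp_pos _).le
    have G1 : 0 ≤ G' := hG' ▸ (Real.exp_pos _).le
    generalize eX W C (n + 1) (get S.hi (n + 1) - get S.lo (n + 1)) = x at *
    generalize eX W C (get S.par (n + 1)) (get S.hi (n + 1) - get S.lo (n + 1)) = y at *
    generalize get S.hi (n + 1) - get S.lo (n + 1) = w at *
    have v0 := VV_pos
    by_cases c : cntL (n + 1) q.l1 = cntL (n + 1) q.l2
    · rw [if_pos c, if_pos (by omega), if_pos (by omega),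
        show q.u (n + 1) * S.L (n + 1) - q.v (n + 1) * S.H (n + 1) = 0 by simp [Rw.u, Rw.v, c],
        sub_zero]
      refine ih (by omega) D _ _ a b _ (by omega) (by positivity) ?_
      have := mul_le_mul h (mul_le_mul_of_nonneg_left (add_le_add g4 g3) (Nat.cast_nonneg w))
        (by positivity) (by positivity)
      push_cast
      rw [VV_eq, SC_eq_Mass] at *
      linarith
    · rw [if_neg c, if_neg (by omega), if_neg (by omega)]
      generalize hc : cntL (n + 1) q.l1 - cntL (n + 1) q.l2 +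
        (cntL (n + 1) q.l2 - cntL (n + 1) q.l1) = u at *
      have u0 : 0 < u := by omega
      have u1 : (0 : ℝ) < u := by exact_mod_cast u0
      have := ih (by omega) (u * w :: D) (F * (2 * (y + (x - y))))
        (e * 2000000000000000000000000 * (u * (D.length + 1)))
        (a + (cntL (n + 1) q.l2 - cntL (n + 1) q.l1) * get S.hi (n + 1))
        (b + (cntL (n + 1) q.l1 - cntL (n + 1) q.l2) * get S.lo (n + 1))
        (K * (max G' G / u / VV)) (by positivity) (by positivity) ?_
      · rw [List.map_cons, Nat.cast_mul u, mul_div_assoc (u : ℝ), List.length_cons] at this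
        convert this using 4
        simp only [Rw.u, Rw.v, NS.L, NS.H, Nat.cast_add, Nat.cast_mul]
        ring
      · have g7 : VV * max G' G ≤ ((y + (x - y) : ℕ) : ℝ) := by
          rw [mul_max_of_nonneg _ _ v0.le, show y + (x - y) = max y x by omega, Nat.cast_max]
          exact max_le_max g4 g3
        have := mul_le_mul_of_nonneg_right (mul_le_mul h g7 (by positivity) (by positivity))
          (show (0 : ℝ) ≤ 2 * SC * (D.length + 1) by positivity)
        rw [List.length_cons, Nat.factorial_succ, pow_succ, Nat.cast_mul F, Nat.cast_mul 2]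
        generalize ((y + (x - y) : ℕ) : ℝ) = z at *
        refine le_of_eq_of_le ?_ (this.trans_eq ?_)
        · push_cast
          rw [VV_eq, SC_eq_Mass]
          field_simp
          ring
        · push_cast
          ring

theorem m2_ok (hI : Inv S A) {q : Rw} (hq : ∀ a, Om S A a → q.ok (Y A a)) (hin : q.In S.k)
    (hl : M2 q S < INF) :
    Mass (SF S.k S.kind fun a => Om S A a ∧ ∀ j < S.k, 1 / 50 ≤ a j) ((M2 q S : ℝ) / 10 ^ 9) := by
  obtain ⟨g, e⟩ := grd_lt hl
  rw [Nat.ble_eq] at g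
  obtain ⟨r, hr⟩ : ∃ r, S.k = r + 1 := ⟨S.k - 1, by have := hI.pos; omega⟩
  by_cases hz : ∀ j < S.k, get S.lo j ≤ get S.hi j
  swap
  · simp only [not_forall, not_le] at hz
    obtain ⟨j, hj, hz⟩ := hz
    refine (mass_zero.of_le (Eventually.of_forall fun x n _ => ?_)).mono (by positivity)
    refine (SF_mono (Ω := fun _ => False) (fun a ha => ?_) x n).trans (by simp [SF])
    exact absurd ((ha.1.1 j hj).1.trans (ha.1.1 j hj).2)
      (div_lt_div_of_pos_right (Nat.cast_lt.2 hz) SC_pos).not_ge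
  rw [M2, e, force_eq, force_eq, force_eq, accB_eq, force_eq, force_eq, forceL_eq, forceL_eq,
    show Nat.pred S.k = r by rw [hr]; rfl]
  set W := mkW S (chV S r) S.k
  set C := ∑ i ∈ range S.k, 1 * 256 ^ (blk S W i % 32) with hC
  have hH : ∀ j < S.k, S.L j ≤ S.H j := fun j hj => cast_div_le SC (hz j hj)
  have h1 := mass2 hI hr (σ := sW S.k W) (R := fun i => ((blk S W i >>> 5 : ℕ) : ℝ) / VV)
    (s := slp S.k W C) (τ := fun i => blk S W i % 32) (fun i => by positivity)
    (fun i hi => blk_ok hI hr g (hH 0 hI.pos) (fun j hj => lb_W hr g hj) hi) (sW_nn _ _)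
    (fun t => mul_nonneg (Nat.cast_nonneg _) (sW_nn _ _ _)) (fun t _ => le_of_eq ?_) hq hin
    fun j _ _ => hH j (by omega)
  · refine h1.mono ?_
    have h2 := nodeP_ge hI (W := W) (C := C) q hz r (by omega) []
      (∏ i ∈ range S.k, blk S W i >>> 5) 1 q.c2 q.c1 _ one_pos
      (Nat.cast_nonneg (∏ i ∈ range S.k, blk S W i >>> 5)) (by simp)
    rw [← hr] at h2
    rw [le_div_iff₀ (by norm_num)]
    refine le_of_eq_of_le ?_ h2
    have v0 := VV_pos.ne'
    rw [prod_div_distrib, prod_div_distrib, prod_const, prod_const, card_range, card_range,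
      Nat.cast_prod, show (VV : ℝ) ^ S.k = VV ^ r * 10 ^ 9 by rw [hr, pow_succ, VV_eq]; norm_num,
      List.map_nil]
    field_simp
  · rw [slp, Nat.shiftRight_eq_div_pow, pow_mul, hC, show 2 ^ 8 = 256 from rfl,
      fld_sum 256 t (fun _ => 1) _ _ (by simp; omega), card_eq_sum_ones]

lemma selR_in {rs : List Rw} {k : ℕ} (h : ∀ r ∈ rs, r.In k) : ∀ m, (selR rs m).In k := by
  induction rs with
  | nil => exact fun _ => ⟨by simp [selR], by simp [selR]⟩
  | cons r rs ih =>
    intro m
    have := ih fun q hq => h q (by simp [hq])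
    rw [show selR (r :: rs) m = cnd (bit m 0) (r.add (selR rs (Nat.shiftRight m 1)))
      (selR rs (Nat.shiftRight m 1)) from rfl, cnd_eq]
    split_ifs
    exacts [(h r (by simp)).add (this _), this _]

theorem mn2_ok : MNok MN2 := by
  intro d S A hI hl
  rw [MN2, cnd_eq] at hl ⊢
  split_ifs at hl ⊢
  · exact mn_ok 0 S A hI hl
  · exact m2_ok hI (fun a ha => (selR_ok (fun r hr => ⟨ha.2 r hr, hI.rows r hr⟩) _).1)
      (selR_in hI.rows _) hl

end Pool.Agent.MP_c853c5_nt.X
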