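import Pool.Agent.MP_c853c5_nt.X.M2B

/-!
Volumes of boxes cut by half spaces.
-/

set_option autoImplicit false

open Finset Function MeasureTheory

namespace Pool.Agent.MP_c853c5_nt.X

variable {r : ℕ} {lo hi L H a : ℕ → ℝ} {σ : ℝ}

/-- closed and half open boxes in the coordinates `1, …, r` -/
def Bc (r : ℕ) (lo hi : ℕ → ℝ) : Set (Fin r → ℝ) :=
  Set.Icc (fun i => lo (i + 1)) fun i => hi (i + 1)

def Bo (r : ℕ) (lo hi : ℕ → ℝ) : Set (Fin r → ℝ) :=
  Set.pi Set.univ fun i => Set.Ioc (lo (i + 1)) (hi (i + 1))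

def Hs (r : ℕ) (a : ℕ → ℝ) (σ : ℝ) : Set (Fin r → ℝ) := {z | ∑ i : Fin r, a (i + 1) * z i ≤ σ}

lemma mem_Bc {z : Fin r → ℝ} : z ∈ Bc r lo hi ↔ ∀ i : Fin r, lo (i + 1) ≤ z i ∧ z i ≤ hi (i + 1) :=
  ⟨fun h i => ⟨h.1 i, h.2 i⟩, fun h => ⟨fun i => (h i).1, fun i => (h i).2⟩⟩

lemma mem_Bo {z : Fin r → ℝ} : z ∈ Bo r lo hi ↔ ∀ i : Fin r, lo (i + 1) < z i ∧ z i ≤ hi (i + 1) :=
  ⟨fun h i => h i trivial, fun h i _ => h i⟩

lemma Bo_sub : Bo r lo hi ⊆ Bc r lo hi := fun _ h =>
  mem_Bc.2 fun i => ⟨(mem_Bo.1 h i).1.le, (mem_Bo.1 h i).2⟩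

lemma Bc_fin {X : Set (Fin r → ℝ)} (h : X ⊆ Bc r lo hi) : volume X ≠ ⊤ :=
  ((measure_mono h).trans_lt isCompact_Icc.measure_lt_top).ne

lemma vol_Bc (h : ∀ j, 1 ≤ j → j ≤ r → lo j ≤ hi j) :
    volume.real (Bc r lo hi) = ∏ j ∈ range r, (hi (j + 1) - lo (j + 1)) := by
  rw [← Fin.prod_univ_eq_prod_range (fun j => hi (j + 1) - lo (j + 1)) r]
  exact Real.volume_Icc_pi_toReal fun i => h _ (by omega) (by omega)

lemma vol_Bo (h : ∀ j, 1 ≤ j → j ≤ r → lo j ≤ hi j) :
    volume.real (Bo r lo hi) = ∏ j ∈ range r, (hi (j + 1) - lo (j + 1)) := by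
  rw [← Fin.prod_univ_eq_prod_range (fun j => hi (j + 1) - lo (j + 1)) r]
  exact Real.volume_pi_Ioc_toReal fun i => h _ (by omega) (by omega)

lemma Hs_meas : MeasurableSet (Hs r a σ) :=
  (isClosed_le (by fun_prop) continuous_const).measurableSet

lemma subN_vol (X : Set (Fin r → ℝ)) :
    SubN fun lo hi m => volume.real (Bc r lo hi ∩ X) ≤ m := by
  refine ⟨fun lo hi j c m m' _ h1 h2 => le_trans ?_ (add_le_add h1 h2), fun _ _ _ _ h h' => h'.trans h,
    fun _ _ _ h => le_of_forall_pos_le_add h⟩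
  refine le_trans (measureReal_mono (fun z hz => ?_) (measure_union_ne_top
    (Bc_fin Set.inter_subset_left) (Bc_fin Set.inter_subset_left))) (measureReal_union_le _ _)
  have g := mem_Bc.1 hz.1
  by_cases e : ∀ i : Fin r, (i : ℕ) + 1 = j → z i ≤ c
  · refine Or.inl ⟨mem_Bc.2 fun i => ⟨(g i).1, ?_⟩, hz.2⟩
    by_cases q : (i : ℕ) + 1 = j
    · rw [q, update_self]
      exact e i q
    · rw [update_of_ne q]
      exact (g i).2
  · push Not at e
    obtain ⟨i0, e1, e2⟩ := e
    refine Or.inr ⟨mem_Bc.2 fun i => ⟨?_, (g i).2⟩, hz.2⟩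
    by_cases q : (i : ℕ) + 1 = j
    · rw [q, update_self, show i = i0 from Fin.ext (by omega)]
      exact e2.le
    · rw [update_of_ne q]
      exact (g i).1

/-- the volume of a box cut by one row -/
theorem vol_hs {u v : ℕ → ℝ} (hu : ∀ j, 0 ≤ u j) (hv : ∀ j, 0 ≤ v j) (huv : ∀ j, u j = 0 ∨ v j = 0)
    (hL : ∀ j, 1 ≤ j → j ≤ r → L j ≤ H j) :
    volume.real (Bc r L H ∩ Hs r (fun j => u j - v j) σ) ≤
      (∏ j ∈ range r, fac L H (fun _ => 0) (fun _ => 0) u v (j + 1)) *
        dif (rowD L H u v r []) (tp (rowD L H u v r []).length)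
          (σ - ∑ j ∈ range r, (u (j + 1) * L (j + 1) - v (j + 1) * H (j + 1))) := by
  have := (subN_vol (Hs r (fun j => u j - v j) σ)).multi (L := L) (H := H) (s := fun _ => 0)
    (p := fun _ => 0) (fun _ => le_rfl) (fun _ => le_rfl) hu hv huv r 1 σ [] hL zero_le_one
    (by simp) fun lo hi hb => ?_
  · rwa [one_mul] at this
  simp only [dif, List.length_nil, tp, gw, zero_mul, neg_zero, sub_zero, Real.exp_zero, mul_one,
    one_mul]
  split_ifs with c
  · rw [mul_one, ← vol_Bc fun j h1 h2 => (hb.1 j h1 h2).2.1]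
    exact measureReal_mono Set.inter_subset_left (Bc_fin le_rfl)
  · rw [mul_zero, Set.eq_empty_of_forall_notMem (s := Bc r lo hi ∩ _) fun z hz => c ?_,
      measureReal_empty]
    rw [sub_nonneg, ← Fin.sum_univ_eq_sum_range
      (fun j => u (j + 1) * lo (j + 1) - v (j + 1) * hi (j + 1)) r]
    refine le_trans (sum_le_sum fun i _ => ?_) hz.2
    obtain ⟨g1, g2⟩ := mem_Bc.1 hz.1 i
    nlinarith [mul_le_mul_of_nonneg_left g1 (hu (i + 1)), mul_le_mul_of_nonneg_left g2 (hv (i + 1))]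

/-- one more row -/
lemma vol_step {X B A : Set (Fin r → ℝ)} (hB : volume B ≠ ⊤) (hX : X ⊆ B) (hA : MeasurableSet A) :
    volume.real (X ∩ A) + volume.real B ≤
      volume.real X + volume.real (B ∩ A) + volume.real ((B \ A) \ X) := by
  have h1 := measureReal_inter_add_sdiff (μ := volume) (s := X) hA (measure_ne_top_of_subset hX hB)
  have h2 := measureReal_inter_add_sdiff (μ := volume) (s := B) hA hB
  have h3 : volume.real (B \ A) ≤ volume.real (X \ A) + volume.real ((B \ A) \ X) := by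
    refine le_trans (measureReal_mono (fun z hz => ?_) (measure_ne_top_of_subset
      (Set.union_subset (Set.sdiff_subset.trans hX) (Set.sdiff_subset.trans Set.sdiff_subset)) hB))
      (measureReal_union_le _ _)
    by_cases e : z ∈ X
    exacts [Or.inl ⟨e, hz.2⟩, Or.inr ⟨hz, e⟩]
  linarith

/-- the coordinate `p` is replaced by the slack of a row -/
noncomputable def shr (a : ℕ → ℝ) (σ : ℝ) (p : Fin r) (z : Fin r → ℝ) : Fin r → ℝ :=
  update z p (σ - ∑ i : Fin r, a (i + 1) * z i)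

theorem vol_shr (p : Fin r) (X : Set (Fin r → ℝ)) :
    volume.real (shr a σ p '' X) = |a (p + 1)| * volume.real X := by
  set M : Matrix (Fin r) (Fin r) ℝ :=
    (1 : Matrix (Fin r) (Fin r) ℝ).updateRow p (∑ k : Fin r, (-a (k + 1)) • (1 : Matrix (Fin r) (Fin r) ℝ) k)
  have e : shr a σ p '' X = (fun z => z + Pi.single p σ) '' (Matrix.toLin' M '' X) := by
    rw [Set.image_image]
    refine Set.image_congr fun z _ => funext fun i => ?_
    by_cases q : i = p
    · subst q
      simp [shr, M, Matrix.mulVec, dotProduct, Matrix.one_apply, sub_eq_neg_add]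
    · simp [shr, M, Matrix.mulVec, dotProduct, Matrix.one_apply, q]
  rw [e, measureReal_def, Set.image_add_right, measure_preimage_add_right,
    Measure.addHaar_image_linearMap, LinearMap.det_toLin', Matrix.det_updateRow_sum,
    Matrix.det_one, ENNReal.toReal_mul, ENNReal.toReal_ofReal (abs_nonneg _), smul_eq_mul, mul_one,
    abs_neg, measureReal_def]

/-- from small cells to the box; only the coordinates in `I` are cut -/
theorem SubN.fine {M : (ℕ → ℝ) → (ℕ → ℝ) → ℝ → Prop} (hM : SubN M) (I : ℕ → Prop) {δ K : ℝ}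
    (hδ : 0 < δ) (hK : 0 ≤ K) {U : Set (Fin r → ℝ)} (hU : MeasurableSet U)
    (hL : ∀ j, 1 ≤ j → j ≤ r → L j ≤ H j)
    (h : ∀ lo hi, SubB L H r lo hi → (∀ j, ¬ I j → lo j = L j ∧ hi j = H j) →
      (∀ j, 1 ≤ j → j ≤ r → I j → hi j - lo j ≤ δ) → M lo hi (K * volume.real (Bo r lo hi ∩ U))) :
    M L H (K * volume.real (Bo r L H ∩ U)) := by
  have key : ∀ n ≤ r, ∀ lo hi, SubB L H r lo hi → (∀ j, ¬ I j → lo j = L j ∧ hi j = H j) →
      (∀ j, n < j → j ≤ r → I j → hi j - lo j ≤ δ) → M lo hi (K * volume.real (Bo r lo hi ∩ U)) := by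
    intro n
    induction n with
    | zero => exact fun _ => h
    | succ n ih =>
      intro hn lo hi h1 h2 h3
      by_cases c : I (n + 1)
      swap
      · exact ih (by omega) lo hi h1 h2 fun j g1 g2 g3 => h3 j
          (lt_of_le_of_ne g1 fun e => c (e ▸ g3)) g2 g3
      obtain ⟨b1, b2, b3⟩ := h1.1 (n + 1) (by omega) hn
      have hP : Sub1 fun l h m => M (update lo (n + 1) l) (update hi (n + 1) h) m :=
        ⟨fun l c h m m' _ _ g1 g2 => hM.split _ _ (n + 1) c _ _ (by omega)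
          (by rwa [update_idem]) (by rwa [update_idem]),
          fun _ _ _ _ => hM.mono _ _ _ _, fun _ _ _ => hM.closed _ _ _⟩
      have := hP.bisect (T := fun l h => K * volume.real
        (Bo r (update lo (n + 1) l) (update hi (n + 1) h) ∩ U)) hδ b2 (fun l h' _ g2 _ => ?_)
        fun l h' g1 g2 g3 g4 => ih (by omega) _ _ ⟨fun j g5 g6 => ?_, fun j g5 => ?_⟩
          (fun j g5 => ?_) fun j g5 g6 g7 => ?_
      · simpa only [update_eq_self] using this
      · rw [← mul_add]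
        refine mul_le_mul_of_nonneg_left ?_ hK
        have fin : ∀ lo hi, volume (Bo r lo hi ∩ U) ≠ ⊤ := fun _ _ =>
          Bc_fin (Set.inter_subset_left.trans Bo_sub)
        have ms : ∀ lo hi, MeasurableSet (Bo r lo hi ∩ U) := fun _ _ =>
          (MeasurableSet.univ_pi fun _ => measurableSet_Ioc).inter hU
        rw [← measureReal_union (Set.disjoint_left.2 fun z g5 g6 => ?_) (ms _ _) (fin _ _) (fin _ _)]
        · refine measureReal_mono (Set.union_subset (fun z hz => ⟨mem_Bo.2 fun i => ?_, hz.2⟩)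
            fun z hz => ⟨mem_Bo.2 fun i => ?_, hz.2⟩) (fin _ _) <;>
          · have := mem_Bo.1 hz.1 i
            by_cases q : (i : ℕ) + 1 = n + 1
            · rw [q, update_self, update_self] at this ⊢
              constructor <;> linarith [this.1, this.2]
            · rwa [update_of_ne q, update_of_ne q] at this ⊢
        · have g7 := (mem_Bo.1 g5.1 ⟨n, hn⟩).2
          have g8 := (mem_Bo.1 g6.1 ⟨n, hn⟩).1
          rw [update_self] at g7 g8
          exact g7.not_gt g8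
      · by_cases q : j = n + 1
        · rw [q, update_self, update_self]
          exact ⟨b1.trans g1, g2, g3.trans b3⟩
        · rw [update_of_ne q, update_of_ne q]
          exact h1.1 j g5 g6
      · rw [update_of_ne (by omega), update_of_ne (by omega)]
        exact h1.2 j g5
      · have q : j ≠ n + 1 := fun e => g5 (e ▸ c)
        rw [update_of_ne q, update_of_ne q]
        exact h2 j g5
      · by_cases q : j = n + 1
        · rwa [q, update_self, update_self]
        · rw [update_of_ne q, update_of_ne q]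
          exact h3 j (by omega) g6 g7
  exact key r le_rfl L H ⟨fun j g1 g2 => ⟨le_rfl, hL j g1 g2, le_rfl⟩, fun _ _ => ⟨rfl, rfl⟩⟩
    (fun _ _ => ⟨rfl, rfl⟩) fun j g1 g2 => absurd g2 g1.not_ge

/-- the trapezoidal rule on a smaller box -/
theorem SubN.cell {M : (ℕ → ℝ) → (ℕ → ℝ) → ℝ → Prop} (hM : SubN M) {s p : ℕ → ℝ} {K : ℝ}
    (hs : ∀ j, 0 ≤ s j) (hp : ∀ j, 0 ≤ p j) (hK : 0 ≤ K)
    (h : ∀ lo hi, SubB L H r lo hi → M lo hi (K * ∏ j ∈ range r, (hi (j + 1) - lo (j + 1)) *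
      gw (s (j + 1)) (p (j + 1)) (L (j + 1)) (H (j + 1)) (lo (j + 1)) (hi (j + 1))))
    (hb : SubB L H r lo hi) : M lo hi (K * ∏ j ∈ range r, (hi (j + 1) - lo (j + 1)) *
      (gw (s (j + 1)) (p (j + 1)) (L (j + 1)) (H (j + 1)) (lo (j + 1)) (lo (j + 1)) +
        gw (s (j + 1)) (p (j + 1)) (L (j + 1)) (H (j + 1)) (hi (j + 1)) (hi (j + 1))) / 2) := by
  have e : ∀ j l h, gw (s j) (p j) (L j) (H j) l h =
      gw (s j) (p j) (L j) (H j) (lo j) (hi j) * gw (s j) (p j) (lo j) (hi j) l h := fun j l h => by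
    unfold gw
    rw [← Real.exp_add]
    congr 1
    ring
  have z : ∀ n : ℕ, rowD lo hi (fun _ => 0) (fun _ => 0) n [] = [] := fun n => by
    induction n with
    | zero => rfl
    | succ n ih => rw [rowD, if_pos (by simp), ih]
  have := hM.multi (L := lo) (H := hi) (u := fun _ => 0) (v := fun _ => 0) hs hp
    (fun _ => le_rfl) (fun _ => le_rfl) (fun _ => Or.inl rfl) r
    (K * ∏ j ∈ range r, gw (s (j + 1)) (p (j + 1)) (L (j + 1)) (H (j + 1)) (lo (j + 1)) (hi (j + 1)))
    0 [] (fun j h1 h2 => (hb.1 j h1 h2).2.1)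
    (mul_nonneg hK (prod_nonneg fun _ _ => (Real.exp_pos _).le)) (by simp) fun l h' hc => ?_
  · rw [z] at this
    convert this using 1
    simp only [dif, List.length_nil, tp, zero_mul, sub_self, sum_const_zero, le_refl, if_true,
      mul_one, fac, add_zero]
    rw [mul_assoc, ← prod_mul_distrib]
    refine congrArg _ (prod_congr rfl fun j _ => ?_)
    rw [e (j + 1) (lo (j + 1)) (lo (j + 1)), e (j + 1) (hi (j + 1)) (hi (j + 1))]
    ring
  · have := h l h' ⟨fun j h1 h2 => ⟨(hb.1 j h1 h2).1.trans (hc.1 j h1 h2).1, (hc.1 j h1 h2).2.1,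
      (hc.1 j h1 h2).2.2.trans (hb.1 j h1 h2).2.2⟩,
      fun j h1 => ⟨(hc.2 j h1).1.trans (hb.2 j h1).1, (hc.2 j h1).2.trans (hb.2 j h1).2⟩⟩
    convert this using 1
    simp only [dif, List.length_nil, tp, zero_mul, sub_self, sum_const_zero, le_refl, if_true,
      mul_one]
    rw [mul_assoc, ← prod_mul_distrib]
    refine congrArg _ (prod_congr rfl fun j _ => ?_)
    rw [e (j + 1) (l (j + 1)) (h' (j + 1))]
    ring

end Pool.Agent.MP_c853c5_nt.X
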