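import Pool.Agent.MP_c853c5_nt.X.GmA
import Pool.Agent.MP_c853c5_nt.X.M3A
import Pool.Agent.MP_c853c5_nt.X.M2

/-!
The mass of the cells of a mask.
-/

set_option autoImplicit false

open Finset Filter

namespace Pool.Agent.MP_c853c5_nt.X

open Pool.Agent.MP_c853c5_nt.S Pool.Agent.MP_c853c5_nt.REG Pool.Agent.MP_c853c5_nt.L

variable (g : Gr) (S : NS) (W C : ℕ)

noncomputable def gp (j : ℕ) : ℕ :=
  eX W C (get S.par j) (get S.hi j - get S.lo j) >>> 13 + 1

noncomputable def gq (j : ℕ) : ℕ := (eX W C j (get S.hi j - get S.lo j) +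
  cdR ((eX W C j (get S.hi j - get S.lo j) - eX W C (get S.par j) (get S.hi j - get S.lo j)) *
    (get g.wd j - (get S.hi j - get S.lo j))) (get S.hi j - get S.lo j)) >>> 13 + 1

noncomputable def gw1 (j x : ℕ) : ℕ :=
  get g.h j <<< (13 - b3 g.bs j) * wx (b3 g.bs j) (gp S W C j) (gq g S W C j) x

noncomputable def prW : ℕ → ℕ → ℕ → ℕ
  | 0, _, _ => 1
  | n + 1, j, c => gw1 g S W C j (c % 2 ^ b3 g.bs j) * prW n (j + 1) (c / 2 ^ b3 g.bs j)

variable {g S W C}

lemma off_add (bs j n : ℕ) : ∃ E, off bs (j + n) = off bs j + E := by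
  induction n with
  | zero => exact ⟨0, rfl⟩
  | succ n ih =>
    obtain ⟨E, h⟩ := ih
    exact ⟨E + b3 bs (j + n), by rw [← add_assoc (off bs j), ← h, add_comm (off _ _)]; rfl⟩

lemma prW_eq (c n : ℕ) : ∀ j, prW g S W C n j (c / 2 ^ off g.bs j) =
    ∏ i ∈ range n, gw1 g S W C (j + i) (cx g.bs (j + i) c) := by
  induction n with
  | zero => exact fun _ => rfl
  | succ n ih =>
    intro j
    rw [prW, Nat.div_div_eq_div_mul, ← pow_add, add_comm (off g.bs j),
      show b3 g.bs j + off g.bs j = off g.bs (j + 1) from rfl, ih, prod_range_succ', mul_comm]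
    simp only [add_assoc, add_comm 1]
    rfl

lemma gL_eq {Z e : ℕ} (n : ℕ) : ∀ (j F m P E : ℕ) (v : ℕ → ℕ), off g.bs (j + n) = off g.bs j + E →
    0 < F → (∀ c, v c ≤ m) → Z = 2 ^ (F * 2 ^ E) - 1 →
    gL g S W C Z e n j F (pv F (2 ^ E) v) m P < INF →
    gL g S W C Z e n j F (pv F (2 ^ E) v) m P =
      cdR (P * ∑ c ∈ range (2 ^ E), v c * prW g S W C n j c) e := by
  induction n with
  | zero =>
    intro j F m P E v h _ _ _ _
    obtain rfl : E = 0 := by simpa using h
    simp [gL, pv, prW]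
  | succ n ih =>
    intro j F m P E v h hF hv hZ hl
    obtain ⟨E', h'⟩ := off_add g.bs (j + 1) n
    obtain rfl : E = E' + b3 g.bs j := by
      have : off g.bs (j + 1) = b3 g.bs j + off g.bs j := rfl
      rw [add_assoc, add_comm 1] at h'
      omega
    have e1 : ∀ V, gL g S W C Z e (n + 1) j F V m P = if b3 g.bs j = 0 then
        gL g S W C Z e n (j + 1) F V m (P * get g.h j <<< (13 - b3 g.bs j) *
          (gp S W C j + gq g S W C j))
        else grd (Nat.beq ((m * (gp S W C j + gq g S W C j) <<< (2 * b3 g.bs j)) >>> F) 0)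
          (ctr Z (b3 g.bs j) (gp S W C j) (gq g S W C j) F V fun F' V' => gL g S W C Z e n (j + 1)
            F' V' (m * (gp S W C j + gq g S W C j) <<< (2 * b3 g.bs j))
            (P * get g.h j <<< (13 - b3 g.bs j))) := fun V => by
      simp only [gL, force_eq, cnd_eq, Nat.beq_eq]
      rfl
    rw [e1] at hl ⊢
    split_ifs at hl ⊢ with c
    · rw [c, add_zero] at hl hZ ⊢
      rw [ih _ _ _ _ _ _ h' hF hv hZ hl, mul_assoc, mul_assoc, mul_sum, mul_sum]
      refine congrArg (cdR · e) (congrArg _ (sum_congr rfl fun x _ => ?_))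
      simp only [prW, gw1, c, wx, pow_zero, Nat.mod_one, Nat.div_one]
      ring
    · obtain ⟨g1, g2⟩ := grd_lt hl
      rw [Nat.beq_eq, Nat.shiftRight_eq_div_pow, Nat.div_eq_zero_iff_lt (by positivity),
        Nat.shiftLeft_eq] at g1
      rw [g2, pow_add] at hl ⊢
      rw [pow_add] at hZ
      have e2 := fun K => ctr_eq (G := 2 ^ E') K hF hv g1
      rw [← hZ] at e2
      rw [e2] at hl ⊢
      rw [ih _ _ _ _ _ _ h' (by positivity) (fun c => ?_) (by rw [hZ]; congr 2; ring) hl, mul_assoc,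
        sum_grp, mul_sum]
      · refine congrArg (cdR · e) (congrArg _ (sum_congr rfl fun y _ => ?_))
        rw [sum_mul, mul_sum]
        refine sum_congr rfl fun x hx => ?_
        rw [prW, gw1, mul_comm y, Nat.mul_add_mod, Nat.mod_eq_of_lt (mem_range.1 hx),
          Nat.mul_add_div (by positivity), Nat.div_eq_of_lt (mem_range.1 hx), add_zero]
        ring
      · rw [Nat.shiftLeft_eq, ← sum_wx, mul_sum]
        exact sum_le_sum fun x _ => Nat.mul_le_mul_right _ (hv _)

/-- the chord -/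
lemma gw_chord {s p L H y : ℝ} (h1 : L ≤ y) (h2 : y ≤ H) : gw s p L H y y * (H - L) ≤
    gw s p L H L L * (H - y) + gw s p L H H H * (y - L) := by
  rcases (h1.trans h2).eq_or_lt with e | e
  · rw [le_antisymm h2 (e ▸ h1), e]
    simp
  have w := sub_pos.2 e
  have := convexOn_exp.2 (Set.mem_univ (-(s * (L - L)) - p * (H - L)))
    (Set.mem_univ (-(s * (H - L)) - p * (H - H))) (div_nonneg (sub_nonneg.2 h2) w.le)
    (div_nonneg (sub_nonneg.2 h1) w.le) (by field_simp; ring)
  simp only [smul_eq_mul] at this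
  unfold gw
  rw [show -(s * (y - L)) - p * (H - y) = (H - y) / (H - L) * (-(s * (L - L)) - p * (H - L)) +
    (y - L) / (H - L) * (-(s * (H - L)) - p * (H - H)) by field_simp; ring, ← le_div_iff₀ w]
  refine this.trans_eq ?_
  field_simp

/-- one cell of one node -/
lemma cell_le {s p L H h n x a b b' : ℝ} (hL : L < H) (hn : H - L ≤ h * n) (hx : 0 ≤ x)
    (hx' : x + 1 ≤ n) (ha : gw s p L H L L ≤ a) (hb : gw s p L H H H ≤ b') (b0 : 0 ≤ b)
    (hb' : (b' - a) * (h * n) ≤ (b - a) * (H - L)) :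
    (min (L + (x + 1) * h) H - min (L + x * h) H) *
      (gw s p L H (min (L + x * h) H) (min (L + x * h) H) +
        gw s p L H (min (L + (x + 1) * h) H) (min (L + (x + 1) * h) H)) / 2 ≤
      h / (2 * n) * (a * (2 * (n - 1 - x) + 1) + b * (2 * x + 1)) := by
  have n0 : 0 < n := by linarith
  have w := sub_pos.2 hL
  have h0 : 0 < h := (mul_pos_iff_of_pos_right n0).1 (w.trans_le hn)
  have a0 : 0 ≤ gw s p L H L L := (Real.exp_pos _).le
  have hn0 : 0 < h * n := mul_pos h0 n0
  have key : ∀ y, L ≤ y → y ≤ H →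
      gw s p L H y y * (h * n) ≤ a * (h * n - (y - L)) + b * (y - L) := fun y y1 y2 => by
    have g1 := (gw_chord (s := s) (p := p) y1 y2).trans (add_le_add
      (mul_le_mul_of_nonneg_right ha (sub_nonneg.2 y2))
      (mul_le_mul_of_nonneg_right hb (sub_nonneg.2 y1)))
    refine le_of_mul_le_mul_right ?_ w
    nlinarith [mul_le_mul_of_nonneg_right g1 hn0.le,
      mul_le_mul_of_nonneg_right hb' (sub_nonneg.2 y1)]
  have x0 : 0 ≤ x * h := mul_nonneg hx h0.le
  have x1 : (x + 1) * h ≤ h * n := by nlinarith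
  have a1 := a0.trans ha
  rw [div_mul_eq_mul_div, le_div_iff₀ (by positivity)]
  rcases le_total H (L + x * h) with c | c
  · rw [min_eq_right c, min_eq_right (by nlinarith), sub_self]
    have : 0 ≤ n - 1 - x := by linarith
    simp only [zero_mul, zero_div]
    positivity
  rw [min_eq_left c]
  have g1 := key (L + x * h) (by linarith) c
  have g2 := key (min (L + (x + 1) * h) H) (le_min (by nlinarith) hL.le) (min_le_right _ _)
  have g3 : L + x * h ≤ min (L + (x + 1) * h) H := le_min (by nlinarith) c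
  have g4 := min_le_left (L + (x + 1) * h) H
  generalize min (L + (x + 1) * h) H = u at *
  generalize gw s p L H u u = G at *
  generalize gw s p L H (L + x * h) (L + x * h) = G' at *
  refine le_of_mul_le_mul_right ?_ h0
  have g5 := mul_le_mul_of_nonneg_left (add_le_add g1 g2) (sub_nonneg.2 g3)
  have g6 := mul_nonneg (sub_nonneg.2 g4) (add_nonneg
    (mul_nonneg a1 (show 0 ≤ 2 * (h * n) - (u - L) - (x + 1) * h by linarith))
    (mul_nonneg b0 (show 0 ≤ u - L + (x + 1) * h by linarith)))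
  nlinarith

variable {A : ℕ → Finset ℕ}

/-- the cell `c` inside the box -/
noncomputable def cLo (g : Gr) (S : NS) (c j : ℕ) : ℝ :=
  if j < S.k then min (S.L j + cx g.bs j c * (get g.h j / SC)) (S.H j) else S.L j

noncomputable def cHi (g : Gr) (S : NS) (c j : ℕ) : ℝ :=
  if 1 ≤ j ∧ j < S.k then min (S.L j + (cx g.bs j c + 1) * (get g.h j / SC)) (S.H j) else S.H j

lemma shr_ge (e : ℕ) : (e : ℝ) ≤ 8192 * ((e >>> 13 + 1 : ℕ) : ℝ) := by
  exact_mod_cast (show e ≤ 8192 * (e >>> 13 + 1) by rw [Nat.shiftRight_eq_div_pow]; omega)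

lemma node_le (hI : Inv S A) (hg : g.OK S) {j : ℕ} (h1 : 1 ≤ j) (hj : j < S.k)
    (w0 : get S.lo j ≤ get S.hi j) (c : ℕ) :
    (cHi g S c j - cLo g S c j) * (gw (slp S.k W C j) (slp S.k W C (get S.par j)) (S.L j) (S.H j)
      (cLo g S c j) (cLo g S c j) + gw (slp S.k W C j) (slp S.k W C (get S.par j)) (S.L j) (S.H j)
      (cHi g S c j) (cHi g S c j)) / 2 ≤ gw1 g S W C j (cx g.bs j c) / (2 * VV * SC) := by
  rw [cHi, cLo, if_pos hj, if_pos ⟨h1, hj⟩]
  have s0 := SC_pos
  have v0 := VV_pos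
  have x0 : (0 : ℝ) ≤ cx g.bs j c * (get g.h j / SC) := by positivity
  rcases w0.eq_or_lt with e | e
  · have : S.H j = S.L j := by rw [NS.H, NS.L, e]
    rw [this, min_eq_right (le_add_of_nonneg_right x0), min_eq_right (le_add_of_nonneg_right (by positivity)),
      sub_self, zero_mul, zero_div]
    positivity
  have g1 := eX_ge (W := W) (C := C) hj w0
  have g2 := eX_ge (W := W) (C := C) ((hI.par j h1 hj).trans hj) w0
  have g3 : VV * gw (slp S.k W C j) (slp S.k W C (get S.par j)) (S.L j) (S.H j) (S.H j) (S.H j) ≤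
      eX W C j (get S.hi j - get S.lo j) := by
    rw [gw, sub_self, mul_zero, sub_zero]
    exact g1
  have g4 : VV * gw (slp S.k W C j) (slp S.k W C (get S.par j)) (S.L j) (S.H j) (S.L j) (S.L j) ≤
      eX W C (get S.par j) (get S.hi j - get S.lo j) := by
    rw [gw, sub_self, mul_zero, neg_zero, zero_sub]
    exact g2
  have g5 : S.H j - S.L j = ((get S.hi j - get S.lo j : ℕ) : ℝ) / SC := by
    rw [Nat.cast_sub w0, sub_div]
    rfl
  have b7 : b3 g.bs j < 8 := Nat.mod_lt _ (by norm_num)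
  have x1 : cx g.bs j c + 1 ≤ 2 ^ b3 g.bs j := Nat.mod_lt _ (by positivity)
  have c1 : get S.hi j - get S.lo j ≤ get g.h j * 2 ^ b3 g.bs j := by
    have := hg.cov j h1 hj
    omega
  have w1 : (0 : ℝ) < ((get S.hi j - get S.lo j : ℕ) : ℝ) := Nat.cast_pos.2 (by omega)
  have c2 : ((get S.hi j - get S.lo j : ℕ) : ℝ) ≤ get g.h j * 2 ^ b3 g.bs j := by exact_mod_cast c1
  have p1 := shr_ge (eX W C (get S.par j) (get S.hi j - get S.lo j))
  have q1 := shr_ge (eX W C j (get S.hi j - get S.lo j) +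
    cdR ((eX W C j (get S.hi j - get S.lo j) - eX W C (get S.par j) (get S.hi j - get S.lo j)) *
    (get g.wd j - (get S.hi j - get S.lo j))) (get S.hi j - get S.lo j))
  have q2 := le_cd ((eX W C j (get S.hi j - get S.lo j) -
    eX W C (get S.par j) (get S.hi j - get S.lo j)) * (get g.wd j - (get S.hi j - get S.lo j)))
    (get S.hi j - get S.lo j)
  have q3 := L.sub_le_cast (eX W C j (get S.hi j - get S.lo j))
    (eX W C (get S.par j) (get S.hi j - get S.lo j))
  rw [Nat.cast_add] at q1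
  rw [Nat.cast_mul, hg.wd j hj, Nat.cast_sub c1, ← hg.wd j hj, div_le_iff₀ w1, hg.wd j hj,
    Nat.cast_mul, Nat.cast_pow, Nat.cast_ofNat, ← hg.wd j hj] at q2
  change _ ≤ 8192 * (gp S W C j : ℝ) at p1
  change _ + (cd _ _ : ℝ) ≤ 8192 * (gq g S W C j : ℝ) at q1
  have := cell_le (s := slp S.k W C j) (p := slp S.k W C (get S.par j)) (L := S.L j) (H := S.H j)
    (h := get g.h j / SC) (n := 2 ^ b3 g.bs j) (x := cx g.bs j c)
    (a := 8192 * gp S W C j / VV) (b := 8192 * gq g S W C j / VV)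
    (b' := eX W C j (get S.hi j - get S.lo j) / VV)
    (div_lt_div_of_pos_right (Nat.cast_lt.2 e) s0)
    (by rw [g5, div_mul_eq_mul_div]; exact div_le_div_of_nonneg_right c2 s0.le)
    (Nat.cast_nonneg _) (by exact_mod_cast x1) (by rw [le_div_iff₀ v0]; linarith)
    (by rw [le_div_iff₀ v0]; linarith) (by positivity) ?_
  · refine this.trans_eq ?_
    rw [gw1, wx, Nat.shiftLeft_eq]
    push_cast [Nat.cast_sub (show cx g.bs j c ≤ 2 ^ b3 g.bs j - 1 by omega),
      Nat.cast_sub (Nat.one_le_two_pow (n := b3 g.bs j))]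
    rw [show (8192 : ℝ) = 2 ^ (13 - b3 g.bs j) * 2 ^ b3 g.bs j by
      rw [← pow_add, Nat.sub_add_cancel (by omega)]; norm_num]
    field_simp
  · rw [g5, ← sub_div, ← sub_div, div_mul_eq_mul_div _ (SC : ℝ), div_mul_div_comm,
      div_mul_div_comm]
    refine div_le_div_of_nonneg_right ?_ (by positivity)
    nlinarith [mul_le_mul_of_nonneg_right q1 w1.le, mul_le_mul_of_nonneg_right q3 (sub_nonneg.2 c2),
      mul_le_mul_of_nonneg_right p1 (sub_nonneg.2 c2)]

theorem gdM_ok : MSok gdM := by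
  classical
  intro g S A m d hI hg hl
  obtain ⟨r, hr⟩ : ∃ r, S.k = r + 1 := ⟨S.k - 1, by have := hI.pos; omega⟩
  by_cases hz : ∀ j < S.k, get S.lo j ≤ get S.hi j
  swap
  · simp only [not_forall, not_le] at hz
    obtain ⟨j, hj, hz⟩ := hz
    refine (mass_zero.of_le (Eventually.of_forall fun x n _ => ?_)).mono (by positivity)
    refine (SF_mono (Ω := fun _ => False) (fun a ha => ?_) x n).trans (by simp [SF])
    exact absurd ((ha.1.1.1 j hj).1.trans (ha.1.1.1 j hj).2)
      (div_lt_div_of_pos_right (Nat.cast_lt.2 hz) SC_pos).not_ge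
  rw [gdM, force_eq, force_eq, force_eq, accB_eq, force_eq, force_eq, force_eq,
    show Nat.pred S.k = r by rw [hr]; rfl, hg.hO, one_eq] at hl ⊢
  set W := mkW S (chV S r) S.k
  set C := ∑ i ∈ range S.k, 1 * 256 ^ (blk S W i % 32) with hC
  set v := fun c => (m >>> 31 / 2 ^ (32 * c) % 2 ^ 32) &&& 1 with hv
  have e0 : Nat.land (Nat.shiftRight m 31) (pk (2 ^ g.B) fun _ => 1) = pv 32 (2 ^ g.B) v :=
    pv_land _ _ _ fun _ => by norm_num
  have o1 : off g.bs 1 = 0 := hg.b0
  rw [e0] at hl ⊢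
  rw [gL_eq r 1 32 1 _ g.B v (by rw [o1, zero_add, hg.hB, hr, add_comm]) (by norm_num)
    (fun c => Nat.and_le_right) (by rw [← Nat.shiftLeft_eq]; rfl) hl]
  have hH : ∀ j < S.k, S.L j ≤ S.H j := fun j hj => cast_div_le SC (hz j hj)
  have hR : (0 : ℝ) ≤ ∏ i ∈ range S.k, ((blk S W i >>> 5 : ℕ) : ℝ) / VV :=
    prod_nonneg fun i _ => by positivity
  have s0 : ∀ t, 0 ≤ slp S.k W C t := fun t => mul_nonneg (Nat.cast_nonneg _) (sW_nn _ _ _)
  have hb : ∀ c, SubB S.L S.H r (cLo g S c) (cHi g S c) := fun c => ⟨fun j h1 h2 => by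
      have := SC_pos
      rw [cLo, cHi, if_pos (by omega), if_pos ⟨h1, by omega⟩]
      exact ⟨le_min (le_add_of_nonneg_right (by positivity)) (hH j (by omega)),
        min_le_min_right _ (by gcongr; linarith), min_le_right _ _⟩,
    fun j h1 => ⟨by
      rw [cLo]
      split_ifs
      · rw [show j = 0 by omega, hg.h0]
        simpa using hH 0 hI.pos
      · rfl, if_neg (by omega)⟩⟩
  have h1 := Mass.sum ((range (2 ^ g.B)).filter (onM m)) fun c _ =>
    (subN_reg S A).cell (p := fun j => slp S.k W C (get S.par j)) s0 (fun _ => s0 _) hR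
      (fun lo hi => base2 hI hr (σ := sW S.k W) (τ := fun i => blk S W i % 32)
        (fun i => by positivity)
        (fun i hi => blk_ok hI hr hI.le (hH 0 hI.pos) (fun j hj => lb_W hr hI.le hj) hi)
        (sW_nn _ _) fun t _ => le_of_eq (by
          rw [slp, Nat.shiftRight_eq_div_pow, pow_mul, hC, show 2 ^ 8 = 256 from rfl, fld_sum 256 t
            (fun _ => 1) _ _ (by have := hI.le; simp; omega), card_eq_sum_ones])) (hb c)
  refine (h1.of_le (Eventually.of_forall fun x n _ => ?_)).mono ?_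
  · have e : ∀ (s : Finset ℕ) (F : ℕ → AF), (∑ i ∈ s, F i) n = ∑ i ∈ s, F i n := fun s F => by
      induction s using Finset.induction_on with
      | empty => rfl
      | insert a s ha ih => rw [sum_insert ha, sum_insert ha, ArithmeticFunction.add_apply, ih]
    rw [e]
    simp only [SF, ArithmeticFunction.coe_mk]
    rw [← Nat.cast_sum]
    refine Nat.cast_le.2 ((card_le_card fun μ hμ => ?_).trans card_biUnion_le)
    obtain ⟨g1, ⟨⟨g2, c, g3, g4, g5⟩, g6⟩, g7⟩ := mem_filter.1 hμ
    refine mem_biUnion.2 ⟨c, mem_filter.2 ⟨mem_range.2 g3, g4⟩,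
      mem_filter.2 ⟨g1, ⟨⟨g2, g6⟩, fun j j1 j2 => ?_⟩, g7⟩⟩
    obtain ⟨g8, g9⟩ := g5 j j1 j2
    rw [cLo, cHi, if_pos j2, if_pos ⟨j1, j2⟩]
    push_cast at g8 g9
    rw [add_div, mul_div_assoc] at g8 g9
    exact ⟨(min_le_left _ _).trans g8, le_min g9 (g2.1 j j2).2⟩
  · have v0 := VV_pos
    have := SC_pos
    rw [le_div_iff₀ (by norm_num), ← mul_sum]
    refine le_trans ?_ (le_cd _ _)
    have h2 : ∑ c ∈ (range (2 ^ g.B)).filter (onM m), ∏ j ∈ range r,
        (gw1 g S W C (j + 1) (cx g.bs (j + 1) c) : ℝ) / (2 * VV * SC) ≤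
        (∑ c ∈ range (2 ^ g.B), v c * prW g S W C r 1 c : ℕ) / (2 * VV * SC) ^ r := by
      rw [Nat.cast_sum, sum_div, sum_filter]
      refine sum_le_sum fun c _ => ?_
      split_ifs with q
      · have e1 : v c = 1 := by
          have q' : m.testBit (32 * c + 31) = true := q
          rw [Nat.testBit_eq_decide_div_mod_eq, decide_eq_true_eq] at q'
          rw [hv]
          simp only [Nat.and_one_is_mod]
          rwa [Nat.mod_mod_of_dvd _ (by norm_num), Nat.shiftRight_eq_div_pow,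
            Nat.div_div_eq_div_mul, ← pow_add, add_comm]
        have e2 := prW_eq (g := g) (S := S) (W := W) (C := C) c r 1
        rw [o1, pow_zero, Nat.div_one] at e2
        rw [e1, one_mul, e2, prod_div_distrib, prod_const, card_range, Nat.cast_prod]
        simp only [add_comm 1, le_refl]
      · positivity
    refine (mul_le_mul_of_nonneg_right (mul_le_mul_of_nonneg_left ((sum_le_sum fun c _ =>
      prod_le_prod (fun j hj => ?_) fun j hj => node_le hI hg (by omega)
        (by have := mem_range.1 hj; omega) (hz _ (by have := mem_range.1 hj; omega)) c).trans h2) hR)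
      (by norm_num)).trans_eq ?_
    · have := sub_nonneg.2 ((hb c).1 (j + 1) (by omega) (mem_range.1 hj)).2.1
      unfold gw
      positivity
    · rw [prod_div_distrib, prod_const, card_range, show (VV : ℝ) ^ S.k = VV ^ r * 10 ^ 9 by
        rw [hr, pow_succ, VV_eq]; norm_num, Nat.cast_mul, Nat.cast_prod,
        show Nat.pow 2000000000000000000000000 r = 2000000000000000000000000 ^ r from rfl,
        Nat.cast_pow, show ((2000000000000000000000000 : ℕ) : ℝ) = VV * (2 * VV * SC) by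
          rw [VV_eq, SC_eq_Mass]; norm_num, mul_pow (VV : ℝ)]
      field_simp

end Pool.Agent.MP_c853c5_nt.X
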