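import Pool.Agent.MP_c853c5_nt.X.GzD
import Pool.Agent.MP_c853c5_nt.X.Gm

/-!
The two forms of the mass of the cells agree.
-/

set_option autoImplicit false

open Finset

namespace Pool.Agent.MP_c853c5_nt.X

lemma loZ_eq : loZ = loR := by
  funext l T
  have : ∀ x : ℕ, max x 20000 - 1 = Nat.add 19999 (Nat.sub x 20000) := fun x => by
    rw [Nat.add_eq, Nat.sub_eq]
    omega
  rw [loR, force_eq, mx_eq, Nat.pred_eq_sub_one, this]
  delta loZ
  rfl

lemma wZ_eq (S : NS) (V i : ℕ) : wZ (get S.lo i) (get S.hi i) (fT V i) = wOf S V i := by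
  rw [wOf, force_eq, ← loZ_eq]
  delta wZ
  rfl

lemma mkZ_eq (S : NS) (V n : ℕ) : mkZ S.lo S.hi V n = mkW S V n := by
  simp only [mkZ, mkW, wZ_eq]

lemma lgZ_eq (k : ℕ) : lgZ k = lgR k := by
  induction k with
  | zero => rfl
  | succ k ih =>
    funext l u
    show cnd _ _ (95310200 + lgZ k _ _) = force (11 * l) fun l' => force (10 * u) fun u' =>
      cnd (Nat.ble u' l') (lg0 l u) (95310200 + lgR k l' u')
    rw [force_eq, force_eq, ih]
    rfl

lemma gUZ_eq : gUZ = gUR := by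
  funext M a
  rw [gUR, force_eq, gUZ, lgZ_eq]

lemma rgZ_eq : rgZ = rgh := by
  funext m U z y i l
  simp only [rgh, force_eq, rgZ, rg1, rg2, gUZ_eq]

lemma blZ_eq (S : NS) (W : ℕ) : blZ S.kd W = blk S W := by
  funext i
  simp only [blk, force_eq, blZ, bl1, bl2, rgZ_eq]
  rfl

lemma accB_Z (S : NS) (W n : ℕ) : ∀ K, accB S W n K = K (acP S.kd W n) (acC S.kd W n) := by
  induction n with
  | zero => exact fun _ => rfl
  | succ n ih =>
    intro K
    show (force (blk S W n) fun b => accB S W n fun p c =>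
      K (p * b >>> 5) (c + one (8 * (b % 32)))) = _
    rw [force_eq, ih, ← blZ_eq]
    rfl

lemma eZ_eq : eZ = eX := by
  funext W C t w
  simp only [eX, eU, force_eq, eZ, eY, eW, eV, cnd_eq, Nat.beq_eq, Nat.ble_eq]
  generalize Nat.mod (Nat.shiftRight C (Nat.mul 8 t)) 256 = n
  rcases n with _ | n
  · simp
  · simp

lemma ctr_Z (Z b p q F V : ℕ) (K : ℕ → ℕ → ℕ) :
    ctr Z b p q F V K = K (F <<< b) (ctZ Z b p q F (F <<< b) V) := by
  rw [ctr, ctZ, wO, wX, rmp_pv, rmp_pv, rmp_pv, force_eq, Nat.shiftLeft_eq]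
  rfl

lemma gLZ_eq (g : Gr) (S : NS) (W C Z e n : ℕ) :
    gLZ g.bs g.h g.wd S.par S.lo S.hi W C Z e n = gL g S W C Z e n := by
  simp only [gLZ, gL, force_eq, gS0, gS1, gS2, gS3, eZ_eq, ctr_Z]
  rfl

theorem gdZ_eq : gdZ = gdM := by
  funext g S m d
  simp only [gdZ, gdW, gdM, force_eq, accB_Z, gLZ_eq, mkZ_eq]
  rfl

theorem gdZ_ok : MSok gdZ := gdZ_eq ▸ gdM_ok

end Pool.Agent.MP_c853c5_nt.X
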