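import Pool.Agent.MP_c853c5_nt.X.GyD
import Pool.Agent.MP_c853c5_nt.X.Gz

/-!
The two forms of the rule with fractional lanes agree.
-/

set_option autoImplicit false

namespace Pool.Agent.MP_c853c5_nt.X

lemma gyN_eq (P Q md e : ℕ) (K : KN) (R : List Nr) :
    gyN P Q md e K (toNL e R) = gaN P Q md e K R := by
  induction R with
  | nil => rfl
  | cons r R ih =>
    simp only [gyN, gaN, toNL, yP, yM, force_eq, fl] at ih ⊢
    simp only [ih]

lemma gyE_eq (g : Gr) (Z N : ℕ) (K : ℕ → ℕ → ℕ) : gyE g.T g.O Z N K = gaE g Z N K := by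
  funext sx W e2 p q F
  simp only [gyE, gaE, yE0, yE1, yE2, yE3, force_eq, cdz, cdv]

lemma gyL_eq (x : Ga) (L : List Rw) : gyL x.g.T x.g.O x.Z x.N (toNL 0 x.R) L = gaL x L := by
  simp only [gyL, gaL, yL, gyN_eq, gyE_eq]

theorem ofY_eq : ofY = ofA := by
  funext p x _ S s K
  simp only [ofY, ofA, gyL_eq]

lemma gqR_eq (par G : ℕ) (R : List Nr) :
    ∃ L, (∀ K, gqR par G R K = K L) ∧ gyR par G R = toNL 16 L := by
  induction R with
  | nil => exact ⟨[], fun _ => rfl, rfl⟩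
  | cons r R ih =>
    obtain ⟨L, h1, h2⟩ := ih
    have e : ∀ K, gqR par G (r :: R) K = force (Nat.mul 12 (d4 G (Nat.div r.a 44))) fun a =>
        force (Nat.mul 12 (d4 G (get par (Nat.div r.a 44)))) fun b => cnd (Nat.beq a b)
          (gqR par G R K) (gqR par G R fun L => K (⟨a, b, r.h, r.up, r.lo, r.U⟩ :: L)) :=
      fun _ => rfl
    have e' : gyR par G (r :: R) = yR r (gyR par G R) (Nat.mul 12 (d4 G (Nat.div r.a 44)))
      (Nat.mul 12 (d4 G (get par (Nat.div r.a 44)))) := rfl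
    simp only [e, e', force_eq, h1, h2, yR]
    cases Nat.beq (Nat.mul 12 (d4 G (Nat.div r.a 44)))
      (Nat.mul 12 (d4 G (get par (Nat.div r.a 44))))
    exacts [⟨_, fun _ => rfl, rfl⟩, ⟨L, fun _ => rfl, rfl⟩]

lemma gyQ_eq (x : Ga) (w R g0 : ℕ) (L : List Nr) (K : ℕ → ℕ → ℕ → ℕ) (c : ℕ) :
    gyQ x.g.T x.g.O x.Z x.N w R g0 (toNL 16 L) K c = gqL x w R g0 L K c := by
  simp only [gyQ, gqL, yQ0, yQ1, gyN_eq, gyE_eq, force_eq, rowQ, cnd]

theorem gqY_eq : gqY = gqI := by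
  funext gd T x _ S s K
  obtain ⟨L, h1, h2⟩ := gqR_eq S.par (low (Nat.shiftRight s 16) (Nat.mul 4 S.k)) x.R.tail
  simp only [gqY, gqI, hdQ, yH0, yH1, yH2, yB, fqB, force_eq, h1, h2, gyQ_eq]

lemma gyU_eq (g : Gr) (S : NS) (W C n : ℕ) :
    gyU g.bs g.h g.wd S.par S.lo S.hi W C g.B n = gaU g S W C n := by
  simp only [gyU, gaU, yU0, yU1, yU2, yU3, force_eq, eZ_eq]

lemma gyF_eq (g : Gr) (S : NS) (W C n p t c : ℕ) :
    gyF g S W C g.B n p t (Nat.shiftRight 65536 t) c = gaF g S W C n p t c := by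
  simp only [gyF, gaF, force_eq, gLZ_eq]
  rfl

theorem gaY_eq : gaY = gaR := by
  funext IT _ ih sg S s
  simp only [gaY, gaR, yA0, force_eq, accB_Z, mkZ_eq]
  congr 2
  funext g
  simp only [yA1, yA2, force_eq, gyU_eq, gyLoop, gaLoop, gyF_eq]

end Pool.Agent.MP_c853c5_nt.X
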