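import Pool.Agent.MP_c853c5_nt.X.Defs

/-!
The least prime factor of a composite factor is split off.
-/

set_option autoImplicit false

open Finset Filter

namespace Pool.Agent.MP_c853c5_nt.X

open Pool.Agent.MP_c853c5_nt.S

/-- the factors `i` and `k` of a tuple are merged -/
def mrg_Open (i k : ℕ) (μ : ℕ → ℕ) : ℕ → ℕ :=
  Function.update (Function.update μ i (μ i * μ k)) k 1

/-- the factor `k` is above the level -/
def bt_Open (a : Pt) (k : ℕ) : Kind → Prop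
  | .P => False
  | .R c => c < a k
  | .L l => a l ≤ a k

section

variable {i k n : ℕ} {μ : ℕ → ℕ} {x : ℝ} {kind : ℕ → Kind}

lemma mrg_i_Open (hi : i < k) : mrg_Open i k μ i = μ i * μ k := by
  simp [mrg_Open, hi.ne]

lemma mrg_ne_Open {j : ℕ} (h1 : j ≠ i) (h2 : j ≠ k) : mrg_Open i k μ j = μ j := by
  simp [mrg_Open, h1, h2]

lemma mg_ne_Open {a : Pt} {j : ℕ} (h1 : j ≠ i) (h2 : j ≠ k) : mg i k a j = a j := by
  simp [mg, h1, h2]

lemma prod_mrg_Open (hi : i < k) :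
    ∏ j ∈ range k, mrg_Open i k μ j = ∏ j ∈ range (k + 1), μ j := by
  rw [prod_range_succ, ← mul_prod_erase _ _ (mem_range.2 hi),
    ← mul_prod_erase _ μ (mem_range.2 hi), mrg_i_Open hi, mul_right_comm]
  congr 2
  exact prod_congr rfl fun j hj =>
    mrg_ne_Open (mem_erase.1 hj).1 (mem_range.1 (mem_erase.1 hj).2).ne

lemma pos_Open (h : μ ∈ tup k n) (j : ℕ) : 0 < μ j := by
  obtain ⟨h1, h2, h3⟩ := mem_tup.1 h
  rcases lt_or_ge j k with hj | hj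
  · exact Nat.pos_of_ne_zero fun e => h1 (h2 ▸ prod_eq_zero (mem_range.2 hj) e)
  · rw [h3 j hj]
    exact one_pos

lemma mrg_mem_Open (hi : i < k) (h : μ ∈ tup (k + 1) n) : mrg_Open i k μ ∈ tup k n := by
  obtain ⟨h1, h2, h3⟩ := mem_tup.1 h
  refine mem_tup.2 ⟨h1, (prod_mrg_Open hi).trans h2, fun j hj => ?_⟩
  rcases hj.eq_or_lt with rfl | hj
  · simp [mrg_Open]
  · rw [mrg_ne_Open (hi.trans hj).ne' hj.ne', h3 j hj]

lemma minFac_Open {m q : ℕ} (hq : q.Prime) (h : ∀ p : ℕ, p.Prime → p ∣ m → q ≤ p) :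
    (m * q).minFac = q := by
  have h1 : m * q ≠ 1 := fun e => hq.ne_one (Nat.eq_one_of_mul_eq_one_left e)
  refine le_antisymm (Nat.minFac_le_of_dvd hq.two_le (dvd_mul_left _ _)) ?_
  have h2 := Nat.minFac_prime h1
  rcases h2.dvd_mul.1 (Nat.minFac_dvd (m * q)) with h3 | h3
  · exact h _ h2 h3
  · exact ((Nat.prime_dvd_prime_iff_eq h2 hq).1 h3).ge

/-- the bijection -/
lemma card_Open (hi : i < k) {A A₁ B : (ℕ → ℕ) → Prop} {_ : DecidablePred A}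
    {_ : DecidablePred A₁} {_ : DecidablePred B} (h1 : ∀ μ ∈ tup k n, A₁ μ → A μ)
    (hA : ∀ μ ∈ tup k n, A μ → ¬ A₁ μ → ¬ (μ i).Prime ∧ 1 < μ i)
    (hB : ∀ μ ∈ tup (k + 1) n, B μ →
      (μ k).Prime ∧ 1 < μ i ∧ ∀ p : ℕ, p.Prime → p ∣ μ i → μ k ≤ p)
    (hAB : ∀ μ ∈ tup (k + 1) n, (μ k).Prime → 1 < μ i →
      (∀ p : ℕ, p.Prime → p ∣ μ i → μ k ≤ p) →
      (A (mrg_Open i k μ) ∧ ¬ A₁ (mrg_Open i k μ) ↔ B μ)) :
    ((tup k n).filter A).card = ((tup k n).filter A₁).card + ((tup (k + 1) n).filter B).card := by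
  rw [← card_filter_add_card_filter_not (s := (tup k n).filter A) A₁, filter_filter,
    filter_filter]
  congr 1
  · exact congrArg card (filter_congr fun μ hμ => ⟨fun h => h.2, fun h => ⟨h1 μ hμ h, h⟩⟩)
  symm
  refine card_bij (fun μ _ => mrg_Open i k μ) (fun μ hμ => ?_) (fun μ hμ ν hν e => ?_)
    fun μ hμ => ?_
  · obtain ⟨h2, h3⟩ := mem_filter.1 hμ
    obtain ⟨h4, h5, h6⟩ := hB μ h2 h3
    exact mem_filter.2 ⟨mrg_mem_Open hi h2, (hAB μ h2 h4 h5 h6).2 h3⟩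
  · obtain ⟨h4, -, h6⟩ := hB μ (mem_filter.1 hμ).1 (mem_filter.1 hμ).2
    obtain ⟨h4', -, h6'⟩ := hB ν (mem_filter.1 hν).1 (mem_filter.1 hν).2
    have e1 : μ i * μ k = ν i * ν k := by
      rw [← mrg_i_Open hi, ← mrg_i_Open hi]
      exact congrFun e i
    have e2 : μ k = ν k := by rw [← minFac_Open h4 h6, e1, minFac_Open h4' h6']
    funext j
    by_cases hk : j = k
    · rw [hk, e2]
    by_cases hj : j = i
    · rw [e2] at e1
      rw [hj, Nat.eq_of_mul_eq_mul_right h4'.pos e1]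
    · rw [← mrg_ne_Open (μ := μ) hj hk, ← mrg_ne_Open (μ := ν) hj hk]
      exact congrFun e j
  · obtain ⟨h2, h3, h4⟩ := mem_filter.1 hμ
    obtain ⟨h5, h6⟩ := hA μ h2 h3 h4
    obtain ⟨g1, g2, g3⟩ := mem_tup.1 h2
    set ν := Function.update (Function.update μ i (μ i / (μ i).minFac)) k (μ i).minFac with hν
    have n1 : ν k = (μ i).minFac := by simp [hν]
    have n2 : ν i = μ i / (μ i).minFac := by simp [hν, hi.ne]
    have e : mrg_Open i k ν = μ := by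
      funext j
      by_cases hk : j = k
      · rw [hk, g3 k le_rfl]
        simp [mrg_Open]
      by_cases hj : j = i
      · rw [hj, mrg_i_Open hi, n1, n2, Nat.div_mul_cancel (Nat.minFac_dvd _)]
      · rw [mrg_ne_Open hj hk]
        simp [hν, hj, hk]
    have m1 : ν ∈ tup (k + 1) n := by
      refine mem_tup.2 ⟨g1, by rw [← prod_mrg_Open hi, e, g2], fun j hj => ?_⟩
      have hk : j ≠ k := by omega
      have hj' : j ≠ i := by omega
      simp [hν, hj', hk, g3 j (by omega)]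
    have p1 := Nat.minFac_prime h6.ne'
    refine ⟨ν, mem_filter.2 ⟨m1, (hAB ν m1 (n1 ▸ p1) ?_ fun p hp hd => ?_).1 ?_⟩, e⟩
    · rw [n2]
      exact p1.one_lt.trans_le (Nat.minFac_le_div (by omega) h5)
    · rw [n2] at hd
      rw [n1]
      exact Nat.minFac_le_of_dvd hp.two_le (hd.trans (Nat.div_dvd_of_dvd (Nat.minFac_dvd _)))
    · rw [e]
      exact ⟨h3, h4⟩

lemma pt_mrg_Open (hi : i < k) (h : ∀ j, 0 < μ j) :
    pt x (mrg_Open i k μ) = mg i k (pt x μ) := by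
  funext j
  by_cases hk : j = k
  · simp [hk, pt, mg, mrg_Open]
  by_cases hj : j = i
  · rw [hj]
    simp only [pt, mrg_i_Open hi, mg, Function.update_of_ne hi.ne, Function.update_self,
      Nat.cast_mul]
    exact Real.logb_mul (Nat.cast_ne_zero.2 (h i).ne') (Nat.cast_ne_zero.2 (h k).ne')
  · rw [mg_ne_Open hj hk]
    simp only [pt, mrg_ne_Open hj hk]

lemma lt_pt_Open (hx : 1 < x) (h : ∀ j, 0 < μ j) {c : ℝ} {j : ℕ} :
    c < pt x μ j ↔ x ^ c < μ j :=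
  Real.lt_logb_iff_rpow_lt hx (Nat.cast_pos.2 (h j))

lemma pt_le_Open (hx : 1 < x) (h : ∀ j, 0 < μ j) {j l : ℕ} :
    pt x μ l ≤ pt x μ j ↔ μ l ≤ μ j :=
  (Real.logb_le_logb hx (Nat.cast_pos.2 (h l)) (Nat.cast_pos.2 (h j))).trans Nat.cast_le

lemma one_lt_Open (h : ∀ j, 0 < μ j) {j : ℕ} (h1 : 1 / 50 ≤ pt x μ j) : 1 < μ j := by
  by_contra h2
  have h3 : μ j = 1 := by have := h j; omega
  simp only [pt, h3, Nat.cast_one, Real.logb_one] at h1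
  norm_num at h1

lemma ok_upd_Open (hi : i < k) (κ : Kind) :
    (∀ j < k, (Function.update kind i κ j).ok x μ j) ↔
      κ.ok x μ i ∧ ∀ j < k, j ≠ i → (kind j).ok x μ j := by
  refine ⟨fun h => ⟨by simpa using h i hi, fun j hj hji => by simpa [hji] using h j hj⟩,
    fun h j hj => ?_⟩
  by_cases hji : j = i
  · simpa [hji] using h.1
  · simpa [hji] using h.2 j hj hji

lemma ok_self_Open (hi : i < k) : (∀ j < k, (kind j).ok x μ j) ↔
    (kind i).ok x μ i ∧ ∀ j < k, j ≠ i → (kind j).ok x μ j := by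
  rw [← ok_upd_Open hi, Function.update_eq_self]

lemma ok_opn_Open (hi : i < k) : (∀ j < k + 1, (opn kind i k j).ok x μ j) ↔
    (μ k).Prime ∧ (∀ p : ℕ, p.Prime → p ∣ μ i → μ k ≤ p) ∧
      ∀ j < k, j ≠ i → (kind j).ok x μ j := by
  rw [opn, ok_upd_Open k.lt_succ_self]
  refine and_congr Iff.rfl (Iff.trans ?_ (ok_upd_Open hi (.L k)))
  exact ⟨fun h j hj => h j (by omega) hj.ne, fun h j hj hk => h j (by omega)⟩

lemma ok_mrg_Open (hl : ∀ j < k, ∀ l, kind j = .L l → l ≠ i ∧ l ≠ k) :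
    (∀ j < k, j ≠ i → (kind j).ok x (mrg_Open i k μ) j) ↔ ∀ j < k, j ≠ i → (kind j).ok x μ j := by
  refine forall₃_congr fun j hj hji => ?_
  have h1 := hl j hj
  generalize kind j = κ at h1
  cases κ with
  | P => simp only [Kind.ok, mrg_ne_Open hji hj.ne]
  | R c => simp only [Kind.ok, mrg_ne_Open hji hj.ne]
  | L l => simp only [Kind.ok, mrg_ne_Open hji hj.ne, mrg_ne_Open (h1 l rfl).1 (h1 l rfl).2]

lemma ok_mrg_i_Open (hx : 1 < x) (hi : i < k) (h : ∀ j, 0 < μ j) (h1 : (μ k).Prime)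
    (h2 : 1 < μ i) (h3 : ∀ p : ℕ, p.Prime → p ∣ μ i → μ k ≤ p) {κ : Kind}
    (hl : ∀ l, κ = .L l → l ≠ i ∧ l ≠ k) :
    κ.ok x (mrg_Open i k μ) i ↔ bt_Open (pt x μ) k κ := by
  have h4 : ∀ p : ℕ, p.Prime → p ∣ μ i * μ k → μ k ≤ p := fun p hp hd =>
    (hp.dvd_mul.1 hd).elim (h3 p hp) fun e => ((Nat.prime_dvd_prime_iff_eq hp h1).1 e).ge
  cases κ with
  | P =>
    simp only [Kind.ok, bt_Open, mrg_i_Open hi, iff_false]
    exact Nat.not_prime_mul h2.ne' h1.ne_one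
  | R c =>
    simp only [Kind.ok, bt_Open, mrg_i_Open hi, lt_pt_Open hx h]
    exact ⟨fun g => g _ h1 (dvd_mul_left _ _),
      fun g p hp hd => g.trans_le (Nat.cast_le.2 (h4 p hp hd))⟩
  | L l =>
    simp only [Kind.ok, bt_Open, mrg_i_Open hi, pt_le_Open hx h,
      mrg_ne_Open (hl l rfl).1 (hl l rfl).2]
    exact ⟨fun g => g _ h1 (dvd_mul_left _ _), fun g p hp hd => g.trans (h4 p hp hd)⟩

lemma imp_of_ok_Open (hx : 1 < x) (h : ∀ j, 0 < μ j) (h1 : 1 < μ i) {κ : Kind}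
    (h2 : κ.ok x μ i) : κ.imp (pt x μ) i := by
  have h3 := Nat.minFac_prime h1.ne'
  have h4 := Nat.minFac_le (h i)
  cases κ with
  | P => trivial
  | R c => exact (lt_pt_Open hx h).2 ((h2 _ h3 (Nat.minFac_dvd _)).trans_le (Nat.cast_le.2 h4))
  | L l => exact (pt_le_Open hx h).2 ((h2 _ h3 (Nat.minFac_dvd _)).trans h4)

lemma ok_of_imp_Open (hx : 1 < x) (h : ∀ j, 0 < μ j) (h1 : (μ i).Prime) {κ : Kind}
    (h2 : κ.imp (pt x μ) i) : κ.ok x μ i := by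
  cases κ with
  | P => exact h1
  | R c =>
    intro p hp hd
    rw [(Nat.prime_dvd_prime_iff_eq hp h1).1 hd]
    exact (lt_pt_Open hx h).1 h2
  | L l =>
    intro p hp hd
    rw [(Nat.prime_dvd_prime_iff_eq hp h1).1 hd]
    exact (pt_le_Open hx h).1 h2

lemma rough_of_ok_Open (hx : 1 < x) (h : ∀ j, 0 < μ j) {κ : Kind} {ν : ℝ} (h1 : κ.ok x μ i)
    (h2 : κ.above ν (pt x μ) i) : Rough x ν (μ i) := by
  intro p hp hd
  cases κ with
  | P =>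
    rw [(Nat.prime_dvd_prime_iff_eq hp h1).1 hd]
    exact (lt_pt_Open hx h).1 h2
  | R c => exact (Real.rpow_le_rpow_of_exponent_le hx.le h2).trans_lt (h1 p hp hd)
  | L l => exact ((lt_pt_Open hx h).1 h2).trans_le (Nat.cast_le.2 (h1 p hp hd))

lemma tame_congr_Open {Q Q' : Pt → Prop} (h : Tame k Q) (e : ∀ a, Q a ↔ Q' a) : Tame k Q' :=
  (funext fun a => propext (e a) : Q = Q') ▸ h

lemma adm1_Open (hi : i < k) (c : ℝ) : (⟨{k}, ∅, c⟩ : Row).Adm (k + 1) := by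
  refine ⟨by simp, by simp, by simp, by simp, fun h => ?_, fun h => ?_⟩
  · have h1 : i ∈ ({k} : Finset ℕ) := (show ({k} : Finset ℕ) = range (k + 1) from h) ▸
      mem_range.2 (by omega)
    exact absurd (mem_singleton.1 h1) hi.ne
  · exact absurd (show (∅ : Finset ℕ) = range (k + 1) from h).symm nonempty_range_add_one.ne_empty

lemma adm2_Open {l : ℕ} (hl : l < k) : (⟨{k}, {l}, 0⟩ : Row).Adm (k + 1) :=
  ⟨by simp, by simpa using hl.le, by simpa using hl.ne', by simp, fun _ => by norm_num,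
    fun _ => by norm_num⟩

lemma tame_le_Open (h : TameStmt) (hi : i < k) : Tame (k + 1) fun a => a k ≤ a i :=
  tame_congr_Open (h.2.2.1 _ _ (adm2_Open hi)).1 fun a => by simp [Row.val]

lemma tame_bt_Open (h : TameStmt) (hi : i < k) {κ : Kind} (hl : ∀ l, κ = .L l → l < k) :
    (κ ≠ .P → Tame (k + 1) fun a => bt_Open a k κ) ∧ Tame (k + 1) fun a => ¬ bt_Open a k κ := by
  cases κ with
  | P => exact ⟨fun e => absurd rfl e, tame_congr_Open (h.2.1 _) fun a => by simp [bt_Open]⟩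
  | R c =>
    have h1 := h.2.2.1 _ _ (adm1_Open hi c)
    exact ⟨fun _ => tame_congr_Open h1.2.2.2 fun a => by simp [Row.val, bt_Open],
      tame_congr_Open h1.1 fun a => by simp [Row.val, bt_Open]⟩
  | L l =>
    have h1 := h.2.2.1 _ _ (adm2_Open (hl l rfl))
    exact ⟨fun _ => tame_congr_Open h1.2.2.1 fun a => by simp [Row.val, bt_Open],
      tame_congr_Open h1.2.1 fun a => by simp [Row.val, bt_Open]⟩

lemma low_Open {a : Pt} (h1 : ∀ j < k, 1 / 50 ≤ mg i k a j) (h2 : 1 / 50 ≤ a k)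
    (h3 : a k ≤ a i) : ∀ j < k + 1, 1 / 50 ≤ a j := by
  intro j hj
  by_cases hk : j = k
  · rwa [hk]
  by_cases hi : j = i
  · rw [hi]
    exact h2.trans h3
  · rw [← mg_ne_Open (a := a) hi hk]
    exact h1 j (by omega)

lemma lt_of_le_Open (hx : 1 < x) (h : ∀ j, 0 < μ j) (h1 : (μ k).Prime)
    (h2 : pt x μ k ≤ pt x μ i) : 1 < μ i := h1.one_lt.trans_le ((pt_le_Open hx h).1 h2)

lemma le_of_lt_Open (hx : 1 < x) (h : ∀ j, 0 < μ j) (h1 : 1 < μ i)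
    (h2 : ∀ p : ℕ, p.Prime → p ∣ μ i → μ k ≤ p) : pt x μ k ≤ pt x μ i :=
  (pt_le_Open hx h).2
    ((h2 _ (Nat.minFac_prime h1.ne') (Nat.minFac_dvd _)).trans (Nat.minFac_le (h i)))

end

theorem xDown (h : TameStmt) : DownStmt := by
  intro sg t l l' ν k i kind Ω Ω' hK hi hL hν hab hΩ H1 H2 Q hQ hQΩ
  have hl : ∀ j < k, ∀ l, kind j = .L l → l ≠ i ∧ l ≠ k := fun j hj l e =>
    ⟨fun e' => hL j hj (e' ▸ e), ((hK j hj).2 l e).1.ne⟩
  have T1 : Tame k fun a => Q a ∧ (kind i).imp a i := h.1 _ _ _ hQ (h.2.2.2.2 k i kind hK hi)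
  have T2 : Tame (k + 1) fun a => (Q (mg i k a) ∧ (kind i).imp (mg i k a) i) ∧
      bt_Open a k (.R ν) ∧ a k ≤ a i ∧ ¬ bt_Open a k (kind i) :=
    h.1 _ _ _ (h.2.2.2.1 k i _ hi T1) (h.1 _ _ _ ((tame_bt_Open h hi (by simp)).1 (by simp))
      (h.1 _ _ _ (tame_le_Open h hi) (tame_bt_Open h hi fun l e => ((hK i hi).2 l e).1).2))
  have S1 := H1 _ T1 fun a ha => hQΩ a ha.1
  have S2 := H2 _ T2 fun a ⟨h1, h2, h3, h4⟩ => by
    refine ⟨hΩ a (hQΩ _ h1.1).1 (le_of_lt h2) h3 ?_,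
      low_Open (hQΩ _ h1.1).2 (hν.trans (le_of_lt h2)) h3⟩
    revert h4
    cases kind i with
    | P => exact fun _ => trivial
    | R c => exact fun h4 => not_lt.1 h4
    | L l => exact fun h4 => (not_le.1 h4).le
  refine (S1.sub S2).congr ((eventually_gt_atTop 1).mono fun x hx n _ => ?_)
  refine sub_eq_of_eq_add ((congrArg Nat.cast (card_Open hi ?_ ?_ ?_ ?_)).trans (Nat.cast_add _ _))
  · rintro μ hμ ⟨h1, h2⟩
    have hp := pos_Open hμ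
    rw [ok_self_Open hi] at h2
    exact ⟨⟨h1, imp_of_ok_Open hx hp (one_lt_Open hp ((hQΩ _ h1).2 i hi)) h2.1⟩,
      (ok_upd_Open hi _).2 ⟨rough_of_ok_Open hx hp h2.1 (hab _ (hQΩ _ h1).1), h2.2⟩⟩
  · rintro μ hμ ⟨⟨h1, h2⟩, h3⟩ h4
    have hp := pos_Open hμ
    exact ⟨fun h5 => h4 ⟨h1, (ok_self_Open hi).2
      ⟨ok_of_imp_Open hx hp h5 h2, ((ok_upd_Open hi _).1 h3).2⟩⟩,
      one_lt_Open hp ((hQΩ _ h1).2 i hi)⟩
  · rintro μ hμ ⟨h1, h2⟩
    rw [ok_opn_Open hi] at h2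
    exact ⟨h2.1, lt_of_le_Open hx (pos_Open hμ) h2.1 h1.2.2.1, h2.2.1⟩
  · intro μ hμ h1 h2 h3
    have hp := pos_Open hμ
    have h4 := le_of_lt_Open hx hp h2 h3
    rw [ok_upd_Open hi, ok_self_Open hi, ok_opn_Open hi, ok_mrg_Open hl, pt_mrg_Open hi hp,
      ok_mrg_i_Open hx hi hp h1 h2 h3 (by simp), ok_mrg_i_Open hx hi hp h1 h2 h3 (hl i hi)]
    exact ⟨fun ⟨⟨a, b, c⟩, d⟩ => ⟨⟨a, b, h4, fun e => d ⟨a.1, e, c⟩⟩, h1, h3, c⟩,
      fun ⟨⟨a, b, _, d⟩, _, _, c⟩ => ⟨⟨a, b, c⟩, fun e => d e.2.1⟩⟩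

theorem xUp (h : TameStmt) : UpStmt := by
  intro sg t l l' k i kind Ω Ω' hK hi hP hΩ H1 H2 Q hQ hQΩ
  have hl : ∀ j < k, ∀ l, kind j = .L l → l ≠ i ∧ l ≠ k := fun j hj l e =>
    ⟨fun e' => hP (e' ▸ ((hK j hj).2 l e).2), ((hK j hj).2 l e).1.ne⟩
  have T1 : Tame k fun a => Q a ∧ (kind i).imp a i := h.1 _ _ _ hQ (h.2.2.2.2 k i kind hK hi)
  have T2 : Tame (k + 1) fun a => Q (mg i k a) ∧ a k ≤ a i ∧ bt_Open a k (kind i) :=
    h.1 _ _ _ (h.2.2.2.1 k i _ hi hQ) (h.1 _ _ _ (tame_le_Open h hi)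
      ((tame_bt_Open h hi fun l e => ((hK i hi).2 l e).1).1 hP))
  have S1 := H1 _ T1 fun a ha => hQΩ a ha.1
  have S2 := H2 _ T2 fun a ⟨h1, h3, h4⟩ => by
    have h5 : (kind i).bot a (a k) ∧ 1 / 50 ≤ a k := by
      have h6 := hK i hi
      have h7 := hl i hi
      revert h4 h6 h7
      cases kind i with
      | P => exact fun h4 => h4.elim
      | R c => exact fun h4 h6 _ => ⟨le_of_lt h4, (h6.1 c rfl).1.trans (le_of_lt h4)⟩
      | L l =>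
        refine fun h4 h6 h7 => ⟨h4, le_trans ?_ h4⟩
        rw [← mg_ne_Open (a := a) (h7 l rfl).1 (h7 l rfl).2]
        exact (hQΩ _ h1).2 l (h6.2 l rfl).1
    exact ⟨hΩ a (hQΩ _ h1).1 h3 h5.1, low_Open (hQΩ _ h1).2 h5.2 h3⟩
  refine (S1.add S2).congr ((eventually_gt_atTop 1).mono fun x hx n _ => ?_)
  refine ((congrArg Nat.cast (card_Open hi ?_ ?_ ?_ ?_)).trans (Nat.cast_add _ _)).symm
  · rintro μ hμ ⟨h1, h2⟩
    rw [ok_upd_Open hi] at h2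
    exact ⟨h1.1, (ok_self_Open hi).2 ⟨ok_of_imp_Open hx (pos_Open hμ) h2.1 h1.2, h2.2⟩⟩
  · rintro μ hμ ⟨h1, h2⟩ h4
    have hp := pos_Open hμ
    have h5 := one_lt_Open hp ((hQΩ _ h1).2 i hi)
    rw [ok_self_Open hi] at h2
    exact ⟨fun h6 => h4 ⟨⟨h1, imp_of_ok_Open hx hp h5 h2.1⟩, (ok_upd_Open hi _).2 ⟨h6, h2.2⟩⟩, h5⟩
  · rintro μ hμ ⟨h1, h2⟩
    rw [ok_opn_Open hi] at h2
    exact ⟨h2.1, lt_of_le_Open hx (pos_Open hμ) h2.1 h1.2.1, h2.2.1⟩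
  · intro μ hμ h1 h2 h3
    have hp := pos_Open hμ
    have h4 := le_of_lt_Open hx hp h2 h3
    rw [ok_upd_Open hi, ok_self_Open hi, ok_opn_Open hi, ok_mrg_Open hl, pt_mrg_Open hi hp,
      ok_mrg_i_Open hx hi hp h1 h2 h3 (hl i hi), ok_mrg_i_Open hx hi hp h1 h2 h3 (by simp)]
    exact ⟨fun ⟨⟨a, b, c⟩, _⟩ => ⟨⟨a, h4, b⟩, h1, h3, c⟩,
      fun ⟨⟨a, _, b⟩, _, _, c⟩ => ⟨⟨a, b, c⟩, fun e => e.2.1⟩⟩

end Pool.Agent.MP_c853c5_nt.X
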