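import Pool.Agent.MP_c853c5_nt.X.Defs

/-!
Few integers have a factorisation near a hyperplane.
-/

set_option autoImplicit false

open Finset Filter

namespace Pool.Agent.MP_c853c5_nt.X

open Pool.Agent.MP_c853c5_nt.S

lemma ind_le_Row {P Q : ℕ → Prop} {n : ℕ} (h : P n → Q n) : ind P n ≤ ind Q n := by
  classical
  change (if n ≠ 0 ∧ P n then (1 : ℝ) else 0) ≤ if n ≠ 0 ∧ Q n then 1 else 0
  by_cases k : n ≠ 0 ∧ P n
  · rw [if_pos k, if_pos ⟨k.1, h k.2⟩]
  · rw [if_neg k]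
    split_ifs <;> norm_num

lemma ind_zero_Row {P : ℕ → Prop} {n : ℕ} (h : ¬ P n) : ind P n = 0 := if_neg fun k => h k.2

lemma one_lt_Row {s : Finset ℕ} {μ : ℕ → ℕ} (hs : s.Nonempty) (h : ∀ j ∈ s, 1 < μ j) :
    1 < ∏ j ∈ s, μ j := by
  obtain ⟨j, hj⟩ := hs
  exact (h j hj).trans_le (single_le_prod' (fun i hi => (h i hi).le) hj)

lemma sum_Row (x : ℝ) {s : Finset ℕ} {μ : ℕ → ℕ} (h : ∀ j ∈ s, 1 < μ j) :
    ∑ j ∈ s, pt x μ j = Real.logb x ((∏ j ∈ s, μ j : ℕ) : ℝ) := by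
  rw [Nat.cast_prod, Real.logb_prod]
  · rfl
  · intro j hj
    have := h j hj
    exact Nat.cast_ne_zero.2 (by omega)

lemma win_Row {d : ℝ} (hd : 0 < d) : ∀ᶠ x : ℝ in atTop, ∀ n : ℕ, Win x n →
    |Real.logb x n - 1| < d := by
  filter_upwards [eventually_gt_atTop 1,
    Real.tendsto_log_atTop.eventually (eventually_gt_atTop (Real.log 2 / d))] with x hx h1 n hn
  have hl := Real.log_pos hx
  have h0 : (0 : ℝ) < n := lt_trans (by linarith) hn.1
  have h2 : Real.log n ≤ Real.log 2 + Real.log x := by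
    rw [← Real.log_mul (by norm_num) (by linarith)]
    exact Real.log_le_log h0 hn.2
  have h3 : Real.log x ≤ Real.log 2 + Real.log n := by
    rw [← Real.log_mul (by norm_num) h0.ne']
    exact Real.log_le_log (by linarith) (by linarith [hn.1])
  rw [div_lt_iff₀ hd] at h1
  have e : Real.logb x n - 1 = (Real.log n - Real.log x) / Real.log x := by
    rw [Real.logb]
    field_simp
  rw [e, abs_div, abs_of_pos hl, div_lt_iff₀ hl, abs_lt]
  constructor <;> linarith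

lemma main_Row (hb : BadStmt) (k : ℕ) (A B : Finset ℕ) (e : ℝ) (hA : A ⊆ range k)
    (hB : B ⊆ range k) (hd : Disjoint A B) (hn : A.Nonempty) (he : A = range k → e ≠ 1)
    (ε : ℝ) (hε : 0 < ε) : ∃ h : ℝ, 0 < h ∧
      Mass (fun x => ind fun n => ∃ μ ∈ tup k n, (∀ j < k, 1 < μ j ∧ Rough x (1 / 100) (μ j)) ∧
        |∑ j ∈ A, pt x μ j - ∑ j ∈ B, pt x μ j - e| ≤ h) ε := by
  by_cases c : A = range k
  · have h1 : 0 < |e - 1| / 2 := half_pos (abs_pos.2 (sub_ne_zero.2 (he c)))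
    refine ⟨_, h1, (mass_zero.mono hε.le).of_le ?_⟩
    filter_upwards [win_Row h1] with x hx n hw
    refine (ind_zero_Row ?_).le
    rintro ⟨μ, h2, h3, h4⟩
    have h5 : B = ∅ := (disjoint_self_iff_empty B).1 (hd.mono_left (c ▸ hB))
    rw [h5, sum_empty, sub_zero, c, sum_Row x fun j hj => (h3 j (mem_range.1 hj)).1,
      (mem_tup.1 h2).2.1] at h4
    have h6 := abs_sub_le e (Real.logb x n) 1
    rw [abs_sub_comm e (Real.logb x n)] at h6
    linarith [hx n hw]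
  · obtain ⟨h, h0, h1⟩ := hb e ε hε
    refine ⟨h, h0, h1.of_le (Eventually.of_forall fun x n _ => ind_le_Row ?_)⟩
    rintro ⟨μ, h2, h3, h4⟩
    have h5 := (mem_tup.1 h2).2.1
    have hB' : B ⊆ range k \ A := subset_sdiff.2 ⟨hB, hd.symm⟩
    have h6 : (∏ j ∈ B, μ j) * ∏ j ∈ (range k \ A) \ B, μ j = ∏ j ∈ range k \ A, μ j := by
      rw [mul_comm, prod_sdiff hB']
    refine ⟨?_, ∏ j ∈ A, μ j, ∏ j ∈ B, μ j, ∏ j ∈ (range k \ A) \ B, μ j, ?_,
      one_lt_Row hn fun j hj => (h3 j (mem_range.1 (hA hj))).1, ?_, ?_⟩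
    · rw [← h5]
      exact prod_induction μ (Rough x (1 / 100)) (fun _ _ a b => rough_mul.2 ⟨a, b⟩)
        (rough_one _ _) fun j hj => (h3 j (mem_range.1 hj)).2
    · rw [mul_assoc, h6, mul_comm, prod_sdiff hA, h5]
    · rw [h6]
      exact one_lt_Row (sdiff_nonempty.2 fun k' => c (hA.antisymm k'))
        fun j hj => (h3 j (mem_range.1 (mem_sdiff.1 hj).1)).1
    · rwa [sum_Row x fun j hj => (h3 j (mem_range.1 (hA hj))).1,
        sum_Row x fun j hj => (h3 j (mem_range.1 (hB hj))).1] at h4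

theorem xRow (h : BadStmt) : RowStmt := by
  rintro k r ⟨hA, hB, hd, hn, h1, h2⟩ ε hε
  rcases union_nonempty.1 hn with c | c
  · exact main_Row h k r.A r.B r.e hA hB hd c h1 ε hε
  · obtain ⟨δ, h3, h4⟩ := main_Row h k r.B r.A (-r.e) hB hA hd.symm c
      (fun k' e => h2 k' (by linarith)) ε hε
    refine ⟨δ, h3, h4.of_le (Eventually.of_forall fun x n _ => ind_le_Row ?_)⟩
    rintro ⟨μ, a1, a2, a3⟩
    refine ⟨μ, a1, a2, ?_⟩
    rw [← abs_neg]
    unfold Row.val at a3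
    convert a3 using 2
    ring

end Pool.Agent.MP_c853c5_nt.X
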