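import Pool.Agent.MP_c853c5_nt.X.Defs

/-!
Tame regions and the elementary rules.
-/

set_option autoImplicit false

open Finset Filter

namespace Pool.Agent.MP_c853c5_nt.X

open Pool.Agent.MP_c853c5_nt.S

/-- the lift of an index set -/
def lift_Tame (i k : ℕ) (A : Finset ℕ) : Finset ℕ := if i ∈ A then insert k A else A

lemma mem_lift_Tame {i k j : ℕ} {A : Finset ℕ} :
    j ∈ lift_Tame i k A ↔ j ∈ A ∨ (j = k ∧ i ∈ A) := by
  unfold lift_Tame
  split_ifs with h
  · simp [h, or_comm]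
  · simp [h]

lemma sum_lift_Tame {i k : ℕ} {A : Finset ℕ} (hA : A ⊆ range k) (a : Pt) :
    ∑ j ∈ lift_Tame i k A, a j = ∑ j ∈ A, mg i k a j := by
  have hk : k ∉ A := fun h => lt_irrefl k (mem_range.1 (hA h))
  have e : ∑ j ∈ A, mg i k a j = ∑ j ∈ A, Function.update a i (a i + a k) j :=
    sum_congr rfl fun j hj => Function.update_of_ne (fun h : j = k => hk (h ▸ hj)) _ _
  rw [e, lift_Tame]
  split_ifs with h
  · rw [sum_insert hk, sum_update_of_mem h, ← add_sum_erase A a h, sdiff_singleton_eq_erase]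
    ring
  · rw [sum_update_of_notMem h]

lemma range_lift_Tame {i k : ℕ} {A : Finset ℕ} (hA : A ⊆ range k)
    (h : lift_Tame i k A = range (k + 1)) : A = range k :=
  Subset.antisymm hA fun j hj => by
    have h1 := mem_range.1 hj
    rcases mem_lift_Tame.1 (h ▸ mem_range.2 (Nat.lt_succ_of_lt h1)) with e | e
    · exact e
    · omega

lemma sub_lift_Tame {i k : ℕ} {A : Finset ℕ} (hA : A ⊆ range k) :
    lift_Tame i k A ⊆ range (k + 1) := fun j hj => by
  rcases mem_lift_Tame.1 hj with e | e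
  · exact mem_range.2 (Nat.lt_succ_of_lt (mem_range.1 (hA e)))
  · exact mem_range.2 (by omega)

lemma congr_Tame {k : ℕ} {Q Q' : Pt → Prop} (h : Tame k Q) (e : ∀ a, Q a ↔ Q' a) : Tame k Q' :=
  (funext fun a => propext (e a) : Q = Q') ▸ h

lemma row_Tame {k : ℕ} {r : Row} (hr : r.Adm k) {Q : Pt → Prop}
    (h : ∀ a a', r.Same a a' → Q a → Q a') : Tame k Q :=
  ⟨[r], by simpa using hr, fun a a' e => h a a' (e r (by simp))⟩

lemma rows_Tame (k : ℕ) (r : Row) (hr : r.Adm k) : Tame k (fun a => r.val a ≤ r.e) ∧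
    Tame k (fun a => r.val a < r.e) ∧ Tame k (fun a => r.e ≤ r.val a) ∧
    Tame k fun a => r.e < r.val a := by
  refine ⟨?_, ?_, ?_, ?_⟩ <;> refine row_Tame hr ?_ <;> rintro a a' (⟨h1, h2⟩ | ⟨h1, h2⟩) h <;>
    linarith

theorem xTame : TameStmt := by
  refine ⟨?_, fun k => ⟨[], by simp, fun _ _ _ h => h⟩, rows_Tame, ?_, ?_⟩
  · rintro k Q Q' ⟨R, h1, h2⟩ ⟨R', h3, h4⟩
    exact ⟨R ++ R', fun r hr => (List.mem_append.1 hr).elim (h1 r) (h3 r), fun a a' e h =>
      ⟨h2 a a' (fun r hr => e r (List.mem_append_left _ hr)) h.1,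
        h4 a a' (fun r hr => e r (List.mem_append_right _ hr)) h.2⟩⟩
  · rintro k i Q - ⟨R, h1, h2⟩
    refine ⟨R.map fun r => ⟨lift_Tame i k r.A, lift_Tame i k r.B, r.e⟩, fun r hr => ?_,
      fun a a' e => h2 _ _ fun r hr => ?_⟩
    · obtain ⟨r, hr', rfl⟩ := List.mem_map.1 hr
      obtain ⟨a1, a2, a3, ⟨j, a4⟩, a5, a6⟩ := h1 r hr'
      refine ⟨sub_lift_Tame a1, sub_lift_Tame a2, disjoint_left.2 fun j b1 b2 => ?_, ⟨j, ?_⟩,
        fun e => a5 (range_lift_Tame a1 e), fun e => a6 (range_lift_Tame a2 e)⟩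
      · rcases mem_lift_Tame.1 b1 with c | c <;> rcases mem_lift_Tame.1 b2 with d | d
        · exact disjoint_left.1 a3 c d
        · exact lt_irrefl k (mem_range.1 (a1 (d.1 ▸ c)))
        · exact lt_irrefl k (mem_range.1 (a2 (c.1 ▸ d)))
        · exact disjoint_left.1 a3 c.2 d.2
      · exact mem_union.2 ((mem_union.1 a4).imp (fun c => mem_lift_Tame.2 (Or.inl c))
          fun c => mem_lift_Tame.2 (Or.inl c))
    · have b := e _ (List.mem_map_of_mem hr)
      simpa only [Row.Same, Row.val, sum_lift_Tame (h1 r hr).1, sum_lift_Tame (h1 r hr).2.1]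
        using b
  · intro k j kind hK hj
    have s : ∀ l, l < k → ({l} : Finset ℕ) ⊆ range k := fun l hl =>
      singleton_subset_iff.2 (mem_range.2 hl)
    cases e : kind j with
    | P => exact ⟨[], by simp, fun _ _ _ h => h⟩
    | R c =>
      have c1 := ((hK j hj).1 c e).2
      refine congr_Tame (rows_Tame k ⟨{j}, ∅, c⟩ ⟨s j hj, empty_subset _, disjoint_empty_right _,
        by simp, fun _ => c1.ne, fun h => ?_⟩).2.2.2 fun a => by simp [Row.val, Kind.imp]
      exact notMem_empty j (h.ge (mem_range.2 hj)) |>.elim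
    | L l =>
      obtain ⟨c1, c2⟩ := (hK j hj).2 l e
      have c3 : l ≠ j := fun h => by
        rw [h, e] at c2
        cases c2
      exact congr_Tame (rows_Tame k ⟨{l}, {j}, 0⟩ ⟨s l c1, s j hj, by simpa using c3, by simp,
        fun _ => by norm_num, fun _ => by norm_num⟩).1 fun a => by simp [Row.val, Kind.imp]

theorem xEmpty : EmptyStmt := by
  classical
  intro sg t k kind Q _ hQ
  refine (Sg.of_ev (ev_zero t)).congr (Eventually.of_forall fun x n _ => ?_)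
  change (0 : ℝ) = ((filter _ _).card : ℝ)
  rw [filter_eq_empty_iff.2 fun μ _ h => (hQ _ h.1).1]
  simp

lemma add_Tame {k : ℕ} {kind : ℕ → Kind} {Q Q₁ Q₂ : Pt → Prop} (h : ∀ a, Q a ↔ Q₁ a ∨ Q₂ a)
    (hd : ∀ a, Q₁ a → Q₂ a → False) (x : ℝ) (n : ℕ) :
    SF k kind Q₁ x n + SF k kind Q₂ x n = SF k kind Q x n := by
  classical
  change ((filter _ _).card : ℝ) + ((filter _ _).card : ℝ) = ((filter _ _).card : ℝ)
  rw [← Nat.cast_add, Nat.cast_inj, ← card_union_of_disjoint]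
  · congr 1
    ext μ
    simp only [mem_union, mem_filter, h]
    tauto
  · exact disjoint_left.2 fun μ b1 b2 => hd _ (mem_filter.1 b1).2.1 (mem_filter.1 b2).2.1

lemma SF_congr_Tame {k : ℕ} {kind : ℕ → Kind} {Q Q' : Pt → Prop} {x : ℝ} {n : ℕ}
    (h : ∀ μ ∈ tup k n, (∀ j < k, (kind j).ok x μ j) → (Q (pt x μ) ↔ Q' (pt x μ))) :
    SF k kind Q x n = SF k kind Q' x n := by
  classical
  change ((filter _ _).card : ℝ) = ((filter _ _).card : ℝ)
  rw [filter_congr fun μ hμ => and_congr_left (h μ hμ)]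

theorem xSplit (h : TameStmt) : SplitStmt := by
  intro sg t l l' k kind Ω r hr h1 h2 Q hQ hΩ
  have a1 := h1 (fun a => Q a ∧ r.val a ≤ r.e) (h.1 k _ _ hQ (h.2.2.1 k r hr).1)
    fun a e => ⟨⟨(hΩ a e.1).1, e.2⟩, (hΩ a e.1).2⟩
  have a2 := h2 (fun a => Q a ∧ r.e < r.val a) (h.1 k _ _ hQ (h.2.2.1 k r hr).2.2.2)
    fun a e => ⟨⟨(hΩ a e.1).1, e.2.le⟩, (hΩ a e.1).2⟩
  refine (a1.add a2).congr (Eventually.of_forall fun x n _ => ?_)
  exact add_Tame (fun a => by have := le_or_gt (r.val a) r.e; tauto)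
    (fun a b1 b2 => b1.2.not_gt b2.2) x n

lemma all_Tame (h : TameStmt) {k : ℕ} {kind : ℕ → Kind} (hK : KV k kind) (n : ℕ) (hn : n ≤ k) :
    Tame k fun a => ∀ j < n, (kind j).imp a j := by
  induction n with
  | zero => exact congr_Tame (h.2.1 k) fun a => by simp
  | succ n ih =>
    exact congr_Tame (h.1 k _ _ (ih (by omega)) (h.2.2.2.2 k n kind hK hn))
      fun a => Nat.forall_lt_succ_right.symm

lemma ev_Tame {a : ℝ} (h : 0 < a) : ∀ᶠ x : ℝ in atTop, 2 ≤ x ∧ 2 * x ≤ x ^ (1 + a) ∧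
    x ^ (1 - a) ≤ x / 2 := by
  filter_upwards [(tendsto_rpow_atTop h).eventually_ge_atTop 2, eventually_ge_atTop 2]
    with x h1 h2
  have x0 : 0 < x := by linarith
  refine ⟨h2, ?_, ?_⟩
  · rw [Real.rpow_add x0, Real.rpow_one, mul_comm]
    exact mul_le_mul_of_nonneg_left h1 x0.le
  · rw [Real.rpow_sub x0, Real.rpow_one]
    exact div_le_div_of_nonneg_left x0.le (by norm_num) h1

lemma imp_Tame {k : ℕ} {kind : ℕ → Kind} (hK : KV k kind) {x : ℝ} (hx : 1 < x) {μ : ℕ → ℕ}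
    (h1 : ∀ j < k, 1 / 50 ≤ pt x μ j) (h2 : ∀ j < k, (kind j).ok x μ j) :
    ∀ j < k, (kind j).imp (pt x μ) j := by
  have a : ∀ j < k, 1 < μ j := fun j hj => by
    by_contra c
    have := Real.logb_nonpos hx (Nat.cast_nonneg (μ j)) (by exact_mod_cast not_lt.1 c)
    have := h1 j hj
    unfold pt at this
    linarith
  intro j hj
  have b := h2 j hj
  have p1 := Nat.minFac_prime (a j hj).ne'
  have p2 := Nat.minFac_le (zero_lt_one.trans (a j hj))
  cases e : kind j with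
  | P => trivial
  | R c =>
    rw [e] at b
    exact (Real.lt_logb_iff_rpow_lt hx (by exact_mod_cast zero_lt_one.trans (a j hj))).2
      ((b _ p1 (Nat.minFac_dvd _)).trans_le (by exact_mod_cast p2))
  | L l =>
    rw [e] at b
    exact Real.logb_le_logb_of_le hx
      (by exact_mod_cast zero_lt_one.trans (a l ((hK j hj).2 l e).1))
      (by exact_mod_cast (b _ p1 (Nat.minFac_dvd _)).trans p2)

lemma sum_Tame {k n : ℕ} {μ : ℕ → ℕ} (h : μ ∈ tup k n) (x : ℝ) :
    ∑ j ∈ range k, pt x μ j = Real.logb x n := by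
  obtain ⟨h1, h2, -⟩ := mem_tup.1 h
  rw [← h2] at h1 ⊢
  rw [Nat.cast_prod, Real.logb_prod _ _ fun j hj => Nat.cast_ne_zero.2 (prod_ne_zero_iff.1 h1 j hj)]
  rfl

theorem xMono (h : TameStmt) : MonoStmt := by
  intro sg t l l' k kind Ω Ω' hk hK hl hΩ h1 Q hQ hQΩ
  have u : un = 1 / 1000000 := rfl
  have adm : ∀ e : ℝ, e ≠ 1 → e ≠ -1 → Row.Adm k ⟨range k, ∅, e⟩ := fun e e1 e2 =>
    ⟨subset_rfl, empty_subset _, disjoint_empty_right _, ⟨0, mem_union_left _ (mem_range.2 hk)⟩, fun _ => e1,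
      fun _ => e2⟩
  have t1 : Tame k fun a => |∑ j ∈ range k, a j - 1| ≤ un :=
    congr_Tame (h.1 k _ _ (h.2.2.1 k _ (adm (1 - un) (by norm_num [u]) (by norm_num [u]))).2.2.1
      (h.2.2.1 k _ (adm (1 + un) (by norm_num [u]) (by norm_num [u]))).1) fun a => by
        simp only [Row.val, sum_empty, sub_zero, abs_le]
        constructor <;> rintro ⟨a1, a2⟩ <;> constructor <;> linarith
  have a1 := h1 (fun a => Q a ∧ (∀ j < k, (kind j).imp a j) ∧ |∑ j ∈ range k, a j - 1| ≤ un)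
    (h.1 k _ _ hQ (h.1 k _ _ (all_Tame h hK k le_rfl) t1)) fun a e =>
      ⟨hΩ a (hQΩ a e.1).1 (fun j hj => ⟨(hQΩ a e.1).2 j hj, e.2.1 j hj⟩) e.2.2, (hQΩ a e.1).2⟩
  refine (a1.congr ?_).mono hl
  filter_upwards [ev_Tame (show 0 < un by norm_num [u])] with x ⟨x2, x3, x4⟩ n hn
  have x1 : 1 < x := by linarith
  have n0 : (0 : ℝ) < n := by linarith [hn.1]
  refine SF_congr_Tame fun μ hμ ok => ⟨fun e => e.1, fun e =>
    ⟨e, imp_Tame hK x1 (hQΩ _ e).2 ok, ?_⟩⟩
  have b1 := (Real.logb_le_iff_le_rpow x1 n0).2 (hn.2.trans x3)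
  have b2 := (Real.le_logb_iff_rpow_le x1 n0).2 (x4.trans hn.1.le)
  rw [sum_Tame hμ, abs_le]
  constructor <;> linarith

theorem xRoot (h : TameStmt) : RootStmt := by
  classical
  intro t l h1
  have t1 : Tame 1 fun a => 1 / 50 ≤ a 0 :=
    congr_Tame (h.2.2.1 1 ⟨{0}, ∅, 1 / 50⟩ ⟨by simp, empty_subset _, disjoint_empty_right _,
      by simp, fun _ => by norm_num, fun _ => by norm_num⟩).2.2.1 fun a => by simp [Row.val]
  have a1 := h1 _ t1 fun a e => ⟨trivial, fun j hj => by rwa [Nat.lt_one_iff.1 hj]⟩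
  refine Low.congr a1 ?_
  filter_upwards [ev_Tame (show (0 : ℝ) < 1 / 5 by norm_num), eventually_gt_atTop 2]
    with x ⟨x2, x3, x4⟩ x5 n hn
  have x1 : 1 < x := by linarith
  have x0 : 0 < x := by linarith
  have n1 : 1 < n := by exact_mod_cast (show (1 : ℝ) < n by linarith [hn.1])
  have b : ∀ e : ℝ, e ≤ 1 - 1 / 5 → x ^ e < n := fun e he =>
    ((Real.rpow_le_rpow_of_exponent_le x1.le he).trans x4).trans_lt hn.1
  change ((filter _ _).card : ℝ) = _
  by_cases hp : n.Prime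
  · rw [bf_of_mem ((mem_fr x1).2 ⟨hp.ne_zero, (hn.2.trans x3).trans
      (Real.rpow_le_rpow_of_exponent_le x1.le (by norm_num)),
      (rough_prime hp).2 (b _ (by norm_num))⟩), Nat.cast_eq_one, card_eq_one]
    refine ⟨fun j => if j = 0 then n else 1, eq_singleton_iff_unique_mem.2 ⟨?_, fun μ hμ => ?_⟩⟩
    · refine mem_filter.2 ⟨mem_tup.2 ⟨hp.ne_zero, by simp, fun j hj => if_neg (by omega)⟩, ?_,
        fun j hj => ?_⟩
      · exact (Real.le_logb_iff_rpow_le x1 (by simpa using hp.pos)).2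
          (by simpa using (b (1 / 50) (by norm_num)).le)
      · rw [Nat.lt_one_iff.1 hj]
        exact hp
    · obtain ⟨-, c1, c2⟩ := mem_tup.1 (mem_filter.1 hμ).1
      funext j
      split_ifs with e
      · simpa [e] using c1
      · exact c2 j (by omega)
  · rw [bf_of_not fun e => hp (prime_of_rough x0.le n1 ((mem_fr x1).1 e).2.2 (by
      rw [← Real.rpow_add x0]
      exact (hn.2.trans x3).trans_eq (by norm_num))), Nat.cast_eq_zero, card_eq_zero]
    refine filter_eq_empty_iff.2 fun μ hμ e => hp ?_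
    have c1 : μ 0 = n := by simpa using (mem_tup.1 hμ).2.1
    exact c1 ▸ e.2 0 zero_lt_one

end Pool.Agent.MP_c853c5_nt.X
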