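import Pool.Agent.MP_c853c5_nt.X.Tup
import Pool.Agent.MP_c853c5_nt.X.Bad
import Pool.Agent.MP_c853c5_nt.X.Row
import Pool.Agent.MP_c853c5_nt.X.Tame
import Pool.Agent.MP_c853c5_nt.X.Open
import Pool.Agent.MP_c853c5_nt.X.Drop
import Pool.Agent.MP_c853c5_nt.X.CutC
import Pool.Agent.MP_c853c5_nt.X.LeafS2

/-!
The rules of the calculus, without hypotheses.
-/

set_option autoImplicit false

namespace Pool.Agent.MP_c853c5_nt.X

theorem cut2_all : CutStmt2 := xCut2 xPF xCnt xBad (xRow xBad)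

theorem rules_all : Rules :=
  ⟨xMono xTame, xEmpty, xSplit xTame, xDown xTame, xUp xTame, xDrop xPF, xLeaf2 cut2_all.cut,
    xLeafS cut2_all.cut, xRoot xTame⟩

theorem leafS2_rule : LeafS2Stmt := xLeafS2 cut2_all

end Pool.Agent.MP_c853c5_nt.X
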