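import Pool.Agent.MP_c853c5_nt.X.MzD
import Pool.Agent.MP_c853c5_nt.X.Gz

/-!
The two forms of the second order mass bound agree.
-/

set_option autoImplicit false

namespace Pool.Agent.MP_c853c5_nt.X

lemma ndZ_eq (S : NS) (W C : ℕ) (l1 l2 : List ℕ) (n : ℕ) :
    ndZ S.par S.lo S.hi W C l1 l2 n = nodeP S W C l1 l2 n := by
  simp only [ndZ, nodeP, force_eq, nd0, nd1, nd2, nd3, eZ_eq]

theorem MNZ_eq : MNZ = MN2 := by
  funext d S
  simp only [MNZ, MN2, M2Z, M2, m2W, force_eq, accB_Z, ndZ_eq, mkZ_eq]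
  rfl

theorem mnz_ok : MNok MNZ := MNZ_eq ▸ mn2_ok

end Pool.Agent.MP_c853c5_nt.X
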