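import Pool.Agent.MP_c853c5_nt.X.Defs

/-!
The bounds do not depend on the order of the blocks.
-/

set_option autoImplicit false

open Finset

namespace Pool.Agent.MP_c853c5_nt.X

/-- the kind `κ'` in the new order is the kind `κ` in the old order -/
def Kind.Rel (σ : ℕ → ℕ) (κ' κ : Kind) : Prop :=
  (κ' = .P ∧ κ = .P) ∨ (∃ c, κ' = .R c ∧ κ = .R c) ∨ ∃ l, κ' = .L l ∧ κ = .L (σ l)

variable {k : ℕ} {σ : Equiv.Perm ℕ}

lemma perm_lt (h : ∀ j, k ≤ j → σ j = j) {j : ℕ} : σ j < k ↔ j < k := by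
  constructor <;> intro g <;> by_contra g'
  · exact g' (h j (not_lt.1 g') ▸ g)
  · exact g' ((σ.injective (h _ (not_lt.1 g'))).symm ▸ g)

lemma perm_symm (h : ∀ j, k ≤ j → σ j = j) : ∀ j, k ≤ j → σ.symm j = j := fun j hj =>
  σ.symm_apply_eq.2 (h j hj).symm

lemma perm_range (h : ∀ j, k ≤ j → σ j = j) : (range k).map σ.toEmbedding = range k := by
  ext j
  rw [mem_map_equiv, mem_range, mem_range, perm_lt (perm_symm h)]

lemma Tame.perm (h : ∀ j, k ≤ j → σ j = j) {Q : Pt → Prop} (hQ : Tame k Q) :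
    Tame k fun a => Q (a ∘ σ) := by
  obtain ⟨R, h1, h2⟩ := hQ
  have e := perm_range h
  refine ⟨R.map fun r => ⟨r.A.map σ.toEmbedding, r.B.map σ.toEmbedding, r.e⟩, fun r hr => ?_,
    fun a a' ha => h2 _ _ fun r hr => ?_⟩
  · obtain ⟨q, hq, rfl⟩ := List.mem_map.1 hr
    obtain ⟨g1, g2, g3, g4, g5, g6⟩ := h1 q hq
    refine ⟨e ▸ map_subset_map.2 g1, e ▸ map_subset_map.2 g2, (disjoint_map _).2 g3, ?_,
      fun g => g5 (map_injective _ (g.trans e.symm)), fun g => g6 (map_injective _ (g.trans e.symm))⟩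
    obtain ⟨j, hj⟩ := g4
    exact ⟨σ j, by simpa using hj⟩
  · simpa [Row.Same, Row.val] using ha _ (List.mem_map_of_mem hr)

lemma tup_perm (h : ∀ j, k ≤ j → σ j = j) {n : ℕ} {μ : ℕ → ℕ} (hμ : μ ∈ tup k n) :
    μ ∘ σ ∈ tup k n := by
  rw [mem_tup] at hμ ⊢
  refine ⟨hμ.1, ?_, fun j hj => ?_⟩
  · rw [← hμ.2.1]
    conv_rhs => rw [← perm_range h, prod_map]
    rfl
  · rw [Function.comp_apply, h j hj, hμ.2.2 j hj]

lemma Kind.Rel.ok {κ' κ : Kind} (h : κ'.Rel σ κ) (x : ℝ) (μ : ℕ → ℕ) (j : ℕ) :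
    κ'.ok x (μ ∘ σ) j ↔ κ.ok x μ (σ j) := by
  rcases h with ⟨rfl, rfl⟩ | ⟨c, rfl, rfl⟩ | ⟨l, rfl, rfl⟩ <;> rfl

lemma SF_perm (h : ∀ j, k ≤ j → σ j = j) {kind kind' : ℕ → Kind}
    (hk : ∀ j < k, (kind' j).Rel σ (kind (σ j))) (Q : Pt → Prop) :
    SF k kind' (fun a => Q (a ∘ σ.symm)) = SF k kind Q := by
  classical
  funext x
  ext n
  refine congrArg Nat.cast (card_nbij' (· ∘ σ) (· ∘ σ.symm) (fun μ hμ => ?_) (fun μ hμ => ?_)
    (fun μ _ => ?_) fun μ _ => ?_).symm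
  · rw [mem_coe, mem_filter] at hμ ⊢
    refine ⟨tup_perm h hμ.1, ?_, fun j hj => ((hk j hj).ok x μ j).2 (hμ.2.2 _ ((perm_lt h).2 hj))⟩
    convert hμ.2.1 using 1
    funext j
    simp [pt]
  · rw [mem_coe, mem_filter] at hμ ⊢
    refine ⟨tup_perm (perm_symm h) hμ.1, hμ.2.1, fun j hj => ?_⟩
    have g := (perm_lt (perm_symm h)).2 hj
    have := ((hk _ g).ok x (μ ∘ σ.symm) _).1 (by
      convert hμ.2.2 _ g using 1
      funext i
      simp)
    rwa [Equiv.apply_symm_apply] at this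
  · funext j
    simp
  · funext j
    simp

/-- the new block `j` is the old block `σ j` -/
theorem H.perm {sg : Bool} {t l : ℝ} (h : ∀ j, k ≤ j → σ j = j) {kind kind' : ℕ → Kind}
    (hk : ∀ j < k, (kind' j).Rel σ (kind (σ j))) {Ω : Pt → Prop} (hH : H sg t k kind' Ω l) :
    H sg t k kind (fun a => Ω (a ∘ σ)) l := fun Q hQ hΩ => by
  rw [← SF_perm h hk]
  refine hH _ (hQ.perm (perm_symm h)) fun a ha => ⟨?_, fun j hj => ?_⟩
  · convert (hΩ _ ha).1 using 1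
    funext j
    simp
  · simpa using (hΩ _ ha).2 _ ((perm_lt h).2 hj)

lemma KV.perm (h : ∀ j, k ≤ j → σ j = j) {kind kind' : ℕ → Kind}
    (hk : ∀ j < k, (kind' j).Rel σ (kind (σ j))) (hv : KV k kind) : KV k kind' := fun j hj => by
  obtain ⟨v1, v2⟩ := hv _ ((perm_lt h).2 hj)
  rcases hk j hj with ⟨e, _⟩ | ⟨c, e, e'⟩ | ⟨l, e, e'⟩ <;> rw [e]
  · simp
  · simpa using v1 c e'
  · obtain ⟨g1, g2⟩ := v2 _ e'
    have g3 := (perm_lt h).1 g1
    rcases hk l g3 with ⟨f, _⟩ | ⟨c, _, f⟩ | ⟨m, _, f⟩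
    · simpa using ⟨g3, f⟩
    · exact absurd (g2.symm.trans f) (by simp)
    · exact absurd (g2.symm.trans f) (by simp)

/-- a map of `range k` onto itself is a permutation -/
lemma perm_of (f : ℕ → ℕ) (h1 : ∀ j < k, f j < k) (h2 : ∀ i < k, ∃ j < k, f j = i) :
    ∃ σ : Equiv.Perm ℕ, (∀ j, k ≤ j → σ j = j) ∧ ∀ j < k, σ j = f j := by
  have s : Function.Surjective fun j : Fin k => (⟨f j, h1 j j.2⟩ : Fin k) := fun i => by
    obtain ⟨j, hj, e⟩ := h2 i i.2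
    exact ⟨⟨j, hj⟩, Fin.ext e⟩
  have i := Finite.injective_iff_surjective.2 s
  refine ⟨Equiv.ofBijective (fun j => if j < k then f j else j) ⟨fun p q e => ?_, fun p => ?_⟩,
    fun j hj => if_neg hj.not_gt, fun j hj => if_pos hj⟩
  · by_cases hp : p < k <;> by_cases hq : q < k <;> simp only [hp, hq, if_true, if_false] at e
    · exact congrArg Fin.val (@i ⟨p, hp⟩ ⟨q, hq⟩ (Fin.ext e))
    · exact absurd (e ▸ h1 p hp) hq
    · exact absurd (e ▸ h1 q hq) hp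
    · exact e
  · by_cases hp : p < k
    · obtain ⟨j, hj, e⟩ := h2 p hp
      exact ⟨j, (if_pos hj).trans e⟩
    · exact ⟨p, if_neg hp⟩

end Pool.Agent.MP_c853c5_nt.X
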