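import Pool.Agent.MP_c853c5_nt.X.RefPD
import Pool.Agent.MP_c853c5_nt.X.SndA
import Pool.Agent.MP_c853c5_nt.X.Perm

/-!
Soundness of references through a permutation of the blocks.
-/

set_option autoImplicit false

open Finset

namespace Pool.Agent.MP_c853c5_nt.X

open Pool.Agent.MP_c853c5_nt.S Pool.Agent.MP_c853c5_nt.REG

variable {S : NS} {A : ℕ → Finset ℕ} {a : Pt} {G : ℕ} {σ : Equiv.Perm ℕ}

/-- flat coordinates -/
def flat (k : ℕ) : ℕ → Finset ℕ := fun j => if j = 0 then range k else {j}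

lemma trP_cons (e : ℕ) (l : List ℕ) : trP S G (e :: l) =
    cnd (Nat.beq (nd e) 0) (e :: trP S G l)
      (app (sclL (e >>> 4) (pl S.par S.k (one (d4 G (nd e))))) (trP S G l)) := rfl

lemma trN_cons (e : ℕ) (l : List ℕ) : trN S G (e :: l) =
    cnd (Nat.beq (nd e) 0) (trN S G l)
      (app (sclL (e >>> 4) (nl S.par S.k (one (d4 G (nd e))))) (trN S G l)) := rfl

lemma tr_lt (h : 1 ≤ S.k) (l : List ℕ) :
    (∀ e ∈ trP S G l, nd e < S.k) ∧ ∀ e ∈ trN S G l, nd e < S.k := by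
  induction l with
  | nil => exact ⟨fun _ g => (List.not_mem_nil g).elim, fun _ g => (List.not_mem_nil g).elim⟩
  | cons e l ih =>
    rw [trP_cons, trN_cons, app_eq, app_eq, cnd_eq, cnd_eq]
    split_ifs with c
    · exact ⟨List.forall_mem_cons.2 ⟨(Nat.eq_of_beq_eq_true c).trans_lt h, ih.1⟩, ih.2⟩
    · exact ⟨fun f g => (List.mem_append.1 g).elim
          ((sclL_ok _ (fun _ => 0) _).2 (pl_nd _ _ _) f) (ih.1 f),
        fun f g => (List.mem_append.1 g).elim
          ((sclL_ok _ (fun _ => 0) _).2 (nl_nd _ _ _) f) (ih.2 f)⟩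

lemma trR_in (h : 1 ≤ S.k) (q : Rw) : (trR S G q).In S.k := by
  simp only [trR, Rw.In, app_eq, List.mem_append]
  exact ⟨fun e g => g.elim ((tr_lt h _).1 e) ((tr_lt h _).2 e),
    fun e g => g.elim ((tr_lt h _).1 e) ((tr_lt h _).2 e)⟩

lemma tr_sum (hI : Inv S A) (h1 : ∀ j, S.k ≤ j → σ j = j) (h2 : ∀ j < S.k, σ j = d4 G j)
    {l : List ℕ} (hl : ∀ e ∈ l, nd e < S.k) : (l.map (W (Y (flat S.k) (a ∘ σ)))).sum =
      ((trP S G l).map (W (Y A a))).sum - ((trN S G l).map (W (Y A a))).sum := by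
  induction l with
  | nil => simp [trP, trN]
  | cons e l ih =>
    rw [List.forall_mem_cons] at hl
    rw [List.map_cons, List.sum_cons, ih hl.2, trP_cons, trN_cons, cnd_eq, cnd_eq, app_eq, app_eq]
    simp only [Nat.beq_eq]
    split_ifs with g
    · have : Y (flat S.k) (a ∘ σ) 0 = Y A a 0 := by
        rw [Y, Y, flat, if_pos rfl, hI.top]
        conv_rhs => rw [← perm_range h1, sum_map]
        rfl
      rw [List.map_cons, List.sum_cons, W, W, g, this]
      ring
    · have := hI.ms (one (d4 G (nd e))) a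
      rw [ms_one (h2 _ hl.1 ▸ (perm_lt h1).2 hl.1)] at this
      rw [W, Y, flat, if_neg g, sum_singleton, Function.comp_apply, h2 _ hl.1, this]
      simp only [List.map_append, List.sum_append, (sclL_ok _ _ (k := 0) _).1, cf, Nat.cast_succ,
        Nat.shiftRight_eq]
      ring

lemma trR_ok (hI : Inv S A) (ha : Om S A a) (h1 : ∀ j, S.k ≤ j → σ j = j)
    (h2 : ∀ j < S.k, σ j = d4 G j) {q : Rw} (hq : q.In S.k) {d : ℕ}
    (h : imp S (trR S G q) d = true) : q.ok (Y (flat S.k) (a ∘ σ)) := by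
  have := imp_ok h hI ha (trR_in hI.pos q)
  simp only [trR, Rw.ok, app_eq, List.map_append, List.sum_append] at this
  rw [Rw.ok, tr_sum hI h1 h2 hq.1, tr_sum hI h1 h2 hq.2]
  linarith

lemma impL_ok {K : ℕ → Bool} {rs : List Rw} {D : ℕ} (h : impL S G K rs D = true) :
    (∀ q ∈ rs, q.In S.k ∧ ∃ d, imp S (trR S G q) d = true) ∧ ∃ D', K D' = true := by
  induction rs generalizing D with
  | nil => exact ⟨fun _ g => (List.not_mem_nil g).elim, D, h⟩
  | cons q rs ih =>
    have h' : band (band (band (inL S.k q.l1) (inL S.k q.l2)) (imp S (trR S G q) (get D 0)))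
      (impL S G K rs (Nat.shiftRight D 24)) = true := h
    simp only [band_eq, Bool.and_eq_true, inL, allL_iff, Nat.blt_eq] at h'
    exact ⟨List.forall_mem_cons.2 ⟨⟨h'.1.1, _, h'.1.2⟩, (ih h'.2).1⟩, (ih h'.2).2⟩

lemma kdP_ok {k p q : ℕ} (h2 : ∀ j < k, σ j = d4 G j) (h : kdP k G p q = true) :
    (kindOf p).Rel σ (kindOf q) := by
  simp only [kdP, cnd_eq, bor_eq, band_eq, Bool.or_eq_true, Nat.beq_eq, Nat.blt_eq] at h
  split_ifs at h with g
  · rw [Nat.beq_eq] at h
    subst h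
    rcases g with g | g
    · exact .inl ⟨if_pos g, if_pos g⟩
    · have : kindOf q = .R ((q : ℝ) / SC) := by rw [kindOf, if_neg (by omega), if_neg (by omega)]
      exact .inr (.inl ⟨_, this, this⟩)
  · rw [Bool.and_eq_true, Nat.ble_eq, Nat.beq_eq, Nat.pred_eq_sub_one, ← h2 _ (by omega)] at h
    have : σ (p - 1) < 16 := by
      rw [h2 _ (by omega)]
      exact Nat.mod_lt _ (by norm_num)
    refine .inr (.inr ⟨p - 1, by rw [kindOf, if_neg (by omega), if_pos (by omega)], ?_⟩)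
    rw [kindOf, if_neg (by omega), if_pos (by omega), h.2]
    rfl

theorem leafP_ok {t : ℝ} {sg : Bool} {x : Rf} (hx : Val t x.sg x.S x.l) (G D : ℕ) :
    Val t sg S (leafP sg S x G D) := by
  refine Val.grd fun g hl A hI => ?_
  simp only [band_eq, Bool.and_eq_true, Nat.beq_eq, Nat.blt_eq, allN_iff, anyN_iff] at g
  obtain ⟨⟨hs, hk, hp⟩, hG, hr⟩ := g
  obtain ⟨σ, h1, h2⟩ := perm_of (d4 G) (fun j hj => (hG j hj).1.1) fun j hj => (hG j hj).1.2
  obtain ⟨hr, D', hb⟩ := impL_ok hr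
  simp only [impB, band_eq, bor_eq, Bool.and_eq_true, Bool.or_eq_true, Nat.ble_eq, allN_iff] at hb
  have e : x.sg = sg := by
    revert hs
    cases sg <;> cases x.sg <;> simp [cnd, bnot]
  have hK : ∀ j < S.k, (x.S.kind j).Rel σ (S.kind (σ j)) := fun j hj => by
    rw [h2 j hj]
    exact kdP_ok h2 (hG j hj).2
  have g0 : ∀ j, get x.S.par j = 0 := fun j => by simp [hp, get_eq]
  have sb : ∀ j < S.k, flat S.k j ⊆ range S.k ∧ j ∈ flat S.k j ∧ (j ≠ 0 → 0 ∉ flat S.k j) :=
    fun j hj => by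
      unfold flat
      split_ifs with f
      · exact ⟨Subset.rfl, mem_range.2 hj, fun f' => (f' f).elim⟩
      · exact ⟨by simpa using hj, mem_singleton_self _, fun _ => by simpa using Ne.symm f⟩
  have := hx hl (flat S.k) ⟨hk ▸ hI.pos, hk ▸ hI.kv.perm h1 hK, fun j f _ => by rw [g0]; omega,
    hk ▸ sb, hk ▸ if_pos rfl, fun b i _ => ?_, fun q hq => hk ▸ (hr q hq).1,
    hk ▸ hI.le⟩
  · rw [e, ← hk] at this
    refine fun Q hQ hΩ => this.perm h1 hK Q hQ fun a ha => ⟨⟨fun j hj => ?_, fun q hq => ?_⟩,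
      (hΩ a ha).2⟩
    · rw [← hk] at hj
      have i0 := (nd_le j).trans_lt hj
      have i1 : ∀ c, Rw.In ⟨c, [], 0, [j]⟩ S.k := fun c => ⟨by simp, by simpa using i0⟩
      have i2 : ∀ c, Rw.In ⟨0, [j], c, []⟩ S.k := fun c => ⟨by simpa using i0, by simp⟩
      have w := W_lt (hj.trans_le hI.le)
      refine ⟨(hb j hj).1.elim (fun f => ?_) fun f => ?_, ?_⟩
      · have b : ∀ i < S.k, 1 / 50 ≤ (a ∘ σ) i := fun i hi => (hΩ a ha).2 _ ((perm_lt h1).2 hi)
        refine le_trans ?_ ((b j hj).trans (single_le_sum (f := a ∘ σ) (fun i hi =>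
          le_trans (by norm_num) (b i (mem_range.1 ((sb j hj).1 hi)))) (sb j hj).2.1))
        rw [div_le_iff₀ SC_pos]
        norm_num [SC]
        exact f
      · simpa [Rw.ok, w] using trR_ok hI (hΩ a ha).1 h1 h2 (i1 _) f
      · simpa [Rw.ok, w] using trR_ok hI (hΩ a ha).1 h1 h2 (i2 _) (hb j hj).2
    · obtain ⟨f, d, f'⟩ := hr q hq
      exact trR_ok hI (hΩ a ha).1 h1 h2 f f'
  · simp only [g0, ← hk, Y]
    by_cases f : i = 0
    · subst f
      rw [flat, if_pos rfl, filter_true_of_mem fun _ _ => rfl, range_eq_Ico,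
        sum_eq_sum_Ico_succ_bot hI.pos]
      refine congrArg _ (sum_congr rfl fun j hj => ?_)
      rw [flat, if_neg (by have := (mem_Ico.1 hj).1; omega), sum_singleton]
    · rw [flat, if_neg f, filter_false_of_mem fun _ _ => Ne.symm f, sum_singleton, sum_empty,
        add_zero]

theorem refP_ok {t : ℝ} {T : BT Rf} (hT : T.All fun x => Val t x.sg x.S x.l) (sg : Bool) (S : NS)
    (s : ℕ) : Val t sg S (refP T sg S s) := by
  rw [refP, force_eq, force_eq]
  exact leafP_ok (hT.find _) _ _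

end Pool.Agent.MP_c853c5_nt.X
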