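import Pool.Agent.MP_c853c5_nt.X.UW
import Pool.Agent.MP_c853c5_nt.DT.Win

/-!
The rule for the uniform leaves with the dispersion bound.
-/

set_option autoImplicit false

open Finset

namespace Pool.Agent.MP_c853c5_nt.X

open Pool.Agent.MP_c853c5_nt.S Pool.Agent.MP_c853c5_nt.REG Pool.Agent.MP_c853c5_nt.Y
open Pool.Agent.MP_c853c5_nt.DT

variable {t : ℝ} {tn : ℕ}

theorem crs_ud {τ ν s δ : ℝ} {r : ℕ} (h : ∀ c, τ + δ ≤ c → c + τ + δ ≤ 1 → UD τ ν s δ c r)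
    (hs : 0 < s) : Crs sysD τ ν δ := fun κ N hκ hN =>
  ⟨_, etaD_pos (⌈1 / κ⌉₊ + 2 + r) hκ hs hN, ⌈1 / κ⌉₊ + 2 + r, by omega,
    fun _ _ _ _ A D c c1 c2 hA hD h0 h1 h2 h3 h4 => by
      classical
      exact crossD (univ.filter A) (univ.filter D) (h c c1 c2) hκ
        (disjoint_filter.2 fun k _ a b => hA k b a) (fun k hk => hD k (mem_filter.1 hk).2) h0 h1
        (by rwa [sum_filter]) (by rwa [sum_filter, sum_filter]) h4⟩

theorem ctD_ok (h1 : 1 / 3 ≤ t) (h2 : t < (tn : ℝ) / SC) (r z d : ℕ) (h : ctD tn r z d = true) :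
    Crs sysD ((tn : ℝ) / SC) ((z : ℝ) / SC) ((d : ℝ) / SC) := by
  rw [ctD, cnd_eq] at h
  split_ifs at h
  · exact ctW_ok _ h1 h2 h
  simp only [Bool.and_eq_true, Nat.ble_eq] at h
  obtain ⟨⟨⟨⟨⟨⟨⟨a1, a2⟩, a3⟩, a4⟩, a5⟩, a6⟩, a7⟩, a8⟩ := h
  have b1 : (400000 : ℝ) ≤ tn := by exact_mod_cast a1
  have b2 : (z : ℝ) ≤ 100000 := by exact_mod_cast a2
  have b4 : (1000003 : ℝ) ≤ 2 * tn + 3 * d := by exact_mod_cast a4
  have b5 : 2 * (r : ℝ) * z + 1 ≤ tn + d + z := by exact_mod_cast a5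
  have b6 : 4 * (r : ℝ) * z + 2 * z + 2 * d + 3 * tn + 2 ≤ 2000000 + 4 * r * d := by
    exact_mod_cast a6
  have b7 : (2502 : ℝ) ≤ d := by exact_mod_cast a7
  have b8 : (z : ℝ) + 1 ≤ r * d := by exact_mod_cast a8
  rw [SC_eq_SndL]
  exact crs_ud (s := 1 / 1000000) (r := r) (fun c c1 c2 => ⟨by linarith, by norm_num, by linarith,
    a3, c1, c2, by linarith, by linarith, by linarith, by linarith, by linarith⟩) (by norm_num)

theorem udR_ok (h1 : 1 / 3 ≤ t) (h2 : t < (tn : ℝ) / SC) (cut : CutStmt2) (hL : LeafSG sysD)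
    (hL2 : LeafS2G sysD) {cv : Cv} (hcv : CvOK t cv) : XTok t (uwR cv tn (ctD tn)) :=
  uwR_ok h1 h2 cut hL hL2 hcv (ctD_ok h1 h2)

end Pool.Agent.MP_c853c5_nt.X
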