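import Pool.Agent.MP_c853c5_nt.X.UPD
import Pool.Agent.MP_c853c5_nt.X.UD

/-!
Soundness of the rows of the uniform leaves.
-/

set_option autoImplicit false

open Finset

namespace Pool.Agent.MP_c853c5_nt.X

open Pool.Agent.MP_c853c5_nt.S Pool.Agent.MP_c853c5_nt.REG Pool.Agent.MP_c853c5_nt.Y

variable {S : NS} {A : ℕ → Finset ℕ} {t : ℝ} {tn : ℕ}

lemma mkRs_ok (hI : Inv S A) (G : ℕ) {L : List Rw} (hL : ∀ r ∈ L, r.In S.k) (P : List (ℕ × ℕ)) :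
    ∃ M : List Rw, (∀ K, mkRs S G (Nat.mul 12 (d4 G 0)) L P K = K M) ∧ (∀ r ∈ M, r.In S.k) ∧
      ∀ a, (∀ r ∈ M, r.ok (Y A a)) → (∀ r ∈ L, r.ok (Y A a)) ∧ ∀ y ∈ P, Pr S.k G y a := by
  induction P with
  | nil => exact ⟨L, fun _ => rfl, hL, fun a h => ⟨h, by simp⟩⟩
  | cons y P ih =>
    obtain ⟨M, h1, h2, h3⟩ := ih
    obtain ⟨m, l1, l2, e, i1, i2, g⟩ := cut_step (sg := true) (t := 0) hI G y
    refine ⟨⟨_, l1, y.2, l2⟩ :: M, fun K => ?_, List.forall_mem_cons.2 ⟨⟨i1, i2⟩, h2⟩, fun a h =>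
      ⟨(h3 a (List.forall_mem_cons.1 h).2).1, List.forall_mem_cons.2
        ⟨(g _ rfl).1 a (List.forall_mem_cons.1 h).1, (h3 a (List.forall_mem_cons.1 h).2).2⟩⟩⟩
    show mkRow S.par G y.1 (Nat.pred S.k) _ = _
    rw [e, force_eq, force_eq]
    exact h1 _

lemma lkR_ok (hI : Inv S A) {z q : ℕ} {L : List Rw} {K : List Rw → ℕ} (hL : ∀ r ∈ L, r.In S.k)
    (h : lkR S z q L K < INF) : ∃ M : List Rw, lkR S z q L K = K M ∧ (∀ r ∈ M, r.In S.k) ∧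
      ∀ a, (∀ r ∈ M, r.ok (Y A a)) → (∀ r ∈ L, r.ok (Y A a)) ∧
        ∀ i < S.k, get S.kd i = q → 0 < q → Lz S i z a := by
  rw [lkR, cnd_eq] at h ⊢
  split_ifs at h ⊢ with c <;> rw [Nat.ble_eq] at c
  · refine ⟨_, addRow_eq _ _ _ _ _ _ _ _, List.forall_mem_cons.2 ⟨rowOf_lt _ _ _ _ _ _, hL⟩,
      fun a ha => ⟨(List.forall_mem_cons.1 ha).2, fun i hi e h0 y hy => ?_⟩⟩
    have hv := (hI.kv i hi).2
    rw [NS.kind, kindOf, e, if_neg h0.ne', if_pos c] at hy hv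
    have := (rowOf_iff hI _ _ _ _ a).1 (List.forall_mem_cons.1 ha).1
    rw [ms_zero, Nat.pred_eq_sub_one, ms_one (hv _ rfl).1, Nat.cast_one, SC_eq_SndL] at this
    have hy' : y ≤ a (q - 1) + un := hy
    rw [un_eq_SndL] at hy'
    rw [SC_eq_SndL]
    linarith
  · obtain ⟨g, e⟩ := grd_lt h
    refine ⟨L, e, hL, fun a ha => ⟨ha, fun i _ e h0 y hy => ?_⟩⟩
    rw [NS.kind, kindOf, e, if_neg h0.ne', if_neg c] at hy
    exact le_trans hy (div_le_div_of_nonneg_right (Nat.cast_le.2 (Nat.ble_eq ▸ g)) SC_pos.le)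

theorem uwP_ok {Z : Sys} (h1 : 1 / 3 ≤ t) (h2 : t < (tn : ℝ) / SC) (cut : CutStmt2)
    (hL : LeafSG (sysW.or2 Z)) (hL2 : LeafS2G (sysW.or2 Z))
    {ct : ℕ → ℕ → ℕ → Bool} (hct : ∀ r z d, ct r z d = true →
      Crs (sysW.or2 Z) ((tn : ℝ) / SC) ((z : ℝ) / SC) ((d : ℝ) / SC)) :
    Prok t (uwP tn ct) := fun sg S A s K hI hl => by
  simp only [uwP, force_eq] at hl ⊢
  generalize Nat.mod s 16 = i at *
  generalize Nat.mod (Nat.shiftRight s 4) 16 = j at *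
  generalize Nat.mod (Nat.shiftRight s 10) 16 = r at *
  generalize Nat.mod (Nat.shiftRight s 14) 1048576 = z at *
  generalize cnd (Nat.beq r 0) (Nat.add _ _) _ = d at *
  generalize Nat.shiftRight s (cnd _ _ _) = u at *
  generalize Nat.mod u _ = G at *
  obtain ⟨g, e⟩ := grd_lt hl
  rw [e] at hl ⊢
  rw [band_eq, Bool.and_eq_true] at g
  have g1 := g.1
  simp only [uwG, band_eq, Bool.and_eq_true, Nat.ble_eq, Nat.blt_eq] at g1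
  obtain ⟨⟨⟨hij, hj⟩, hi0, hj0⟩, -⟩ := g1
  obtain ⟨L, e1, i1, a1⟩ := lkR_ok hI (by simp) hl
  rw [e1] at hl ⊢
  obtain ⟨M, e2, i2, a2⟩ := lkR_ok hI i1 hl
  obtain ⟨N, e3, i3, a3⟩ := mkRs_ok hI G i2
    (cnd (Nat.beq i j) (uw1 tn d (bit s 8) (bit s 9)) (uw2 tn d))
  rw [e2, e3]
  refine ⟨N, _, rfl, i3, (uw_node (f := bit s 8) (g := bit s 9) h1 h2 cut hL hL2 hI g.1
    (hct _ _ _ g.2)).anti fun a ha => ?_⟩
  obtain ⟨b1, b2⟩ := a3 a ha.2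
  obtain ⟨b3, b4⟩ := a2 a b1
  refine ⟨⟨(a1 a b3).2 _ (hij.trans_lt hj) rfl hi0, ?_⟩, b2⟩
  rw [cnd_eq] at b4
  split_ifs at b4 with c
  · exact (a1 a b3).2 _ hj (Nat.beq_eq ▸ c).symm hi0
  · exact b4 _ hj rfl hj0

theorem udP_ok (h1 : 1 / 3 ≤ t) (h2 : t < (tn : ℝ) / SC) (cut : CutStmt2) (hL : LeafSG DT.sysD)
    (hL2 : LeafS2G DT.sysD) : Prok t (uwP tn (ctD tn)) :=
  uwP_ok h1 h2 cut hL hL2 (ctD_ok h1 h2)

end Pool.Agent.MP_c853c5_nt.X
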