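import Pool.Agent.MP_c853c5_nt.X.UED
import Pool.Agent.MP_c853c5_nt.X.UP
import Pool.Agent.MP_c853c5_nt.DU.Win

/-!
The uniform leaves with the new dispersion bound.
-/

set_option autoImplicit false

namespace Pool.Agent.MP_c853c5_nt.X

open Pool.Agent.MP_c853c5_nt.S Pool.Agent.MP_c853c5_nt.REG Pool.Agent.MP_c853c5_nt.Y
open Pool.Agent.MP_c853c5_nt.DU

variable {t : ℝ} {tn : ℕ}

theorem ctQ_ok {r z d e k q : ℕ} (h : ctQ tn r z d e k q = true) :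
    Crs sysE ((tn : ℝ) / SC) ((z : ℝ) / SC) ((d : ℝ) / SC) := by
  simp only [ctQ, Bool.and_eq_true, Nat.ble_eq, Nat.beq_eq] at h
  obtain ⟨⟨⟨⟨⟨⟨⟨⟨⟨⟨⟨a1, a2⟩, a3⟩, a4⟩, a5⟩, a6⟩, a7⟩, a8⟩, a9⟩, a10⟩, a11⟩, a12⟩ := h
  have b1 : (400000 : ℝ) ≤ tn := by exact_mod_cast a1
  have b2 : (z : ℝ) ≤ 100000 := by exact_mod_cast a2
  have b4 : 2 * (r : ℝ) * z + 1 ≤ tn + d + z := by exact_mod_cast a4
  have b5 : (2502 : ℝ) ≤ d := by exact_mod_cast a5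
  have b6 : (z : ℝ) + 1 ≤ r * d := by exact_mod_cast a6
  have b7 : (e : ℝ) + 2 * tn = 1000000 := by exact_mod_cast a7
  have b8 : ((r : ℝ) + 2) * z + 1 ≤ (2 * r + 1) * e + (r + 1) * k := by exact_mod_cast a8
  have b10 : (k : ℝ) + 1 + e ≤ q * e := by exact_mod_cast a10
  have b11 : 4 * (q : ℝ) * k + 4 * z + 3 * tn + 2 ≤ 2000000 + 2 * k := by exact_mod_cast a11
  have b12 : ((q : ℝ) + r + 1) * (z + 1) ≤ q * (2 * r + 1) * e := by exact_mod_cast a12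
  rw [SC_eq_SndL]
  have e1 : 1 - 2 * ((tn : ℝ) / 1000000) = e / 1000000 := by linarith
  exact crs_ue (s := 1 / 1000000) (k := k / 1000000) (r := r) (q := q) (fun c c1 c2 =>
    ⟨by linarith, by norm_num, by linarith, a9, a3, c1, c2, by linarith, by linarith, by linarith,
      by rw [e1]; linarith, by rw [e1]; linarith, by linarith, by rw [e1]; linarith⟩) (by norm_num)

theorem ctE_ok (h1 : 1 / 3 ≤ t) (h2 : t < (tn : ℝ) / SC) (r z d : ℕ) (h : ctE tn r z d = true) :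
    Crs sysE ((tn : ℝ) / SC) ((z : ℝ) / SC) ((d : ℝ) / SC) := by
  rw [ctE, cnd_eq] at h
  split_ifs at h
  exacts [ctW_ok _ h1 h2 h, ctQ_ok h]

theorem ueP_ok (h1 : 1 / 3 ≤ t) (h2 : t < (tn : ℝ) / SC) (cut : CutStmt2) (hL : LeafSG sysE)
    (hL2 : LeafS2G sysE) : Prok t (uwP tn (ctE tn)) :=
  uwP_ok h1 h2 cut hL hL2 (ctE_ok h1 h2)

theorem ueR_ok (h1 : 1 / 3 ≤ t) (h2 : t < (tn : ℝ) / SC) (cut : CutStmt2) (hL : LeafSG sysE)
    (hL2 : LeafS2G sysE) {cv : Cv} (hcv : CvOK t cv) : XTok t (uwR cv tn (ctE tn)) :=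
  uwR_ok h1 h2 cut hL hL2 hcv (ctE_ok h1 h2)

end Pool.Agent.MP_c853c5_nt.X
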