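import Pool.Agent.MP_c853c5_nt.X.XTD
import Pool.Agent.MP_c853c5_nt.X.Carve

/-!
Soundness of the selection of the further rules.
-/

set_option autoImplicit false

namespace Pool.Agent.MP_c853c5_nt.X

open Pool.Agent.MP_c853c5_nt.S Pool.Agent.MP_c853c5_nt.REG

variable {t : ℝ}

theorem noR_ok (t : ℝ) : XTok t noR := fun _ _ _ _ _ _ _ g => absurd g (lt_irrefl _)

theorem XT_ok {f g : Rule} {sub : BT Rule} (hf : XTok t f) (hg : XTok t g)
    (hs : sub.All (XTok t)) : XTok t (XT f g sub) := fun T ih hT hH sg S s => by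
  simp only [XT, force_eq, cnd_eq]
  split_ifs
  exacts [hf T ih hT hH _ _ _, hg T ih hT hH _ _ _, hs.find _ T ih hT hH _ _ _]

theorem carveR_ok (R : Rules) {tn : ℕ} (h1 : 1 / 3 ≤ t) (h2 : t < (tn : ℝ) / SC)
    (h4 : 2 * tn ≤ SC) (hL : Leaf2) {PL : BT PP} (hx : PL.All (PP.Good tn)) :
    XTok t (carveR PL) := fun _ _ _ hH => by
  have : (2 : ℝ) * tn ≤ SC := by exact_mod_cast h4
  exact carve_ok R h1 h2 ((div_le_iff₀ SC_pos).2 (by linarith)) hL hx hH

end Pool.Agent.MP_c853c5_nt.X
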