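import Pool.Agent.MP_c853c5_nt.X.E2D
import Pool.Agent.MP_c853c5_nt.S.EAll2
import Pool.Agent.MP_c853c5_nt.X.Main
import Pool.Agent.MP_c853c5_nt.X.Glue
import Pool.Agent.MP_c853c5_nt.X.XT
import Pool.Agent.MP_c853c5_nt.X.RefP
import Pool.Agent.MP_c853c5_nt.X.FC
import Pool.Agent.MP_c853c5_nt.X.FP
import Pool.Agent.MP_c853c5_nt.X.Lane
import Pool.Agent.MP_c853c5_nt.X.Mz
import Pool.Agent.MP_c853c5_nt.X.UE
import Pool.Agent.MP_c853c5_nt.X.LS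
import Pool.Agent.MP_c853c5_nt.DT.L3G
import Pool.Agent.MP_c853c5_nt.X.Ga
import Pool.Agent.MP_c853c5_nt.X.Gy
import Pool.Agent.MP_c853c5_nt.DV.L34
import Pool.Agent.MP_c853c5_nt.DV.All

/-!
All rules of the checker without analytic hypotheses, and the conclusion.
-/

set_option autoImplicit false

namespace Pool.Agent.MP_c853c5_nt.X

open Pool.Agent.MP_c853c5_nt.S Pool.Agent.MP_c853c5_nt.REG

/-- the range of the parameters -/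
structure Hy (tn : ℕ) (t : ℝ) : Prop where
  h1 : 1 / 3 ≤ t
  h2 : t < (tn : ℝ) / SC
  h4 : 2 * tn ≤ SC

variable {tn : ℕ} {t : ℝ} {PL : BT PP} {Q : BT PQ} {PS : BT PD}

theorem pp0_ok (tn : ℕ) : pp0.All (PP.Good tn) := fun ι _ w g h _ hs _ => by
  have : IsEmpty ι := ⟨fun j => Nat.not_lt_zero _ (h j)⟩
  simp at hs

theorem pd0_ok (tn : ℕ) : pd0.All (PD.Hold tn) := fun _ _ _ _ =>
  ⟨1, one_pos, fun _ _ => ⟨1, one_pos, 0, fun _ _ _ _ _ ha => by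
    have h := (ha.2 0 one_pos).1.trans (ha.2 0 one_pos).2
    rw [div_le_div_iff_of_pos_right SC_pos] at h
    exact absurd (Nat.cast_le.1 h) (by decide)⟩⟩

theorem pp0_ok3 (tn : ℕ) : pp0.All (PP.Good3E tn) :=
  fun _ _ _ _ i h => absurd (h i) (Nat.not_lt_zero _)

theorem refR_ok (t : ℝ) : XTok t refR := fun _ _ hT _ => refP_ok hT

/-! ### tables of polytopes -/

theorem Hy.p2 (h : Hy tn t) (hx : PL.All (PP.Good tn)) : PL.All (PP.Gd t g2) :=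
  gd2_ok rules_all h.h1 h.h2 h.h4 leaf2_all hx

theorem Hy.p3 (h : Hy tn t) (hx : PL.All (PP.Good3 tn)) : PL.All (PP.Gd t g3) :=
  gd3_ok cut2_all h.h1 h.h2 h.h4 Y.l2D hx

theorem Hy.p3E (h : Hy tn t) (hx : PL.All (PP.Good3E tn)) : PL.All (PP.Gd t g3) :=
  gd3E_ok cut2_all h.h1 h.h2 h.h4 DU.l2E hx

theorem Hy.p34 (h : Hy tn t) (hx : PL.All (PP.Good34 tn)) : PL.All (PP.Gd t g3) :=
  gd34_ok cut2_all h.h1 h.h2 h.h4 DU.l2E DV.l2F hx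

theorem to34 (hx : PL.All (PP.Good3E tn)) : PL.All (PP.Good34 tn) := hx.imp fun _ => Or.inl

/-! ### providers -/

lemma fltL_ok {S : NS} {L : List Rw} (hL : ∀ r ∈ L, r.In S.k) : ∃ M : List Rw,
    (∀ K, fltL S L K = K M) ∧ (∀ r ∈ M, r ∈ L) ∧
      ∀ y, Bx S.k S.lo S.hi y → (∀ r ∈ M, r.ok y) → ∀ r ∈ L, r.ok y := by
  induction L with
  | nil => exact ⟨[], fun _ => rfl, by simp, by simp⟩
  | cons r L ih =>
    rw [List.forall_mem_cons] at hL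
    obtain ⟨M, h1, h2, h3⟩ := ih hL.2
    have e : ∀ K, fltL S (r :: L) K = cnd (Nat.ble (r.c1 + sumL S.hi r.l1) (r.c2 + sumL S.lo r.l2))
      (fltL S L K) (fltL S L fun M => K (r :: M)) := fun _ => rfl
    simp only [e, cnd_eq, h1, Nat.ble_eq]
    split_ifs with a
    · refine ⟨M, fun _ => rfl, fun q hq => List.mem_cons_of_mem _ (h2 q hq), fun y hy h =>
        List.forall_mem_cons.2 ⟨?_, h3 y hy h⟩⟩
      have a' : (r.c1 : ℝ) + sumL S.hi r.l1 ≤ r.c2 + sumL S.lo r.l2 := by exact_mod_cast a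
      have a2 := div_le_div_of_nonneg_right a' SC_pos.le
      have a3 := hy.ub hL.1.1
      have a4 := hy.lb hL.1.2
      rw [add_div, add_div] at a2
      rw [Rw.ok]
      linarith
    · exact ⟨r :: M, fun _ => rfl, List.cons_subset_cons r h2, fun y hy h =>
        List.forall_mem_cons.2 ⟨h r List.mem_cons_self,
          h3 y hy fun q hq => h q (List.mem_cons_of_mem _ hq)⟩⟩

theorem Prok.flt {p : Prov} (hp : Prok t p) : Prok t (fltP p) := fun sg S A s K hI hl => by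
  obtain ⟨L, u, e, h1, h2⟩ := hp sg S A s _ hI hl
  obtain ⟨M, g1, g2, g3⟩ := fltL_ok (S := S) h1
  exact ⟨M, u, e.trans (g1 _), fun r hr => h1 r (g2 r hr),
    h2.anti fun a ha => ⟨ha.1, g3 _ ha.1.1 ha.2⟩⟩

theorem tab_pr {gd : NS → ℕ → ℕ → Bool} (hx : PL.All (PP.Gd t gd)) : Prok t (tabP gd PL) :=
  tabP_ok fun sg S A i G hI c => (hx.find i sg S A G hI c).2

theorem Hy.uwP (h : Hy tn t) : Prok t (uwP tn (ctE tn)) :=
  ueP_ok h.h1 h.h2 cut2_all DU.lSE DU.lS2E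

theorem Hy.udP (h : Hy tn t) : Prok t (X.uwP tn (ctD tn)) :=
  udP_ok h.h1 h.h2 cut2_all Y.lSD Y.lS2D

theorem Hy.lsP (h : Hy tn t) (hx : PS.All (PD.Hold tn)) : Prok t (lsP PS) :=
  lsP0_ok h.h1 h.h2 h.h4 cut2_all leafS_all hx

theorem Hy.lsD (h : Hy tn t) (hx : PS.All (PD.HoldG DT.sysD tn)) : Prok t (X.lsP PS) :=
  lsP_ok h.h1 h.h2 h.h4 cut2_all Y.lSD hx

theorem Hy.lsE (h : Hy tn t) (hx : PS.All (PD.HoldG DU.sysE tn)) : Prok t (X.lsP PS) :=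
  lsP_ok h.h1 h.h2 h.h4 cut2_all DU.lSE hx

/-! ### items and rules -/

theorem Prok.it {p : Prov} (h : Prok t p) : Itok t (ofP p) := ofP_ok lt_ok h

theorem kill_it (t : ℝ) : Itok t killI := killI_ok lt_ok t

theorem small_it (t : ℝ) : Itok t (ofP smallP) := (smallP_ok t).it

theorem child_it (t : ℝ) : Itok t childI := childI_ok lt_ok t

theorem grid_ok {IT : BT Item} (hT : IT.All (Itok t)) : XTok t (gdR IT gdZ) :=
  gdR_ok mk_ok hT gdZ_ok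

theorem Hy.uwR (h : Hy tn t) : XTok t (uwR (cv impW) tn (ctE tn)) :=
  ueR_ok h.h1 h.h2 cut2_all DU.lSE DU.lS2E (cv2_ok t impW_im)

theorem Hy.uw1 (h : Hy tn t) : XTok t (X.uwR cv1 tn (ctE tn)) :=
  ueR_ok h.h1 h.h2 cut2_all DU.lSE DU.lS2E (cv1_ok t)

theorem Hy.udR (h : Hy tn t) : XTok t (X.uwR (cv impW) tn (ctD tn)) :=
  udR_ok h.h1 h.h2 cut2_all Y.lSD Y.lS2D (cv2_ok t impW_im)

theorem Hy.cvR (h : Hy tn t) (hx : PL.All (PP.Good tn)) : XTok t (cvR impW PL) :=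
  cvR_ok impW_im rules_all h.h1 h.h2 h.h4 leaf2_all hx

theorem Hy.l3R (h : Hy tn t) (hx : PL.All (PP.Good34 tn)) : XTok t (l3R impW PL) :=
  l34R_ok impW_im cut2_all h.h1 h.h2 h.h4 DU.l2E DV.l2F hx

/-- primes in short intervals from the claim on the root -/
theorem gap_of {E : Env} (h3 : SC < 3 * E.tn) (h4 : 2 * E.tn ≤ SC)
    (pl : E.PL.All (PP.Good E.tn)) (ps : E.PS.All (PD.Hold E.tn)) (mn : MNok E.MN)
    (xt : ∀ t, Hy E.tn t → XTok t E.XT) {l : ℕ} (hl : l < 10 ^ 9)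
    (top : ∀ t, Hyp E t → Val t true root l) (θ : ℝ) (hθ : 1 - (E.tn : ℝ) / 1000000 < θ) :
    ∃ n₀ : ℕ, ∀ n : ℕ, n₀ ≤ n → ∃ p : ℕ, p.Prime ∧ n < p ∧ (p : ℝ) < n + (n : ℝ) ^ θ := by
  have c := cert_top rules_all leafS2_rule leafS2_all h3.le h4 pl ps mn
    (fun _ _ t h1 h2 => xt t ⟨h1, h2, h4⟩) hl top
  have a3 : (SC : ℝ) < 3 * E.tn := by exact_mod_cast h3
  have a4 : (2 : ℝ) * E.tn ≤ SC := by exact_mod_cast h4
  rw [SC_eq_SndL] at c a3 a4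
  exact of_cert (by linarith) (by linarith) c θ hθ

theorem it2_ok {ct : ℕ → ℕ → ℕ → Bool} {i2 i3 : Item} (hu : Prok t (uwP tn ct)) (h2 : Itok t i2)
    (h3 : Itok t i3) (hs : Prok t (lsP PS)) : (it2 tn ct i2 i3 PS).All (Itok t) :=
  ⟨⟨⟨kill_it t, small_it t, child_it t⟩, h2, hu.it⟩, h3, hs.it⟩

theorem Prok.ia {p : Prov} (h : Prok t p) : AOK t (ofY p) := ofY_eq ▸ ofA_ok h

theorem gqY_ok {gd : NS → ℕ → ℕ → Bool} (h : Q.All (PQ.Gd t gd)) : AOK t (gqY gd Q) :=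
  gqY_eq ▸ gqI_ok h

theorem ia2_ok {ct : ℕ → ℕ → ℕ → Bool} {i2 i3 : AItem} (hu : Prok t (uwP tn ct)) (h2 : AOK t i2)
    (h3 : AOK t i3) (hs : Prok t (lsP PS)) : (ia2 tn ct i2 i3 PS).All (AOK t) :=
  ⟨⟨⟨(killP_ok t).ia, (smallP_ok t).ia, ofI_ok (child_it t)⟩, h2, hu.flt.ia⟩, h3, hs.flt.ia,
    ofI_ok (kill_it t)⟩

/-- the rule `9` -/
theorem Hy.ga (h : Hy tn t) {i2 i3 : AItem} (h2 : AOK t i2) (h3 : AOK t i3)
    (ps : PS.All (PD.Hold tn)) : XTok t (gaY (ia2 tn (ctE tn) i2 i3 PS)) :=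
  gaY_eq ▸ gaR_ok (ia2_ok h.uwP h2 h3 (h.lsP ps))

theorem sb2_ok {ct : ℕ → ℕ → ℕ → Bool} {Q3 : BT PQ} {gd ga : Rule}
    (hu : XTok t (uwR (cv impW) tn ct)) (h3 : XTok t (l3R impW PL)) (q2 : Q.All (PQ.Gd t g2))
    (q3 : Q3.All (PQ.Gd t g3)) (hd : XTok t gd) (ha : XTok t ga) :
    (sb2 tn ct PL Q Q3 gd ga).All (XTok t) :=
  ⟨⟨⟨noR_ok t, hu⟩, ⟨⟨noR_ok t, h3⟩, fcR_ok q3⟩, fcR_ok q2, empR_ok t, nmR_ok t⟩, hd, ha⟩

/-- the conclusion for the standard tables; `U2`, `U3` are the sources of the packed tables -/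
theorem gap3 {P3 U2 U3 : BT PP} {Q3 : BT PQ} {i2 i3 : Item} {ga : Rule} (h3 : SC < 3 * tn)
    (h4 : 2 * tn ≤ SC) (pl : PL.All (PP.Good tn)) (p3 : P3.All (PP.Good34 tn))
    (u2 : U2.All (PP.Good tn)) (u3 : U3.All (PP.Good34 tn)) (b2 : btQ Q U2 = true)
    (b3 : btQ Q3 U3 = true) (ps : PS.All (PD.Hold tn))
    (hi : ∀ t, Hy tn t → Q.All (PQ.Gd t g2) → Q3.All (PQ.Gd t g3) →
      Itok t i2 ∧ Itok t i3 ∧ XTok t ga)
    {l : ℕ} (hl : l < 10 ^ 9)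
    (top : ∀ t, Hyp (env3 tn (ctE tn) PL P3 Q Q3 PS i2 i3 ga) t → Val t true root l) (θ : ℝ)
    (hθ : 1 - (tn : ℝ) / 1000000 < θ) :
    ∃ n₀ : ℕ, ∀ n : ℕ, n₀ ≤ n → ∃ p : ℕ, p.Prime ∧ n < p ∧ (p : ℝ) < n + (n : ℝ) ^ θ :=
  gap_of (E := env3 tn (ctE tn) PL P3 Q Q3 PS i2 i3 ga) h3 h4 pl ps mnz_ok (fun t h =>
    have q2 := btQ_ok b2 (h.p2 u2)
    have q3 := btQ_ok b3 (h.p34 u3)
    XT_ok (carveR_ok rules_all h.h1 h.h2 h.h4 leaf2_all pl) (refR_ok t)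
      (sb2_ok h.uwR (h.l3R p3) q2 q3
        (grid_ok (it2_ok h.uwP (hi t h q2 q3).1 (hi t h q2 q3).2.1 (h.lsP ps)))
        (hi t h q2 q3).2.2))
    hl top θ hθ

end Pool.Agent.MP_c853c5_nt.X
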