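import Pool.Agent.MP_c853c5_nt.X.GdP

/-!
Fast rules with packed vectors (definitions only).
-/

set_option autoImplicit false

namespace Pool.Agent.MP_c853c5_nt.X

/-- the lowest `n` bits -/
def low (s n : ℕ) : ℕ := Nat.mod s (one n)

/-- fields of `44` bits -/
def f44 (v j : ℕ) : ℕ := Nat.mod (Nat.shiftRight v (Nat.mul 44 j)) 17592186044416

/-! ### combinations of rows -/

/-- the coefficients of a list in fields, their sum in the field `16` -/
noncomputable def pkV (l : List ℕ) : ℕ :=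
  List.rec (motive := fun _ => ℕ) 0
    (fun e _ ih => Nat.add (Nat.mul (cf e)
      (Nat.add (one (Nat.mul 44 (nd e))) (Nat.shiftLeft 1 704))) ih) l

/-- the rows in the mask `X`, with the multipliers `d`, change sides -/
noncomputable def cmb (rs : List Rw) : ℕ → ℕ → ℕ → ℕ → ℕ → ℕ → (ℕ → ℕ → ℕ → ℕ → ℕ) → ℕ :=
  List.rec (motive := fun _ => ℕ → ℕ → ℕ → ℕ → ℕ → ℕ → (ℕ → ℕ → ℕ → ℕ → ℕ) → ℕ)
    (fun _ _ c1 p c2 n K => K c1 p c2 n)
    (fun r _ ih X d c1 p c2 n K =>
      cnd (Nat.beq X 0) (K c1 p c2 n)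
        (force (Nat.shiftRight X 1) fun X' =>
          cnd (Nat.beq (Nat.mod X 2) 0) (ih X' d c1 p c2 n K)
            (force (Nat.succ (Nat.mod d 65536)) fun m => force (Nat.shiftRight d 16) fun d' =>
              force (Nat.add c1 (Nat.mul m r.c2)) fun c1' =>
              force (Nat.add p (Nat.mul m (pkV r.l2))) fun p' =>
              force (Nat.add c2 (Nat.mul m r.c1)) fun c2' =>
              force (Nat.add n (Nat.mul m (pkV r.l1))) fun n' => ih X' d' c1' p' c2' n' K))) rs

/-- positive part in the high half, negative part in the low half -/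
noncomputable def boxT (lo hi p n k : ℕ) : ℕ :=
  Nat.rec (motive := fun _ => ℕ) 0
    (fun j ih => force (f44 p j) fun a => force (f44 n j) fun b =>
      cnd (Nat.blt b a) (Nat.add (Nat.shiftLeft (Nat.mul (Nat.sub a b) (get hi j)) 80) ih)
        (Nat.add (Nat.mul (Nat.sub b a) (get lo j)) ih)) k

/-- a multiple of `r` follows from a combination of the rows: the value is `0` -/
noncomputable def impP (k lo hi : ℕ) (rs : List Rw) (r : Rw) (d : ℕ) : ℕ :=
  force (Nat.succ (Nat.mod d 65536)) fun m =>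
  force (Nat.mul m r.c1) fun c1 => force (Nat.mul m (pkV r.l1)) fun p =>
  force (Nat.mul m r.c2) fun c2 => force (Nat.mul m (pkV r.l2)) fun n =>
  force (Nat.mod (Nat.shiftRight d 16) 16777216) fun X => force (Nat.shiftRight d 40) fun d' =>
  cmb rs X d' c1 p c2 n fun c1 p c2 n => force (boxT lo hi p n k) fun T =>
    grd (band (Nat.blt (Nat.shiftRight (Nat.add p n) 704) 17592186044416)
      (Nat.ble (Nat.add c1 (Nat.shiftRight T 80))
        (Nat.add c2 (Nat.mod T 1208925819614629174706176)))) 0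

noncomputable def empR : Rule := fun _ _ _ S s => impP S.k S.lo S.hi S.rs ⟨1, [], 0, []⟩ s

/-! ### propagation of chosen rows -/

noncomputable def nmk (rs : List Rw) : ℕ → ℕ → ℕ → (ℕ → ℕ → List Rw → ℕ → ℕ) → ℕ :=
  List.rec (motive := fun _ => ℕ → ℕ → ℕ → (ℕ → ℕ → List Rw → ℕ → ℕ) → ℕ)
    (fun lo hi s K => K lo hi [] s)
    (fun r _ ih lo hi s K => force (Nat.mod s 4) fun q => force (Nat.shiftRight s 2) fun s' =>
      cnd (Nat.beq q 0) (ih lo hi s' fun lo2 hi2 rs2 => K lo2 hi2 (r :: rs2))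
        (cnd (Nat.beq q 2) (ih lo hi s' K)
          (force (Nat.add r.c1 (sumL lo r.l1)) fun a =>
           force (Nat.add r.c2 (sumL hi r.l2)) fun b =>
           cnd (Nat.blt b a) 0
            (force (Nat.sub b a) fun σ =>
             force (tHi σ lo r.l1 hi) fun hi' =>
             force (tLo σ hi r.l2 lo) fun lo' =>
             cnd (Nat.beq q 1) (ih lo' hi' s' fun lo2 hi2 rs2 => K lo2 hi2 (r :: rs2))
               (ih lo' hi' s' K))))) rs

noncomputable def nmR : Rule := fun _ ih sg S s =>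
  nmk S.rs S.lo S.hi s fun lo hi rs s' => ih sg ⟨S.k, S.par, S.kd, lo, hi, rs⟩ s'

/-! ### polytopes in columns -/

/-- `k` groups, `n` rows of `w` bits: `40` bits for the right side, `12` bits for each weight -/
structure PQ where
  k : ℕ
  n : ℕ
  w : ℕ
  R : ℕ

def rowQ (w R r : ℕ) : ℕ × ℕ :=
  (Nat.shiftRight R (Nat.add (Nat.mul w r) 40),
    Nat.mod (Nat.shiftRight R (Nat.mul w r)) 1099511627776)

/-- the rows from `r` on -/
noncomputable def eqP (q : PQ) (P : List (ℕ × ℕ)) : ℕ → Bool :=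
  List.rec (motive := fun _ => ℕ → Bool) (fun r => Nat.ble r q.n)
    (fun y _ ih r => band (band (Nat.beq y.1 (low (rowQ q.w q.R r).1 (Nat.mul 12 q.k)))
      (Nat.beq y.2 (rowQ q.w q.R r).2)) (ih (Nat.succ r))) P

noncomputable def PQ.ok (q : PQ) (x : PP) : Bool :=
  band (band (Nat.beq q.k x.k) (Nat.ble 44 q.w)) (eqP q x.P 0)

noncomputable def btQ (T : BT PQ) : BT PP → Bool :=
  BT.rec (motive := fun _ => BT PP → Bool)
    (fun q U => BT.rec (motive := fun _ => Bool) (fun x => q.ok x) (fun _ _ _ _ _ => false) U)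
    (fun _ _ _ il ir U => BT.rec (motive := fun _ => Bool) (fun _ => false)
      (fun _ l r _ _ => band (il l) (ir r)) U) T

def ones (w n : ℕ) : ℕ := Nat.div (Nat.pred (one (Nat.mul w n))) (Nat.pred (one w))

def col (R N g : ℕ) : ℕ := Nat.land (Nat.shiftRight R (Nat.add (Nat.mul 12 g) 40)) N

def st2 (M' Z lo hi X D : ℕ) : ℕ :=
  Nat.sub (Nat.add Z (Nat.mul (Nat.sub (Nat.add D M') X) lo)) (Nat.mul D hi)

def st1 (M M' Z lo hi X : ℕ) : ℕ :=
  st2 M' Z lo hi X (Nat.land X (Nat.mul (Nat.land (Nat.shiftRight X 12) M) 4095))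

/-- the slack of all rows on the enlarged box -/
noncomputable def fqZ (R M M' N par lo hi G Z n : ℕ) : ℕ :=
  Nat.rec (motive := fun _ => ℕ) Z
    (fun j ih => st1 M M' ih (Nat.sub (get lo (Nat.succ j)) 16) (Nat.add (get hi (Nat.succ j)) 16)
      (Nat.sub (Nat.add (col R N (d4 G (Nat.succ j))) M')
        (col R N (d4 G (get par (Nat.succ j)))))) n

/-- the rows that hold on the box -/
noncomputable def fqB (R M : ℕ) (S : NS) (G : ℕ) : ℕ :=
  force (Nat.mul M 4096) fun M' => force (Nat.mul M 4095) fun N =>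
    Nat.land (Nat.shiftRight (fqZ R M M' N S.par S.lo S.hi G
      (Nat.sub (Nat.add (Nat.land R (Nat.mul M 1099511627775)) (Nat.mul M 8796093022208))
        (Nat.mul (col R N (d4 G 0)) 1000000)) (Nat.pred S.k)) 43) M

/-- `16` bits for the polytope, `4 k` bits for the groups -/
noncomputable def hdQ (gd : NS → ℕ → ℕ → Bool) (T : BT PQ) (S : NS) (s : ℕ)
    (K : ℕ → ℕ → ℕ → ℕ → ℕ → ℕ → ℕ → ℕ) : ℕ :=
  force (Nat.mod s 65536) fun i => force (low (Nat.shiftRight s 16) (Nat.mul 4 S.k)) fun G =>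
  PQ.rec (motive := fun _ => ℕ) (fun k n w R => grd (gd S G k)
    (force (ones w n) fun M => force (fqB R M S G) fun B =>
      force (Nat.shiftRight s (Nat.add 16 (Nat.mul 4 S.k))) fun v =>
        K w R M G (Nat.mul 12 (d4 G 0)) B v)) (T.find i)

/-- the row `r` in node coordinates -/
noncomputable def ndQ (w R par G g0 k r : ℕ) (K : ℕ → List ℕ → ℕ → List ℕ → ℕ) : ℕ :=
  force (rowQ w R r).1 fun y => force (rowQ w R r).2 fun e =>
  mkRow par G y (Nat.pred k) fun m l1 l2 =>
  force (Nat.add (Nat.mul (dg y g0) 1000000) (Nat.mul 16 m)) fun c => K c l1 e l2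

/-- the other rows follow from the stored rows, or the state is cut along them -/
noncomputable def fcv (ih : NS → ℕ → ℕ) (w R M k par kd lo hi G g0 c : ℕ) :
    ℕ → List Rw → ℕ → ℕ :=
  Nat.rec (motive := fun _ => ℕ → List Rw → ℕ → ℕ) (fun B _ _ => grd (Nat.beq B M) 0)
    (fun _ nx B rs s0 =>
      force (Nat.mod s0 64) fun r => force (Nat.mod (Nat.shiftRight s0 6) 4) fun q =>
      force (Nat.shiftRight s0 8) fun s => force (Nat.lor B (one (Nat.mul w r))) fun B' =>
      ndQ w R par G g0 k r fun c l1 e l2 =>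
      cnd (Nat.beq q 0)
        (force (Nat.mod s 256) fun n => force (Nat.shiftRight s 8) fun u =>
          force (low u n) fun d => grd (Nat.beq (impP k lo hi rs ⟨c, l1, e, l2⟩ d) 0)
            (force (Nat.shiftRight u n) (nx B' rs)))
        (two s
          (fun v => force (Nat.succ c) fun c' => ih ⟨k, par, kd, lo, hi, ⟨e, l2, c', l1⟩ :: rs⟩ v)
          fun v => cnd (Nat.beq q 1) (nx B' (⟨c, l1, e, l2⟩ :: rs) v) (nx B' rs v))) c

/-- after the head: `4` bits for the number of items, then the items -/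
noncomputable def fcR (gd : NS → ℕ → ℕ → Bool) (T : BT PQ) : Rule := fun _ ih sg S s =>
  hdQ gd T S s fun w R M G g0 B v => force (Nat.mod v 16) fun c =>
    fcv (ih sg) w R M S.k S.par S.kd S.lo S.hi G g0 c B S.rs (Nat.shiftRight v 4)

/-- the rows in the mask `X` are passed on -/
noncomputable def pqL (R k par G g0 : ℕ) (K : List Rw → ℕ) (c : ℕ) : ℕ → List Rw → ℕ :=
  Nat.rec (motive := fun _ => ℕ → List Rw → ℕ) (fun _ _ => INF)
    (fun _ nx X L => cnd (Nat.beq X 0) (K L)
      (force (Nat.land X (Nat.pred X)) fun X' => force (Nat.div R (Nat.sub X X')) fun R' =>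
        ndQ 0 R' par G g0 k 0 fun c l1 e l2 => nx X' (⟨c, l1, e, l2⟩ :: L))) c

/-- same code and same rows as `tabP` -/
noncomputable def pqP (gd : NS → ℕ → ℕ → Bool) (T : BT PQ) : Prov := fun S s K =>
  hdQ gd T S s fun _ R M G g0 B v => force (Nat.xor M B) fun X =>
    pqL R S.k S.par G g0 (fun L => K L v) 64 X []

end Pool.Agent.MP_c853c5_nt.X
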