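import Pool.Agent.MP_c853c5_nt.X.GmD

/-!
The mass of the cells of a mask, with arguments in place of `force` (definitions only).
-/

set_option autoImplicit false

namespace Pool.Agent.MP_c853c5_nt.X

def loZ (lo T : ℕ) : ℕ :=
  Nat.add 19999 (Nat.sub (Nat.sub lo (Nat.shiftRight T 32)) 20000)

def wZ (lo hi T : ℕ) : ℕ :=
  Nat.add (loZ lo T) (Nat.shiftLeft (Nat.sub hi (Nat.mod T 4294967296)) 32)

noncomputable def mkZ (lo hi V n : ℕ) : ℕ :=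
  Nat.rec (motive := fun _ => ℕ) 0 (fun i ih =>
    Nat.add (Nat.shiftLeft (wZ (get lo i) (get hi i) (fT V i)) (Nat.mul 64 i)) ih) n

noncomputable def lgZ (k : ℕ) : ℕ → ℕ → ℕ :=
  Nat.rec (motive := fun _ => ℕ → ℕ → ℕ) lg0
    (fun _ ih l u => cnd (Nat.ble (Nat.mul 10 u) (Nat.mul 11 l)) (lg0 l u)
      (Nat.add 95310200 (ih (Nat.mul 11 l) (Nat.mul 10 u)))) k

noncomputable def gUZ (M a : ℕ) : ℕ :=
  cnd (Nat.ble (Nat.mul 709 (Nat.sub M a)) (Nat.mul 1250 a))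
    (Nat.add 1000000000 (lgZ 8 a (Nat.sub M a)))
    (cdR (Nat.mul 709000000000 M) (Nat.mul 1250 a))

noncomputable def rg2 (m U z y i l a c : ℕ) : ℕ :=
  cnd (Nat.ble (Nat.mul (Nat.mul a m) (Nat.add z y)) (Nat.mul (Nat.mul c z) (Nat.add m U)))
    (Nat.add (Nat.mul 32 a) i) (Nat.add (Nat.mul 32 c) l)

noncomputable def rg1 (m U z y i l g b : ℕ) : ℕ :=
  rg2 m U z y i l (cdR g m) (Nat.add b (Nat.sub (cdR g U) b))

noncomputable def rgZ (m U z y i l : ℕ) : ℕ :=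
  cnd (Nat.ble U z) 0 (rg1 m U z y i l
    (Nat.mul (cnd (Nat.ble U (Nat.mul 2 z)) 1000000000 (gUZ U z)) 1000000)
    (cdR (Nat.mul 1000000000000000 (Nat.sub m (Nat.sub m y))) (Nat.mul m z)))

noncomputable def bl2 (m U i l z u : ℕ) : ℕ := rgZ m U z (Nat.add z (Nat.sub u z)) i l

noncomputable def bl1 (W i m U q : ℕ) : ℕ :=
  cnd (Nat.ble U m) 0
    (cnd (Nat.beq q 0) (Nat.add (Nat.mul 32 (cdR 1000000000000000 m)) i)
      (cnd (Nat.ble q 16)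
        (bl2 m U i (Nat.sub q 1) (Nat.mod (fT W (Nat.sub q 1)) 4294967296)
          (Nat.shiftRight (fT W (Nat.sub q 1)) 32))
        (rgZ m U q q i 16)))

noncomputable def blZ (kd W i : ℕ) : ℕ :=
  bl1 W i (Nat.mod (fT W i) 4294967296) (Nat.shiftRight (fT W i) 32) (get kd i)

noncomputable def acP (kd W n : ℕ) : ℕ :=
  Nat.rec (motive := fun _ => ℕ) 1 (fun i ih => Nat.mul ih (Nat.shiftRight (blZ kd W i) 5)) n

noncomputable def acC (kd W n : ℕ) : ℕ :=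
  Nat.rec (motive := fun _ => ℕ) 0
    (fun i ih => Nat.add ih (one (Nat.mul 8 (Nat.mod (blZ kd W i) 32)))) n

def eV (p q a : ℕ) : ℕ :=
  cdR (Nat.mul 1000000000 a) (Nat.add a (Nat.mul p (Nat.add p (Nat.mul 2 q))))

def eW (p q : ℕ) : ℕ := eV p q (Nat.mul 2 (Nat.mul q q))

noncomputable def eY (n m u w : ℕ) : ℕ :=
  cnd (Nat.ble 20000 (Nat.mul m (Nat.sub n (Nat.sub n 1))))
    (eW (Nat.mul 2 (Nat.mul n w)) (Nat.add m u)) 1000000000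

noncomputable def eZ (W C t w : ℕ) : ℕ :=
  eY (Nat.mod (Nat.shiftRight C (Nat.mul 8 t)) 256) (Nat.mod (fT W t) 4294967296)
    (Nat.shiftRight (fT W t) 32) w

noncomputable def wO (F b : ℕ) : ℕ := rmp b F 1 0 2 fun _ O _ => O
noncomputable def wX (F b : ℕ) : ℕ := rmp b F 1 0 2 fun _ _ X => X
def wN (Z F' : ℕ) : ℕ := Nat.div Z (Nat.sub (one F') 1)
def wM (Z F F' : ℕ) : ℕ := Nat.sub (Nat.shiftLeft (wN Z F') F) (wN Z F')

noncomputable def ctZ (Z b p q F F' V : ℕ) : ℕ :=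
  Nat.land (Nat.shiftRight (Nat.mul V (Nat.sub
    (Nat.add (Nat.mul (Nat.add p (Nat.mul q (Nat.sub (one (Nat.succ b)) 1))) (wO F b))
      (Nat.mul p (wX F b))) (Nat.mul q (wX F b)))) (Nat.sub F' F)) (wM Z F F')

noncomputable def gS3 (ih : ℕ → ℕ → ℕ → ℕ → ℕ → ℕ) (Z j F V P b p q m : ℕ) : ℕ :=
  grd (Nat.beq (Nat.shiftRight m F) 0)
    (force (Nat.shiftLeft F b) fun F' => ih j F' (ctZ Z b p q F F' V) m P)

noncomputable def gS2 (ih : ℕ → ℕ → ℕ → ℕ → ℕ → ℕ) (Z j F V m P b p q : ℕ) : ℕ :=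
  cnd (Nat.beq b 0) (ih j F V m (Nat.mul P (Nat.add p q)))
    (gS3 ih Z j F V P b p q (Nat.mul m (Nat.shiftLeft (Nat.add p q) (Nat.mul 2 b))))

noncomputable def gS1 (ih : ℕ → ℕ → ℕ → ℕ → ℕ → ℕ) (Z j F V m P b d w e1 e2 : ℕ) : ℕ :=
  gS2 ih Z j F V m P b (Nat.succ (Nat.shiftRight e2 13))
    (Nat.succ (Nat.shiftRight (Nat.add e1 (cdR (Nat.mul (Nat.sub e1 e2) (Nat.sub d w)) w)) 13))

noncomputable def gS0 (ih : ℕ → ℕ → ℕ → ℕ → ℕ → ℕ) (W C Z j F V m P b d t w : ℕ) : ℕ :=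
  gS1 ih Z (Nat.succ j) F V m P b d w (eZ W C j w) (eZ W C t w)

noncomputable def gLZ (bs h wd par lo hi W C Z e n : ℕ) : ℕ → ℕ → ℕ → ℕ → ℕ → ℕ :=
  Nat.rec (motive := fun _ => ℕ → ℕ → ℕ → ℕ → ℕ → ℕ) (fun _ _ V _ P => cdR (Nat.mul P V) e)
    (fun _ ih j F V m P => force (b3 bs j) fun b =>
      gS0 ih W C Z j F V m (Nat.mul P (Nat.shiftLeft (get h j) (Nat.sub 13 b))) b (get wd j)
        (get par j) (Nat.sub (get hi j) (get lo j))) n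

def gZ (B : ℕ) : ℕ := Nat.sub (one (Nat.shiftLeft 32 B)) 1

noncomputable def gdW (g : Gr) (S : NS) (m n W : ℕ) : ℕ :=
  force g.B fun B => gLZ g.bs g.h g.wd S.par S.lo S.hi W (acC S.kd W S.k) (gZ B)
    (Nat.pow 2000000000000000000000000 n) n 1 32 (Nat.land (Nat.shiftRight m 31) g.O) 1
    (acP S.kd W S.k)

/-- the same value as `gdM` -/
noncomputable def gdZ (g : Gr) (S : NS) (m _d : ℕ) : ℕ :=
  gdW g S m (Nat.sub S.k 1) (mkZ S.lo S.hi (chV S (Nat.sub S.k 1)) S.k)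

end Pool.Agent.MP_c853c5_nt.X
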