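import Pool.Agent.MP_c853c5_nt.X.GaD
import Pool.Agent.MP_c853c5_nt.X.GzD

/-!
The rule with fractional lanes, with arguments in place of `force` (definitions only).
-/

set_option autoImplicit false

namespace Pool.Agent.MP_c853c5_nt.X

/-- nodes with their data -/
inductive NL : Type
  | nil : NL
  | cons (a b h u l U : ℕ) (r : NL) : NL

def yP (ih : KN) (sx W e2 p q : ℕ) (F : ℕ → ℕ → ℕ) (U x : ℕ) : ℕ :=
  ih (Nat.add sx x) (Nat.add x (Nat.sub W x)) (Nat.add e2 (Nat.mul x x)) p q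
    fun μ V => Nat.add (F μ V) (Nat.mul (Nat.succ (Nat.shiftRight (Nat.mul x μ) 20)) U)

def yM (ih : KN) (sx W e2 p q : ℕ) (F : ℕ → ℕ → ℕ) (U x : ℕ) : ℕ :=
  ih (Nat.add sx x) (Nat.add x (Nat.sub W x)) (Nat.add e2 (Nat.mul x x)) p q
    fun μ V => Nat.sub (F μ V) (Nat.mul (Nat.shiftRight (Nat.mul x μ) 20) U)

noncomputable def gyN (P Q md e : ℕ) (K : KN) (R : NL) : KN :=
  NL.rec (motive := fun _ => KN) K
    (fun a b h u l U _ ih sx W e2 p q F => Nat.rec (motive := fun _ => ℕ)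
      (Nat.rec (motive := fun _ => ℕ) (ih sx W e2 p q F)
        (fun d _ => yM ih sx W e2 (Nat.add p (Nat.mul (Nat.succ d) e))
          (Nat.add q (Nat.mul (Nat.succ d) l)) F U (Nat.mul (Nat.succ d) h))
        (Nat.sub (Nat.mod (Nat.shiftRight Q b) md) (Nat.mod (Nat.shiftRight P a) md)))
      (fun d _ => yP ih sx W e2 (Nat.add p (Nat.mul (Nat.succ d) u)) q F U (Nat.mul (Nat.succ d) h))
      (Nat.sub (Nat.mod (Nat.shiftRight P a) md) (Nat.mod (Nat.shiftRight Q b) md))) R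

def cdz (σ c : ℕ) : ℕ := Nat.div (Nat.add σ (Nat.pred c)) c

def yE3 (T O N : ℕ) (K F : ℕ → ℕ → ℕ) (sx s0 μ ρ a b : ℕ) : ℕ :=
  K (ga2 T O ρ (Nat.shiftRight (Nat.mul μ s0) 20)
      (F μ (Nat.mul (Nat.sub (Nat.add 2147483648 a) b) O)))
    (Nat.add (Nat.mul (Nat.succ ρ) (Nat.add (Nat.add a b)
      (Nat.mul N (Nat.add (Nat.shiftRight (Nat.mul μ sx) 19) 32))))
      (Nat.shiftLeft (Nat.sub 1 s0) 31))

def yE2 (T O Z N : ℕ) (K F : ℕ → ℕ → ℕ) (sx W p q s0 t μ : ℕ) : ℕ :=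
  yE3 T O N K F sx s0 μ
    (cdz (Nat.sub (Nat.mul 2 Z) (Nat.mul μ (Nat.add sx W))) (Nat.mul μ (Nat.add W t)))
    (Nat.succ (Nat.shiftRight (Nat.mul (Nat.sub p q) μ) 20))
    (Nat.shiftRight (Nat.mul (Nat.sub q p) μ) 20)

def yE1 (T O Z N : ℕ) (K F : ℕ → ℕ → ℕ) (sx W e2 p q s0 t : ℕ) : ℕ :=
  yE2 T O Z N K F sx W p q s0 t (Nat.succ (mn0 (Nat.div (Nat.mul (Nat.mul 2 e2) Z)
    (Nat.mul (Nat.mul 27 s0) (Nat.mul t t))) (Nat.div Z sx)))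

def yE0 (T O Z N : ℕ) (K F : ℕ → ℕ → ℕ) (sx W e2 p q s0 : ℕ) : ℕ :=
  yE1 T O Z N K F sx W e2 p q s0 (Nat.sub sx (Nat.mul 2 s0))

def gyE (T O Z N : ℕ) (K : ℕ → ℕ → ℕ) : KN := fun sx W e2 p q F =>
  yE0 T O Z N K F sx W e2 p q (Nat.div (Nat.sub (Nat.mul 7 sx) (Nat.mul 6 W)) 20)

noncomputable def toNL (e : ℕ) (R : List Nr) : NL :=
  List.rec (motive := fun _ => NL) NL.nil
    (fun r _ ih => NL.cons r.a r.b r.h (Nat.add r.up e) r.lo r.U ih) R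

noncomputable def yL (T O Z N : ℕ) (R : NL) (ih : (ℕ → ℕ → ℕ) → ℕ) (K : ℕ → ℕ → ℕ)
    (c1 c2 P Q : ℕ) : ℕ :=
  gyN P Q 17592186044416 0 (gyE T O Z N fun v b => ih fun u c => K (Nat.add v u)
    (Nat.add (Nat.add b c) (Nat.shiftRight (Nat.add P Q) 717))) R 0 0 0 (Nat.succ c1) c2
    fun _ V => V

noncomputable def gyL (T O Z N : ℕ) (R : NL) (L : List Rw) : (ℕ → ℕ → ℕ) → ℕ :=
  List.rec (motive := fun _ => (ℕ → ℕ → ℕ) → ℕ) (fun K => K 0 0)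
    (fun r _ ih K => yL T O Z N R ih K r.c1 r.c2 (pkV r.l1) (pkV r.l2)) L

noncomputable def ofY (p : Prov) : AItem := fun x _ S s K =>
  p S s fun L u => gyL x.g.T x.g.O x.Z x.N (toNL 0 x.R) L fun v b =>
    grd (Nat.blt b 2147483648) (K v u)

noncomputable def yR (r : Nr) (ih : NL) (a b : ℕ) : NL :=
  Bool.rec (motive := fun _ => NL) (NL.cons a b r.h (Nat.add r.up 16) r.lo r.U ih) ih (Nat.beq a b)

noncomputable def gyR (par G : ℕ) (R : List Nr) : NL :=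
  List.rec (motive := fun _ => NL) NL.nil
    (fun r _ ih => yR r ih (Nat.mul 12 (d4 G (Nat.div r.a 44)))
      (Nat.mul 12 (d4 G (get par (Nat.div r.a 44))))) R

noncomputable def yQ1 (T O Z N g0 : ℕ) (L : NL) (nx : ℕ → ℕ → ℕ → ℕ → ℕ) (D B u d y e : ℕ) : ℕ :=
  gyN y y 4096 16 (gyE T O Z N fun v c => nx D B (Nat.add v u) (Nat.add c d)) L 0 0 0
    (Nat.succ (Nat.mul (dg y g0) 1000000)) e fun _ V => V

noncomputable def yQ0 (T O Z N R g0 : ℕ) (L : NL) (nx : ℕ → ℕ → ℕ → ℕ → ℕ) (D B u d s : ℕ) : ℕ :=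
  yQ1 T O Z N g0 L nx (Nat.land D (Nat.pred D)) (Nat.lor B (one s)) u d
    (Nat.shiftRight R (Nat.add s 40)) (Nat.mod (Nat.shiftRight R s) 1099511627776)

noncomputable def gyQ (T O Z N w R g0 : ℕ) (L : NL) (K : ℕ → ℕ → ℕ → ℕ) (c : ℕ) :
    ℕ → ℕ → ℕ → ℕ → ℕ :=
  Nat.rec (motive := fun _ => ℕ → ℕ → ℕ → ℕ → ℕ) (fun _ _ _ _ => INF)
    (fun _ nx D B u d => Bool.rec (motive := fun _ => ℕ)
      (yQ0 T O Z N R g0 L nx D B u d (Nat.mul w (lowB D))) (K B u d) (Nat.beq D 0)) c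

noncomputable def yB (R M : ℕ) (S : NS) (G M' N : ℕ) : ℕ :=
  Nat.land (Nat.shiftRight (fqZ R M M' N S.par S.lo S.hi G
    (Nat.sub (Nat.add (Nat.land R (Nat.mul M 1099511627775)) (Nat.mul M 8796093022208))
      (Nat.mul (col R N (d4 G 0)) 1000000)) (Nat.pred S.k)) 43) M

noncomputable def yH2 (x : Ga) (S : NS) (K : ℕ → ℕ → ℕ) (G v w R M B : ℕ) : ℕ :=
  gyQ x.g.T x.g.O x.Z x.N w R (Nat.mul 12 (d4 G 0)) (gyR S.par G x.R.tail)
    (fun B' u d => grd (band (Nat.beq B' M) (Nat.blt d 2147483648)) (K u v))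
    64 (Nat.mod (Nat.xor M B) (Nat.sub (one w) 2)) B 0 0

noncomputable def yH1 (x : Ga) (S : NS) (K : ℕ → ℕ → ℕ) (G v w R M : ℕ) : ℕ :=
  yH2 x S K G v w R M (yB R M S G (Nat.mul M 4096) (Nat.mul M 4095))

noncomputable def yH0 (gd : NS → ℕ → ℕ → Bool) (q : PQ) (x : Ga) (S : NS) (K : ℕ → ℕ → ℕ)
    (G v : ℕ) : ℕ :=
  PQ.rec (motive := fun _ => ℕ) (fun k n w R => grd (gd S G k) (yH1 x S K G v w R (ones w n))) q

noncomputable def gqY (gd : NS → ℕ → ℕ → Bool) (T : BT PQ) : AItem := fun x _ S s K =>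
  yH0 gd (T.find (Nat.mod s 65536)) x S K (low (Nat.shiftRight s 16) (Nat.mul 4 S.k))
    (Nat.shiftRight s (Nat.add 16 (Nat.mul 4 S.k)))

noncomputable def gyLoop (IT : BT AItem) (x : Ga) (ih : Rec) (S : NS) (fin : ℕ → ℕ) (n : ℕ) :
    ℕ → ℕ → ℕ :=
  Nat.rec (motive := fun _ => ℕ → ℕ → ℕ) (fun c _ => fin c)
    (fun _ nx c s => IT.find (Nat.mod s 16) x ih S (Nat.shiftRight s 4)
      fun a u => nx (mnL x.g.T c a) u) n

abbrev KU := ℕ → ℕ → List Nr → ℕ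

def yU3 (ih : ℕ → ℕ → ℕ → ℕ → KU → ℕ) (K : KU) (j o Z N b a h l U m d : ℕ) : ℕ :=
  ih (Nat.succ j) o (Nat.add Z (cdR (Nat.mul Z d) (Nat.add (Nat.shiftLeft m (Nat.succ b)) d)))
    (Nat.add N (one b)) fun Z2 N2 R => K Z2 N2 (⟨a, a, h, Nat.add l h, l, U⟩ :: R)

def yU2 (ih : ℕ → ℕ → ℕ → ℕ → KU → ℕ) (K : KU) (j o Z N b h l U p q : ℕ) : ℕ :=
  yU3 ih K j o Z N b (Nat.mul 44 j) h l U (mn0 p q) (Nat.add (Nat.sub p q) (Nat.sub q p))

def yU1 (ih : ℕ → ℕ → ℕ → ℕ → KU → ℕ) (K : KU) (j o Z N b h l U d w e1 e2 : ℕ) : ℕ :=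
  yU2 ih K j o Z N b h l U (Nat.succ (Nat.shiftRight e2 13))
    (Nat.succ (Nat.shiftRight (Nat.add e1 (cdR (Nat.mul (Nat.sub e1 e2) (Nat.sub d w)) w)) 13))

noncomputable def yU0 (ih : ℕ → ℕ → ℕ → ℕ → KU → ℕ) (K : KU) (W C j o Z N b h l U d t w : ℕ) : ℕ :=
  yU1 ih K j o Z N b h l U d w (eZ W C j w) (eZ W C t w)

noncomputable def gyU (bs h wd par lo hi W C B n : ℕ) : ℕ → ℕ → ℕ → ℕ → KU → ℕ :=
  Nat.rec (motive := fun _ => ℕ → ℕ → ℕ → ℕ → KU → ℕ) (fun _ _ Z N K => K Z N [])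
    (fun _ ih j o Z N K => force (b3 bs j) fun b => force (Nat.add o b) fun o' =>
      yU0 ih K W C j o' Z N b (get h j) (get lo j) (gU B o b) (get wd j) (get par j)
        (Nat.sub (get hi j) (get lo j))) n

noncomputable def gyF (g : Gr) (S : NS) (W C B n p t m c : ℕ) : ℕ :=
  gLZ g.bs g.h g.wd S.par S.lo S.hi W C (gZ B)
    (Nat.mul (Nat.pow 2000000000000000000000000 n) m) n 1 32
    (Nat.land (Nat.shiftRight (Nat.add c (Nat.mul (Nat.pred (one t)) g.O)) t)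
      (Nat.mul 131071 g.O)) m p

noncomputable def yA2 (IT : BT AItem) (ih : Rec) (S : NS) (r v : ℕ) (g : Gr) (W C t : ℕ) : ℕ :=
  force g.B fun B => gyU g.bs g.h g.wd S.par S.lo S.hi W C B r 1 0 68719476736 1 fun Z N R =>
    gyLoop IT ⟨g, Z, N, ⟨0, 0, 0, get S.hi 0, get S.lo 0, 0⟩ :: R⟩ ih S
      (gyF g S W C B r (acP S.kd W S.k) t (Nat.shiftRight 65536 t)) (Nat.mod v 64)
      (Nat.shiftRight g.T 15) (Nat.shiftRight v 10)

noncomputable def yA1 (IT : BT AItem) (ih : Rec) (S : NS) (r v W : ℕ) (g : Gr) : ℕ :=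
  yA2 IT ih S r v g W (acC S.kd W S.k) (Nat.mod (Nat.shiftRight v 6) 16)

noncomputable def yA0 (IT : BT AItem) (ih : Rec) (S : NS) (s r w : ℕ) : ℕ :=
  mkGr S (Nat.shiftLeft (Nat.mod s (one w)) 3)
    (yA1 IT ih S r (Nat.shiftRight s w) (mkZ S.lo S.hi (chV S r) S.k))

/-- the same value as `gaR` -/
noncomputable def gaY (IT : BT AItem) : Rule := fun _ ih sg S s =>
  grd sg (yA0 IT ih S s (Nat.pred S.k) (Nat.mul 3 (Nat.pred S.k)))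

end Pool.Agent.MP_c853c5_nt.X
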