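import Pool.Agent.MP_c853c5_nt.X.UPD

/-!
The rows of a claim on small primes for a grid of cells (definitions only).
-/

set_option autoImplicit false

namespace Pool.Agent.MP_c853c5_nt.X

/-- the sum over the mask `X` lies between `l` and `h` -/
noncomputable def grpR (S : NS) (X l h : ℕ) (L : List Rw) (K : List Rw → ℕ) : ℕ :=
  force (cnd (Nat.beq X 0) 0 16) fun m =>
  addRow S.par S.k X 0 m (cnd (Nat.ble 1000000 h) 16000000 h) L fun M =>
    cnd (Nat.beq l 0) (K M) (addRow S.par S.k 0 X (Nat.add l m) 0 M K)

/-- code: `16` bits for the claim, `4` bits for the sieved block, `k` bits for the first group -/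
noncomputable def lsP (PS : BT PD) : Prov := fun S s K =>
  force (Nat.mod s 65536) fun n => force (Nat.mod (Nat.shiftRight s 16) 16) fun i =>
  force (Nat.mod (Nat.shiftRight s 20) (one S.k)) fun X =>
  force (Nat.shiftRight s (Nat.add 20 S.k)) fun v =>
  force (Nat.xor (Nat.pred (one S.k)) (Nat.lor X (one i))) fun X' =>
  force (get S.kd i) fun q => force (PS.find n).lo fun lo => force (PS.find n).hi fun hi =>
  grd (band (band (Nat.blt i S.k) (band (Nat.blt 0 q) (bnot (bit X i))))
      (band (Nat.beq (PS.find n).m 2) (bor (bnot (PS.find n).p) (hasP S))))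
    (lkR S (PS.find n).z q [] fun L => grpR S X (get lo 0) (get hi 0) L fun M =>
      grpR S X' (get lo 1) (get hi 1) M fun N => K N v)

end Pool.Agent.MP_c853c5_nt.X
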