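import Pool.Agent.MP_c853c5_nt.X.GzD

/-!
The second order mass bound, with arguments in place of `force` (definitions only).
-/

set_option autoImplicit false

namespace Pool.Agent.MP_c853c5_nt.X

abbrev KZ := List ℕ → ℕ → ℕ → ℕ → ℕ → ℕ → ℕ

noncomputable def nd3 (ih : KZ) (D : List ℕ) (d F e a b lo hi w e1 e2 u v : ℕ) : ℕ :=
  force (Nat.mul (Nat.add u v) w) fun z => force (Nat.succ d) fun d' =>
    ih (z :: D) d' (Nat.mul F (Nat.mul 2 (Nat.add e2 (Nat.sub e1 e2))))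
      (Nat.mul (Nat.mul e 2000000000000000000000000) (Nat.mul (Nat.add u v) d'))
      (Nat.add a (Nat.mul v hi)) (Nat.add b (Nat.mul u lo))

noncomputable def nd2 (ih : KZ) (D : List ℕ) (d F e a b lo hi w e1 e2 x y : ℕ) : ℕ :=
  cnd (Nat.beq x y)
    (ih D d (Nat.mul F (Nat.mul w (Nat.add e2 e1))) (Nat.mul e 2000000000000000000000000) a b)
    (nd3 ih D d F e a b lo hi w e1 e2 (Nat.sub x y) (Nat.sub y x))

noncomputable def nd1 (ih : KZ) (W C : ℕ) (l1 l2 D : List ℕ) (d F e a b j t lo hi w : ℕ) : ℕ :=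
  nd2 ih D d F e a b lo hi w (eZ W C j w) (eZ W C t w) (cntL j l1) (cntL j l2)

noncomputable def nd0 (D : List ℕ) (d F e a b lo hi x y : ℕ) : ℕ :=
  force (Nat.sub (Nat.add a (Nat.mul (Nat.sub y x) hi)) (Nat.add b (Nat.mul (Nat.sub x y) lo)))
    fun s => cdR (Nat.mul F (difN d D s)) e

noncomputable def ndZ (par lo hi W C : ℕ) (l1 l2 : List ℕ) (n : ℕ) : KZ :=
  Nat.rec (motive := fun _ => KZ)
    (fun D d F e a b => nd0 D d F e a b (get lo 0) (get hi 0) (cntL 0 l1) (cntL 0 l2))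
    (fun i ih D d F e a b => nd1 ih W C l1 l2 D d F e a b (Nat.succ i) (get par (Nat.succ i))
      (get lo (Nat.succ i)) (get hi (Nat.succ i))
      (Nat.sub (get hi (Nat.succ i)) (get lo (Nat.succ i)))) n

noncomputable def m2W (q : Rw) (S : NS) (n W : ℕ) : ℕ :=
  forceL q.l1 fun l1 => forceL q.l2 fun l2 =>
    ndZ S.par S.lo S.hi W (acC S.kd W S.k) l1 l2 n [] 0 (acP S.kd W S.k) 1 q.c2 q.c1

noncomputable def M2Z (q : Rw) (S : NS) : ℕ :=
  grd (Nat.ble S.k 16) (m2W q S (Nat.sub S.k 1) (mkZ S.lo S.hi (chV S (Nat.sub S.k 1)) S.k))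

/-- the same value as `MN2` -/
noncomputable def MNZ (d : ℕ) (S : NS) : ℕ :=
  cnd (Nat.beq d 0) (MN 0 S) (M2Z (selR S.rs (Nat.pred d)) S)

end Pool.Agent.MP_c853c5_nt.X
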