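import Pool.Agent.MP_c853c5_nt.X.Chk

/-!
References through a permutation of the blocks (definitions only).
-/

set_option autoImplicit false

namespace Pool.Agent.MP_c853c5_nt.X

/-- flat coordinates: the node `0` is the total, the node `e ≠ 0` is the block `d4 G e` of `S` -/
noncomputable def trP (S : NS) (G : ℕ) (l : List ℕ) : List ℕ :=
  List.rec (motive := fun _ => List ℕ) []
    (fun e _ ih => cnd (Nat.beq (nd e) 0) (e :: ih)
      (app (sclL (Nat.shiftRight e 4) (pl S.par S.k (one (d4 G (nd e))))) ih)) l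

noncomputable def trN (S : NS) (G : ℕ) (l : List ℕ) : List ℕ :=
  List.rec (motive := fun _ => List ℕ) []
    (fun e _ ih => cnd (Nat.beq (nd e) 0) ih
      (app (sclL (Nat.shiftRight e 4) (nl S.par S.k (one (d4 G (nd e))))) ih)) l

/-- a flat row in the node coordinates of `S` -/
noncomputable def trR (S : NS) (G : ℕ) (q : Rw) : Rw :=
  ⟨q.c1, app (trP S G q.l1) (trN S G q.l2), q.c2, app (trP S G q.l2) (trN S G q.l1)⟩

noncomputable def inL (k : ℕ) (l : List ℕ) : Bool := allL (fun e => Nat.blt (nd e) k) l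

/-- the rows follow from `S`, one field of `D` for each; then `K` on the remaining fields -/
noncomputable def impL (S : NS) (G : ℕ) (K : ℕ → Bool) (rs : List Rw) : ℕ → Bool :=
  List.rec (motive := fun _ => ℕ → Bool) K
    (fun q _ ih D => band (band (band (inL S.k q.l1) (inL S.k q.l2)) (imp S (trR S G q) (get D 0)))
      (ih (Nat.shiftRight D 24))) rs

/-- the box follows from `S`: fields `2 j` (lower bound) and `2 j + 1` (upper bound) -/
noncomputable def impB (S : NS) (G lo hi D : ℕ) : Bool :=
  allN (fun j => band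
    (bor (Nat.ble (get lo j) 20000) (imp S (trR S G ⟨get lo j, [], 0, [j]⟩) (get D (Nat.mul 2 j))))
    (imp S (trR S G ⟨0, [j], get hi j, []⟩) (get D (Nat.succ (Nat.mul 2 j))))) S.k

/-- the code `p` of a kind in the new order agrees with the code `q` -/
noncomputable def kdP (k G p q : ℕ) : Bool :=
  cnd (bor (Nat.beq p 0) (Nat.blt 16 p)) (Nat.beq q p)
    (band (Nat.ble p k) (Nat.beq q (Nat.succ (d4 G (Nat.pred p)))))

/-- the block `j` of the flat claim `x` is the block `d4 G j` of `S` -/
noncomputable def leafP (sg : Bool) (S : NS) (x : Rf) (G D : ℕ) : ℕ :=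
  grd (band (band (cnd sg x.sg (bnot x.sg)) (band (Nat.beq S.k x.S.k) (Nat.beq x.S.par 0)))
    (band (allN (fun j => band (band (Nat.blt (d4 G j) S.k) (anyN (fun i => Nat.beq (d4 G i) j) S.k))
        (kdP S.k G (get x.S.kd j) (get S.kd (d4 G j)))) S.k)
      (impL S G (impB S G x.S.lo x.S.hi) x.S.rs D))) x.l

/-- the code after the tag: claim (`20` bits), permutation (`4 k` bits), fields of `24` bits -/
noncomputable def refP (T : BT Rf) (sg : Bool) (S : NS) (s : ℕ) : ℕ :=
  force (Nat.mod (Nat.shiftRight s 20) (one (Nat.mul 4 S.k))) fun G =>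
  force (Nat.shiftRight s (Nat.add 20 (Nat.mul 4 S.k))) fun D =>
    leafP sg S (T.find (Nat.mod s 1048576)) G D

end Pool.Agent.MP_c853c5_nt.X
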