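import Pool.Agent.MP_c853c5_nt.X.UWD

/-!
The test of the level for the new dispersion bound (definitions only).
-/

set_option autoImplicit false

namespace Pool.Agent.MP_c853c5_nt.X

/-- the conditions for given `e = 1 - 2 τ`, `k` and `q` -/
def ctQ (tn r z d e k q : ℕ) : Bool :=
  Nat.ble 400000 tn && Nat.ble z 100000 && Nat.ble q r && Nat.ble (2 * r * z + 1) (tn + d + z) &&
    Nat.ble 2502 d && Nat.ble (z + 1) (r * d) && Nat.beq (e + 2 * tn) 1000000 &&
    Nat.ble ((r + 2) * z + 1) ((2 * r + 1) * e + (r + 1) * k) && Nat.ble 2 q &&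
    Nat.ble (k + 1 + e) (q * e) && Nat.ble (4 * q * k + 4 * z + 3 * tn + 2) (2000000 + 2 * k) &&
    Nat.ble ((q + r + 1) * (z + 1)) (q * (2 * r + 1) * e)

/-- the window test or the new dispersion test -/
noncomputable def ctE (tn r z d : ℕ) : Bool :=
  cnd (Nat.beq r 0) (ctW z d)
    (ctQ tn r z d (1000000 - 2 * tn)
      (((r + 2) * z - (2 * r + 1) * (1000000 - 2 * tn)) / (r + 1) + 1)
      ((((r + 2) * z - (2 * r + 1) * (1000000 - 2 * tn)) / (r + 1) + 1) / (1000000 - 2 * tn) + 2))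

end Pool.Agent.MP_c853c5_nt.X
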