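import Pool.Agent.MP_c853c5_nt.X.GlueD
import Pool.Agent.MP_c853c5_nt.X.M2D
import Pool.Agent.MP_c853c5_nt.X.CvD
import Pool.Agent.MP_c853c5_nt.X.RefPD
import Pool.Agent.MP_c853c5_nt.X.FCD
import Pool.Agent.MP_c853c5_nt.X.MzD
import Pool.Agent.MP_c853c5_nt.X.GyD
import Pool.Agent.MP_c853c5_nt.X.FPD
import Pool.Agent.MP_c853c5_nt.X.UED
import Pool.Agent.MP_c853c5_nt.X.LSD
import Pool.Agent.MP_c853c5_nt.DT.L3D

/-!
All rules of the checker (definitions only), and tables without content.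
-/

set_option autoImplicit false

namespace Pool.Agent.MP_c853c5_nt.X

def pp0 : BT PP := .lf ⟨0, []⟩

def pd0 : BT PD := .lf ⟨1, 1, 0, false, 0⟩

noncomputable def refR : Rule := fun T _ => refP T

/-- the rows that fail somewhere on the box -/
noncomputable def fltL (S : NS) (L : List Rw) : (List Rw → ℕ) → ℕ :=
  List.rec (motive := fun _ => (List Rw → ℕ) → ℕ) (fun K => K [])
    (fun r _ ih K => cnd (Nat.ble (Nat.add r.c1 (sumL S.hi r.l1)) (Nat.add r.c2 (sumL S.lo r.l2)))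
      (ih K) (ih fun M => K (r :: M))) L

noncomputable def fltP (p : Prov) : Prov := fun S s K => p S s fun L u => fltL S L fun M => K M u

/-- items: `0` kill, `1` small, `2` child, `3` type II, `4` to `6` uniform, `7` dispersion,
`8` small primes -/
noncomputable def it2 (tn : ℕ) (ct : ℕ → ℕ → ℕ → Bool) (i2 i3 : Item) (PS : BT PD) : BT Item :=
  .nd 7 (.nd 3 (.nd 1 (.lf killI) (.nd 1 (.lf (ofP smallP)) (.lf childI)))
      (.nd 1 (.lf i2) (.lf (ofP (uwP tn ct)))))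
    (.nd 1 (.lf i3) (.lf (ofP (lsP PS))))

/-- the same numbers; `0` is one stored row, `9` a mask of stored rows -/
noncomputable def ia2 (tn : ℕ) (ct : ℕ → ℕ → ℕ → Bool) (i2 i3 : AItem) (PS : BT PD) : BT AItem :=
  .nd 7 (.nd 3 (.nd 1 (.lf (ofY killP)) (.nd 1 (.lf (ofY smallP)) (.lf (ofI childI))))
      (.nd 1 (.lf i2) (.lf (ofY (fltP (uwP tn ct))))))
    (.nd 1 (.lf i3) (.nd 1 (.lf (ofY (fltP (lsP PS)))) (.lf (ofI killI))))

/-- rules: `1` uniform, `3` dispersion with cuts, `4` and `5` fast cuts, `6` empty,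
`7` propagation, `8` and `9` grids -/
noncomputable def sb2 (tn : ℕ) (ct : ℕ → ℕ → ℕ → Bool) (P3 : BT PP) (Q2 Q3 : BT PQ)
    (gd ga : Rule) : BT Rule :=
  .nd 8 (.nd 2 (.nd 1 (.lf noR) (.lf (uwR (cv impW) tn ct)))
      (.nd 3 (.nd 2 (.nd 1 (.lf noR) (.lf (l3R impW P3))) (.lf (fcR g3 Q3)))
        (.nd 1 (.lf (fcR g2 Q2)) (.nd 1 (.lf empR) (.lf nmR)))))
    (.nd 1 (.lf gd) (.lf ga))

/-- the tables `PL`, `P3` serve the tags `3`, `13` and the rule `3` only; `i2`, `i3` are the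
items `3`, `7` and `ga` is the rule `9` -/
noncomputable def env3 (tn : ℕ) (ct : ℕ → ℕ → ℕ → Bool) (PL P3 : BT PP) (Q2 Q3 : BT PQ)
    (PS : BT PD) (i2 i3 : Item) (ga : Rule) : Env :=
  ⟨tn, PL, PS, MNZ, lkp [], XT (carveR PL) refR
    (sb2 tn ct P3 Q2 Q3 (gdR (it2 tn ct i2 i3 PS) gdZ) ga)⟩

noncomputable def env2 (tn : ℕ) (ct : ℕ → ℕ → ℕ → Bool) (PL P3 : BT PP) (Q2 Q3 : BT PQ)
    (PS : BT PD) : Env :=
  env3 tn ct PL P3 Q2 Q3 PS (ofP (pqP g2 Q2)) (ofP (pqP g3 Q3))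
    (gaY (ia2 tn ct (gqY g2 Q2) (gqY g3 Q3) PS))

end Pool.Agent.MP_c853c5_nt.X
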