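import Pool.Agent.MP_c853c5_nt.X.E4D
import Pool.Agent.MP_c853c5_nt.X.E2
import Pool.Agent.MP_c853c5_nt.X.ChY

/-!
The conclusion for the rules with free slots.
-/

set_option autoImplicit false

namespace Pool.Agent.MP_c853c5_nt.X

open Pool.Agent.MP_c853c5_nt.S Pool.Agent.MP_c853c5_nt.REG

theorem XTY_ok {t : ℝ} {f g : Rule} {sub : BT Rule} (hf : XTok t f) (hg : XTok t g)
    (hs : sub.All (XTok t)) : XTok t (XTY f g sub) := XTY_eq f g sub ▸ XT_ok hf hg hs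

/-- `U2`, `U3` are the sources of the packed tables -/
theorem gap4 {tn : ℕ} {U2 U3 : BT PP} {Q2 Q3 : BT PQ} {uw r3 gd ga : Rule} (h3 : SC < 3 * tn)
    (h4 : 2 * tn ≤ SC) (u2 : U2.All (PP.Good tn)) (u3 : U3.All (PP.Good34 tn))
    (b2 : btQ Q2 U2 = true) (b3 : btQ Q3 U3 = true)
    (hi : ∀ t, Hy tn t → Q2.All (PQ.Gd t g2) → Q3.All (PQ.Gd t g3) →
      XTok t uw ∧ XTok t r3 ∧ XTok t gd ∧ XTok t ga)
    {l : ℕ} (hl : l < 10 ^ 9)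
    (top : ∀ t, Hyp (env4 tn Q2 Q3 uw r3 gd ga) t → Val t true root l) (θ : ℝ)
    (hθ : 1 - (tn : ℝ) / 1000000 < θ) :
    ∃ n₀ : ℕ, ∀ n : ℕ, n₀ ≤ n → ∃ p : ℕ, p.Prime ∧ n < p ∧ (p : ℝ) < n + (n : ℝ) ^ θ :=
  gap_of (E := env4 tn Q2 Q3 uw r3 gd ga) h3 h4 (pp0_ok tn) (pd0_ok tn) mnz_ok (fun t h =>
    have q2 := btQ_ok b2 (h.p2 u2)
    have q3 := btQ_ok b3 (h.p34 u3)
    have ⟨a, b, c, d⟩ := hi t h q2 q3
    XTY_ok (noR_ok t) (refR_ok t)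
      ⟨⟨⟨noR_ok t, a⟩, ⟨⟨noR_ok t, b⟩, fcR_ok q3⟩, fcR_ok q2, empR_ok t, nmR_ok t⟩, c, d⟩)
    hl top θ hθ

end Pool.Agent.MP_c853c5_nt.X
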