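import Pool.Agent.MP_c853c5_nt.X.E2D
import Pool.Agent.MP_c853c5_nt.X.ChYD

/-!
The rules of the checker with free slots (definitions only).
-/

set_option autoImplicit false

namespace Pool.Agent.MP_c853c5_nt.X

/-- rules: `1` is `uw`, `3` is `r3`, `4` and `5` fast cuts, `6` empty, `7` propagation,
`8` is `gd`, `9` is `ga` -/
noncomputable def sb4 (Q2 Q3 : BT PQ) (uw r3 gd ga : Rule) : BT Rule :=
  .nd 8 (.nd 2 (.nd 1 (.lf noR) (.lf uw))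
      (.nd 3 (.nd 2 (.nd 1 (.lf noR) (.lf r3)) (.lf (fcR g3 Q3)))
        (.nd 1 (.lf (fcR g2 Q2)) (.nd 1 (.lf empR) (.lf nmR)))))
    (.nd 1 (.lf gd) (.lf ga))

noncomputable def env4 (tn : ℕ) (Q2 Q3 : BT PQ) (uw r3 gd ga : Rule) : Env :=
  ⟨tn, pp0, pd0, MNZ, lkp [], XTY noR refR (sb4 Q2 Q3 uw r3 gd ga)⟩

end Pool.Agent.MP_c853c5_nt.X
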