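import Pool.Agent.MP_c853c5_nt.X.EWD
import Pool.Agent.MP_c853c5_nt.X.E2
import Pool.Agent.MP_c853c5_nt.DV.Tooth

/-!
Soundness of the uniform leaves at a raised level.
-/

set_option autoImplicit false

open Finset

namespace Pool.Agent.MP_c853c5_nt.X

open Pool.Agent.MP_c853c5_nt.S Pool.Agent.MP_c853c5_nt.REG Pool.Agent.MP_c853c5_nt.Y
open Pool.Agent.MP_c853c5_nt.DV

variable {S : NS} {A : ℕ → Finset ℕ} {t : ℝ} {sg : Bool} {tn nu d : ℕ}

/-! ### the table -/

lemma pcB_ok {q0 : ℕ} {c : PC} (h : pcB tn q0 c = true) :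
    Pc ((tn : ℝ) / SC) ((q0 : ℝ) / SC) ((c.q : ℝ) / SC) ((c.k : ℝ) / SC) ((c.L : ℝ) / SC)
      c.r c.n := by
  obtain ⟨a1, a2, a3, a4, a5, a6, a7, a8, a9, a10, a11, a12, a13, a14, a15, a16⟩ :=
    of_decide_eq_true h
  rw [SC_eq_SndL]
  rify at a1 a2 a7 a8 a9 a10 a11 a12 a13 a14 a15 a16
  exact ⟨by linarith, by linarith, a3, a4, a5, a6, by linarith, by positivity, by linarith,
    by linarith, by linarith, by linarith, by linarith, by linarith, by linarith, by linarith,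
    a16.imp (fun e => by linarith) fun e => ⟨by linarith [e.1], by linarith [e.2]⟩⟩

lemma tchn_ok {x : TO} (h1 : 1 ≤ x.r) (h2 : x.E + 100 + x.r * tn ≤ x.r * 1000000) (P : List PC) :
    ∀ q0 : ℕ, tchn tn x P q0 = true → Win ((tn : ℝ) / SC) ((q0 : ℝ) / SC) ((x.zm : ℝ) / SC)
      ((x.lo : ℝ) / SC) ((x.E : ℝ) / SC) x.j x.r := by
  have e0 : ∀ q0 : ℕ, decide (x.zm ≤ q0) = true → Win ((tn : ℝ) / SC) ((q0 : ℝ) / SC)
      ((x.zm : ℝ) / SC) ((x.lo : ℝ) / SC) ((x.E : ℝ) / SC) x.j x.r :=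
    fun q0 h _ _ _ _ _ _ _ _ a b _ _ _ => absurd (a.trans_le b)
      (div_le_div_of_nonneg_right (Nat.cast_le.2 (of_decide_eq_true h)) SC_pos.le).not_gt
  induction P with
  | nil => exact e0
  | cons c P ih =>
    intro q0 h
    simp only [tchn, Bool.or_eq_true, Bool.and_eq_true] at h
    refine h.elim (e0 q0) fun ⟨⟨a1, a2⟩, a3⟩ ι _ y pr M i b1 b2 b3 b4 b5 b6 b7 => ?_
    rcases le_or_gt (y i) ((c.q : ℝ) / SC) with g | g
    swap
    · exact ih _ a3 ι y pr M i b1 b2 g b4 b5 b6 b7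
    obtain ⟨a4, a5⟩ := of_decide_eq_true a2
    have e1 := mul_le_mul_of_nonneg_left b3.le (Nat.cast_nonneg x.j : (0 : ℝ) ≤ x.j)
    have e2 : (0 : ℝ) ≤ (q0 : ℝ) / SC := by positivity
    rify at h1 h2 a4 a5
    refine (pcB_ok a1).win b1 b2 b3.le g b5 ?_ ?_ <;> rw [SC_eq_SndL] at *
    · linarith
    · have e3 : ∑ k ∈ M, y k ≤ 1 - (tn : ℝ) / 1000000 :=
        le_of_mul_le_mul_left (a := (x.r : ℝ)) (by linarith) (by linarith)
      nlinarith

structure TO.Good (tn nu d : ℕ) (x : TO) : Prop where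
  win : Win ((tn : ℝ) / SC) ((nu : ℝ) / SC) ((x.zm : ℝ) / SC) ((x.lo : ℝ) / SC) ((x.E : ℝ) / SC)
    x.j x.r
  r1 : 1 ≤ x.r
  e2 : x.E ≤ nu + x.r * (tn + d)
  lo : x.lo ≤ 999984
  e3 : (x.r * x.j + 1) * x.zm + 16 * x.r ≤ x.E
  z2 : 2 ≤ x.zm
  dg : x.r + (x.r * x.j + 1) < 4096
  m : x.j * x.zm + 16 ≤ tn + d

theorem ttB_ok {P : List PC} : ∀ {T : BT TO}, ttB tn nu d P T = true → T.All (TO.Good tn nu d)
  | .lf x, h => by
    rw [ttB, toB, Bool.and_eq_true] at h
    obtain ⟨a1, a2, a3, a4, a5, a6, a7, a8⟩ := of_decide_eq_true h.1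
    exact ⟨tchn_ok a1 a2 P _ h.2, a1, a3, a4, a5, a6, a7, a8⟩
  | .nd _ l r, h => by
    rw [ttB, Bool.and_eq_true] at h
    exact ⟨ttB_ok h.1, ttB_ok h.2⟩

/-! ### the leaf -/

def K4 (g : ℕ) : ℕ := if g < 4 then 1 else 0

def K5 (g : ℕ) : ℕ := K3 (g % 8)

noncomputable def sA (k G : ℕ) (φ : ℕ → ℕ) (a : Pt) : ℝ := ∑ m ∈ range k, (φ (d4 G m) : ℝ) * a m

/-- the conditions at the point, with margins -/
def TA (τ ν δ z lo E m σ : ℝ) (j r : ℕ) : Prop :=
  lo + 16 * un ≤ σ ∧ m + 16 * un ≤ τ + δ ∧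
    (ν < z → m + 16 * un + j * z ≤ τ + δ ∧ r * (σ + 16 * un) + (r * j + 1) * z ≤ E)

lemma d4_lt (G m : ℕ) : d4 G m < 16 := Nat.mod_lt _ (by norm_num)

lemma near_EW {r : ℕ} {φ : Fin r → ℕ} {a w : Fin r → ℝ} (hr : r ≤ 16) (hφ : ∀ m, φ m ≤ 1)
    (hw : ∀ m, w m ≤ a m + un) : ∑ m, (φ m : ℝ) * w m ≤ ∑ m, (φ m : ℝ) * a m + 16 * un := by
  have u := un_eq_SndL
  have r' : (r : ℝ) ≤ 16 := by exact_mod_cast hr
  have : ∑ m, (φ m : ℝ) * w m ≤ ∑ m : Fin r, ((φ m : ℝ) * a m + un) := sum_le_sum fun m _ => by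
    have h1 : (φ m : ℝ) ≤ 1 := by exact_mod_cast hφ m
    have h2 : (0 : ℝ) ≤ φ m := Nat.cast_nonneg _
    nlinarith [mul_le_mul_of_nonneg_left (hw m) h2]
  rw [sum_add_distrib, sum_const, card_univ, Fintype.card_fin, nsmul_eq_mul] at this
  nlinarith

lemma TA.tp {τ ν δ z lo E : ℝ} {j r n k G : ℕ} {e : Fin n → ℕ} {a : Pt} {w : Fin n → ℝ}
    (h : TA τ ν δ z lo E (sA k G K5 a) (sA k G K4 a) j r) (hn : n ≤ 16)
    (he : ∀ φ : ℕ → ℕ, φ 4 = 0 → sA k G φ a = ∑ m, (φ (d4 G (e m)) : ℝ) * a (e m))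
    (hw : ∀ m, a (e m) - un ≤ w m ∧ w m ≤ a (e m) + un) :
    TP τ ν δ z lo E (∑ m, (K5 (d4 G (e m)) : ℝ) * w m) (∑ m, (K4 (d4 G (e m)) : ℝ) * w m)
      j r := by
  have k4 : ∀ m, K4 (d4 G (e m)) ≤ 1 := fun m => by unfold K4; split_ifs <;> omega
  have k5 : ∀ m, K5 (d4 G (e m)) ≤ 1 := fun m => by unfold K5 K3; split_ifs <;> omega
  rw [he K5 rfl, he K4 rfl] at h
  have a1 := near_EW hn k4 fun m => (hw m).2
  have a2 := near_EW (a := w) (w := fun m => a (e m)) hn k4 fun m => by linarith [(hw m).1]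
  have a3 := near_EW hn k5 fun m => (hw m).2
  have a4 := mul_le_mul_of_nonneg_left a1 (Nat.cast_nonneg r : (0 : ℝ) ≤ r)
  obtain ⟨b1, b2, b3⟩ := h
  exact ⟨by linarith, le_trans a3 b2, fun c => ⟨by linarith [(b3 c).1],
    by linarith [(b3 c).2]⟩⟩

lemma row_fin8 {r G n c μ α β : ℕ} {e : Fin r → ℕ} {a : Pt} {w : Fin r → ℝ} {x : ℝ} (hr : r ≤ 16)
    (hG : ∀ m, d4 G (e m) % 8 < n) (hw : ∀ m, w m ≤ a (e m) + un)
    (hc : ∀ g < 16, g % 8 < n → dg c (12 * g) = α * K1 (g % 8) + β * K2 (g % 8) ∧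
      dg c (12 * g) ≤ μ) (h : ∑ m, wt c G (e m) * a (e m) ≤ x) :
    α * ∑ m, (K1 (d4 G (e m) % 8) : ℝ) * w m + β * ∑ m, (K2 (d4 G (e m) % 8) : ℝ) * w m ≤
      x + 16 * μ / 1000000 := by
  have u := un_eq_SndL
  have r' : (r : ℝ) ≤ 16 := by exact_mod_cast hr
  have : ∑ m, wt c G (e m) * w m ≤ ∑ m : Fin r, (wt c G (e m) * a (e m) + μ * un) :=
    sum_le_sum fun m _ => by
      have h1 : wt c G (e m) ≤ μ := Nat.cast_le.2 (hc _ (d4_lt _ _) (hG m)).2
      have h2 : 0 ≤ wt c G (e m) := Nat.cast_nonneg _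
      nlinarith [mul_le_mul_of_nonneg_left (hw m) h2]
  rw [sum_add_distrib, sum_const, card_univ, Fintype.card_fin, nsmul_eq_mul] at this
  rw [mul_sum, mul_sum, ← sum_add_distrib]
  refine le_trans (le_of_eq (sum_congr rfl fun m _ => ?_)) (this.trans ?_)
  · rw [wt, (hc _ (d4_lt _ _) (hG m)).1]
    push_cast
    ring
  · have : (0 : ℝ) ≤ μ := Nat.cast_nonneg _
    rw [u]
    nlinarith

lemma fin_EW {τ δ x y : ℝ} (h0 : 1 / 1000000 ≤ δ) (h1 : 2 * τ + 2 * δ ≤ 1)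
    (h3 : x ≤ τ ∨ x + 3 * τ + 2 * δ + 2 / 1000000 ≤ 2)
    (h4 : y ≤ τ ∨ y + 3 * τ + 2 * δ + 2 / 1000000 ≤ 2)
    (h5 : x ≤ τ ∨ y ≤ τ ∨ x + y + 2 * τ + 2 * δ + 2 / 1000000 ≤ 2) :
    ∃ W : ℝ, max τ x + max τ y ≤ 2 * W ∧ W + 1 / 1000000 + τ + δ ≤ 1 := by
  refine ⟨_, (mul_div_cancel₀ _ two_ne_zero).ge, ?_⟩
  rcases le_or_gt x τ with a | a <;> rcases le_or_gt y τ with b | b
  · rw [max_eq_left a, max_eq_left b]
    linarith
  · rw [max_eq_left a, max_eq_right b.le]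
    linarith [h4.resolve_left b.not_ge]
  · rw [max_eq_right a.le, max_eq_left b]
    linarith [h3.resolve_left a.not_ge]
  · rw [max_eq_right a.le, max_eq_right b.le]
    linarith [(h5.resolve_left a.not_ge).resolve_left b.not_ge]

/-- the point is near the simplex -/
def NrS (k : ℕ) (a : Pt) : Prop := (∀ m < k, 1 / 50 ≤ a m) ∧ |∑ m ∈ range k, a m - 1| ≤ un

/-- the level of the block `i` lies in the tooth -/
def Lt (τ ν δ zm lo E : ℝ) (j r : ℕ) (S : NS) (G i : ℕ) (a : Pt) : Prop :=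
  NrS S.k a → ∀ y, (S.kind i).lev a y →
    y ≤ zm ∧ TA τ ν δ y lo E (sA S.k G K5 a) (sA S.k G K4 a) j r

theorem ew_node (h1 : 1 / 3 ≤ t) (h2 : t < (tn : ℝ) / SC) (cut : CutStmt2)
    (hL : LeafSG sysG) (hL2 : LeafS2G sysG) (hI : Inv S A) {i j G J r : ℕ} {ν zm lo E : ℝ}
    {f g sub : Bool} (d0 : 0 < d) (d1 : tn + d ≤ 500000) (hG : ewG S i j G sub = true)
    (hν : 0 ≤ ν) (hC : Crs sysG ((tn : ℝ) / SC) ν ((d : ℝ) / SC))
    (hW : Win ((tn : ℝ) / SC) ν zm lo E J r) :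
    H sg t S.k S.kind (fun a => (Lt ((tn : ℝ) / SC) ν ((d : ℝ) / SC) zm lo E J r S G i a ∧
      Lt ((tn : ℝ) / SC) ν ((d : ℝ) / SC) zm lo E J r S G j a) ∧
      ∀ y ∈ cnd (Nat.beq i j) (ew1 tn d f g) (ew2 tn d), Pr S.k G y a) 0 := by
  simp only [ewG, band_eq, bor_eq, Bool.and_eq_true, Bool.or_eq_true, Nat.ble_eq, Nat.blt_eq,
    allN_iff, cnd_eq, Nat.beq_eq] at hG
  obtain ⟨⟨⟨hij, hj⟩, hi0, hj0⟩, hG⟩ := hG
  have hi : i < S.k := by omega
  have hk := hI.le
  have t0 : 333333 < tn := by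
    have : (333333 : ℝ) < tn := by
      rw [SC_eq_SndL, lt_div_iff₀ (by norm_num)] at h2
      linarith
    exact_mod_cast this
  have d0' : (1 : ℝ) ≤ d := by exact_mod_cast d0
  have d1' : (tn : ℝ) + d ≤ 500000 := by exact_mod_cast d1
  have gi : d4 G i = 4 := by simpa using hG i hi
  have gj : d4 G j = 4 := by simpa using hG j hj
  have hv := hI.kv
  have h3 : (tn : ℝ) / SC ≤ 1 / 2 := by
    rw [SC_eq_SndL]
    linarith
  have h4 : 2 * ((tn : ℝ) / SC) + 2 * ((d : ℝ) / SC) ≤ 1 := by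
    rw [SC_eq_SndL]
    linarith
  have h5 : 0 ≤ (d : ℝ) / SC := by positivity
  have k4 : ∀ m, K4 m ≤ 1 := fun m => by unfold K4; split_ifs <;> omega
  unfold Lt
  rcases hij.eq_or_lt with rfl | hlt
  · obtain ⟨n, hr⟩ : ∃ r, S.k = r + 1 := ⟨S.k - 1, by omega⟩
    rw [hr] at hv hG ⊢
    have hG' : ∀ m : Fin n, d4 G (sk i m) % 8 < 4 := fun m => by
      have := hG _ (sk_lt_SndL (i := i) m.2)
      simp only [sk_ne_SndL, or_self, if_false, if_true, Bool.and_eq_true, Nat.blt_eq] at this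
      exact this.1
    refine xLeafSG cut hL h1 h2 h3 (by omega) hv (kind_ne_P hi0)
      fun B a y ha h50 hs hc _ hy => ut_one (s := 1 / 1000000)
        (k1 := fun m => K1 (d4 G (sk i m) % 8)) (k2 := fun m => K2 (d4 G (sk i m) % 8))
        (k3 := fun m => K5 (d4 G (sk i m))) (u := fun m => K4 (d4 G (sk i m)))
        (by linarith) (by norm_num) h5 h4 hν hC hW (ha.1.1 ⟨h50, hs⟩ y hy).1
        (fun m => (by decide : ∀ g < 4, K1 g + K2 g + 2 * K3 g = 2) _ (hG' m)) (fun m => k4 _)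
        fun w hw => ⟨?_, (ha.1.1 ⟨h50, hs⟩ y hy).2.tp (e := fun m => sk i m) (by omega) (fun φ e => by
          rw [sA, sum_sk_U (i := i) (by omega), gi, e, Nat.cast_zero, zero_mul, add_zero])
          fun m => ⟨(hc m).1.trans (hw m).2.1, (hw m).2.2.trans (hc m).2.1⟩⟩
    have key := fun (c x μ α β : ℕ) (hy : (c, x) ∈ ew1 tn d f g) (e : dg c 48 = 0) hc' =>
      row_fin8 (c := c) (μ := μ) (α := α) (β := β) (a := a) (w := w) (x := (x : ℝ) / SC)
        (by omega) hG' (fun m => (hw m).2.2.trans (hc m).2.1) hc' (by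
          have w0 : wt c G i = 0 := by rw [wt, gi, e, Nat.cast_zero]
          have := (ha.2 (c, x) (by simpa [cnd_eq] using hy)).self (by omega) w0 h50 hs
          rwa [sum_sk_U (i := i) (by omega), w0, zero_mul, add_zero] at this)
    have N1 := fun h => key 43556144263954337957018856884440169201664 (tn - 128) 8 4 0 h rfl
      (by decide)
    have N2 := fun h => key 2658780510123490172534397276614823936 (tn - 32) 2 0 1 h rfl
      (by decide)
    have N3 := fun h => key 43556144263954337957018856884440169201664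
      (4000000 - (7 * tn + 4 * d + 132)) 8 4 0 h rfl (by decide)
    have N5 := fun h => key 2658780510123490172534397276614823936
      (2000000 - (3 * tn + 2 * d + 34)) 2 0 1 h rfl (by decide)
    have N7 := fun h => key 43561461824974584937363925678993398849536
      (4000000 - (5 * tn + 4 * d + 132)) 8 4 2 h rfl (by decide)
    rw [sub_UW (by omega)] at N1 N2 N3 N5 N7
    push_cast at N1 N2 N3 N5 N7
    rw [SC_eq_SndL]
    refine fin_EW (by linarith only [d0']) (by linarith only [d1']) ?_ ?_ ?_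
    · cases f
      · exact Or.inl (by linarith only [N1 (by simp [ew1, cnd])])
      · exact Or.inr (by linarith only [N3 (by simp [ew1, cnd])])
    · cases g
      · exact Or.inl (by linarith only [N2 (by cases f <;> simp [ew1, cnd])])
      · exact Or.inr (by linarith only [N5 (by cases f <;> simp [ew1, cnd])])
    · cases f
      · exact Or.inl (by linarith only [N1 (by simp [ew1, cnd])])
      cases g
      · exact Or.inr (Or.inl (by linarith only [N2 (by simp [ew1, cnd])]))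
      · exact Or.inr (Or.inr (by linarith only [N7 (by simp [ew1, cnd])]))
  · obtain ⟨n, hr⟩ : ∃ r, S.k = r + 2 := ⟨S.k - 2, by omega⟩
    obtain ⟨j, rfl, hj'⟩ : ∃ j', j = sk i j' ∧ j' ≤ n :=
      ⟨j - 1, by unfold sk; split_ifs <;> omega, by omega⟩
    rw [hr] at hv hG ⊢
    have hG' : ∀ m : Fin n, d4 G (sk i (sk j m)) % 8 < 2 := fun m => by
      have e : sk i (sk j m) ≠ sk i j := by
        have := sk_ne_SndL j m
        unfold sk at *
        split_ifs at * <;> omega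
      have := hG _ (sk_lt_SndL (i := i) (sk_lt_SndL (i := j) m.2))
      simp only [sk_ne_SndL, e, hlt.ne, or_self, if_false, Bool.and_eq_true, Nat.blt_eq] at this
      exact this.1
    have sm : ∀ (F : ℕ → ℝ) (a : Pt), F i = 0 → F (sk i j) = 0 → ∑ m ∈ range (n + 2), F m * a m =
        ∑ m : Fin n, F (sk i (sk j m)) * a (sk i (sk j m)) := fun F a w0 w1 => by
      rw [sum_sk_U (r := n + 1) (i := i) (by omega), w0, zero_mul, add_zero,
        ← sum_range fun m => F (sk i m) * a (sk i m), sum_sk_U hj', w1, zero_mul, add_zero]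
    refine xLeafS2G cut hL2 h1 h2 h3 (by omega) hj' hv (kind_ne_P hi0) (kind_ne_P hj0)
      fun B a y1 y2 l h ha h50 hs hc _ _ hy1 hy2 _ _ => ?_
    have mx : max y1 y2 ≤ zm ∧ TA ((tn : ℝ) / SC) ν ((d : ℝ) / SC) (max y1 y2) lo E
        (sA (n + 2) G K5 a) (sA (n + 2) G K4 a) J r := by
      rcases max_choice y1 y2 with e | e <;> rw [e]
      exacts [ha.1.1 ⟨h50, hs⟩ y1 hy1, ha.1.2 ⟨h50, hs⟩ y2 hy2]
    refine ut_two (s := 1 / 1000000)
        (k1 := fun m => K1 (d4 G (sk i (sk j m)) % 8))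
        (k2 := fun m => K1 (d4 G (sk i (sk j m)) % 8))
        (k3 := fun m => K5 (d4 G (sk i (sk j m)))) (u := fun m => K4 (d4 G (sk i (sk j m))))
        (by linarith) (by norm_num) h5 h4 hν hC hW mx.1 (le_max_left _ _) (le_max_right _ _)
        (fun m => (by decide : ∀ g < 2, K1 g + K1 g + 2 * K3 g = 2) _ (hG' m)) (fun m => k4 _)
        fun w hw => ⟨?_, mx.2.tp (e := fun m => sk i (sk j m)) (by omega) (fun φ e =>
          sm (fun m => φ (d4 G m)) a (by simp [gi, e]) (by simp [gj, e]))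
          fun m => ⟨(hc m).1.trans (hw m).2.1, (hw m).2.2.trans (hc m).2.1⟩⟩
    have N1 := row_fin8 (c := 1298074214633706907132624082321408) (μ := 4) (α := 4) (β := 0)
      (a := a) (w := w) (x := ((2000000 - (3 * tn + 2 * d + 66) : ℕ) : ℝ) / SC)
      (by omega) hG' (fun m => (hw m).2.2.trans (hc m).2.1) (by decide) (by
        have w0 : wt 1298074214633706907132624082321408 G i = 0 := by
          rw [wt, gi]
          exact Nat.cast_zero
        have w1 : wt 1298074214633706907132624082321408 G (sk i j) = 0 := by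
          rw [wt, gj]
          exact Nat.cast_zero
        have := (ha.2 (1298074214633706907132624082321408, 2000000 - (3 * tn + 2 * d + 66))
          (by simp [cnd_eq, hlt.ne, ew2])).self (by omega) w0 h50 hs
        rwa [sm _ a w0 w1] at this)
    rw [sub_UW (by omega)] at N1
    push_cast at N1
    rw [SC_eq_SndL]
    rcases le_total ((tn : ℝ) / 1000000 / 2 +
      2 * ∑ m : Fin n, (K1 (d4 G (sk i (sk j m)) % 8) : ℝ) * w m) ((tn : ℝ) / 1000000) with c | c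
    · exact fin_EW (by linarith only [d0']) (by linarith only [d1']) (Or.inl c) (Or.inl c)
        (Or.inl c)
    · exact fin_EW (by linarith only [d0']) (by linarith only [d1'])
        (Or.inr (by linarith only [N1, c])) (Or.inr (by linarith only [N1, c]))
        (Or.inr (Or.inr (by linarith only [N1])))

/-! ### the rows -/

lemma d4_put (G i : ℕ) {c : ℕ} (hc : c < 16) (j : ℕ) :
    d4 (put4 G i c) j = if j = i then c else d4 G j := by
  have e0 : ∀ v i, d4 v i = v >>> (4 * i) % 2 ^ 4 := fun _ _ => rfl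
  have h1 : d4 G i ^^^ c < 2 ^ 4 := Nat.xor_lt_two_pow (d4_lt G i) hc
  refine Nat.eq_of_testBit_eq fun n => ?_
  show ((G ^^^ ((d4 G i ^^^ c) <<< (4 * i))) >>> (4 * j) % 2 ^ 4).testBit n = _
  rw [Nat.testBit_mod_two_pow, Nat.testBit_shiftRight, Nat.testBit_xor, Nat.testBit_shiftLeft]
  by_cases hn : n < 4
  · split_ifs with e
    · subst e
      rw [Nat.add_sub_cancel_left, Nat.testBit_xor, e0, Nat.testBit_mod_two_pow,
        Nat.testBit_shiftRight]
      simp [hn]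
    · rw [e0 G j, Nat.testBit_mod_two_pow, Nat.testBit_shiftRight]
      rcases lt_or_gt_of_ne e with g | g
      · simp [hn, show ¬ 4 * i ≤ 4 * j + n by omega]
      · rw [Nat.testBit_lt_two_pow
          (h1.trans_le (Nat.pow_le_pow_right two_pos (show 4 ≤ 4 * j + n - 4 * i by omega)))]
        simp
  · have g : 2 ^ 4 ≤ 2 ^ n := Nat.pow_le_pow_right two_pos (not_lt.1 hn)
    rw [Nat.testBit_lt_two_pow (lt_of_lt_of_le (by split_ifs; exacts [hc, d4_lt G j]) g)]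
    simp [hn]

/-- a row at a point of total size one -/
lemma Pr.at {k G i : ℕ} {y : ℕ × ℕ} {a : Pt} (h : Pr k G y a) (hi : i < k)
    (h1 : ∀ m < k, 1 / 50 ≤ a m) (hs : |∑ m ∈ range k, a m - 1| ≤ un) :
    ∑ m ∈ range k, wt y.1 G m * a m + wt y.1 G i * (1 - ∑ m ∈ range k, a m) ≤ (y.2 : ℝ) / SC := by
  have u := un_eq_SndL
  obtain ⟨s1, s2⟩ := abs_le.1 hs
  have := h (fun m => a m + if m = i then 1 - ∑ m ∈ range k, a m else 0) (fun m hm => by
    have := h1 m hm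
    split_ifs
    · exact ⟨by linarith, by linarith, by linarith⟩
    · exact ⟨by linarith, by linarith, by linarith⟩) (by simp [sum_add_distrib, hi])
  simpa [mul_add, sum_add_distrib, hi] using this

lemma dg_zero {a : ℕ} (x : ℕ) (h : a < 4096) : dg (a + 4096 * x) 0 = a := by
  show (a + 4096 * x) % 4096 = a
  omega

lemma dg_succ {a : ℕ} (x s : ℕ) (h : a < 4096) : dg (a + 4096 * x) (12 + s) = dg x s := by
  show (a + 4096 * x) >>> (12 + s) % 4096 = x >>> s % 4096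
  rw [Nat.shiftRight_add, Nat.shiftRight_eq_div_pow _ 12,
    show (a + 4096 * x) / 2 ^ 12 = x by omega]

lemma dg_sl {r c g : ℕ} (h : r + c < 4096) :
    dg (r * 1152921573343105025 + c * 4723519404374252060672) (12 * g) =
      if g < 4 then r else if g = 5 then r + c else if g = 6 then c else 0 := by
  have hr : r < 4096 := by omega
  have hc : c < 4096 := by omega
  rw [show r * 1152921573343105025 + c * 4723519404374252060672 = r + 4096 * (r + 4096 *
    (r + 4096 * (r + 4096 * (0 + 4096 * (r + c + 4096 * (c + 4096 * 0)))))) by omega]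
  rcases g with _ | _ | _ | _ | _ | _ | _ | g <;>
    simp only [Nat.mul_succ, add_comm _ 12, dg_succ _ _ hr, dg_succ _ _ hc, dg_succ _ _ h,
      dg_succ _ _ (by norm_num : 0 < 4096), mul_zero 12, dg_zero _ hr, dg_zero _ hc, dg_zero _ h,
      dg_zero _ (by norm_num : 0 < 4096)] <;> simp [dg]

lemma slR_ok (hI : Inv S A) {G r c e q i : ℕ} {L : List Rw} (hL : ∀ x ∈ L, x.In S.k)
    (h : r + c < 4096) (hi : i < S.k) (gi : d4 G i = 4)
    (hG : ∀ m < S.k, d4 G m = 4 ∨ d4 G m % 8 < 4) :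
    ∃ M : List Rw, (∀ K, slR S G (r * 1152921573343105025 + c * 4723519404374252060672) e q L K =
      K M) ∧ (∀ x ∈ M, x.In S.k) ∧ ∀ a, (∀ x ∈ M, x.ok (Y A a)) → (∀ x ∈ L, x.ok (Y A a)) ∧
        ∀ b < S.k, get S.kd b = q → 0 < q → q ≤ 16 → NrS S.k a → ∀ y, (S.kind b).lev a y →
          r * sA S.k G K4 a + c * y ≤ (e : ℝ) / SC + 2 * c * un := by
  simp only [slR, cnd_eq, force_eq, Nat.ble_eq, Nat.blt_eq, Nat.pred_eq_sub_one]
  by_cases c0 : q ≤ 16
  swap
  · exact ⟨L, fun _ => if_neg c0, hL, fun a ha => ⟨ha, fun _ _ _ _ e => absurd e c0⟩⟩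
  set G3 := put4 G (q - 1) (if d4 G (q - 1) < 4 then 5 else 6) with g3
  obtain ⟨M, h1, h2, h3⟩ := mkRs_ok hI G3 hL
    [(r * 1152921573343105025 + c * 4723519404374252060672, e)]
  refine ⟨M, fun K => (if_pos c0).trans (h1 K), h2, fun a ha => ⟨(h3 a ha).1,
    fun b hb e0 q0 _ hn y hy => ?_⟩⟩
  have hv := (hI.kv b hb).2
  rw [NS.kind, kindOf, e0, if_neg q0.ne', if_pos c0] at hy hv
  have l0 := (hv _ rfl).1
  have hy' : y ≤ a (q - 1) + un := hy
  have w : ∀ m < S.k, wt (r * 1152921573343105025 + c * 4723519404374252060672) G3 m =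
      r * (K4 (d4 G m) : ℝ) + if m = q - 1 then (c : ℝ) else 0 := fun m hm => by
    have := hG m hm
    have := d4_lt G m
    rw [wt, g3, d4_put _ _ (by split_ifs <;> norm_num), dg_sl h, K4]
    by_cases e1 : m = q - 1
    · rw [← e1]
      by_cases e2 : d4 G m < 4 <;> simp [e2]
    · by_cases e2 : d4 G m < 4
      · simp [e1, e2]
      · simp [e1, e2, show d4 G m ≠ 5 by omega, show d4 G m ≠ 6 by omega]
  have := ((h3 a ha).2 _ List.mem_cons_self).at hi hn.1 hn.2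
  rw [sum_congr rfl fun m hm => by rw [w m (mem_range.1 hm)], w i hi, gi] at this
  simp only [add_mul, sum_add_distrib, mul_assoc, ← mul_sum, ite_mul, zero_mul, sum_ite_eq',
    mem_range, l0, if_true, show K4 4 = 0 from rfl, Nat.cast_zero, mul_zero, zero_add] at this
  have c1 : (0 : ℝ) ≤ c := Nat.cast_nonneg _
  have c2 := mul_le_mul_of_nonneg_left hy' c1
  have c3 := mul_le_mul_of_nonneg_left (abs_le.1 hn.2).2 c1
  have c4 : 0 ≤ c * un := mul_nonneg c1 (by rw [un_eq_SndL]; norm_num)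
  rw [sA]
  split_ifs at this <;> linarith

/-- from the rows to the tooth -/
lemma TO.Good.ta {x : TO} (hx : x.Good tn nu d) {z zc : ℕ} {sub : Bool} {m σ y : ℝ}
    (hz : z ≤ x.zm) (hc : zc ≤ z ∨ zc ≤ nu) (hy : y ≤ (z : ℝ) / SC)
    (h1 : 1 - σ ≤ ((999984 - x.lo : ℕ) : ℝ) / SC)
    (h2 : σ ≤ (((if nu < zc then (x.E - (x.r * x.j + 1) * zc) / x.r else tn + d) - 16 : ℕ) : ℝ) / SC)
    (h3 : if sub = true then m ≤ σ else m ≤ ((tn + d - (x.j * z + 16) : ℕ) : ℝ) / SC)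
    (h4 : y ≤ (zc : ℝ) / SC ∨ x.r * σ + (x.r * x.j + 1 : ℕ) * y ≤
      ((x.E - (16 * x.r + 2 * (x.r * x.j + 1)) : ℕ) : ℝ) / SC + 2 * (x.r * x.j + 1 : ℕ) * un) :
    TA ((tn : ℝ) / SC) ((nu : ℝ) / SC) ((d : ℝ) / SC) y ((x.lo : ℝ) / SC) ((x.E : ℝ) / SC) m σ
      x.j x.r := by
  obtain ⟨-, r1, e2, lo, e3, z2, -, m1⟩ := hx
  have n1 := Nat.mul_le_mul_left (x.r * x.j + 1) z2
  have n2 := Nat.mul_le_mul_left x.j hz
  have r0 : (0 : ℝ) < x.r := by exact_mod_cast r1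
  have j0 : (0 : ℝ) ≤ x.j := Nat.cast_nonneg _
  have z0 : (0 : ℝ) ≤ z := Nat.cast_nonneg _
  rw [sub_UW lo] at h1
  rw [sub_UW (by omega)] at h3 h4
  have s1 : nu < zc → x.r * (σ + 16 / 1000000) + (x.r * x.j + 1) * ((zc : ℝ) / 1000000) ≤
      x.E / 1000000 := fun c => by
    have n3 := Nat.mul_le_mul_left (x.r * x.j + 1) (show zc ≤ x.zm by omega)
    have n4 := Nat.div_mul_le_self (x.E - (x.r * x.j + 1) * zc) x.r
    have n5 : 16 ≤ (x.E - (x.r * x.j + 1) * zc) / x.r := (Nat.le_div_iff_mul_le r1).2 (by omega)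
    rw [if_pos c, sub_UW n5] at h2
    have n6 : (x.E - (x.r * x.j + 1) * zc) / x.r * x.r + (x.r * x.j + 1) * zc ≤ x.E := by omega
    generalize (x.E - (x.r * x.j + 1) * zc) / x.r = U at *
    rify at n6
    nlinarith [mul_le_mul_of_nonneg_left h2 r0.le]
  rify at e2
  have s2 : σ + 16 / 1000000 ≤ (tn + d) / 1000000 := by
    by_cases c : nu < zc
    · have c' : (nu : ℝ) < zc := by exact_mod_cast c
      have := mul_nonneg (mul_nonneg r0.le j0) (Nat.cast_nonneg zc : (0 : ℝ) ≤ zc)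
      exact le_of_mul_le_mul_left (by linarith [s1 c]) r0
    · rw [if_neg c, sub_UW (by omega)] at h2
      push_cast at h2
      linarith
  rw [TA, un_eq_SndL, SC_eq_SndL] at *
  push_cast at h1 h3 h4
  have s3 : (nu : ℝ) / 1000000 < y →
      x.r * (σ + 16 / 1000000) + (x.r * x.j + 1) * y ≤ x.E / 1000000 := fun c => by
    rcases h4 with h4 | h4
    · have := mul_le_mul_of_nonneg_left h4 (by positivity : (0 : ℝ) ≤ x.r * x.j + 1)
      linarith [s1 (by exact_mod_cast (by linarith : (nu : ℝ) < zc))]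
    · linarith
  have s4 := mul_le_mul_of_nonneg_left hy j0
  have s5 := mul_nonneg j0 z0
  split_ifs at h3
  · refine ⟨by linarith, by linarith, fun c => ⟨le_of_mul_le_mul_left ?_ r0, by linarith [s3 c]⟩⟩
    linarith [s3 c, mul_le_mul_of_nonneg_left h3 r0.le]
  · exact ⟨by linarith, by linarith, fun c => ⟨by linarith, by linarith [s3 c]⟩⟩

theorem ewP_ok (h1 : 1 / 3 ≤ t) (h2 : t < (tn : ℝ) / SC) (cut : CutStmt2)
    (hL : LeafSG sysG) (hL2 : LeafS2G sysG) (d0 : 0 < d) (d1 : tn + d ≤ 500000) (n0 : 16 ≤ nu)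
    (hC : Crs sysG ((tn : ℝ) / SC) ((nu : ℝ) / SC) ((d : ℝ) / SC)) {TT : BT TO}
    (hT : TT.All (TO.Good tn nu d)) : Prok t (ewP tn nu d TT) := fun sg S A s K hI hl => by
  simp only [ewP, force_eq] at hl ⊢
  have hx := hT.find (Nat.mod (Nat.shiftRight s 11) 32)
  generalize TT.find _ = x at *
  obtain ⟨J, r, lo, zm, E⟩ := x
  simp only [Nat.add_eq, Nat.mul_eq, Nat.sub_eq, Nat.succ_eq_add_one] at hl ⊢
  generalize Nat.mod s 16 = i at *
  generalize Nat.mod (Nat.shiftRight s 4) 16 = j at *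
  generalize bit s 10 = sub at *
  generalize cnd sub zm (Nat.mod _ _) = z at *
  generalize Nat.shiftRight s (cnd _ _ _) = u at *
  generalize Nat.mod u _ = G at *
  obtain ⟨g, e⟩ := grd_lt hl
  rw [e] at hl ⊢
  rw [band_eq, Bool.and_eq_true, Nat.ble_eq] at g
  have g1 := g.1
  simp only [ewG, band_eq, bor_eq, Bool.and_eq_true, Bool.or_eq_true, Nat.ble_eq, Nat.blt_eq,
    allN_iff, cnd_eq, Nat.beq_eq] at g1
  obtain ⟨⟨⟨hij, hj⟩, hi0, hj0⟩, hG⟩ := g1
  have hi := hij.trans_lt hj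
  have gi : d4 G i = 4 := by simpa using hG i hi
  have hG' : ∀ m < S.k, d4 G m = 4 ∨ d4 G m % 8 < 4 ∧ (sub = true → d4 G m ≠ 8) := fun m hm => by
    have := hG m hm
    split_ifs at this
    all_goals simp only [Nat.beq_eq, Bool.and_eq_true, Nat.blt_eq, bnot_eq] at this
    · exact Or.inl this
    · exact Or.inr ⟨this.1, fun a b => by simpa [a, b] using this.2⟩
    · exact Or.inr ⟨lt_trans this.1 (by norm_num), fun a b => by simpa [a, b] using this.2⟩
  have hG2 := fun m hm => (hG' m hm).imp_right And.left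
  obtain ⟨L1, e1, i1, a1⟩ := lkR_ok hI (by simp) hl
  rw [e1] at hl ⊢
  obtain ⟨L2, e2, i2, a2⟩ := lkR_ok hI i1 hl
  obtain ⟨L3, e3, i3, a3⟩ := slR_ok (e := E - (16 * r + 2 * (r * J + 1)))
    (q := cnd (Nat.beq (get S.kd i) (get S.kd j)) 17 (get S.kd j)) hI i2 hx.dg hi gi hG2
  obtain ⟨L4, e4, i4, a4⟩ := slR_ok (e := E - (16 * r + 2 * (r * J + 1))) (q := get S.kd i)
    hI i3 hx.dg hi gi hG2
  rw [e2, e3, e4]
  set W := cnd (Nat.beq i j) (ew1 tn d (bit s 8) (bit s 9)) (ew2 tn d) with hW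
  obtain ⟨N, e5, i5, a5⟩ := mkRs_ok hI G i4
    ((5445847423328582152227888928193112965120, 999984 - lo) ::
      (68736258049, cnd (Nat.blt nu (mx (get S.kd i) (get S.kd j)))
        ((E - (r * J + 1) * mx (get S.kd i) (get S.kd j)) / r) (tn + d) - 16) ::
      cnd sub W ((79228162514264337593543950337, tn + d - (J * z + 16)) :: W))
  refine ⟨N, _, e5 _, i5, (ew_node (f := bit s 8) (g := bit s 9) h1 h2 cut hL hL2 hI d0 d1 g.1
    (by positivity) hC hx.win).anti fun a ha => ?_⟩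
  obtain ⟨b4, b5⟩ := a5 a ha.2
  obtain ⟨b3, c4⟩ := a4 a b4
  obtain ⟨b2, c3⟩ := a3 a b3
  obtain ⟨b1, c2⟩ := a2 a b2
  have c1 := (a1 a b1).2
  simp only [List.forall_mem_cons, cnd_eq, Nat.blt_eq, mx_eq, Nat.beq_eq] at b5 c2 c3
  obtain ⟨p1, p2, p3⟩ := b5
  have li : Lz S i z a := c1 _ hi rfl hi0
  have lj : Lz S j z a := by
    split_ifs at c2 with c
    exacts [c1 _ hj c.symm hi0, c2 _ hj rfl hj0]
  have key : ∀ b < S.k, 0 < get S.kd b → get S.kd b ≤ max (get S.kd i) (get S.kd j) → Lz S b z a →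
      (get S.kd b ≤ 16 → NrS S.k a → ∀ y, (S.kind b).lev a y →
        r * sA S.k G K4 a + (r * J + 1 : ℕ) * y ≤ ((E - (16 * r + 2 * (r * J + 1)) : ℕ) : ℝ) / SC + 2 * (r * J + 1 : ℕ) * un) →
      Lt ((tn : ℝ) / SC) ((nu : ℝ) / SC) ((d : ℝ) / SC) ((zm : ℝ) / SC) ((lo : ℝ) / SC)
        ((E : ℝ) / SC) J r S G b a := fun b hb b0 bm lb sb hn y hy => by
    have sl : ∀ (c x : ℕ) (φ : ℕ → ℕ), Pr S.k G (c, x) a → φ 4 = 0 →
        (∀ g < 16, dg c (12 * g) = φ g) → sA S.k G φ a ≤ (x : ℝ) / SC := fun c x φ p e0 e1 => by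
      have w : wt c G = fun m => (φ (d4 G m) : ℝ) := funext fun m => by rw [wt, e1 _ (d4_lt _ _)]
      have := p.self hi (by rw [w]; simp [gi, e0]) hn.1 hn.2
      rwa [w] at this
    refine ⟨(lb y hy).trans (div_le_div_of_nonneg_right (Nat.cast_le.2 g.2) SC_pos.le),
      hx.ta (sub := sub) (zc := max (get S.kd i) (get S.kd j)) g.2 ?_ (lb y hy) ?_
        (sl _ _ K4 p2 rfl (by decide)) ?_ ?_⟩
    · have k : ∀ m < S.k, Lz S m z a → get S.kd m ≤ z ∨ get S.kd m ≤ nu := fun m _ lm => by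
        rcases le_or_gt (get S.kd m) 16 with c | c
        · exact Or.inr (c.trans n0)
        · have := lm ((get S.kd m : ℝ) / SC) (by
            rw [NS.kind, kindOf, if_neg (by omega), if_neg c.not_ge]
            exact le_rfl)
          exact Or.inl (Nat.cast_le.1 ((div_le_div_iff_of_pos_right SC_pos).1 this))
      rcases max_choice (get S.kd i) (get S.kd j) with c | c <;> rw [c]
      exacts [k i hi li, k j hj lj]
    · have w : ∀ m < S.k, wt 5445847423328582152227888928193112965120 G m =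
          1 - (K4 (d4 G m) : ℝ) := fun m hm => by
        rw [wt, eq_sub_iff_add_eq]
        exact_mod_cast (by decide : ∀ g < 16, g = 4 ∨ g % 8 < 4 →
          dg 5445847423328582152227888928193112965120 (12 * g) + K4 g = 1) _ (d4_lt _ _) (hG2 m hm)
      have := p1.at hi hn.1 hn.2
      rw [sum_congr rfl fun m hm => by rw [w m (mem_range.1 hm)], w i hi, gi] at this
      simp only [sub_mul, one_mul, sum_sub_distrib, show K4 4 = 0 from rfl, Nat.cast_zero,
        sub_zero] at this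
      rw [sA]
      linarith
    · split_ifs at p3 ⊢ with c
      · refine sum_le_sum fun m hm => mul_le_mul_of_nonneg_right (Nat.cast_le.2 ?_)
          (by linarith [hn.1 m (mem_range.1 hm)])
        have := hG' m (mem_range.1 hm)
        have := d4_lt G m
        unfold K5 K3 K4
        split_ifs <;> simp only [c, forall_const] at * <;> omega
      · exact sl _ _ K5 (p3 _ List.mem_cons_self) rfl (by decide)
    · rcases le_or_gt (get S.kd b) 16 with c | c
      · exact Or.inr (sb c hn y hy)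
      · rw [NS.kind, kindOf, if_neg b0.ne', if_neg c.not_ge] at hy
        exact Or.inl (le_trans hy (div_le_div_of_nonneg_right (Nat.cast_le.2 bm) SC_pos.le))
  refine ⟨⟨key i hi hi0 (le_max_left _ _) li (c4 i hi rfl hi0),
    key j hj hj0 (le_max_right _ _) lj ?_⟩, fun y hy => ?_⟩
  · split_ifs at c3 with c
    · exact fun h => c4 j hj c.symm hi0 (c ▸ h)
    · exact c3 j hj rfl hj0
  · split_ifs at p3
    exacts [p3 y hy, p3 y (List.mem_cons_of_mem _ hy)]

theorem pvR_ok {p : Prov} (h : Prok t p) : XTok t (pvR p) := fun _ _ _ _ sg S s hl A hI => by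
  obtain ⟨L, u, e, -, h2⟩ := h.flt sg S A s _ hI hl
  rw [pvR, e] at hl ⊢
  cases L with
  | nil => exact (show ((0 : ℕ) : ℝ) / 10 ^ 9 = 0 by simp) ▸ h2.anti fun a ha => ⟨ha, by simp⟩
  | cons _ _ => exact absurd hl (lt_irrefl _)

theorem okSysG : sysG.OK := sysG_ok Y.okW DU.e3d_all e4d_all

/-- `r` is the power at the level `nu`, `P` the list of pieces -/
theorem Hy.ewP (h : Hy tn t) {TT : BT TO} (r : ℕ) (P : List PC) (d0 : 0 < d)
    (d1 : tn + d ≤ 500000) (n0 : 16 ≤ nu) (hc : ctE tn r nu d = true)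
    (hT : ttB tn nu d P TT = true) : Prok t (ewP tn nu d TT) :=
  ewP_ok h.h1 h.h2 cut2_all (leafSG okSysG) (leafS2G okSysG) d0 d1 n0
    (crs_G (ctE_ok h.h1 h.h2 _ _ _ hc)) (ttB_ok hT)

theorem it5_ok {i2 i3 iu i8 : Item} (h2 : Itok t i2) (h3 : Itok t i3) (hu : Itok t iu)
    (h8 : Itok t i8) : (it5 i2 i3 iu i8).All (Itok t) :=
  ⟨⟨⟨kill_it t, small_it t, child_it t⟩, h2, hu⟩, h3, h8⟩

theorem ia5_ok {i2 i3 iu i8 : AItem} (h2 : AOK t i2) (h3 : AOK t i3) (hu : AOK t iu)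
    (h8 : AOK t i8) : (ia5 i2 i3 iu i8).All (AOK t) :=
  ⟨⟨⟨(killP_ok t).ia, (smallP_ok t).ia, ofI_ok (child_it t)⟩, h2, hu⟩, h3, h8, ofI_ok (kill_it t)⟩

end Pool.Agent.MP_c853c5_nt.X
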