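import Pool.Agent.MP_c853c5_nt.X.E2D

/-!
Uniform leaves at a raised level (definitions only).
-/

set_option autoImplicit false

namespace Pool.Agent.MP_c853c5_nt.X

/-- a tooth: number of further primes, power, lower end, largest level, upper constant -/
structure TO where
  j : ℕ
  r : ℕ
  lo : ℕ
  zm : ℕ
  E : ℕ

def put4 (G i c : ℕ) : ℕ := Nat.xor G (Nat.shiftLeft (Nat.xor (d4 G i) c) (Nat.mul 4 i))

/-- the rows of the moments; the labels `g` and `g + 8` have the same weight -/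
noncomputable def ew1 (tn d : ℕ) (f g : Bool) : List (ℕ × ℕ) :=
  cnd f
    ((43556144263954337957018856884440169201664, 4000000 - (7 * tn + 4 * d + 132)) :: cnd g
      [(2658780510123490172534397276614823936, 2000000 - (3 * tn + 2 * d + 34)),
        (43561461824974584937363925678993398849536, 4000000 - (5 * tn + 4 * d + 132))]
      [(2658780510123490172534397276614823936, tn - 32)])
    [(43556144263954337957018856884440169201664, tn - 128),
      (2658780510123490172534397276614823936, cnd g (2000000 - (3 * tn + 2 * d + 34)) (tn - 32))]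

def ew2 (tn d : ℕ) : List (ℕ × ℕ) :=
  [(1298074214633706907132624082321408, 2000000 - (3 * tn + 2 * d + 66))]

noncomputable def ewG (S : NS) (i j G : ℕ) (sub : Bool) : Bool :=
  band (band (band (Nat.ble i j) (Nat.blt j S.k))
      (band (Nat.blt 0 (get S.kd i)) (Nat.blt 0 (get S.kd j))))
    (allN (fun m => cnd (bor (Nat.beq m i) (Nat.beq m j)) (Nat.beq (d4 G m) 4)
      (band (Nat.blt (Nat.mod (d4 G m) 8) (cnd (Nat.beq i j) 4 2))
        (bnot (band sub (Nat.beq (d4 G m) 8))))) S.k)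

/-- the slanted row for a level that is a link -/
noncomputable def slR (S : NS) (G c e q : ℕ) (L : List Rw) (K : List Rw → ℕ) : ℕ :=
  cnd (Nat.ble q 16)
    (force (put4 G (Nat.pred q) (cnd (Nat.blt (d4 G (Nat.pred q)) 4) 5 6)) fun G3 =>
      force (Nat.mul 12 (d4 G3 0)) fun g0 => mkRs S G3 g0 L [(c, e)] K)
    (K L)

/-- code: blocks `i ≤ j`, three flags, `5` bits for the tooth, `17` bits `z` unless the third
flag is set, labels -/
noncomputable def ewP (tn0 nu d0 : ℕ) (TT : BT TO) : Prov := fun S s K =>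
  force tn0 fun tn => force d0 fun d => force (Nat.mod s 16) fun i =>
  force (Nat.mod (Nat.shiftRight s 4) 16) fun j =>
  force (Nat.mod (Nat.shiftRight s 11) 32) fun n =>
  TO.rec (motive := fun _ => ℕ) (fun J r lo zm E =>
    force (cnd (bit s 10) zm (Nat.mod (Nat.shiftRight s 16) 131072)) fun z =>
    force (Nat.shiftRight s (cnd (bit s 10) 16 33)) fun u =>
    force (Nat.mul 4 S.k) fun w => force (Nat.mod u (one w)) fun G =>
    force (Nat.shiftRight u w) fun v => force (Nat.mul 12 (d4 G 0)) fun g0 =>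
    force (get S.kd i) fun p => force (get S.kd j) fun q0 =>
    force (cnd (Nat.beq p q0) 17 q0) fun q => force (mx p q0) fun zc =>
    force (Nat.succ (Nat.mul r J)) fun cz =>
    force (Nat.add (Nat.mul r 1152921573343105025) (Nat.mul cz 4723519404374252060672)) fun c =>
    force (Nat.sub E (Nat.add (Nat.mul 16 r) (Nat.mul 2 cz))) fun e =>
    grd (band (ewG S i j G (bit s 10)) (Nat.ble z zm))
      (lkR S z p [] fun L1 => lkR S z q L1 fun L2 => slR S G c e q L2 fun L3 =>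
        slR S G c e p L3 fun L4 => mkRs S G g0 L4
          ((5445847423328582152227888928193112965120, Nat.sub 999984 lo) ::
            (68736258049, Nat.sub (cnd (Nat.blt nu zc) (Nat.div (Nat.sub E (Nat.mul cz zc)) r)
              (Nat.add tn d)) 16) ::
            cnd (bit s 10) (cnd (Nat.beq i j) (ew1 tn d (bit s 8) (bit s 9)) (ew2 tn d))
              ((79228162514264337593543950337,
                  Nat.sub (Nat.add tn d) (Nat.add (Nat.mul J z) 16)) ::
                cnd (Nat.beq i j) (ew1 tn d (bit s 8) (bit s 9)) (ew2 tn d)))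
          fun N => K N v)) (TT.find n)

/-- all rows of the provider hold on the box -/
noncomputable def pvR (p : Prov) : Rule := fun _ _ _ S s =>
  fltP p S s fun L _ => List.rec (motive := fun _ => ℕ) 0 (fun _ _ _ => INF) L

/-- as `it2`, with free slots `4` to `6` and `8` -/
noncomputable def it5 (i2 i3 iu i8 : Item) : BT Item :=
  .nd 7 (.nd 3 (.nd 1 (.lf killI) (.nd 1 (.lf (ofP smallP)) (.lf childI)))
      (.nd 1 (.lf i2) (.lf iu)))
    (.nd 1 (.lf i3) (.lf i8))

/-- as `ia2`, with free slots `4` to `6` and `8` -/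
noncomputable def ia5 (i2 i3 iu i8 : AItem) : BT AItem :=
  .nd 7 (.nd 3 (.nd 1 (.lf (ofY killP)) (.nd 1 (.lf (ofY smallP)) (.lf (ofI childI))))
      (.nd 1 (.lf i2) (.lf iu)))
    (.nd 1 (.lf i3) (.nd 1 (.lf i8) (.lf (ofI killI))))

/-! ### the test of a table -/

/-- a piece: right end, two powers (minus one), width, lower end of the window -/
structure PC where
  q : ℕ
  r : ℕ
  n : ℕ
  k : ℕ
  L : ℕ

def pcB (tn q0 : ℕ) (c : PC) : Bool :=
  decide (400000 ≤ tn ∧ tn ≤ 500000 ∧ 1 ≤ c.r ∧ c.r ≤ 63 ∧ 1 ≤ c.n ∧ c.n ≤ 63 ∧ c.q ≤ 100000 ∧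
    (4 * c.n + 2) * c.k + 4 * c.q + 3 * tn + 200 ≤ 2000000 ∧
    c.k + 100 + 2 * c.n * tn ≤ c.n * 1000000 ∧ 2 * c.n * c.q + 100 + c.k ≤ tn ∧
    c.k + 2600 ≤ q0 ∧ (c.n + 1) * c.k + 100 ≤ c.n * q0 ∧ 2 * c.k + 1000000 ≤ 2 * q0 + 2 * tn ∧
    (c.r + 1) * (2 * c.r * c.q + 100) + c.r * c.q ≤ (c.r + 1) * tn ∧ (c.r + 1) * 3100 ≤ q0 ∧
    (tn ≤ c.L + c.k ∨ c.q + 2 * tn ≤ 1000000 + 2 * c.k ∧
      (c.r + 1) * tn + 100 ≤ (c.r + 1) * c.L + c.r * q0))

def tchn (tn : ℕ) (x : TO) : List PC → ℕ → Bool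
  | [], q0 => decide (x.zm ≤ q0)
  | c :: P, q0 => decide (x.zm ≤ q0) ||
      pcB tn q0 c && decide (x.r ≤ c.r + 1 ∧ c.L ≤ x.lo + x.j * q0) && tchn tn x P c.q

def toB (tn nu d : ℕ) (P : List PC) (x : TO) : Bool :=
  decide (1 ≤ x.r ∧ x.E + 100 + x.r * tn ≤ x.r * 1000000 ∧ x.E ≤ nu + x.r * (tn + d) ∧
    x.lo ≤ 999984 ∧ (x.r * x.j + 1) * x.zm + 16 * x.r ≤ x.E ∧ 2 ≤ x.zm ∧
    x.r + (x.r * x.j + 1) < 4096 ∧ x.j * x.zm + 16 ≤ tn + d) && tchn tn x P nu

def ttB (tn nu d : ℕ) (P : List PC) : BT TO → Bool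
  | .lf x => toB tn nu d P x
  | .nd _ l r => ttB tn nu d P l && ttB tn nu d P r

end Pool.Agent.MP_c853c5_nt.X
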