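import Pool.Agent.MP_c853c5_nt.X.M2A

/-!
Tail bounds for the volume of a box below a hyperplane.
-/

set_option autoImplicit false

namespace Pool.Agent.MP_c853c5_nt.X

variable {f : ℝ → ℝ} {l : List ℝ} {H P W a b : ℝ}

lemma dif_perm {l' : List ℝ} (h : l.Perm l') : dif l f = dif l' f := by
  induction h with
  | nil => rfl
  | cons x _ ih => exact funext fun s => by rw [dif, dif, ih]
  | swap x y l => exact funext fun s => by simp only [dif, sub_right_comm s x y]; ring
  | trans _ _ h1 h2 => exact h1.trans h2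

lemma dif_neg (hl : ∀ x ∈ l, 0 ≤ x) (m : ℕ) : ∀ s ≤ 0, dif l (tp (m + 1)) s = 0 := by
  induction l with
  | nil => exact fun s h => by simp [dif, tp, max_eq_right h]
  | cons x l ih =>
    rw [List.forall_mem_cons] at hl
    exact fun s h => by rw [dif, ih hl.2 _ h, ih hl.2 _ (by linarith [hl.1]), sub_zero]

lemma dif_pos (hl : ∀ x ∈ l, 0 ≤ x) {m : ℕ} (hm : l.length ≤ m + 1) (s : ℝ) :
    0 ≤ dif l (tp (m + 1)) s :=
  (dif_neg hl m _ (min_le_right s 0)).ge.trans (dif_mono' l hl _ hm (min_le_left _ _))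

lemma le_of_der {f' : ℝ → ℝ} (h : ∀ u, HasDerivAt f (f' u) u) (hab : a ≤ b)
    (h0 : ∀ u, a < u → u < b → 0 ≤ f' u) : f a ≤ f b := by
  rcases hab.eq_or_lt with rfl | e
  · rfl
  obtain ⟨c, hc, g⟩ := exists_hasDerivAt_eq_slope f f' e
    (fun z _ => (h z).continuousAt.continuousWithinAt) fun z _ => h z
  have := h0 c hc.1 hc.2
  rw [g, le_div_iff₀ (sub_pos.2 e)] at this
  linarith

lemma sym2 (l : List ℝ) : ∀ s, dif l (tp (l.length + 2)) s + dif l (tp (l.length + 2)) (l.sum - s) =
    l.prod * ((s - l.sum / 2) ^ 2 / 2 + (l.map fun x => x * x).sum / 24) := by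
  induction l with
  | nil =>
    intro s
    simp only [dif, tp, List.length_nil, List.sum_nil, List.prod_nil, List.map_nil, zero_sub]
    rcases le_total s 0 with h | h
    · rw [max_eq_right h, max_eq_left (neg_nonneg.2 h)]
      norm_num [Nat.factorial]
    · rw [max_eq_left h, max_eq_right (neg_nonpos.2 h)]
      norm_num [Nat.factorial]
  | cons x l ih =>
    have d := dif_deriv (tp_deriv (l.length + 1)) l
    have e : ∀ s, HasDerivAt (fun s => dif l (tp (l.length + 3)) s -
        dif l (tp (l.length + 3)) (l.sum - s) - l.prod * ((s - l.sum / 2) ^ 3 / 6 +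
          (l.map fun x => x * x).sum / 24 * (s - l.sum / 2))) 0 s := fun s => by
      have i := (hasDerivAt_id s).sub_const (l.sum / 2)
      refine (((d s).sub ((d (l.sum - s)).comp_const_sub l.sum s)).sub
        ((((i.fun_pow 3).div_const 6).add (i.const_mul _)).const_mul l.prod)).congr_deriv ?_
      rw [sub_neg_eq_add, ih]
      simp only [id]
      push_cast
      ring
    have c := is_const_of_deriv_eq_zero (fun s => (e s).differentiableAt) fun s => (e s).deriv
    intro s
    have g := c s (s - x)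
    simp only [dif, List.length_cons, List.sum_cons, List.prod_cons, List.map_cons]
    rw [show x + l.sum - s = l.sum - (s - x) by ring, show l.sum - (s - x) - x = l.sum - s by ring]
    linear_combination g

lemma sym1 (l : List ℝ) (s : ℝ) : dif l (tp (l.length + 1)) s -
    dif l (tp (l.length + 1)) (l.sum - s) = l.prod * (s - l.sum / 2) := by
  have d := dif_deriv (tp_deriv l.length) l
  have e := (d s).add ((d (l.sum - s)).comp_const_sub l.sum s)
  have i := (hasDerivAt_id s).sub_const (l.sum / 2)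
  have e' := ((((i.fun_pow 2).div_const 2).add_const ((l.map fun x => x * x).sum / 24)).const_mul
    l.prod).congr_of_eventuallyEq (Filter.Eventually.of_forall (sym2 l))
  have := e.unique e'
  simp only [id] at this
  push_cast at this
  linear_combination this

/-- the volume below the level `s` -/
noncomputable def vb (l : List ℝ) : ℝ → ℝ := dif l (tp l.length)

lemma sym0 (x : ℝ) (l : List ℝ) (s : ℝ) :
    vb (x :: l) s + vb (x :: l) ((x :: l).sum - s) = (x :: l).prod := by
  simp only [vb, dif, List.length_cons, List.sum_cons, List.prod_cons]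
  rw [show x + l.sum - s = l.sum - (s - x) by ring, show l.sum - (s - x) - x = l.sum - s by ring]
  linear_combination sym1 l s - sym1 l (s - x)

lemma vb_lip (hl : ∀ x ∈ l, 0 ≤ x) (hW : W = 0 ∨ W ∈ l) (hab : a ≤ b) :
    W * (vb l b - vb l a) ≤ l.prod * (b - a) := by
  classical
  rcases hW with rfl | hW
  · rw [zero_mul]
    exact mul_nonneg (List.prod_nonneg hl) (sub_nonneg.2 hab)
  have p := List.perm_cons_erase hW
  have m := dif_mono' (l.erase W) (fun x hx => hl x (List.mem_of_mem_erase hx)) _ (Nat.le_succ _)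
  rw [vb, dif_perm p, p.length_eq, p.prod_eq, List.prod_cons, mul_assoc]
  refine mul_le_mul_of_nonneg_left ?_ (hl W hW)
  have h1 := m (sub_le_sub_right hab W)
  have h2 := m (sub_le_sub_left hab (l.erase W).sum)
  simp only [dif, List.length_cons]
  linear_combination h1 + h2 + sym1 (l.erase W) b - sym1 (l.erase W) a

lemma cvx_inc (h : ConvexOn ℝ (Set.Iic H) f) {u v η : ℝ} (h1 : u ≤ v) (h2 : 0 ≤ η)
    (h3 : v + η ≤ H) : f (u + η) + f v ≤ f u + f (v + η) := by
  rcases h2.eq_or_lt with rfl | e
  · simp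
  have w : 0 < v + η - u := by linarith
  have m1 : u ∈ Set.Iic H := show u ≤ H by linarith
  have c1 := div_nonneg (sub_nonneg.2 h1) w.le
  have c2 := div_nonneg h2 w.le
  have c3 : (v - u) / (v + η - u) + η / (v + η - u) = 1 := by field_simp; ring
  have g1 := h.2 m1 h3 c1 c2 c3
  have g2 := h.2 m1 h3 c2 c1 (by rwa [add_comm])
  simp only [smul_eq_mul] at g1 g2
  rw [show (v - u) / (v + η - u) * u + η / (v + η - u) * (v + η) = u + η by field_simp; ring] at g1
  rw [show η / (v + η - u) * u + (v - u) / (v + η - u) * (v + η) = v by field_simp; ring] at g2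
  linear_combination g1 + g2 + (f u + f (v + η)) * c3

lemma cvx_sym (h : ConvexOn ℝ (Set.Iic H) f) (hs : ∀ s, f s + f (2 * H - s) = P) {x : ℝ}
    (hx : 0 ≤ x) (hab : a ≤ b) (hb : b ≤ H + x / 2) : f a - f (a - x) ≤ f b - f (b - x) := by
  rcases le_total b H with c | c
  · have := cvx_inc h (u := a - x) (v := a) (η := b - a) (by linarith) (by linarith) (by linarith)
    rw [show a - x + (b - a) = b - x by ring, add_sub_cancel] at this
    linarith
  rcases le_total H a with d | d
  · have := cvx_inc h (u := a - x) (v := 2 * H - b) (η := b - a) (by linarith) (by linarith)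
      (by linarith)
    rw [show a - x + (b - a) = b - x by ring, show 2 * H - b + (b - a) = 2 * H - a by ring] at this
    linarith [hs a, hs b]
  have g1 := cvx_inc h (u := a - x) (v := a) (η := H - a) (by linarith) (by linarith) (by linarith)
  have g2 := cvx_inc h (u := H - x) (v := 2 * H - b) (η := b - H) (by linarith) (by linarith)
    (by linarith)
  have g3 := hs H
  rw [show a - x + (H - a) = H - x by ring, add_sub_cancel] at g1
  rw [show H - x + (b - H) = b - x by ring, show 2 * H - b + (b - H) = H by ring] at g2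
  rw [show 2 * H - H = H by ring] at g3
  linarith [hs b]

lemma vb_cvx (l : List ℝ) : ∀ x, (∀ y ∈ x :: l, 0 ≤ y) →
    ConvexOn ℝ (Set.Iic ((x :: l).sum / 2)) (vb (x :: l)) := by
  induction l with
  | nil =>
    intro x hx
    have := hx x (by simp)
    refine ((convexOn_id (convex_Iic _)).sup (convexOn_const 0 (convex_Iic _))).congr fun s hs => ?_
    have : s - x ≤ 0 := by simp at hs; linarith
    simp [vb, dif, tp, this]
  | cons y l ih =>
    intro x hx
    rw [List.forall_mem_cons] at hx
    have d := dif_deriv (tp_deriv l.length) (x :: y :: l)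
    refine MonotoneOn.convexOn_of_deriv (convex_Iic _)
      (fun z _ => (d z).continuousAt.continuousWithinAt)
      (fun z _ => (d z).differentiableAt.differentiableWithinAt) fun a _ b hb hab => ?_
    have := interior_subset hb
    refine (d a).deriv.trans_le (le_trans ?_ (d b).deriv.ge)
    exact cvx_sym (ih y hx.2) (fun s => by rw [mul_div_cancel₀ _ two_ne_zero]; exact sym0 y l s)
      hx.1 hab (by simp only [Set.mem_Iic, List.sum_cons] at this ⊢; linarith)

lemma cvx_supp (h : ConvexOn ℝ (Set.Iic H) f) (ha : a < H) :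
    ∃ m, ∀ u ≤ H, f a + m * (u - a) ≤ f u := by
  have k : ∀ v ≤ H, a < v → ∀ z ∈ (fun u => (f a - f u) / (a - u)) '' Set.Iio a,
      z ≤ (f v - f a) / (v - a) := by
    rintro v h1 h2 _ ⟨u, hu, rfl⟩
    exact h.slope_mono_adjacent (hu.le.trans ha.le) h1 hu h2
  refine ⟨sSup ((fun u => (f a - f u) / (a - u)) '' Set.Iio a), fun u hu => ?_⟩
  rcases lt_trichotomy u a with c | rfl | c
  · have := le_csSup ⟨_, k H le_rfl ha⟩ ⟨u, c, rfl⟩
    simp only [div_le_iff₀ (sub_pos.2 c)] at this
    linarith
  · simp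
  · have := csSup_le (Set.Nonempty.image _ Set.nonempty_Iio) (k u hu c)
    rw [le_div_iff₀ (sub_pos.2 c)] at this
    linarith

/-- the inequality of Gauss -/
lemma vb_gauss {x t : ℝ} (hl : ∀ y ∈ x :: l, 0 ≤ y) (ht : 0 < t) :
    54 * t ^ 2 * vb (x :: l) ((x :: l).sum / 2 - t) ≤
      (x :: l).prod * ((x :: l).map fun y => y * y).sum := by
  have g := sym2 (x :: l) ((x :: l).sum / 2)
  rw [show (x :: l).sum - (x :: l).sum / 2 = (x :: l).sum / 2 by ring] at g
  obtain ⟨m, hm⟩ := cvx_supp (vb_cvx l x hl) (sub_lt_self _ ht)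
  generalize (x :: l).sum / 2 = H at *
  generalize vb (x :: l) (H - t) = F at *
  have i := fun c u : ℝ => (hasDerivAt_id u).sub_const c
  have h1 : ∀ u, H - 3 * t / 2 ≤ u → u ≤ H → 0 ≤ dif (x :: l) (tp (l.length + 2)) u -
      (F * (u - (H - 3 * t / 2)) + m * ((u - (H - t)) ^ 2 / 2 - t ^ 2 / 8)) := fun u u1 u2 => by
    have g1 := le_of_der (fun u => (dif_deriv (tp_deriv l.length) (x :: l) u).fun_sub
      (((i (H - 3 * t / 2) u).const_mul F).fun_add (((((i (H - t) u).fun_pow 2).div_const
        2).sub_const (t ^ 2 / 8)).const_mul m))) u1 fun v _ v2 => by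
      have := hm v (v2.le.trans u2)
      simp only [vb, List.length_cons, id] at this ⊢
      push_cast
      linear_combination this
    have g2 := dif_pos hl (m := l.length + 1) (by simp) (H - 3 * t / 2)
    simp only [id] at g1
    linear_combination g1 + g2
  have h2 := le_of_der (fun u => (dif_deriv (tp_deriv (l.length + 1)) (x :: l) u).sub
    ((((((i (H - 3 * t / 2) u).fun_pow 2).div_const 2).const_mul F).add
      (((((i (H - t) u).fun_pow 3).div_const 6).sub ((i (H - t) u).const_mul (t ^ 2 / 8))).const_mul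
        m)))) (show H - 3 * t / 2 ≤ H by linarith) fun v v1 v2 => by
    have := h1 v v1.le v2.le
    simp only [id]
    push_cast
    linear_combination this
  have h3 := dif_pos hl (m := l.length + 2) (by simp) (H - 3 * t / 2)
  simp only [Pi.sub_apply, Pi.add_apply, id, List.length_cons] at h2 g
  linear_combination 48 * h2 + 48 * h3 + 24 * g

lemma tail_gen {z : ℝ} (h : ConvexOn ℝ (Set.Iic H) f) (h0 : ∀ s ≤ 0, f s = 0) (hH : 2 * f H = P)
    (hP : ∀ s, f s ≤ P) (hL : ∀ u v, u ≤ v → W * (f v - f u) ≤ P * (v - u)) (hW : 0 ≤ W)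
    (z0 : 0 < z) (z1 : z ≤ H) (ha : 0 ≤ a) (hb : 0 ≤ b) (h1 : f z ≤ P * (a * z))
    (h2 : 1 ≤ a * (H + W / 2) + b * (H + W / 2 - z)) (s : ℝ) :
    f s ≤ P * (a * max s 0 + b * max (s - z) 0) := by
  have P0 : 0 ≤ P := (h0 0 le_rfl).ge.trans (hP 0)
  have cv : ∀ u v w, u ≤ v → v ≤ w → w ≤ H → f v * (w - u) ≤ f u * (w - v) + f w * (v - u) :=
    fun u v w g1 g2 g3 => by
      rcases g1.eq_or_lt with rfl | e1
      · simp
      rcases g2.eq_or_lt with rfl | e2
      · simp
      have := h.slope_mono_adjacent (x := u) (z := w) (g1.trans (g2.trans g3)) g3 e1 e2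
      rw [div_le_div_iff₀ (sub_pos.2 e1) (sub_pos.2 e2)] at this
      linarith
  rcases le_total s 0 with c | c
  · rw [h0 s c]
    positivity
  rw [max_eq_left c]
  rcases le_total s z with d | d
  · rw [max_eq_right (sub_nonpos.2 d), mul_zero, add_zero]
    have := cv 0 s z c d z1
    rw [h0 0 le_rfl] at this
    refine le_of_mul_le_mul_right ?_ z0
    nlinarith [mul_le_mul_of_nonneg_right h1 c]
  rw [max_eq_left (sub_nonneg.2 d)]
  rcases le_total (H + W / 2) s with e | e
  · refine (hP s).trans (le_mul_of_one_le_right P0 (h2.trans ?_))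
    gcongr
  rcases d.eq_or_lt with rfl | d'
  · simpa using h1
  have k : f s * (H + W / 2 - z) ≤ f z * (H + W / 2 - s) + P * (s - z) := by
    rcases le_total s H with g | g
    · linear_combination cv z s H d g le_rfl + 1 / 2 * hL z s d + (s - z) / 2 * hH
    rcases hW.eq_or_lt with rfl | w
    · rw [show s = H by linarith]
      nlinarith [mul_nonneg P0 (sub_nonneg.2 z1)]
    refine le_of_mul_le_mul_left ?_ w
    have g1 := mul_le_mul_of_nonneg_right (hL H s g) (show 0 ≤ H + W / 2 - z by linarith)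
    have g2 := mul_le_mul_of_nonneg_right (hL z H z1) (sub_nonneg.2 e)
    linear_combination g1 + g2 + W * (s - z) / 2 * hH
  refine le_of_mul_le_mul_right (k.trans ?_) (show 0 < H + W / 2 - z by linarith)
  linear_combination mul_le_mul_of_nonneg_right h1 (sub_nonneg.2 e) +
    mul_le_mul_of_nonneg_left h2 (mul_nonneg P0 (sub_nonneg.2 d))

/-- the bound with two slopes -/
theorem vb_tail {z : ℝ} (hl : ∀ x ∈ l, 0 ≤ x) (hW : W = 0 ∨ W ∈ l) (z0 : 0 < z)
    (z1 : 2 * z < l.sum) (ha : 0 ≤ a) (hb : 0 ≤ b)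
    (h1 : 1 ≤ a * l.sum ∨ 2 * (l.map fun x => x * x).sum ≤ a * (27 * z * (l.sum - 2 * z) ^ 2))
    (h2 : 2 ≤ a * (l.sum + W) + b * (l.sum + W - 2 * z)) (s : ℝ) :
    vb l s ≤ l.prod * (a * max s 0 + b * max (s - z) 0) := by
  obtain _ | ⟨x, l⟩ := l
  · simp at z1
    linarith
  have c := vb_cvx l x hl
  have e0 : ∀ s ≤ 0, vb (x :: l) s = 0 := dif_neg hl _
  have eH : 2 * vb (x :: l) ((x :: l).sum / 2) = (x :: l).prod := by
    have := sym0 x l ((x :: l).sum / 2)
    rwa [show (x :: l).sum - (x :: l).sum / 2 = (x :: l).sum / 2 by ring, ← two_mul] at this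
  have P0 := List.prod_nonneg hl
  refine tail_gen c e0 eH (fun s => ?_) (fun u v => vb_lip hl hW) (hW.elim Eq.ge (hl W)) z0
    (by linarith) ha hb ?_ (by linarith) s
  · linarith [sym0 x l s, show 0 ≤ vb (x :: l) _ from dif_nonneg _ hl ((x :: l).sum - s)]
  rcases h1 with h1 | h1
  · have := c.slope_mono_adjacent (x := 0) (y := z) (z := (x :: l).sum / 2)
      (show (0 : ℝ) ≤ _ by linarith) (Set.mem_Iic.2 le_rfl) z0 (by linarith)
    rw [e0 0 le_rfl, div_le_div_iff₀ (by linarith) (by linarith)] at this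
    refine le_of_mul_le_mul_right ?_ (show 0 < (x :: l).sum by linarith)
    linear_combination 2 * this + z * eH + mul_le_mul_of_nonneg_left h1 (mul_nonneg P0 z0.le)
  · have := vb_gauss hl (t := (x :: l).sum / 2 - z) (by linarith)
    rw [sub_sub_cancel] at this
    refine le_of_mul_le_mul_right ?_ (show 0 < 27 * ((x :: l).sum - 2 * z) ^ 2 by
      have := sub_pos.2 z1
      positivity)
    linear_combination 2 * this + mul_le_mul_of_nonneg_left h1 P0

end Pool.Agent.MP_c853c5_nt.X
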