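import Pool.Agent.MP_c853c5_nt.X.Gm
import Pool.Agent.MP_c853c5_nt.X.GaA

/-!
The mass of the part of a cell on one side of a hyperplane.
-/

set_option autoImplicit false

open Finset Filter Function

namespace Pool.Agent.MP_c853c5_nt.X

open Pool.Agent.MP_c853c5_nt.S Pool.Agent.MP_c853c5_nt.REG Pool.Agent.MP_c853c5_nt.L

def MQ (S : NS) (Q : Pt → Prop) (m : ℝ) : Prop := Mass (SF S.k S.kind Q) m

variable {g : Gr} {S : NS} {A : ℕ → Finset ℕ} {Q Q' : Pt → Prop} {m m' R : ℝ} {r W C : ℕ}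

lemma MQ.anti (h : MQ S Q' m) (e : ∀ a, Q a → Q' a) : MQ S Q m :=
  h.of_le (Eventually.of_forall fun x n _ => SF_mono e x n)

lemma MQ.zero (e : ∀ a, ¬ Q a) : MQ S Q 0 :=
  mass_zero.of_le (Eventually.of_forall fun x n _ =>
    (SF_mono (Ω := fun _ => False) e x n).trans (by simp [SF]))

lemma MQ.or (h : MQ S Q m) (h' : MQ S Q' m') : MQ S (fun a => Q a ∨ Q' a) (m + m') := by
  classical
  refine (h.add h').of_le (Eventually.of_forall fun x n _ => ?_)
  simp only [SF, ArithmeticFunction.add_apply, ArithmeticFunction.coe_mk]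
  rw [← Nat.cast_add]
  refine Nat.cast_le.2 ((card_le_card fun μ hμ => ?_).trans (card_union_le _ _))
  simp only [mem_union, mem_filter] at hμ ⊢
  tauto

lemma MQ.sum {P : ℕ → Pt → Prop} {w : ℕ → ℝ} (n : ℕ) (h : ∀ c < n, MQ S (P c) (w c)) :
    MQ S (fun a => ∃ c < n, P c a) (∑ c ∈ range n, w c) := by
  induction n with
  | zero => exact MQ.zero (by simp)
  | succ n ih =>
    rw [sum_range_succ]
    refine ((ih fun c hc => h c (by omega)).or (h n (by omega))).anti fun a ⟨c, h1, h2⟩ => ?_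
    rcases Nat.lt_succ_iff_lt_or_eq.1 h1 with e | rfl
    exacts [Or.inl ⟨c, e, h2⟩, Or.inr h2]

lemma subN_and (S : NS) (A : ℕ → Finset ℕ) (Q : Pt → Prop) :
    SubN fun lo hi m => MQ S (fun a => Reg S A lo hi a ∧ Q a) m := by
  refine ⟨fun lo hi j c m m' _ h1 h2 => (h1.or h2).anti fun a ⟨⟨g2, g3⟩, g4⟩ => ?_,
    fun _ _ _ _ h h' => h'.mono h, fun lo hi m h ε hε => ?_⟩
  · rcases le_total (Y A a j) c with e | e
    · refine Or.inl ⟨⟨g2, fun i i1 i2 => ⟨(g3 i i1 i2).1, ?_⟩⟩, g4⟩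
      by_cases q : i = j
      · rwa [q, update_self]
      · rw [update_of_ne q]
        exact (g3 i i1 i2).2
    · refine Or.inr ⟨⟨g2, fun i i1 i2 => ⟨?_, (g3 i i1 i2).2⟩⟩, g4⟩
      by_cases q : i = j
      · rwa [q, update_self]
      · rw [update_of_ne q]
        exact (g3 i i1 i2).1
  · simpa only [add_assoc, add_halves] using h (ε / 2) (by linarith) (ε / 2) (by linarith)

/-! ### the steps of a row -/

section

variable {L H u v : ℕ → ℝ}

lemma rowD_sum (φ : ℝ → ℝ) (h0 : φ 0 = 0) (r : ℕ) : ∀ D, ((rowD L H u v r D).map φ).sum =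
    ∑ j ∈ range r, φ ((u (j + 1) + v (j + 1)) * (H (j + 1) - L (j + 1))) + (D.map φ).sum := by
  induction r with
  | zero => simp [rowD]
  | succ r ih =>
    intro D
    rw [rowD, ih, sum_range_succ]
    split_ifs with c
    · rw [c, zero_mul, h0, add_zero]
    · rw [List.map_cons, List.sum_cons, add_assoc]

lemma rowD_prod (r : ℕ) : ∀ D, (∏ j ∈ range r, fac L H (fun _ => 0) (fun _ => 0) u v (j + 1)) *
    (rowD L H u v r D).prod = (∏ j ∈ range r, (H (j + 1) - L (j + 1))) * D.prod := by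
  induction r with
  | zero => simp [rowD]
  | succ r ih =>
    intro D
    rw [rowD, prod_range_succ, prod_range_succ, mul_right_comm, ih, fac]
    split_ifs with c
    · simp only [gw, zero_mul, neg_zero, sub_zero, Real.exp_zero]
      ring
    · simp only [gw, zero_mul, neg_zero, sub_zero, Real.exp_zero, max_self, List.prod_cons]
      field_simp

lemma rowD_mem (r : ℕ) : ∀ D x, x ∈ rowD L H u v r D ↔ x ∈ D ∨ ∃ j < r,
    u (j + 1) + v (j + 1) ≠ 0 ∧ x = (u (j + 1) + v (j + 1)) * (H (j + 1) - L (j + 1)) := by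
  induction r with
  | zero => simp [rowD]
  | succ r ih =>
    intro D x
    rw [rowD, ih, Nat.exists_lt_succ_right]
    split_ifs with c
    · simp [c]
    · simp only [List.mem_cons, ne_eq, c, not_false_eq_true, true_and]
      rw [or_comm (b := x ∈ D), or_assoc, or_comm (a := x = _)]

end

/-! ### the weights -/

/-- the ends of a cell -/
noncomputable def fL (g : Gr) (S : NS) (c j : ℕ) : ℝ :=
  ((get S.lo j + cx g.bs j c * get g.h j : ℕ) : ℝ) / SC

noncomputable def fH (g : Gr) (S : NS) (c j : ℕ) : ℝ :=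
  ((get S.lo j + (cx g.bs j c + 1) * get g.h j : ℕ) : ℝ) / SC

lemma fH_sub (c j : ℕ) : fH g S c j - fL g S c j = get g.h j / SC := by
  rw [fH, fL]
  push_cast
  ring

noncomputable def gdf (g : Gr) (S : NS) (W C j : ℕ) : ℕ :=
  gp S W C j - gq g S W C j + (gq g S W C j - gp S W C j)

/-- the largest weight on a cell -/
noncomputable def sp (g : Gr) (S : NS) (W C c j : ℕ) : ℝ :=
  8192 * ((wx (b3 g.bs j) (gp S W C j) (gq g S W C j) (cx g.bs j c) + gdf g S W C j : ℕ) : ℝ) /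
    (2 * 2 ^ b3 g.bs j * VV)

lemma node_sup (hI : Inv S A) (hg : g.OK S) {j : ℕ} (h1 : 1 ≤ j) (hj : j < S.k)
    (e : get S.lo j < get S.hi j) (c : ℕ) {y : ℝ} (y1 : fL g S c j ≤ y) (y2 : y ≤ fH g S c j)
    (y3 : y ≤ S.H j) :
    gw (slp S.k W C j) (slp S.k W C (get S.par j)) (S.L j) (S.H j) y y ≤ sp g S W C c j := by
  have s0 := SC_pos
  have v0 := VV_pos
  have w0 := e.le
  have g1 := eX_ge (W := W) (C := C) hj w0
  have g2 := eX_ge (W := W) (C := C) ((hI.par j h1 hj).trans hj) w0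
  have g3 : VV * gw (slp S.k W C j) (slp S.k W C (get S.par j)) (S.L j) (S.H j) (S.H j) (S.H j) ≤
      eX W C j (get S.hi j - get S.lo j) := by
    rw [gw, sub_self, mul_zero, sub_zero]
    exact g1
  have g4 : VV * gw (slp S.k W C j) (slp S.k W C (get S.par j)) (S.L j) (S.H j) (S.L j) (S.L j) ≤
      eX W C (get S.par j) (get S.hi j - get S.lo j) := by
    rw [gw, sub_self, mul_zero, neg_zero, zero_sub]
    exact g2
  have x1 : cx g.bs j c + 1 ≤ 2 ^ b3 g.bs j := Nat.mod_lt _ (by positivity)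
  have c1 : get S.hi j - get S.lo j ≤ get g.h j * 2 ^ b3 g.bs j := by
    have := hg.cov j h1 hj
    omega
  have w1 : (0 : ℝ) < ((get S.hi j - get S.lo j : ℕ) : ℝ) := Nat.cast_pos.2 (by omega)
  have c2 : ((get S.hi j - get S.lo j : ℕ) : ℝ) ≤ get g.h j * 2 ^ b3 g.bs j := by exact_mod_cast c1
  have p1 := shr_ge (eX W C (get S.par j) (get S.hi j - get S.lo j))
  have q1 := shr_ge (eX W C j (get S.hi j - get S.lo j) +
    cdR ((eX W C j (get S.hi j - get S.lo j) - eX W C (get S.par j) (get S.hi j - get S.lo j)) *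
    (get g.wd j - (get S.hi j - get S.lo j))) (get S.hi j - get S.lo j))
  have q2 := le_cd ((eX W C j (get S.hi j - get S.lo j) -
    eX W C (get S.par j) (get S.hi j - get S.lo j)) * (get g.wd j - (get S.hi j - get S.lo j)))
    (get S.hi j - get S.lo j)
  have q3 := L.sub_le_cast (eX W C j (get S.hi j - get S.lo j))
    (eX W C (get S.par j) (get S.hi j - get S.lo j))
  rw [Nat.cast_add] at q1
  rw [Nat.cast_mul, hg.wd j hj, Nat.cast_sub c1, ← hg.wd j hj, div_le_iff₀ w1, hg.wd j hj,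
    Nat.cast_mul, Nat.cast_pow, Nat.cast_ofNat, ← hg.wd j hj] at q2
  change _ ≤ 8192 * (gp S W C j : ℝ) at p1
  change _ + (cd _ _ : ℝ) ≤ 8192 * (gq g S W C j : ℝ) at q1
  obtain ⟨z, rfl⟩ : ∃ z, y = S.L j + z / SC := ⟨(y - S.L j) * SC, by field_simp; ring⟩
  have g5 : S.H j = S.L j + ((get S.hi j - get S.lo j : ℕ) : ℝ) / SC := by
    rw [Nat.cast_sub w0, sub_div, NS.H, NS.L]
    ring
  rw [fL, Nat.cast_add, add_div, ← NS.L, add_le_add_iff_left, div_le_div_iff_of_pos_right s0] at y1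
  rw [fH, Nat.cast_add, add_div, ← NS.L, add_le_add_iff_left, div_le_div_iff_of_pos_right s0] at y2
  have z0 : 0 ≤ z := (Nat.cast_nonneg _).trans y1
  have k := gw_chord (s := slp S.k W C j) (p := slp S.k W C (get S.par j))
    (le_add_of_nonneg_right (div_nonneg z0 s0.le)) y3
  have d1 : (gp S W C j : ℝ) - gq g S W C j ≤ gdf g S W C j :=
    (L.sub_le_cast _ _).trans (Nat.cast_le.2 (Nat.le_add_right _ _))
  have d2 : (gq g S W C j : ℝ) - gp S W C j ≤ gdf g S W C j :=
    (L.sub_le_cast _ _).trans (Nat.cast_le.2 (Nat.le_add_left _ _))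
  rw [sp, wx, le_div_iff₀ (by positivity)]
  push_cast [Nat.cast_sub (show cx g.bs j c ≤ 2 ^ b3 g.bs j - 1 by omega),
    Nat.cast_sub (Nat.one_le_two_pow (n := b3 g.bs j))] at y1 y2 ⊢
  generalize gw _ _ (S.L j) (S.H j) (S.L j + z / SC) _ = G at *
  generalize gw _ _ (S.L j) (S.H j) (S.H j) _ = G1 at *
  generalize gw _ _ (S.L j) (S.H j) (S.L j) _ = G2 at *
  rw [g5, add_le_add_iff_left, div_le_div_iff_of_pos_right s0] at y3
  rw [g5, add_sub_cancel_left, add_sub_cancel_left, add_sub_add_left_eq_sub, ← sub_div,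
    ← mul_div_assoc, ← mul_div_assoc, ← mul_div_assoc, ← add_div,
    div_le_div_iff_of_pos_right s0] at k
  have n0 : (0 : ℝ) < 2 ^ b3 g.bs j := by positivity
  generalize ((get S.hi j - get S.lo j : ℕ) : ℝ) = w at *
  generalize (get g.h j : ℝ) = h at *
  generalize (2 : ℝ) ^ b3 g.bs j = n at *
  generalize (cx g.bs j c : ℝ) = x at *
  generalize (gp S W C j : ℝ) = p at *
  generalize (gq g S W C j : ℝ) = q at *
  generalize (gdf g S W C j : ℝ) = d at *
  have hn : 0 < h * n := w1.trans_le c2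
  have k1 : VV * G * w ≤ 8192 * p * (w - z) + eX W C j (get S.hi j - get S.lo j) * z := by
    linear_combination mul_le_mul_of_nonneg_left k v0.le + z * g3 +
      mul_le_mul_of_nonneg_left (g4.trans p1) (sub_nonneg.2 y3)
  have k2 : (eX W C j (get S.hi j - get S.lo j) - 8192 * p) * (h * n) ≤ 8192 * (q - p) * w := by
    linear_combination w * q1 + q2 + mul_le_mul_of_nonneg_left q3 (sub_nonneg.2 c2) +
      mul_le_mul_of_nonneg_left p1 (sub_nonneg.2 c2)
  have k3 : VV * G * (h * n) ≤ 8192 * (p * (h * n) + (q - p) * z) := by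
    refine le_of_mul_le_mul_right ?_ w1
    linear_combination h * n * k1 + z * k2
  have h0 : 0 < h := (mul_pos_iff_of_pos_right n0).1 hn
  refine le_of_mul_le_mul_right ?_ h0
  linear_combination 2 * k3 + 8192 * mul_le_mul_of_nonneg_left d2 (sub_nonneg.2 y1) +
    8192 * mul_le_mul_of_nonneg_left d1 (sub_nonneg.2 y2)

/-- the weight of a cell -/
noncomputable def cw (g : Gr) (S : NS) (W C r c : ℕ) : ℝ :=
  ∏ j ∈ range r, (gw1 g S W C (j + 1) (cx g.bs (j + 1) c) : ℝ) / (2 * VV * SC)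

/-- the largest weight against the mean weight -/
noncomputable def fj (g : Gr) (S : NS) (W C j : ℕ) : ℝ := 1 + gdf g S W C j /
  ((min (gp S W C j) (gq g S W C j) * 2 ^ (b3 g.bs j + 1) + gdf g S W C j : ℕ) : ℝ)

lemma sp_le (c j : ℕ) : get g.h j / SC * sp g S W C c j ≤
    fj g S W C j * (gw1 g S W C j (cx g.bs j c) / (2 * VV * SC)) := by
  have s0 := SC_pos
  have v0 := VV_pos
  have b7 : b3 g.bs j < 8 := Nat.mod_lt _ (by norm_num)
  have x1 : cx g.bs j c + 1 ≤ 2 ^ b3 g.bs j := Nat.mod_lt _ (by positivity)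
  have k : min (gp S W C j) (gq g S W C j) * 2 ^ (b3 g.bs j + 1) + gdf g S W C j ≤
      wx (b3 g.bs j) (gp S W C j) (gq g S W C j) (cx g.bs j c) := by
    obtain ⟨y, hy⟩ := Nat.exists_eq_add_of_le x1
    rw [wx, gdf, pow_succ, hy, show cx g.bs j c + 1 + y - 1 - cx g.bs j c = y by omega]
    rcases le_total (gp S W C j) (gq g S W C j) with e | e
    · obtain ⟨d, hd⟩ := Nat.exists_eq_add_of_le e
      rw [min_eq_left e, Nat.sub_eq_zero_of_le e, hd, Nat.add_sub_cancel_left]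
      nlinarith [Nat.zero_le (d * cx g.bs j c)]
    · obtain ⟨d, hd⟩ := Nat.exists_eq_add_of_le e
      rw [min_eq_right e, Nat.sub_eq_zero_of_le e, hd, Nat.add_sub_cancel_left]
      nlinarith [Nat.zero_le (d * y)]
  have k0 : 0 < min (gp S W C j) (gq g S W C j) * 2 ^ (b3 g.bs j + 1) + gdf g S W C j :=
    Nat.add_pos_left (Nat.mul_pos (lt_min (Nat.succ_pos _) (Nat.succ_pos _)) (by positivity)) _
  rw [sp, fj, gw1, Nat.shiftLeft_eq]
  generalize min (gp S W C j) (gq g S W C j) * 2 ^ (b3 g.bs j + 1) + gdf g S W C j = M at *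
  generalize wx (b3 g.bs j) (gp S W C j) (gq g S W C j) (cx g.bs j c) = w at *
  have k1 : (gdf g S W C j : ℝ) ≤ gdf g S W C j / M * w := by
    rw [div_mul_eq_mul_div, le_div_iff₀ (Nat.cast_pos.2 k0)]
    exact mul_le_mul_of_nonneg_left (Nat.cast_le.2 k) (Nat.cast_nonneg _)
  push_cast
  rw [show (8192 : ℝ) = 2 ^ (13 - b3 g.bs j) * 2 ^ b3 g.bs j by
    rw [← pow_add, Nat.sub_add_cancel (by omega)]; norm_num]
  refine (le_of_eq ?_).trans ((mul_le_mul_of_nonneg_left (add_le_add_right k1 (w : ℝ))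
    (show 0 ≤ get g.h j * 2 ^ (13 - b3 g.bs j) / (2 * VV * SC : ℝ) by positivity)).trans_eq ?_)
  · field_simp
  · ring

/-- the first order bound on the boxes of the state -/
structure GBs (g : Gr) (S : NS) (A : ℕ → Finset ℕ) (r W C : ℕ) (R : ℝ) : Prop where
  hI : Inv S A
  hg : g.OK S
  hr : S.k = r + 1
  hz : ∀ j < S.k, get S.lo j ≤ get S.hi j
  hR : 0 ≤ R
  base : ∀ lo hi, SubB S.L S.H r lo hi → MQ S (Reg S A lo hi) (R * ∏ j ∈ range r,
    (hi (j + 1) - lo (j + 1)) * gw (slp S.k W C (j + 1)) (slp S.k W C (get S.par (j + 1)))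
      (S.L (j + 1)) (S.H (j + 1)) (lo (j + 1)) (hi (j + 1)))

lemma gb_mk (hI : Inv S A) (hg : g.OK S) (hr : S.k = r + 1)
    (hz : ∀ j < S.k, get S.lo j ≤ get S.hi j) (hW : W = mkW S (chV S r) S.k) :
    GBs g S A r W (∑ i ∈ range S.k, 1 * 256 ^ (blk S W i % 32))
      (∏ i ∈ range S.k, ((blk S W i >>> 5 : ℕ) : ℝ) / VV) :=
  ⟨hI, hg, hr, hz, prod_nonneg fun i _ => by positivity, fun lo hi =>
    base2 hI hr (σ := sW S.k W) (τ := fun i => blk S W i % 32) (fun i => by positivity)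
      (fun i hi => blk_ok hI hr hI.le (cast_div_le SC (hz 0 hI.pos))
        (fun j hj => hW ▸ lb_W hr hI.le hj) hi)
      (sW_nn _ _) fun t _ => le_of_eq (by
        rw [slp, Nat.shiftRight_eq_div_pow, pow_mul, show 2 ^ 8 = 256 from rfl, fld_sum 256 t
          (fun _ => 1) _ _ (by have := hI.le; simp; omega), card_eq_sum_ones])⟩

lemma slp_nn (k W C t : ℕ) : 0 ≤ slp k W C t := mul_nonneg (Nat.cast_nonneg _) (sW_nn _ _ _)

lemma L_le_fL (c j : ℕ) : S.L j ≤ fL g S c j := cast_div_le SC (Nat.le_add_right _ _)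

lemma GBs.box (h : GBs g S A r W C R) {lo hi : ℕ → ℝ} {b : ℕ → ℝ}
    (h1 : ∀ j, 1 ≤ j → j ≤ r → S.L j ≤ lo j ∧ lo j ≤ hi j)
    (h2 : ∀ j, 1 ≤ j → j ≤ r → (min (hi j) (S.H j) - min (lo j) (S.H j)) *
      (gw (slp S.k W C j) (slp S.k W C (get S.par j)) (S.L j) (S.H j) (min (lo j) (S.H j))
        (min (lo j) (S.H j)) + gw (slp S.k W C j) (slp S.k W C (get S.par j)) (S.L j) (S.H j)
        (min (hi j) (S.H j)) (min (hi j) (S.H j))) / 2 ≤ b j) :
    MQ S (Reg S A lo hi) (R * ∏ j ∈ range r, b (j + 1)) := by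
  have hH : ∀ j ≤ r, S.L j ≤ S.H j := fun j hj => cast_div_le SC (h.hz j (h.hr ▸ by omega))
  have := (subN_reg S A).cell (p := fun j => slp S.k W C (get S.par j)) (slp_nn _ _ _)
    (fun _ => slp_nn _ _ _ _) h.hR h.base
    (lo := fun j => if 1 ≤ j ∧ j ≤ r then min (lo j) (S.H j) else S.L j)
    (hi := fun j => if 1 ≤ j ∧ j ≤ r then min (hi j) (S.H j) else S.H j)
    ⟨fun j g1 g2 => by
      simp only [g1, g2, and_self, if_true]
      exact ⟨le_min (h1 j g1 g2).1 (hH j g2), min_le_min_right _ (h1 j g1 g2).2, min_le_right _ _⟩,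
      fun j g1 => ⟨if_neg (by omega), if_neg (by omega)⟩⟩
  refine (MQ.anti this fun a ha => ⟨ha.1, fun j g1 g2 => ?_⟩).mono
    (mul_le_mul_of_nonneg_left (prod_le_prod (fun j hj => ?_) fun j hj => ?_) h.hR)
  · have g3 : j ≤ r := by have := h.hr; omega
    simp only [g1, g3, and_self, if_true]
    exact ⟨(min_le_left _ _).trans (ha.2 j g1 g2).1, le_min (ha.2 j g1 g2).2 (ha.1.1.1 j g2).2⟩
  all_goals
    have g1 : 1 ≤ j + 1 := by omega
    have g2 : j + 1 ≤ r := mem_range.1 hj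
    simp only [g1, g2, and_self, if_true]
  · have := sub_nonneg.2 (min_le_min_right (S.H (j + 1)) (h1 _ g1 g2).2)
    unfold gw
    positivity
  · exact h2 _ g1 g2

lemma fL_le (c j : ℕ) : fL g S c j ≤ fH g S c j :=
  sub_nonneg.1 ((fH_sub c j).symm ▸ div_nonneg (Nat.cast_nonneg _) SC_pos.le)

/-- the whole cell -/
theorem GBs.full (h : GBs g S A r W C R) (c : ℕ) :
    MQ S (Reg S A (fL g S c) (fH g S c)) (R * cw g S W C r c) :=
  h.box (b := fun j => gw1 g S W C j (cx g.bs j c) / (2 * VV * SC))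
    (fun j _ _ => ⟨L_le_fL c j, fL_le c j⟩) fun j g1 g2 => by
    have g3 : j < S.k := by have := h.hr; omega
    have := node_le (W := W) (C := C) h.hI h.hg g1 g3 (h.hz j g3) c
    rw [cHi, cLo, if_pos g3, if_pos ⟨g1, g3⟩] at this
    rw [fL, fH]
    push_cast
    rwa [add_div, add_div, mul_div_assoc _ (get g.h j : ℝ), mul_div_assoc _ (get g.h j : ℝ)]

/-- the part of the cell above a hyperplane -/
theorem GBs.row (h : GBs g S A r W C R) (c : ℕ) {u v x : ℕ → ℝ} (hu : ∀ j, 0 ≤ u j)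
    (hv : ∀ j, 0 ≤ v j) (huv : ∀ j, v j = 0 ∨ u j = 0) {κ w z a b δ : ℝ}
    (hx : ∀ j, x j = (v (j + 1) + u (j + 1)) * (get g.h (j + 1) / SC))
    (hw : w = 0 ∨ ∃ j < r, w = x j) (z0 : 0 < z) (z1 : 2 * z < ∑ j ∈ range r, x j)
    (ha : 0 ≤ a) (hb : 0 ≤ b) (h1 : 1 ≤ a * ∑ j ∈ range r, x j ∨ 2 * ∑ j ∈ range r, x j * x j ≤
      a * (27 * z * (∑ j ∈ range r, x j - 2 * z) ^ 2))
    (h2 : 2 ≤ a * (∑ j ∈ range r, x j + w) + b * (∑ j ∈ range r, x j + w - 2 * z))
    (hδ : u 0 * S.H 0 - v 0 * S.L 0 + ∑ j ∈ range r, (u (j + 1) * fH g S c (j + 1) -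
      v (j + 1) * fL g S c (j + 1)) - κ ≤ δ) :
    MQ S (fun y => Reg S A (fL g S c) (fH g S c) y ∧ κ ≤ ∑ j ∈ range S.k, (u j - v j) * Y A y j)
      (R * cw g S W C r c * (∏ j ∈ range r, fj g S W C (j + 1)) *
        (a * max δ 0 + b * max (δ - z) 0)) := by
  have sp0 : ∀ j, 0 ≤ sp g S W C c j := fun j => by
    have := VV_pos
    unfold sp
    positivity
  have K0 : 0 ≤ R * ∏ j ∈ range r, sp g S W C c (j + 1) :=
    mul_nonneg h.hR (prod_nonneg fun _ _ => sp0 _)
  have := (subN_and S A fun y => κ ≤ ∑ j ∈ range S.k, (u j - v j) * Y A y j).multi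
    (L := fL g S c) (H := fH g S c) (s := fun _ => 0) (p := fun _ => 0) (fun _ => le_rfl)
    (fun _ => le_rfl) hv hu huv r _ (u 0 * S.H 0 - v 0 * S.L 0 - κ) [] (fun j _ _ => fL_le c j) K0
    (by simp) fun lo hi hb => ?_
  · refine this.mono ?_
    have e1 := rowD_sum (L := fL g S c) (H := fH g S c) (u := v) (v := u) id rfl r []
    have e2 := rowD_sum (L := fL g S c) (H := fH g S c) (u := v) (v := u) (fun y => y * y)
      (by simp) r []
    have e3 := rowD_prod (L := fL g S c) (H := fH g S c) (u := v) (v := u) r []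
    have e4 := rowD_mem (L := fL g S c) (H := fH g S c) (u := v) (v := u) r []
    simp only [fH_sub, ← hx, List.map_nil, List.sum_nil, add_zero, List.map_id, id, List.prod_nil,
      mul_one, List.not_mem_nil, false_or] at e1 e2 e3 e4
    have x0 : ∀ j, 0 ≤ x j := fun j => (hx j).symm ▸
      mul_nonneg (add_nonneg (hv _) (hu _)) (div_nonneg (Nat.cast_nonneg _) SC_pos.le)
    have hD : ∀ y ∈ rowD (fL g S c) (fH g S c) v u r [], 0 ≤ y := fun y hy => by
      obtain ⟨j, _, _, rfl⟩ := (e4 y).1 hy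
      exact x0 j
    have t := vb_tail (W := w) hD (hw.elim Or.inl fun ⟨j, g1, g2⟩ => ?_) z0 (e1 ▸ z1) ha hb
      (by rwa [e1, e2]) (by rwa [e1]) δ
    · have f0 : 0 ≤ ∏ j ∈ range r, fac (fL g S c) (fH g S c) (fun _ => 0) (fun _ => 0) v u (j + 1) :=
        prod_nonneg fun j _ => by
          have := sub_nonneg.2 (fL_le (g := g) (S := S) c (j + 1))
          have := hu (j + 1)
          have := hv (j + 1)
          unfold fac gw
          split_ifs <;> positivity
      refine (mul_le_mul_of_nonneg_left ((dif_mono _ hD (le_trans (le_of_eq ?_) hδ)).trans t)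
        (mul_nonneg K0 f0)).trans ?_
      · simp only [sum_sub_distrib]
        ring
      rw [← mul_assoc, mul_assoc _ _ (List.prod _), e3, mul_assoc R, mul_assoc R (cw g S W C r c),
        cw, ← prod_mul_distrib, ← prod_mul_distrib]
      refine mul_le_mul_of_nonneg_right (mul_le_mul_of_nonneg_left (prod_le_prod
        (fun j _ => mul_nonneg (sp0 _) (div_nonneg (Nat.cast_nonneg _) SC_pos.le)) fun j _ => ?_)
        h.hR) (by positivity)
      rw [mul_comm, mul_comm _ (fj g S W C _)]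
      exact sp_le c _
    · by_cases e : v (j + 1) + u (j + 1) = 0
      · exact Or.inl (by rw [g2, hx, e, zero_mul])
      · exact Or.inr ((e4 _).2 ⟨j, g1, e, g2⟩)
  simp only [dif, List.length_nil, tp, gw, zero_mul, neg_zero, sub_zero, Real.exp_zero, mul_one]
  split_ifs with q
  · rw [mul_one, mul_assoc, ← prod_mul_distrib]
    refine (h.box (b := fun j => sp g S W C c j * (hi j - lo j))
      (fun j g1 g2 => ⟨(L_le_fL c j).trans (hb.1 j g1 g2).1, (hb.1 j g1 g2).2.1⟩)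
      fun j g1 g2 => ?_).anti fun _ ha => ha.1
    obtain ⟨g3, g4, g5⟩ := hb.1 j g1 g2
    rcases le_or_gt (S.H j) (lo j) with e | e
    · rw [min_eq_right e, min_eq_right (e.trans g4), sub_self, zero_mul, zero_div]
      exact mul_nonneg (sp0 _) (sub_nonneg.2 g4)
    have k := fun y => node_sup (W := W) (C := C) h.hI h.hg g1 (by have := h.hr; omega)
      (Nat.cast_lt.1 ((div_lt_div_iff_of_pos_right SC_pos).1
        (((L_le_fL c j).trans g3).trans_lt e))) c (y := y)
    have k1 := k _ g3 (g4.trans g5) e.le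
    have k2 := k _ (g3.trans (le_min g4 e.le)) ((min_le_left _ _).trans g5) (min_le_right _ _)
    rw [min_eq_left e.le]
    linear_combination 1 / 2 * mul_le_mul_of_nonneg_left (add_le_add k1 k2)
      (sub_nonneg.2 (le_min g4 e.le)) + mul_le_mul_of_nonneg_left (min_le_left (hi j) (S.H j)) (sp0 j)
  rw [mul_zero]
  refine MQ.zero fun y ⟨g1, g2⟩ => q ?_
  rw [h.hr, sum_range_succ'] at g2
  obtain ⟨g3, g4⟩ := g1.1.1.1 0 h.hI.pos
  have g5 : ∑ j ∈ range r, (v (j + 1) * lo (j + 1) - u (j + 1) * hi (j + 1)) ≤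
      -∑ j ∈ range r, (u (j + 1) - v (j + 1)) * Y A y (j + 1) := by
    rw [← sum_neg_distrib]
    refine sum_le_sum fun j hj => ?_
    obtain ⟨g6, g7⟩ := g1.2 (j + 1) (by omega) (by have := h.hr; have := mem_range.1 hj; omega)
    linear_combination mul_le_mul_of_nonneg_left g6 (hv _) + mul_le_mul_of_nonneg_left g7 (hu _)
  rw [NS.H, NS.L]
  linear_combination g2 + g5 + mul_le_mul_of_nonneg_left g3 (hv 0) +
    mul_le_mul_of_nonneg_left g4 (hu 0)

end Pool.Agent.MP_c853c5_nt.X
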