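import Pool.Agent.MP_c853c5_nt.X.GmD
import Pool.Agent.MP_c853c5_nt.X.FCD

/-!
A grid whose lanes hold the part of the cell that is left (definitions only).
-/

set_option autoImplicit false

namespace Pool.Agent.MP_c853c5_nt.X

/-- a node: two shifts that select its coefficients, the width and the ends of the first cell,
the coordinate of the cells -/
structure Nr where
  a : ℕ
  b : ℕ
  h : ℕ
  up : ℕ
  lo : ℕ
  U : ℕ

/-- sum, maximum and sum of squares of the widths, the two sides on the first cell, the lanes -/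
abbrev KN := ℕ → ℕ → ℕ → ℕ → ℕ → (ℕ → ℕ → ℕ) → ℕ

def fl (P a md : ℕ) : ℕ := Nat.mod (Nat.shiftRight P a) md

/-- the nodes of a row -/
noncomputable def gaN (P Q md e : ℕ) (K : KN) (R : List Nr) : KN :=
  List.rec (motive := fun _ => KN) K
    (fun r _ ih sx W e2 p q F =>
      Nat.rec (motive := fun _ => ℕ)
        (Nat.rec (motive := fun _ => ℕ) (ih sx W e2 p q F)
          (fun d _ => force (Nat.mul (Nat.succ d) r.h) fun x =>
            ih (Nat.add sx x) (Nat.add x (Nat.sub W x)) (Nat.add e2 (Nat.mul x x))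
              (Nat.add p (Nat.mul (Nat.succ d) e)) (Nat.add q (Nat.mul (Nat.succ d) r.lo))
              fun μ V => Nat.sub (F μ V) (Nat.mul (Nat.shiftRight (Nat.mul x μ) 20) r.U))
          (Nat.sub (fl Q r.b md) (fl P r.a md)))
        (fun d _ => force (Nat.mul (Nat.succ d) r.h) fun x =>
          ih (Nat.add sx x) (Nat.add x (Nat.sub W x)) (Nat.add e2 (Nat.mul x x))
            (Nat.add p (Nat.mul (Nat.succ d) (Nat.add r.up e))) q
            fun μ V => Nat.add (F μ V) (Nat.mul (Nat.succ (Nat.shiftRight (Nat.mul x μ) 20)) r.U))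
        (Nat.sub (fl P r.a md) (fl Q r.b md))) R

def cl1 (E m : ℕ) : ℕ := Nat.land E (Nat.sub m (Nat.shiftRight m 31))

/-- the excess of the lanes over `2 ^ 31` -/
def clp (T E : ℕ) : ℕ := cl1 E (Nat.land E T)

def mn0 (a b : ℕ) : ℕ := Nat.sub a (Nat.sub a b)

def ga2 (T O ρ a E : ℕ) : ℕ :=
  Nat.add (clp T E) (Nat.mul ρ (clp T (Nat.sub E (Nat.mul a O))))

/-- the lanes of a row and a bound for them -/
noncomputable def gaE (g : Gr) (Z N : ℕ) (K : ℕ → ℕ → ℕ) : KN := fun sx W e2 p q F =>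
  force sx fun sx => force W fun W =>
  force (Nat.div (Nat.sub (Nat.mul 7 sx) (Nat.mul 6 W)) 20) fun s0 =>
  force (Nat.sub sx (Nat.mul 2 s0)) fun t =>
  force (Nat.succ (mn0 (Nat.div (Nat.mul (Nat.mul 2 e2) Z)
    (Nat.mul (Nat.mul 27 s0) (Nat.mul t t))) (Nat.div Z sx))) fun μ =>
  force (cdv (Nat.sub (Nat.mul 2 Z) (Nat.mul μ (Nat.add sx W))) (Nat.mul μ (Nat.add W t))) fun ρ =>
  force (Nat.succ (Nat.shiftRight (Nat.mul (Nat.sub p q) μ) 20)) fun a =>
  force (Nat.shiftRight (Nat.mul (Nat.sub q p) μ) 20) fun b =>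
  K (ga2 g.T g.O ρ (Nat.shiftRight (Nat.mul μ s0) 20)
      (F μ (Nat.mul (Nat.sub (Nat.add 2147483648 a) b) g.O)))
    (Nat.add (Nat.mul (Nat.succ ρ) (Nat.add (Nat.add a b)
      (Nat.mul N (Nat.add (Nat.shiftRight (Nat.mul μ sx) 19) 32))))
      (Nat.shiftLeft (Nat.sub 1 s0) 31))

/-- the data of a leaf -/
structure Ga where
  g : Gr
  Z : ℕ
  N : ℕ
  R : List Nr

/-- an item reads its code and passes lanes and the rest of the code on -/
abbrev AItem := Ga → Rec → NS → ℕ → (ℕ → ℕ → ℕ) → ℕ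

/-- the sum of the lanes of the rows -/
noncomputable def gaL (x : Ga) (L : List Rw) : (ℕ → ℕ → ℕ) → ℕ :=
  List.rec (motive := fun _ => (ℕ → ℕ → ℕ) → ℕ) (fun K => K 0 0)
    (fun r _ ih K => gaN (pkV r.l1) (pkV r.l2) 17592186044416 0
      (gaE x.g x.Z x.N fun v b => ih fun u c => K (Nat.add v u) (Nat.add (Nat.add b c)
        (Nat.shiftRight (Nat.add (pkV r.l1) (pkV r.l2)) 717)))
      x.R 0 0 0 (Nat.succ r.c1) r.c2 fun _ V => V) L

noncomputable def ofA (p : Prov) : AItem := fun x _ S s K =>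
  p S s fun L u => gaL x L fun v b => grd (Nat.blt b 2147483648) (K v u)

def noA : AItem := fun _ _ _ _ _ => INF

noncomputable def rwAt (l : List Rw) : ℕ → Rw :=
  List.rec (motive := fun _ => ℕ → Rw) (fun _ => ⟨0, [], 0, []⟩)
    (fun x _ ih i => Nat.rec (motive := fun _ => Rw) x (fun n _ => ih n) i) l

/-- `5` bits select a stored row -/
noncomputable def killP : Prov := fun S s K =>
  force (Nat.mod s 32) fun i => force (Nat.shiftRight s 5) fun v =>
    Rw.rec (motive := fun _ => ℕ) (fun c1 l1 c2 l2 => K [⟨Nat.succ c2, l2, c1, l1⟩] v)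
      (rwAt S.rs i)

/-- the nodes whose group differs from the group of the parent -/
noncomputable def gqR (par G : ℕ) (R : List Nr) : (List Nr → ℕ) → ℕ :=
  List.rec (motive := fun _ => (List Nr → ℕ) → ℕ) (fun K => K [])
    (fun r _ ih K => force (Nat.mul 12 (d4 G (Nat.div r.a 44))) fun a =>
      force (Nat.mul 12 (d4 G (get par (Nat.div r.a 44)))) fun b =>
      cnd (Nat.beq a b) (ih K) (ih fun L => K (⟨a, b, r.h, r.up, r.lo, r.U⟩ :: L))) R

/-- the position of the lowest bit -/
def lowB (D : ℕ) : ℕ := Nat.mod (Nat.shiftRight 396149110779787108614029586559158112080285533395306634756418023007914122025779591789683511094404809640091869111938734861513899206200881332224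
  (Nat.mul 7 (Nat.mod (Nat.xor D (Nat.land D (Nat.pred D))) 67))) 128

/-- the sum of the lanes of the rows in the mask `D`; `B` marks the rows that are done -/
noncomputable def gqL (x : Ga) (w R g0 : ℕ) (L : List Nr) (K : ℕ → ℕ → ℕ → ℕ) (c : ℕ) :
    ℕ → ℕ → ℕ → ℕ → ℕ :=
  Nat.rec (motive := fun _ => ℕ → ℕ → ℕ → ℕ → ℕ) (fun _ _ _ _ => INF)
    (fun _ nx D B u d => cnd (Nat.beq D 0) (K B u d)
      (force (lowB D) fun r => force (Nat.land D (Nat.pred D)) fun D' =>
        force (rowQ w R r).1 fun y =>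
        gaN y y 4096 16 (gaE x.g x.Z x.N fun v e =>
          nx D' (Nat.lor B (one (Nat.mul w r))) (Nat.add v u) (Nat.add e d)) L 0 0 0
          (Nat.succ (Nat.mul (dg y g0) 1000000)) (rowQ w R r).2 fun _ V => V)) c

/-- same code and same lanes as `ofA (pqP gd T)` -/
noncomputable def gqI (gd : NS → ℕ → ℕ → Bool) (T : BT PQ) : AItem := fun x _ S s K =>
  hdQ gd T S s fun w R M G g0 B v =>
    force (Nat.mod (Nat.xor M B) (Nat.sub (one w) 2)) fun D => gqR S.par G x.R.tail fun L =>
      gqL x w R g0 L (fun B' u d => grd (band (Nat.beq B' M) (Nat.blt d 2147483648)) (K u v))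
        64 D B 0 0

/-- an item of the rule with masks -/
noncomputable def ofI (p : Item) : AItem := fun x ih S s K =>
  p x.g ih true S s fun m u => K (Nat.shiftRight (Nat.xor x.g.T (Nat.land m x.g.T)) 15) u

/-- the minimum of the lanes -/
def mnL (T c a : ℕ) : ℕ := Nat.sub c (clp T (Nat.sub (Nat.add T c) a))

noncomputable def gaLoop (IT : BT AItem) (x : Ga) (ih : Rec) (S : NS) (fin : ℕ → ℕ) (n : ℕ) :
    ℕ → ℕ → ℕ :=
  Nat.rec (motive := fun _ => ℕ → ℕ → ℕ) (fun c _ => fin c)
    (fun _ nx c s => force (Nat.mod s 16) fun q => force (Nat.shiftRight s 4) fun v =>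
      IT.find q x ih S v fun a u => nx (mnL x.g.T c a) u) n

/-- the nodes `j, …, j + n - 1` -/
noncomputable def gaU (g : Gr) (S : NS) (W C n : ℕ) :
    ℕ → ℕ → ℕ → ℕ → (ℕ → ℕ → List Nr → ℕ) → ℕ :=
  Nat.rec (motive := fun _ => ℕ → ℕ → ℕ → ℕ → (ℕ → ℕ → List Nr → ℕ) → ℕ)
    (fun _ _ Z N K => K Z N [])
    (fun _ ih j o Z N K => force (Nat.sub (get S.hi j) (get S.lo j)) fun w =>
      force (eX W C j w) fun e1 => force (eX W C (get S.par j) w) fun e2 =>
      force (b3 g.bs j) fun b => force (Nat.succ (Nat.shiftRight e2 13)) fun p =>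
      force (Nat.succ (Nat.shiftRight (Nat.add e1
        (cdR (Nat.mul (Nat.sub e1 e2) (Nat.sub (get g.wd j) w)) w)) 13)) fun q =>
      force (Nat.add (Nat.sub p q) (Nat.sub q p)) fun d =>
      force (Nat.add Z (cdR (Nat.mul Z d)
        (Nat.add (Nat.shiftLeft (mn0 p q) (Nat.succ b)) d))) fun Z' =>
      force (Nat.succ j) fun j' => force (Nat.add o b) fun o' =>
      force (Nat.mul 44 j) fun a => force (get g.h j) fun h => force (get S.lo j) fun l =>
      force (Nat.add l h) fun u => force g.B fun B =>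
      ih j' o' Z' (Nat.add N (one b)) fun Z2 N2 R =>
        K Z2 N2 (⟨a, a, h, u, l, gU B o b⟩ :: R)) n

/-- the mass; the lanes lose `t` bits -/
noncomputable def gaF (g : Gr) (S : NS) (W C n p t c : ℕ) : ℕ :=
  force (Nat.pred (one (Nat.shiftLeft 32 g.B))) fun Z => force (Nat.shiftRight 65536 t) fun m =>
  gL g S W C Z (Nat.mul (Nat.pow 2000000000000000000000000 n) m) n 1 32
    (Nat.land (Nat.shiftRight (Nat.add c (Nat.mul (Nat.pred (one t)) g.O)) t)
      (Nat.mul 131071 g.O)) m p

/-- `3` bits for each node `j ≥ 1`, `6` bits for the number of items, `4` bits for `t`, the items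
with `4` bits for their type -/
noncomputable def gaR (IT : BT AItem) : Rule := fun _ ih sg S s =>
  force (Nat.pred S.k) fun r => force (Nat.mul 3 r) fun w =>
  force (Nat.shiftLeft (Nat.mod s (one w)) 3) fun bs => force (Nat.shiftRight s w) fun v =>
  force (Nat.mod v 64) fun n => force (Nat.mod (Nat.shiftRight v 6) 16) fun t =>
  grd sg (mkGr S bs fun g => force (chV S r) fun V => force (mkW S V S.k) fun W =>
    accB S W S.k fun p c => force p fun p => force c fun C =>
    gaU g S W C r 1 0 68719476736 1 fun Z N R => force N fun N =>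
      force (Nat.shiftRight v 10) (gaLoop IT ⟨g, Z, N, ⟨0, 0, 0, get S.hi 0, get S.lo 0, 0⟩ :: R⟩
        ih S (gaF g S W C r p t) n (Nat.shiftRight g.T 15)))

end Pool.Agent.MP_c853c5_nt.X
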