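import Pool.Agent.MP_c853c5_nt.X.GaB
import Pool.Agent.MP_c853c5_nt.X.GaD
import Pool.Agent.MP_c853c5_nt.X.Lane
import Pool.Agent.MP_c853c5_nt.X.Pk

/-!
The lanes of a row.
-/

set_option autoImplicit false

open Finset

namespace Pool.Agent.MP_c853c5_nt.X

open Pool.Agent.MP_c853c5_nt.S Pool.Agent.MP_c853c5_nt.REG Ln

variable {g : Gr} {S : NS} {A : ℕ → Finset ℕ} {R : ℝ} {r W C : ℕ}

lemma clp_eq (hg : g.OK S) {E : ℕ → ℕ} (h : ∀ c < 2 ^ g.B, E c < 2 ^ 32) :
    clp g.T (pk (2 ^ g.B) E) = pk (2 ^ g.B) fun c => E c - 2 ^ 31 := by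
  show pk _ E &&& ((pk _ E &&& g.T) - (pk _ E &&& g.T) >>> 31) = _
  rw [land_T_shift hg, land_T hg, pk_sub fun c _ => by split_ifs <;> omega]
  refine (pw_land (w := 32) (by norm_num) h fun c _ => by split_ifs <;> omega).trans
    (pk_congr fun c hc => ?_)
  have := h c hc
  rw [pk_bit h c (by norm_num), decide_eq_true hc, Bool.true_and,
    Nat.testBit_eq_decide_div_mod_eq]
  split_ifs with e <;> rw [decide_eq_true_iff] at e
  · rw [Nat.and_two_pow_sub_one_eq_mod]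
    omega
  · rw [Nat.sub_self, Nat.and_zero]
    omega

lemma mnL_eq (hg : g.OK S) {u v : ℕ → ℕ} (hu : ∀ c < 2 ^ g.B, u c < 2 ^ 31)
    (hv : ∀ c < 2 ^ g.B, v c < 2 ^ 31) :
    mnL g.T (pk (2 ^ g.B) u) (pk (2 ^ g.B) v) = pk (2 ^ g.B) fun c => min (u c) (v c) := by
  have e : g.T + pk (2 ^ g.B) u - pk (2 ^ g.B) v = pk (2 ^ g.B) fun c => 2 ^ 31 + u c - v c := by
    rw [hg.hT, pk_add, pk_sub fun c hc => by have := hv c hc; omega]
  show pk _ u - clp g.T (g.T + pk _ u - pk _ v) = _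
  rw [e, clp_eq hg fun c hc => by have := hu c hc; omega, pk_sub fun c hc => by omega]
  exact pk_congr fun c hc => by have := hv c hc; omega

section

variable (P Q md : ℕ)

def dP (x : Nr) : ℕ := fl P x.a md - fl Q x.b md

def dN (x : Nr) : ℕ := fl Q x.b md - fl P x.a md

def gaX (x : Nr) : ℕ := (dN P Q md x + dP P Q md x) * x.h

def gaP (μ : ℕ) (x : Nr) : ℕ := if dP P Q md x = 0 then 0 else (gaX P Q md x * μ) >>> 20 + 1

def gaM (μ : ℕ) (x : Nr) : ℕ := if dP P Q md x = 0 then (gaX P Q md x * μ) >>> 20 else 0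

variable {P Q md}

lemma gaN_cons (e : ℕ) (K : KN) (x : Nr) (l : List Nr) (sx w e2 p q : ℕ) (F : ℕ → ℕ → ℕ) :
    gaN P Q md e K (x :: l) sx w e2 p q F = if dP P Q md x = 0 then
      if dN P Q md x = 0 then gaN P Q md e K l sx w e2 p q F else
        gaN P Q md e K l (sx + gaX P Q md x) (gaX P Q md x + (w - gaX P Q md x))
          (e2 + gaX P Q md x * gaX P Q md x) (p + dN P Q md x * e) (q + dN P Q md x * x.lo)
          fun μ V => F μ V - (gaX P Q md x * μ) >>> 20 * x.U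
      else gaN P Q md e K l (sx + gaX P Q md x) (gaX P Q md x + (w - gaX P Q md x))
        (e2 + gaX P Q md x * gaX P Q md x) (p + dP P Q md x * (x.up + e)) q
        fun μ V => F μ V + ((gaX P Q md x * μ) >>> 20 + 1) * x.U := by
  have e0 : dP P Q md x = 0 ∨ dN P Q md x = 0 := by
    unfold dP dN
    omega
  show Nat.rec (motive := fun _ => ℕ) (Nat.rec (motive := fun _ => ℕ) _ _ (dN P Q md x)) _
    (dP P Q md x) = _
  unfold gaX
  generalize dP P Q md x = a at *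
  generalize dN P Q md x = b at *
  cases a with
  | zero =>
    cases b with
    | zero => rfl
    | succ b => exact force_eq _ _
  | succ a =>
    obtain rfl : b = 0 := by omega
    rw [if_neg (by omega), zero_add]
    exact force_eq _ _

lemma gaN_eq {n : ℕ} (e : ℕ) (K : KN) {ρ : ℕ → Nr} {ξ : ℕ → ℕ → ℕ} (l : List ℕ)
    (hU : ∀ j ∈ l, (ρ j).U = pk n (ξ j)) : ∀ (sx w e2 p q : ℕ) (F a b : ℕ → ℕ → ℕ),
    (∀ μ V, (∀ c < n, b μ c ≤ V c) → F μ (pk n V) = pk n fun c => V c + a μ c - b μ c) →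
    ∃ w' F', gaN P Q md e K (l.map ρ) sx w e2 p q F = K (sx + (l.map fun j => gaX P Q md (ρ j)).sum)
      w' (e2 + (l.map fun j => gaX P Q md (ρ j) * gaX P Q md (ρ j)).sum)
      (p + (l.map fun j => dP P Q md (ρ j) * ((ρ j).up + e) + dN P Q md (ρ j) * e).sum)
      (q + (l.map fun j => dN P Q md (ρ j) * (ρ j).lo).sum) F' ∧
      (w' = w ∨ ∃ j ∈ l, w' = gaX P Q md (ρ j)) ∧
      ∀ μ V, (∀ c < n, b μ c + (l.map fun j => gaM P Q md μ (ρ j) * ξ j c).sum ≤ V c) →
        F' μ (pk n V) = pk n fun c => V c + (a μ c + (l.map fun j => gaP P Q md μ (ρ j) * ξ j c).sum) -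
          (b μ c + (l.map fun j => gaM P Q md μ (ρ j) * ξ j c).sum) := by
  induction l with
  | nil => exact fun sx w e2 p q F a b h => ⟨w, F, rfl, Or.inl rfl, h⟩
  | cons j l ih =>
    intro sx w e2 p q F a b h
    rw [List.forall_mem_cons] at hU
    have hw : ∀ w', (w' = gaX P Q md (ρ j) + (w - gaX P Q md (ρ j)) ∨
        ∃ i ∈ l, w' = gaX P Q md (ρ i)) → w' = w ∨ ∃ i ∈ j :: l, w' = gaX P Q md (ρ i) :=
      fun w' c => by
        simp only [List.mem_cons, exists_eq_or_imp]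
        rcases c with c | c
        exacts [by omega, Or.inr (Or.inr c)]
    simp only [List.map_cons, List.sum_cons, gaN_cons, gaP, gaM]
    split_ifs with c1 c2
    · obtain ⟨w', F', h1, h2, h3⟩ := ih hU.2 sx w e2 p q F a b h
      refine ⟨w', F', ?_, h2.imp id fun ⟨i, g1, g2⟩ => ⟨i, List.mem_cons_of_mem _ g1, g2⟩, ?_⟩
      · simpa [gaX, c1, c2] using h1
      · simpa [gaX, c1, c2, gaP, gaM] using h3
    · obtain ⟨w', F', h1, h2, h3⟩ := ih hU.2 _ _ _ _ _
        (fun μ V => F μ V - (gaX P Q md (ρ j) * μ) >>> 20 * (ρ j).U) a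
        (fun μ c => b μ c + (gaX P Q md (ρ j) * μ) >>> 20 * ξ j c) fun μ V hV => by
          rw [h μ V fun c hc => le_of_add_le_left (hV c hc), hU.1, pk_smul,
            pk_sub fun c hc => by have := hV c hc; omega]
          exact pk_congr fun c _ => by rw [Nat.sub_sub]
      exact ⟨w', F', by rw [h1, c1]; simp only [add_assoc, zero_mul, zero_add], hw _ h2,
        by simpa only [gaP, gaM, add_assoc, zero_mul, zero_add] using h3⟩
    · obtain ⟨w', F', h1, h2, h3⟩ := ih hU.2 _ _ _ _ _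
        (fun μ V => F μ V + ((gaX P Q md (ρ j) * μ) >>> 20 + 1) * (ρ j).U)
        (fun μ c => a μ c + ((gaX P Q md (ρ j) * μ) >>> 20 + 1) * ξ j c) b fun μ V hV => by
          rw [h μ V hV, hU.1, pk_smul, pk_add]
          exact pk_congr fun c hc => by have := hV c hc; omega
      have c2 : dN P Q md (ρ j) = 0 := by
        unfold dP dN at *
        omega
      exact ⟨w', F', by rw [h1, c2]; simp only [add_assoc, zero_mul, zero_add, add_zero], hw _ h2,
        by simpa only [gaP, gaM, add_assoc, zero_mul, zero_add] using h3⟩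

end

lemma lsum_range (f : ℕ → ℕ) (k : ℕ) : ((List.range k).map f).sum = ∑ j ∈ range k, f j := by
  induction k with
  | zero => rfl
  | succ k ih => rw [List.range_succ, List.map_append, List.sum_append, ih, sum_range_succ]; simp

lemma shr_le (a : ℕ) : ((a >>> 20 : ℕ) : ℝ) ≤ a / 2 ^ 20 ∧ (a : ℝ) / 2 ^ 20 ≤ (a >>> 20 + 1 : ℕ) := by
  rw [le_div_iff₀ (by norm_num), div_le_iff₀ (by norm_num), Nat.shiftRight_eq_div_pow]
  constructor <;> norm_cast <;> omega

lemma fin_le {Z F c δ : ℝ} {μ τ s y1 y2 : ℕ} (Z1 : 0 < Z) (hZ : 2 ^ 36 * F ≤ Z) (c0 : 0 ≤ c)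
    (k1 : μ * δ / 2 ^ 20 ≤ y1) (k2 : μ * δ / 2 ^ 20 - μ * s / 2 ^ 20 ≤ y2) :
    c * F * (μ * SC / Z * max (δ / SC) 0 + τ * (μ * SC / Z) * max (δ / SC - s / SC) 0) ≤
      (y1 + τ * y2 : ℕ) * (c / 2 ^ 16) := by
  have S0 := SC_pos
  have m1 : μ * SC / Z * max (δ / SC) 0 ≤ 2 ^ 20 * y1 / Z := by
    rw [mul_max_of_nonneg _ _ (by positivity), mul_zero]
    refine max_le ((le_div_iff₀ Z1).2 ?_) (by positivity)
    rw [show μ * SC / Z * (δ / SC) * Z = μ * δ by field_simp]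
    linear_combination 2 ^ 20 * k1
  have m2 : μ * SC / Z * max (δ / SC - s / SC) 0 ≤ 2 ^ 20 * y2 / Z := by
    rw [mul_max_of_nonneg _ _ (by positivity), mul_zero]
    refine max_le ((le_div_iff₀ Z1).2 ?_) (by positivity)
    rw [show μ * SC / Z * (δ / SC - s / SC) * Z = μ * δ - μ * s by field_simp]
    linear_combination 2 ^ 20 * k2
  rw [mul_assoc (τ : ℝ)]
  refine (mul_le_mul (mul_le_mul_of_nonneg_left ((le_div_iff₀' (by norm_num)).2 hZ) c0)
    (add_le_add m1 (mul_le_mul_of_nonneg_left m2 (Nat.cast_nonneg τ))) (by positivity)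
    (by positivity)).trans_eq ?_
  push_cast
  field_simp

lemma cw_nn (c : ℕ) : 0 ≤ cw g S W C r c := prod_nonneg fun _ _ => by
  have := L.VV_pos
  have := SC_pos
  positivity

/-- the records of the nodes -/
def Nok (g : Gr) (S : NS) (ρ : ℕ → Nr) : Prop := ∀ j < S.k, (ρ j).h = get g.h j ∧
  (ρ j).up = get g.up j ∧ (ρ j).lo = get S.lo j ∧ (ρ j).U = pk (2 ^ g.B) (cx g.bs j)

theorem rowA (h : GBs g S A r W C R) {Z N : ℕ} (Z0 : 0 < Z)
    (hZ : 2 ^ 36 * ∏ j ∈ range r, fj g S W C (j + 1) ≤ Z) (N1 : 1 ≤ N)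
    (hN : ∀ j < S.k, ∀ c, cx g.bs j c ≤ N) {ρ : ℕ → Nr} (hρ : Nok g S ρ) (P Q md e p0 q0 : ℕ)
    (K : ℕ → ℕ → ℕ) : ∃ v b, gaN P Q md e (gaE g Z N K) ((List.range S.k).map ρ) 0 0 0 p0 q0
      (fun _ V => V) = K v b ∧ (b < 2 ^ 31 → ∃ ν : ℕ → ℕ, v = pk (2 ^ g.B) ν ∧ ∀ c < 2 ^ g.B,
        ν c ≤ b ∧ MQ S (fun y => Reg S A (fL g S c) (fH g S c) y ∧ ((q0 : ℝ) - p0 -
          e * ∑ j ∈ range S.k, ((dP P Q md (ρ j) : ℝ) + dN P Q md (ρ j))) / SC ≤
          ∑ j ∈ range S.k, ((dP P Q md (ρ j) : ℝ) - dN P Q md (ρ j)) * Y A y j)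
          (ν c * (R * cw g S W C r c / 2 ^ 16))) := by
  have hg := h.hg
  obtain ⟨w, F, h1, h2, h3⟩ := gaN_eq (P := P) (Q := Q) (md := md) e (gaE g Z N K) (List.range S.k)
    (fun j hj => (hρ j (List.mem_range.1 hj)).2.2.2) 0 0 0 p0 q0 (fun _ V => V) (fun _ _ => 0)
    (fun _ _ => 0) fun _ _ _ => rfl
  simp only [lsum_range, zero_add, List.mem_range] at h1 h2 h3
  rw [h1]
  simp only [gaE, force_eq]
  refine ⟨_, _, rfl, fun hb => ?_⟩
  set sx := ∑ j ∈ range S.k, gaX P Q md (ρ j) with hsx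
  set e2 := ∑ j ∈ range S.k, gaX P Q md (ρ j) * gaX P Q md (ρ j) with he2
  set p := p0 + ∑ j ∈ range S.k, (dP P Q md (ρ j) * ((ρ j).up + e) + dN P Q md (ρ j) * e) with hp
  set q := q0 + ∑ j ∈ range S.k, dN P Q md (ρ j) * (ρ j).lo with hq
  simp only [Nat.add_eq, Nat.mul_eq, Nat.sub_eq, Nat.shiftRight_eq, Nat.shiftLeft_eq',
    Nat.succ_eq_add_one, mn0, show ∀ a b, Nat.div a b = a / b from fun _ _ => rfl] at hb ⊢
  generalize hs : (7 * sx - 6 * w) / 20 = s at hb ⊢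
  generalize hμ : 2 * e2 * Z / (27 * s * ((sx - 2 * s) * (sx - 2 * s))) -
    (2 * e2 * Z / (27 * s * ((sx - 2 * s) * (sx - 2 * s))) - Z / sx) + 1 = μ at hb ⊢
  generalize hτ : cdv (2 * Z - μ * (sx + w)) (μ * (w + (sx - 2 * s))) = τ at hb ⊢
  generalize ha : ((p - q) * μ) >>> 20 + 1 = a at hb ⊢
  generalize hb' : ((q - p) * μ) >>> 20 = b at hb ⊢
  generalize ha0 : (μ * s) >>> 20 = a0
  rw [Nat.shiftLeft_eq] at hb ⊢
  have s1 : 1 ≤ s := by omega
  have s2 : 2 * s < sx := by omega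
  have b1 : a + b + N * ((μ * sx) >>> 19 + 32) < 2 ^ 31 :=
    lt_of_le_of_lt ((Nat.le_mul_of_pos_left _ τ.succ_pos).trans (Nat.le_add_right _ _)) hb
  have b2 : ∑ j ∈ range S.k, (gaP P Q md μ (ρ j) + gaM P Q md μ (ρ j)) ≤ (μ * sx) >>> 20 + 16 := by
    refine le_trans (sum_le_sum (g := fun j => gaX P Q md (ρ j) * μ / 2 ^ 20 + 1) fun j _ => ?_) ?_
    · unfold gaP gaM
      rw [Nat.shiftRight_eq_div_pow]
      split_ifs <;> omega
    rw [sum_add_distrib, sum_const, card_range, smul_eq_mul, mul_one, Nat.shiftRight_eq_div_pow]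
    refine add_le_add ((Nat.le_div_iff_mul_le (by norm_num)).2 ?_) h.hI.le
    rw [hsx, mul_sum, sum_mul]
    exact sum_le_sum fun j _ => (Nat.div_mul_le_self _ _).trans_eq (mul_comm _ _)
  have b3 : ∀ c, ∑ j ∈ range S.k, gaP P Q md μ (ρ j) * cx g.bs j c +
      ∑ j ∈ range S.k, gaM P Q md μ (ρ j) * cx g.bs j c + a0 ≤ N * ((μ * sx) >>> 19 + 32) :=
    fun c => by
      have g1 : ∑ j ∈ range S.k, gaP P Q md μ (ρ j) * cx g.bs j c +
          ∑ j ∈ range S.k, gaM P Q md μ (ρ j) * cx g.bs j c ≤ N * ((μ * sx) >>> 20 + 16) := by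
        refine le_trans ?_ (Nat.mul_le_mul_left N b2)
        rw [← sum_add_distrib, mul_sum]
        refine sum_le_sum fun j hj => ?_
        rw [← add_mul, mul_comm]
        exact Nat.mul_le_mul_right _ (hN j (mem_range.1 hj) c)
      have g2 : a0 ≤ N * ((μ * sx) >>> 20 + 16) := by
        refine le_trans ?_ (Nat.le_mul_of_pos_left _ N1)
        have := Nat.mul_le_mul_left μ (show s ≤ sx by omega)
        rw [← ha0, Nat.shiftRight_eq_div_pow, Nat.shiftRight_eq_div_pow]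
        omega
      refine (add_le_add g1 g2).trans ?_
      rw [← mul_add]
      refine Nat.mul_le_mul_left _ ?_
      rw [Nat.shiftRight_eq_div_pow, Nat.shiftRight_eq_div_pow]
      omega
  generalize N * ((μ * sx) >>> 19 + 32) = M at *
  rw [hg.hO, pk_smul, h3 μ _ fun c _ => by have := b3 c; omega]
  simp only [ga2, Nat.add_eq, Nat.mul_eq, Nat.sub_eq, pk_smul, mul_one]
  rw [pk_sub fun c _ => by have := b3 c; omega, clp_eq hg fun c _ => by have := b3 c; omega,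
    clp_eq hg fun c _ => by have := b3 c; omega, pk_smul, pk_add]
  refine ⟨_, rfl, fun c _ => ⟨?_, ?_⟩⟩
  · have := b3 c
    refine le_trans ?_ (Nat.le_add_right _ _)
    rw [add_one_mul, add_comm]
    exact add_le_add (Nat.mul_le_mul_left _ (by omega)) (by omega)
  have S0 := SC_pos
  have Z1 : (0 : ℝ) < Z := Nat.cast_pos.2 Z0
  have x0 : gaX P Q md (ρ 0) = 0 := by rw [gaX, (hρ 0 h.hI.pos).1, hg.h0, mul_zero]
  have hx : ∀ j < r, ((dN P Q md (ρ (j + 1)) : ℝ) + dP P Q md (ρ (j + 1))) *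
      (get g.h (j + 1) / SC) = gaX P Q md (ρ (j + 1)) / SC := fun j hj => by
    rw [gaX, (hρ _ (h.hr ▸ by omega)).1]
    push_cast
    ring
  have e1 : ∑ j ∈ range r, ((dN P Q md (ρ (j + 1)) : ℝ) + dP P Q md (ρ (j + 1))) *
      (get g.h (j + 1) / SC) = sx / SC := by
    rw [sum_congr rfl fun j hj => hx j (mem_range.1 hj), hsx, h.hr, sum_range_succ', x0, ← sum_div,
      add_zero, Nat.cast_sum]
  have e3 : ∑ j ∈ range r, ((dN P Q md (ρ (j + 1)) : ℝ) + dP P Q md (ρ (j + 1))) *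
      (get g.h (j + 1) / SC) * (((dN P Q md (ρ (j + 1)) : ℝ) + dP P Q md (ρ (j + 1))) *
      (get g.h (j + 1) / SC)) = e2 / SC ^ 2 := by
    rw [sum_congr rfl fun j hj => by rw [hx j (mem_range.1 hj)], he2, h.hr, sum_range_succ', x0,
      mul_zero, add_zero, Nat.cast_sum, sum_div]
    exact sum_congr rfl fun j _ => by push_cast; ring
  set δ : ℝ := p - q + ∑ j ∈ range S.k, ((dP P Q md (ρ j) : ℝ) - dN P Q md (ρ j)) *
    ((ρ j).h * cx g.bs j c) with hδ
  have t0 : ((sx - 2 * s : ℕ) : ℝ) = sx - 2 * s := by rw [Nat.cast_sub s2.le]; simp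
  have s3 : (2 : ℝ) * s < sx := by exact_mod_cast s2
  refine (h.row c (u := fun j => dP P Q md (ρ j)) (v := fun j => dN P Q md (ρ j))
    (fun _ => Nat.cast_nonneg _) (fun _ => Nat.cast_nonneg _) (fun j => ?_) (w := w / SC)
    (z := s / SC) (a := μ * SC / Z) (b := τ * (μ * SC / Z)) (δ := δ / SC) (fun _ => rfl) ?_
    (div_pos (Nat.cast_pos.2 s1) S0) ?_ (by positivity) (by positivity) ?_ ?_ (le_of_eq ?_)).mono ?_
  · simp only [Nat.cast_eq_zero, dP, dN]
    omega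
  · rcases h2 with rfl | ⟨_ | j, g1, rfl⟩
    · exact Or.inl (by simp)
    · exact Or.inl (by simp [x0])
    · have g2 : j < r := by have := h.hr; omega
      exact Or.inr ⟨j, g2, (hx j g2).symm⟩
  · rw [e1, ← mul_div_assoc]
    exact div_lt_div_of_pos_right s3 S0
  · rw [e1, e3]
    rcases le_total (Z / sx) (2 * e2 * Z / (27 * s * ((sx - 2 * s) * (sx - 2 * s)))) with c | c
    · have : Z ≤ μ * sx := by
        rw [← hμ, Nat.sub_sub_self c]
        exact (Nat.lt_succ_iff.1 (Nat.lt_succ_of_lt ((Nat.div_lt_iff_lt_mul (by omega)).1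
          (Nat.lt_succ_self _))))
      left
      rw [show μ * SC / Z * (sx / SC : ℝ) = (μ * sx : ℕ) / Z by push_cast; field_simp,
        one_le_div Z1]
      exact Nat.cast_le.2 this
    · have : 2 * e2 * Z ≤ μ * (27 * s * ((sx - 2 * s) * (sx - 2 * s))) := by
        rw [← hμ, Nat.sub_eq_zero_of_le c, Nat.sub_zero]
        exact ((Nat.div_lt_iff_lt_mul (by have := Nat.sub_pos_of_lt s2; positivity)).1
          (Nat.lt_succ_self _)).le
      have : (2 : ℝ) * e2 * Z ≤ μ * (27 * s * ((sx - 2 * s) * (sx - 2 * s))) := by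
        rw [← t0]
        exact_mod_cast this
      right
      rw [show μ * SC / Z * (27 * (s / SC) * (sx / SC - 2 * (s / SC)) ^ 2 : ℝ) =
        μ * (27 * s * ((sx - 2 * s) * (sx - 2 * s))) / Z / SC ^ 2 by field_simp, ← mul_div_assoc]
      exact div_le_div_of_nonneg_right ((le_div_iff₀ Z1).2 this) (by positivity)
  · have := le_cdv (2 * Z - μ * (sx + w)) (c := μ * (w + (sx - 2 * s)))
      (Nat.mul_pos (by omega) (by omega))
    rw [hτ] at this
    have : 2 * Z ≤ μ * (sx + w) + τ * (μ * (w + (sx - 2 * s))) := by omega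
    have : (2 : ℝ) * Z ≤ μ * (sx + w) + τ * (μ * (w + (sx - 2 * s))) := by
      rw [← t0]
      exact_mod_cast this
    rw [e1, show μ * SC / Z * (sx / SC + w / SC : ℝ) + τ * (μ * SC / Z) *
      (sx / SC + w / SC - 2 * (s / SC)) = (μ * (sx + w) + τ * (μ * (w + (sx - 2 * s)))) / Z by
        field_simp; ring]
    exact (le_div_iff₀ Z1).2 this
  · obtain ⟨g1, g2, g3, -⟩ := hρ 0 h.hI.pos
    have e4 : ∑ j ∈ range r, ((dP P Q md (ρ (j + 1)) : ℝ) * fH g S c (j + 1) -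
        dN P Q md (ρ (j + 1)) * fL g S c (j + 1)) = (∑ j ∈ range r,
        ((dP P Q md (ρ (j + 1)) : ℝ) * (ρ (j + 1)).up - dN P Q md (ρ (j + 1)) * (ρ (j + 1)).lo +
        ((dP P Q md (ρ (j + 1)) : ℝ) - dN P Q md (ρ (j + 1))) *
          ((ρ (j + 1)).h * cx g.bs (j + 1) c))) / SC := by
      rw [sum_div]
      refine sum_congr rfl fun j hj => ?_
      have g4 : j + 1 < S.k := by have := h.hr; have := mem_range.1 hj; omega
      obtain ⟨g5, g6, g7, -⟩ := hρ _ g4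
      rw [g5, g6, g7, hg.up _ (by omega) g4, fH, fL]
      push_cast
      ring
    rw [e4, hδ, hp, hq, NS.H, NS.L, ← hg.up0, ← g2, ← g3]
    push_cast
    simp only [h.hr, sum_range_succ', g1, hg.h0, mul_add, sum_add_distrib, sum_sub_distrib,
      ← sum_mul]
    push_cast
    ring
  have k : μ * δ / 2 ^ 20 ≤ (a : ℝ) - b + (∑ j ∈ range S.k, gaP P Q md μ (ρ j) * cx g.bs j c : ℕ) -
      (∑ j ∈ range S.k, gaM P Q md μ (ρ j) * cx g.bs j c : ℕ) := by
    have g1 := (shr_le ((p - q) * μ)).2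
    have g2 := (shr_le ((q - p) * μ)).1
    have g3 : ((p - q : ℕ) : ℝ) - (q - p : ℕ) = p - q := by
      rcases le_total p q with c | c <;> simp [Nat.sub_eq_zero_of_le c, Nat.cast_sub c]
    rw [ha, Nat.cast_mul] at g1
    rw [hb', Nat.cast_mul] at g2
    rw [hδ, mul_add, add_div, mul_sum, sum_div, add_sub_assoc, Nat.cast_sum, Nat.cast_sum,
      ← sum_sub_distrib]
    refine add_le_add (by rw [← g3]; linear_combination g1 + g2) (sum_le_sum fun j _ => ?_)
    have g4 := shr_le (gaX P Q md (ρ j) * μ)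
    have g5 : (0 : ℝ) ≤ cx g.bs j c := Nat.cast_nonneg _
    unfold gaP gaM
    split_ifs with c1
    · have := mul_le_mul_of_nonneg_right g4.1 g5
      rw [Nat.cast_mul _ μ, gaX] at this
      rw [Nat.cast_mul, Nat.cast_mul, gaX]
      simp only [c1, Nat.cast_mul, Nat.cast_add, Nat.cast_zero] at this ⊢
      linear_combination this
    · have c2 : dN P Q md (ρ j) = 0 := by
        unfold dP dN at *
        omega
      have := mul_le_mul_of_nonneg_right g4.2 g5
      rw [Nat.cast_mul _ μ, gaX] at this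
      rw [Nat.cast_mul, Nat.cast_mul, gaX]
      simp only [c2, Nat.cast_mul, Nat.cast_add, Nat.cast_zero] at this ⊢
      linear_combination this
  have b4 := b3 c
  generalize ∑ j ∈ range S.k, gaP P Q md μ (ρ j) * cx g.bs j c = X at *
  generalize ∑ j ∈ range S.k, gaM P Q md μ (ρ j) * cx g.bs j c = X' at *
  have k1 : (a : ℝ) - b + X - X' ≤ (2147483648 + a - b + X - X' - 2 ^ 31 : ℕ) := by
    have : (a : ℤ) - b + X - X' ≤ (2147483648 + a - b + X - X' - 2 ^ 31 : ℕ) := by omega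
    exact_mod_cast this
  have k2 : (a : ℝ) - b + X - X' - a0 ≤ (2147483648 + a - b + X - X' - a0 - 2 ^ 31 : ℕ) := by
    have : (a : ℤ) - b + X - X' - a0 ≤ (2147483648 + a - b + X - X' - a0 - 2 ^ 31 : ℕ) := by omega
    exact_mod_cast this
  have k3 := (shr_le (μ * s)).1
  rw [ha0, Nat.cast_mul] at k3
  exact fin_le Z1 hZ (mul_nonneg h.hR (cw_nn c)) (k.trans k1) ((sub_le_sub k k3).trans k2)

end Pool.Agent.MP_c853c5_nt.X
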