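import Pool.Agent.MP_c853c5_nt.X.XTD

/-!
A grid of cells on the box of a state, one lane of `32` bits for each cell (definitions only).
Long vectors are never passed through `force`; `Nat.mod x 0` is `x`, evaluated once.
-/

set_option autoImplicit false

open Finset

namespace Pool.Agent.MP_c853c5_nt.X

open Pool.Agent.MP_c853c5_nt.S Pool.Agent.MP_c853c5_nt.REG

/-- `2 ^ B` cells; `bs` has fields of `3` bits; `h`, `up`, `wd` have fields of `24` bits -/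
structure Gr where
  B : ℕ
  bs : ℕ
  h : ℕ
  up : ℕ
  wd : ℕ
  O : ℕ
  T : ℕ
  X : List ℕ

def b3 (bs j : ℕ) : ℕ := Nat.mod (Nat.shiftRight bs (Nat.mul 3 j)) 8

noncomputable def off (bs j : ℕ) : ℕ :=
  Nat.rec (motive := fun _ => ℕ) 0 (fun i ih => Nat.add (b3 bs i) ih) j

noncomputable def nthN (l : List ℕ) : ℕ → ℕ :=
  List.rec (motive := fun _ => ℕ → ℕ) (fun _ => 0)
    (fun x _ ih i => Nat.rec (motive := fun _ => ℕ) x (fun n _ => ih n) i) l

/-- fields of `24` bits, saturated -/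
noncomputable def fld (f : ℕ → ℕ) (k : ℕ) : ℕ :=
  Nat.rec (motive := fun _ => ℕ) 0
    (fun j ih => Nat.add (Nat.shiftLeft (mn (f j) 16777215) (Nat.mul 24 j)) ih) k

/-- the lanes are repeated `2 ^ m` times -/
noncomputable def dbl (m : ℕ) : ℕ → ℕ → ℕ :=
  Nat.rec (motive := fun _ => ℕ → ℕ → ℕ) (fun _ V => V)
    (fun _ ih s V => force (Nat.add V (Nat.shiftLeft V s)) fun V' =>
      force (Nat.mul 2 s) fun s' => ih s' V') m

/-- `b` further bits with the weights `w, 2 w, ...` -/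
noncomputable def rmp (b : ℕ) : ℕ → ℕ → ℕ → ℕ → (ℕ → ℕ → ℕ → ℕ) → ℕ :=
  Nat.rec (motive := fun _ => ℕ → ℕ → ℕ → ℕ → (ℕ → ℕ → ℕ → ℕ) → ℕ) (fun s O X _ K => K s O X)
    (fun _ ih s O X w K =>
      force (Nat.add X (Nat.shiftLeft (Nat.add X (Nat.mul w O)) s)) fun X' =>
      force (Nat.add O (Nat.shiftLeft O s)) fun O' =>
      force (Nat.mul 2 s) fun s' => force (Nat.mul 2 w) fun w' => ih s' O' X' w' K) b

/-- the lanes of the nodes `j, ..., j + n - 1`; `m` bits are left -/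
noncomputable def lanes (bs h n : ℕ) : ℕ → ℕ → ℕ → ℕ → (ℕ → List ℕ → ℕ) → ℕ :=
  Nat.rec (motive := fun _ => ℕ → ℕ → ℕ → ℕ → (ℕ → List ℕ → ℕ) → ℕ) (fun _ _ O _ K => K O [])
    (fun _ ih j s O m K =>
      force (b3 bs j) fun b => force (get h j) fun w => force (Nat.sub m b) fun m' =>
      rmp b s O 0 w fun s' O' X => force (dbl m' s' X) fun X' =>
      force (Nat.succ j) fun j' => ih j' s' O' m' fun O2 L => K O2 (X' :: L)) n

/-- `1` in each lane -/
def gO (B : ℕ) : ℕ := Nat.div (Nat.sub (one (Nat.shiftLeft 32 B)) 1) 4294967295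

def gT (B : ℕ) : ℕ := Nat.shiftLeft (gO B) 31

/-- `c` in the lane `c` -/
def gI (B : ℕ) : ℕ := Nat.div (Nat.sub
  (Nat.add (Nat.shiftLeft (Nat.sub (one B) 1) (Nat.shiftLeft 32 B)) 1) (gO B)) 4294967295

/-- the bits `o, ..., o + b - 1` of `c` in the lane `c` -/
def gU (B o b : ℕ) : ℕ :=
  Nat.land (Nat.shiftRight (gI B) o) (Nat.mul (Nat.sub (one b) 1) (gO B))

abbrev KL := ℕ → ℕ → ℕ → ℕ → List ℕ → ℕ

noncomputable def mkT (ih : ℕ → ℕ → KL → ℕ) (j o : ℕ) (K : KL) (b l w p : ℕ) : ℕ :=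
  grd (Nat.blt (Nat.add l (Nat.shiftLeft w b)) 16777215)
    (force (Nat.add o b) fun o' => ih (Nat.succ j) o' fun B h up wd L =>
      K B (Nat.add h (Nat.shiftLeft w p)) (Nat.add up (Nat.shiftLeft (Nat.add l w) p))
        (Nat.add wd (Nat.shiftLeft (Nat.shiftLeft w b) p))
        (Nat.mod (Nat.mul w (gU B o b)) 0 :: L))

/-- the nodes `j, ..., j + n - 1`; `o` bits are used -/
noncomputable def mkL (lo hi bs n : ℕ) : ℕ → ℕ → KL → ℕ :=
  Nat.rec (motive := fun _ => ℕ → ℕ → KL → ℕ) (fun _ o K => K o 0 0 0 [])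
    (fun _ ih j o K => force (b3 bs j) fun b => mkT ih j o K b (get lo j)
      (Nat.shiftRight (Nat.add (Nat.sub (get hi j) (get lo j)) (Nat.sub (one b) 1)) b)
      (Nat.mul 24 j)) n

/-- the grid with `b3 bs j` bits on the node `j`; `b3 bs 0 = 0` -/
noncomputable def mkGr (S : NS) (bs : ℕ) (K : Gr → ℕ) : ℕ :=
  grd (Nat.beq (Nat.mod bs 8) 0) (mkL S.lo S.hi bs (Nat.pred S.k) 1 0 fun B h up wd L =>
    grd (Nat.ble B 16)
      (K ⟨B, bs, h, Nat.add up (get S.hi 0), wd, Nat.mod (gO B) 0, Nat.mod (gT B) 0, 0 :: L⟩))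

noncomputable def sumX (X l : List ℕ) : ℕ :=
  List.rec (motive := fun _ => ℕ) 0 (fun e _ ih => Nat.add (Nat.mul (cf e) (nthN X (nd e))) ih) l

def c5 (v : ℕ) : ℕ := Nat.mod v (one 384)

def m5 : ℕ := Nat.mul (Nat.div (Nat.pred (one 1920)) (Nat.pred (one 384))) 16777215

def o24 : ℕ := Nat.div (Nat.pred (one 384)) 16777215

/-- five vectors in blocks of `384` bits -/
def g5 (g : Gr) (S : NS) : ℕ :=
  Nat.add (Nat.shiftLeft (c5 o24) 1536)
    (Nat.add (Nat.shiftLeft (c5 g.wd) 1152) (Nat.add (Nat.shiftLeft (c5 S.hi) 768)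
      (Nat.add (Nat.shiftLeft (c5 g.up) 384) (c5 S.lo))))

noncomputable def xg (g : Gr) (j : ℕ) : ℕ := nthN g.X j

/-- the five sums over a list, and its lanes -/
noncomputable def pas (op : ℕ → ℕ → ℕ) (g : Gr) (V : ℕ) (l : List ℕ) :
    ℕ → (ℕ → ℕ) → (ℕ → (ℕ → ℕ) → ℕ) → ℕ :=
  List.rec (motive := fun _ => ℕ → (ℕ → ℕ) → (ℕ → (ℕ → ℕ) → ℕ) → ℕ) (fun s f K => K s f)
    (fun e _ ih s f K => force (nd e) fun j =>
      ih (Nat.add s (Nat.mul (cf e) (Nat.land (Nat.shiftRight V (Nat.mul 24 j)) m5)))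
        (fun a => op (f a) (Nat.mul (cf e) (xg g j))) K) l

def f5 (s i : ℕ) : ℕ := c5 (Nat.shiftRight s i)

noncomputable def lt3 (g : Gr) (f1 f2 : ℕ → ℕ) (w1 w2 p q : ℕ) : ℕ :=
  cnd (Nat.blt (Nat.lor (Nat.add (Nat.sub p q) w1) (Nat.add (Nat.sub q p) w2)) 2147483648)
    (Nat.land (f1 (f2 (Nat.mul (Nat.sub (Nat.add 2147483648 q) p) g.O))) g.T) 0

noncomputable def lt2 (g : Gr) (c1 s1 s2 : ℕ) (f1 f2 : ℕ → ℕ) (q : ℕ) : ℕ :=
  cnd (Nat.blt (Nat.shiftRight (Nat.add s1 s2) 1536) 4294967296)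
    (cnd (Nat.ble (Nat.add c1 (f5 s1 768)) q) g.T
      (lt3 g f1 f2 (f5 s1 1152) (f5 s2 1152) (Nat.add c1 (f5 s1 384)) q)) 0

/-- cells on which the row holds -/
noncomputable def ltM (g : Gr) (S : NS) (r : Rw) : ℕ :=
  pas Nat.sub g (g5 g S) r.l1 0 (fun a => a) fun s1 f1 =>
  pas Nat.add g (g5 g S) r.l2 0 (fun a => a) fun s2 f2 =>
    lt2 g r.c1 s1 s2 f1 f2 (Nat.add r.c2 (c5 s2))

/-- cells on which all rows hold -/
noncomputable def ltA (g : Gr) (S : NS) (L : List Rw) : ℕ :=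
  List.rec (motive := fun _ => ℕ) g.T (fun r _ ih => Nat.land (ltM g S r) ih) L

/-- an item reads its code and passes a mask and the rest of the code on -/
abbrev Item := Gr → Rec → Bool → NS → ℕ → (ℕ → ℕ → ℕ) → ℕ

/-- a provider reads its code and passes a list of rows and the rest of the code on -/
abbrev Prov := NS → ℕ → (List Rw → ℕ → ℕ) → ℕ

noncomputable def ofP (p : Prov) : Item := fun g _ _ S s K =>
  p S s fun L v => K (ltA g S L) v

def noI : Item := fun _ _ _ _ _ _ => INF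

/-- cells on which one of the selected rows fails -/
noncomputable def kil (g : Gr) (S : NS) (rs : List Rw) : ℕ → ℕ :=
  List.rec (motive := fun _ => ℕ → ℕ) (fun _ => 0)
    (fun r _ ih m => force (Nat.shiftRight m 1) fun m' =>
      cnd (bit m 0) (Nat.lor (ltM g S ⟨Nat.succ r.c2, r.l2, r.c1, r.l1⟩) (ih m')) (ih m')) rs

/-- `24` bits select stored rows -/
noncomputable def killI : Item := fun g _ _ S s K =>
  force (Nat.mod s 16777216) fun m => force (Nat.shiftRight s 24) (K (kil g S S.rs m))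

/-- the block `i` is too small -/
noncomputable def smallP : Prov := fun S s K =>
  force (Nat.mod s 16) fun i => force (Nat.shiftRight s 4) fun v =>
    grd (Nat.blt i S.k) (addRow S.par S.k (one i) 0 0 19999 [] fun L => K L v)

/-- a box in units of cells, `8 + 8` bits for each node `j ≥ 1` -/
noncomputable def subB (g : Gr) (S : NS) (d n : ℕ) : (ℕ → ℕ → List Rw → ℕ) → ℕ :=
  Nat.rec (motive := fun _ => (ℕ → ℕ → List Rw → ℕ) → ℕ) (fun K => K S.lo S.hi [])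
    (fun j ih K => force (Nat.succ j) fun i =>
      force (Nat.shiftRight d (Nat.mul 16 j)) fun e =>
      force (Nat.add (get S.lo i) (Nat.mul (Nat.mod e 256) (get g.h i))) fun l =>
      force (Nat.add (get S.lo i) (Nat.mul (Nat.mod (Nat.shiftRight e 8) 256) (get g.h i))) fun u =>
      ih fun lo hi L => force (put lo i (mn l (get S.hi i))) fun lo' =>
        force (put hi i (mn u (get S.hi i))) fun hi' =>
        K lo' hi' (⟨l, [], 0, [i]⟩ :: ⟨0, [i], u, []⟩ :: L)) n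

/-- a box is handed to the checker -/
noncomputable def childI : Item := fun g ih sg S s K =>
  force (Nat.mul 16 (Nat.pred S.k)) fun w => force (Nat.mod s (one w)) fun d =>
  subB g S d (Nat.pred S.k) fun lo hi L =>
    two (Nat.shiftRight s w) (ih sg ⟨S.k, S.par, S.kd, lo, hi, S.rs⟩) (K (ltA g S L))

noncomputable def gLoop (IT : BT Item) (MS : Gr → NS → ℕ → ℕ → ℕ) (g : Gr) (ih : Rec) (sg : Bool)
    (S : NS) (n : ℕ) : ℕ → ℕ → ℕ :=
  Nat.rec (motive := fun _ => ℕ → ℕ → ℕ)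
    (fun al s => cnd (Nat.beq al 0) 0 (grd sg (MS g S al s)))
    (fun _ nx al s => force (Nat.mod s 16) fun q => force (Nat.shiftRight s 4) fun v =>
      IT.find q g ih sg S v fun m u => nx (Nat.xor al (Nat.land al m)) u) n

/-- `3` bits for each node `j ≥ 1`, `6` bits for the number of items, the items with `4` bits
for their type, the data of the mass -/
noncomputable def gdR (IT : BT Item) (MS : Gr → NS → ℕ → ℕ → ℕ) : Rule := fun _ ih sg S s =>
  force (Nat.mul 3 (Nat.pred S.k)) fun w =>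
  force (Nat.shiftLeft (Nat.mod s (one w)) 3) fun bs => force (Nat.shiftRight s w) fun v =>
  force (Nat.mod v 64) fun n =>
  mkGr S bs fun g => force (Nat.shiftRight v 6) (gLoop IT MS g ih sg S n g.T)

/-! ### specifications -/

def pk (n : ℕ) (f : ℕ → ℕ) : ℕ := ∑ c ∈ range n, f c * 2 ^ (32 * c)

/-- the coordinate of the cell `c` on the node `j` -/
noncomputable def cx (bs j c : ℕ) : ℕ := c / 2 ^ off bs j % 2 ^ b3 bs j

def onM (m c : ℕ) : Prop := m.testBit (32 * c + 31) = true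

def Cell (g : Gr) (S : NS) (c : ℕ) (y : Pt) : Prop := ∀ j, 1 ≤ j → j < S.k →
  ((get S.lo j + cx g.bs j c * get g.h j : ℕ) : ℝ) / SC ≤ y j ∧
    y j ≤ ((get S.lo j + (cx g.bs j c + 1) * get g.h j : ℕ) : ℝ) / SC

structure Gr.OK (g : Gr) (S : NS) : Prop where
  hB : g.B = off g.bs S.k
  b16 : g.B ≤ 16
  b0 : b3 g.bs 0 = 0
  h0 : get g.h 0 = 0
  hO : g.O = pk (2 ^ g.B) fun _ => 1
  hT : g.T = pk (2 ^ g.B) fun _ => 2 ^ 31
  hX : ∀ j < S.k, nthN g.X j = pk (2 ^ g.B) fun c => get g.h j * cx g.bs j c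
  up0 : get g.up 0 = get S.hi 0
  up : ∀ j, 1 ≤ j → j < S.k → get g.up j = get S.lo j + get g.h j
  wd : ∀ j < S.k, get g.wd j = get g.h j * 2 ^ b3 g.bs j
  cov : ∀ j, 1 ≤ j → j < S.k → get S.hi j ≤ get S.lo j + get g.h j * 2 ^ b3 g.bs j

/-- the points of the state in a cell of the mask -/
def OmM (g : Gr) (S : NS) (A : ℕ → Finset ℕ) (m : ℕ) (a : Pt) : Prop :=
  Om S A a ∧ ∃ c < 2 ^ g.B, onM m c ∧ Cell g S c (Y A a)

def Itok (t : ℝ) (p : Item) : Prop := ∀ (g : Gr) (ih : Rec) (sg : Bool) (S : NS)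
  (A : ℕ → Finset ℕ) (s : ℕ) (K : ℕ → ℕ → ℕ), (∀ sg S s, Val t sg S (ih sg S s)) → Inv S A →
  g.OK S → p g ih sg S s K < INF → ∃ m u l : ℕ, p g ih sg S s K = l + K m u ∧
    H sg t S.k S.kind (OmM g S A m) ((l : ℝ) / 10 ^ 9)

def Prok (t : ℝ) (p : Prov) : Prop := ∀ (sg : Bool) (S : NS) (A : ℕ → Finset ℕ) (s : ℕ)
  (K : List Rw → ℕ → ℕ), Inv S A → p S s K < INF → ∃ (L : List Rw) (u : ℕ), p S s K = K L u ∧
    (∀ r ∈ L, (∀ e ∈ r.l1, nd e < S.k) ∧ ∀ e ∈ r.l2, nd e < S.k) ∧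
    H sg t S.k S.kind (fun a => Om S A a ∧ ∀ r ∈ L, r.ok (Y A a)) 0

def MSok (MS : Gr → NS → ℕ → ℕ → ℕ) : Prop := ∀ (g : Gr) (S : NS) (A : ℕ → Finset ℕ) (m d : ℕ),
  Inv S A → g.OK S → MS g S m d < INF →
  Mass (SF S.k S.kind fun a => OmM g S A m a ∧ ∀ j < S.k, 1 / 50 ≤ a j)
    ((MS g S m d : ℝ) / 10 ^ 9)

/-- the lane library -/
def MkStmt : Prop := ∀ (S : NS) (bs : ℕ) (K : Gr → ℕ), 1 ≤ S.k → mkGr S bs K < INF →
  ∃ g : Gr, g.OK S ∧ mkGr S bs K = K g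

def LtStmt : Prop := ∀ (g : Gr) (S : NS) (r : Rw) (c : ℕ) (y : Pt), g.OK S → 1 ≤ S.k →
  (∀ e ∈ r.l1, nd e < S.k) → (∀ e ∈ r.l2, nd e < S.k) → c < 2 ^ g.B → onM (ltM g S r) c →
  Cell g S c y → (∀ j < S.k, (get S.lo j : ℝ) / SC ≤ y j ∧ y j ≤ (get S.hi j : ℝ) / SC) → r.ok y

end Pool.Agent.MP_c853c5_nt.X
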