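import Pool.Agent.MP_c853c5_nt.X.GdD

/-!
Polytopes as providers of rows (definitions only).
-/

set_option autoImplicit false

namespace Pool.Agent.MP_c853c5_nt.X

/-- the rows of `P` that fail on the box -/
noncomputable def rowsP (S : NS) (G g0 : ℕ) (r : RL) (P : List (ℕ × ℕ)) : (List Rw → ℕ) → ℕ :=
  List.rec (motive := fun _ => (List Rw → ℕ) → ℕ) (fun K => K [])
    (fun y _ nx K => force (Nat.mul (dg y.1 g0) 1000000) fun u =>
      cnd (rowLe y.1 r u y.2) (nx K)
        (mkRow S.par G y.1 (Nat.pred S.k) fun m l1 l2 =>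
          force (Nat.add u (Nat.mul 16 m)) fun c => nx fun L => K (⟨c, l1, y.2, l2⟩ :: L))) P

noncomputable def polyK (S : NS) (G : ℕ) (P : List (ℕ × ℕ)) (K : List Rw → ℕ) : ℕ :=
  force (Nat.mul 12 (d4 G 0)) fun g0 => mkRL S G false (Nat.pred S.k) fun r => rowsP S G g0 r P K

/-- `16` bits for the polytope, `4 k` bits for the groups -/
noncomputable def tabP (gd : NS → ℕ → ℕ → Bool) (PL : BT PP) : Prov := fun S s K =>
  force (Nat.mod s 65536) fun i => force (Nat.mul 4 S.k) fun w =>
  force (Nat.mod (Nat.shiftRight s 16) (one w)) fun G =>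
  force (Nat.shiftRight s (Nat.add 16 w)) fun v =>
  grd (gd S G (PL.find i).k) (polyK S G (PL.find i).P fun L => K L v)

/-- the guard of type II -/
noncomputable def g2 (S : NS) (G m : ℕ) : Bool :=
  band (hasP S) (allN (fun j => Nat.blt (d4 G j) m) S.k)

end Pool.Agent.MP_c853c5_nt.X
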