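import Pool.Agent.MP_c853c5_nt.X.Chk

/-!
Tables of claims (definitions only).
-/

set_option autoImplicit false

namespace Pool.Agent.MP_c853c5_nt.X

/-- the claims of a list as a table -/
noncomputable def lkp (l : List (Rf × ℕ)) : BT Rf :=
  List.rec (motive := fun _ => BT Rf) (.lf ⟨true, root, INF⟩) (fun x _ ih => .nd 1 (.lf x.1) ih) l

/-- the same tables with other claims -/
def Env.wth (E : Env) (T : BT Rf) : Env := ⟨E.tn, E.PL, E.PS, E.MN, T, E.XT⟩

def ValR (t : ℝ) (x : Rf) : Prop := Val t x.sg x.S x.l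

end Pool.Agent.MP_c853c5_nt.X
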