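import Pool.Agent.MP_c853c5_nt.X.GmD
import Pool.Agent.MP_c853c5_nt.X.SndA

/-!
Lanes of arbitrary width and their contraction.
-/

set_option autoImplicit false

open Finset

namespace Pool.Agent.MP_c853c5_nt.X

def pv (F N : ℕ) (u : ℕ → ℕ) : ℕ := ∑ c ∈ range N, u c * 2 ^ (F * c)

variable {F N : ℕ} {u : ℕ → ℕ}

lemma pv_succ (F N : ℕ) (u : ℕ → ℕ) :
    pv F (N + 1) u = 2 ^ F * pv F N (fun c => u (c + 1)) + u 0 := by
  rw [pv, sum_range_succ', pv, mul_sum, mul_zero, pow_zero, mul_one]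
  exact congrArg (· + _) (sum_congr rfl fun c _ => by ring)

lemma pv_congr {v : ℕ → ℕ} (h : ∀ c < N, u c = v c) : pv F N u = pv F N v :=
  sum_congr rfl fun c hc => by rw [h c (mem_range.1 hc)]

lemma pv_dig (c : ℕ) : ∀ (N : ℕ) (u : ℕ → ℕ), (∀ c, u c < 2 ^ F) → c < N →
    pv F N u / 2 ^ (F * c) % 2 ^ F = u c := by
  induction c with
  | zero =>
    intro N u h hc
    obtain ⟨N, rfl⟩ := Nat.exists_eq_succ_of_ne_zero hc.ne'
    rw [mul_zero, pow_zero, Nat.div_one, pv_succ, Nat.mul_add_mod, Nat.mod_eq_of_lt (h 0)]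
  | succ c ih =>
    intro N u h hc
    obtain ⟨N, rfl⟩ := Nat.exists_eq_succ_of_ne_zero (show N ≠ 0 by omega)
    rw [mul_add, mul_one, pow_add, mul_comm (2 ^ _), ← Nat.div_div_eq_div_mul, pv_succ,
      Nat.mul_add_div (by positivity), Nat.div_eq_of_lt (h 0), add_zero]
    exact ih N _ (fun c => h _) (by omega)

lemma pv_land (N : ℕ) : ∀ (Z : ℕ) (u : ℕ → ℕ), (∀ c, u c < 2 ^ F) →
    Z &&& pv F N u = pv F N fun c => (Z / 2 ^ (F * c) % 2 ^ F) &&& u c := by
  induction N with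
  | zero => simp [pv]
  | succ N ih =>
    intro Z u h
    have e : (pv F N fun c => (Z / 2 ^ (F * (c + 1)) % 2 ^ F) &&& u (c + 1)) =
        Z / 2 ^ F &&& pv F N fun c => u (c + 1) := by
      rw [ih _ _ fun c => h _]
      exact pv_congr fun c _ => by rw [Nat.div_div_eq_div_mul, ← pow_add, mul_add, mul_one, add_comm]
    rw [pv_succ, pv_succ, e]
    refine Nat.eq_of_testBit_eq fun i => ?_
    rw [Nat.testBit_and, Nat.testBit_two_pow_mul_add _ (h 0),
      Nat.testBit_two_pow_mul_add _ (Nat.and_lt_two_pow _ (h 0))]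
    split_ifs with c
    · simp [Nat.testBit_mod_two_pow, c]
    · rw [Nat.testBit_and, Nat.testBit_div_two_pow, show i - F + F = i by omega]

lemma pv_geo (F N : ℕ) : (2 ^ F - 1) * pv F N (fun _ => 1) + 1 = 2 ^ (F * N) := by
  induction N with
  | zero => simp [pv]
  | succ N ih =>
    obtain ⟨y, hy⟩ : ∃ y, 2 ^ F = y + 1 := ⟨2 ^ F - 1, by have := Nat.one_le_two_pow (n := F); omega⟩
    rw [pv, sum_range_succ, ← pv, mul_add F, mul_one, pow_add, ← ih, hy, Nat.add_sub_cancel]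
    ring

lemma pv_mul (F N n : ℕ) (v r : ℕ → ℕ) : pv F N v * pv F n r = pv F (N + n) fun c =>
    ∑ y ∈ range n, if y ≤ c ∧ c - y < N then v (c - y) * r y else 0 := by
  simp only [pv, sum_mul, mul_sum]
  rw [sum_comm (s := range (N + n))]
  refine sum_congr rfl fun y hy => ?_
  simp only [ite_mul, zero_mul]
  rw [← sum_filter, show (range (N + n)).filter (fun c => y ≤ c ∧ c - y < N) = Ico (0 + y) (N + y) by
    ext c
    simp only [mem_filter, mem_range, mem_Ico] at hy ⊢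
    omega, ← sum_Ico_add', ← range_eq_Ico]
  exact sum_congr rfl fun c _ => by rw [Nat.add_sub_cancel]; ring

lemma sum_two (f : ℕ → ℕ) (N : ℕ) :
    ∑ y ∈ range (2 * N), f y = ∑ y ∈ range N, (f (2 * y) + f (2 * y + 1)) := by
  induction N with
  | zero => rfl
  | succ N ih => rw [mul_add, mul_one, sum_range_succ, sum_range_succ, sum_range_succ, ih, add_assoc]

lemma sum_grp {M : Type} [AddCommMonoid M] (f : ℕ → M) (G n : ℕ) :
    ∑ c ∈ range (G * n), f c = ∑ g ∈ range G, ∑ x ∈ range n, f (g * n + x) := by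
  induction G with
  | zero => simp
  | succ G ih => rw [add_mul, one_mul, sum_range_add, ih, sum_range_succ]

lemma rmp_pv (K : ℕ → ℕ → ℕ → ℕ) (b : ℕ) : ∀ s O X w, rmp b s O X w K = K (s * 2 ^ b)
    (O * pv s (2 ^ b) fun _ => 1) (X * (pv s (2 ^ b) fun _ => 1) + w * O * pv s (2 ^ b) id) := by
  induction b with
  | zero => intro s O X w; simp [rmp, pv]
  | succ b ih =>
    intro s O X w
    have e1 : (pv s (2 ^ (b + 1)) fun _ => 1) = (1 + 2 ^ s) * pv (2 * s) (2 ^ b) fun _ => 1 := by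
      rw [pv, pow_succ', sum_two, pv, mul_sum]
      exact sum_congr rfl fun y _ => by ring
    have e2 : pv s (2 ^ (b + 1)) id = 2 * (1 + 2 ^ s) * pv (2 * s) (2 ^ b) id +
        2 ^ s * pv (2 * s) (2 ^ b) fun _ => 1 := by
      rw [pv, pow_succ', sum_two, pv, pv, mul_sum, mul_sum, ← sum_add_distrib]
      exact sum_congr rfl fun y _ => by simp only [id]; ring
    have e : rmp (b + 1) s O X w K =
        rmp b (2 * s) (O + O <<< s) (X + (X + w * O) <<< s) (2 * w) K := by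
      simp only [rmp, force_eq]
      rfl
    rw [e, ih, e1, e2, Nat.shiftLeft_eq, Nat.shiftLeft_eq]
    congr 1 <;> ring

/-- the weight of the cell `x` -/
def wx (b p q x : ℕ) : ℕ := p * (2 * (2 ^ b - 1 - x) + 1) + q * (2 * x + 1)

lemma sum_odd (n : ℕ) : ∑ x ∈ range n, (2 * x + 1) = n * n := by
  induction n with
  | zero => rfl
  | succ n ih => rw [sum_range_succ, ih]; ring

lemma sum_wx (b p q : ℕ) : ∑ x ∈ range (2 ^ b), wx b p q x = (p + q) * 2 ^ (2 * b) := by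
  simp only [wx, sum_add_distrib (f := fun x => p * _), ← mul_sum]
  rw [sum_range_reflect (fun x => 2 * x + 1), sum_odd]
  ring

theorem ctr_eq {G b p q m : ℕ} {v : ℕ → ℕ} (K : ℕ → ℕ → ℕ) (hF : 0 < F) (hv : ∀ c, v c ≤ m)
    (hm : m * ((p + q) * 2 ^ (2 * b)) < 2 ^ F) :
    ctr (2 ^ (F * (G * 2 ^ b)) - 1) b p q F (pv F (G * 2 ^ b) v) K = K (F * 2 ^ b)
      (pv (F * 2 ^ b) G fun g => ∑ x ∈ range (2 ^ b), v (g * 2 ^ b + x) * wx b p q x) := by
  have n0 : 0 < 2 ^ b := by positivity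
  have f1 : F ≤ F * 2 ^ b := Nat.le_mul_of_pos_right _ n0
  have f2 : 1 < 2 ^ (F * 2 ^ b) := Nat.one_lt_two_pow (by omega)
  have e1 : (2 ^ (F * (G * 2 ^ b)) - 1) / (2 ^ (F * 2 ^ b) - 1) = pv (F * 2 ^ b) G fun _ => 1 := by
    rw [show F * (G * 2 ^ b) = F * 2 ^ b * G by ring, ← pv_geo, Nat.add_sub_cancel,
      Nat.mul_div_cancel_left _ (by omega)]
  have e2 : (pv (F * 2 ^ b) G fun _ => 1) <<< F - (pv (F * 2 ^ b) G fun _ => 1) =
      pv (F * 2 ^ b) G fun _ => 2 ^ F - 1 := by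
    rw [Nat.shiftLeft_eq, ← Nat.mul_sub_one, pv, pv, sum_mul]
    exact sum_congr rfl fun _ _ => by ring
  have e3 : (p + q * (2 ^ (b + 1) - 1)) * (1 * pv F (2 ^ b) fun _ => 1) +
      p * (0 * (pv F (2 ^ b) fun _ => 1) + 2 * 1 * pv F (2 ^ b) id) -
      q * (0 * (pv F (2 ^ b) fun _ => 1) + 2 * 1 * pv F (2 ^ b) id) =
      pv F (2 ^ b) fun y => wx b p q (2 ^ b - 1 - y) := by
    refine Nat.sub_eq_of_eq_add ?_
    simp only [pv, zero_mul, zero_add, one_mul, mul_one, mul_sum, ← sum_add_distrib]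
    refine sum_congr rfl fun y hy => ?_
    obtain ⟨z, hz⟩ := Nat.exists_eq_add_of_lt (mem_range.1 hy)
    rw [wx, pow_succ, hz, show y + z + 1 - 1 - y = z by omega, show y + z + 1 - 1 - z = y by omega,
      show (y + z + 1) * 2 - 1 = 2 * y + 2 * z + 1 by omega, id]
    ring
  have e : ctr (2 ^ (F * (G * 2 ^ b)) - 1) b p q F (pv F (G * 2 ^ b) v) K = K (F * 2 ^ b)
      ((pv F (G * 2 ^ b) v * pv F (2 ^ b) fun y => wx b p q (2 ^ b - 1 - y)) >>> (F * 2 ^ b - F) &&&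
        pv (F * 2 ^ b) G fun _ => 2 ^ F - 1) := by
    rw [ctr, rmp_pv, force_eq, one_eq, one_eq, ← e3, ← e2, ← e1]
    rfl
  rw [e, pv_land _ _ _ fun _ => lt_of_lt_of_le (by have := Nat.one_le_two_pow (n := F); omega)
    (Nat.pow_le_pow_right two_pos f1)]
  refine congrArg _ (pv_congr fun g hg => ?_)
  have g1 : g * 2 ^ b + 2 ^ b ≤ G * 2 ^ b := by
    rw [← add_one_mul]
    exact Nat.mul_le_mul_right _ hg
  rw [Nat.and_two_pow_sub_one_eq_mod, Nat.mod_mod_of_dvd _ (pow_dvd_pow 2 f1),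
    Nat.shiftRight_eq_div_pow, Nat.div_div_eq_div_mul, ← pow_add,
    show F * 2 ^ b - F + F * 2 ^ b * g = F * (g * 2 ^ b + (2 ^ b - 1)) by
      rw [← Nat.mul_sub_one]; ring, pv_mul, pv_dig _ _ _ (fun c => ?_) (by omega),
    ← sum_range_reflect]
  · refine sum_congr rfl fun x hx => ?_
    rw [mem_range] at hx
    rw [if_pos (by omega), show g * 2 ^ b + (2 ^ b - 1) - (2 ^ b - 1 - x) = g * 2 ^ b + x by omega,
      show 2 ^ b - 1 - (2 ^ b - 1 - x) = x by omega]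
  · refine lt_of_le_of_lt ?_ hm
    rw [← sum_wx, ← sum_range_reflect (wx b p q), mul_sum]
    refine sum_le_sum fun y _ => ?_
    split_ifs
    exacts [Nat.mul_le_mul_right _ (hv _), Nat.zero_le _]

end Pool.Agent.MP_c853c5_nt.X
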