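import Pool.Agent.MP_c853c5_nt.X.M2D
import Pool.Agent.MP_c853c5_nt.X.GdD

/-!
The mass of the cells of a mask (definitions only).
-/

set_option autoImplicit false

namespace Pool.Agent.MP_c853c5_nt.X

/-- groups of `2 ^ b` lanes of `F` bits are contracted with the weights
`p (2 ^ (b + 1) - 1 - 2 x) + q (2 x + 1)` -/
noncomputable def ctr (Z b p q F V : ℕ) (K : ℕ → ℕ → ℕ) : ℕ :=
  rmp b F 1 0 2 fun F' O X => force (Nat.div Z (Nat.pred (one F'))) fun M =>
    K F' (Nat.land (Nat.shiftRight (Nat.mul V (Nat.sub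
      (Nat.add (Nat.mul (Nat.add p (Nat.mul q (Nat.pred (one (Nat.succ b))))) O) (Nat.mul p X))
      (Nat.mul q X))) (Nat.sub F' F)) (Nat.sub (Nat.shiftLeft M F) M))

/-- the nodes `j, …, j + n - 1`; lanes of `F` bits with values up to `m` -/
noncomputable def gL (g : Gr) (S : NS) (W C Z e n : ℕ) : ℕ → ℕ → ℕ → ℕ → ℕ → ℕ :=
  Nat.rec (motive := fun _ => ℕ → ℕ → ℕ → ℕ → ℕ → ℕ) (fun _ _ V _ P => cdR (Nat.mul P V) e)
    (fun _ ih j F V m P => force (Nat.sub (get S.hi j) (get S.lo j)) fun w =>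
      force (eX W C j w) fun e1 => force (eX W C (get S.par j) w) fun e2 =>
      force (b3 g.bs j) fun b => force (Nat.succ (Nat.shiftRight e2 13)) fun p =>
      force (Nat.succ (Nat.shiftRight (Nat.add e1
        (cdR (Nat.mul (Nat.sub e1 e2) (Nat.sub (get g.wd j) w)) w)) 13)) fun q =>
      force (Nat.succ j) fun j' =>
      force (Nat.mul P (Nat.shiftLeft (get g.h j) (Nat.sub 13 b))) fun P' =>
      cnd (Nat.beq b 0) (ih j' F V m (Nat.mul P' (Nat.add p q)))
        (force (Nat.mul m (Nat.shiftLeft (Nat.add p q) (Nat.mul 2 b))) fun m' =>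
          grd (Nat.beq (Nat.shiftRight m' F) 0) (ctr Z b p q F V fun F' V' => ih j' F' V' m' P'))) n

/-- the mass of the cells of the mask `m`; the data are not used -/
noncomputable def gdM (g : Gr) (S : NS) (m _d : ℕ) : ℕ :=
  force (Nat.pred S.k) fun n => force (chV S n) fun V =>
    force (mkW S V S.k) fun W => accB S W S.k fun p c => force p fun p => force c fun C =>
    force (Nat.pred (one (Nat.shiftLeft 32 g.B))) fun Z =>
    gL g S W C Z (Nat.pow 2000000000000000000000000 n) n 1 32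
      (Nat.land (Nat.shiftRight m 31) g.O) 1 p

end Pool.Agent.MP_c853c5_nt.X
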