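import Pool.Agent.MP_c853c5_nt.X.GtC

/-!
Soundness of the rows of a polytope on the small grid.
-/

set_option autoImplicit false

open Finset

namespace Pool.Agent.MP_c853c5_nt.X

open Pool.Agent.MP_c853c5_nt.S Pool.Agent.MP_c853c5_nt.REG Pool.Agent.MP_c853c5_nt.L Ln

variable {S : NS} {A : ℕ → Finset ℕ} {t : ℝ} {x : Ga} {w : ℕ → ℝ} {q : PQ} {g : Gr}

section

variable (T O U : ℕ) (L : ℕ → ℕ → ℕ) (Y Y' Z c : ℕ)

def rV (b : ℕ) : ℕ := tR0 (fun _ u _ => u) T O U L Y Y' Z c 0 0 0 b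

def rB (b : ℕ) : ℕ := tR0 (fun _ _ d => d) T O U L Y Y' Z c 0 0 0 b

lemma tR0_eq (nx : ℕ → ℕ → ℕ → ℕ) (X u d b : ℕ) : tR0 nx T O U L Y Y' Z c X u d b =
    nx X (rV T O U L Y Y' Z c b + u) (rB T O U L Y Y' Z c b + d) := by
  simp only [rV, rB, tR0, tR1, tR2, tR3, Nat.add_eq, add_zero]

lemma tR_ok (K : ℕ → ℕ → ℕ) (k : ℕ) : ∀ X u d, tR T O U L Y Y' Z c K k X u d < INF →
    ∃ u' d', tR T O U L Y Y' Z c K k X u d = K u' d' ∧ ∀ (n : ℕ) (l : ℕ → ℕ) (f : ℕ → Pt → ℝ)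
      (F : List (Pt → ℝ)), LB g S A w n l F u d → (∀ i, X.testBit i = true →
        LB g S A w n l [f i] (rV T O U L Y Y' Z c (2 ^ i)) (rB T O U L Y Y' Z c (2 ^ i))) →
      ∃ F', LB g S A w n l F' u' d' ∧ (∀ φ ∈ F, φ ∈ F') ∧ ∀ i, X.testBit i = true → f i ∈ F' := by
  induction k with
  | zero => exact fun _ _ _ h => absurd h (lt_irrefl _)
  | succ k ih =>
    intro X u d h
    cases X with
    | zero => exact ⟨u, d, rfl, fun _ _ _ F h1 _ => ⟨F, h1, fun _ c => c, by simp⟩⟩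
    | succ X =>
      obtain ⟨i, b1, b2⟩ := low_bit X.succ_ne_zero
      rw [Nat.succ_sub_one] at b1 b2
      have e : tR T O U L Y Y' Z c K (k + 1) (X + 1) u d = tR0 (tR T O U L Y Y' Z c K k) T O U L Y Y'
        Z c ((X + 1) &&& X) u d (X + 1 - ((X + 1) &&& X)) := rfl
      rw [e, b1, tR0_eq] at h ⊢
      obtain ⟨u', d', h1, h2⟩ := ih _ _ _ h
      have b3 : (X + 1).testBit i = true := by
        by_contra c
        rw [show (X + 1) &&& X = X + 1 from Nat.eq_of_testBit_eq fun j => (em (j = i)).elim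
          (fun e => by rw [e, Nat.testBit_and, Bool.eq_false_iff.2 c, Bool.false_and]) (b2 j),
          Nat.sub_self] at b1
        exact (Nat.two_pow_pos i).ne b1
      refine ⟨u', d', h1, fun n l f F g1 g2 => ?_⟩
      obtain ⟨F', g3, g4, g5⟩ := h2 n l f _ ((g2 i b3).cons g1 le_rfl) fun j hj => g2 j (by
        rw [Nat.testBit_and, Bool.and_eq_true] at hj
        exact hj.1)
      exact ⟨F', g3, fun φ c => g4 φ (List.mem_cons_of_mem _ c), fun j hj => (em (j = i)).elim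
        (fun e => g4 _ (e ▸ List.mem_cons_self)) fun e => g5 j ((b2 j e).trans hj)⟩

end

lemma rowR (h : GX2 x S A w) {τ n U y y' c b z z' m s : ℕ} {l us ps po ng u v : ℕ → ℕ}
    {L : ℕ → ℕ → ℕ} {κ : ℝ} {f : Pt → ℝ} (hτ : τ ≤ 30) (hz : zX x τ < 2 ^ 26)
    (y1 : y / b % 17592186044416 = z) (y2 : y / b &&& 75557863708322137374720 = 64 * m * 2 ^ 44)
    (y3 : y' / b % 17592186044416 = z') (y4 : y' / b &&& 18889465913886394810368 = s * 2 ^ 44)
    (hU : U = 64 * pk n us) (hL : ∀ V, L b V = V + pk n ps)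
    (hp : ∀ c, ps c + ng c = 64 * us c + po c) (b1 : ∀ c, z + ng c + s ≤ 8798240505857)
    (b2 : ∀ c', 8796093022209 + po c' + z' ≤ c + z) (huv : ∀ j, v j = 0 ∨ u j = 0)
    (hs : s = ∑ j ∈ range S.k, (v j + u j) * get x.g.h j) (s0 : 0 < s)
    (m1 : ∃ j < S.k, m = (v j + u j) * get x.g.h j) (m2 : ∀ j < S.k, (v j + u j) * get x.g.h j ≤ m)
    (hδ : ∀ c, ∑ j ∈ range S.k, ((u j : ℝ) * get x.g.up j - v j * get S.lo j +
      (u j - v j) * (get x.g.h j * cx x.g.bs j c)) - κ ≤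
      (8796093022209 + po (l c) : ℕ) - (z + ng (l c) : ℕ)) (f1 : Lip S.k f)
    (f2 : ∀ a, -(1 / SC) ≤ f a → κ / SC ≤ ∑ j ∈ range S.k, ((u j : ℝ) - v j) * Y A a j) :
    LB x.g S A (fun c => w c / 2 ^ τ) n l [f]
      (rV (pk n fun _ => 2 ^ 31) (pk n fun _ => 1) U L y y' (zT x τ) c b)
      (rB (pk n fun _ => 2 ^ 31) (pk n fun _ => 1) U L y y' (zT x τ) c b) := by
  refine ⟨List.forall_mem_singleton.2 f1, fun hb => ?_⟩
  have m4 : m ≤ s := by
    obtain ⟨j, j1, rfl⟩ := m1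
    exact hs ▸ single_le_sum (f := fun j => (v j + u j) * get x.g.h j) (fun _ _ => Nat.zero_le _)
      (mem_range.2 j1)
  obtain ⟨t1, -, -, t2, t3⟩ := zT_ok (i := 64 * m / s) hz ((Nat.div_lt_iff_lt_mul s0).2 (by omega)) rfl
  have p := Nat.two_pow_pos 44
  have e : ∀ y : ℕ, y &&& 19342813113816474609254400 = y >>> 44 % 2 ^ 40 * 2 ^ 44 :=
    fun y => land_mask y 44 40
  have e' : ∀ y : ℕ, y >>> 40 >>> 44 = y >>> 84 := fun y => (Nat.shiftRight_add y 40 44).symm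
  simp only [rV, rB, tR0, tR1, tR2, tR3, Nat.add_eq, Nat.mul_eq, Nat.sub_eq, Nat.shiftRight_eq,
    Nat.shiftLeft_eq', Nat.land_eq, Nat.succ_eq_add_one, mod_eq, div_eq, add_zero, y1, y2, y3, y4,
    Nat.mul_div_mul_right _ _ p, e, e', t1, t2, t3] at hb ⊢
  have α1 : zX x τ * tA (64 * m / s) ≤ (zX x τ * tA (64 * m / s) / s + 1) * s :=
    ((Nat.div_lt_iff_lt_mul s0).1 (Nat.lt_succ_self _)).le
  have β1 : zX x τ * tB (64 * m / s) ≤ (zX x τ * tB (64 * m / s) / s + 1) * s :=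
    ((Nat.div_lt_iff_lt_mul s0).1 (Nat.lt_succ_self _)).le
  have b3 : c - z' < 2 ^ 31 := (Nat.le_mul_of_pos_left _ (Nat.succ_pos _)).trans_lt hb
  generalize zX x τ * tA (64 * m / s) / s + 1 = α at *
  generalize zX x τ * tB (64 * m / s) / s + 1 = β at *
  have k0 : tK (64 * m / s) * s ≤ 64 * s :=
    Nat.mul_le_mul_right _ (Nat.mod_lt _ (by norm_num : 0 < 64)).le
  have k1 : (tK (64 * m / s) * (s * 2 ^ 44)) >>> 51 = tK (64 * m / s) * s / 128 := by
    rw [← mul_assoc, Nat.shiftRight_eq_div_pow, show 2 ^ 51 = 128 * 2 ^ 44 by norm_num,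
      Nat.mul_div_mul_right _ _ p]
  have k2 := fun c => And.intro (hp c) (And.intro (b1 c) (b2 c))
  rw [k1, hL, hU, pk_smul, pk_smul, pk_smul, pk_add, pk_sub fun c _ => by have := k2 c; omega,
    pk_sub fun c _ => by have := k2 c; omega, clq fun c _ => by have := k2 c; omega,
    clq fun c _ => by have := k2 c; omega, pk_smul, pk_smul, pk_add]
  refine ⟨_, rfl, fun c _ => ?_, fun c _ => ?_⟩
  · have := k2 c
    rw [add_mul]
    exact add_le_add (Nat.mul_le_mul_left _ (by omega)) (Nat.mul_le_mul_left _ (by omega))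
  refine ((h.row c u v κ _ s m huv hs s0 m1 m2 (hδ c)).anti fun a ha => ⟨ha.1, ?_⟩).mono
    (tl_le (μ := 1) hτ s0 zero_le_one (by rw [mul_one]; exact_mod_cast α1)
      (by rw [mul_one]; exact_mod_cast β1) ?_ ?_ (h.w0 c))
  · obtain ⟨φ, g1, g2⟩ := ha.2
    exact f2 a (List.mem_singleton.1 g1 ▸ g2)
  all_goals
    have := k2 (l c)
    rw [one_mul]
  · have : ((8796093022209 + po (l c) : ℕ) : ℤ) - (z + ng (l c) : ℕ) ≤
      ((8798240505857 - z) * 1 + ps (l c) - 64 * us (l c) - 2 ^ 31 : ℕ) := by omega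
    exact_mod_cast this
  · have g1 : ((tK (64 * m / s) * s / 128 : ℕ) : ℝ) ≤ tK (64 * m / s) * s / 128 :=
      Nat.cast_div_le.trans_eq (by push_cast; rfl)
    generalize tK (64 * m / s) * s / 128 = a at *
    have : ((8796093022209 + po (l c) : ℕ) : ℤ) - (z + ng (l c) : ℕ) - a ≤
      ((8798240505857 - z) * 1 + ps (l c) - 64 * us (l c) - a * 1 - 2 ^ 31 : ℕ) := by omega
    exact (sub_le_sub_left g1 _).trans (by exact_mod_cast this)

lemma cut36 (hw : 76 ≤ q.w) {a b : ℕ → ℕ} (ha : ∀ r, a r < 2 ^ 36) (hb : ∀ r, b r < 2 ^ 36) :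
    pw q.w (fun r => a r + b r * 2 ^ 36) q.n &&& fQ q = pw q.w a q.n ∧
    pw q.w (fun r => a r + b r * 2 ^ 36) q.n >>> 36 &&& fQ q = pw q.w b q.n := by
  have e : fQ q = pw q.w (fun _ => 2 ^ 36 - 1) q.n := by
    rw [fQ, mQ_eq (by omega), Nat.mul_eq, pw_mul]
    exact pw_congr fun _ _ => by norm_num
  have l : ∀ r < q.n, a r + b r * 2 ^ 36 < 2 ^ q.w := fun r _ =>
    lt_w76 hw (by have := ha r; have := hb r; omega)
  rw [e, pw_cut (by omega) (by omega), pw_cut (by omega) (by omega)]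
  refine ⟨pw_congr fun r hr => ?_, pw_congr fun r hr => ?_⟩
  · rw [← add_zero (q.w * r), pw_get l hr (by omega), Nat.shiftRight_zero]
    have := ha r
    omega
  · rw [← Nat.shiftRight_add, add_comm 36, pw_get l hr (by omega), Nat.shiftRight_eq_div_pow]
    have := ha r
    have := hb r
    omega

lemma cut44 (hw : 76 ≤ q.w) {a b : ℕ → ℕ} {k r : ℕ} (hk : k ≤ 32) (ha : ∀ r, a r < 2 ^ 44)
    (hb : ∀ r, b r < 2 ^ k) (hr : r < q.n) :
    pw q.w (fun r => a r + b r * 2 ^ 44) q.n / 2 ^ (q.w * r) % 17592186044416 = a r ∧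
    pw q.w (fun r => a r + b r * 2 ^ 44) q.n / 2 ^ (q.w * r) &&& (2 ^ k - 1) * 2 ^ 44 =
      b r * 2 ^ 44 := by
  have p : 2 ^ k ≤ 2 ^ 32 := Nat.pow_le_pow_right two_pos hk
  have l : ∀ r < q.n, a r + b r * 2 ^ 44 < 2 ^ q.w := fun r _ =>
    lt_w76 hw (by have := ha r; have := hb r; omega)
  have := ha r
  rw [land_mask, ← Nat.shiftRight_eq_div_pow, ← Nat.shiftRight_add, pw_get l hr (by omega),
    ← add_zero (q.w * r), show 17592186044416 = 2 ^ 44 by norm_num, pw_get l hr (by omega),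
    Nat.shiftRight_zero, Nat.shiftRight_eq_div_pow, show (a r + b r * 2 ^ 44) / 2 ^ 44 = b r by omega,
    Nat.mod_eq_of_lt (hb r)]
  exact ⟨by omega, rfl⟩

lemma pk_sh (n s : ℕ) : Nat.shiftLeft (pk n fun _ => 1) s = pk n fun _ => 2 ^ s := by
  rw [Nat.shiftLeft_eq', Nat.shiftLeft_eq, mul_comm, pk_smul]
  simp only [mul_one]

lemma gT_pk (C : ℕ) : gT C = pk (2 ^ C) fun _ => 2 ^ 31 :=
  (congrArg (Nat.shiftLeft · 31) (gO_eq C)).trans (pk_sh _ 31)

lemma sum_k (hk : 1 ≤ S.k) {M : Type} [AddCommMonoid M] {f f' : ℕ → M} (h0 : f 0 = 0)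
    (h : ∀ j ∈ Ico 1 (S.k - 1 + 1), f j = f' j) :
    ∑ j ∈ range S.k, f j = ∑ j ∈ Ico 1 (S.k - 1 + 1), f' j := by
  rw [← sum_congr rfl h, Nat.sub_add_cancel hk, range_eq_Ico, sum_eq_sum_Ico_succ_bot hk, h0, zero_add]

theorem gtI_of {τ : ℕ} (hτ : τ ≤ 30) {gd : NS → ℕ → ℕ → ℕ} {gd' : NS → ℕ → ℕ → Bool} {T : BT PQ}
    (hT : T.All (PQ.Gd t gd')) (hd : ∀ S G m, S.k ≤ 16 → gd S G m = 0 →
      gd' S G m = true ∧ ∀ j < S.k, d4 G j < m) : AOK2 t (gtI τ gd T) := fun x _ S A w s K _ h hl => by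
  have hI := h.gx.hI
  have hg := h.gx.hg
  have k1 := hI.pos
  have k2 := hI.le
  rw [gtI, frc_eq, frc_eq] at hl ⊢
  obtain ⟨-, h3⟩ := hT.find (Nat.mod s 65536)
  generalize T.find (Nat.mod s 65536) = q at *
  generalize Nat.mod (Nat.shiftRight s 21) (fO4 S) = G at *
  generalize Nat.mod (Nat.shiftRight s 16) 32 = C at *
  generalize Nat.shiftRight (Nat.shiftRight s 21) (fW4 S) = s at *
  have e0 : nX x S = mkN S.par S.hi x.g.bs ((List.range' (0 + 1) (S.k - 1)).map (nrO x.g S))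
      (off x.g.bs (0 + 1)) 0 (ovs x.g S 0) := by
    rw [nX, h.gx.hR, ← List.map_tail, List.range_eq_range', List.tail_range',
      show off x.g.bs (0 + 1) = 0 from hg.b0]
    rfl
  obtain ⟨v, σ, e1, g1, g2⟩ := tN_ok (G := G) (C := C) (P := zQ q (d4 G 0)) hg (tE0 (fun u => K u s) q
    (zT x τ) τ (vQ q + zX x τ >>> 26 + gd S G q.k) C) (S.k - 1) 0 0 _ (by omega)
    (fun _ _ c => by simp at c) fun w _ _ => StT.zero w hg G C _
  rw [← e0, zero_add] at e1
  rw [zero_add] at g1 g2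
  rw [show tH gd q x S (fun u => K u s) τ G C = _ from e1] at hl ⊢
  simp only [TS.ap, tE0, tE1] at hl ⊢
  obtain ⟨u, d, e2, g3⟩ := tR_ok (g := x.g) (S := S) (A := A) (w := fun c => w c / 2 ^ τ)
    _ _ _ _ _ _ _ _ _ _ _ _ _ hl
  rw [e2] at hl ⊢
  obtain ⟨g4, e3⟩ := gz_lt hl
  rw [e3]
  clear e1 e2 e3 hl e0
  simp only [Nat.add_eq, Nat.add_eq_zero_iff, Nat.xor_eq, Nat.xor_eq_zero_iff, Nat.shiftRight_eq,
    Nat.land_eq, Nat.sub_eq, Nat.shiftLeft_eq'] at g3 g4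
  obtain ⟨⟨⟨⟨⟨v1, v2⟩, v3⟩, v4⟩, v5⟩, v6, v7⟩ := g4
  rw [Nat.shiftRight_eq_div_pow] at v2 v6
  have hq : okQ q = true ∧ 76 ≤ q.w := by
    rw [vQ, cnd_eq, Nat.sub_eq] at v1
    split_ifs at v1 with c
    exact ⟨c, by omega⟩
  have hw := hq.2
  have w4 : 44 ≤ q.w := by omega
  have hN := g1 v4
  obtain ⟨hP, hQ, hA, ⟨μ, hW, hμ⟩, ⟨us, ps, hU, hL⟩, l, -, l1, -, l2, l3, -⟩ := g2 hw hN v5.symm
  obtain ⟨d1, d2⟩ := hd _ _ _ k2 v3
  have m1 : ∀ {j}, j ∈ Ico 1 (S.k - 1 + 1) → 1 ≤ j ∧ j < S.k := fun h => by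
    have := mem_Ico.1 h
    omega
  have a1 := fun r => sNeg_le (q := q) (par := S.par) (G := G) (m := S.k - 1) (r := r)
    (c := 16777232) (f := fLo S) (by omega) fun j _ => by
      have := get_lt S.lo j
      show get S.lo j - 16 ≤ _
      omega
  have a2 := fun r => sPos_le (q := q) (par := S.par) (G := G) (m := S.k - 1) (r := r)
    (c := 16777232) (f := fUp x.g) (by omega) fun j _ => Nat.add_le_add_right (get_lt _ j).le 16
  have a3 := fun r => sPos_le (q := q) (par := S.par) (G := G) (m := S.k - 1) (r := r)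
    (c := 16777232) (f := fHi S) (by omega) fun j _ => Nat.add_le_add_right (get_lt _ j).le 16
  have a4 := rowQ_lt q.w q.R
  have a5 := uQ_lt q (d4 G 0)
  have a6 : ∀ r, ∑ j ∈ Ico 1 (S.k - 1 + 1), xw q x.g S.par G r j < 2 ^ 30 := fun r =>
    (sum_le_card_nsmul _ _ _ (hμ r).2.1).trans_lt (by
      rw [Nat.card_Ico, smul_eq_mul]
      exact (Nat.mul_lt_mul'' (c := 16) (by omega) (hμ r).1).trans_eq (by norm_num))
  obtain ⟨c1, c2⟩ := cut36 hw (a := fun r => sPos q S.par G (S.k - 1) r (fUp x.g))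
    (b := fun r => sPos q S.par G (S.k - 1) r (fHi S)) (fun r => by have := a2 r; omega)
    fun r => by have := a3 r; omega
  obtain ⟨z, hz⟩ : ∃ z : (ℕ → ℕ) → ℕ → ℕ, ∀ f r, z f r = (rowQ q.w q.R r).2 + 8796093022208 -
    uQ q (d4 G 0) r * 1000000 + sNeg q S.par G (S.k - 1) r (fLo S) -
    sPos q S.par G (S.k - 1) r f := ⟨_, fun _ _ => rfl⟩
  have z1 : ∀ f r, z f r < 2 ^ 44 := fun f r => by
    have := a1 r
    have := a4 r
    rw [hz]
    omega
  have z2 : ∀ f, (∀ r, sPos q S.par G (S.k - 1) r f ≤ 945 * 16777232) →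
      σ.P - pw q.w (fun r => sPos q S.par G (S.k - 1) r f) q.n = pw q.w (z f) q.n := fun f hf => by
    rw [hP, zQ_eq w4, pw_add, pw_sub fun r _ => by have := hf r; have := a5 r; omega]
    exact pw_congr fun r _ => (hz f r).symm
  have e4 : mQ q ^^^ (pw q.w (z (fHi S)) q.n >>> 43 &&& mQ q) =
      pw q.w (fun r => if z (fHi S) r < 2 ^ 43 then 1 else 0) q.n := by
    rw [mQ_eq w4, pw_mask (fun r _ => lt_w w4 (z1 _ r)) (by omega), pw_xor (by omega)
      (fun r _ => lt_w w4 (by omega)) fun r _ => lt_w w4 (by omega)]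
    refine pw_congr fun r _ => ?_
    have := z1 (fHi S) r
    rw [Nat.shiftRight_eq_div_pow]
    split_ifs
    · rw [show z (fHi S) r / 2 ^ 43 % 2 = 0 by omega]
      rfl
    · rw [show z (fHi S) r / 2 ^ 43 % 2 = 1 by omega]
      rfl
  have e5 : (σ.W - tQ q) <<< 6 = pw q.w (fun r => 64 * μ r * 2 ^ 44) q.n := by
    rw [hW, pw_tQ hw, pw_sub fun r _ => Nat.le_add_right _ _, Nat.shiftLeft_eq, pw_mul]
    exact pw_congr fun r _ => by omega
  rw [hQ, c1, c2, z2 _ a2, z2 _ a3, e4, e5, hA, pw_add, pw_add] at g3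
  rw [hQ, c2, z2 _ a3, e4] at v7
  have b0 : ∀ r < q.n, (if z (fHi S) r < 2 ^ 43 then 1 else 0) < 2 ^ q.w := fun r _ =>
    lt_w w4 (by split_ifs <;> omega)
  have b1 : ∀ r < q.n, z (fHi S) r < 2 ^ 43 →
      (pw q.w (fun r => if z (fHi S) r < 2 ^ 43 then 1 else 0) q.n).testBit (q.w * r) = true :=
    fun r hr c => by
      rw [← add_zero (q.w * r), pw_bit b0 r (by omega), decide_eq_true hr, if_pos c]
      rfl
  have hu := fun r (hr : r < q.n) j (hj : j < S.k) => okQ_ok w4 hq.1 hr (d2 j hj)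
  obtain ⟨F, f1, -, f2⟩ := g3 (2 ^ C) l (fun i => fN S A (nrT x.g S G) (rowQ q.w q.R (i / q.w)).1
      (rowQ q.w q.R (i / q.w)).1 4096 16 (Nat.mul (dg (rowQ q.w q.R (i / q.w)).1
      (Nat.mul 12 (d4 G 0))) 1000000) (rowQ q.w q.R (i / q.w)).2) [] LB.nil fun i hi => by
    obtain ⟨r, hr, c, rfl⟩ : ∃ r < q.n, z (fHi S) r < 2 ^ 43 ∧ i = q.w * r := by
      rw [← Nat.div_add_mod i q.w, pw_bit b0 _ (Nat.mod_lt _ (by omega)), Bool.and_eq_true,
        decide_eq_true_iff] at hi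
      obtain ⟨hr, i1⟩ := hi
      split_ifs at i1 with c
      · exact ⟨_, hr, c, by
          rw [← Nat.div_add_mod i q.w, Nat.testBit_one_eq_true_iff_self_eq_zero.1 i1, add_zero,
            Nat.mul_div_cancel_left _ (by omega)]⟩
      · simp at i1
    rw [Nat.mul_div_cancel_left r (by omega), gT_pk, gO_eq]
    have μ0 : μ r ≠ 0 := fun e => by
      have := b1 r hr c
      rw [← v7, Nat.testBit_and, Nat.testBit_shiftRight, add_comm, hW,
        show m4Q q = _ from pw_sh hw 44,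
        pw_sub fun r _ => by omega, pw_bit (fun r _ => lt_w76 hw (by have := (hμ r).1; omega)) r
          (by omega), e, show (2 ^ 74 + 0 * 2 ^ 44 - 2 ^ 44 : ℕ).testBit 74 = false by decide] at this
      simp at this
    obtain ⟨j0, j1, j2⟩ := (hμ r).2.2.resolve_left μ0
    generalize hy : rowQ q.w q.R r = y
    have e : ∀ j ∈ Ico 1 (S.k - 1 + 1), dP y.1 y.1 4096 (nrT x.g S G j) =
        uQ q (d4 G j) r - uQ q (d4 G (get S.par j)) r ∧ dN y.1 y.1 4096 (nrT x.g S G j) =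
        uQ q (d4 G (get S.par j)) r - uQ q (d4 G j) r := fun j hj => by
      obtain ⟨j1, j2⟩ := m1 hj
      rw [← hu r hr j j2, ← hu r hr _ ((hI.par j j1 j2).trans j2), hy, nrT, if_neg (by omega)]
      exact ⟨rfl, rfl⟩
    have e0 : dP y.1 y.1 4096 (nrT x.g S G 0) = 0 ∧ dN y.1 y.1 4096 (nrT x.g S G 0) = 0 :=
      ⟨Nat.sub_self _, Nat.sub_self _⟩
    have ex : ∀ j ∈ Ico 1 (S.k - 1 + 1), (dN y.1 y.1 4096 (nrT x.g S G j) +
        dP y.1 y.1 4096 (nrT x.g S G j)) * get x.g.h j = xw q x.g S.par G r j := fun j hj => by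
      rw [(e j hj).1, (e j hj).2, add_comm, xw]
    have x1 : ∀ c, ∀ j ∈ Ico 1 (S.k - 1 + 1), hY x.g S.par G c j + get x.g.h j ≤
        get x.g.h j * 2 ^ b3 x.g.bs j := fun c j _ =>
      (Nat.mul_succ _ _).ge.trans (Nat.mul_le_mul_left _ (Nat.mod_lt _ (Nat.two_pow_pos _)))
    have u1 := fun a => uQ_lt q a r
    have b2 := a1 r
    have b3 := a2 r
    have b4 := a3 r
    have b5 := a5 r
    have b6 := hz (fHi S) r
    have b7 := hz (fUp x.g) r
    refine rowR h (m := μ r) (us := us) (ps := ps r)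
      (po := fun c => sPos q S.par G (S.k - 1) r (hY x.g S.par G c))
      (ng := fun c => sNeg q S.par G (S.k - 1) r (hY x.g S.par G c))
      (u := fun j => dP y.1 y.1 4096 (nrT x.g S G j)) (v := fun j => dN y.1 y.1 4096 (nrT x.g S G j))
      (κ := y.2 - uQ q (d4 G 0) r * 1000000 - 16 * ∑ j ∈ range S.k,
        ((dP y.1 y.1 4096 (nrT x.g S G j) : ℝ) + dN y.1 y.1 4096 (nrT x.g S G j)) - 1) hτ (by omega)
      (cut44 hw (k := 32) le_rfl (z1 _) (fun r => by have := (hμ r).1; omega) hr).1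
      (cut44 hw (k := 32) le_rfl (z1 _) (fun r => by have := (hμ r).1; omega) hr).2
      (cut44 hw (k := 30) (by norm_num) (z1 _) a6 hr).1
      (cut44 hw (k := 30) (by norm_num) (z1 _) a6 hr).2
      (by rw [hU, Nat.shiftLeft_eq, mul_comm]) (hL r hr).1 (hL r hr).2 (fun c => ?_) (fun c => ?_)
      (fun j => by unfold dP dN; omega) (sum_k k1 (by rw [e0.1, e0.2, add_zero, zero_mul]) ex).symm
      (lt_of_lt_of_le (by omega) (single_le_sum (fun _ _ => Nat.zero_le _) j1))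
      ⟨j0, (m1 j1).2, j2.trans (ex _ j1).symm⟩ (fun j hj => ?_) (fun c => ?_)
      ((Lip.sum _ fun j hj => (lip_Y hI (mem_range.1 hj)).mul _).sub (Lip.const _ _)) fun a ha => ?_
    · have g5 : sPos q S.par G (S.k - 1) r (fHi S) + sNeg q S.par G (S.k - 1) r (hY x.g S.par G c) ≤
          sPos q S.par G (S.k - 1) r (fUp x.g) + ∑ j ∈ Ico 1 (S.k - 1 + 1), 63 * 1048576 := by
        rw [sPos, sPos, sNeg, ← sum_add_distrib, ← sum_add_distrib]
        refine sum_le_sum fun j hj => ?_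
        have g6 := x1 c j hj
        have g7 := (hN j hj).2
        have g8 := hg.cov j (m1 hj).1 (m1 hj).2
        have g9 := Nat.mul_le_mul_left (uQ q (d4 G j) r - uQ q (d4 G (get S.par j)) r)
          (show fHi S j ≤ fUp x.g j + 1048576 by
            show get S.hi j + 16 ≤ get x.g.up j + 16 + _
            rw [hg.up j (m1 hj).1 (m1 hj).2]
            omega)
        have := Nat.mul_le_mul_left (uQ q (d4 G (get S.par j)) r - uQ q (d4 G j) r)
          (show hY x.g S.par G c j ≤ 1048576 by omega)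
        have := u1 (d4 G j)
        have := u1 (d4 G (get S.par j))
        rw [mul_add] at g9
        omega
      rw [sum_const, Nat.card_Ico, smul_eq_mul] at g5
      have := a6 r
      omega
    · have g5 : sPos q S.par G (S.k - 1) r (hY x.g S.par G c) + sPos q S.par G (S.k - 1) r (fUp x.g) ≤
          63 * ovs x.g S (S.k - 1) + sPos q S.par G (S.k - 1) r (fHi S) := by
        rw [sPos, sPos, sPos, ovs, mul_sum, ← sum_add_distrib, ← sum_add_distrib]
        refine sum_le_sum fun j hj => ?_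
        have g6 := x1 c j hj
        rw [← mul_add]
        refine (Nat.mul_le_mul_left _ (show _ ≤ get S.lo j + get x.g.h j * 2 ^ X.b3 x.g.bs j -
          get S.hi j + fHi S j from ?_)).trans ((mul_add _ _ _).trans_le (Nat.add_le_add_right
          (Nat.mul_le_mul_right _ (by have := u1 (d4 G j); omega)) _))
        show _ + (get x.g.up j + 16) ≤ _ + (get S.hi j + 16)
        rw [hg.up j (m1 hj).1 (m1 hj).2]
        omega
      omega
    · rcases Nat.eq_zero_or_pos j with rfl | j3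
      · rw [e0.1, e0.2, add_zero, zero_mul]
        exact Nat.zero_le _
      · have j4 : j ∈ Ico 1 (S.k - 1 + 1) := mem_Ico.2 ⟨j3, by omega⟩
        exact (ex j j4).trans_le ((hμ r).2.1 j j4)
    · have g5 : ((z (fUp x.g) r + uQ q (d4 G 0) r * 1000000 + sPos q S.par G (S.k - 1) r (fUp x.g) :
          ℕ) : ℝ) = (y.2 + 8796093022208 + sNeg q S.par G (S.k - 1) r (fLo S) : ℕ) := by
        rw [← hy, Nat.cast_inj]
        omega
      have g6 := sum_k (M := ℝ) k1 (f := fun j => (dP y.1 y.1 4096 (nrT x.g S G j) : ℝ) *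
          get x.g.up j - dN y.1 y.1 4096 (nrT x.g S G j) * get S.lo j +
          (dP y.1 y.1 4096 (nrT x.g S G j) - dN y.1 y.1 4096 (nrT x.g S G j)) *
          (get x.g.h j * cx x.g.bs j c) + 16 * (dP y.1 y.1 4096 (nrT x.g S G j) +
          dN y.1 y.1 4096 (nrT x.g S G j)))
        (f' := fun j => ((uQ q (d4 G j) r - uQ q (d4 G (get S.par j)) r) * fUp x.g j : ℕ) +
          ((uQ q (d4 G j) r - uQ q (d4 G (get S.par j)) r) * hY x.g S.par G (l c) j : ℕ) -
          ((uQ q (d4 G (get S.par j)) r - uQ q (d4 G j) r) * fLo S j : ℕ) -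
          ((uQ q (d4 G (get S.par j)) r - uQ q (d4 G j) r) * hY x.g S.par G (l c) j : ℕ))
        (by simp [e0]) fun j hj => by
          rw [(e j hj).1, (e j hj).2]
          by_cases d : d4 G j = d4 G (get S.par j)
          · simp [d]
          have g7 := l2 j hj d c 0
          rw [mul_zero, add_zero] at g7
          rw [g7, ← show fLo S j + 16 = get S.lo j from Nat.sub_add_cancel (hN j hj).1,
            show fUp x.g j = get x.g.up j + 16 from rfl, hX]
          simp only [Nat.cast_mul, Nat.cast_add, Nat.cast_ofNat]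
          ring
      rw [sum_add_distrib, ← mul_sum, sum_sub_distrib, sum_sub_distrib,
        sum_add_distrib (s := Ico _ _),
        ← Nat.cast_sum, ← Nat.cast_sum, ← Nat.cast_sum, ← Nat.cast_sum] at g6
      simp only [Nat.cast_add, Nat.cast_mul, Nat.cast_ofNat] at g5 ⊢
      rw [sPos, sNeg] at *
      linarith
    · rw [fN, show dg y.1 (Nat.mul 12 (d4 G 0)) = uQ q (d4 G 0) r from hy ▸ hu r hr 0 k1,
        Nat.mul_eq] at ha
      push_cast at ha
      linear_combination ha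
  have d3 : d < 2 ^ 31 := by omega
  have e6 : off x.g.bs (S.k - 1 + 1) = x.g.B := by rw [hg.hB, Nat.sub_add_cancel k1]
  rw [v5] at l1 l3
  rw [gO_eq]
  obtain ⟨N, ν, e7, h5⟩ := (f1.la (E := σ.E x.g.B) d3 hτ h.w0 (fun c _ => l1 c) fun f hf => by
    rw [l3 f hf, e6, Nat.sub_self, add_zero]
    exact pk_congr fun c hc => by rw [Nat.div_eq_of_lt hc, mul_zero, add_zero]).item d3 hI
      ((h3 true S A G hI d1).anti fun a ha r hr => by
    by_cases c : z (fHi S) r < 2 ^ 43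
    · have := ha.2 _ (f2 _ (b1 r hr c))
      rw [Nat.mul_div_cancel_left _ (by omega)] at this
      exact fN_pr hI G _ this
    refine pr_of (lo := fLo S) (hi := fHi S) hI (hu r hr) (fun j hj => ?_) ?_
    · obtain ⟨j1, j2⟩ := mem_Ico.1 hj
      rw [show fLo S j + 16 = get S.lo j from Nat.sub_add_cancel (hN j (mem_Ico.2 ⟨j1, by omega⟩)).1,
        show fHi S j = get S.hi j + 16 from rfl, Nat.cast_add, add_div, Nat.cast_ofNat]
      exact ⟨(ha.1.1 j j2).1, add_le_add_left (ha.1.1 j j2).2 _⟩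
    · have := a5 r
      rw [hz] at c
      omega)
  exact ⟨N, ν, s, 0, by rw [← e7, zero_add], h5⟩

lemma lbz_ok {G m : ℕ} (h : lbz G m = 0) : lbl G m = true := Nat.beq_eq.mpr h

lemma g2z_ok {G m : ℕ} (h : g2z S G m = 0) : g2f S G m = true := by
  obtain ⟨h1, h2⟩ := Nat.add_eq_zero_iff.1 h
  rw [g2f, band_eq, lbz_ok h2, Bool.and_true]
  by_contra c
  simp only [hasP, anyN_iff, Nat.beq_eq, not_exists, not_and] at c
  rw [pM, prM_eq, pw_congr (g := fun _ => 0) fun j hj => if_neg (c j hj)] at h1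
  simp [pw] at h1

lemma g3z_ok {G m : ℕ} (h : g3z S G m = 0) : g3f S G m = true := by
  obtain ⟨h1, h2⟩ := Nat.add_eq_zero_iff.1 h
  obtain ⟨h3, h4⟩ := Nat.add_eq_zero_iff.1 h2
  rw [g3f, on1, band_eq, band_eq, lbz_ok h1, Nat.beq_eq.mpr h3, Nat.blt_eq.mpr (Nat.sub_eq_zero_iff_le.1 h4)]
  rfl

theorem gt2_ok {τ : ℕ} (hτ : τ ≤ 30) {T : BT PQ} (hT : T.All (PQ.Gd t g2)) :
    AOK2 t (gtI τ g2z T) :=
  gtI_of hτ (gd2f hT) fun S G m k c => ⟨g2z_ok c, g2f_lt S G m k (g2z_ok c)⟩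

theorem gt3_ok {τ : ℕ} (hτ : τ ≤ 30) {T : BT PQ} (hT : T.All (PQ.Gd t g3)) :
    AOK2 t (gtI τ g3z T) :=
  gtI_of hτ (gd3f hT) fun S G m k c => ⟨g3z_ok c, g3f_lt S G m k (g3z_ok c)⟩

end Pool.Agent.MP_c853c5_nt.X
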