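import Pool.Agent.MP_c853c5_nt.X.GvD
import Pool.Agent.MP_c853c5_nt.X.Gy
import Pool.Agent.MP_c853c5_nt.X.Lane

/-!
The mass of the cells without long products has the same value.
-/

set_option autoImplicit false

open Finset

namespace Pool.Agent.MP_c853c5_nt.X

variable {F N : ℕ} {u : ℕ → ℕ}

lemma pv_split (F N M : ℕ) (u : ℕ → ℕ) :
    pv F (N + M) u = 2 ^ (F * N) * pv F M (fun x => u (N + x)) + pv F N u := by
  rw [pv, sum_range_add, add_comm, pv, pv, mul_sum]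
  exact congrArg (· + _) (sum_congr rfl fun c _ => by ring)

lemma pv_le {a : ℕ} (h : ∀ c, u c ≤ a) : pv F N u ≤ a * pv F N fun _ => 1 := by
  rw [pv, pv, mul_sum]
  exact sum_le_sum fun c _ => by rw [one_mul]; exact Nat.mul_le_mul_right _ (h c)

lemma pv_one_lt {a : ℕ} (h : a < 2 ^ F) : a * (pv F N fun _ => 1) < 2 ^ (F * N) := by
  rw [← pv_geo]
  exact Nat.lt_succ_of_le (Nat.mul_le_mul_right _ (by omega))

lemma half_eq {a : ℕ} (h : ∀ c, u c ≤ a) (ha : a < 2 ^ F) :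
    Nat.land (gM (F * N)) (pv F (N + N) u) = pv F N u ∧
      Nat.shiftRight (pv F (N + N) u) (F * N) = pv F N fun x => u (N + x) := by
  have g : pv F N u < 2 ^ (F * N) := (pv_le h).trans_lt (pv_one_lt ha)
  rw [pv_split, gM, one_eq]
  constructor
  · show (2 ^ (F * N) - 1) &&& _ = _
    rw [Nat.and_comm, Nat.and_two_pow_sub_one_eq_mod, Nat.mul_add_mod, Nat.mod_eq_of_lt g]
  · rw [Nat.shiftRight_eq, Nat.shiftRight_eq_div_pow, Nat.mul_add_div (by positivity),
      Nat.div_eq_of_lt g, add_zero]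

lemma hv_eq (s : ℕ) (K : ℕ → ℕ → ℕ) (b : ℕ) : ∀ (a c : ℕ → ℕ) (α β : ℕ), (∀ x, a x ≤ α) →
    (∀ x, c x ≤ β) → (β + α * 2 ^ b) * 2 ^ b < 2 ^ s →
    hv s K b (pv s (2 ^ b) a) (pv s (2 ^ b) c) =
      K (∑ x ∈ range (2 ^ b), a x) (∑ x ∈ range (2 ^ b), (c x + x * a x)) := by
  induction b with
  | zero => intro a c α β _ _ _; simp [hv, pv]
  | succ b ih =>
    intro a c α β ha hc h
    have n0 : 1 ≤ 2 ^ b := Nat.one_le_two_pow
    rw [pow_succ] at h
    have e : ∀ A B, hv s K (b + 1) A B = hv1 (hv s K b) A B b (s * 2 ^ b) (gM (s * 2 ^ b))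
        (Nat.shiftRight A (s * 2 ^ b)) := fun A B => by
      rw [← Nat.shiftLeft_eq]
      simp only [hv, force_eq]
      rfl
    have h0 := (Nat.le_mul_of_pos_right _ (by positivity)).trans_lt h
    have h1 := half_eq (F := s) (N := 2 ^ b) ha (by nlinarith)
    have h2 := half_eq (F := s) (N := 2 ^ b) hc (by omega)
    rw [e, pow_succ, mul_two, hv1, h1.1, h1.2, h2.1, h2.2]
    have := ih (fun x => a x + a (2 ^ b + x)) (fun x => c x + c (2 ^ b + x) + a (2 ^ b + x) * 2 ^ b)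
      (α + α) (β + β + α * 2 ^ b) (fun x => add_le_add (ha _) (ha _))
      (fun x => add_le_add (add_le_add (hc _) (hc _)) (Nat.mul_le_mul_right _ (ha _)))
      (by nlinarith [Nat.zero_le (α * 2 ^ b * 2 ^ b)])
    rw [sum_range_add, sum_range_add, ← sum_add_distrib, ← sum_add_distrib]
    convert this using 2
    · simp only [pv, Nat.add_eq, add_mul, sum_add_distrib]
    · simp only [pv, Nat.add_eq, Nat.shiftLeft_eq', Nat.shiftLeft_eq, add_mul, sum_add_distrib,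
        sum_mul, mul_right_comm]
    · exact sum_congr rfl fun x _ => by ring

lemma hf_eq (b p q : ℕ) (a : ℕ → ℕ) :
    hf b p q (∑ x ∈ range (2 ^ b), a x) (∑ x ∈ range (2 ^ b), (0 + x * a x)) =
      ∑ x ∈ range (2 ^ b), wx b p q x * a x := by
  simp only [hf, gM, one_eq, Nat.add_eq, Nat.mul_eq, Nat.sub_eq, mul_sum, ← sum_add_distrib]
  refine Nat.sub_eq_of_eq_add ?_
  rw [← sum_add_distrib]
  refine sum_congr rfl fun y hy => ?_
  obtain ⟨z, hz⟩ := Nat.exists_eq_add_of_lt (mem_range.1 hy)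
  rw [wx, Nat.succ_eq_add_one, pow_succ, hz, show y + z + 1 - 1 - y = z by omega,
    show (y + z + 1) * 2 - 1 = 2 * y + 2 * z + 1 by omega]
  rcases le_total p q with h | h <;> obtain ⟨d, rfl⟩ := Nat.exists_eq_add_of_le h <;>
    rw [Nat.sub_eq_zero_of_le h, Nat.add_sub_cancel_left] <;> ring

def WL.bits : WL → ℕ
  | .nil => 0
  | .cons b _ _ r => r.bits + b

def WL.pr : WL → ℕ → ℕ
  | .nil, _ => 1
  | .cons b p q r, c => wx b p q (c % 2 ^ b) * r.pr (c / 2 ^ b)

def WL.Pos : WL → Prop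
  | .nil => True
  | .cons _ p _ r => 1 ≤ p ∧ r.Pos

lemma rP_cons (b p q : ℕ) (r : WL) : rP (.cons b p q r) = (p + q) * 2 ^ (2 * b) * rP r := by
  rw [← Nat.shiftLeft_eq]
  rfl

lemma pr_grp (b p q : ℕ) (r : WL) (v : ℕ → ℕ) :
    ∑ c ∈ range (2 ^ (WL.cons b p q r).bits), v c * (WL.cons b p q r).pr c =
      ∑ y ∈ range (2 ^ r.bits),
        (∑ x ∈ range (2 ^ b), v (y * 2 ^ b + x) * wx b p q x) * r.pr y := by
  rw [WL.bits, pow_add, sum_grp]
  refine sum_congr rfl fun y _ => ?_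
  rw [sum_mul]
  refine sum_congr rfl fun x hx => ?_
  rw [WL.pr, mul_comm y, Nat.mul_add_mod, Nat.mod_eq_of_lt (mem_range.1 hx),
    Nat.mul_add_div (by positivity), Nat.div_eq_of_lt (mem_range.1 hx), add_zero, mul_assoc]

lemma sum_pr (L : WL) : ∑ c ∈ range (2 ^ L.bits), L.pr c = rP L := by
  induction L with
  | nil => rfl
  | cons b p q r ih =>
    have := pr_grp b p q r fun _ => 1
    simp only [one_mul, sum_wx, ← mul_sum] at this
    rw [this, ih, rP_cons]

lemma rP_pos {L : WL} (h : L.Pos) : 1 ≤ rP L := by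
  induction L with
  | nil => exact le_rfl
  | cons b p q r ih =>
    have := h.1
    have := ih h.2
    rw [rP_cons]
    exact Nat.mul_pos (by positivity) this

lemma tD_eq {μ : ℕ} {v : ℕ → ℕ} (hv' : ∀ c, v c ≤ μ) (L : WL) : ∀ N, L.Pos → μ * rP L < 2 ^ F →
    tD (pv F (N * 2 ^ L.bits) v) L (F * N) =
      pv F N fun c => ∑ y ∈ range (2 ^ L.bits), v (y * N + c) * L.pr y := by
  induction L with
  | nil => intro N _ _; simp [tD, WL.bits, WL.pr]
  | cons b p q r ih =>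
    intro N hp h
    have p1 := hp.1
    have n0 : 1 ≤ 2 ^ b := Nat.one_le_two_pow
    rw [rP_cons, two_mul, pow_add] at h
    have h1 : μ * rP r * 2 ^ b * 2 ^ b < 2 ^ F := by
      nlinarith [Nat.mul_le_mul_left (μ * rP r * 2 ^ b * 2 ^ b) (show 1 ≤ p + q by omega)]
    have e := ih (N * 2 ^ b) hp.2 (((Nat.le_mul_of_pos_right _ n0).trans
      (Nat.le_mul_of_pos_right _ n0)).trans_lt h1)
    show hv (F * N) (hf b p q) b (tD _ r ((F * N) <<< b)) 0 = _
    rw [Nat.shiftLeft_eq, mul_assoc F, WL.bits, pow_add, mul_comm (2 ^ r.bits), ← mul_assoc N, e]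
    set w := fun c => ∑ y ∈ range (2 ^ r.bits), v (y * (N * 2 ^ b) + c) * r.pr y
    have hw : ∀ c, w c ≤ μ * rP r := fun c => by
      rw [← sum_pr, mul_sum]
      exact sum_le_sum fun y _ => Nat.mul_le_mul_right _ (hv' _)
    have e1 : pv F (N * 2 ^ b) w = pv (F * N) (2 ^ b) fun x => pv F N fun c => w (x * N + c) := by
      simp only [pv, sum_mul]
      rw [mul_comm N, sum_grp]
      exact sum_congr rfl fun x _ => sum_congr rfl fun c _ => by ring
    have e2 : 0 = pv (F * N) (2 ^ b) fun _ => 0 := by simp [pv]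
    rw [e1, e2, hv_eq _ _ _ _ _ _ 0 (fun x => pv_le fun c => hw _) (fun _ => le_rfl)
      (by nlinarith [pv_one_lt (N := N) h1]), hf_eq]
    simp only [pv, mul_sum]
    rw [sum_comm]
    refine sum_congr rfl fun c _ => ?_
    rw [mul_comm (2 ^ b), ← pow_add, ← WL.bits.eq_2 b p q, pr_grp b p q r fun z => v (z * N + c)]
    simp only [w, sum_mul, mul_sum]
    rw [sum_comm]
    refine sum_congr rfl fun y _ => sum_congr rfl fun x _ => ?_
    rw [show y * (N * 2 ^ b) + (x * N + c) = (y * 2 ^ b + x) * N + c by ring]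
    ring

/-- from the bottom only -/
noncomputable def bU0 (Z : ℕ) (K : ℕ → ℕ) : WL → ℕ → ℕ → ℕ → ℕ
  | .nil, _, V, _ => K V
  | .cons b p q r, F, V, m => grd (Nat.beq ((m * fW b p q) >>> F) 0)
      (bU0 Z K r (F <<< b) (ctZ Z b p q F (F <<< b) V) (m * fW b p q))

lemma grd_congr' {b : Bool} {x y : ℕ} (h : b = true → x = y) : grd b x = grd b y := by
  cases b
  exacts [rfl, h rfl]

lemma beq_shr (a F : ℕ) : Nat.beq (a >>> F) 0 = true ↔ a < 2 ^ F := by
  rw [Nat.beq_eq, Nat.shiftRight_eq_div_pow, Nat.div_eq_zero_iff_lt (by positivity)]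

lemma bU0_eq {Z : ℕ} (K : ℕ → ℕ) (L : WL) : ∀ (F μ m : ℕ) (v : ℕ → ℕ), L.Pos → 0 < F →
    (∀ c, v c ≤ μ) → m ≤ μ → μ * rP L < 2 ^ F → Z = 2 ^ (F * 2 ^ L.bits) - 1 →
    bU0 Z K L F (pv F (2 ^ L.bits) v) m = K (∑ c ∈ range (2 ^ L.bits), v c * L.pr c) := by
  induction L with
  | nil => intro F μ m v _ _ _ _ _ _; simp [bU0, pv, WL.bits, WL.pr]
  | cons b p q r ih =>
    intro F μ m v hp hF hv' hm h hZ
    have e0 : fW b p q = (p + q) * 2 ^ (2 * b) := Nat.shiftLeft_eq _ _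
    rw [rP_cons, ← mul_assoc] at h
    have h1 := (Nat.le_mul_of_pos_right _ (rP_pos hp.2)).trans_lt h
    have h2 : m * fW b p q ≤ μ * ((p + q) * 2 ^ (2 * b)) := e0 ▸ Nat.mul_le_mul_right _ hm
    have e := ctr_eq (G := 2 ^ r.bits) (fun _ V => V) hF hv' h1
    rw [WL.bits, pow_add] at hZ
    rw [← hZ, ctr_Z] at e
    rw [pr_grp, bU0, (beq_shr _ _).2 (h2.trans_lt h1), WL.bits, pow_add, e, Nat.shiftLeft_eq]
    refine ih _ _ _ _ hp.2 (by positivity) (fun c => ?_) h2 (h.trans_le (Nat.pow_le_pow_right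
      two_pos (Nat.le_mul_of_pos_right _ (by positivity)))) (by rw [hZ]; congr 2; ring)
    rw [← sum_wx, mul_sum]
    exact sum_le_sum fun x _ => Nat.mul_le_mul_right _ (hv' _)

lemma wM_eq (F b G : ℕ) (hF : 0 < F) : wM (2 ^ (F * (G * 2 ^ b)) - 1) F (F * 2 ^ b) =
    pv (F * 2 ^ b) G fun _ => 2 ^ F - 1 := by
  have f2 : 1 < 2 ^ (F * 2 ^ b) := Nat.one_lt_two_pow (by positivity)
  have e1 : wN (2 ^ (F * (G * 2 ^ b)) - 1) (F * 2 ^ b) = pv (F * 2 ^ b) G fun _ => 1 := by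
    show _ / (one _ - 1) = _
    rw [one_eq, show F * (G * 2 ^ b) = F * 2 ^ b * G by ring, ← pv_geo, Nat.add_sub_cancel,
      Nat.mul_div_cancel_left _ (by omega)]
  show _ <<< F - _ = _
  rw [e1, Nat.shiftLeft_eq, ← Nat.mul_sub_one, pv, pv, sum_mul]
  exact sum_congr rfl fun _ _ => by ring

lemma bU_eq {Z : ℕ} (K : ℕ → ℕ) (L : WL) : ∀ (f F m : ℕ) (v : ℕ → ℕ), L.Pos → 0 < F → f ≤ F →
    (∀ c, v c ≤ 2 ^ f - 1) → m ≤ 2 ^ f - 1 → Z = 2 ^ (F * 2 ^ L.bits) - 1 →
    bU Z K L f F (pv F (2 ^ L.bits) v) m = bU0 Z K L F (pv F (2 ^ L.bits) v) m := by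
  induction L with
  | nil => exact fun _ _ _ _ _ _ _ _ _ _ => rfl
  | cons b p q r ih =>
    intro f F m v hp hF hf' hv' hm hZ
    show Nat.rec (motive := fun _ => ℕ) (K (tD _ (.cons b p q r) F))
      (fun _ _ => bU1 (bU Z K r) Z F _ b p q (m * fW b p q)) (rP (.cons b p q r) >>> (F - f)) = _
    cases e : rP (.cons b p q r) >>> (F - f) with
    | zero =>
      have h : (2 ^ f - 1) * rP (.cons b p q r) < 2 ^ F := by
        have := (beq_shr _ _).1 (Nat.beq_eq ▸ e)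
        rw [← Nat.add_sub_cancel' hf', pow_add]
        exact Nat.mul_lt_mul_of_le_of_lt (Nat.sub_le _ _) this (by positivity)
      have e1 := tD_eq hv' _ 1 hp h
      rw [one_mul, mul_one] at e1
      rw [bU0_eq K _ _ _ _ _ hp hF hv' hm h hZ, e1]
      simp [pv]
    | succ n =>
      show bU1 _ _ _ _ _ _ _ _ = _
      rw [bU1, bU0, force_eq]
      refine grd_congr' fun g => ?_
      have g1 := (beq_shr _ _).1 g
      have f1 : F ≤ F * 2 ^ b := Nat.le_mul_of_pos_right _ (by positivity)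
      rw [WL.bits, pow_add] at hZ
      have e2 := wM_eq F b (2 ^ r.bits) hF
      rw [← hZ] at e2
      rw [Nat.shiftLeft_eq', Nat.shiftLeft_eq, ctZ, e2, Nat.land_eq, pv_land _ _ _ fun _ =>
        lt_of_lt_of_le (Nat.sub_lt (by positivity) one_pos) (Nat.pow_le_pow_right two_pos f1)]
      exact ih _ _ _ _ hp.2 (by positivity) f1 (fun c => Nat.and_le_right)
        (Nat.le_sub_one_of_lt g1) (by rw [hZ]; congr 2; ring)

variable (g : Gr) (S : NS) (W C : ℕ)

noncomputable def wl : ℕ → ℕ → WL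
  | 0, _ => .nil
  | n + 1, j => if b3 g.bs j = 0 then wl n (j + 1)
      else .cons (b3 g.bs j) (gp S W C j) (gq g S W C j) (wl n (j + 1))

noncomputable def wp : ℕ → ℕ → ℕ → ℕ
  | 0, _, P => P
  | n + 1, j, P => wp n (j + 1) (if b3 g.bs j = 0 then P * get g.h j <<< (13 - b3 g.bs j) *
      (gp S W C j + gq g S W C j) else P * get g.h j <<< (13 - b3 g.bs j))

lemma wlZ_eq (n : ℕ) : ∀ j P K, wlZ g.bs g.h g.wd S.par S.lo S.hi W C n j P K =
    K (wp g S W C n j P) (wl g S W C n j) := by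
  induction n with
  | zero => exact fun _ _ _ => rfl
  | succ n ih =>
    intro j P K
    have e : wlZ g.bs g.h g.wd S.par S.lo S.hi W C (n + 1) j P K =
        wl2 (wlZ g.bs g.h g.wd S.par S.lo S.hi W C n) K (j + 1)
          (P * get g.h j <<< (13 - b3 g.bs j)) (b3 g.bs j) (gp S W C j) (gq g S W C j) := by
      rw [gp, gq, ← eZ_eq]
      simp only [wlZ, force_eq]
      rfl
    rw [e, wl, wp]
    cases b3 g.bs j with
    | zero => exact ih _ _ _
    | succ b => exact ih _ _ _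

lemma gL_wl (Z e n : ℕ) : ∀ j F V m P, gL g S W C Z e n j F V m P =
    bU0 Z (fun U => cdR (wp g S W C n j P * U) e) (wl g S W C n j) F V m := by
  induction n with
  | zero => exact fun _ _ _ _ _ => rfl
  | succ n ih =>
    intro j F V m P
    have e1 : gL g S W C Z e (n + 1) j F V m P = if b3 g.bs j = 0 then
        gL g S W C Z e n (j + 1) F V m (P * get g.h j <<< (13 - b3 g.bs j) *
          (gp S W C j + gq g S W C j))
        else grd (Nat.beq ((m * (gp S W C j + gq g S W C j) <<< (2 * b3 g.bs j)) >>> F) 0)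
          (ctr Z (b3 g.bs j) (gp S W C j) (gq g S W C j) F V fun F' V' => gL g S W C Z e n (j + 1)
            F' V' (m * (gp S W C j + gq g S W C j) <<< (2 * b3 g.bs j))
            (P * get g.h j <<< (13 - b3 g.bs j))) := by
      simp only [gL, force_eq, cnd_eq, Nat.beq_eq]
      rfl
    rw [e1, wl, wp]
    split_ifs
    · exact ih _ _ _ _ _
    · rw [ctr_Z, ih, bU0]
      rfl

lemma wl_pos (n : ℕ) : ∀ j, (wl g S W C n j).Pos ∧
    off g.bs j + (wl g S W C n j).bits = off g.bs (j + n) := by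
  induction n with
  | zero => exact fun _ => ⟨trivial, rfl⟩
  | succ n ih =>
    intro j
    obtain ⟨h1, h2⟩ := ih (j + 1)
    have : off g.bs (j + 1) = b3 g.bs j + off g.bs j := rfl
    rw [wl, ← add_assoc, add_right_comm]
    split_ifs
    · exact ⟨h1, by omega⟩
    · exact ⟨⟨Nat.le_add_left _ _, h1⟩, by rw [WL.bits]; omega⟩

variable {g S}

lemma gLV_eq (hg : g.OK S) (hk : 1 ≤ S.k) (e P X : ℕ) {f m : ℕ} (hf' : f ≤ 31)
    (hm : m ≤ 2 ^ f - 1) :
    gLV g S W C (gZ g.B) e (S.k - 1) f (Nat.land X ((2 ^ f - 1) * g.O)) m P =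
      gL g S W C (gZ g.B) e (S.k - 1) 1 32 (Nat.land X ((2 ^ f - 1) * g.O)) m P := by
  obtain ⟨h1, h2⟩ := wl_pos g S W C (S.k - 1) 1
  have o1 : off g.bs 1 = 0 := hg.b0
  rw [o1, zero_add, Nat.add_sub_cancel' hk, ← hg.hB] at h2
  have e1 : (2 ^ f - 1) * g.O = pv 32 (2 ^ g.B) fun _ => 2 ^ f - 1 := by
    rw [hg.hO, pk, pv, mul_sum]
    simp
  rw [gLV, wlZ_eq, gL_wl, e1, Nat.land_eq, pv_land _ _ _ fun _ => lt_of_lt_of_le
    (Nat.sub_lt (by positivity) one_pos) (Nat.pow_le_pow_right two_pos (by omega)), ← h2]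
  exact bU_eq _ _ _ _ _ _ h1 (by norm_num) (by omega) (fun c => Nat.and_le_right) hm
    (by rw [gZ, one_eq, ← Nat.shiftLeft_eq]; rfl)

theorem gdV_ok : MSok gdV := fun g S A m d hI hg => by
  have e : gdV g S m d = gdZ g S m d := by
    have := gLV_eq (mkZ S.lo S.hi (chV S (S.k - 1)) S.k)
      (acC S.kd (mkZ S.lo S.hi (chV S (S.k - 1)) S.k) S.k) hg hI.pos
      (Nat.pow 2000000000000000000000000 (S.k - 1))
      (acP S.kd (mkZ S.lo S.hi (chV S (S.k - 1)) S.k) S.k) (Nat.shiftRight m 31) (f := 1) (m := 1)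
      (by norm_num) (by norm_num)
    rw [show 2 ^ 1 - 1 = 1 from rfl, one_mul] at this
    rw [gdV, gdU, gdZ, gdW, force_eq, force_eq, gLZ_eq]
    exact this
  rw [e]
  exact gdZ_ok g S A m d hI hg

lemma mkL_unif (lo hi bs n : ℕ) : ∀ j o, (∀ K, mkL lo hi bs n j o K = INF) ∨
    ∃ B h up wd L, ∀ K, mkL lo hi bs n j o K = K B h up wd L := by
  induction n with
  | zero => exact fun j o => Or.inr ⟨_, _, _, _, _, fun _ => rfl⟩
  | succ n ih =>
    intro j o
    have e : ∀ K, mkL lo hi bs (n + 1) j o K = mkT (mkL lo hi bs n) j o K (b3 bs j) (get lo j)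
        ((get hi j - get lo j + (one (b3 bs j) - 1)) >>> b3 bs j) (24 * j) := fun K =>
      force_eq (b3 bs j) fun b => mkT (mkL lo hi bs n) j o K b (get lo j)
        ((get hi j - get lo j + (one b - 1)) >>> b) (24 * j)
    simp only [e, mkT, force_eq]
    cases Nat.blt _ 16777215
    · exact Or.inl fun _ => rfl
    rcases ih (Nat.succ j) (Nat.add o (b3 bs j)) with h | ⟨B, h, up, wd, L, g⟩
    · exact Or.inl fun _ => h _
    · exact Or.inr ⟨_, _, _, _, _, fun _ => g _⟩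

lemma mkGr_congr {bs : ℕ} {K K' : Gr → ℕ} (hk : 1 ≤ S.k) (h : ∀ g : Gr, g.OK S → K g = K' g) :
    mkGr S bs K = mkGr S bs K' := by
  classical
  have u : (∀ K, mkGr S bs K = INF) ∨ ∃ g, ∀ K, mkGr S bs K = K g := by
    simp only [mkGr]
    cases Nat.beq (Nat.mod bs 8) 0
    · exact Or.inl fun _ => rfl
    rcases mkL_unif S.lo S.hi bs (Nat.pred S.k) 1 0 with a | ⟨B, a, up, wd, L, g⟩
    · exact Or.inl fun _ => a _
    simp only [g]
    cases Nat.ble B 16
    · exact Or.inl fun _ => rfl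
    · exact Or.inr ⟨_, fun _ => rfl⟩
  rcases u with u | ⟨g, u⟩
  · rw [u, u]
  obtain ⟨g', g1, g2⟩ := mk_ok S bs (fun x => if x = g then 0 else 1) hk (by
    rw [u, if_pos rfl]
    norm_num [INF])
  rw [u, if_pos rfl] at g2
  have e : g' = g := by
    by_contra c
    rw [if_neg c] at g2
    cases g2
  rw [u, u, h g (e ▸ g1)]

theorem gaV_eq (IT : BT AItem) (T : BT Rf) (ih : Rec) (sg : Bool) (hk : 1 ≤ S.k) (s : ℕ) :
    gaV IT T ih sg S s = gaR IT T ih sg S s := by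
  rw [← gaY_eq]
  refine congrArg (grd sg) (mkGr_congr hk fun g hg => ?_)
  simp only [yV1, yV2, yA1, yA2, force_eq]
  congr 1
  funext Z N R
  congr 1
  funext c
  rw [gvF, gyF, gLZ_eq]
  exact gLV_eq _ _ hg hk _ _ _ (f := 17) (by norm_num)
    ((Nat.shiftRight_le _ _).trans (by norm_num))

theorem gaV_ok {t : ℝ} {IT : BT AItem} (h : XTok t (gaR IT)) : XTok t (gaV IT) :=
  fun T ih hT hH sg S s hl A hI => by
  rw [gaV_eq IT T ih sg hI.pos] at hl ⊢
  exact h T ih hT hH sg S s hl A hI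

end Pool.Agent.MP_c853c5_nt.X
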