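import Pool.Agent.MP_c853c5_nt.X.GwD
import Pool.Agent.MP_c853c5_nt.X.Gv
import Pool.Agent.MP_c853c5_nt.X.ChY

/-!
The rule with fractional lanes in one pass has the same value.
-/

set_option autoImplicit false

open Finset

namespace Pool.Agent.MP_c853c5_nt.X

lemma frc_eq (x : ℕ) (f : ℕ → ℕ) : frc x f = f x := rfl

lemma get_pr6 (p j : ℕ) : get (pr6 p) j = if j = 0 then 16 else get p j := by
  show (16 + (p >>> 24) <<< 24) >>> (24 * j) % 2 ^ 24 = _
  rw [get_eq, Nat.shiftLeft_eq, Nat.shiftRight_eq_div_pow, Nat.shiftRight_eq_div_pow,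
    Nat.shiftRight_eq_div_pow]
  split_ifs with h
  · rw [h]
    omega
  · obtain ⟨i, rfl⟩ := Nat.exists_eq_succ_of_ne_zero h
    rw [show 24 * i.succ = 24 + 24 * i by omega, pow_add, ← Nat.div_div_eq_div_mul,
      ← Nat.div_div_eq_div_mul, Nat.add_mul_div_right _ _ (by positivity)]
    norm_num

lemma chZ_eq (S : NS) (n : ℕ) : ∃ X, chZ (pr6 S.par) S.lo S.hi (n + 1) =
    chV S n + X * 2 ^ (64 * 16) := by
  induction n with
  | zero =>
    refine ⟨get S.hi 0 <<< 32 + get S.lo 0, ?_⟩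
    show _ <<< (64 * get (pr6 S.par) 0) + 0 = 0 + _
    rw [get_pr6, if_pos rfl]
    generalize 64 * 16 = y
    rw [Nat.shiftLeft_eq _ y, add_comm]
    rfl
  | succ n ih =>
    obtain ⟨X, h⟩ := ih
    refine ⟨X, ?_⟩
    show _ <<< (64 * get (pr6 S.par) (n + 1)) + chZ _ _ _ (n + 1) = _ + chV S n + _
    rw [h, get_pr6, if_neg n.succ_ne_zero, add_assoc]
    rfl

lemma fT_top (V X : ℕ) {i : ℕ} (h : i < 16) : fT (V + X * 2 ^ (64 * 16)) i = fT V i := by
  obtain ⟨d, e⟩ := Nat.exists_eq_add_of_lt h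
  show _ >>> (64 * i) % 2 ^ 64 = V >>> (64 * i) % 2 ^ 64
  rw [Nat.shiftRight_eq_div_pow, Nat.shiftRight_eq_div_pow, e,
    show X * 2 ^ (64 * (i + d + 1)) = X * 2 ^ (64 * d) * 2 ^ 64 * 2 ^ (64 * i) by ring,
    Nat.add_mul_div_right _ _ (by positivity), Nat.add_mul_mod_self_right]

lemma cO_eq {F : ℕ} (hF : 0 < F) (N : ℕ) : cO F (F * N) = pv F N fun _ => 1 := by
  have := Nat.one_lt_two_pow hF.ne'
  show (one _ - 1) / (one _ - 1) = _
  rw [one_eq, one_eq, ← pv_geo, Nat.add_sub_cancel, Nat.mul_div_cancel_left _ (by omega)]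

lemma pv_id (F N : ℕ) : (2 ^ F - 1) * pv F N id + (pv F N fun _ => 1) + 2 ^ (F * N) =
    N * 2 ^ (F * N) + 1 := by
  induction N with
  | zero => simp [pv]
  | succ N ih =>
    obtain ⟨y, hy⟩ : ∃ y, 2 ^ F = y + 1 := ⟨2 ^ F - 1, by have := Nat.one_le_two_pow (n := F); omega⟩
    simp only [pv, sum_range_succ, mul_add F, mul_one, pow_add, hy, Nat.add_sub_cancel, id] at ih ⊢
    linarith

lemma ctU_eq (Z b p q V : ℕ) {F : ℕ} (hF : 0 < F) :
    ctU Z b p q F (F <<< b) V = ctZ Z b p q F (F <<< b) V := by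
  have := Nat.one_lt_two_pow hF.ne'
  have e1 : cO F (F <<< b) = wO F b := by
    rw [Nat.shiftLeft_eq, cO_eq hF, wO, rmp_pv, one_mul]
  have e2 : cX F (F <<< b) b = wX F b := by
    have h := pv_id F (2 ^ b)
    have := Nat.le_mul_of_pos_left (2 ^ (F * 2 ^ b)) (Nat.two_pow_pos b)
    rw [wX, rmp_pv, zero_mul, zero_add, mul_one, cX, Nat.shiftLeft_eq, cO_eq hF]
    show 2 * (((one b - 1) <<< _ + 1 - _) / (one F - 1)) = _
    rw [one_eq, one_eq, Nat.shiftLeft_eq, Nat.sub_mul, one_mul,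
      show 2 ^ b * 2 ^ (F * 2 ^ b) - 2 ^ (F * 2 ^ b) + 1 - (pv F (2 ^ b) fun _ => 1) =
        (2 ^ F - 1) * pv F (2 ^ b) id by omega, Nat.mul_div_cancel_left _ (by omega)]
  rw [ctU, ctZ, e1, e2, Nat.land_eq, Nat.and_comm,
    show ∀ a, Nat.mul a V = Nat.mul V a from fun a => Nat.mul_comm a V]
  rfl

lemma cU_eq (Z : ℕ) (K : ℕ → ℕ) (L : WL) : ∀ f F V m, 0 < F →
    cU Z K L f F V m = bU Z K L f F V m := by
  induction L with
  | nil => exact fun _ _ _ _ _ => rfl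
  | cons b p q r ih =>
    intro f F V m hF
    have e : cU1 (cU Z K r) Z F V b p q (Nat.mul m (fW b p q)) =
        bU1 (bU Z K r) Z F V b p q (Nat.mul m (fW b p q)) := by
      rw [cU1, bU1, force_eq, force_eq, gz_eq (by rw [Nat.beq_eq]), Nat.shiftLeft_eq',
        ctU_eq _ _ _ _ _ hF, ih _ _ _ _ (by rw [Nat.shiftLeft_eq]; positivity)]
    exact congrArg (fun y => Nat.rec (motive := fun _ => ℕ) (K (tD V (.cons b p q r) F))
      (fun _ _ => y) (Nat.shiftRight (rP (.cons b p q r)) (Nat.sub F f))) e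

lemma fnA_eq (u : BT AItem) : ∀ i, (fnA u i).f = u.find i := by
  induction u with
  | lf x => exact fun _ => rfl
  | nd n l r il ir =>
    intro i
    show (cnd (Nat.blt i n) (fnA l i) (fnA r (Nat.sub i n))).f =
      cnd (Nat.blt i n) (l.find i) (r.find (Nat.sub i n))
    cases Nat.blt i n
    exacts [ir _, il _]

lemma gwLoop_eq {IT : BT AItem} {x : Ga} {T : ℕ} (h : T = x.g.T) (ih : Rec) (S : NS)
    (fin : ℕ → ℕ) (n : ℕ) : gwLoop IT x T ih S fin n = gyLoop IT x ih S fin n := by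
  simp only [gwLoop, gyLoop, force_eq, fnA_eq, h]

noncomputable def sB (bs : ℕ) : ℕ → ℕ → ℕ
  | 0, _ => 0
  | n + 1, j => b3 bs j + sB bs n (j + 1)

noncomputable def hK (lo hi bs j : ℕ) : ℕ := hJ (get hi j - get lo j) (b3 bs j)

noncomputable def vX (lo hi bs : ℕ) : ℕ → ℕ → ℕ
  | 0, _ => 0
  | n + 1, j => (get lo j + hK lo hi bs j <<< b3 bs j - 16777214) + vX lo hi bs n (j + 1)

lemma gz_add (a b x : ℕ) : gz (a + b) x = gz a (gz b x) := by
  cases a with
  | zero => rw [zero_add]; rfl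
  | succ a => rw [Nat.succ_add]; rfl

lemma mkL_uL (lo hi bs B n : ℕ) : ∀ j o K, B = o + sB bs n j → mkL lo hi bs n j o K =
    gz (vX lo hi bs n j) (K B (uL lo hi bs B n j o).h (uL lo hi bs B n j o).up
      (uL lo hi bs B n j o).wd (uL lo hi bs B n j o).L) := by
  induction n with
  | zero => exact fun j o K h => h ▸ rfl
  | succ n ih =>
    intro j o K h
    have e : mkL lo hi bs (n + 1) j o K =
        mkT (mkL lo hi bs n) j o K (b3 bs j) (get lo j) (hK lo hi bs j) (24 * j) :=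
      force_eq (b3 bs j) fun b => mkT (mkL lo hi bs n) j o K b (get lo j)
        ((get hi j - get lo j + (one b - 1)) >>> b) (24 * j)
    rw [e, mkT, force_eq, ih (Nat.succ j) (Nat.add o (b3 bs j)) _ (h.trans (add_assoc _ _ _).symm),
      vX, gz_add, ← gz_eq]
    · rfl
    · rw [Nat.blt_eq, Nat.add_eq, Nat.shiftLeft_eq']
      omega

lemma uL_get (lo hi bs B n : ℕ) : ∀ j o, vX lo hi bs n j = 0 →
    (2 ^ (24 * j) ∣ (uL lo hi bs B n j o).h ∧ 2 ^ (24 * j) ∣ (uL lo hi bs B n j o).wd) ∧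
      ∀ i, j ≤ i → i < j + n → get (uL lo hi bs B n j o).h i = hK lo hi bs i ∧
        get (uL lo hi bs B n j o).wd i = hK lo hi bs i <<< b3 bs i := by
  induction n with
  | zero => exact fun j o _ => ⟨⟨dvd_zero _, dvd_zero _⟩, fun i h1 h2 => by omega⟩
  | succ n ih =>
    intro j o h
    rw [vX] at h
    obtain ⟨⟨d1, d2⟩, g⟩ := ih (j + 1) (o + b3 bs j) (by omega)
    have a : hK lo hi bs j ≤ hK lo hi bs j <<< b3 bs j := Nat.le_shiftLeft
    obtain ⟨c1, c2, c3⟩ := Ln.get_low d1 (x := hK lo hi bs j) (by omega)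
    obtain ⟨c4, c5, c6⟩ := Ln.get_low d2 (x := hK lo hi bs j <<< b3 bs j) (by omega)
    refine ⟨⟨c1, c4⟩, fun i i1 i2 => ?_⟩
    rcases i1.eq_or_lt with rfl | i3
    · exact ⟨c2, c5⟩
    · exact ⟨(c3 i i3).trans (g i i3 (by omega)).1, (c6 i i3).trans (g i i3 (by omega)).2⟩

lemma mw2_zero (ih : IM) (K : KM) (j j' o x Z N P h l p q : ℕ) : mw2 ih K j j' o x Z N P 0 h l p q =
    mw3 ih K j j' o (o + 0) x Z N (P * (p + q)) 0 h l p q fun L => L := rfl

lemma mw2_succ (ih : IM) (K : KM) (j j' o x Z N P b h l p q : ℕ) :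
    mw2 ih K j j' o x Z N P (b + 1) h l p q =
      mw3 ih K j j' o (o + (b + 1)) x Z N P (b + 1) h l p q (.cons (b + 1) p q) :=
  force_eq (o + (b + 1)) fun o' => mw3 ih K j j' o o' x Z N P (b + 1) h l p q (.cons (b + 1) p q)

lemma mwL_eq (g : Gr) (S : NS) (par V W C n : ℕ) : ∀ j o x Z N P B, B = o + sB g.bs n j →
    ∃ Z2 N2 P2 R L, (∀ K, mwL g.bs par S.lo S.hi V C n j o x Z N P K =
      K B (x + vX S.lo S.hi g.bs n j) Z2 N2 P2 R L) ∧
    ((∀ i, j ≤ i → i < j + n → get g.h i = hK S.lo S.hi g.bs i ∧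
      get g.wd i = hK S.lo S.hi g.bs i <<< b3 g.bs i ∧ ∀ w, eI S.lo S.hi V C i w = eZ W C i w ∧
        eI S.lo S.hi V C (get par i) w = eZ W C (get S.par i) w) →
      (∀ K, gyU g.bs g.h g.wd S.par S.lo S.hi W C B n j o Z N K = K Z2 N2 R) ∧
        P2 = wp g S W C n j P ∧ L = wl g S W C n j) := by
  induction n with
  | zero => exact fun j o x Z N P B h => ⟨Z, N, P, [], .nil, fun _ => h ▸ rfl,
      fun _ => ⟨fun _ => rfl, rfl, rfl⟩⟩
  | succ n ih =>
    intro j o x Z N P B h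
    set b := b3 g.bs j with hb
    set w := get S.hi j - get S.lo j
    set p := eI S.lo S.hi V C (get par j) w >>> 13 + 1 with hp
    set q := (eI S.lo S.hi V C j w + cdR ((eI S.lo S.hi V C j w - eI S.lo S.hi V C (get par j) w) *
      (hJ w b <<< b - w)) w) >>> 13 + 1 with hq
    obtain ⟨Z2, N2, P2, R, L, h1, h2⟩ := ih (j + 1) (o + b)
      (x + (get S.lo j + hJ w b <<< b - 16777214)) (zU Z b (mn0 p q) (p - q + (q - p))) (N + one b)
      (if b = 0 then P * hJ w b <<< (13 - b) * (p + q) else P * hJ w b <<< (13 - b)) B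
      (h.trans (add_assoc _ _ _).symm)
    refine ⟨Z2, N2, P2, ⟨44 * j, 44 * j, hJ w b, get S.lo j + hJ w b, get S.lo j, gU B o b⟩ :: R,
      if b = 0 then L else .cons b p q L, fun K => ?_, fun H => ?_⟩
    · have e : mwL g.bs par S.lo S.hi V C (n + 1) j o x Z N P K =
          mw2 (mwL g.bs par S.lo S.hi V C n) K j (j + 1) o
            (x + (get S.lo j + hJ w b <<< b - 16777214)) Z N (P * hJ w b <<< (13 - b)) b (hJ w b)
            (get S.lo j) p q := by
        simp only [mwL, force_eq, frc_eq]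
        rfl
      rw [e, vX, ← add_assoc, hK, ← hb]
      clear_value b p q
      cases b with
      | zero =>
        rw [if_pos rfl] at h1
        rw [mw2_zero, if_pos rfl, mw3]
        exact h1 _
      | succ b =>
        rw [if_neg b.succ_ne_zero] at h1
        rw [mw2_succ, if_neg b.succ_ne_zero, mw3]
        exact h1 _
    · obtain ⟨g1, g2, g3⟩ := H j le_rfl (by omega)
      obtain ⟨g4, g5, g6⟩ := h2 fun i i1 i2 => H i (by omega) (by omega)
      have e1 : p = gp S W C j := by rw [hp, (g3 w).2, gp, eZ_eq]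
      have e2 : q = gq g S W C j := by rw [hq, (g3 w).1, (g3 w).2, gq, g2, eZ_eq]; rfl
      refine ⟨fun K => ?_, by rw [g5, wp, g1, e1, e2]; rfl, by rw [g6, wl, e1, e2]⟩
      have e : gyU g.bs g.h g.wd S.par S.lo S.hi W C B (n + 1) j o Z N K =
          yU2 (gyU g.bs g.h g.wd S.par S.lo S.hi W C B n) K j (o + b) Z N b (get g.h j)
            (get S.lo j) (gU B o b) (gp S W C j) (gq g S W C j) := by
        rw [gp, gq, ← eZ_eq]
        simp only [gyU, force_eq]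
        rfl
      rw [e, ← e1, ← e2, g1]
      exact g4 _

variable {S : NS} {A : ℕ → Finset ℕ}

lemma fT_Z (hI : Inv S A) {i : ℕ} (h : i < S.k) :
    Nat.mod (fT (mkZ S.lo S.hi (chV S (Nat.pred S.k)) S.k) i) 4294967296 =
      mI S.lo (chZ (pr6 S.par) S.lo S.hi S.k) i ∧
    Nat.shiftRight (fT (mkZ S.lo S.hi (chV S (Nat.pred S.k)) S.k) i) 32 =
      uI S.hi (chZ (pr6 S.par) S.lo S.hi S.k) i := by
  obtain ⟨X, e⟩ := chZ_eq S (Nat.pred S.k)
  rw [show Nat.pred S.k + 1 = S.k from Nat.succ_pred_eq_of_pos hI.pos] at e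
  have b := loR_lt (S := S) i (fT (chV S (Nat.pred S.k)) i)
  rw [mkZ_eq, fT_mkW hI.le _ h, mI, uI, e, fT_top _ _ (h.trans_le hI.le), wOf, force_eq, loZ_eq,
    Nat.shiftRight_eq, Nat.shiftRight_eq_div_pow, Nat.add_eq, Nat.shiftLeft_eq', Nat.shiftLeft_eq]
  refine ⟨?_, by omega⟩
  show _ % 4294967296 = _
  omega

lemma acW_eq (hI : Inv S A) {V W : ℕ} (hV : V = chZ (pr6 S.par) S.lo S.hi S.k)
    (hW : W = mkZ S.lo S.hi (chV S (Nat.pred S.k)) S.k) (n : ℕ) : n ≤ S.k → ∀ K,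
    acW S.kd S.lo S.hi V n K = K (acP S.kd W n) (acC S.kd W n) := by
  induction n with
  | zero => exact fun _ _ => rfl
  | succ n ih =>
    intro h K
    have e : bw1 S.kd S.lo S.hi V n (mI S.lo V n) (uI S.hi V n) = blZ S.kd W n := by
      have l := fun a b => (link_ok hI (i := n) h a b).2.1
      rw [blZ, bw1, bl1, hW, (fT_Z hI h).1, (fT_Z hI h).2, ← hV]
      generalize get S.kd n = q at l
      cases q with
      | zero => simp only [Nat.rec_zero, Nat.beq_refl, cnd_tt]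
      | succ q =>
        simp only [cnd_e, if_neg q.succ_ne_zero, show Nat.ble (q + 1) 16 = Nat.ble q 15 from rfl,
          Nat.sub_eq, Nat.add_sub_cancel]
        cases c : Nat.ble q 15
        · simp only [cnd_ff]
        · rw [Nat.ble_eq] at c
          have d := fT_Z hI (i := q) (l q.succ_ne_zero (by omega))
          simp only [cnd_tt, d.1, d.2, ← hV]
    show bw2 (acW S.kd S.lo S.hi V n) K _ = _
    rw [e, bw2, ih (by omega)]
    rfl

lemma eI_eq (hI : Inv S A) (C w : ℕ) {t : ℕ} (h : t < S.k) :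
    eI S.lo S.hi (chZ (pr6 S.par) S.lo S.hi S.k) C t w =
      eZ (mkZ S.lo S.hi (chV S (Nat.pred S.k)) S.k) C t w := by
  rw [eZ, (fT_Z hI h).1, (fT_Z hI h).2, eI, eY]
  generalize Nat.mod (Nat.shiftRight C (Nat.mul 8 t)) 256 = n
  cases n with
  | zero => rw [show ∀ m, Nat.mul m (Nat.sub 0 (Nat.sub 0 1)) = 0 from fun _ => rfl,
      show Nat.ble 20000 0 = false from rfl, cnd_ff, Nat.rec_zero]
  | succ n =>
    show cnd _ (eW (2 * (n + 1) * w) _) _ = cnd (Nat.ble _ (_ * (n + 1 - (n + 1 - 1)))) _ _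
    rw [show n + 1 - (n + 1 - 1) = 1 by omega, mul_one, mul_assoc]
    rfl

lemma gwF_eq (g : Gr) (S : NS) (W C B r p t m : ℕ) : gvF g S W C B r p t m =
    gwF (wl g S W C r 1) B g.O r (wp g S W C r 1 p) t m := funext fun c => by
  rw [gwF, cU_eq _ _ _ _ _ _ _ (by norm_num), gvF, gLV, wlZ_eq, pw2,
    show Nat.pred (one t) = gM t from Nat.pred_eq_sub_one]

theorem gaW_eq (IT : BT AItem) (T : BT Rf) (ih : Rec) (sg : Bool) (hI : Inv S A) (s : ℕ) :
    gaW IT T ih sg S s = gaR IT T ih sg S s := by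
  rw [← gaV_eq IT T ih sg hI.pos]
  refine congrArg (grd sg) ?_
  show wA1 IT ih S S.k (pr6 S.par) S.kd S.lo S.hi (Nat.pred S.k) _ _ _ = mkGr S _ _
  generalize hb : Nat.shiftLeft (Nat.mod s (one (Nat.mul 3 (Nat.pred S.k)))) 3 = bs
  generalize Nat.shiftRight s (Nat.mul 3 (Nat.pred S.k)) = v
  have b0 : Nat.beq (Nat.mod bs 8) 0 = true := by
    rw [← hb, Nat.beq_eq, Nat.shiftLeft_eq', Nat.shiftLeft_eq]
    exact Nat.mul_mod_left _ _
  set B := 0 + sB bs (Nat.pred S.k) 1 with hB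
  set g := grX B bs (get S.hi 0) (Nat.mod (gO B) 0) (Nat.mod (gT B) 0)
    (uL S.lo S.hi bs B (Nat.pred S.k) 1 0) with hg
  rw [wA1, acW_eq hI rfl rfl _ le_rfl, frc_eq, mkGr, b0, mkL_uL _ _ _ B _ _ _ _ hB]
  obtain ⟨Z, N, P, R, L, h1, h2⟩ := mwL_eq g S (pr6 S.par) _ _ _ _ 1 0 0 68719476736 1
    (acP S.kd (mkZ S.lo S.hi (chV S (Nat.pred S.k)) S.k) S.k) B hB
  refine (h1 _).trans ?_
  rw [zero_add, wA2, Nat.add_eq, gz_add]
  show gz (vX S.lo S.hi bs _ _) _ = gz _ _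
  cases e : vX S.lo S.hi bs (Nat.pred S.k) 1 with
  | succ _ => rfl
  | zero =>
    obtain ⟨g1, g2, g3⟩ := h2 fun i i1 i2 => by
      have i3 : i < S.k := by
        have := hI.pos
        rw [Nat.pred_eq_sub_one] at i2
        omega
      refine ⟨((uL_get _ _ _ B _ 1 0 e).2 i i1 i2).1, ((uL_get _ _ _ B _ 1 0 e).2 i i1 i2).2,
        fun w => ⟨eI_eq hI _ _ i3, ?_⟩⟩
      rw [get_pr6, if_neg (by omega)]
      exact eI_eq hI _ _ ((hI.par i i1 i3).trans i3)
    show gz (Nat.sub B 16) _ = grd (Nat.ble B 16) (yV1 IT ih S _ v _ g)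
    refine (gz_eq (by rw [Nat.ble_eq, Nat.sub_eq]; omega) _).trans (congrArg _ ?_)
    rw [yV1, yV2, force_eq, force_eq]
    refine Eq.trans ?_ (g1 _).symm
    have t1 : Nat.mod (gT B) 0 = g.T := by simp only [g, grX]
    have t2 : Nat.mod (gO B) 0 = g.O := by simp only [g, grX]
    have t3 : B = g.B := by simp only [g, grX]
    rw [wA3, ← hg, t1, t2, gwLoop_eq rfl, g2, g3, ← gwF_eq, ← t3]

theorem gaW_ok {t : ℝ} {IT : BT AItem} (h : XTok t (gaR IT)) : XTok t (gaW IT) :=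
  fun T ih hT hH sg S s hl A hI => by
  rw [gaW_eq IT T ih sg hI] at hl ⊢
  exact h T ih hT hH sg S s hl A hI

end Pool.Agent.MP_c853c5_nt.X
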