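import Pool.Agent.MP_c853c5_nt.X.GaA

/-!
The tail of a sum of uniform variables with given sum and maximum of the widths.
-/

set_option autoImplicit false

namespace Pool.Agent.MP_c853c5_nt.X

/-- `(m+1)!` times the volume below the level `z` of the box with widths `W` (`m` times) and `r` -/
def extS (m W r z : ℕ) : ℤ := ∑ j ∈ Finset.range (m + 1),
  (-1) ^ j * (m.choose j : ℤ) * (((z - j * W) ^ (m + 1) : ℕ) - ((z - j * W - r) ^ (m + 1) : ℕ))

def tabU (i : ℕ) : ℕ := min (max (i + 1) 8) 64

/-- slopes `A / 1024`, `B / 1024`, knot `z / 128` for the largest width in `[i / 64, (i + 1) / 64]` -/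
def tabOK (i A B z : ℕ) : Prop := 0 < z ∧ z < 64 ∧
  extS (63 / tabU i) (2 * tabU i) (128 - 2 * (63 / tabU i * tabU i)) z * 131072 ≤
    (((63 / tabU i + 1).factorial * (2 * tabU i) ^ (63 / tabU i) *
      (128 - 2 * (63 / tabU i * tabU i)) * A * z : ℕ) : ℤ) ∧
  262144 ≤ A * (128 + 2 * i) + B * (128 + 2 * i - 2 * z)

instance (i A B z : ℕ) : Decidable (tabOK i A B z) := by unfold tabOK; infer_instance

section peak

variable {R : List ℝ} {c : ℝ}

/-- the odd part of the first integral -/
noncomputable def prk (R : List ℝ) (c t : ℝ) : ℝ :=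
  dif R (tp (R.length + 1)) (c + t) - dif R (tp (R.length + 1)) (c - t)

/-- the even part of the second integral -/
noncomputable def prK (R : List ℝ) (c t : ℝ) : ℝ :=
  dif R (tp (R.length + 2)) (c + t) + dif R (tp (R.length + 2)) (c - t)

lemma pr_even {x : ℝ} (hR : ∀ y ∈ x :: R, 0 ≤ y) (hc : c ≤ (x :: R).sum / 2) {t t' : ℝ}
    (h0 : 0 ≤ t) (h : t ≤ t') :
    vb (x :: R) (c + t) + vb (x :: R) (c - t) ≤ vb (x :: R) (c + t') + vb (x :: R) (c - t') := by
  have hs : ∀ s, vb (x :: R) s + vb (x :: R) (2 * ((x :: R).sum / 2) - s) = (x :: R).prod :=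
    fun s => by rw [mul_div_cancel₀ _ two_ne_zero]; exact sym0 x R s
  have cv := vb_cvx R x hR
  generalize (x :: R).sum / 2 = H at *
  rcases le_total (c + (t + t') / 2) H with e | e
  · have := cvx_sym cv hs (x := t' - t) (a := c - t) (b := c + t') (by linarith) (by linarith)
      (by linarith)
    rw [show c - t - (t' - t) = c - t' by ring, show c + t' - (t' - t) = c + t by ring] at this
    linarith
  · have := cvx_sym cv hs (x := t' - t) (a := c - t) (b := 2 * H - (c + t)) (by linarith)
      (by linarith) (by linarith)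
    rw [show c - t - (t' - t) = c - t' by ring,
      show 2 * H - (c + t) - (t' - t) = 2 * H - (c + t') by ring] at this
    linarith [hs (c + t), hs (c + t')]

lemma prk_mono (hR : ∀ y ∈ R, 0 ≤ y) (hc : c ≤ R.sum / 2) {t t' : ℝ} (h0 : 0 ≤ t) (h : t ≤ t') :
    prk R c t * t' ≤ prk R c t' * t := by
  obtain _ | ⟨x, R⟩ := R
  · simp only [List.sum_nil, zero_div] at hc
    simp only [prk, dif, List.length_nil, tp, zero_add, pow_one, Nat.factorial_one, Nat.cast_one,
      div_one]
    rw [max_eq_right (show c - t ≤ 0 by linarith), max_eq_right (show c - t' ≤ 0 by linarith),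
      sub_zero, sub_zero]
    rcases le_total (c + t) 0 with e | e
    · rw [max_eq_right e, zero_mul]
      positivity
    · rw [max_eq_left e, max_eq_left (by linarith)]
      nlinarith [mul_nonneg (neg_nonneg.2 hc) (sub_nonneg.2 h)]
  have d := dif_deriv (tp_deriv R.length) (x :: R)
  have dk : ∀ u, HasDerivAt (prk (x :: R) c) (vb (x :: R) (c + u) + vb (x :: R) (c - u)) u :=
    fun u => (((d (c + u)).comp_const_add c u).sub ((d (c - u)).comp_const_sub c u)).congr_deriv
      (sub_neg_eq_add _ _)
  have m := fun (u v : ℝ) => pr_even hR hc (t := u) (t' := v)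
  set g := vb (x :: R) (c + t) + vb (x :: R) (c - t)
  have h1 := le_of_der (fun u => ((hasDerivAt_id u).mul_const g).fun_sub (dk u)) h0
    fun u u0 u1 => by linarith [m u t u0.le u1.le]
  have h2 := le_of_der (fun u => (dk u).fun_sub ((hasDerivAt_id u).mul_const g)) h
    fun u u0 _ => by linarith [m t u h0 u0.le]
  have h3 : prk (x :: R) c 0 = 0 := by simp [prk]
  simp only [id, h3] at h1 h2
  nlinarith [mul_le_mul_of_nonneg_right h2 h0, mul_le_mul_of_nonneg_right h1 (sub_nonneg.2 h)]

lemma pr_tang (hR : ∀ y ∈ R, 0 ≤ y) (hc : c ≤ R.sum / 2) {p : ℝ} (hp : 0 ≤ p) (t : ℝ) :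
    (t ^ 2 - p ^ 2) * prk R c p ≤ 2 * p * (prK R c t - prK R c p) := by
  have d := dif_deriv (tp_deriv R.length) R
  have dK : ∀ u, HasDerivAt (prK R c) (prk R c u) u := fun u =>
    (((d (c + u)).comp_const_add c u).add ((d (c - u)).comp_const_sub c u)).congr_deriv
      (sub_eq_add_neg _ _).symm
  have key : ∀ t, 0 ≤ t → (t ^ 2 - p ^ 2) * prk R c p ≤ 2 * p * (prK R c t - prK R c p) := by
    intro t ht
    rcases le_total t p with e | e
    · have := le_of_der (fun u => (((hasDerivAt_id u).fun_pow 2).mul_const (prk R c p)).fun_sub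
        ((dK u).const_mul (2 * p))) e fun u u0 u1 => by
          have := prk_mono hR hc (ht.trans u0.le) u1.le
          simp only [id]
          push_cast
          linarith
      simp only [id] at this
      linarith
    · have := le_of_der (fun u => ((dK u).const_mul (2 * p)).fun_sub
        (((hasDerivAt_id u).fun_pow 2).mul_const (prk R c p))) e fun u u0 _ => by
          have := prk_mono hR hc hp u0.le
          simp only [id]
          push_cast
          linarith
      simp only [id] at this
      linarith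
  rcases le_total 0 t with e | e
  · exact key t e
  · have := key (-t) (by linarith)
    rwa [neg_sq, show prK R c (-t) = prK R c t by
      simp only [prK, sub_neg_eq_add, ← sub_eq_add_neg, add_comm]] at this

lemma vb_two (x y s : ℝ) : vb (x :: y :: R) s =
    prK R (s - (x + y) / 2) ((x + y) / 2) - prK R (s - (x + y) / 2) ((x - y) / 2) := by
  simp only [vb, prK, dif, List.length_cons]
  rw [show s - (x + y) / 2 + (x + y) / 2 = s by ring,
    show s - (x + y) / 2 - (x + y) / 2 = s - x - y by ring,
    show s - (x + y) / 2 + (x - y) / 2 = s - y by ring,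
    show s - (x + y) / 2 - (x - y) / 2 = s - x by ring]
  ring

lemma pr_merge (hR : ∀ y ∈ R, 0 ≤ y) {x y s : ℝ} (h : 0 ≤ x + y) (hs : s ≤ (x + y + R.sum) / 2) :
    vb (x :: y :: R) s * (x + y) ≤ x * y * vb ((x + y) :: R) s := by
  have := pr_tang hR (c := s - (x + y) / 2) (by linarith) (p := (x + y) / 2) (by linarith)
    ((x - y) / 2)
  have e : vb ((x + y) :: R) s = prk R (s - (x + y) / 2) ((x + y) / 2) := by
    simp only [vb, prk, dif, List.length_cons]
    rw [show s - (x + y) / 2 + (x + y) / 2 = s by ring,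
      show s - (x + y) / 2 - (x + y) / 2 = s - (x + y) by ring]
  rw [vb_two, e]
  linarith

lemma pr_spread (hR : ∀ y ∈ R, 0 ≤ y) {x y V s : ℝ} (hx : x ≤ V) (hy : y ≤ V) (h0 : 0 ≤ V)
    (h : V ≤ x + y) (hs : s ≤ (x + y + R.sum) / 2) :
    vb (x :: y :: R) s * (V * (x + y - V)) ≤ x * y * vb (V :: (x + y - V) :: R) s := by
  rcases (show 0 ≤ V - (x + y) / 2 by linarith).eq_or_lt with e | e
  · obtain rfl : x = V := by linarith
    obtain rfl : y = x := by linarith
    rw [add_sub_cancel_right, mul_comm]
  have t := pr_tang hR (c := s - (x + y) / 2) (by linarith) e.le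
  have t1 := mul_le_mul_of_nonneg_right (t ((x - y) / 2)) (mul_nonneg h0 (sub_nonneg.2 h))
  have t2 := mul_le_mul_of_nonneg_right (t ((x + y) / 2))
    (mul_nonneg (sub_nonneg.2 hx) (sub_nonneg.2 hy))
  rw [vb_two, vb_two, show V + (x + y - V) = x + y by ring,
    show (V - (x + y - V)) / 2 = V - (x + y) / 2 by ring]
  refine le_of_mul_le_mul_left ?_ (show 0 < 2 * (V - (x + y) / 2) by linarith)
  linear_combination t1 + t2

lemma vb_perm {l l' : List ℝ} (h : l.Perm l') : vb l = vb l' := by
  rw [vb, vb, dif_perm h, h.length_eq]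

lemma pr_peak {V r s : ℝ} {m : ℕ} (hr : 0 < r) (hV : r ≤ V) (hs : s ≤ (m * V + r) / 2)
    (l : List ℝ) : ∀ (k : ℕ) (q : ℝ), (∀ y ∈ l, 0 < y ∧ y ≤ V) → 0 < q → q ≤ V →
      l.sum + k * V + q = m * V + r →
      vb (q :: (l ++ List.replicate k V)) s * (r * V ^ m) ≤
        q * (l.prod * V ^ k) * vb (r :: List.replicate m V) s := by
  have V0 : 0 < V := hr.trans_le hV
  induction l with
  | nil =>
    intro k q _ q0 q1 e
    simp only [List.sum_nil, zero_add] at e
    have h1 : (k : ℝ) < m + 1 := lt_of_mul_lt_mul_right (by linarith) V0.le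
    have h2 : (m : ℝ) < k + 1 := lt_of_mul_lt_mul_right (by linarith) V0.le
    obtain rfl : k = m := by
      norm_cast at h1 h2
      omega
    obtain rfl : q = r := by linarith
    simp [mul_comm]
  | cons y l ih =>
    intro k q hl q0 q1 e
    rw [List.forall_mem_cons] at hl
    obtain ⟨⟨y0, y1⟩, hl⟩ := hl
    have hR : ∀ z ∈ l ++ List.replicate k V, 0 ≤ z := fun z hz => by
      rcases List.mem_append.1 hz with h | h
      · exact (hl z h).1.le
      · exact (List.eq_of_mem_replicate h).ge.trans' V0.le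
    rw [List.sum_cons] at e
    have hs' : s ≤ (q + y + (l ++ List.replicate k V).sum) / 2 := by
      simp only [List.sum_append, List.sum_replicate, nsmul_eq_mul]
      linarith
    rw [List.cons_append, List.prod_cons]
    rcases le_or_gt (q + y) V with h | h
    · have g1 := mul_le_mul_of_nonneg_right (pr_merge hR (add_pos q0 y0).le hs')
        (show 0 ≤ r * V ^ m by positivity)
      have g2 := mul_le_mul_of_nonneg_left (ih k (q + y) hl (add_pos q0 y0) h (by linarith))
        (mul_pos q0 y0).le
      refine le_of_mul_le_mul_right ?_ (add_pos q0 y0)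
      linear_combination g1 + g2
    · have g1 := mul_le_mul_of_nonneg_right (pr_spread hR q1 y1 V0.le h.le hs')
        (show 0 ≤ r * V ^ m by positivity)
      have g2 := mul_le_mul_of_nonneg_left (ih (k + 1) (q + y - V) hl (by linarith) (by linarith)
        (by push_cast; linarith)) (mul_pos q0 y0).le
      rw [show vb (V :: (q + y - V) :: (l ++ List.replicate k V)) =
        vb ((q + y - V) :: (l ++ List.replicate (k + 1) V)) from
          vb_perm ((List.Perm.swap _ _ _).trans (List.perm_middle.symm.cons _))] at g1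
      refine le_of_mul_le_mul_right ?_ (mul_pos V0 (sub_pos.2 h))
      linear_combination g1 + g2

lemma dif_rep (f : ℝ → ℝ) (V : ℝ) (m : ℕ) : ∀ s, dif (List.replicate m V) f s =
    ∑ j ∈ Finset.range (m + 1), (m.choose j : ℝ) * ((-1) ^ j * f (s - j * V)) := by
  induction m with
  | zero => simp [dif]
  | succ m ih =>
    intro s
    rw [List.replicate_succ, dif, ih, ih,
      Finset.sum_choose_succ_mul (fun j _ => (-1) ^ j * f (s - j * V)) m, sub_eq_add_neg,
      ← Finset.sum_neg_distrib]
    congr 1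
    refine Finset.sum_congr rfl fun j _ => ?_
    rw [show s - V - j * V = s - ((j + 1 : ℕ) : ℝ) * V by push_cast; ring]
    ring

lemma max_nat {u : ℝ} (hu : 0 ≤ u) (a b : ℕ) : max (a * u - b * u) 0 = ((a - b : ℕ) : ℝ) * u := by
  rcases le_total a b with h | h
  · rw [Nat.sub_eq_zero_of_le h, max_eq_right (sub_nonpos.2 (by gcongr))]
    simp
  · rw [Nat.cast_sub h, max_eq_left (sub_nonneg.2 (by gcongr)), sub_mul]

lemma vb_ext {u : ℝ} (hu : 0 ≤ u) (m W r z : ℕ) :
    (m + 1).factorial * vb (r * u :: List.replicate m (W * u)) (z * u) =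
      extS m W r z * u ^ (m + 1) := by
  simp only [vb, dif, List.length_cons, List.length_replicate, dif_rep, extS, tp]
  push_cast [-Nat.cast_succ]
  rw [← Finset.sum_sub_distrib, Finset.mul_sum, Finset.sum_mul]
  refine Finset.sum_congr rfl fun j _ => ?_
  have e1 := max_nat hu z (j * W)
  have e2 := max_nat hu z (j * W + r)
  rw [show (z : ℝ) * u - j * (W * u) = z * u - (j * W : ℕ) * u by push_cast; ring, e1,
    show (z : ℝ) * u - r * u - j * (W * u) = z * u - (j * W + r : ℕ) * u by push_cast; ring, e2,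
    Nat.sub_sub]
  have : ((m + 1).factorial : ℝ) ≠ 0 := by positivity
  field_simp
  ring

end peak

theorem vb_tab {i A B z : ℕ} (h : tabOK i A B z) {l : List ℝ} (hl : ∀ y ∈ l, 0 ≤ y) {W : ℝ}
    (hW : W ∈ l) (hu : ∀ y ∈ l, y ≤ W) (h0 : 0 < l.sum) (h1 : i * l.sum ≤ 64 * W)
    (h2 : 64 * W ≤ (i + 1) * l.sum) (s : ℝ) :
    vb l s ≤ l.prod * (A / (1024 * l.sum) * max s 0 +
      B / (1024 * l.sum) * max (s - z * l.sum / 128) 0) := by
  obtain ⟨z0, z1, h3, h4⟩ := h
  have WS : W ≤ l.sum := List.single_le_sum hl W hW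
  have hU : 64 * W ≤ tabU i * l.sum := by
    rcases le_total (max (i + 1) 8) 64 with e | e
    · rw [tabU, min_eq_left e]
      refine h2.trans (mul_le_mul_of_nonneg_right ?_ h0.le)
      exact_mod_cast le_max_left (i + 1) 8
    · rw [tabU, min_eq_right e]
      push_cast
      linarith
  have U0 : 0 < tabU i := by unfold tabU; omega
  generalize tabU i = U at *
  have m1 : 63 / U * U ≤ 63 := Nat.div_mul_le_self _ _
  have m2 : 63 < 63 / U * U + U := Nat.lt_div_mul_add U0
  generalize 63 / U = m at *
  obtain ⟨r, hr⟩ : ∃ r, 128 = 2 * (m * U) + r := Nat.exists_eq_add_of_le (by omega)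
  rw [show 128 - 2 * (m * U) = r by omega] at h3
  have r0 : 0 < r := by omega
  have r1 : (r : ℝ) ≤ (2 * U : ℕ) := by exact_mod_cast (by omega : r ≤ 2 * U)
  have hr' : (128 : ℝ) = 2 * (m * U) + r := by exact_mod_cast hr
  have z2 : (z : ℝ) < 64 := by exact_mod_cast z1
  have h5 : (262144 : ℝ) ≤ A * (128 + 2 * i) + B * (128 + 2 * i - 2 * z) := by
    have : ((128 + 2 * i - 2 * z : ℕ) : ℝ) = 128 + 2 * i - 2 * z := by
      rw [Nat.cast_sub (by omega)]
      push_cast
      rfl
    rw [← this]
    exact_mod_cast h4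
  obtain _ | ⟨x, l⟩ := l
  · simp at hW
  have c := vb_cvx l x hl
  have e0 : ∀ s ≤ 0, vb (x :: l) s = 0 := dif_neg hl _
  have eH : 2 * vb (x :: l) ((x :: l).sum / 2) = (x :: l).prod := by
    have := sym0 x l ((x :: l).sum / 2)
    rwa [show (x :: l).sum - (x :: l).sum / 2 = (x :: l).sum / 2 by ring, ← two_mul] at this
  have eP : ∀ s, vb (x :: l) s ≤ (x :: l).prod := fun s => by
    linarith [sym0 x l s, show 0 ≤ vb (x :: l) _ from dif_nonneg _ hl ((x :: l).sum - s)]
  have P0 := List.prod_nonneg hl
  refine tail_gen c e0 eH eP (fun u v => vb_lip hl (Or.inr hW)) (hl W hW) (by positivity)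
    (by nlinarith) (by positivity) (by positivity) ?_ ?_ s
  · rcases P0.eq_or_lt with e | e
    · exact (eP _).trans (by rw [← e, zero_mul])
    have hp : ∀ y ∈ x :: l, 0 < y := fun y hy => (hl y hy).lt_of_ne fun e' =>
      e.ne' (List.prod_eq_zero (e' ▸ hy))
    obtain ⟨u, hu'⟩ : ∃ u, (x :: l).sum = 128 * u := ⟨(x :: l).sum / 128, by ring⟩
    have u0 : 0 < u := by linarith
    have hV : ∀ y ∈ x :: l, y ≤ (2 * U : ℕ) * u := fun y hy => by
      have := hu y hy
      rw [hu'] at hU
      push_cast
      linarith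
    have eS : (x :: l).sum = m * ((2 * U : ℕ) * u) + r * u := by
      push_cast
      linear_combination u * hr' + hu'
    have g1 := pr_peak (m := m) (s := z * u) (show 0 < r * u by positivity)
      (mul_le_mul_of_nonneg_right r1 u0.le) (by rw [← eS]; nlinarith) l 0 x
      (fun y hy => ⟨hp y (by simp [hy]), hV y (by simp [hy])⟩) (hp x (by simp)) (hV x (by simp))
      (by rw [← eS]; simp [add_comm])
    have g2 := vb_ext u0.le m (2 * U) r z
    have g3 : (extS m (2 * U) r z : ℝ) * 131072 ≤
        (m + 1).factorial * (2 * U : ℕ) ^ m * r * A * z := by exact_mod_cast h3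
    simp only [List.replicate_zero, List.append_nil, pow_zero, mul_one, ← List.prod_cons] at g1
    rw [hu', show A / (1024 * (128 * u)) * (z * (128 * u) / 128) = A * z / 131072 by
      field_simp; ring, show z * (128 * u) / 128 = z * u by ring]
    have f0 : (0 : ℝ) < (m + 1).factorial := by positivity
    refine le_of_mul_le_mul_left ?_ (show 0 < (m + 1).factorial * (r * u * ((2 * U : ℕ) * u) ^ m) by
      positivity)
    have g4 := mul_le_mul_of_nonneg_left g1 f0.le
    have g5 := mul_le_mul_of_nonneg_left g3 (show 0 ≤ (x :: l).prod * u ^ (m + 1) by positivity)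
    rw [mul_pow] at g4 ⊢
    linear_combination g4 + (x :: l).prod * g2 + g5 / 131072
  · generalize (x :: l).sum = S at *
    rw [div_mul_eq_mul_div, div_mul_eq_mul_div, ← add_div, le_div_iff₀ (by positivity)]
    have g1 := mul_le_mul_of_nonneg_left h1 (show (0 : ℝ) ≤ A + B by positivity)
    have g2 := mul_le_mul_of_nonneg_right h5 h0.le
    linear_combination g1 / 128 + g2 / 256

example : tabOK 20 352 2115 36 := by decide +kernel

end Pool.Agent.MP_c853c5_nt.X
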