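import Pool.Agent.MP_c853c5_nt.X.Ga
import Pool.Agent.MP_c853c5_nt.X.Pr
import Pool.Agent.MP_c853c5_nt.X.Gw
import Pool.Agent.MP_c853c5_nt.X.GtD

/-!
The grid rule with fractions of cells and a table of tails.
-/

set_option autoImplicit false

open Finset

namespace Pool.Agent.MP_c853c5_nt.X

open Pool.Agent.MP_c853c5_nt.S Pool.Agent.MP_c853c5_nt.REG Pool.Agent.MP_c853c5_nt.L Ln

variable {S : NS} {A : ℕ → Finset ℕ} {t R : ℝ} {x : Ga} {w : ℕ → ℝ} {g : Gr} {r W C : ℕ}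

/-- the part of the cell above a hyperplane, for any bound of the tail -/
theorem GBs.row2 (h : GBs g S A r W C R) (c : ℕ) {u v x : ℕ → ℝ} (hu : ∀ j, 0 ≤ u j)
    (hv : ∀ j, 0 ≤ v j) (huv : ∀ j, v j = 0 ∨ u j = 0) {κ δ φ : ℝ}
    (hx : ∀ j, x j = (v (j + 1) + u (j + 1)) * (get g.h (j + 1) / SC)) (φ0 : 0 ≤ φ)
    (ht : ∀ l : List ℝ, (∀ y ∈ l, 0 ≤ y) → l.sum = ∑ j ∈ range r, x j →
      (∀ y, y ∈ l ↔ ∃ j < r, v (j + 1) + u (j + 1) ≠ 0 ∧ y = x j) → vb l δ ≤ l.prod * φ)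
    (hδ : u 0 * S.H 0 - v 0 * S.L 0 + ∑ j ∈ range r, (u (j + 1) * fH g S c (j + 1) -
      v (j + 1) * fL g S c (j + 1)) - κ ≤ δ) :
    MQ S (fun y => Reg S A (fL g S c) (fH g S c) y ∧ κ ≤ ∑ j ∈ range S.k, (u j - v j) * Y A y j)
      (R * cw g S W C r c * (∏ j ∈ range r, fj g S W C (j + 1)) * φ) := by
  have sp0 : ∀ j, 0 ≤ sp g S W C c j := fun j => by
    have := VV_pos
    unfold sp
    positivity
  have K0 : 0 ≤ R * ∏ j ∈ range r, sp g S W C c (j + 1) :=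
    mul_nonneg h.hR (prod_nonneg fun _ _ => sp0 _)
  have := (subN_and S A fun y => κ ≤ ∑ j ∈ range S.k, (u j - v j) * Y A y j).multi
    (L := fL g S c) (H := fH g S c) (s := fun _ => 0) (p := fun _ => 0) (fun _ => le_rfl)
    (fun _ => le_rfl) hv hu huv r _ (u 0 * S.H 0 - v 0 * S.L 0 - κ) [] (fun j _ _ => fL_le c j) K0
    (by simp) fun lo hi hb => ?_
  · refine this.mono ?_
    have e1 := rowD_sum (L := fL g S c) (H := fH g S c) (u := v) (v := u) id rfl r []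
    have e3 := rowD_prod (L := fL g S c) (H := fH g S c) (u := v) (v := u) r []
    have e4 := rowD_mem (L := fL g S c) (H := fH g S c) (u := v) (v := u) r []
    simp only [fH_sub, ← hx, List.map_nil, List.sum_nil, add_zero, List.map_id, id, List.prod_nil,
      mul_one, List.not_mem_nil, false_or] at e1 e3 e4
    have hD : ∀ y ∈ rowD (fL g S c) (fH g S c) v u r [], 0 ≤ y := fun y hy => by
      obtain ⟨j, _, _, rfl⟩ := (e4 y).1 hy
      exact (hx j).symm ▸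
        mul_nonneg (add_nonneg (hv _) (hu _)) (div_nonneg (Nat.cast_nonneg _) SC_pos.le)
    have f0 : 0 ≤ ∏ j ∈ range r, fac (fL g S c) (fH g S c) (fun _ => 0) (fun _ => 0) v u (j + 1) :=
      prod_nonneg fun j _ => by
        have := sub_nonneg.2 (fL_le (g := g) (S := S) c (j + 1))
        have := hu (j + 1)
        have := hv (j + 1)
        unfold fac gw
        split_ifs <;> positivity
    refine (mul_le_mul_of_nonneg_left ((dif_mono _ hD (le_trans (le_of_eq ?_) hδ)).trans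
      (ht _ hD e1 e4)) (mul_nonneg K0 f0)).trans ?_
    · simp only [sum_sub_distrib]
      ring
    rw [← mul_assoc, mul_assoc _ _ (List.prod _), e3, mul_assoc R, mul_assoc R (cw g S W C r c),
      cw, ← prod_mul_distrib, ← prod_mul_distrib]
    refine mul_le_mul_of_nonneg_right (mul_le_mul_of_nonneg_left (prod_le_prod
      (fun j _ => mul_nonneg (sp0 _) (div_nonneg (Nat.cast_nonneg _) SC_pos.le)) fun j _ => ?_)
      h.hR) φ0
    rw [mul_comm, mul_comm _ (fj g S W C _)]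
    exact sp_le c _
  simp only [dif, List.length_nil, tp, gw, zero_mul, neg_zero, sub_zero, Real.exp_zero, mul_one]
  split_ifs with q
  · rw [mul_one, mul_assoc, ← prod_mul_distrib]
    refine (h.box (b := fun j => sp g S W C c j * (hi j - lo j))
      (fun j g1 g2 => ⟨(L_le_fL c j).trans (hb.1 j g1 g2).1, (hb.1 j g1 g2).2.1⟩)
      fun j g1 g2 => ?_).anti fun _ ha => ha.1
    obtain ⟨g3, g4, g5⟩ := hb.1 j g1 g2
    rcases le_or_gt (S.H j) (lo j) with e | e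
    · rw [min_eq_right e, min_eq_right (e.trans g4), sub_self, zero_mul, zero_div]
      exact mul_nonneg (sp0 _) (sub_nonneg.2 g4)
    have k := fun y => node_sup (W := W) (C := C) h.hI h.hg g1 (by have := h.hr; omega)
      (Nat.cast_lt.1 ((div_lt_div_iff_of_pos_right SC_pos).1
        (((L_le_fL c j).trans g3).trans_lt e))) c (y := y)
    have k1 := k _ g3 (g4.trans g5) e.le
    have k2 := k _ (g3.trans (le_min g4 e.le)) ((min_le_left _ _).trans g5) (min_le_right _ _)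
    rw [min_eq_left e.le]
    linear_combination 1 / 2 * mul_le_mul_of_nonneg_left (add_le_add k1 k2)
      (sub_nonneg.2 (le_min g4 e.le)) + mul_le_mul_of_nonneg_left (min_le_left (hi j) (S.H j)) (sp0 j)
  rw [mul_zero]
  refine MQ.zero fun y ⟨g1, g2⟩ => q ?_
  rw [h.hr, sum_range_succ'] at g2
  obtain ⟨g3, g4⟩ := g1.1.1.1 0 h.hI.pos
  have g5 : ∑ j ∈ range r, (v (j + 1) * lo (j + 1) - u (j + 1) * hi (j + 1)) ≤
      -∑ j ∈ range r, (u (j + 1) - v (j + 1)) * Y A y (j + 1) := by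
    rw [← sum_neg_distrib]
    refine sum_le_sum fun j hj => ?_
    obtain ⟨g6, g7⟩ := g1.2 (j + 1) (by omega) (by have := h.hr; have := mem_range.1 hj; omega)
    linear_combination mul_le_mul_of_nonneg_left g6 (hv _) + mul_le_mul_of_nonneg_left g7 (hu _)
  rw [NS.H, NS.L]
  linear_combination g2 + g5 + mul_le_mul_of_nonneg_left g3 (hv 0) +
    mul_le_mul_of_nonneg_left g4 (hu 0)

/-! ### the table -/

def tA (i : ℕ) : ℕ := tbA >>> (128 * i + 44) % 16384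
def tB (i : ℕ) : ℕ := tbA >>> (128 * i + 84) % 16384
def tK (i : ℕ) : ℕ := tbZ >>> (128 * i) % 64

lemma tab_ok : ∀ i < 65, tabOK i (tA i) (tB i) (tK i) := by decide +kernel

lemma tb_eq : tbA = pw 128 (fun i => tA i * 2 ^ 44 + tB i * 2 ^ 84) 65 ∧ tbZ = pw 128 tK 65 := by
  decide +kernel

/-- the fields of an entry -/
lemma zT_get {z i s b : ℕ} (hz : z < 2 ^ 26) (hi : i < 65) (h : s + b ≤ 128) :
    (z * tbA + tbZ) >>> (i <<< 7) >>> s % 2 ^ b =
      (tK i + z * tA i * 2 ^ 44 + z * tB i * 2 ^ 84) >>> s % 2 ^ b := by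
  have k : ∀ a, a < 16384 → z * a < 2 ^ 40 := fun a ha =>
    (Nat.mul_lt_mul'' hz ha).trans_eq (by norm_num)
  rw [tb_eq.1, mul_comm, pw_mul, tb_eq.2, pw_add, ← Nat.shiftRight_add, Nat.shiftLeft_eq,
    mul_comm i]
  refine (pw_get (w := 128) (fun r _ => ?_) hi h).trans (by congr 2; ring)
  have h1 := k (tA r) (Nat.mod_lt _ (by norm_num))
  have h2 := k (tB r) (Nat.mod_lt _ (by norm_num))
  have h3 : tK r < 64 := Nat.mod_lt _ (by norm_num)
  rw [add_mul, mul_right_comm, mul_right_comm (tB r), mul_comm (tA r), mul_comm (tB r)]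
  omega

/-- the bound of the tail for the sum `s` and the maximum `m` of the widths -/
noncomputable def tl (s m : ℕ) (δ : ℝ) : ℝ :=
  tA (64 * m / s) / s * max δ 0 + tB (64 * m / s) / s * max (δ - tK (64 * m / s) * s / 128) 0

structure GX2 (x : Ga) (S : NS) (A : ℕ → Finset ℕ) (w : ℕ → ℝ) : Prop where
  gx : GX x S A w
  w0 : ∀ c, 0 ≤ w c
  hN : ∀ j < S.k, ∀ c, cx x.g.bs j c ≤ x.N
  row : ∀ (c : ℕ) (u v : ℕ → ℕ) (κ δ : ℝ) (s m : ℕ), (∀ j, v j = 0 ∨ u j = 0) →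
    s = ∑ j ∈ range S.k, (v j + u j) * get x.g.h j → 0 < s →
    (∃ j < S.k, m = (v j + u j) * get x.g.h j) → (∀ j < S.k, (v j + u j) * get x.g.h j ≤ m) →
    ∑ j ∈ range S.k, ((u j : ℝ) * get x.g.up j - v j * get S.lo j +
      (u j - v j) * (get x.g.h j * cx x.g.bs j c)) - κ ≤ δ →
    MQ S (fun y => Reg S A (fL x.g S c) (fH x.g S c) y ∧
      κ / SC ≤ ∑ j ∈ range S.k, ((u j : ℝ) - v j) * Y A y j) (x.Z / 2 ^ 30 * tl s m δ * w c)

lemma GBs.row3 (h : GBs g S A r W C R) {Z : ℕ}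
    (hZ : 2 ^ 36 * ∏ j ∈ range r, fj g S W C (j + 1) ≤ Z) (c : ℕ) (u v : ℕ → ℕ) (κ δ : ℝ) (s m : ℕ)
    (huv : ∀ j, v j = 0 ∨ u j = 0) (hs : s = ∑ j ∈ range S.k, (v j + u j) * get g.h j) (s0 : 0 < s)
    (h1 : ∃ j < S.k, m = (v j + u j) * get g.h j) (h2 : ∀ j < S.k, (v j + u j) * get g.h j ≤ m)
    (hδ : ∑ j ∈ range S.k, ((u j : ℝ) * get g.up j - v j * get S.lo j +
      (u j - v j) * (get g.h j * cx g.bs j c)) - κ ≤ δ) :
    MQ S (fun y => Reg S A (fL g S c) (fH g S c) y ∧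
      κ / SC ≤ ∑ j ∈ range S.k, ((u j : ℝ) - v j) * Y A y j)
      (Z / 2 ^ 30 * tl s m δ * (R * cw g S W C r c / 2 ^ 16)) := by
  have hg := h.hg
  have S0 := SC_pos
  have s1 : (0 : ℝ) < s := Nat.cast_pos.2 s0
  have hx : ∀ j, ((v j : ℝ) + u j) * (get g.h j / SC) = ((v j + u j) * get g.h j : ℕ) / SC :=
    fun j => by push_cast; ring
  have t0 : 0 ≤ tl s m δ := by unfold tl; positivity
  obtain ⟨j, j1, j2⟩ := h1
  have m1 : m ≤ s := hs ▸ j2 ▸ single_le_sum (f := fun j => (v j + u j) * get g.h j)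
    (fun _ _ => Nat.zero_le _) (mem_range.2 j1)
  have m0 : m ≠ 0 := fun e => s0.ne' (hs.trans (sum_eq_zero fun i hi =>
    Nat.le_zero.1 (e ▸ h2 i (mem_range.1 hi))))
  rw [h.hr, sum_range_succ', hg.h0, mul_zero, add_zero] at hs
  refine (h.row2 c (u := fun j => u j) (v := fun j => v j) (fun _ => Nat.cast_nonneg _)
    (fun _ => Nat.cast_nonneg _) (by simpa using huv) (δ := δ / SC) (φ := tl s m δ / 1024)
    (fun _ => rfl) (by positivity) (fun l l0 l1 l2 => ?_) ?_).mono ?_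
  · simp only [hx] at l1 l2
    rw [← sum_div, ← Nat.cast_sum, ← hs] at l1
    have i1 : ((64 * m / s : ℕ) : ℝ) * s ≤ 64 * m := by exact_mod_cast Nat.div_mul_le_self _ _
    have i2 : (64 : ℝ) * m ≤ ((64 * m / s : ℕ) + 1) * s := by
      exact_mod_cast ((Nat.div_lt_iff_lt_mul s0).1 (Nat.lt_succ_self _)).le
    refine (vb_tab (tab_ok (64 * m / s) ((Nat.div_lt_iff_lt_mul s0).2 (by omega))) l0
      (W := m / SC) ((l2 _).2 ?_) (fun y hy => ?_) (l1 ▸ by positivity) ?_ ?_ _).trans_eq ?_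
    · obtain _ | j := j
      · exact absurd (by rw [j2, hg.h0, mul_zero]) m0
      refine ⟨j, by have := h.hr; omega, fun e => m0 ?_, by rw [j2]⟩
      rw [j2, show v (j + 1) + u (j + 1) = 0 by exact_mod_cast e, zero_mul]
    · obtain ⟨i, i3, -, rfl⟩ := (l2 y).1 hy
      exact div_le_div_of_nonneg_right (Nat.cast_le.2 (h2 _ (by have := h.hr; omega))) S0.le
    · rw [l1, ← mul_div_assoc, ← mul_div_assoc]
      exact div_le_div_of_nonneg_right i1 S0.le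
    · rw [l1, ← mul_div_assoc, ← mul_div_assoc]
      exact div_le_div_of_nonneg_right i2 S0.le
    · have k : ∀ y : ℝ, max (y / SC) 0 = max y 0 / SC := fun y => by
        rw [← max_div_div_right S0.le, zero_div]
      rw [l1, tl, show δ / SC - tK (64 * m / s) * (s / SC) / 128 =
        (δ - tK (64 * m / s) * s / 128) / SC by ring, k, k]
      field_simp
  · rw [h.hr, sum_range_succ', hg.h0, hg.up0, sum_congr (g := fun j => ((u (j + 1) : ℝ) *
      fH g S c (j + 1) - v (j + 1) * fL g S c (j + 1)) * SC) rfl fun j hj => by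
        rw [hg.up _ (by omega) (by have := h.hr; have := mem_range.1 hj; omega), fH, fL]
        push_cast
        field_simp
        ring, ← sum_mul] at hδ
    rw [le_div_iff₀ S0, NS.H, NS.L]
    refine le_trans (le_of_eq ?_) hδ
    push_cast
    field_simp
    ring
  · have := mul_le_mul_of_nonneg_left hZ (mul_nonneg (mul_nonneg h.hR
      (cw_nn (g := g) (S := S) (W := W) (C := C) (r := r) c)) t0)
    linear_combination this / 2 ^ 46

/-! ### the rule -/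

def AOK2 (t : ℝ) (p : AItem) : Prop := ∀ (x : Ga) (ih : Rec) (S : NS) (A : ℕ → Finset ℕ)
  (w : ℕ → ℝ) (s : ℕ) (K : ℕ → ℕ → ℕ), (∀ sg S s, Val t sg S (ih sg S s)) → GX2 x S A w →
  p x ih S s K < INF → ∃ (N : Pt → Prop) (ν : ℕ → ℕ) (u l : ℕ),
    p x ih S s K = l + K (pk (2 ^ x.g.B) ν) u ∧ (∀ (Ω : Pt → Prop) (l' : ℝ),
      (∀ a, Ω a → Om S A a) → H true t S.k S.kind (fun a => Ω a ∧ N a) l' →
      H true t S.k S.kind Ω ((l : ℝ) / 10 ^ 9 + l')) ∧ ∀ c < 2 ^ x.g.B, ν c < 2 ^ 31 ∧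
      MQ S (fun a => (Reg S A (fL x.g S c) (fH x.g S c) a ∧ idx x.g S (Y A a) = c) ∧ N a)
        (ν c * w c)

theorem AOK.two {p : AItem} (h : AOK t p) : AOK2 t p :=
  fun x ih S A w s K hH hx => h x ih S A w s K hH hx.gx

lemma gaLoop_ok2 {IT : BT AItem} (hT : IT.All (AOK2 t)) {ih : Rec}
    (hH : ∀ sg S s, Val t sg S (ih sg S s)) (h : GX2 x S A w) {fin : ℕ → ℕ}
    (hf : ∀ ν : ℕ → ℕ, (∀ c < 2 ^ x.g.B, ν c ≤ 65536) → fin (pk (2 ^ x.g.B) ν) < INF →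
      ∑ c ∈ range (2 ^ x.g.B), ν c * w c ≤ (fin (pk (2 ^ x.g.B) ν) : ℝ) / 10 ^ 9) (n : ℕ) :
    ∀ (ν : ℕ → ℕ) (N : Pt → Prop) (s : ℕ), (∀ c < 2 ^ x.g.B, ν c ≤ 65536 ∧ MQ S
      (fun a => (Reg S A (fL x.g S c) (fH x.g S c) a ∧ idx x.g S (Y A a) = c) ∧ N a) (ν c * w c)) →
      gaLoop IT x ih S fin n (pk (2 ^ x.g.B) ν) s < INF →
      H true t S.k S.kind (fun a => Om S A a ∧ N a)
        ((gaLoop IT x ih S fin n (pk (2 ^ x.g.B) ν) s : ℝ) / 10 ^ 9) := by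
  have hg := h.gx.hg
  induction n with
  | zero =>
    exact fun ν N s h1 hl => drop0 (((MQ.sum _ fun c hc => (h1 c hc).2).anti fun a ha =>
      ⟨_, (idx_ok hg ha.1.1.1).1, ⟨⟨⟨ha.1.1, ha.2⟩, (idx_ok hg ha.1.1.1).2⟩, rfl⟩, ha.1.2⟩).mono
      (hf ν (fun c hc => (h1 c hc).1) hl))
  | succ n IH =>
    intro ν N s h1 hl
    have e : gaLoop IT x ih S fin (n + 1) (pk (2 ^ x.g.B) ν) s = IT.find (Nat.mod s 16) x ih S
        (Nat.shiftRight s 4) fun a u =>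
          gaLoop IT x ih S fin n (mnL x.g.T (pk (2 ^ x.g.B) ν) a) u := by
      simp only [gaLoop, force_eq]
    rw [e] at hl ⊢
    obtain ⟨N', ν', u, l, e1, h2, h3⟩ := hT.find _ x ih S A w _ _ hH h hl
    rw [e1, mnL_eq hg (fun c hc => (h1 c hc).1.trans_lt (by norm_num))
      fun c hc => (h3 c hc).1] at hl ⊢
    rw [Nat.cast_add, add_div]
    refine h2 _ _ (fun _ ha => ha.1) ((IH _ (fun a => N a ∧ N' a) u (fun c hc =>
      ⟨(min_le_left _ _).trans (h1 c hc).1, ?_⟩) (lt_of_le_of_lt le_add_self hl)).anti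
      fun a ha => ⟨ha.1.1, ha.1.2, ha.2⟩)
    rcases min_choice (ν c) (ν' c) with q | q <;> rw [q]
    exacts [(h1 c hc).2.anti fun a ha => ⟨ha.1, ha.2.1⟩, (h3 c hc).2.anti fun a ha => ⟨ha.1, ha.2.2⟩]

theorem gaR_ok2 {IT : BT AItem} (hT : IT.All (AOK2 t)) : XTok t (gaR IT) :=
  fun _ ih _ hH sg S s hl A hI => by
  obtain ⟨r, hr⟩ : ∃ r, S.k = r + 1 := ⟨S.k - 1, by have := hI.pos; omega⟩
  by_cases hz : ∀ j < S.k, get S.lo j ≤ get S.hi j
  swap
  · simp only [not_forall, not_le] at hz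
    obtain ⟨j, hj, hz⟩ := hz
    exact fun Q h1 h2 => (xEmpty sg t _ _ Q h1 fun a ha => ⟨absurd (((h2 a ha).1.1 j hj).1.trans
      ((h2 a ha).1.1 j hj).2) (div_lt_div_of_pos_right (Nat.cast_lt.2 hz) SC_pos).not_ge,
      (h2 a ha).2⟩).mono (by positivity)
  simp only [gaR, force_eq, show Nat.pred S.k = r by rw [hr]; rfl] at hl ⊢
  obtain ⟨rfl, e1⟩ := grd_lt hl
  rw [e1] at hl ⊢
  obtain ⟨g, hg, e2⟩ := mk_ok S _ _ hI.pos hl
  rw [e2, accB_eq] at hl ⊢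
  have hb := gb_mk hI hg hr hz rfl
  generalize mkW S (chV S r) S.k = W at *
  generalize ∑ i ∈ range S.k, 1 * 256 ^ (blk S W i % 32) = C at *
  have o1 : off g.bs 1 = 0 := hg.b0
  obtain ⟨Z, N, e3, g1, g2, g3, g4⟩ := gaU_ok hg W C r 1 68719476736 1 _ le_rfl (by omega)
  rw [o1] at e3
  rw [e3] at hl ⊢
  have e4 : Nat.shiftRight g.T 15 = pk (2 ^ g.B) fun _ => 65536 := by
    rw [Nat.shiftRight_eq, Nat.shiftRight_eq_div_pow, hg.hT]
    refine Nat.div_eq_of_eq_mul_right (Nat.two_pow_pos _) ?_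
    rw [pk_smul]
    rfl
  rw [e4] at hl ⊢
  rw [prod_div_distrib, prod_const, card_range, ← Nat.cast_prod] at hb
  have hf : ∀ c, MQ S (Reg S A (fL g S c) (fH g S c)) ((65536 : ℕ) *
      ((∏ i ∈ range S.k, blk S W i >>> 5 : ℕ) / VV ^ S.k * cw g S W C r c / 2 ^ 16)) := fun c =>
    (hb.full c).mono (le_of_eq (by push_cast; ring))
  have hZ : 2 ^ 36 * ∏ j ∈ range r, fj g S W C (j + 1) ≤ Z := by
    simp only [add_comm 1] at g1
    exact le_trans (le_of_eq (by norm_num)) g1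
  have hN : ∀ j < S.k, ∀ c, cx g.bs j c ≤ N := fun j hj c => (cx_lt _ _ _).le.trans (by
    cases j with
    | zero => rwa [hg.b0]
    | succ j => exact add_comm 1 j ▸ g4 j (by omega))
  refine (gaLoop_ok2 (x := ⟨g, Z, N, _⟩) hT hH ⟨⟨hI, hg, hf, ?_, fun ρ hρ P Q md e p q K => ?_⟩,
    fun c => div_nonneg (mul_nonneg hb.hR (cw_nn c)) (by norm_num), hN, hb.row3 hZ⟩
    (fun ν h1 h2 => gaF_ok hg hr (Nat.mod_lt _ (by norm_num)) h1 h2) _ _ (fun _ => True) _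
    (fun c _ => ⟨le_rfl, (hf c).anti fun a ha => ha.1.1⟩) hl).anti fun a ha => ⟨ha, trivial⟩
  · show _ = (List.range S.k).map (nrO g S)
    rw [hr, List.range_eq_range', List.range'_succ, List.map_cons, nrO, hg.h0, hg.up0,
      pk_congr (g := fun _ => 0) fun c _ => by rw [cx, hg.b0, pow_zero, Nat.mod_one], pk_zero]
  · obtain ⟨v, b, e5, h1⟩ := rowA hb (Z := Z) (by omega) hZ g3 hN hρ P Q md e (p + 1) q K
    refine ⟨v, b, e5, List.forall_mem_singleton.2 ((Lip.sum _ fun j hj =>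
      (lip_Y hI (mem_range.1 hj)).mul _).sub (Lip.const _ _)), fun hb => ?_⟩
    obtain ⟨ν, e6, h2⟩ := h1 hb
    refine ⟨ν, e6, fun c hc => ⟨(h2 c hc).1, (h2 c hc).2.anti fun a ha => ⟨ha.1, ?_⟩⟩⟩
    obtain ⟨f, f1, f2⟩ := ha.2
    rw [List.mem_singleton.1 f1, fN] at f2
    push_cast
    linear_combination f2

theorem gaT_ok {IT : BT AItem} (hT : IT.All (AOK2 t)) : XTok t (gaW IT) := gaW_ok (gaR_ok2 hT)

/-! ### lanes on a small grid -/

/-- the excess of the lanes over `2 ^ 31` -/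
lemma clq {n : ℕ} {E : ℕ → ℕ} (h : ∀ c < n, E c < 2 ^ 32) :
    pk n E &&& ((pk n E &&& pk n fun _ => 2 ^ 31) - (pk n E &&& pk n fun _ => 2 ^ 31) >>> 31) =
      pk n fun c => E c - 2 ^ 31 := by
  have e : (pk n E &&& pk n fun _ => 2 ^ 31) = 2 ^ 31 * pk n fun c => E c / 2 ^ 31 := by
    rw [pk_smul]
    refine (pw_land (w := 32) (by norm_num) h fun _ _ => by norm_num).trans (pk_congr fun c hc => ?_)
    have := h c hc
    rw [Nat.and_two_pow, Nat.testBit_eq_decide_div_mod_eq]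
    by_cases q : E c / 2 ^ 31 % 2 = 1 <;> simp only [q, decide_true, decide_false, Bool.toNat_true,
      Bool.toNat_false] <;> omega
  rw [e, Nat.shiftRight_eq_div_pow, Nat.mul_div_cancel_left _ (Nat.two_pow_pos _), pk_smul,
    pk_sub fun c _ => by omega]
  refine (pw_land (w := 32) (by norm_num) h fun c hc => by have := h c hc; omega).trans
    (pk_congr fun c hc => ?_)
  have := h c hc
  rcases le_or_gt (2 ^ 31) (E c) with q | q
  · rw [show 2 ^ 31 * (E c / 2 ^ 31) - E c / 2 ^ 31 = 2 ^ 31 - 1 by omega,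
      Nat.and_two_pow_sub_one_eq_mod]
    omega
  · rw [show 2 ^ 31 * (E c / 2 ^ 31) - E c / 2 ^ 31 = 0 by omega, Nat.and_zero]
    omega

lemma cv_eq {n τ : ℕ} (hτ : τ ≤ 30) {ν : ℕ → ℕ} (h : ∀ c < n, ν c < 2 ^ 31) :
    cv1' τ (Nat.mul (gM τ) (pk n fun _ => 1)) (pk n ν) =
      pk n fun c => (ν c + (2 ^ τ - 1)) / 2 ^ τ := by
  have p : 2 ^ τ ≤ 2 ^ 30 := Nat.pow_le_pow_right two_pos hτ
  have e : Nat.mul (gM τ) (pk n fun _ => 1) = pk n fun _ => 2 ^ τ - 1 := by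
    rw [Nat.mul_eq, pk_smul, gM, one_eq]
    simp only [mul_one, Nat.sub_eq]
  rw [e]
  show (pk n ν + pk n _ - ((pk n ν + pk n _) &&& pk n _)) >>> τ = _
  rw [pk_add, show pk n (fun c => ν c + (2 ^ τ - 1)) &&& pk n (fun _ => 2 ^ τ - 1) = pk n
    fun c => (ν c + (2 ^ τ - 1)) % 2 ^ τ from (pw_land (w := 32) (by norm_num)
      (fun c hc => by have := h c hc; omega) fun _ _ => by omega).trans (pk_congr fun c _ =>
      Nat.and_two_pow_sub_one_eq_mod _ _), pk_sub fun c _ => Nat.mod_le _ _,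
    Nat.shiftRight_eq_div_pow]
  refine Nat.div_eq_of_eq_mul_right (Nat.two_pow_pos _) ?_
  rw [pk_smul]
  exact pk_congr fun c _ => Nat.sub_eq_of_eq_add (Nat.div_add_mod _ _).symm

/-- lanes on `n` cells; the cell `c` of the grid lies over the cell `l c` -/
def LB (g : Gr) (S : NS) (A : ℕ → Finset ℕ) (w : ℕ → ℝ) (n : ℕ) (l : ℕ → ℕ) (F : List (Pt → ℝ))
    (v b : ℕ) : Prop :=
  (∀ f ∈ F, Lip S.k f) ∧ (b < 2 ^ 31 → ∃ ν : ℕ → ℕ, v = pk n ν ∧ (∀ c < n, ν c ≤ b) ∧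
    ∀ c < 2 ^ g.B, MQ S (fun a => Reg S A (fL g S c) (fH g S c) a ∧ ∃ f ∈ F, -(1 / SC) ≤ f a)
      (ν (l c) * w c))

section

variable {n : ℕ} {l : ℕ → ℕ} {F : List (Pt → ℝ)} {v b : ℕ}

lemma LB.nil : LB g S A w n l [] 0 0 := ⟨by simp, fun _ => ⟨fun _ => 0, (pk_zero _).symm,
  fun _ _ => le_rfl, fun c _ => (MQ.zero (by simp)).mono (by simp)⟩⟩

lemma LB.cons {f : Pt → ℝ} {u d e : ℕ} (h : LB g S A w n l [f] v b) (h' : LB g S A w n l F u d)
    (he : b + d ≤ e) : LB g S A w n l (f :: F) (v + u) e := by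
  refine ⟨List.forall_mem_cons.2 ⟨h.1 f (by simp), h'.1⟩, fun c => ?_⟩
  obtain ⟨ν, rfl, h1, h2⟩ := h.2 (by omega)
  obtain ⟨ν', rfl, h3, h4⟩ := h'.2 (by omega)
  refine ⟨_, pk_add _ _ _, fun c hc => (add_le_add (h1 c hc) (h3 c hc)).trans he, fun c hc => ?_⟩
  rw [Nat.cast_add, add_mul]
  refine ((h2 c hc).or (h4 c hc)).anti fun a ha => ?_
  rw [List.exists_mem_cons_iff, and_or_left] at ha
  exact ha.imp_left fun q => ⟨q.1, f, List.mem_cons_self, q.2⟩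

lemma LB.la {τ : ℕ} {E : ℕ → ℕ} (h : LB g S A (fun c => w c / 2 ^ τ) n l F v b) (hb : b < 2 ^ 31)
    (hτ : τ ≤ 30) (w0 : ∀ c, 0 ≤ w c) (hl : ∀ c < 2 ^ g.B, l c < n)
    (hE : ∀ f : ℕ → ℕ, (∀ c < n, f c < 2 ^ 31) → E (pk n f) = pk (2 ^ g.B) fun c => f (l c)) :
    LA g S A w F (E (cv1' τ (Nat.mul (gM τ) (pk n fun _ => 1)) v)) b := by
  obtain ⟨ν, rfl, h1, h2⟩ := h.2 hb
  have p := Nat.two_pow_pos τ
  have k : ∀ c, (ν c + (2 ^ τ - 1)) / 2 ^ τ ≤ ν c := fun c => Nat.le_of_lt_succ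
    ((Nat.div_lt_iff_lt_mul p).2 (by have := Nat.le_mul_of_pos_right (ν c) p; rw [Nat.succ_mul]; omega))
  rw [cv_eq hτ fun c hc => (h1 c hc).trans_lt hb, hE _ fun c hc => ((k c).trans (h1 c hc)).trans_lt hb]
  refine ⟨h.1, fun _ => ⟨_, rfl, fun c hc => ⟨(k _).trans (h1 _ (hl c hc)), (h2 c hc).mono ?_⟩⟩⟩
  rw [mul_div_assoc', mul_div_right_comm]
  refine mul_le_mul_of_nonneg_right ((div_le_iff₀ (by positivity)).2 ?_) (w0 c)
  have := Nat.div_add_mod (ν (l c) + (2 ^ τ - 1)) (2 ^ τ)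
  have := Nat.mod_lt (ν (l c) + (2 ^ τ - 1)) p
  exact_mod_cast (show ν (l c) ≤ (ν (l c) + (2 ^ τ - 1)) / 2 ^ τ * 2 ^ τ by rw [mul_comm]; omega)

end

/-- the lanes of a row dominate the tail -/
lemma tl_le {τ s m a b y y' : ℕ} {μ δ : ℝ} (hτ : τ ≤ 30) (s0 : 0 < s) (μ0 : 0 ≤ μ)
    (ha : (zX x τ * tA (64 * m / s) : ℕ) ≤ a * μ * s) (hb : (zX x τ * tB (64 * m / s) : ℕ) ≤ b * μ * s)
    (h1 : μ * δ ≤ y) (h2 : μ * (δ - tK (64 * m / s) * s / 128) ≤ y') {c : ℝ} (c0 : 0 ≤ c) :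
    x.Z / 2 ^ 30 * tl s m δ * c ≤ (a * y + b * y' : ℕ) * (c / 2 ^ τ) := by
  have s1 : (0 : ℝ) < s := Nat.cast_pos.2 s0
  have hz : (x.Z : ℝ) / 2 ^ 30 ≤ zX x τ / 2 ^ τ := by
    have : x.Z ≤ zX x τ * 2 ^ (30 - τ) :=
      ((Nat.div_lt_iff_lt_mul (Nat.two_pow_pos _)).1 (Nat.lt_succ_of_le
        (Nat.shiftRight_eq_div_pow _ _).ge)).le
    rw [div_le_div_iff₀ (by positivity) (by positivity), show (2 : ℝ) ^ 30 = 2 ^ (30 - τ) * 2 ^ τ by
      rw [← pow_add, Nat.sub_add_cancel hτ], ← mul_assoc]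
    exact mul_le_mul_of_nonneg_right (by exact_mod_cast this) (by positivity)
  have k : ∀ (T a y : ℕ) (δ : ℝ), (zX x τ * T : ℕ) ≤ a * μ * s → μ * δ ≤ y →
      zX x τ * (T / s * max δ 0) ≤ a * y := fun T a y δ h1 h2 => by
    rw [← mul_assoc, ← mul_div_assoc, ← Nat.cast_mul]
    refine (mul_le_mul_of_nonneg_right ((div_le_iff₀ s1).2 h1) (le_max_right _ _)).trans ?_
    rw [mul_assoc, mul_max_of_nonneg _ _ μ0, mul_zero]
    exact mul_le_mul_of_nonneg_left (max_le h2 (Nat.cast_nonneg _)) (Nat.cast_nonneg _)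
  rw [mul_div_assoc', mul_div_right_comm]
  refine mul_le_mul_of_nonneg_right ((mul_le_mul_of_nonneg_right hz
    (by unfold tl; positivity)).trans ?_) c0
  rw [div_mul_eq_mul_div, tl, mul_add, Nat.cast_add, Nat.cast_mul, Nat.cast_mul]
  exact div_le_div_of_nonneg_right (add_le_add (k _ _ _ _ ha h1) (k _ _ _ _ hb h2)) (by positivity)

end Pool.Agent.MP_c853c5_nt.X
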