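import Pool.Agent.MP_c853c5_nt.X.GtA
import Pool.Agent.MP_c853c5_nt.X.Gy

/-!
The rows of a provider with the table of tails.
-/

set_option autoImplicit false

open Finset

namespace Pool.Agent.MP_c853c5_nt.X

open Pool.Agent.MP_c853c5_nt.S Pool.Agent.MP_c853c5_nt.REG Pool.Agent.MP_c853c5_nt.L Ln

variable {S : NS} {A : ℕ → Finset ℕ} {t : ℝ} {x : Ga} {w : ℕ → ℝ}

lemma gz_lt {v y : ℕ} (h : gz v y < INF) : v = 0 ∧ gz v y = y := by
  cases v with
  | zero => exact ⟨rfl, rfl⟩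
  | succ v => exact absurd h (lt_irrefl _)

lemma mod_eq (a b : ℕ) : Nat.mod a b = a % b := rfl

lemma div_eq (a b : ℕ) : Nat.div a b = a / b := rfl

/-- the maximum of the widths -/
def mxL (P Q md : ℕ) (l : List Nr) (m : ℕ) : ℕ := l.foldl (fun m r => max m (gaX P Q md r)) m

lemma gaN_max (P Q md e : ℕ) (K : KN) (l : List Nr) : ∀ sx m e2 p q F,
    gaN P Q md e K l sx m e2 p q F =
      gaN P Q md e (fun sx _ => K sx (mxL P Q md l m)) l sx m e2 p q F := by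
  induction l with
  | nil => exact fun _ _ _ _ _ _ => rfl
  | cons r l ih =>
    intro sx m e2 p q F
    have e1 : gaX P Q md r + (m - gaX P Q md r) = max m (gaX P Q md r) := by omega
    have e2 : mxL P Q md (r :: l) m = mxL P Q md l (max m (gaX P Q md r)) := rfl
    rw [gaN_cons, gaN_cons, e1, e2]
    split_ifs with c1 c2
    · rw [show gaX P Q md r = 0 by rw [gaX, c1, c2, add_zero, zero_mul], Nat.max_zero]
      exact ih ..
    · exact ih ..
    · exact ih ..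

lemma mxL_ok (P Q md : ℕ) (l : List Nr) : ∀ m, m ≤ mxL P Q md l m ∧
    (∀ r ∈ l, gaX P Q md r ≤ mxL P Q md l m) ∧
    (mxL P Q md l m = m ∨ ∃ r ∈ l, mxL P Q md l m = gaX P Q md r) := by
  induction l with
  | nil => exact fun m => ⟨le_rfl, by simp, Or.inl rfl⟩
  | cons r l ih =>
    intro m
    obtain ⟨h1, h2, h3⟩ := ih (max m (gaX P Q md r))
    rw [show mxL P Q md (r :: l) m = mxL P Q md l (max m (gaX P Q md r)) from rfl]
    simp only [List.mem_cons, forall_eq_or_imp, exists_eq_or_imp]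
    exact ⟨(le_max_left _ _).trans h1, ⟨(le_max_right _ _).trans h1, h2⟩, h3.elim (fun c =>
      (max_choice m _).imp c.trans fun d => Or.inl (c.trans d)) fun c => Or.inr (Or.inr c)⟩

lemma zT_ok {τ i e : ℕ} (hz : zX x τ < 2 ^ 26) (hi : i < 65) (he : e = zT x τ >>> (i <<< 7)) :
    e % 64 = tK i ∧ e >>> 58 % 67108864 = zX x τ * tA i / 16384 ∧
      e >>> 98 % 67108864 = zX x τ * tB i / 16384 ∧ e >>> 44 % 2 ^ 40 = zX x τ * tA i ∧
      e >>> 84 % 2 ^ 40 = zX x τ * tB i := by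
  have k : ∀ a, a < 16384 → zX x τ * a < 2 ^ 40 := fun a ha =>
    (Nat.mul_lt_mul'' hz ha).trans_eq (by norm_num)
  have h1 := k (tA i) (Nat.mod_lt _ (by norm_num))
  have h2 := k (tB i) (Nat.mod_lt _ (by norm_num))
  have h3 : tK i < 64 := Nat.mod_lt _ (by norm_num)
  have g := fun s b h => zT_get (s := s) (b := b) hz hi h
  rw [show (zX x τ * tbA + tbZ) >>> (i <<< 7) = e from he.symm] at g
  generalize zX x τ * tA i = a at *
  generalize zX x τ * tB i = b at *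
  have g1 : (tK i + a * 2 ^ 44 + b * 2 ^ 84) >>> 44 = a + b * 2 ^ 40 := by
    rw [Nat.shiftRight_eq_div_pow]
    omega
  have g2 : (tK i + a * 2 ^ 44 + b * 2 ^ 84) >>> 84 = b := by
    rw [Nat.shiftRight_eq_div_pow]
    omega
  refine ⟨(g 0 6 (by norm_num)).trans ?_, (g 58 26 (by norm_num)).trans ?_,
    (g 98 26 (by norm_num)).trans ?_, (g 44 40 (by norm_num)).trans ?_,
    (g 84 40 (by norm_num)).trans ?_⟩
  · rw [Nat.shiftRight_zero]
    omega
  · rw [Nat.shiftRight_add _ 44 14, g1, Nat.shiftRight_eq_div_pow]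
    omega
  · rw [Nat.shiftRight_add _ 84 14, g2, Nat.shiftRight_eq_div_pow]
    omega
  · omega
  · omega

theorem rowTG (h : GX2 x S A w) {τ : ℕ} (hτ : τ ≤ 30) (P Q md p0 q0 : ℕ) (K : ℕ → ℕ → ℕ) :
    ∃ v b, gaN P Q md 0 (tGE x.g.T x.g.O (zT x τ) x.N K) x.R 0 0 0 (p0 + 1) q0 (fun _ V => V) =
      K v b ∧ (zX x τ < 2 ^ 26 → LB x.g S A (fun c => w c / 2 ^ τ) (2 ^ x.g.B) id
        [fN S A (nrO x.g S) P Q md 0 p0 q0] v b) := by
  have hg := h.gx.hg
  have hI := h.gx.hI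
  obtain ⟨-, m1, m2⟩ := mxL_ok P Q md x.R 0
  rw [gaN_max]
  generalize mxL P Q md x.R 0 = m at *
  rw [h.gx.hR] at m1 m2 ⊢
  obtain ⟨_, F, h1, -, h3⟩ := gaN_eq (P := P) (Q := Q) (md := md) (ρ := nrO x.g S) 0
    (fun sx _ => tGE x.g.T x.g.O (zT x τ) x.N K sx m) (List.range S.k)
    (fun _ _ => rfl) 0 0 0 (p0 + 1) q0 (fun _ V => V) (fun _ _ => 0) (fun _ _ => 0) fun _ _ _ => rfl
  simp only [lsum_range, zero_add, List.mem_range, List.mem_map, forall_exists_index, and_imp,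
    forall_apply_eq_imp_iff₂, exists_exists_and_eq_and, add_zero, mul_zero] at h1 h3 m1 m2
  rw [h1]
  refine ⟨_, _, rfl, fun hz => ⟨List.forall_mem_singleton.2 ((Lip.sum _ fun j hj =>
    (lip_Y hI (mem_range.1 hj)).mul _).sub (Lip.const _ _)), fun hb => ?_⟩⟩
  set ρ := nrO x.g S
  set sx := ∑ j ∈ range S.k, gaX P Q md (ρ j) with hsx
  set p := p0 + 1 + ∑ j ∈ range S.k, dP P Q md (ρ j) * (ρ j).up with hp
  set q := q0 + ∑ j ∈ range S.k, dN P Q md (ρ j) * (ρ j).lo with hq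
  have m3 : ∃ j < S.k, m = gaX P Q md (ρ j) :=
    m2.elim (fun c => ⟨0, hI.pos, by have := m1 0 hI.pos; omega⟩) id
  have m4 : m ≤ sx := by
    obtain ⟨j, j1, rfl⟩ := m3
    exact single_le_sum (f := fun j => gaX P Q md (ρ j)) (fun _ _ => Nat.zero_le _) (mem_range.2 j1)
  simp only [Nat.add_eq, Nat.mul_eq, Nat.sub_eq, Nat.shiftRight_eq, Nat.shiftLeft_eq', Nat.land_eq,
    Nat.succ_eq_add_one, mod_eq, div_eq] at hb ⊢
  have s1 : 0 < sx := by
    rw [Nat.shiftLeft_eq (1 - sx)] at hb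
    omega
  rw [Nat.shiftLeft_eq m, mul_comm m, show 2 ^ 6 = 64 from rfl] at hb ⊢
  obtain ⟨t1, t2, t3, -⟩ := zT_ok (i := 64 * m / sx) hz ((Nat.div_lt_iff_lt_mul s1).2 (by omega)) rfl
  rw [t2, t3] at hb ⊢
  rw [t1]
  have μ1 : 17179869184 ≤ (17179869184 / sx + 1) * sx :=
    ((Nat.div_lt_iff_lt_mul s1).1 (Nat.lt_succ_self _)).le
  generalize 17179869184 / sx + 1 = μ at *
  generalize ha : ((p - q) * μ) >>> 20 + 1 = a at hb ⊢
  generalize hb' : ((q - p) * μ) >>> 20 = b at hb ⊢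
  have b2 : ∑ j ∈ range S.k, (gaP P Q md μ (ρ j) + gaM P Q md μ (ρ j)) ≤ (μ * sx) >>> 20 + 16 := by
    refine le_trans (sum_le_sum (g := fun j => gaX P Q md (ρ j) * μ / 2 ^ 20 + 1) fun j _ => ?_) ?_
    · unfold gaP gaM
      rw [Nat.shiftRight_eq_div_pow]
      split_ifs <;> omega
    rw [sum_add_distrib, sum_const, card_range, smul_eq_mul, mul_one, Nat.shiftRight_eq_div_pow]
    refine add_le_add ((Nat.le_div_iff_mul_le (by norm_num)).2 ?_) hI.le
    rw [hsx, mul_sum, sum_mul]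
    exact sum_le_sum fun j _ => (Nat.div_mul_le_self _ _).trans_eq (mul_comm _ _)
  have b3 : ∀ c, ∑ j ∈ range S.k, gaP P Q md μ (ρ j) * cx x.g.bs j c +
      ∑ j ∈ range S.k, gaM P Q md μ (ρ j) * cx x.g.bs j c ≤ x.N * ((μ * sx) >>> 20 + 16) :=
    fun c => by
      refine le_trans ?_ (Nat.mul_le_mul_left x.N b2)
      rw [← sum_add_distrib, mul_sum]
      refine sum_le_sum fun j hj => ?_
      rw [← add_mul, mul_comm]
      exact Nat.mul_le_mul_right _ (h.hN j (mem_range.1 hj) c)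
  generalize x.N * ((μ * sx) >>> 20 + 16) = M at *
  have k0 : tK (64 * m / sx) < 64 := Nat.mod_lt _ (by norm_num)
  have α1 : zX x τ * tA (64 * m / sx) ≤ (zX x τ * tA (64 * m / sx) / 16384 + 1) * 16384 := by omega
  have β1 : zX x τ * tB (64 * m / sx) ≤ (zX x τ * tB (64 * m / sx) / 16384 + 1) * 16384 := by omega
  have b1 : a + M - b < 2 ^ 31 := lt_of_le_of_lt ((Nat.le_mul_of_pos_left _ (Nat.succ_pos _)).trans
    (Nat.le_add_right _ _)) hb
  generalize zX x τ * tA (64 * m / sx) / 16384 + 1 = α at *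
  generalize zX x τ * tB (64 * m / sx) / 16384 + 1 = β at *
  rw [hg.hO, hg.hT, pk_smul, h3 μ _ fun c _ => by have := b3 c; omega, Nat.shiftLeft_eq, pk_smul,
    pk_sub fun c _ => by have := b3 c; omega, clq fun c _ => by have := b3 c; omega,
    clq fun c _ => by have := b3 c; omega, pk_smul, pk_smul, pk_add]
  refine ⟨_, rfl, fun c _ => ?_, fun c _ => ?_⟩
  · have := b3 c
    refine le_trans ?_ (Nat.le_add_right _ _)
    rw [add_mul]
    exact add_le_add (Nat.mul_le_mul_left _ (by omega)) (Nat.mul_le_mul_left _ (by omega))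
  set δ : ℝ := p - q + ∑ j ∈ range S.k, ((dP P Q md (ρ j) : ℝ) - dN P Q md (ρ j)) *
    ((ρ j).h * cx x.g.bs j c) with hδ
  refine ((h.row c (fun j => dP P Q md (ρ j)) (fun j => dN P Q md (ρ j)) (q0 - p0 - 1) δ sx m
    (fun j => by unfold dP dN; omega) hsx s1 m3 m1 (le_of_eq ?_)).anti fun a ha => ⟨ha.1, ?_⟩).mono ?_
  · rw [hδ, hp, hq, sum_add_distrib, sum_sub_distrib]
    push_cast
    simp only [ρ, nrO]
    ring
  · obtain ⟨f, f1, f2⟩ := ha.2
    rw [List.mem_singleton.1 f1, fN] at f2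
    push_cast at f2
    linear_combination f2
  have k : μ / 2 ^ 20 * δ ≤ (a : ℝ) - b + (∑ j ∈ range S.k, gaP P Q md μ (ρ j) * cx x.g.bs j c : ℕ) -
      (∑ j ∈ range S.k, gaM P Q md μ (ρ j) * cx x.g.bs j c : ℕ) := by
    have g1 := (shr_le ((p - q) * μ)).2
    have g2 := (shr_le ((q - p) * μ)).1
    rw [ha, Nat.cast_mul] at g1
    rw [hb', Nat.cast_mul] at g2
    rw [hδ, mul_add, mul_sum, add_sub_assoc, Nat.cast_sum, Nat.cast_sum, ← sum_sub_distrib]
    refine add_le_add (by rw [← (sub_cast p q).1]; linear_combination g1 + g2)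
      (sum_le_sum fun j _ => ?_)
    have g4 := shr_le (gaX P Q md (ρ j) * μ)
    have g5 : (0 : ℝ) ≤ cx x.g.bs j c := Nat.cast_nonneg _
    unfold gaP gaM
    split_ifs with c1
    · have := mul_le_mul_of_nonneg_right g4.1 g5
      rw [Nat.cast_mul _ μ, gaX] at this
      rw [Nat.cast_mul, Nat.cast_mul, gaX]
      simp only [c1, Nat.cast_mul, Nat.cast_add, Nat.cast_zero] at this ⊢
      linear_combination this
    · have c2 : dN P Q md (ρ j) = 0 := by
        unfold dP dN at *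
        omega
      have := mul_le_mul_of_nonneg_right g4.2 g5
      rw [Nat.cast_mul _ μ, gaX] at this
      rw [Nat.cast_mul, Nat.cast_mul, gaX]
      simp only [c2, Nat.cast_mul, Nat.cast_add, Nat.cast_zero] at this ⊢
      linear_combination this
  have b4 := b3 c
  have μ2 : (2 : ℝ) ^ 14 ≤ μ / 2 ^ 20 * sx := by
    have : (17179869184 : ℝ) ≤ μ * sx := by exact_mod_cast μ1
    linear_combination this / 2 ^ 20
  have k3 : ∀ y z : ℕ, y ≤ z * 16384 → (y : ℝ) ≤ z * (μ / 2 ^ 20) * sx := fun y z hy => by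
    have : (y : ℝ) ≤ z * 16384 := by exact_mod_cast hy
    linear_combination this + mul_le_mul_of_nonneg_left μ2 (Nat.cast_nonneg z)
  refine tl_le hτ s1 (by positivity) (k3 _ _ α1) (k3 _ _ β1) (k.trans ?_) ?_ (h.w0 c)
  all_goals
    simp only [id, mul_one]
    generalize ∑ j ∈ range S.k, gaP P Q md μ (ρ j) * cx x.g.bs j c = X at *
    generalize ∑ j ∈ range S.k, gaM P Q md μ (ρ j) * cx x.g.bs j c = X' at *
    generalize tK (64 * m / sx) = z at *
  · have : (a : ℤ) - b + X - X' ≤ (2147483648 + a - b + X - X' - 2 ^ 31 : ℕ) := by omega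
    exact_mod_cast this
  · have : (a : ℤ) - b + X - X' - z * 128 ≤
      (2147483648 + a - b + X - X' - z * 2 ^ 7 - 2 ^ 31 : ℕ) := by omega
    have : (a : ℝ) - b + X - X' - z * 128 ≤
      (2147483648 + a - b + X - X' - z * 2 ^ 7 - 2 ^ 31 : ℕ) := by exact_mod_cast this
    linear_combination this + k + mul_le_mul_of_nonneg_left μ2 (Nat.cast_nonneg z) / 128

lemma tL_ok (h : GX2 x S A w) {τ : ℕ} (hτ : τ ≤ 30) (L : List Rw) (hL : ∀ r ∈ L, r.In S.k) :
    ∀ K : ℕ → ℕ → ℕ, ∃ v b F, tL x.g.T x.g.O (zT x τ) x.N (toNL 0 x.R) L K = K v b ∧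
      (zX x τ < 2 ^ 26 → LB x.g S A (fun c => w c / 2 ^ τ) (2 ^ x.g.B) id F v b) ∧
      (b < 2 ^ 31 → ∀ a, (∀ f ∈ F, f a ≤ 0) → ∀ r ∈ L, r.ok (Y A a)) := by
  induction L with
  | nil => exact fun K => ⟨0, 0, [], rfl, fun _ => LB.nil, by simp⟩
  | cons r L ih =>
    intro K
    rw [List.forall_mem_cons] at hL
    obtain ⟨v, b, e1, h1⟩ := rowTG h hτ (pkV r.l1) (pkV r.l2) 17592186044416 r.c1 r.c2 fun v b =>
      tL x.g.T x.g.O (zT x τ) x.N (toNL 0 x.R) L fun u c => K (v + u)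
        (b + c + (pkV r.l1 + pkV r.l2) >>> 717)
    obtain ⟨u, d, F, e2, h2, h3⟩ := ih hL.2 fun u c => K (v + u)
      (b + c + (pkV r.l1 + pkV r.l2) >>> 717)
    rw [← gyN_eq] at e1
    refine ⟨_, _, _, e1.trans e2, fun c => (h1 c).cons (h2 c) (Nat.le_add_right _ _), fun c a ha => ?_⟩
    rw [List.forall_mem_cons] at ha ⊢
    refine ⟨?_, h3 (((Nat.le_add_left _ _).trans (Nat.le_add_right _ _)).trans_lt c) a ha.2⟩
    have g1 := (Nat.le_add_left _ _).trans_lt c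
    rw [pkV_eq, pkV_eq] at g1
    have g2 : ∑ j ∈ range 16, cntL j r.l1 + ∑ j ∈ range 16, cntL j r.l2 < 2 ^ 44 :=
      shr_big (n := 44 * 16) (k := 13) g1
    have g3 := ha.1
    rw [fN, sum_congr rfl fun j hj => by
      have j1 := (mem_range.1 hj).trans_le h.gx.hI.le
      rw [show (dP (pkV r.l1) (pkV r.l2) 17592186044416 (nrO x.g S j) : ℝ) -
        dN (pkV r.l1) (pkV r.l2) 17592186044416 (nrO x.g S j) =
        f44 (pkV r.l1) j - f44 (pkV r.l2) j from (sub_cast _ _).1, pkV_eq, pkV_eq,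
        f44_PV (by omega) j1, f44_PV (by omega) j1, sub_mul], sum_sub_distrib] at g3
    rw [Rw.ok, sum_cnt _ hL.1.1, sum_cnt _ hL.1.2]
    rw [Nat.cast_zero, zero_mul, sub_zero, sub_div] at g3
    linarith

theorem ofT_ok {p : Prov} (hp : Prok t p) : AOK2 t (ofT p) := fun x _ S A w s K _ h hl => by
  rw [ofT, frc_eq] at hl ⊢
  obtain ⟨L, u, e, h1, h2⟩ := hp true S A _ _ h.gx.hI hl
  have hτ : Nat.mod s 16 ≤ 30 := (Nat.mod_lt s (by norm_num : 0 < 16)).le.trans (by norm_num)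
  rw [e] at hl ⊢
  obtain ⟨v, b, F, e1, h3, h4⟩ := tL_ok h hτ L h1 _
  rw [e1] at hl ⊢
  obtain ⟨g1, g2⟩ := gz_lt hl
  simp only [Nat.add_eq, Nat.shiftRight_eq, Nat.shiftRight_eq_div_pow] at g1
  have g3 : b < 2 ^ 31 := by omega
  rw [g2, h.gx.hg.hO]
  obtain ⟨N, ν, e2, h5⟩ := ((h3 (by omega)).la (E := id) g3 hτ h.w0 (fun _ c => c)
    fun _ _ => rfl).item g3 h.gx.hI (h2.anti fun a ha => ⟨ha.1, h4 g3 a ha.2⟩)
  exact ⟨N, ν, u, 0, by rw [← e2, zero_add]; rfl, h5⟩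

theorem ia6_ok {i2 i3 iu i8 j2 j3 : AItem} (h2 : AOK2 t i2) (h3 : AOK2 t i3) (hu : AOK2 t iu)
    (h8 : AOK2 t i8) (g2 : AOK2 t j2) (g3 : AOK2 t j3) : (ia6 i2 i3 iu i8 j2 j3).All (AOK2 t) :=
  ⟨⟨⟨ofT_ok (killP_ok t), ofT_ok (smallP_ok t), (ofI_ok (childI_ok lt_ok t)).two⟩, h2, hu⟩, ⟨h3, h8⟩,
    (ofI_ok (killI_ok lt_ok t)).two, g2, g3⟩

end Pool.Agent.MP_c853c5_nt.X
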