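import Pool.Agent.MP_c853c5_nt.X.GtD
import Pool.Agent.MP_c853c5_nt.X.Lane

/-!
Bits are inserted into the numbers of the lanes.
-/

set_option autoImplicit false

namespace Pool.Agent.MP_c853c5_nt.X

open Ln

lemma in_pad {n : ℕ} {f : ℕ → ℕ} (h : ∀ c, n ≤ c → f c = 0) (k : ℕ) : pk (n + k) f = pk n f := by
  induction k with
  | zero => rfl
  | succ k ih => rw [← add_assoc, pk_succ, ih, h _ (Nat.le_add_right _ _), zero_mul, add_zero]

lemma in_sh {n : ℕ} {f : ℕ → ℕ} (h : ∀ c, n ≤ c → f c = 0) (k : ℕ) :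
    pk n f + pk n f <<< (32 * k) = pk (n + k) fun c => f c + if c < k then 0 else f (c - k) := by
  have e := pk_app k n (fun _ => 0) f
  rw [pk_zero, zero_add] at e
  rw [e, add_comm k n, ← pk_add, in_pad h]

lemma in_rpl (m : ℕ) : ∀ {n : ℕ} (_ : 0 < n) (f : ℕ → ℕ),
    rpl m (32 * n) (pk n f) = pk (n * 2 ^ m) fun c => f (c % n) := by
  induction m with
  | zero =>
    intro n _ f
    rw [pow_zero, mul_one]
    exact pk_congr fun c hc => by rw [Nat.mod_eq_of_lt hc]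
  | succ m ih =>
    intro n hn f
    show rpl m (32 * n + 32 * n) (pk n f + pk n f <<< (32 * n)) = _
    have e := pk_two hn f 0
    simp only [add_zero, zero_mul] at e
    rw [e, show 32 * n + 32 * n = 32 * (n * 2) by ring,
      ih (Nat.mul_pos hn two_pos), show n * 2 * 2 ^ m = n * 2 ^ (m + 1) by ring]
    exact pk_congr fun c _ => by rw [Nat.mod_mul_right_mod]

lemma in_mK {B q : ℕ} (h : q < B) :
    mK B q = pk (2 ^ B) fun c => if c / 2 ^ q % 2 = 0 then 2 ^ 32 - 1 else 0 := by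
  have P := Nat.two_pow_pos q
  have e : gM (32 <<< q) = pk (2 ^ q * 2) fun c => if c < 2 ^ q then 2 ^ 32 - 1 else 0 := by
    rw [mul_two, in_pad fun c hc => if_neg (by omega),
      pk_congr (n := 2 ^ q) (f := fun c => if c < 2 ^ q then 2 ^ 32 - 1 else 0)
        (g := fun _ => 4294967295 * 1) fun c hc => if_pos hc, ← pk_smul]
    show 1 <<< (32 <<< q) - 1 = _
    rw [Nat.shiftLeft_eq, Nat.shiftLeft_eq, one_mul, ← (pk_geo _).1, Nat.add_sub_cancel]
  show rpl (B - (q + 1)) (64 <<< q) (gM (32 <<< q)) = _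
  rw [e, Nat.shiftLeft_eq, show 64 * 2 ^ q = 32 * (2 ^ q * 2) by ring, in_rpl _ (by omega),
    ← pow_succ, ← pow_add, show q + 1 + (B - (q + 1)) = B by omega]
  refine pk_congr fun c _ => ?_
  rw [pow_succ, ← Nat.mod_mul_right_div_self]
  exact if_congr (Nat.div_eq_zero_iff_lt P).symm rfl rfl

lemma in_land {B q n : ℕ} (h : q < B) {f : ℕ → ℕ} (hf : ∀ c, f c < 2 ^ 32) :
    pk n f &&& mK B q = pk n fun c => if c < 2 ^ B ∧ c / 2 ^ q % 2 = 0 then f c else 0 := by
  rw [in_mK h]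
  refine pw_ext (w := 32) (by omega) fun c i hi => ?_
  rw [Nat.testBit_and, pk_bit (fun c _ => hf c) c hi,
    pk_bit (fun c _ => by split_ifs <;> omega) c hi,
    pk_bit (fun c _ => by have := hf c; split_ifs <;> omega) c hi]
  by_cases h1 : c < 2 ^ B
  · by_cases h2 : c / 2 ^ q % 2 = 0
    · rw [if_pos h2, if_pos ⟨h1, h2⟩, Nat.testBit_two_pow_sub_one, decide_eq_true h1,
        decide_eq_true hi, Bool.true_and, Bool.and_true]
    · rw [if_neg h2, if_neg (show ¬ (_ ∧ _) from fun e => h2 e.2), Nat.zero_testBit,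
        Bool.and_false, Bool.and_false, Bool.and_false]
  · rw [if_neg (show ¬ (_ ∧ _) from fun e => h1 e.1), decide_eq_false h1, Nat.zero_testBit,
      Bool.false_and, Bool.and_false, Bool.and_false]

/-- the lanes above the block `P` are spread by the factor `G` -/
def stg (G : ℕ) (f : ℕ → ℕ) (P c : ℕ) : ℕ :=
  if c / P % G = 0 then f (c % P + P * (c / P / G)) else 0

lemma stg_a {P r : ℕ} (h : r < P) (G : ℕ) (f : ℕ → ℕ) (x : ℕ) :
    stg G f P (r + P * x) = if x % G = 0 then f (r + P * (x / G)) else 0 := by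
  rw [stg, Nat.add_mul_div_left _ _ (by omega), Nat.add_mul_mod_self_left, Nat.div_eq_of_lt h,
    Nat.mod_eq_of_lt h, zero_add]

lemma stg_b {P r : ℕ} (h : r < P) (G : ℕ) (f : ℕ → ℕ) (y : ℕ) {b : ℕ} (hb : b < 2) :
    stg G f (P * 2) (r + P * (b + 2 * y)) =
      if y % G = 0 then f (r + P * (b + 2 * (y / G))) else 0 := by
  rw [show r + P * (b + 2 * y) = r + P * b + P * 2 * y by ring, stg_a (by nlinarith),
    show r + P * b + P * 2 * (y / G) = r + P * (b + 2 * (y / G)) by ring]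

lemma stg_step {P H : ℕ} (hP : 0 < P) (hH : 0 < H) (f : ℕ → ℕ) (c : ℕ) :
    (if c / P % 2 = 0 then stg (H * 2) f (P * 2) c + if c < (H * 2 - 1) * P then 0
      else stg (H * 2) f (P * 2) (c - (H * 2 - 1) * P) else 0) = stg (H * 2) f P c := by
  obtain ⟨r, x, hr, rfl⟩ : ∃ r x, r < P ∧ c = r + P * x :=
    ⟨c % P, c / P, Nat.mod_lt _ hP, (Nat.mod_add_div _ _).symm⟩
  rw [stg_a hr, Nat.add_mul_div_left _ _ hP, Nat.div_eq_of_lt hr, zero_add]
  by_cases hx : x % 2 = 0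
  swap
  · rw [if_neg hx, if_neg fun e => hx (by rw [← Nat.mod_mul_left_mod x H 2, e])]
  obtain ⟨y, rfl⟩ : ∃ y, x = 2 * y := ⟨x / 2, by omega⟩
  have e0 := stg_b hr (H * 2) f y (b := 0) two_pos
  simp only [zero_add] at e0
  rw [if_pos hx, e0, show 2 * y % (H * 2) = 2 * (y % H) by rw [mul_comm H, Nat.mul_mod_mul_left],
    show 2 * y / (H * 2) = y / H by rw [mul_comm H, Nat.mul_div_mul_left _ _ two_pos]]
  obtain ⟨K, rfl⟩ : ∃ K, H = K + 1 := ⟨H - 1, by omega⟩
  rw [show (K + 1) * 2 - 1 = 1 + 2 * K by omega]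
  by_cases hy : y < K + 1
  · rw [if_pos (show r + P * (2 * y) < _ by nlinarith), add_zero, Nat.mod_eq_of_lt hy,
      Nat.mod_eq_of_lt (by omega), Nat.div_eq_of_lt hy, Nat.div_eq_of_lt (by omega)]
    exact if_congr (by omega) rfl rfl
  obtain ⟨w, rfl⟩ : ∃ w, y = w + (K + 1) := ⟨y - (K + 1), by omega⟩
  rw [if_neg (show ¬ r + P * (2 * (w + (K + 1))) < _ by nlinarith),
    show r + P * (2 * (w + (K + 1))) - (1 + 2 * K) * P = r + P * (1 + 2 * w) from
      Nat.sub_eq_of_eq_add (by ring), stg_b hr _ _ _ one_lt_two]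
  generalize K + 1 = H at *
  obtain ⟨s, z, hs, rfl⟩ : ∃ s z, s < H ∧ w = s + H * z :=
    ⟨w % H, w / H, Nat.mod_lt _ hH, (Nat.mod_add_div _ _).symm⟩
  have m1 : ∀ z, (s + H * z) % (H * 2) = s + H * (z % 2) := fun z => by
    rw [Nat.mod_mul, Nat.add_mul_mod_self_left, Nat.add_mul_div_left _ _ hH, Nat.mod_eq_of_lt hs,
      Nat.div_eq_of_lt hs, zero_add]
  have m2 : ∀ z, (s + H * z) / H = z := fun z => by
    rw [Nat.add_mul_div_left _ _ hH, Nat.div_eq_of_lt hs, zero_add]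
  rw [show s + H * z + H = s + H * (z + 1) by ring, m1, m1, ← Nat.div_div_eq_div_mul,
    ← Nat.div_div_eq_div_mul, m2, m2, Nat.add_mul_mod_self_left, Nat.mod_eq_of_lt hs]
  rcases s.eq_zero_or_pos with rfl | s0
  · rcases Nat.mod_two_eq_zero_or_one z with e | e
    · rw [e, show (z + 1) % 2 = 1 by omega, if_neg (by omega), if_pos (by omega), if_pos rfl,
        zero_add, show 1 + 2 * (z / 2) = z + 1 by omega]
    · rw [e, show (z + 1) % 2 = 0 by omega, if_pos (by omega), if_neg (by omega), if_pos rfl,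
        add_zero, show 2 * ((z + 1) / 2) = z + 1 by omega]
  · rw [if_neg (by omega), if_neg (by omega), if_neg (by omega)]

lemma stg_lt {G P : ℕ} {f : ℕ → ℕ} (hf : ∀ c, f c < 2 ^ 31) (c : ℕ) : stg G f P c < 2 ^ 31 := by
  unfold stg
  split_ifs
  exacts [hf _, by omega]

lemma in_arg {o g m c : ℕ} (hc : 2 ^ (o + g + m) ≤ c) :
    2 ^ (o + m) ≤ c % 2 ^ o + 2 ^ o * (c / 2 ^ o / 2 ^ g) := by
  refine le_add_left ?_
  rw [Nat.div_div_eq_div_mul, ← pow_add, pow_add 2 o m]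
  refine Nat.mul_le_mul_left _ ((Nat.le_div_iff_mul_le (Nat.two_pow_pos _)).2 ?_)
  rwa [← pow_add, add_comm]

lemma in_tSp {B o g m : ℕ} (h : o + (g + 1) + m ≤ B) {f : ℕ → ℕ} (hf : ∀ c, f c < 2 ^ 31)
    (h0 : ∀ c, 2 ^ (o + m) ≤ c → f c = 0) : ∀ i ≤ m,
    tSp B o (32 * (2 ^ g * 2 - 1)) i (pk (2 ^ (o + (g + 1) + m)) (stg (2 ^ g * 2) f (2 ^ (o + i)))) =
      pk (2 ^ (o + (g + 1) + m)) (stg (2 ^ g * 2) f (2 ^ o)) := by
  have z : ∀ i ≤ m, ∀ c, 2 ^ (o + (g + 1) + m) ≤ c → stg (2 ^ g * 2) f (2 ^ (o + i)) c = 0 := by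
    intro i hi c hc
    obtain ⟨j, rfl⟩ := Nat.exists_eq_add_of_le hi
    rw [stg, ← pow_succ, h0 _ (by
      rw [← add_assoc]
      exact in_arg (by rwa [show o + i + (g + 1) + j = o + (g + 1) + (i + j) by ring])), ite_self]
  intro i
  induction i with
  | zero => exact fun _ => rfl
  | succ i ih =>
    intro hi
    rw [← ih (by omega)]
    refine congrArg (tSp B o _ i) ?_
    show (pk _ _ + pk _ _ <<< ((32 * (2 ^ g * 2 - 1)) <<< (i + o))) &&& mK B (i + o) = _
    rw [Nat.shiftLeft_eq (32 * _), mul_assoc, add_comm i o, in_sh (z _ hi),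
      in_land (by omega) fun c => by
        have := fun c => stg_lt (G := 2 ^ g * 2) (P := 2 ^ (o + (i + 1))) hf c
        split_ifs <;> [(have := this c; omega); (exact (add_lt_add (this _) (this _)).trans_eq (by norm_num))],
      ← in_pad (z i (by omega))]
    refine pk_congr fun c _ => ?_
    by_cases hc : c < 2 ^ B
    · rw [← stg_step (Nat.two_pow_pos (o + i)) (Nat.two_pow_pos g), ← add_assoc, pow_succ]
      exact if_congr (and_iff_right hc) rfl rfl
    · rw [if_neg (show ¬ (_ ∧ _) from fun e => hc e.1),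
        z i (by omega) c ((Nat.pow_le_pow_right two_pos h).trans (not_lt.1 hc))]

lemma in_fill (g : ℕ) : ∀ {P N : ℕ} (_ : 0 < P) (ψ : ℕ → ℕ → ℕ)
    (_ : ∀ c, N ≤ c → ψ (c % P) (c / P / 2 ^ g) = 0),
    rpl g (32 * P) (pk N fun c => if c / P % 2 ^ g = 0 then ψ (c % P) (c / P / 2 ^ g) else 0) =
      pk N fun c => ψ (c % P) (c / P / 2 ^ g) := by
  induction g with
  | zero => exact fun _ _ _ => pk_congr fun c _ => if_pos (Nat.mod_one _)
  | succ g ih =>
    intro P N hP ψ h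
    have e : ∀ c, c / (P * 2) / 2 ^ g = c / P / 2 ^ (g + 1) := fun c => by
      rw [← Nat.div_div_eq_div_mul c, Nat.div_div_eq_div_mul (c / P), pow_succ']
    have k := ih (P := P * 2) (N := N) (by omega) (fun a b => ψ (a % P) b) fun c hc => by
      rw [Nat.mod_mul_right_mod, e, h c hc]
    simp only [Nat.mod_mul_right_mod, e] at k
    rw [← k]
    show rpl g (32 * P + 32 * P) (pk N _ + pk N _ <<< (32 * P)) = _
    rw [in_sh fun c hc => by rw [h c hc, ite_self], show 32 * P + 32 * P = 32 * (P * 2) by ring]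
    refine congrArg _ ((pk_congr fun c _ => ?_).trans
      (in_pad (fun c hc => by rw [h c hc, ite_self]) P))
    obtain ⟨r, x, hr, rfl⟩ : ∃ r x, r < P ∧ c = r + P * x :=
      ⟨c % P, c / P, Nat.mod_lt _ hP, (Nat.mod_add_div _ _).symm⟩
    have d : ∀ x, (r + P * x) / P = x := fun x => by
      rw [Nat.add_mul_div_left _ _ hP, Nat.div_eq_of_lt hr, zero_add]
    have G := Nat.two_pow_pos g
    rw [← Nat.div_div_eq_div_mul, d, Nat.add_mul_mod_self_left, pow_succ', Nat.mod_mul,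
      ← Nat.div_div_eq_div_mul]
    obtain _ | x := x
    · simp [hr]
    rw [if_neg (show ¬ r + P * (x + 1) < P by nlinarith),
      show r + P * (x + 1) - P = r + P * x from Nat.sub_eq_of_eq_add (by ring), d,
      Nat.add_mul_mod_self_left, Nat.mod_mul, ← Nat.div_div_eq_div_mul]
    rcases Nat.mod_two_eq_zero_or_one x with e | e
    · rw [show (x + 1) / 2 = x / 2 by omega, if_neg (by omega), zero_add]
      exact if_congr (by omega) rfl rfl
    · rw [if_neg (show ¬ x % 2 + _ = 0 by omega), add_zero]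
      exact if_congr (by omega) rfl rfl

theorem ins_eq {B o g m : ℕ} (h : o + g + m ≤ B) {f : ℕ → ℕ} (hf : ∀ c < 2 ^ (o + m), f c < 2 ^ 31) :
    ins B o g m (pk (2 ^ (o + m)) f) =
      pk (2 ^ (o + g + m)) fun c => f (c % 2 ^ o + 2 ^ o * (c / 2 ^ (o + g))) := by
  obtain _ | g := g
  · exact pk_congr fun c _ => by rw [add_zero, Nat.mod_add_div]
  set F : ℕ → ℕ := fun c => if c < 2 ^ (o + m) then f c else 0 with hF
  have F1 : ∀ c, F c < 2 ^ 31 := fun c => by
    rw [hF]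
    dsimp only
    split_ifs with e
    exacts [hf c e, by omega]
  have F0 : ∀ c, 2 ^ (o + m) ≤ c → F c = 0 := fun c hc => if_neg (by omega)
  have P := Nat.two_pow_pos (o + m)
  have e0 : pk (2 ^ (o + m)) f =
      pk (2 ^ (o + (g + 1) + m)) (stg (2 ^ g * 2) F (2 ^ (o + m))) := by
    obtain ⟨k, hk⟩ := Nat.exists_eq_add_of_le
      (Nat.pow_le_pow_right two_pos (show o + m ≤ o + (g + 1) + m by omega))
    rw [pk_congr (g := F) fun c hc => (if_pos hc).symm, ← in_pad F0 k, ← hk]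
    refine pk_congr fun c hc => ?_
    have hx : c / 2 ^ (o + m) < 2 ^ g * 2 := by
      rw [Nat.div_lt_iff_lt_mul P, ← pow_succ, ← pow_add]
      rwa [show g + 1 + (o + m) = o + (g + 1) + m by ring]
    rw [stg, Nat.mod_eq_of_lt hx, Nat.div_eq_of_lt hx, mul_zero, add_zero]
    split_ifs with e
    · rw [Nat.mod_eq_of_lt ((Nat.div_eq_zero_iff_lt P).1 e)]
    · exact F0 c (not_lt.1 fun e' => e (Nat.div_eq_of_lt e'))
  show rpl (g + 1) (32 <<< o) (tSp B o (32 * (1 <<< (g + 1) - 1)) m _) = _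
  rw [e0, Nat.shiftLeft_eq, Nat.shiftLeft_eq, one_mul, pow_succ 2 g, in_tSp h F1 F0 m le_rfl,
    ← pow_succ]
  refine (in_fill (g + 1) (Nat.two_pow_pos o) (fun a b => F (a + 2 ^ o * b))
    fun c hc => F0 _ (in_arg hc)).trans (pk_congr fun c hc => ?_)
  rw [Nat.div_div_eq_div_mul, ← pow_add]
  refine if_pos ?_
  have h1 : c / 2 ^ (o + (g + 1)) < 2 ^ m := by
    rwa [Nat.div_lt_iff_lt_mul (Nat.two_pow_pos _), ← pow_add, add_comm]
  have h2 := Nat.mod_lt c (Nat.two_pow_pos o)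
  have h3 := Nat.mul_le_mul_left (2 ^ o) (Nat.succ_le_of_lt h1)
  rw [Nat.mul_succ, ← pow_add] at h3
  omega

end Pool.Agent.MP_c853c5_nt.X
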