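import Pool.Agent.MP_c853c5_nt.X.GtB
import Pool.Agent.MP_c853c5_nt.X.GtI
import Pool.Agent.MP_c853c5_nt.X.FP

/-!
The nodes of a polytope and the small grid.
-/

set_option autoImplicit false

open Finset

namespace Pool.Agent.MP_c853c5_nt.X

open Pool.Agent.MP_c853c5_nt.S Pool.Agent.MP_c853c5_nt.REG Ln

variable {S : NS} {q : PQ} {g : Gr}

lemma land_mask (x s b : ℕ) : x &&& ((2 ^ b - 1) * 2 ^ s) = x >>> s % 2 ^ b * 2 ^ s := by
  rw [← Nat.shiftLeft_eq, ← Nat.shiftLeft_eq]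
  refine Nat.eq_of_testBit_eq fun i => ?_
  rw [Nat.testBit_and, Nat.testBit_shiftLeft, Nat.testBit_shiftLeft, Nat.testBit_mod_two_pow,
    Nat.testBit_shiftRight, Nat.testBit_two_pow_sub_one]
  by_cases e : s ≤ i
  · rw [Nat.add_sub_cancel' e]
    simp [e, Bool.and_comm]
  · simp [e]

lemma lab4 (G j : ℕ) : (G <<< 4) >>> (4 * j) >>> 4 = G >>> (4 * j) := by
  rw [← Nat.shiftRight_add, add_comm, Nat.shiftRight_add, Nat.shiftLeft_shiftRight]

/-- the number of a pair of groups -/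
lemma pair_eq (G i j : ℕ) : (((G <<< 4) >>> (4 * i) ^^^ (G <<< 4) >>> (4 * j)) &&& 240) *
    (((G <<< 4) >>> (4 * j) &&& 240) + 1) = (d4 G i ^^^ d4 G j) * 16 * (d4 G j * 16 + 1) := by
  rw [show 240 = (2 ^ 4 - 1) * 2 ^ 4 from rfl, land_mask, land_mask, Nat.shiftRight_xor_distrib,
    Nat.xor_mod_two_pow, lab4, lab4]
  rfl

lemma pair_ok : ∀ a < 16, ∀ b < 16, a ≠ b → (a ^^^ b) * 16 * (b * 16 + 1) =
    ((a ^^^ b) * 16 * (b * 16 + 1) - 1) + 1 ∧ nA ((a ^^^ b) * 16 * (b * 16 + 1) - 1) = a ∧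
    nP ((a ^^^ b) * 16 * (b * 16 + 1) - 1) = b := by decide +kernel

lemma pw_sh (hw : 76 ≤ q.w) (s : ℕ) : Nat.shiftLeft (mQ q) s = pw q.w (fun _ => 2 ^ s) q.n := by
  rw [Nat.shiftLeft_eq', Nat.shiftLeft_eq, mQ_eq (by omega), pw_mul]
  simp only [one_mul]

lemma pw_tQ (hw : 76 ≤ q.w) : tQ q = pw q.w (fun _ => 2 ^ 74) q.n := pw_sh hw 74

lemma lt_w76 (hw : 76 ≤ q.w) {x : ℕ} (h : x < 2 ^ 76) : x < 2 ^ q.w :=
  h.trans_le (Nat.pow_le_pow_right two_pos hw)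

/-- the maximum of the fields -/
lemma mxV_eq (hw : 76 ≤ q.w) {μ y : ℕ → ℕ} (h1 : ∀ r < q.n, μ r < 2 ^ 30)
    (h2 : ∀ r < q.n, y r < 2 ^ 30) : mxV (tQ q) (pw q.w (fun r => y r * 2 ^ 44) q.n)
      (pw q.w (fun r => 2 ^ 74 + μ r * 2 ^ 44) q.n - pw q.w (fun r => y r * 2 ^ 44) q.n) =
    pw q.w (fun r => 2 ^ 74 + max (μ r) (y r) * 2 ^ 44) q.n := by
  have b : ∀ r < q.n, 2 ^ 74 + μ r * 2 ^ 44 - y r * 2 ^ 44 < 2 ^ q.w := fun r hr =>
    lt_w76 hw (by have := h1 r hr; omega)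
  have e : pw q.w (fun r => 2 ^ 74 + μ r * 2 ^ 44 - y r * 2 ^ 44) q.n &&&
      pw q.w (fun _ => 2 ^ 74) q.n =
      pw q.w (fun r => if y r ≤ μ r then 2 ^ 44 else 0) q.n * 2 ^ 30 := by
    rw [pw_land (by omega) b fun _ _ => lt_w76 hw (by norm_num), pw_mul]
    refine pw_congr fun r hr => ?_
    have := h1 r hr
    have := h2 r hr
    rw [Nat.and_two_pow, Nat.testBit_eq_decide_div_mod_eq]
    split_ifs
    · rw [decide_eq_true (by omega)]
      rfl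
    · rw [decide_eq_false (by omega)]
      rfl
  rw [pw_sub fun r hr => by have := h2 r hr; omega, pw_tQ hw, mxV]
  simp only [Nat.add_eq, Nat.land_eq, Nat.sub_eq, Nat.shiftRight_eq]
  rw [e, Nat.shiftRight_eq_div_pow, Nat.mul_div_cancel _ (Nat.two_pow_pos _), pw_mul,
    pw_sub fun r _ => Nat.le_mul_of_pos_right _ (Nat.two_pow_pos _),
    pw_land (by omega) b fun r _ => lt_w76 hw (by split_ifs <;> norm_num), pw_add, pw_add]
  refine pw_congr fun r hr => ?_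
  have := h1 r hr
  have := h2 r hr
  split_ifs
  · rw [show 2 ^ 44 * 2 ^ 30 - 2 ^ 44 = (2 ^ 30 - 1) * 2 ^ 44 by norm_num, land_mask,
      Nat.shiftRight_eq_div_pow]
    omega
  · rw [zero_mul, Nat.sub_self, Nat.and_zero]
    omega

/-- the offsets in the small grid -/
noncomputable def ro (bs par G : ℕ) : ℕ → ℕ
  | 0 => 0
  | m + 1 => if d4 G (m + 1) = d4 G (get par (m + 1)) then ro bs par G m
      else ro bs par G m + b3 bs (m + 1)

lemma ro_le (bs par G m n : ℕ) : ro bs par G m ≤ ro bs par G (m + n) ∧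
    ro bs par G (m + n) + off bs (m + 1) ≤ ro bs par G m + off bs (m + n + 1) := by
  induction n with
  | zero => exact ⟨le_rfl, le_rfl⟩
  | succ n ih =>
    rw [← add_assoc, X.off_succ _ (m + n + 1), ro]
    split_ifs <;> omega

/-- the shift of a cell of the small grid -/
noncomputable def hY (g : Gr) (par G c j : ℕ) : ℕ :=
  get g.h j * (c / 2 ^ ro g.bs par G (j - 1) % 2 ^ b3 g.bs j)

/-- the width of a node in a row -/
def xw (q : PQ) (g : Gr) (par G r j : ℕ) : ℕ :=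
  (uQ q (d4 G j) r - uQ q (d4 G (get par j)) r + (uQ q (d4 G (get par j)) r - uQ q (d4 G j) r)) *
    get g.h j

structure TS where
  γ : ℕ
  P : ℕ
  Q : ℕ
  A : ℕ
  W : ℕ
  U : ℕ
  L : ℕ → ℕ → ℕ
  E : ℕ → ℕ → ℕ
  F : ℕ → ℕ → ℕ

def TS.ap (s : TS) (K : KT) (o : ℕ) : ℕ := K o s.γ s.P s.Q s.A s.W s.U s.L s.E s.F

def ESp (X : ℕ → ℕ → ℕ) (B C o p : ℕ) (l : ℕ → ℕ) : Prop := ∀ f : ℕ → ℕ,
  (∀ c < 2 ^ C, f c < 2 ^ 31) →
    X B (pk (2 ^ C) f) = pk (2 ^ (p + (C - o))) fun c => f (l c + 2 ^ o * (c / 2 ^ p))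

/-- the state after the nodes `1, …, m` -/
structure StT (q : PQ) (g : Gr) (S : NS) (G C P m : ℕ) (s : TS) : Prop where
  hP : s.P = P + pw q.w (fun r => sNeg q S.par G m r (fLo S)) q.n
  hQ : s.Q = pw q.w (fun r => sPos q S.par G m r (fUp g) + sPos q S.par G m r (fHi S) * 2 ^ 36) q.n
  hA : s.A = pw q.w (fun r => (∑ j ∈ Ico 1 (m + 1), xw q g S.par G r j) * 2 ^ 44) q.n
  hW : ∃ μ : ℕ → ℕ, s.W = pw q.w (fun r => 2 ^ 74 + μ r * 2 ^ 44) q.n ∧ ∀ r, μ r < 2 ^ 26 ∧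
    (∀ j ∈ Ico 1 (m + 1), xw q g S.par G r j ≤ μ r) ∧
    (μ r = 0 ∨ ∃ j ∈ Ico 1 (m + 1), μ r = xw q g S.par G r j)
  hL : ∃ (us : ℕ → ℕ) (ps : ℕ → ℕ → ℕ), s.U = pk (2 ^ C) us ∧ ∀ r < q.n,
    (∀ V, s.L (2 ^ (q.w * r)) V = V + pk (2 ^ C) (ps r)) ∧ ∀ c,
      ps r c + sNeg q S.par G m r (hY g S.par G c) = 64 * us c + sPos q S.par G m r (hY g S.par G c)
  hE : ∃ l : ℕ → ℕ, s.γ ≤ off g.bs (m + 1) ∧ (∀ c, l c < 2 ^ ro g.bs S.par G m) ∧
    (∀ c, l (c % 2 ^ (off g.bs (m + 1) - s.γ)) = l c) ∧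
    (∀ j ∈ Ico 1 (m + 1), d4 G j ≠ d4 G (get S.par j) → ∀ c y,
      hY g S.par G (l c + 2 ^ ro g.bs S.par G m * y) j = hX g c j) ∧
    ESp s.E g.B C (ro g.bs S.par G m) (off g.bs (m + 1)) l ∧
    ESp s.F g.B C (ro g.bs S.par G m) (off g.bs (m + 1) - s.γ) l

lemma StT.zero (hw : 76 ≤ q.w) (hg : g.OK S) (G C P : ℕ) :
    StT q g S G C P 0 ⟨0, P, 0, 0, tQ q, 0, fun _ V => V, fun _ V => V, fun _ V => V⟩ := by
  have o1 : off g.bs 1 = 0 := hg.b0
  have e : ESp (fun _ V => V) g.B C 0 0 fun _ => 0 := fun f _ => by simp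
  refine ⟨by simp [sNeg, pw], by simp [sPos, pw], by simp [pw],
    ⟨fun _ => 0, by simp [pw_tQ hw], by simp⟩,
    ⟨fun _ => 0, fun _ _ => 0, (pk_zero _).symm, by simp [sPos, sNeg, pk_zero]⟩,
    fun _ => 0, Nat.zero_le _, by simp, by simp, by simp, ?_⟩
  rw [zero_add, o1]
  exact ⟨e, e⟩

variable {G C P m : ℕ} {s : TS}

lemma Ico_top {p : ℕ → Prop} (h : ∀ j ∈ Ico 1 (m + 1), p j) (h' : p (m + 1)) :
    ∀ j ∈ Ico 1 (m + 1 + 1), p j := fun j hj => by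
  rw [mem_Ico] at hj
  rcases Nat.lt_succ_iff_lt_or_eq.1 hj.2 with e | rfl
  exacts [h j (mem_Ico.2 ⟨hj.1, e⟩), h']

lemma StT.skip (h : StT q g S G C P m s) (c : d4 G (m + 1) = d4 G (get S.par (m + 1)))
    (h1 : ro g.bs S.par G m ≤ C) (h2 : off g.bs (m + 1 + 1) + (C - ro g.bs S.par G m) ≤ g.B) :
    StT q g S G C P (m + 1) ⟨s.γ + b3 g.bs (m + 1), s.P, s.Q, s.A, s.W, s.U, s.L, fun B V =>
      ins B (off g.bs (m + 1) - s.γ) (s.γ + b3 g.bs (m + 1)) (C - ro g.bs S.par G m) (s.F B V),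
      s.F⟩ := by
  have e1 : ∀ r f, sPos q S.par G (m + 1) r f = sPos q S.par G m r f := fun r f => by
    rw [sPos_succ, c, Nat.sub_self, zero_mul, zero_add]
  have e2 : ∀ r f, sNeg q S.par G (m + 1) r f = sNeg q S.par G m r f := fun r f => by
    rw [sNeg_succ, c, Nat.sub_self, zero_mul, zero_add]
  have e3 : ∀ r, xw q g S.par G r (m + 1) = 0 := fun r => by
    rw [xw, c, Nat.sub_self, add_zero, zero_mul]
  have e4 : ro g.bs S.par G (m + 1) = ro g.bs S.par G m := if_pos c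
  obtain ⟨μ, w1, w2⟩ := h.hW
  obtain ⟨l, l1, l2, l3, l4, -, l5⟩ := h.hE
  have e5 := X.off_succ g.bs (m + 1)
  have e6 : off g.bs (m + 1 + 1) - (s.γ + b3 g.bs (m + 1)) = off g.bs (m + 1) - s.γ := by omega
  refine ⟨by simpa only [e2] using h.hP, by simpa only [e1] using h.hQ,
    by simpa only [sum_Ico_succ_top (Nat.le_add_left 1 m), e3, add_zero] using h.hA,
    ⟨μ, w1, fun r => ⟨(w2 r).1, Ico_top (w2 r).2.1 (e3 r ▸ Nat.zero_le _), (w2 r).2.2.imp_right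
      fun ⟨j, j1, j2⟩ => ⟨j, Ico_subset_Ico_right (Nat.le_succ _) j1, j2⟩⟩⟩,
    by simpa only [e1, e2] using h.hL, l, by dsimp only; omega, ?_⟩
  rw [e4, e6]
  refine ⟨l2, l3, Ico_top l4 (absurd c), fun f hf => ?_, l5⟩
  generalize ro g.bs S.par G m = o at *
  generalize hp : off g.bs (m + 1) - s.γ = p at *
  dsimp only
  rw [l5 f hf, ins_eq (by omega) fun c hc => hf _ ?_, show p + (s.γ + b3 g.bs (m + 1)) =
    off g.bs (m + 1 + 1) by omega]
  · refine pk_congr fun c _ => ?_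
    rw [← l3, Nat.add_mul_mod_self_left, Nat.mod_mod, l3, Nat.add_mul_div_left _ _
      (Nat.two_pow_pos _), Nat.div_eq_of_lt (Nat.mod_lt _ (Nat.two_pow_pos _)), zero_add]
  · have g1 : c / 2 ^ p + 1 ≤ 2 ^ (C - o) :=
      (Nat.div_lt_iff_lt_mul (Nat.two_pow_pos _)).2 (by rwa [← pow_add, add_comm])
    have g2 := Nat.mul_le_mul_left (2 ^ o) g1
    have := l2 c
    rw [← pow_add, Nat.add_sub_cancel' h1, mul_add] at g2
    omega

lemma StT.act (hw : 76 ≤ q.w) (h : StT q g S G C P m s)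
    (c : d4 G (m + 1) ≠ d4 G (get S.par (m + 1))) (h1 : ro g.bs S.par G m + b3 g.bs (m + 1) ≤ C)
    (h2 : C ≤ 16) (h3 : get g.h (m + 1) < 2 ^ 20) {n x u : ℕ} (ha : nA n = d4 G (m + 1))
    (hb : nP n = d4 G (get S.par (m + 1))) (hx : x = aJ q n * get g.h (m + 1) <<< 44)
    (hu : u = get g.h (m + 1) * gU C (ro g.bs S.par G m) (b3 g.bs (m + 1))) :
    StT q g S G C P (m + 1) ⟨0, s.P + sJ q n * fLo S (m + 1),
      s.Q + dJ q n * (fUp g (m + 1) + fHi S (m + 1) <<< 36), s.A + x, mxV (tQ q) x (s.W - x),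
      u + s.U, fun y V => xJ q n / y % 128 * u + s.L y V, s.E, s.E⟩ := by
  have w4 : 44 ≤ q.w := by omega
  have e4 : ro g.bs S.par G (m + 1) = ro g.bs S.par G m + b3 g.bs (m + 1) := if_neg c
  have e5 := X.off_succ g.bs (m + 1)
  obtain ⟨μ, w1, w2⟩ := h.hW
  obtain ⟨us, ps, u1, u2⟩ := h.hL
  obtain ⟨l, l1, l2, l3, l4, l5, -⟩ := h.hE
  have x1 : x = pw q.w (fun r => xw q g S.par G r (m + 1) * 2 ^ 44) q.n := by
    rw [hx, aJ, dJ, sJ, ha, hb, dQ_eq w4, sQ_eq w4, Nat.add_eq, pw_add, pw_mul, Nat.shiftLeft_eq]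
    simp only [xw, mul_assoc]
  have x2 : ∀ r, xw q g S.par G r (m + 1) < 2 ^ 26 := fun r => by
    have := uQ_lt q (d4 G (m + 1)) r
    have := uQ_lt q (d4 G (get S.par (m + 1))) r
    exact (Nat.mul_lt_mul'' (c := 64) (by omega) h3).trans_eq (by norm_num)
  have u3 : u = pk (2 ^ C) fun c => hY g S.par G c (m + 1) := by
    rw [hu, gU_eq h2 h1, pk_smul]
    rfl
  refine ⟨?_, ?_, ?_, ⟨fun r => max (μ r) (xw q g S.par G r (m + 1)), ?_, fun r =>
    ⟨max_lt (w2 r).1 (x2 r), Ico_top (fun j hj => le_max_of_le_left ((w2 r).2.1 j hj))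
      (le_max_right _ _), (max_choice _ _).elim (fun e => (w2 r).2.2.imp e.trans fun ⟨j, j1, j2⟩ =>
        ⟨j, Ico_subset_Ico_right (Nat.le_succ _) j1, e.trans j2⟩) fun e => Or.inr ⟨_, by simp, e⟩⟩⟩,
    ⟨fun c => hY g S.par G c (m + 1) + us c, fun r c => (uQ q (d4 G (m + 1)) r + 64 -
      uQ q (d4 G (get S.par (m + 1))) r) * hY g S.par G c (m + 1) + ps r c, ?_, fun r hr =>
      ⟨fun V => ?_, fun c => ?_⟩⟩,
    fun c => l c + 2 ^ ro g.bs S.par G m * cx g.bs (m + 1) c, Nat.zero_le _, ?_⟩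
  · simp only [h.hP, sJ, ha, hb, sQ_eq w4, pw_mul, add_assoc, pw_add, sNeg_succ, add_comm]
  · simp only [h.hQ, dJ, ha, hb, dQ_eq w4, pw_mul, pw_add, sPos_succ, Nat.shiftLeft_eq]
    exact pw_congr fun r _ => by ring
  · simp only [h.hA, x1, pw_add, sum_Ico_succ_top (Nat.le_add_left 1 m), add_mul]
  · dsimp only
    rw [w1, x1]
    exact mxV_eq hw (fun r _ => (w2 r).1.trans (by norm_num)) fun r _ => (x2 r).trans (by norm_num)
  · rw [u3, u1, pk_add]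
  · dsimp only
    rw [(u2 r hr).1, xJ, ha, hb, xQ_eq w4, show 128 = 2 ^ 7 from rfl, pw_fld (by omega)
      (fun r _ => by have := uQ_lt q (d4 G (m + 1)) r; omega) hr, u3, pk_smul, add_left_comm, pk_add]
  · have h3 := (u2 r hr).2 c
    have h4 := uQ_lt q (d4 G (get S.par (m + 1))) r
    rw [sPos_succ, sNeg_succ]
    beta_reduce
    generalize uQ q (d4 G (m + 1)) r = a at *
    generalize uQ q (d4 G (get S.par (m + 1))) r = b at *
    have : (a + 64 - b) * hY g S.par G c (m + 1) + (b - a) * hY g S.par G c (m + 1) =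
        64 * hY g S.par G c (m + 1) + (a - b) * hY g S.par G c (m + 1) := by
      rw [← add_mul, ← add_mul]
      congr 1
      omega
    omega
  have k : ∀ c y, l c + 2 ^ ro g.bs S.par G m * cx g.bs (m + 1) c +
      2 ^ ro g.bs S.par G (m + 1) * y =
      l c + 2 ^ ro g.bs S.par G m * (cx g.bs (m + 1) c + 2 ^ b3 g.bs (m + 1) * y) := fun c y => by
    rw [e4]
    ring
  have k' : ESp s.E g.B C (ro g.bs S.par G (m + 1)) (off g.bs (m + 1 + 1))
      fun c => l c + 2 ^ ro g.bs S.par G m * cx g.bs (m + 1) c := fun f hf => by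
    rw [l5 f hf, show off g.bs (m + 1 + 1) + (C - ro g.bs S.par G (m + 1)) =
      off g.bs (m + 1) + (C - ro g.bs S.par G m) by omega]
    refine pk_congr fun c _ => ?_
    rw [k, e5, pow_add, ← Nat.div_div_eq_div_mul, cx, Nat.mod_add_div]
  refine ⟨fun c => ?_, fun c => ?_, Ico_top (fun j hj d c y => by rw [k, l4 j hj d]) fun _ c y => ?_,
    k', k'⟩
  · have := Nat.mul_le_mul_left (2 ^ ro g.bs S.par G m) (Nat.succ_le_of_lt (cx_lt g.bs (m + 1) c))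
    have := l2 c
    rw [e4, pow_add]
    rw [Nat.mul_succ] at *
    beta_reduce
    omega
  · dsimp only
    rw [Nat.sub_zero, ← l3, Nat.mod_mod_of_dvd _ (pow_dvd_pow 2 (by omega)), l3, cx, cx, e5, pow_add,
      Nat.mod_mul_right_div_self, Nat.mod_mod]
  · rw [k, hY, hX, Nat.add_sub_cancel, Nat.add_mul_div_left _ _ (Nat.two_pow_pos _),
      Nat.div_eq_of_lt (l2 c), zero_add, Nat.add_mul_mod_self_left,
      Nat.mod_eq_of_lt (cx_lt _ _ _)]

/-- the cells are narrow and away from zero -/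
def Nrw (g : Gr) (S : NS) (m : ℕ) : Prop :=
  ∀ j ∈ Ico 1 (m + 1), 16 ≤ get S.lo j ∧ get g.h j * 2 ^ b3 g.bs j < 2 ^ 20

noncomputable def ovs (g : Gr) (S : NS) (m : ℕ) : ℕ :=
  ∑ j ∈ Ico 1 (m + 1), (get S.lo j + get g.h j * 2 ^ b3 g.bs j - get S.hi j)

lemma tN_cons (T G : ℕ) (K : ℕ → ℕ → ℕ → KT) (a p l c h H b t : ℕ) (r : N2) (o : ℕ) :
    s.ap (tN q T G C K (N2.cons a p l c h H b t r)) o = Nat.rec (motive := fun _ => ℕ)
      (TS.ap ⟨s.γ + b, s.P, s.Q, s.A, s.W, s.U, s.L,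
        fun B V => ins B (t - s.γ) (s.γ + b) (C - o) (s.F B V), s.F⟩ (tN q T G C K r) o)
      (fun n _ => TS.ap ⟨0, s.P + sJ q n * l, s.Q + dJ q n * c, s.A + aJ q n * H,
        mxV T (aJ q n * H) (s.W - aJ q n * H), h * gU C o b + s.U,
        fun y V => xJ q n / y % 128 * (h * gU C o b) + s.L y V, s.E, s.E⟩ (tN q T G C K r) (o + b))
      (((G >>> a ^^^ G >>> p) &&& 240) * ((G >>> p &&& 240) + 1)) := rfl

lemma tN_ok (hg : g.OK S) (K : ℕ → ℕ → ℕ → KT) (n : ℕ) : ∀ (m v : ℕ) (s : TS),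
    m + n + 1 = S.k → (v = 0 → Nrw g S m) →
    (76 ≤ q.w → Nrw g S (m + n) → C = ro g.bs S.par G (m + n) → StT q g S G C P m s) →
    ∃ (v' : ℕ) (s' : TS),
      s.ap (tN q (tQ q) (G <<< 4) C K (mkN S.par S.hi g.bs ((List.range' (m + 1) n).map (nrO g S))
        (off g.bs (m + 1)) v (ovs g S m))) (ro g.bs S.par G m) =
      s'.ap (K v' (8796093022209 + 63 * ovs g S (m + n)) g.B) (ro g.bs S.par G (m + n)) ∧
      (v' = 0 → Nrw g S (m + n)) ∧
      (76 ≤ q.w → Nrw g S (m + n) → C = ro g.bs S.par G (m + n) → StT q g S G C P (m + n) s') := by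
  induction n with
  | zero => exact fun m v s h1 h2 h3 => ⟨v, s, by rw [hg.hB, ← h1]; rfl, h2, h3⟩
  | succ n ih =>
    intro m v s h1 h2 h3
    have e0 : m + (n + 1) = m + 1 + n := by omega
    have e1 : ∀ j R o v c, mkN S.par S.hi g.bs (nrO g S j :: R) o v c = N2.cons (4 * j)
        (4 * get S.par j) (fLo S j) (fUp g j + fHi S j <<< 36) (get g.h j) (get g.h j <<< 44)
        (b3 g.bs j) o (mkN S.par S.hi g.bs R (o + b3 g.bs j)
          (v + (16 - get S.lo j + (get g.h j <<< b3 g.bs j) >>> 20))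
          (c + (get S.lo j + get g.h j <<< b3 g.bs j - get S.hi j))) := fun j R o v c => by
      show n20 _ _ _ _ o v c (44 * j / 44) _ _ _ = _
      rw [Nat.mul_div_cancel_left _ (by norm_num)]
      rfl
    have e2 : ovs g S m + (get S.lo (m + 1) + get g.h (m + 1) <<< b3 g.bs (m + 1) -
        get S.hi (m + 1)) = ovs g S (m + 1) := by
      rw [ovs, ovs, sum_Ico_succ_top (Nat.le_add_left 1 m), Nat.shiftLeft_eq]
    have e3 := ro_le g.bs S.par G (m + 1) n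
    have e4 : off g.bs (m + 1 + n + 1) = g.B := by rw [hg.hB, ← h1, e0]
    have e5 := ro_le g.bs S.par G 0 (m + 1 + n)
    rw [e0] at h3 ⊢
    rw [List.range'_succ, List.map_cons, e1, e2, ← X.off_succ]
    have h4 : v + (16 - get S.lo (m + 1) + (get g.h (m + 1) <<< b3 g.bs (m + 1)) >>> 20) = 0 →
        Nrw g S (m + 1) := fun e => by
      rw [Nat.shiftLeft_eq, Nat.shiftRight_eq_div_pow] at e
      exact Ico_top (h2 (by omega)) (by omega)
    generalize v + _ = v at h4 ⊢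
    rw [tN_cons, pair_eq]
    by_cases c : d4 G (m + 1) = d4 G (get S.par (m + 1))
    · have e7 : ro g.bs S.par G (m + 1) = ro g.bs S.par G m := if_pos c
      obtain ⟨v', s', g1, g2⟩ := ih (m + 1) v _ (by omega) h4 fun w a b => (h3 w a b).skip c
        (by omega) (by omega)
      refine ⟨v', s', Eq.trans ?_ g1, g2⟩
      rw [e7, c, Nat.xor_self, zero_mul, zero_mul]
      rfl
    · have e7 : ro g.bs S.par G (m + 1) = ro g.bs S.par G m + b3 g.bs (m + 1) := if_neg c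
      obtain ⟨p1, p2, p3⟩ := pair_ok (d4 G (m + 1)) (Nat.mod_lt _ (by norm_num))
        (d4 G (get S.par (m + 1))) (Nat.mod_lt _ (by norm_num)) c
      rw [p1]
      generalize _ * 16 * _ - 1 = z at p2 p3 ⊢
      obtain ⟨v', s', g1, g2⟩ := ih (m + 1) v _ (by omega) h4 fun w a b => (h3 w a b).act w c
        (by omega) (by have := hg.b16; rw [zero_add, ro] at e5; omega) (lt_of_le_of_lt
          (Nat.le_mul_of_pos_right _ (Nat.two_pow_pos _)) (a _ (by simp)).2) p2 p3 rfl rfl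
      refine ⟨v', s', Eq.trans ?_ g1, g2⟩
      rw [e7]

end Pool.Agent.MP_c853c5_nt.X
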