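import Pool.Agent.MP_c853c5_nt.X.Gt

/-!
The rows of a polytope on the small grid, for a table given with its leaf.
-/

set_option autoImplicit false

open Finset

namespace Pool.Agent.MP_c853c5_nt.X

open Pool.Agent.MP_c853c5_nt.S Pool.Agent.MP_c853c5_nt.REG Pool.Agent.MP_c853c5_nt.L Ln

variable {S : NS} {A : ℕ → Finset ℕ} {t : ℝ} {x : Ga} {w : ℕ → ℝ} {q : PQ} {g : Gr}

theorem tH_ok {τ : ℕ} (hτ : τ ≤ 30) (h : GX2 x S A w) {gd : NS → ℕ → ℕ → ℕ} {G C : ℕ} {K : ℕ → ℕ}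
    (hd : gd S G q.k = 0 → (∀ j < S.k, d4 G j < q.k) ∧ H true t S.k S.kind
      (fun a => Om S A a ∧ ∀ r < q.n, Pr S.k G (rowQ q.w q.R r) a) 0)
    (hl : tH gd q x S K τ G C < INF) : ∃ (N : Pt → Prop) (ν : ℕ → ℕ),
    tH gd q x S K τ G C = K (pk (2 ^ x.g.B) ν) ∧ (∀ (Ω : Pt → Prop) (l' : ℝ),
      (∀ a, Ω a → Om S A a) → H true t S.k S.kind (fun a => Ω a ∧ N a) l' →
      H true t S.k S.kind Ω (((0 : ℕ) : ℝ) / 10 ^ 9 + l')) ∧ ∀ c < 2 ^ x.g.B, ν c < 2 ^ 31 ∧
      MQ S (fun a => (Reg S A (fL x.g S c) (fH x.g S c) a ∧ idx x.g S (Y A a) = c) ∧ N a)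
        (ν c * w c) := by
  have hI := h.gx.hI
  have hg := h.gx.hg
  have k1 := hI.pos
  have k2 := hI.le
  have e0 : nX x S = mkN S.par S.hi x.g.bs ((List.range' (0 + 1) (S.k - 1)).map (nrO x.g S))
      (off x.g.bs (0 + 1)) 0 (ovs x.g S 0) := by
    rw [nX, h.gx.hR, ← List.map_tail, List.range_eq_range', List.tail_range',
      show off x.g.bs (0 + 1) = 0 from hg.b0]
    rfl
  obtain ⟨v, σ, e1, g1, g2⟩ := tN_ok (G := G) (C := C) (P := zQ q (d4 G 0)) hg (tE0 K q
    (zT x τ) τ (vQ q + zX x τ >>> 26 + gd S G q.k) C) (S.k - 1) 0 0 _ (by omega)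
    (fun _ _ c => by simp at c) fun w _ _ => StT.zero w hg G C _
  rw [← e0, zero_add] at e1
  rw [zero_add] at g1 g2
  rw [show tH gd q x S K τ G C = _ from e1] at hl ⊢
  simp only [TS.ap, tE0, tE1] at hl ⊢
  obtain ⟨u, d, e2, g3⟩ := tR_ok (g := x.g) (S := S) (A := A) (w := fun c => w c / 2 ^ τ)
    _ _ _ _ _ _ _ _ _ _ _ _ _ hl
  rw [e2] at hl ⊢
  obtain ⟨g4, e3⟩ := gz_lt hl
  rw [e3]
  clear e1 e2 e3 hl e0
  simp only [Nat.add_eq, Nat.add_eq_zero_iff, Nat.xor_eq, Nat.xor_eq_zero_iff, Nat.shiftRight_eq,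
    Nat.land_eq, Nat.sub_eq, Nat.shiftLeft_eq'] at g3 g4
  obtain ⟨⟨⟨⟨⟨v1, v2⟩, v3⟩, v4⟩, v5⟩, v6, v7⟩ := g4
  rw [Nat.shiftRight_eq_div_pow] at v2 v6
  have hq : okQ q = true ∧ 76 ≤ q.w := by
    rw [vQ, cnd_eq, Nat.sub_eq] at v1
    split_ifs at v1 with c
    exact ⟨c, by omega⟩
  have hw := hq.2
  have w4 : 44 ≤ q.w := by omega
  have hN := g1 v4
  obtain ⟨hP, hQ, hA, ⟨μ, hW, hμ⟩, ⟨us, ps, hU, hL⟩, l, -, l1, -, l2, l3, -⟩ := g2 hw hN v5.symm
  obtain ⟨d2, h3⟩ := hd v3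
  have m1 : ∀ {j}, j ∈ Ico 1 (S.k - 1 + 1) → 1 ≤ j ∧ j < S.k := fun h => by
    have := mem_Ico.1 h
    omega
  have a1 := fun r => sNeg_le (q := q) (par := S.par) (G := G) (m := S.k - 1) (r := r)
    (c := 16777232) (f := fLo S) (by omega) fun j _ => by
      have := get_lt S.lo j
      show get S.lo j - 16 ≤ _
      omega
  have a2 := fun r => sPos_le (q := q) (par := S.par) (G := G) (m := S.k - 1) (r := r)
    (c := 16777232) (f := fUp x.g) (by omega) fun j _ => Nat.add_le_add_right (get_lt _ j).le 16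
  have a3 := fun r => sPos_le (q := q) (par := S.par) (G := G) (m := S.k - 1) (r := r)
    (c := 16777232) (f := fHi S) (by omega) fun j _ => Nat.add_le_add_right (get_lt _ j).le 16
  have a4 := rowQ_lt q.w q.R
  have a5 := uQ_lt q (d4 G 0)
  have a6 : ∀ r, ∑ j ∈ Ico 1 (S.k - 1 + 1), xw q x.g S.par G r j < 2 ^ 30 := fun r =>
    (sum_le_card_nsmul _ _ _ (hμ r).2.1).trans_lt (by
      rw [Nat.card_Ico, smul_eq_mul]
      exact (Nat.mul_lt_mul'' (c := 16) (by omega) (hμ r).1).trans_eq (by norm_num))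
  obtain ⟨c1, c2⟩ := cut36 hw (a := fun r => sPos q S.par G (S.k - 1) r (fUp x.g))
    (b := fun r => sPos q S.par G (S.k - 1) r (fHi S)) (fun r => by have := a2 r; omega)
    fun r => by have := a3 r; omega
  obtain ⟨z, hz⟩ : ∃ z : (ℕ → ℕ) → ℕ → ℕ, ∀ f r, z f r = (rowQ q.w q.R r).2 + 8796093022208 -
    uQ q (d4 G 0) r * 1000000 + sNeg q S.par G (S.k - 1) r (fLo S) -
    sPos q S.par G (S.k - 1) r f := ⟨_, fun _ _ => rfl⟩
  have z1 : ∀ f r, z f r < 2 ^ 44 := fun f r => by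
    have := a1 r
    have := a4 r
    rw [hz]
    omega
  have z2 : ∀ f, (∀ r, sPos q S.par G (S.k - 1) r f ≤ 945 * 16777232) →
      σ.P - pw q.w (fun r => sPos q S.par G (S.k - 1) r f) q.n = pw q.w (z f) q.n := fun f hf => by
    rw [hP, zQ_eq w4, pw_add, pw_sub fun r _ => by have := hf r; have := a5 r; omega]
    exact pw_congr fun r _ => (hz f r).symm
  have e4 : mQ q ^^^ (pw q.w (z (fHi S)) q.n >>> 43 &&& mQ q) =
      pw q.w (fun r => if z (fHi S) r < 2 ^ 43 then 1 else 0) q.n := by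
    rw [mQ_eq w4, pw_mask (fun r _ => lt_w w4 (z1 _ r)) (by omega), pw_xor (by omega)
      (fun r _ => lt_w w4 (by omega)) fun r _ => lt_w w4 (by omega)]
    refine pw_congr fun r _ => ?_
    have := z1 (fHi S) r
    rw [Nat.shiftRight_eq_div_pow]
    split_ifs
    · rw [show z (fHi S) r / 2 ^ 43 % 2 = 0 by omega]
      rfl
    · rw [show z (fHi S) r / 2 ^ 43 % 2 = 1 by omega]
      rfl
  have e5 : (σ.W - tQ q) <<< 6 = pw q.w (fun r => 64 * μ r * 2 ^ 44) q.n := by
    rw [hW, pw_tQ hw, pw_sub fun r _ => Nat.le_add_right _ _, Nat.shiftLeft_eq, pw_mul]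
    exact pw_congr fun r _ => by omega
  rw [hQ, c1, c2, z2 _ a2, z2 _ a3, e4, e5, hA, pw_add, pw_add] at g3
  rw [hQ, c2, z2 _ a3, e4] at v7
  have b0 : ∀ r < q.n, (if z (fHi S) r < 2 ^ 43 then 1 else 0) < 2 ^ q.w := fun r _ =>
    lt_w w4 (by split_ifs <;> omega)
  have b1 : ∀ r < q.n, z (fHi S) r < 2 ^ 43 →
      (pw q.w (fun r => if z (fHi S) r < 2 ^ 43 then 1 else 0) q.n).testBit (q.w * r) = true :=
    fun r hr c => by
      rw [← add_zero (q.w * r), pw_bit b0 r (by omega), decide_eq_true hr, if_pos c]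
      rfl
  have hu := fun r (hr : r < q.n) j (hj : j < S.k) => okQ_ok w4 hq.1 hr (d2 j hj)
  obtain ⟨F, f1, -, f2⟩ := g3 (2 ^ C) l (fun i => fN S A (nrT x.g S G) (rowQ q.w q.R (i / q.w)).1
      (rowQ q.w q.R (i / q.w)).1 4096 16 (Nat.mul (dg (rowQ q.w q.R (i / q.w)).1
      (Nat.mul 12 (d4 G 0))) 1000000) (rowQ q.w q.R (i / q.w)).2) [] LB.nil fun i hi => by
    obtain ⟨r, hr, c, rfl⟩ : ∃ r < q.n, z (fHi S) r < 2 ^ 43 ∧ i = q.w * r := by
      rw [← Nat.div_add_mod i q.w, pw_bit b0 _ (Nat.mod_lt _ (by omega)), Bool.and_eq_true,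
        decide_eq_true_iff] at hi
      obtain ⟨hr, i1⟩ := hi
      split_ifs at i1 with c
      · exact ⟨_, hr, c, by
          rw [← Nat.div_add_mod i q.w, Nat.testBit_one_eq_true_iff_self_eq_zero.1 i1, add_zero,
            Nat.mul_div_cancel_left _ (by omega)]⟩
      · simp at i1
    rw [Nat.mul_div_cancel_left r (by omega), gT_pk, gO_eq]
    have μ0 : μ r ≠ 0 := fun e => by
      have := b1 r hr c
      rw [← v7, Nat.testBit_and, Nat.testBit_shiftRight, add_comm, hW,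
        show m4Q q = _ from pw_sh hw 44,
        pw_sub fun r _ => by omega, pw_bit (fun r _ => lt_w76 hw (by have := (hμ r).1; omega)) r
          (by omega), e, show (2 ^ 74 + 0 * 2 ^ 44 - 2 ^ 44 : ℕ).testBit 74 = false by decide] at this
      simp at this
    obtain ⟨j0, j1, j2⟩ := (hμ r).2.2.resolve_left μ0
    generalize hy : rowQ q.w q.R r = y
    have e : ∀ j ∈ Ico 1 (S.k - 1 + 1), dP y.1 y.1 4096 (nrT x.g S G j) =
        uQ q (d4 G j) r - uQ q (d4 G (get S.par j)) r ∧ dN y.1 y.1 4096 (nrT x.g S G j) =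
        uQ q (d4 G (get S.par j)) r - uQ q (d4 G j) r := fun j hj => by
      obtain ⟨j1, j2⟩ := m1 hj
      rw [← hu r hr j j2, ← hu r hr _ ((hI.par j j1 j2).trans j2), hy, nrT, if_neg (by omega)]
      exact ⟨rfl, rfl⟩
    have e0 : dP y.1 y.1 4096 (nrT x.g S G 0) = 0 ∧ dN y.1 y.1 4096 (nrT x.g S G 0) = 0 :=
      ⟨Nat.sub_self _, Nat.sub_self _⟩
    have ex : ∀ j ∈ Ico 1 (S.k - 1 + 1), (dN y.1 y.1 4096 (nrT x.g S G j) +
        dP y.1 y.1 4096 (nrT x.g S G j)) * get x.g.h j = xw q x.g S.par G r j := fun j hj => by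
      rw [(e j hj).1, (e j hj).2, add_comm, xw]
    have x1 : ∀ c, ∀ j ∈ Ico 1 (S.k - 1 + 1), hY x.g S.par G c j + get x.g.h j ≤
        get x.g.h j * 2 ^ b3 x.g.bs j := fun c j _ =>
      (Nat.mul_succ _ _).ge.trans (Nat.mul_le_mul_left _ (Nat.mod_lt _ (Nat.two_pow_pos _)))
    have u1 := fun a => uQ_lt q a r
    have b2 := a1 r
    have b3 := a2 r
    have b4 := a3 r
    have b5 := a5 r
    have b6 := hz (fHi S) r
    have b7 := hz (fUp x.g) r
    refine rowR h (m := μ r) (us := us) (ps := ps r)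
      (po := fun c => sPos q S.par G (S.k - 1) r (hY x.g S.par G c))
      (ng := fun c => sNeg q S.par G (S.k - 1) r (hY x.g S.par G c))
      (u := fun j => dP y.1 y.1 4096 (nrT x.g S G j)) (v := fun j => dN y.1 y.1 4096 (nrT x.g S G j))
      (κ := y.2 - uQ q (d4 G 0) r * 1000000 - 16 * ∑ j ∈ range S.k,
        ((dP y.1 y.1 4096 (nrT x.g S G j) : ℝ) + dN y.1 y.1 4096 (nrT x.g S G j)) - 1) hτ (by omega)
      (cut44 hw (k := 32) le_rfl (z1 _) (fun r => by have := (hμ r).1; omega) hr).1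
      (cut44 hw (k := 32) le_rfl (z1 _) (fun r => by have := (hμ r).1; omega) hr).2
      (cut44 hw (k := 30) (by norm_num) (z1 _) a6 hr).1
      (cut44 hw (k := 30) (by norm_num) (z1 _) a6 hr).2
      (by rw [hU, Nat.shiftLeft_eq, mul_comm]) (hL r hr).1 (hL r hr).2 (fun c => ?_) (fun c => ?_)
      (fun j => by unfold dP dN; omega) (sum_k k1 (by rw [e0.1, e0.2, add_zero, zero_mul]) ex).symm
      (lt_of_lt_of_le (by omega) (single_le_sum (fun _ _ => Nat.zero_le _) j1))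
      ⟨j0, (m1 j1).2, j2.trans (ex _ j1).symm⟩ (fun j hj => ?_) (fun c => ?_)
      ((Lip.sum _ fun j hj => (lip_Y hI (mem_range.1 hj)).mul _).sub (Lip.const _ _)) fun a ha => ?_
    · have g5 : sPos q S.par G (S.k - 1) r (fHi S) + sNeg q S.par G (S.k - 1) r (hY x.g S.par G c) ≤
          sPos q S.par G (S.k - 1) r (fUp x.g) + ∑ j ∈ Ico 1 (S.k - 1 + 1), 63 * 1048576 := by
        rw [sPos, sPos, sNeg, ← sum_add_distrib, ← sum_add_distrib]
        refine sum_le_sum fun j hj => ?_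
        have g6 := x1 c j hj
        have g7 := (hN j hj).2
        have g8 := hg.cov j (m1 hj).1 (m1 hj).2
        have g9 := Nat.mul_le_mul_left (uQ q (d4 G j) r - uQ q (d4 G (get S.par j)) r)
          (show fHi S j ≤ fUp x.g j + 1048576 by
            show get S.hi j + 16 ≤ get x.g.up j + 16 + _
            rw [hg.up j (m1 hj).1 (m1 hj).2]
            omega)
        have := Nat.mul_le_mul_left (uQ q (d4 G (get S.par j)) r - uQ q (d4 G j) r)
          (show hY x.g S.par G c j ≤ 1048576 by omega)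
        have := u1 (d4 G j)
        have := u1 (d4 G (get S.par j))
        rw [mul_add] at g9
        omega
      rw [sum_const, Nat.card_Ico, smul_eq_mul] at g5
      have := a6 r
      omega
    · have g5 : sPos q S.par G (S.k - 1) r (hY x.g S.par G c) + sPos q S.par G (S.k - 1) r (fUp x.g) ≤
          63 * ovs x.g S (S.k - 1) + sPos q S.par G (S.k - 1) r (fHi S) := by
        rw [sPos, sPos, sPos, ovs, mul_sum, ← sum_add_distrib, ← sum_add_distrib]
        refine sum_le_sum fun j hj => ?_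
        have g6 := x1 c j hj
        rw [← mul_add]
        refine (Nat.mul_le_mul_left _ (show _ ≤ get S.lo j + get x.g.h j * 2 ^ X.b3 x.g.bs j -
          get S.hi j + fHi S j from ?_)).trans ((mul_add _ _ _).trans_le (Nat.add_le_add_right
          (Nat.mul_le_mul_right _ (by have := u1 (d4 G j); omega)) _))
        show _ + (get x.g.up j + 16) ≤ _ + (get S.hi j + 16)
        rw [hg.up j (m1 hj).1 (m1 hj).2]
        omega
      omega
    · rcases Nat.eq_zero_or_pos j with rfl | j3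
      · rw [e0.1, e0.2, add_zero, zero_mul]
        exact Nat.zero_le _
      · have j4 : j ∈ Ico 1 (S.k - 1 + 1) := mem_Ico.2 ⟨j3, by omega⟩
        exact (ex j j4).trans_le ((hμ r).2.1 j j4)
    · have g5 : ((z (fUp x.g) r + uQ q (d4 G 0) r * 1000000 + sPos q S.par G (S.k - 1) r (fUp x.g) :
          ℕ) : ℝ) = (y.2 + 8796093022208 + sNeg q S.par G (S.k - 1) r (fLo S) : ℕ) := by
        rw [← hy, Nat.cast_inj]
        omega
      have g6 := sum_k (M := ℝ) k1 (f := fun j => (dP y.1 y.1 4096 (nrT x.g S G j) : ℝ) *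
          get x.g.up j - dN y.1 y.1 4096 (nrT x.g S G j) * get S.lo j +
          (dP y.1 y.1 4096 (nrT x.g S G j) - dN y.1 y.1 4096 (nrT x.g S G j)) *
          (get x.g.h j * cx x.g.bs j c) + 16 * (dP y.1 y.1 4096 (nrT x.g S G j) +
          dN y.1 y.1 4096 (nrT x.g S G j)))
        (f' := fun j => ((uQ q (d4 G j) r - uQ q (d4 G (get S.par j)) r) * fUp x.g j : ℕ) +
          ((uQ q (d4 G j) r - uQ q (d4 G (get S.par j)) r) * hY x.g S.par G (l c) j : ℕ) -
          ((uQ q (d4 G (get S.par j)) r - uQ q (d4 G j) r) * fLo S j : ℕ) -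
          ((uQ q (d4 G (get S.par j)) r - uQ q (d4 G j) r) * hY x.g S.par G (l c) j : ℕ))
        (by simp [e0]) fun j hj => by
          rw [(e j hj).1, (e j hj).2]
          by_cases d : d4 G j = d4 G (get S.par j)
          · simp [d]
          have g7 := l2 j hj d c 0
          rw [mul_zero, add_zero] at g7
          rw [g7, ← show fLo S j + 16 = get S.lo j from Nat.sub_add_cancel (hN j hj).1,
            show fUp x.g j = get x.g.up j + 16 from rfl, hX]
          simp only [Nat.cast_mul, Nat.cast_add, Nat.cast_ofNat]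
          ring
      rw [sum_add_distrib, ← mul_sum, sum_sub_distrib, sum_sub_distrib,
        sum_add_distrib (s := Ico _ _),
        ← Nat.cast_sum, ← Nat.cast_sum, ← Nat.cast_sum, ← Nat.cast_sum] at g6
      simp only [Nat.cast_add, Nat.cast_mul, Nat.cast_ofNat] at g5 ⊢
      rw [sPos, sNeg] at *
      linarith
    · rw [fN, show dg y.1 (Nat.mul 12 (d4 G 0)) = uQ q (d4 G 0) r from hy ▸ hu r hr 0 k1,
        Nat.mul_eq] at ha
      push_cast at ha
      linear_combination ha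
  have d3 : d < 2 ^ 31 := by omega
  have e6 : off x.g.bs (S.k - 1 + 1) = x.g.B := by rw [hg.hB, Nat.sub_add_cancel k1]
  rw [v5] at l1 l3
  rw [gO_eq]
  obtain ⟨N, ν, e7, h5⟩ := (f1.la (E := σ.E x.g.B) d3 hτ h.w0 (fun c _ => l1 c) fun f hf => by
    rw [l3 f hf, e6, Nat.sub_self, add_zero]
    exact pk_congr fun c hc => by rw [Nat.div_eq_of_lt hc, mul_zero, add_zero]).item d3 hI
      (h3.anti fun a ha => ⟨ha.1, fun r hr => by
    by_cases c : z (fHi S) r < 2 ^ 43
    · have := ha.2 _ (f2 _ (b1 r hr c))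
      rw [Nat.mul_div_cancel_left _ (by omega)] at this
      exact fN_pr hI G _ this
    refine pr_of (lo := fLo S) (hi := fHi S) hI (hu r hr) (fun j hj => ?_) ?_
    · obtain ⟨j1, j2⟩ := mem_Ico.1 hj
      rw [show fLo S j + 16 = get S.lo j from Nat.sub_add_cancel (hN j (mem_Ico.2 ⟨j1, by omega⟩)).1,
        show fHi S j = get S.hi j + 16 from rfl, Nat.cast_add, add_div, Nat.cast_ofNat]
      exact ⟨(ha.1.1 j j2).1, add_le_add_left (ha.1.1 j j2).2 _⟩
    · have := a5 r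
      rw [hz] at c
      omega⟩)
  exact ⟨N, ν, by rw [← e7], h5⟩

end Pool.Agent.MP_c853c5_nt.X
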