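import Pool.Agent.MP_c853c5_nt.X.LSD
import Pool.Agent.MP_c853c5_nt.X.UP

/-!
Soundness of the rows of a claim on small primes.
-/

set_option autoImplicit false

open Finset

namespace Pool.Agent.MP_c853c5_nt.X

open Pool.Agent.MP_c853c5_nt.S Pool.Agent.MP_c853c5_nt.REG Pool.Agent.MP_c853c5_nt.Y

variable {S : NS} {A : ℕ → Finset ℕ} {t : ℝ} {tn : ℕ}

/-- the claim for an arbitrary system -/
def PD.HoldG (Z : Sys) (tn : ℕ) (x : PD) : Prop := ∀ (r : ℕ) (B : Fin r → Blk) (G : Fin r → ℕ)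
  (z : ℝ), (∀ j, G j < x.m) → z ≤ (x.z : ℝ) / SC →
  (x.p = true → ∃ i, (B i).IsP ∧ 0 < (B i).lo) →
  (∀ w, InBox B w → ∑ j, w j ≤ 1 → ∀ n < x.m,
    (get x.lo n : ℝ) / SC ≤ asum G w n ∧ asum G w n ≤ (get x.hi n : ℝ) / SC) →
  DustOKG Z ((tn : ℝ) / SC) B z

theorem PD.Hold.toG {x : PD} (h : x.Hold tn) (h1 : 1 / 3 ≤ (tn : ℝ) / SC) : x.HoldG sys0 tn :=
  fun _ _ G _ hG hz hp hw => DOK.dustOK h1 hp
    ((h _ G hG).mono id hz fun w c hs => ⟨fun j => (c j).1, hw w c hs⟩)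

lemma grpR_ok (hI : Inv S A) (X l h : ℕ) {L : List Rw} (hL : ∀ r ∈ L, r.In S.k) :
    ∃ M : List Rw, (∀ K, grpR S X l h L K = K M) ∧ (∀ r ∈ M, r.In S.k) ∧
      ∀ a, (∀ r ∈ M, r.ok (Y A a)) → (∀ r ∈ L, r.ok (Y A a)) ∧ ∀ b : Pt,
        (∀ j < S.k, 0 ≤ b j ∧ a j - un ≤ b j ∧ b j ≤ a j + un) → ms S.k X b ≤ 1 →
        (l : ℝ) / SC ≤ ms S.k X b ∧ ms S.k X b ≤ (h : ℝ) / SC := by
  have near : ∀ a b : Pt, (∀ j < S.k, 0 ≤ b j ∧ a j - un ≤ b j ∧ b j ≤ a j + un) →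
      |ms S.k X a - ms S.k X b| ≤ ((cnd (Nat.beq X 0) 0 16 : ℕ) : ℝ) / SC := fun a b hb => by
    rw [cnd_eq]
    split_ifs with c
    · simp [Nat.eq_of_beq_eq_true c, ms_zero]
    rw [ms, ms, ← sum_sub_distrib]
    refine (abs_sum_le_sum_abs _ _).trans ((sum_le_card_nsmul _ _ un fun j hj => ?_).trans ?_)
    · have := hb j (mem_range.1 (mem_filter.1 hj).1)
      exact abs_le.2 ⟨by linarith [this.2.2], by linarith [this.2.1]⟩
    · have : (((range S.k).filter fun i => bit X i = true).card : ℝ) ≤ 16 := by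
        exact_mod_cast (card_filter_le _ _).trans ((card_range _).le.trans hI.le)
      rw [nsmul_eq_mul, un_eq_SndL, SC_eq_SndL]
      push_cast
      linarith
  have up : ∀ a b : Pt, (∀ j < S.k, 0 ≤ b j ∧ a j - un ≤ b j ∧ b j ≤ a j + un) →
      ms S.k X b ≤ 1 → (rowOf S.par S.k X 0 (cnd (Nat.beq X 0) 0 16)
        (cnd (Nat.ble 1000000 h) 16000000 h)).ok (Y A a) → ms S.k X b ≤ (h : ℝ) / SC :=
    fun a b hb h1 g => by
      rw [rowOf_iff hI, ms_zero, cnd_eq (Nat.ble _ _)] at g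
      split_ifs at g with c
      · exact h1.trans ((one_le_div SC_pos).2 (by exact_mod_cast Nat.le_of_ble_eq_true c))
      · linarith [(abs_le.1 (near a b hb)).1]
  have i1 : ∀ r ∈ rowOf S.par S.k X 0 (cnd (Nat.beq X 0) 0 16)
      (cnd (Nat.ble 1000000 h) 16000000 h) :: L, r.In S.k :=
    List.forall_mem_cons.2 ⟨rowOf_lt .., hL⟩
  simp only [grpR, force_eq, addRow_eq, cnd_eq (Nat.beq l 0)]
  split_ifs with c
  · refine ⟨_, fun _ => rfl, i1, fun a g => ⟨(List.forall_mem_cons.1 g).2, fun b hb h1 =>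
      ⟨?_, up a b hb h1 (g _ List.mem_cons_self)⟩⟩⟩
    rw [Nat.eq_of_beq_eq_true c, Nat.cast_zero, zero_div]
    exact sum_nonneg fun j hj => (hb j (mem_range.1 (mem_filter.1 hj).1)).1
  · refine ⟨_, fun _ => rfl, List.forall_mem_cons.2 ⟨rowOf_lt .., i1⟩, fun a g => ?_⟩
    simp only [List.forall_mem_cons] at g
    refine ⟨g.2.2, fun b hb h1 => ⟨?_, up a b hb h1 g.2.1⟩⟩
    have := g.1
    rw [rowOf_iff hI, ms_zero, Nat.add_eq, Nat.cast_add, add_div, Nat.cast_zero, zero_div] at this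
    linarith [(abs_le.1 (near a b hb)).2]

theorem lsP_ok {Z : Sys} (h1 : 1 / 3 ≤ t) (h2 : t < (tn : ℝ) / SC) (h4 : 2 * tn ≤ SC)
    (cut : CutStmt2) (hL : LeafSG Z) {PS : BT PD} (hx : PS.All (PD.HoldG Z tn)) :
    Prok t (lsP PS) := fun sg S A s K hI hl => by
  have h3 : (2 : ℝ) * tn ≤ SC := by exact_mod_cast h4
  simp only [lsP, force_eq] at hl ⊢
  have hx := hx.find (Nat.mod s 65536)
  generalize PS.find _ = x at *
  generalize Nat.mod (Nat.shiftRight s 16) 16 = i at *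
  generalize Nat.mod (Nat.shiftRight s 20) _ = X at *
  obtain ⟨g, e⟩ := grd_lt hl
  rw [e] at hl ⊢
  simp only [band_eq, bor_eq, bnot_eq, Bool.and_eq_true, Bool.or_eq_true, Nat.blt_eq, Nat.beq_eq,
    Bool.not_eq_true'] at g
  obtain ⟨⟨hi, h0, hX⟩, hm, hP⟩ := g
  obtain ⟨L, e1, i1, a1⟩ := lkR_ok hI (by simp) hl
  obtain ⟨M, e2, i2, a2⟩ := grpR_ok hI X (get x.lo 0) (get x.hi 0) i1
  obtain ⟨N, e3, i3, a3⟩ := grpR_ok hI (Nat.xor (Nat.pred (one S.k)) (Nat.lor X (one i)))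
    (get x.lo 1) (get x.hi 1) i2
  rw [e1, e2, e3]
  refine ⟨N, _, rfl, i3, ?_⟩
  obtain ⟨r, hr⟩ : ∃ r, S.k = r + 1 := ⟨S.k - 1, by omega⟩
  have hv := hI.kv
  have hb : ∀ j < S.k, bit (Nat.xor (Nat.pred (one S.k)) (Nat.lor X (one i))) j =
      !(bit X j || decide (j = i)) := fun j hj => by
    rw [bit_eq, bit_eq, one_eq, one_eq, Nat.xor_eq, Nat.lor_eq, Nat.testBit_xor, Nat.testBit_or,
      Nat.pred_eq_sub_one, Nat.testBit_two_pow_sub_one, Nat.testBit_two_pow]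
    simp [hj, eq_comm]
  rw [hr] at hv ⊢
  refine xLeafSG cut hL h1 h2 ((div_le_iff₀ SC_pos).2 (by linarith)) (by omega) hv (kind_ne_P h0)
    fun B a z ha h50 _ hc _ hz => ?_
  obtain ⟨b1, b2⟩ := a3 a ha.2
  obtain ⟨b3, b4⟩ := a2 a b1
  have u := un_eq_SndL
  refine hx r B (fun j => if bit X (sk i j) = true then 0 else 1) z
    (fun j => by split_ifs <;> omega) ((a1 a b3).2 i hi rfl h0 z hz) (fun hp => ?_)
    fun w hw hs n hn => ?_
  · obtain ⟨p, hp1, hp0⟩ := hasP_ok (hP.resolve_left (by simp [hp]))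
    obtain ⟨j, hj, rfl⟩ := sk_surj_SndL (i := i) (by omega) (hr ▸ hp1) (by
      rintro rfl
      omega)
    exact ⟨⟨j, hj⟩, (hc ⟨j, hj⟩).2.2.2 (kind_P hp0),
      by linarith [(hc ⟨j, hj⟩).1, h50 _ (sk_lt_SndL (i := i) hj)]⟩
  obtain ⟨b, c1, c2⟩ := ext_SndL i w (a i)
  have nb : ∀ m < S.k, 0 ≤ b m ∧ a m - un ≤ b m ∧ b m ≤ a m + un := fun m hm => by
    by_cases e : m = i
    · rw [e, c1]
      have := h50 i (hr ▸ hi)
      exact ⟨by linarith, by linarith, by linarith⟩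
    · obtain ⟨j, hj, rfl⟩ := sk_surj_SndL (i := i) (by omega) (hr ▸ hm) e
      rw [c2 ⟨j, hj⟩]
      exact ⟨(hw _).1, (hc ⟨j, hj⟩).1.trans (hw _).2.1, (hw _).2.2.trans (hc ⟨j, hj⟩).2.1⟩
  have le1 : asum (fun j : Fin r => if bit X (sk i j) = true then 0 else 1) w n ≤ 1 :=
    (sum_le_sum_of_subset_of_nonneg (filter_subset _ _) fun j _ _ => (hw j).1).trans hs
  have key : ∀ X', bit X' i = false → (∀ j : Fin r, bit X' (sk i j) = true ↔
      (if bit X (sk i j) = true then 0 else 1) = n) → ms S.k X' b =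
      asum (fun j : Fin r => if bit X (sk i j) = true then 0 else 1) w n := fun X' d1 d2 => by
    rw [ms, sum_filter, hr, sum_sk_U (i := i) (by omega), asum, sum_filter]
    simp only [d1, d2, c2, Bool.false_eq_true, if_false, add_zero]
  obtain rfl | rfl : n = 0 ∨ n = 1 := by omega
  · rw [← key X hX fun j => by simp] at le1 ⊢
    exact b4 b nb le1
  · rw [← key _ ((hb i hi).trans (by simp)) fun j => by
      rw [hb _ (hr ▸ sk_lt_SndL j.2)]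
      simp [sk_ne_SndL]] at le1 ⊢
    exact b2 b nb le1

theorem lsP0_ok (h1 : 1 / 3 ≤ t) (h2 : t < (tn : ℝ) / SC) (h4 : 2 * tn ≤ SC) (cut : CutStmt2)
    (hL : LeafS) {PS : BT PD} (hx : PS.All (PD.Hold tn)) : Prok t (lsP PS) := by
  refine lsP_ok (Z := sys0) h1 h2 h4 cut hL ?_
  induction PS with
  | lf x => exact PD.Hold.toG hx (h1.trans h2.le)
  | nd _ _ _ i1 i2 => exact ⟨i1 hx.1, i2 hx.2⟩

end Pool.Agent.MP_c853c5_nt.X
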