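import Mathlib

/-!
From upper Riemann sums to closed forms: trapezoids and volumes of boxes cut by a half space.
-/

set_option autoImplicit false

open Filter Topology

namespace Pool.Agent.MP_c853c5_nt.X

/-- a subadditive bound on intervals -/
structure Sub1 (P : ℝ → ℝ → ℝ → Prop) : Prop where
  split : ∀ l c h m m', l ≤ c → c ≤ h → P l c m → P c h m' → P l h (m + m')
  mono : ∀ l h m m', m ≤ m' → P l h m → P l h m'
  closed : ∀ l h m, (∀ ε, 0 < ε → P l h (m + ε)) → P l h m

variable {P : ℝ → ℝ → ℝ → Prop} {L H : ℝ}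

lemma Sub1.bisect (hP : Sub1 P) {T : ℝ → ℝ → ℝ} {δ : ℝ} (hδ : 0 < δ) (hL : L ≤ H)
    (hT : ∀ l h, L ≤ l → l ≤ h → h ≤ H → T l ((l + h) / 2) + T ((l + h) / 2) h ≤ T l h)
    (h0 : ∀ l h, L ≤ l → l ≤ h → h ≤ H → h - l ≤ δ → P l h (T l h)) : P L H (T L H) := by
  have key : ∀ n : ℕ, ∀ l h, L ≤ l → l ≤ h → h ≤ H → h - l ≤ 2 ^ n * δ → P l h (T l h) := by
    intro n
    induction n with
    | zero => simpa using h0
    | succ n ih =>
      intro l h h1 h2 h3 h4
      rw [pow_succ] at h4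
      exact hP.mono _ _ _ _ (hT l h h1 h2 h3) (hP.split l _ h _ _ (by linarith) (by linarith)
        (ih _ _ h1 (by linarith) (by linarith) (by linarith))
        (ih _ _ (by linarith) (by linarith) h3 (by linarith)))
  obtain ⟨n, hn⟩ := pow_unbounded_of_one_lt ((H - L) / δ) (one_lt_two (α := ℝ))
  exact key n L H le_rfl hL le_rfl ((div_lt_iff₀ hδ).1 hn).le

lemma Sub1.lim (hP : Sub1 P) {f : ℝ → ℝ} (hf : Continuous f) (h : ∀ δ, 0 < δ → P L H (f δ)) :
    P L H (f 0) := by
  refine hP.closed _ _ _ fun ε hε => ?_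
  have h1 : ∀ᶠ δ in 𝓝[>] (0 : ℝ), f δ < f 0 + ε :=
    ((hf.tendsto 0).eventually (gt_mem_nhds (by linarith))).filter_mono nhdsWithin_le_nhds
  obtain ⟨δ, h2, h3⟩ := (h1.and self_mem_nhdsWithin).exists
  exact hP.mono _ _ _ _ h2.le (h δ h3)

/-- the weight of an interval -/
noncomputable def gw (s p L H l h : ℝ) : ℝ := Real.exp (-(s * (l - L)) - p * (H - h))

lemma gw_le {s p l h δ : ℝ} (hs : 0 ≤ s) (hp : 0 ≤ p) (h1 : l ≤ h) (h2 : h - l ≤ δ) :
    gw s p L H l h ≤ Real.exp ((s + p) * δ) * gw s p L H l l ∧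
      gw s p L H l h ≤ Real.exp ((s + p) * δ) * gw s p L H h h := by
  unfold gw
  rw [← Real.exp_add, ← Real.exp_add]
  constructor <;> refine Real.exp_le_exp.2 ?_ <;>
    nlinarith [mul_le_mul_of_nonneg_left h2 hs, mul_le_mul_of_nonneg_left h2 hp,
      mul_nonneg hs (sub_nonneg.2 h1), mul_nonneg hp (sub_nonneg.2 h1)]

lemma gw_mid (s p l h : ℝ) :
    2 * gw s p L H ((l + h) / 2) ((l + h) / 2) ≤ gw s p L H l l + gw s p L H h h := by
  have := convexOn_exp.2 (Set.mem_univ (-(s * (l - L)) - p * (H - l)))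
    (Set.mem_univ (-(s * (h - L)) - p * (H - h))) (show (0 : ℝ) ≤ 1 / 2 by norm_num)
    (show (0 : ℝ) ≤ 1 / 2 by norm_num) (by norm_num)
  simp only [smul_eq_mul] at this
  unfold gw
  rw [show -(s * ((l + h) / 2 - L)) - p * (H - (l + h) / 2) =
    1 / 2 * (-(s * (l - L)) - p * (H - l)) + 1 / 2 * (-(s * (h - L)) - p * (H - h)) by ring]
  linarith

lemma gw_max {s p l : ℝ} (h1 : L ≤ l) (h2 : l ≤ H) :
    gw s p L H l l ≤ max (gw s p L H L L) (gw s p L H H H) := by
  unfold gw
  rcases le_total s p with e | e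
  · refine le_max_of_le_right (Real.exp_le_exp.2 ?_)
    nlinarith [mul_nonneg (sub_nonneg.2 e) (sub_nonneg.2 h2)]
  · refine le_max_of_le_left (Real.exp_le_exp.2 ?_)
    nlinarith [mul_nonneg (sub_nonneg.2 e) (sub_nonneg.2 h1)]

/-- the trapezoidal rule -/
lemma Sub1.trap (hP : Sub1 P) {K s p : ℝ} (hK : 0 ≤ K) (hs : 0 ≤ s) (hp : 0 ≤ p) (hL : L ≤ H)
    (h0 : ∀ l h, L ≤ l → l ≤ h → h ≤ H → P l h (K * ((h - l) * gw s p L H l h))) :
    P L H (K * ((H - L) * (gw s p L H L L + gw s p L H H H) / 2)) := by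
  have := hP.lim (L := L) (H := H) (f := fun δ => Real.exp ((s + p) * δ) *
    (K * ((H - L) * (gw s p L H L L + gw s p L H H H) / 2))) (by fun_prop) fun δ hδ =>
    hP.bisect (T := fun l h => Real.exp ((s + p) * δ) *
      (K * ((h - l) * (gw s p L H l l + gw s p L H h h) / 2))) hδ hL
      (fun l h _ h2 _ => ?_) fun l h h1 h2 h3 h4 => hP.mono _ _ _ _ ?_ (h0 l h h1 h2 h3)
  · simpa using this
  · rw [← mul_add, ← mul_add]
    refine mul_le_mul_of_nonneg_left (mul_le_mul_of_nonneg_left ?_ hK) (Real.exp_pos _).le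
    nlinarith [mul_le_mul_of_nonneg_left (gw_mid (L := L) (H := H) s p l h) (sub_nonneg.2 h2)]
  · obtain ⟨g1, g2⟩ := gw_le (L := L) (H := H) hs hp h2 h4
    rw [mul_left_comm (Real.exp _)]
    refine mul_le_mul_of_nonneg_left ?_ hK
    nlinarith [mul_le_mul_of_nonneg_left (add_le_add g1 g2) (sub_nonneg.2 h2)]

/-! ### truncated powers -/

/-- `σ ^ m / m!` for `σ ≥ 0`, zero otherwise -/
noncomputable def tp : ℕ → ℝ → ℝ
  | 0, σ => if 0 ≤ σ then 1 else 0
  | m + 1, σ => max σ 0 ^ (m + 1) / (m + 1).factorial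

lemma tp_deriv (m : ℕ) (σ : ℝ) : HasDerivAt (tp (m + 2)) (tp (m + 1) σ) σ := by
  have e : tp (m + 2) = fun σ : ℝ => max σ 0 ^ (m + 2) / ((m + 2).factorial : ℝ) := rfl
  have h1 : ∀ z : ℝ, HasDerivAt (fun σ : ℝ => σ ^ (m + 2) / ((m + 2).factorial : ℝ))
      (z ^ (m + 1) / (m + 1).factorial) z := fun z => by
    refine ((hasDerivAt_pow (m + 2) z).div_const ((m + 2).factorial : ℝ)).congr_deriv ?_
    rw [Nat.factorial_succ (m + 1), show m + 2 - 1 = m + 1 from rfl]
    push_cast
    have : ((m + 1).factorial : ℝ) ≠ 0 := by positivity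
    field_simp
    ring
  rw [e, tp]
  rcases lt_trichotomy σ 0 with h | rfl | h
  · rw [max_eq_right h.le, zero_pow (by omega), zero_div]
    refine (hasDerivAt_const σ (0 : ℝ)).congr_of_eventuallyEq ?_
    filter_upwards [gt_mem_nhds h] with z hz
    rw [max_eq_right hz.le, zero_pow (by omega), zero_div]
  · rw [max_self, ← hasDerivWithinAt_univ, ← Set.Iic_union_Ici (a := (0 : ℝ))]
    refine HasDerivWithinAt.union ?_ ((h1 0).hasDerivWithinAt.congr (fun z hz => ?_) (by simp))
    · rw [zero_pow (by omega), zero_div]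
      refine (hasDerivAt_const (0 : ℝ) (0 : ℝ)).hasDerivWithinAt.congr (fun z hz => ?_) (by simp)
      rw [max_eq_right hz, zero_pow (by omega), zero_div]
    · rw [max_eq_left hz]
  · rw [max_eq_left h.le]
    refine (h1 σ).congr_of_eventuallyEq ?_
    filter_upwards [lt_mem_nhds h] with z hz
    rw [max_eq_left hz.le]

/-- iterated differences -/
noncomputable def dif : List ℝ → (ℝ → ℝ) → ℝ → ℝ
  | [], f, σ => f σ
  | x :: D, f, σ => dif D f σ - dif D f (σ - x)

lemma dif_deriv {f f' : ℝ → ℝ} (h : ∀ σ, HasDerivAt f (f' σ) σ) (D : List ℝ) :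
    ∀ σ, HasDerivAt (dif D f) (dif D f' σ) σ := by
  induction D with
  | nil => exact h
  | cons x D ih => exact fun σ => (ih σ).sub ((ih (σ - x)).comp_sub_const σ x)

lemma tp_zero_mono : Monotone (tp 0) := fun a b h => by
  simp only [tp]
  split_ifs with h1 h2 <;> first | rfl | norm_num
  exact h2 (h1.trans h)

lemma tp_mono : ∀ m, Monotone (tp m)
  | 0 => tp_zero_mono
  | m + 1 => fun a b h => by
    simp only [tp]
    gcongr

lemma dif_mono' (D : List ℝ) (hD : ∀ x ∈ D, 0 ≤ x) :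
    ∀ m, D.length ≤ m → Monotone (dif D (tp m)) := by
  induction D with
  | nil => exact fun m _ => tp_mono m
  | cons x D ih =>
    intro m hm
    have h0 := hD x (by simp)
    have h1 := ih fun y hy => hD y (by simp [hy])
    rw [List.length_cons] at hm
    match m, hm with
    | 1, hm =>
      obtain rfl : D = [] := List.length_eq_zero_iff.1 (by omega)
      intro a b h
      simp only [dif, tp, zero_add, pow_one, Nat.factorial_one, Nat.cast_one, div_one, max_def]
      split_ifs <;> linarith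
    | m + 2, hm =>
      have h2 := dif_deriv (tp_deriv m) (x :: D)
      refine monotone_of_deriv_nonneg (fun σ => (h2 σ).differentiableAt) fun σ => ?_
      exact (sub_nonneg.2 (h1 (m + 1) (by omega) (by linarith))).trans_eq (h2 σ).deriv.symm

lemma dif_mono (D : List ℝ) (hD : ∀ x ∈ D, 0 ≤ x) : Monotone (dif D (tp D.length)) :=
  dif_mono' D hD _ le_rfl

lemma dif_nonneg (D : List ℝ) (hD : ∀ x ∈ D, 0 ≤ x) (σ : ℝ) : 0 ≤ dif D (tp D.length) σ := by
  have z : ∀ (E : List ℝ) (m : ℕ) (σ : ℝ), (∀ x ∈ E, 0 ≤ x) → σ < 0 → dif E (tp m) σ = 0 := by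
    intro E m
    induction E with
    | nil =>
      intro σ _ h
      cases m with
      | zero => exact if_neg h.not_ge
      | succ m => simp [dif, tp, max_eq_right h.le]
    | cons x E ih =>
      intro σ h1 h
      rw [dif, ih _ (fun y hy => h1 y (by simp [hy])) h,
        ih _ (fun y hy => h1 y (by simp [hy])) (by linarith [h1 x (by simp)]), sub_zero]
  exact (z D _ (min σ (-1)) hD (by simp)).ge.trans (dif_mono D hD (min_le_left _ _))

lemma dif_step (D : List ℝ) (hD : ∀ x ∈ D, 0 ≤ x) (σ : ℝ) {x : ℝ} (hx : 0 ≤ x) :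
    x * dif D (tp D.length) (σ - x) ≤
      dif D (tp (D.length + 1)) σ - dif D (tp (D.length + 1)) (σ - x) := by
  cases D with
  | nil =>
    simp only [dif, List.length_nil, tp, zero_add, pow_one, Nat.factorial_one,
      Nat.cast_one, div_one, max_def]
    split_ifs <;> linarith
  | cons y D =>
    rcases hx.eq_or_lt with rfl | hx
    · simp
    have h2 := dif_deriv (tp_deriv D.length) (y :: D)
    obtain ⟨c, hc, e⟩ := exists_hasDerivAt_eq_slope _ _ (show σ - x < σ by linarith)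
      (fun z _ => (h2 z).continuousAt.continuousWithinAt) fun z _ => h2 z
    have := dif_mono _ hD hc.1.le
    rw [sub_sub_cancel, eq_div_iff hx.ne'] at e
    simp only [List.length_cons] at this ⊢
    rw [← e, mul_comm]
    exact mul_le_mul_of_nonneg_right this hx.le

/-- one more variable of the row; `u l - v h` with `u v = 0` is its least value on `[l, h]` -/
lemma Sub1.row (hP : Sub1 P) {K s p σ u v : ℝ} {D : List ℝ} (hD : ∀ x ∈ D, 0 ≤ x) (hK : 0 ≤ K)
    (hs : 0 ≤ s) (hp : 0 ≤ p) (hL : L ≤ H) (huv : (0 < u ∧ v = 0) ∨ (u = 0 ∧ 0 < v))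
    (h0 : ∀ l h, L ≤ l → l ≤ h → h ≤ H →
      P l h (K * ((h - l) * gw s p L H l h) * dif D (tp D.length) (σ - (u * l - v * h)))) :
    P L H (K * (max (gw s p L H L L) (gw s p L H H H) / (u + v)) *
      dif ((u + v) * (H - L) :: D) (tp (D.length + 1)) (σ - (u * L - v * H))) := by
  have c0 : 0 < u + v := by rcases huv with ⟨h1, h2⟩ | ⟨h1, h2⟩ <;> linarith
  set G := max (gw s p L H L L) (gw s p L H H H) with hG
  have G0 : 0 ≤ G := le_max_of_le_left (Real.exp_pos _).le
  have := hP.lim (L := L) (H := H) (f := fun δ => Real.exp ((s + p) * δ) * (K * G) *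
    (dif [(u + v) * (H - L)] (dif D (tp (D.length + 1))) (σ - (u * L - v * H)) / (u + v) +
      δ * dif [(u + v) * (H - L)] (dif D (tp D.length)) (σ - (u * L - v * H)))) (by fun_prop)
    fun δ hδ => hP.bisect (T := fun l h => Real.exp ((s + p) * δ) * (K * G) *
      (dif [(u + v) * (h - l)] (dif D (tp (D.length + 1))) (σ - (u * l - v * h)) / (u + v) +
        δ * dif [(u + v) * (h - l)] (dif D (tp D.length)) (σ - (u * l - v * h)))) hδ hL
      (fun l h _ h2 _ => le_of_eq ?_) fun l h h1 h2 h3 h4 => hP.mono _ _ _ _ ?_ (h0 l h h1 h2 h3)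
  · convert this using 1
    simp only [dif, mul_zero, Real.exp_zero, zero_mul]
    ring
  · simp only [dif]
    rcases huv with ⟨-, rfl⟩ | ⟨rfl, -⟩ <;> ring_nf
  · obtain ⟨g1, -⟩ := gw_le (L := L) (H := H) hs hp h2 h4
    have g2 : gw s p L H l h ≤ Real.exp ((s + p) * δ) * G := g1.trans
      (mul_le_mul_of_nonneg_left (gw_max h1 (h2.trans h3)) (Real.exp_pos _).le)
    have w0 := sub_nonneg.2 h2
    have g3 := dif_step D hD (σ - (u * l - v * h)) (mul_nonneg c0.le w0)
    have g4 := dif_mono D hD (sub_le_self (σ - (u * l - v * h)) (mul_nonneg c0.le w0))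
    have g5 := dif_nonneg D hD (σ - (u * l - v * h))
    simp only [dif]
    generalize dif D (tp D.length) (σ - (u * l - v * h)) = a at *
    generalize dif D (tp D.length) (σ - (u * l - v * h) - (u + v) * (h - l)) = b at *
    generalize dif D (tp (D.length + 1)) (σ - (u * l - v * h)) -
      dif D (tp (D.length + 1)) (σ - (u * l - v * h) - (u + v) * (h - l)) = d at *
    have g6 : (h - l) * b ≤ d / (u + v) := by
      rw [le_div_iff₀ c0]
      linarith
    have g7 : (h - l) * a ≤ d / (u + v) + δ * (a - b) := by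
      nlinarith [mul_le_mul_of_nonneg_right h4 (sub_nonneg.2 g4)]
    calc K * ((h - l) * gw s p L H l h) * a = K * gw s p L H l h * ((h - l) * a) := by ring
      _ ≤ K * (Real.exp ((s + p) * δ) * G) * (d / (u + v) + δ * (a - b)) :=
        mul_le_mul (mul_le_mul_of_nonneg_left g2 hK) g7 (mul_nonneg w0 g5) (by positivity)
      _ = _ := by ring

end Pool.Agent.MP_c853c5_nt.X
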