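import Pool.Agent.MP_c853c5_nt.X.M2A

/-!
The closed form bound on a box, one coordinate at a time.
-/

set_option autoImplicit false

open Finset Function

namespace Pool.Agent.MP_c853c5_nt.X

/-- a subadditive bound on boxes -/
structure SubN (M : (ℕ → ℝ) → (ℕ → ℝ) → ℝ → Prop) : Prop where
  split : ∀ lo hi j c m m', 1 ≤ j → M lo (update hi j c) m → M (update lo j c) hi m' →
    M lo hi (m + m')
  mono : ∀ lo hi m m', m ≤ m' → M lo hi m → M lo hi m'
  closed : ∀ lo hi m, (∀ ε, 0 < ε → M lo hi (m + ε)) → M lo hi m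

/-- the box `[lo, hi]` lies in `[L, H]` and differs only in the coordinates `1, …, r` -/
def SubB (L H : ℕ → ℝ) (r : ℕ) (lo hi : ℕ → ℝ) : Prop :=
  (∀ j, 1 ≤ j → j ≤ r → L j ≤ lo j ∧ lo j ≤ hi j ∧ hi j ≤ H j) ∧
    ∀ j, j = 0 ∨ r < j → lo j = L j ∧ hi j = H j

variable (L H s p u v : ℕ → ℝ)

/-- the final factor of a node -/
noncomputable def fac (j : ℕ) : ℝ :=
  if u j + v j = 0 then
    (H j - L j) * (gw (s j) (p j) (L j) (H j) (L j) (L j) + gw (s j) (p j) (L j) (H j) (H j) (H j)) / 2
  else max (gw (s j) (p j) (L j) (H j) (L j) (L j)) (gw (s j) (p j) (L j) (H j) (H j) (H j)) /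
    (u j + v j)

/-- the steps of the differences -/
noncomputable def rowD : ℕ → List ℝ → List ℝ
  | 0, D => D
  | r + 1, D => rowD r (if u (r + 1) + v (r + 1) = 0 then D
      else (u (r + 1) + v (r + 1)) * (H (r + 1) - L (r + 1)) :: D)

variable {L H s p u v}

theorem SubN.multi {M : (ℕ → ℝ) → (ℕ → ℝ) → ℝ → Prop} (hM : SubN M) (hs : ∀ j, 0 ≤ s j)
    (hp : ∀ j, 0 ≤ p j) (hu : ∀ j, 0 ≤ u j) (hv : ∀ j, 0 ≤ v j) (huv : ∀ j, u j = 0 ∨ v j = 0)
    (r : ℕ) : ∀ (K σ : ℝ) (D : List ℝ), (∀ j, 1 ≤ j → j ≤ r → L j ≤ H j) → 0 ≤ K →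
      (∀ x ∈ D, 0 ≤ x) → (∀ lo hi, SubB L H r lo hi → M lo hi (K * (∏ j ∈ range r,
        (hi (j + 1) - lo (j + 1)) * gw (s (j + 1)) (p (j + 1)) (L (j + 1)) (H (j + 1))
          (lo (j + 1)) (hi (j + 1))) * dif D (tp D.length)
        (σ - ∑ j ∈ range r, (u (j + 1) * lo (j + 1) - v (j + 1) * hi (j + 1))))) →
      M L H (K * (∏ j ∈ range r, fac L H s p u v (j + 1)) *
        dif (rowD L H u v r D) (tp (rowD L H u v r D).length)
          (σ - ∑ j ∈ range r, (u (j + 1) * L (j + 1) - v (j + 1) * H (j + 1)))) := by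
  induction r with
  | zero =>
    intro K σ D _ _ _ h
    simpa [rowD] using h L H ⟨fun j h1 h2 => by omega, fun _ _ => ⟨rfl, rfl⟩⟩
  | succ r ih =>
    intro K σ D hL hK hD h
    have w0 := hL (r + 1) (by omega) le_rfl
    have f0 : 0 ≤ fac L H s p u v (r + 1) := by
      have := sub_nonneg.2 w0
      have := hu (r + 1)
      have := hv (r + 1)
      unfold fac gw
      split_ifs <;> positivity
    have := ih (K * fac L H s p u v (r + 1)) (σ - (u (r + 1) * L (r + 1) - v (r + 1) * H (r + 1)))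
      (if u (r + 1) + v (r + 1) = 0 then D
        else (u (r + 1) + v (r + 1)) * (H (r + 1) - L (r + 1)) :: D)
      (fun j h1 h2 => hL j h1 (by omega)) (mul_nonneg hK f0) (fun x hx => ?_) fun lo hi hb => ?_
    · rw [rowD, prod_range_succ, sum_range_succ, mul_comm _ (fac L H s p u v (r + 1)), ← mul_assoc,
        add_comm (∑ j ∈ range r, _), ← sub_sub]
      exact this
    · split_ifs at hx
      · exact hD x hx
      · rcases List.mem_cons.1 hx with rfl | hx
        · exact mul_nonneg (add_nonneg (hu _) (hv _)) (sub_nonneg.2 w0)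
        · exact hD x hx
    have hP : Sub1 fun l h m => M (update lo (r + 1) l) (update hi (r + 1) h) m :=
      ⟨fun l c h m m' _ _ g1 g2 => hM.split _ _ (r + 1) c _ _ (by omega)
        (by rwa [update_idem]) (by rwa [update_idem]),
        fun _ _ _ _ => hM.mono _ _ _ _, fun _ _ _ => hM.closed _ _ _⟩
    set Q := ∏ j ∈ range r, (hi (j + 1) - lo (j + 1)) *
      gw (s (j + 1)) (p (j + 1)) (L (j + 1)) (H (j + 1)) (lo (j + 1)) (hi (j + 1)) with hQ
    set Z := ∑ j ∈ range r, (u (j + 1) * lo (j + 1) - v (j + 1) * hi (j + 1)) with hZ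
    have Q0 : 0 ≤ Q := prod_nonneg fun j hj => mul_nonneg
      (sub_nonneg.2 (hb.1 _ (by omega) (by simpa using hj)).2.1) (Real.exp_pos _).le
    have key : ∀ l h, L (r + 1) ≤ l → l ≤ h → h ≤ H (r + 1) →
        M (update lo (r + 1) l) (update hi (r + 1) h)
          (K * Q * ((h - l) * gw (s (r + 1)) (p (r + 1)) (L (r + 1)) (H (r + 1)) l h) *
            dif D (tp D.length) (σ - Z - (u (r + 1) * l - v (r + 1) * h))) := by
      intro l h' g1 g2 g3
      have e : ∀ (f : ℕ → ℝ) (c : ℝ), ∀ j ∈ range r, update f (r + 1) c (j + 1) = f (j + 1) :=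
        fun f c j hj => update_of_ne (by simpa using (mem_range.1 hj).ne) _ _
      have := h (update lo (r + 1) l) (update hi (r + 1) h') ⟨fun j g4 g5 => ?_, fun j g4 => ?_⟩
      · rw [prod_range_succ, sum_range_succ, update_self, update_self,
          prod_congr rfl fun j hj => by rw [e lo l j hj, e hi h' j hj],
          sum_congr rfl fun j hj => by rw [e lo l j hj, e hi h' j hj], ← sub_sub,
          ← mul_assoc] at this
        exact this
      · by_cases c : j = r + 1
        · rw [c, update_self, update_self]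
          exact ⟨g1, g2, g3⟩
        · rw [update_of_ne c, update_of_ne c]
          exact hb.1 j g4 (by omega)
      · rw [update_of_ne (by omega), update_of_ne (by omega)]
        exact hb.2 j (by omega)
    obtain ⟨e1, e2⟩ := hb.2 (r + 1) (by omega)
    have fin : ∀ m, M (update lo (r + 1) (L (r + 1))) (update hi (r + 1) (H (r + 1))) m →
        M lo hi m := fun m => by rw [← e1, ← e2, update_eq_self, update_eq_self]; exact id
    refine fin _ ?_
    unfold fac
    split_ifs with c
    · have c1 : u (r + 1) = 0 := by linarith [hu (r + 1), hv (r + 1)]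
      have c2 : v (r + 1) = 0 := by linarith
      simp only [c1, c2, zero_mul, sub_zero] at key ⊢
      have := hP.trap (K := K * Q * dif D (tp D.length) (σ - Z))
        (mul_nonneg (mul_nonneg hK Q0) (dif_nonneg D hD _)) (hs _) (hp _) w0
        fun l h g1 g2 g3 => by convert key l h g1 g2 g3 using 1; ring
      convert this using 1
      ring
    · have := hP.row hD (mul_nonneg hK Q0) (hs _) (hp _) w0 (by
        rcases huv (r + 1) with g | g
        · exact Or.inr ⟨g, (hv _).lt_of_ne fun e => c (by rw [g, ← e, add_zero])⟩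
        · exact Or.inl ⟨(hu _).lt_of_ne fun e => c (by rw [g, ← e, add_zero]), g⟩) key
      rw [List.length_cons, mul_right_comm K, sub_right_comm σ]
      exact this

end Pool.Agent.MP_c853c5_nt.X
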