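import Pool.Agent.MP_c853c5_nt.X.M2B
import Pool.Agent.MP_c853c5_nt.X.MassR
import Pool.Agent.MP_c853c5_nt.X.SndA

/-!
The second order mass bound: the real part.
-/

set_option autoImplicit false

open Finset Filter Function

namespace Pool.Agent.MP_c853c5_nt.X

open Pool.Agent.MP_c853c5_nt.S Pool.Agent.MP_c853c5_nt.L Pool.Agent.MP_c853c5_nt.REG

variable (S : NS) (A : ℕ → Finset ℕ)

noncomputable def NS.L (j : ℕ) : ℝ := get S.lo j / SC

noncomputable def NS.H (j : ℕ) : ℝ := get S.hi j / SC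

/-- the children of a node -/
def NS.ch (i : ℕ) : Finset ℕ := (Ico 1 S.k).filter fun j => get S.par j = i

/-- the part of the region in a smaller box -/
def Reg (lo hi : ℕ → ℝ) (a : Pt) : Prop := (Om S A a ∧ ∀ j < S.k, 1 / 50 ≤ a j) ∧
  ∀ j, 1 ≤ j → j < S.k → lo j ≤ Y A a j ∧ Y A a j ≤ hi j

/-- the least size of a block -/
noncomputable def NS.al (lo hi : ℕ → ℝ) (i : ℕ) : ℝ := lo i - ∑ j ∈ S.ch i, hi j

/-- its growth -/
noncomputable def NS.dl (lo hi : ℕ → ℝ) (i : ℕ) : ℝ := S.al lo hi i - S.al S.L S.H i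

lemma subN_reg : SubN fun lo hi m => Mass (SF S.k S.kind (Reg S A lo hi)) m := by
  classical
  refine ⟨fun lo hi j c m m' _ h1 h2 => (h1.add h2).of_le
    (Eventually.of_forall fun x n _ => ?_), fun _ _ _ _ h h' => h'.mono h,
    fun lo hi m h ε hε => ?_⟩
  · simp only [SF, ArithmeticFunction.add_apply, ArithmeticFunction.coe_mk]
    rw [← Nat.cast_add]
    refine Nat.cast_le.2 ((card_le_card fun μ hμ => ?_).trans (card_union_le _ _))
    obtain ⟨g1, ⟨g2, g3⟩, g4⟩ := mem_filter.1 hμ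
    rw [mem_union, mem_filter, mem_filter]
    rcases le_total (Y A (pt x μ) j) c with e | e
    · refine Or.inl ⟨g1, ⟨g2, fun i i1 i2 => ⟨(g3 i i1 i2).1, ?_⟩⟩, g4⟩
      by_cases q : i = j
      · rwa [q, update_self]
      · rw [update_of_ne q]
        exact (g3 i i1 i2).2
    · refine Or.inr ⟨g1, ⟨g2, fun i i1 i2 => ⟨?_, (g3 i i1 i2).2⟩⟩, g4⟩
      by_cases q : i = j
      · rwa [q, update_self]
      · rw [update_of_ne q]
        exact (g3 i i1 i2).1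
  · simpa only [add_assoc, add_halves] using h (ε / 2) (by linarith) (ε / 2) (by linarith)

variable {S A} {lo hi : ℕ → ℝ} {a : Pt} {r : ℕ}

lemma mem_ch {i j : ℕ} (h : j ∈ S.ch i) : 1 ≤ j ∧ j < S.k := mem_Ico.1 (mem_filter.1 h).1

lemma SubB.all (hb : SubB S.L S.H r lo hi) (j : ℕ) : S.L j ≤ lo j ∧ hi j ≤ S.H j := by
  by_cases c : j = 0 ∨ r < j
  · exact ⟨(hb.2 j c).1.ge, (hb.2 j c).2.le⟩
  · have := hb.1 j (by omega) (by omega)
    exact ⟨this.1, this.2.2⟩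

lemma Reg.box (hb : SubB S.L S.H r lo hi) (ha : Reg S A lo hi a) {j : ℕ} (hj : j < S.k) :
    lo j ≤ Y A a j ∧ Y A a j ≤ hi j := by
  rcases Nat.eq_zero_or_pos j with rfl | h
  · rw [(hb.2 0 (Or.inl rfl)).1, (hb.2 0 (Or.inl rfl)).2]
    exact ha.1.1.1 0 hj
  · exact ha.2 j h hj

lemma Reg.al_le (hI : Inv S A) (hb : SubB S.L S.H r lo hi) (ha : Reg S A lo hi a) {i : ℕ}
    (hi' : i < S.k) : S.al lo hi i ≤ a i := by
  have h1 := hI.tree a i hi'
  have h2 : ∑ j ∈ S.ch i, Y A a j ≤ ∑ j ∈ S.ch i, hi j :=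
    sum_le_sum fun j hj => (ha.box hb (mem_ch hj).2).2
  have h3 := (ha.box hb hi').1
  unfold NS.al NS.ch at *
  linarith

lemma dl_eq (i : ℕ) : S.dl lo hi i = lo i - S.L i + ∑ j ∈ S.ch i, (S.H j - hi j) := by
  simp only [NS.dl, NS.al, sum_sub_distrib]
  ring

lemma SubB.dl_nn (hb : SubB S.L S.H r lo hi) (i : ℕ) : 0 ≤ S.dl lo hi i := by
  rw [dl_eq]
  exact add_nonneg (sub_nonneg.2 (hb.all i).1) (sum_nonneg fun j _ => sub_nonneg.2 (hb.all j).2)

/-- the block `i` has density at most `R` times the decay of the block `t` -/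
def Blk2 (S : NS) (A : ℕ → Finset ℕ) (r : ℕ) (σ : ℕ → ℝ) (i t : ℕ) (R : ℝ) : Prop :=
  ∀ lo hi, SubB S.L S.H r lo hi → ∃ F : Fam, Pos F ∧
    (∀ a b, Dens F a b (R * Real.exp (-(σ t * S.dl lo hi t)))) ∧
    ∀ x : ℝ, 1 < x → ∀ n, ∀ μ ∈ tup S.k n, Reg S A lo hi (pt x μ) →
      (∀ j < S.k, (S.kind j).ok x μ j) → 1 ≤ F x (μ i)

theorem base2 (hI : Inv S A) (hk : S.k = r + 1) {σ R s : ℕ → ℝ} {τ : ℕ → ℕ} (hR : ∀ i, 0 ≤ R i)
    (hB : ∀ i < S.k, Blk2 S A r σ i (τ i) (R i)) (hσ : ∀ t, 0 ≤ σ t)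
    (hs : ∀ t < S.k, s t ≤ ((range S.k).filter fun i => τ i = t).card * σ t)
    (hb : SubB S.L S.H r lo hi) :
    Mass (SF S.k S.kind (Reg S A lo hi)) ((∏ i ∈ range S.k, R i) * ∏ j ∈ range r,
      (hi (j + 1) - lo (j + 1)) * gw (s (j + 1)) (s (get S.par (j + 1))) (S.L (j + 1))
        (S.H (j + 1)) (lo (j + 1)) (hi (j + 1))) := by
  classical
  choose! F h1 h2 h3 using fun i hi' => hB i hi' lo hi hb
  set ρ : ℕ → ℝ := fun i => R i * Real.exp (-(σ (τ i) * S.dl lo hi (τ i))) with hρ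
  have ρ0 : ∀ i, 0 ≤ ρ i := fun i => mul_nonneg (hR i) (Real.exp_pos _).le
  have hd := dens_nest (par := get S.par) (lo := lo) (hi := hi) r F ρ
    (fun j => if j = 0 then ρ 0 else ρ j * max 0 (hi j - lo j))
    (fun j g1 g2 => hI.par j g1 (by omega))
    (fun j g => ⟨h1 j (by omega), ρ0 j, by split_ifs; exacts [ρ0 0, by positivity [ρ0 j]],
      h2 j (by omega)⟩)
    (fun j g1 g2 => by
      rw [if_neg (by omega)]
      exact lm_rst (h1 j (by omega)) (ρ0 j) (h2 j (by omega)) _ _)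
    (fun j g1 g2 g3 => by rw [if_neg (by omega)]) (by simp) 1 1
  have w0 : ∀ j ∈ range r, 0 ≤ hi (j + 1) - lo (j + 1) := fun j hj =>
    sub_nonneg.2 (hb.1 _ (by omega) (by simpa using hj)).2.1
  refine (hd.mass.of_le ?_).mono ?_
  · have : ∀ᶠ x : ℝ in atTop, ∀ j ∈ range S.k, ∀ m, 0 ≤ F j x m :=
      (eventually_all_finset _).2 fun j hj => h1 j (mem_range.1 hj)
    filter_upwards [this, ev_pos] with x g1 g2 n _
    rw [← hk]
    exact SF_le_Wn (fun j hj => g1 j (mem_range.2 hj)) fun μ hμ g3 g4 =>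
      ⟨⟨Y A (pt x μ), hI.tree _, g3.2⟩, fun j hj => h3 j hj x g2 n μ hμ g3 g4⟩
  have e1 : ∏ j ∈ range (r + 1), (if j = 0 then ρ 0 else ρ j * max 0 (hi j - lo j)) =
      (∏ i ∈ range S.k, ρ i) * ∏ j ∈ range r, (hi (j + 1) - lo (j + 1)) := by
    rw [hk, prod_range_succ', prod_range_succ', if_pos rfl, mul_right_comm, ← prod_mul_distrib]
    exact congrArg (· * _) (prod_congr rfl fun j hj => by
      rw [if_neg (by omega), max_eq_right (w0 j hj)])
  rw [e1, hρ, prod_mul_distrib, prod_mul_distrib, mul_assoc,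
    mul_comm (∏ i ∈ range S.k, Real.exp _)]
  refine mul_le_mul_of_nonneg_left (mul_le_mul_of_nonneg_left ?_ (prod_nonneg w0))
    (prod_nonneg fun i _ => hR i)
  unfold gw
  rw [← Real.exp_sum, ← Real.exp_sum, Real.exp_le_exp]
  have e2 : ∑ t ∈ range S.k, s t * S.dl lo hi t ≤
      ∑ i ∈ range S.k, σ (τ i) * S.dl lo hi (τ i) := by
    refine le_trans ?_ (sum_le_sum_of_subset_of_nonneg
      (filter_subset (fun i => τ i ∈ range S.k) _) fun i _ _ => mul_nonneg (hσ _) (hb.dl_nn _))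
    rw [← sum_fiberwise_eq_sum_filter]
    refine sum_le_sum fun t ht => ?_
    rw [sum_congr rfl fun i hi' => by rw [(mem_filter.1 hi').2], sum_const, nsmul_eq_mul,
      ← mul_assoc]
    exact mul_le_mul_of_nonneg_right (hs t (mem_range.1 ht)) (hb.dl_nn t)
  have e3 : ∑ t ∈ range S.k, s t * S.dl lo hi t =
      ∑ j ∈ range r, s (j + 1) * (lo (j + 1) - S.L (j + 1)) +
        ∑ j ∈ range r, s (get S.par (j + 1)) * (S.H (j + 1) - hi (j + 1)) := by
    simp only [dl_eq, mul_add, sum_add_distrib]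
    congr 1
    · rw [hk, sum_range_succ', (hb.2 0 (Or.inl rfl)).1, sub_self, mul_zero, add_zero]
    · rw [range_eq_Ico r, sum_Ico_add' (fun j => s (get S.par j) * (S.H j - hi j)) 0 r 1,
        ← hk, ← sum_fiberwise_of_maps_to (s := Ico (0 + 1) S.k) (t := range S.k) (g := get S.par)
        fun j hj => mem_range.2 ((hI.par j (mem_Ico.1 hj).1 (mem_Ico.1 hj).2).trans
          (mem_Ico.1 hj).2)]
      refine sum_congr rfl fun t _ => ?_
      rw [mul_sum]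
      exact sum_congr rfl fun j hj => by rw [(mem_filter.1 hj).2]
  simp only [sum_sub_distrib, sum_neg_distrib]
  linarith

/-- positive and negative parts of the coefficients of a row -/
noncomputable def Rw.u (q : Rw) (j : ℕ) : ℝ := (cntL j q.l1 - cntL j q.l2 : ℕ)

noncomputable def Rw.v (q : Rw) (j : ℕ) : ℝ := (cntL j q.l2 - cntL j q.l1 : ℕ)

theorem mass2 (hI : Inv S A) (hk : S.k = r + 1) {σ R s : ℕ → ℝ} {τ : ℕ → ℕ} (hR : ∀ i, 0 ≤ R i)
    (hB : ∀ i < S.k, Blk2 S A r σ i (τ i) (R i)) (hσ : ∀ t, 0 ≤ σ t) (hs0 : ∀ t, 0 ≤ s t)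
    (hs : ∀ t < S.k, s t ≤ ((range S.k).filter fun i => τ i = t).card * σ t) {q : Rw}
    (hq : ∀ a, Om S A a → q.ok (Y A a)) (hin : q.In S.k)
    (hL : ∀ j, 1 ≤ j → j ≤ r → S.L j ≤ S.H j) :
    Mass (SF S.k S.kind fun a => Om S A a ∧ ∀ j < S.k, 1 / 50 ≤ a j) ((∏ i ∈ range S.k, R i) *
      (∏ j ∈ range r, fac S.L S.H s (fun j => s (get S.par j)) q.u q.v (j + 1)) *
      dif (rowD S.L S.H q.u q.v r []) (tp (rowD S.L S.H q.u q.v r []).length)
        (((q.c2 : ℝ) - q.c1) / SC - ∑ j ∈ range S.k, (q.u j * S.L j - q.v j * S.H j))) := by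
  have := (subN_reg S A).multi (L := S.L) (H := S.H) (p := fun j => s (get S.par j)) (u := q.u)
    (v := q.v) hs0 (fun _ => hs0 _) (fun _ => Nat.cast_nonneg _) (fun _ => Nat.cast_nonneg _)
    (fun j => by
      simp only [Rw.u, Rw.v, Nat.cast_eq_zero]
      omega) r (∏ i ∈ range S.k, R i)
    (((q.c2 : ℝ) - q.c1) / SC - (q.u 0 * S.L 0 - q.v 0 * S.H 0)) [] hL
    (prod_nonneg fun i _ => hR i) (by simp) fun lo hi hb => ?_
  · rw [sub_sub, add_comm (q.u 0 * S.L 0 - q.v 0 * S.H 0),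
      ← sum_range_succ' (fun j => q.u j * S.L j - q.v j * S.H j), ← hk] at this
    exact this.of_le (Eventually.of_forall fun x n _ =>
      SF_mono (fun a ha => ⟨ha, fun j _ hj => ha.1.1 j hj⟩) x n)
  simp only [dif, List.length_nil, tp]
  split_ifs with c
  · rw [mul_one]
    exact base2 hI hk hR hB hσ hs hb
  rw [mul_zero]
  refine mass_zero.of_le (Eventually.of_forall fun x n _ => ?_)
  refine (SF_mono (Ω := fun _ => False) (fun a ha => c ?_) x n).trans (by simp [SF])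
  have h1 := hq a ha.1.1
  rw [Rw.ok, sum_cnt _ hin.1, sum_cnt _ hin.2] at h1
  have h2 : ∑ j ∈ range S.k, (q.u j * lo j - q.v j * hi j) ≤
      ∑ j ∈ range S.k, ((cntL j q.l1 : ℝ) * Y A a j - (cntL j q.l2 : ℝ) * Y A a j) := by
    refine sum_le_sum fun j hj => ?_
    obtain ⟨g1, g2⟩ := ha.box hb (mem_range.1 hj)
    unfold Rw.u Rw.v
    rcases le_total (cntL j q.l1) (cntL j q.l2) with e | e
    · rw [Nat.sub_eq_zero_of_le e, Nat.cast_sub e, Nat.cast_zero]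
      have : (cntL j q.l1 : ℝ) ≤ cntL j q.l2 := by exact_mod_cast e
      nlinarith [mul_le_mul_of_nonneg_left g2 (sub_nonneg.2 this)]
    · rw [Nat.sub_eq_zero_of_le e, Nat.cast_sub e, Nat.cast_zero]
      have : (cntL j q.l2 : ℝ) ≤ cntL j q.l1 := by exact_mod_cast e
      nlinarith [mul_le_mul_of_nonneg_left g1 (sub_nonneg.2 this)]
  rw [sum_sub_distrib (f := fun j => (cntL j q.l1 : ℝ) * Y A a j), hk, sum_range_succ',
    (hb.2 0 (Or.inl rfl)).1, (hb.2 0 (Or.inl rfl)).2, ← hk] at h2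
  rw [sub_div]
  linarith

/-! ### the blocks -/

/-- `m` is a strict lower bound, `U` an upper bound for the block `i`, `σ` an admissible slope -/
structure Lb (S : NS) (i : ℕ) (m U σ : ℝ) : Prop where
  ge : 1 / 200 ≤ m
  up : S.H i - ∑ j ∈ S.ch i, S.L j ≤ U
  sl : (σ = 0 ∧ m < max (S.al S.L S.H i) (1 / 50)) ∨
    (m < S.al S.L S.H i ∧ 0 < σ ∧ σ * (m + U) ≤ 2)

/-- the lower bound on a smaller box -/
noncomputable def bb (S : NS) (lo hi : ℕ → ℝ) (i : ℕ) (m σ : ℝ) : ℝ :=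
  if σ = 0 then m else m + S.dl lo hi i

variable {i : ℕ} {m U σ : ℝ}

lemma bb_ge (hb : SubB S.L S.H r lo hi) : m ≤ bb S lo hi i m σ := by
  unfold bb
  split_ifs
  exacts [le_rfl, le_add_of_nonneg_right (hb.dl_nn i)]

lemma Lb.lt (h : Lb S i m U σ) (hI : Inv S A) (hb : SubB S.L S.H r lo hi) (ha : Reg S A lo hi a)
    (hi' : i < S.k) : bb S lo hi i m σ < a i ∧ a i ≤ U := by
  have h1 := ha.al_le hI hb hi'
  have h2 := hb.dl_nn i
  constructor
  · unfold bb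
    unfold NS.dl at *
    rcases h.sl with ⟨g1, g2⟩ | ⟨g1, g2, -⟩
    · rw [if_pos g1]
      exact g2.trans_le (max_le (by linarith) (ha.1.2 i hi'))
    · rw [if_neg g2.ne']
      linarith
  · have g1 := hI.tree a i hi'
    have g2 : ∑ j ∈ S.ch i, S.L j ≤ ∑ j ∈ S.ch i, Y A a j :=
      sum_le_sum fun j hj => (ha.1.1.1 j (mem_ch hj).2).1
    have g3 : Y A a i ≤ S.H i := (ha.1.1.1 i hi').2
    have g4 := h.up
    unfold NS.ch at *
    linarith

lemma Lb.le (h : Lb S i m U σ) (hk : S.k = r + 1) (hb : SubB S.L S.H r lo hi)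
    (h0 : S.L 0 ≤ S.H 0) (hi' : i < S.k) : bb S lo hi i m σ ≤ max U m := by
  unfold bb
  rcases h.sl with ⟨g1, -⟩ | ⟨g1, g2, -⟩
  · rw [if_pos g1]
    exact le_max_right _ _
  rw [if_neg g2.ne']
  have g3 : ∑ j ∈ S.ch i, S.L j ≤ ∑ j ∈ S.ch i, hi j := sum_le_sum fun j hj => by
    have := hb.1 j (mem_ch hj).1 (by have := (mem_ch hj).2; omega)
    linarith [this.1, this.2.1]
  have g4 : lo i ≤ S.H i := by
    rcases Nat.eq_zero_or_pos i with rfl | c
    · rwa [(hb.2 0 (Or.inl rfl)).1]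
    · have := hb.1 i c (by omega)
      linarith [this.2.1, this.2.2]
  have g5 := h.up
  unfold NS.dl NS.al at *
  exact le_max_of_le_left (by linarith)

/-- the chord of the logarithm -/
lemma Lb.exp (h : Lb S i m U σ) (hk : S.k = r + 1) (hb : SubB S.L S.H r lo hi)
    (h0 : S.L 0 ≤ S.H 0) (hi' : i < S.k) :
    m / bb S lo hi i m σ ≤ Real.exp (-(σ * S.dl lo hi i)) := by
  have m0 : 0 < m := by linarith [h.ge]
  have h1 := h.le hk hb h0 hi'
  have h2 := hb.dl_nn i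
  unfold bb at *
  rcases h.sl with ⟨g1, -⟩ | ⟨g1, g2, g3⟩
  · simp [g1, m0.ne']
  rw [if_neg g2.ne'] at h1 ⊢
  generalize S.dl lo hi i = d at *
  rcases h2.eq_or_lt with rfl | h2
  · simp [m0.ne']
  have h3 : m + d ≤ U := (le_max_iff.1 h1).resolve_right (by linarith)
  have h4 := Real.le_log_one_add_of_nonneg (div_pos h2 m0).le
  rw [← Real.log_le_iff_le_exp (by positivity), ← inv_div, Real.log_inv, neg_le_neg_iff,
    show (m + d) / m = 1 + d / m by field_simp]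
  refine le_trans ?_ h4
  rw [show 2 * (d / m) / (d / m + 2) = 2 * d / (d + 2 * m) by field_simp, le_div_iff₀ (by linarith)]
  nlinarith [mul_le_mul_of_nonneg_left g3 h2.le, mul_le_mul_of_nonneg_left h3 (mul_pos g2 h2).le]

lemma pt_lt {x : ℝ} (hx : 1 < x) {k n : ℕ} {μ : ℕ → ℕ} (hμ : μ ∈ tup k n) {c : ℝ} {j : ℕ} :
    (c < pt x μ j → x ^ c < μ j) ∧ (pt x μ j ≤ c → (μ j : ℝ) ≤ x ^ c) :=
  ⟨(Real.lt_logb_iff_rpow_lt hx (Nat.cast_pos.2 (pos_Open hμ j))).1,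
    (Real.logb_le_iff_le_rpow hx (Nat.cast_pos.2 (pos_Open hμ j))).1⟩

lemma Om_ratio {u w : ℝ} (hu : 0 < u) (h : u ≤ w) :
    (1 + L.Om (u - 1)) * w ≤ (1 + L.Om (w - 1)) * u := by
  have h1 := Om_sub_ge (w - 1) (u - 1)
  have h2 := Om_step w
  have h3 := cc_le_qq (w - 1)
  nlinarith [mul_le_mul_of_nonneg_right h1 (hu.le.trans h),
    mul_le_mul_of_nonneg_right h2 (sub_nonneg.2 h),
    mul_le_mul_of_nonneg_right h3 (mul_nonneg (sub_nonneg.2 h) (hu.le.trans h))]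

/-- the three forms of the bound for a rough block -/
lemma dens_rough {β z z0 zh R E : ℝ} (hm : 0 < m) (h1 : m ≤ β) (hz : 1 / 200 ≤ z0)
    (h2 : z0 ≤ z) (h3 : z ≤ zh) (hR : 0 ≤ R) (hE : 0 ≤ E)
    (h : U ≤ max m z0 ∨ ((1 + max 0 (L.Om (U / z0 - 1))) / m ≤ R ∧ m / β ≤ E) ∨
      (min 1 (zh / m) / z0 ≤ R ∧ (1 + max 0 (L.Om (U / z0 - 1))) / U ≤ R ∧ z0 / z ≤ E))
    (a b : ℝ) : Dens (fun x => bf x ⟨β, U, z, none⟩) a b (R * E) := by
  have b0 : 0 < β := by linarith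
  have z1 : 0 < z0 := by linarith
  have z2 : 0 < z := by linarith
  rcases h with h | h
  · refine (Dens.zero ?_).weak le_rfl le_rfl (mul_nonneg hR hE)
    filter_upwards [ev_pos] with x hx n _ _
    exact L.bf_le le_rfl fun hn => absurd ((lt_of_mem hx (B := ⟨β, U, z, none⟩) b0.le hn).trans_le
      hn.2.2.1) (Real.rpow_le_rpow_of_exponent_le hx.le (h.trans (max_le_max h1 h2))).not_gt
  refine dens_bf (hz.trans h2) b0.le (mul_nonneg hR hE) fun y _ _ g1 g2 g3 => ?_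
  simp only [GB] at g1 g2 g3 ⊢
  have y0 : 0 < y := by linarith
  have U0 : 0 < U := by linarith
  have g4 : y / z ≤ U / z0 := by gcongr
  rcases h with ⟨g5, g6⟩ | ⟨g5, g6, g7⟩
  · have g7 : max 0 (L.Om (y / z - 1)) ≤ max 0 (L.Om (U / z0 - 1)) :=
      max_le_max_left 0 (Om_mono (by linarith))
    rw [div_le_iff₀ hm] at g5
    rw [div_le_iff₀ b0] at g6
    nlinarith [mul_le_mul_of_nonneg_left g6 hR, mul_le_mul_of_nonneg_left g1 (mul_nonneg hR hE)]
  refine le_trans ?_ (mul_le_mul_of_nonneg_right (mul_le_mul_of_nonneg_left g7 hR) y0.le)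
  rw [show R * (z0 / z) * y = R * z0 * (y / z) by ring]
  have u1 : 1 ≤ y / z := (one_le_div z2).2 g3
  rw [div_le_iff₀ z1] at g5
  rcases le_total (L.Om (y / z - 1)) 0 with e | e
  · rw [max_eq_left e, add_zero]
    refine le_trans ?_ (mul_le_mul_of_nonneg_right g5 (by linarith))
    rw [min_mul_of_nonneg _ _ (by linarith), one_mul]
    refine le_min u1 ?_
    rw [div_mul_div_comm, one_le_div (by positivity)]
    nlinarith [mul_le_mul (h1.trans g1) h3 z2.le y0.le]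
  · rw [max_eq_right e]
    have g8 := Om_ratio (div_pos y0 z2) g4
    have g9 := le_max_right 0 (L.Om (U / z0 - 1))
    rw [div_le_iff₀ U0] at g6
    refine le_of_mul_le_mul_right (g8.trans ?_) (div_pos U0 z1)
    rw [show R * z0 * (y / z) * (U / z0) = R * U * (y / z) by field_simp]
    exact mul_le_mul_of_nonneg_right (by linarith) (by linarith)

variable {mm UU sg : ℕ → ℝ} {t : ℕ} {R : ℝ}

lemma blk2_P (hI : Inv S A) (hk : S.k = r + 1) (h0 : S.L 0 ≤ S.H 0)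
    (hl : ∀ j < S.k, Lb S j (mm j) (UU j) (sg j)) (hi' : i < S.k) (hR : 0 ≤ R)
    (hq : S.kind i = .P) (h : UU i ≤ mm i ∨ (t = i ∧ 1 / mm i ≤ R)) : Blk2 S A r sg i t R := by
  intro lo hi hb
  have g1 : mm i ≤ bb S lo hi i (mm i) (sg i) := bb_ge hb
  have g2 := (hl i hi').ge
  refine ⟨PB (bb S lo hi i (mm i) (sg i)) (UU i), PB_pos _ _, fun a b => ?_,
    fun x hx n μ hμ ha hk' => ?_⟩
  · rcases h with h | ⟨rfl, h⟩
    · refine (Dens.zero ?_).weak le_rfl le_rfl (by positivity)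
      filter_upwards [ev_pos] with x hx n _ _
      exact ind_le le_rfl fun _ g => absurd (g.2.1.trans_le g.2.2)
        (Real.rpow_le_rpow_of_exponent_le hx.le (h.trans g1)).not_gt
    · refine (dprime_all _ a b _ (g2.trans g1) (Eventually.of_forall fun x n _ _ =>
        ind_le (by split_ifs <;> norm_num) fun _ g => (if_pos ⟨g.1, g.2.1.le⟩).ge)).weak
        le_rfl le_rfl ((one_div_le_one_div_of_le (by linarith) (le_max_right _ _)).trans ?_)
      refine le_of_eq_of_le ?_ (mul_le_mul h ((hl t hi').exp hk hb h0 hi') (by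
        exact div_nonneg (by linarith) (by linarith)) hR)
      have : mm t ≠ 0 := by linarith [g2] |> fun (h : 0 < mm t) => h.ne'
      field_simp
  · obtain ⟨g3, g4⟩ := (hl i hi').lt hI hb ha hi'
    have g5 := hk' i hi'
    rw [hq] at g5
    exact (ind_pos g5.one_lt ⟨g5, (pt_lt hx hμ).1 g3, (pt_lt hx hμ).2 g4⟩).ge

lemma blk2_R (hI : Inv S A) (hk : S.k = r + 1) (h0 : S.L 0 ≤ S.H 0)
    (hl : ∀ j < S.k, Lb S j (mm j) (UU j) (sg j)) (hi' : i < S.k) (hR : 0 ≤ R) {c : ℝ}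
    (hq : S.kind i = .R c) (h : UU i ≤ max (mm i) c ∨
      (t = i ∧ (1 + max 0 (L.Om (UU i / c - 1))) / mm i ≤ R) ∨
      (sg t = 0 ∧ min 1 (c / mm i) / c ≤ R ∧ (1 + max 0 (L.Om (UU i / c - 1))) / UU i ≤ R)) :
    Blk2 S A r sg i t R := by
  intro lo hi hb
  have g2 := (hl i hi').ge
  have g6 := ((hI.kv i hi').1 c hq).1
  refine ⟨_, pos_bf ⟨bb S lo hi i (mm i) (sg i), UU i, c, none⟩,
    dens_rough (by linarith) (bb_ge hb) (z0 := c) (by linarith) le_rfl le_rfl hR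
      (Real.exp_pos _).le (h.imp_right (Or.imp ?_ ?_)), fun x hx n μ hμ ha hk' => ?_⟩
  · rintro ⟨rfl, h⟩
    exact ⟨h, (hl t hi').exp hk hb h0 hi'⟩
  · rintro ⟨h1, h2, h3⟩
    exact ⟨h2, h3, by rw [h1, div_self (by linarith)]; simp⟩
  · obtain ⟨g3, g4⟩ := (hl i hi').lt hI hb ha hi'
    have g5 := hk' i hi'
    rw [hq] at g5
    exact (bf_of_mem (B := ⟨_, _, c, none⟩) ⟨(pos_Open hμ i).ne', (pt_lt hx hμ).1 g3,
      (pt_lt hx hμ).2 g4, g5, by simp⟩).ge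

lemma blk2_L (hI : Inv S A) (hk : S.k = r + 1) (h0 : S.L 0 ≤ S.H 0)
    (hl : ∀ j < S.k, Lb S j (mm j) (UU j) (sg j)) (hi' : i < S.k) (hR : 0 ≤ R) {l : ℕ}
    (hq : S.kind i = .L l) (h : UU i ≤ max (mm i) (mm l) ∨
      (t = i ∧ (1 + max 0 (L.Om (UU i / mm l - 1))) / mm i ≤ R) ∨
      (t = l ∧ min 1 (max (UU l) (mm l) / mm i) / mm l ≤ R ∧
        (1 + max 0 (L.Om (UU i / mm l - 1))) / UU i ≤ R)) : Blk2 S A r sg i t R := by
  intro lo hi hb
  have g2 := (hl i hi').ge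
  have g6 := ((hI.kv i hi').2 l hq).1
  refine ⟨_, pos_bf ⟨bb S lo hi i (mm i) (sg i), UU i, bb S lo hi l (mm l) (sg l), none⟩,
    dens_rough (by linarith) (bb_ge hb) (hl l g6).ge (bb_ge hb) ((hl l g6).le hk hb h0 g6) hR
      (Real.exp_pos _).le (h.imp_right (Or.imp ?_ ?_)), fun x hx n μ hμ ha hk' => ?_⟩
  · rintro ⟨rfl, h⟩
    exact ⟨h, (hl t hi').exp hk hb h0 hi'⟩
  · rintro ⟨rfl, h2, h3⟩
    exact ⟨h2, h3, (hl t g6).exp hk hb h0 g6⟩
  · obtain ⟨g3, g4⟩ := (hl i hi').lt hI hb ha hi'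
    have g5 := hk' i hi'
    rw [hq] at g5
    exact (bf_of_mem ⟨(pos_Open hμ i).ne', (pt_lt hx hμ).1 g3, (pt_lt hx hμ).2 g4,
      fun p hp hd => ((pt_lt hx hμ).1 ((hl l g6).lt hI hb ha g6).1).trans_le
        (Nat.cast_le.2 (g5 p hp hd)), by simp⟩).ge

end Pool.Agent.MP_c853c5_nt.X
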