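import Pool.Agent.MP_c853c5_nt.X.Chk

/-!
The nested mass bound (definitions only), written with raw recursors.
-/

set_option autoImplicit false

namespace Pool.Agent.MP_c853c5_nt.X

def cdR (a b : ℕ) : ℕ := Nat.succ (Nat.div a b)

def lg0 (l u : ℕ) : ℕ :=
  cdR (Nat.mul 1000000000 (Nat.sub (Nat.mul u u) (Nat.mul l l))) (Nat.mul (Nat.mul 2 u) l)

/-- an upper bound for `log (u / l)` -/
noncomputable def lgR (k : ℕ) : ℕ → ℕ → ℕ :=
  Nat.rec (motive := fun _ => ℕ → ℕ → ℕ) lg0
    (fun _ ih l u => force (Nat.mul 11 l) fun l' => force (Nat.mul 10 u) fun u' =>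
      cnd (Nat.ble u' l') (lg0 l u) (Nat.add 95310200 (ih l' u'))) k

noncomputable def gUR (M a : ℕ) : ℕ :=
  force (Nat.sub M a) fun z =>
  cnd (Nat.ble (Nat.mul 709 z) (Nat.mul 1250 a)) (Nat.add 1000000000 (lgR 8 a z))
    (cdR (Nat.mul 709000000000 M) (Nat.mul 1250 a))

/-- the density of rough numbers of level `a` and size in `[m, M]`, for `2 a < M` -/
noncomputable def w0R (a m M : ℕ) : ℕ :=
  force (cdR 1000000000000000 m) fun p => force (cdR 709000000000000000 (Nat.mul 1250 a)) fun q =>
  force (mx p q) fun u => force (cdR (Nat.mul (gUR M a) 1000000) m) fun v => mn u v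

/-- sums over the children, in fields of `64` bits -/
noncomputable def chV (S : NS) (n : ℕ) : ℕ :=
  Nat.rec (motive := fun _ => ℕ) 0
    (fun j ih => Nat.add (Nat.shiftLeft
      (Nat.add (Nat.shiftLeft (get S.hi (Nat.succ j)) 32) (get S.lo (Nat.succ j)))
      (Nat.mul 64 (get S.par (Nat.succ j)))) ih) n

def fT (V i : ℕ) : ℕ := Nat.mod (Nat.shiftRight V (Nat.mul 64 i)) 18446744073709551616

/-- a strict lower bound for the size of a block -/
noncomputable def loR (lo T : ℕ) : ℕ :=
  force (Nat.sub lo (Nat.shiftRight T 32)) fun m => Nat.pred (mx m 20000)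

/-- the level of a block of code `q`, zero for a prime -/
noncomputable def lvR (S : NS) (V q : ℕ) : ℕ :=
  cnd (Nat.beq q 0) 0
    (cnd (Nat.ble q 16) (force (Nat.pred q) fun l => loR (get S.lo l) (fT V l)) q)

/-- the density for sizes above `m` and up to `M`; `p` says that the block consists of primes -/
noncomputable def rhoR (p : Bool) (a m M : ℕ) : ℕ := cnd p (cdR 1000000000000000 m) (w0R a m M)

/-- the density of the root, the logarithmic mass of another node -/
noncomputable def muR (S : NS) (V j : ℕ) : ℕ :=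
  force (fT V j) fun T => force (get S.lo j) fun lo => force (get S.hi j) fun hi =>
  force (get S.kd j) fun q => force (lvR S V q) fun a => force (loR lo T) fun m0 =>
  force (mx m0 a) fun m => force (Nat.sub hi (Nat.mod T 4294967296)) fun M =>
  cnd (Nat.ble M m) 0
    (cnd (Nat.beq j 0) (rhoR (bor (Nat.beq q 0) (Nat.ble M (Nat.mul 2 a))) a m M)
      (cnd (bor (Nat.beq q 0) (Nat.ble M (Nat.mul 2 a)))
        (cnd (Nat.beq T 0) (lgR 8 m M) (cdR (Nat.mul (rhoR true a m M) (Nat.sub hi lo)) 1000000))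
        (cdR (Nat.mul (rhoR false a m M) (Nat.sub hi lo)) 1000000)))

noncomputable def prR (S : NS) (V n : ℕ) : ℕ :=
  Nat.rec (motive := fun _ => ℕ) (muR S V 0) (fun j ih => Nat.mul (muR S V (Nat.succ j)) ih) n

/-- the mass of a state, in units of `10 ^ (-9)` -/
noncomputable def MN (_ : ℕ) (S : NS) : ℕ :=
  grd (Nat.ble S.k 16) (force (Nat.pred S.k) fun n => force (chV S n) fun V =>
    cdR (prR S V n) (Nat.pow 1000000000 n))

end Pool.Agent.MP_c853c5_nt.X
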