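import Pool.Agent.MP_c853c5_nt.X.Chk
import Pool.Agent.MP_c853c5_nt.REG.Fast

/-!
Polytopes of the calculus from the checker of the linear programme.
-/

set_option autoImplicit false

open Finset

namespace Pool.Agent.MP_c853c5_nt.X

open Pool.Agent.MP_c853c5_nt.S Pool.Agent.MP_c853c5_nt.REG

/-- the entry behind a polytope; the first row is the total size -/
def PP.toPE (x : PP) : PE :=
  ⟨x.k, 1, (List.replicate x.k 1, SC) ::
    x.P.map fun y => ((List.range x.k).map fun j => dg y.1 (12 * j), y.2),
    [(List.replicate x.k 1, SC)]⟩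

theorem PP.good_of {tn : ℕ} {x : PP} (h : x.toPE.Good tn) : x.Good tn := by
  intro ι _ w g hg hw hs hP
  have one : ∑ j, (((List.replicate x.k 1).getD (g j) 0 : ℕ) : ℝ) * w j = (SC : ℝ) / SC := by
    rw [div_self SC_pos.ne', ← hs]
    refine sum_congr rfl fun j _ => ?_
    rw [List.getD_eq_getElem _ _ (by simpa using hg j)]
    simp
  have := Good.gen h w g hg hw
    (fun y hy => by
      rcases List.mem_cons.1 hy with rfl | hy
      · exact one.le
      · obtain ⟨u, hu, rfl⟩ := List.mem_map.1 hy
        refine le_trans (le_of_eq (sum_congr rfl fun j _ => ?_)) (hP u hu)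
        rw [List.getD_eq_getElem _ _ (by simpa using hg j)]
        simp)
    (fun y hy => by
      rw [List.mem_singleton.1 hy]
      exact one.ge)
  simpa [PP.toPE] using this

theorem PP.of_chk {tn : ℕ} {x : PP} (c : CT) (h : chkE tn x.toPE c = true) : x.Good tn :=
  PP.good_of (chkE_ok h)

end Pool.Agent.MP_c853c5_nt.X
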