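import Pool.Agent.MP_c853c5_nt.X.PDok
import Pool.Agent.MP_c853c5_nt.REG.DDec

/-!
A table of claims on small primes against the data base of proved claims.
-/

set_option autoImplicit false

namespace Pool.Agent.MP_c853c5_nt.X

open Pool.Agent.MP_c853c5_nt.REG

/-- the entry at position `i` is covered by the claim `o + i` -/
noncomputable def btR (G : TB ℕ) (N : ℕ) (T : BT PD) : ℕ → Bool :=
  BT.rec (motive := fun _ => ℕ → Bool)
    (fun x o => an (an (Nat.beq x.m 2) (Nat.blt o N)) (frc (code G o) fun v =>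
      an (an (an (Nat.ble (g24 v 0) (get x.lo 0)) (Nat.ble (g24 v 1) (get x.lo 1)))
        (an (Nat.ble (get x.hi 0) (g24 v 2)) (Nat.ble (get x.hi 1) (g24 v 3))))
        (an (Nat.ble x.z (g24 v 4)) (cb x.p true (nt (Nat.beq (g24 v 5) 1))))))
    (fun n _ _ il ir o => an (il o) (frc (Nat.add o n) ir)) T

theorem btR_ok {tn N : ℕ} {G : TB ℕ} (hG : FOK tn G N) (T : BT PD) :
    ∀ o, btR G N T o = true → T.All (PD.Hold tn) := by
  induction T with
  | lf x =>
    intro o h
    obtain ⟨m, lo, hi, p, z⟩ := x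
    simp only [btR, an_iff, frc_eq, Nat.beq_eq, Nat.blt_eq, Nat.ble_eq, cb_true] at h
    obtain ⟨⟨rfl, h1⟩, e⟩ := h
    refine PD.hold_of (pad_in (pad_out (hG o h1) e.1.1.1 e.1.1.2 e.1.2.1 e.1.2.2 e.2.1 fun q => ?_))
    exact e.2.2.resolve_right (by rw [q]; simp [nt])
  | nd n l r il ir =>
    intro o h
    replace h : an (btR G N l o) (frc (Nat.add o n) (btR G N r)) = true := h
    rw [an_iff, frc_eq] at h
    exact ⟨il _ h.1, ir _ h.2⟩

end Pool.Agent.MP_c853c5_nt.X
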