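import Pool.Agent.MP_c853c5_nt.X.Pr

/-!
The bound of `vb_tab` with three knots.
-/

set_option autoImplicit false

namespace Pool.Agent.MP_c853c5_nt.X

/-- the extremal distribution function at `z / 128` is at most `c / 131072` -/
def knOK (i z c : ℕ) : Prop :=
  extS (63 / tabU i) (2 * tabU i) (128 - 2 * (63 / tabU i * tabU i)) z * 131072 ≤
    (((63 / tabU i + 1).factorial * (2 * tabU i) ^ (63 / tabU i) *
      (128 - 2 * (63 / tabU i * tabU i)) * c : ℕ) : ℤ)

instance (i z c : ℕ) : Decidable (knOK i z c) := by unfold knOK; infer_instance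

/-- slopes `A, B, C, D` over `1024`, knots `x ≤ y ≤ z` over `128` -/
def tabO4 (i A B C D x y z : ℕ) : Prop := 0 < x ∧ x ≤ y ∧ y ≤ z ∧ z ≤ 64 ∧
  knOK i x (A * x) ∧ knOK i y (A * y + B * (y - x)) ∧
  knOK i z (A * z + B * (z - x) + C * (z - y)) ∧
  262144 ≤ A * (128 + 2 * i) + B * (128 + 2 * i - 2 * x) + C * (128 + 2 * i - 2 * y) +
    D * (128 + 2 * i - 2 * z)

instance (i A B C D x y z : ℕ) : Decidable (tabO4 i A B C D x y z) := by
  unfold tabO4; infer_instance

lemma vb_knot {i z c : ℕ} (h : knOK i z c) (z1 : z ≤ 64) {x : ℝ} {l : List ℝ}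
    (hl : ∀ y ∈ x :: l, 0 ≤ y) {W : ℝ} (hW : W ∈ x :: l) (hu : ∀ y ∈ x :: l, y ≤ W)
    (h0 : 0 < (x :: l).sum) (h2 : 64 * W ≤ (i + 1) * (x :: l).sum) :
    vb (x :: l) (z * (x :: l).sum / 128) ≤ (x :: l).prod * (c / 131072) := by
  have WS : W ≤ (x :: l).sum := List.single_le_sum hl W hW
  have hU : 64 * W ≤ tabU i * (x :: l).sum := by
    rcases le_total (max (i + 1) 8) 64 with e | e
    · rw [tabU, min_eq_left e]
      refine h2.trans (mul_le_mul_of_nonneg_right ?_ h0.le)
      exact_mod_cast le_max_left (i + 1) 8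
    · rw [tabU, min_eq_right e]
      push_cast
      linarith
  have U0 : 0 < tabU i := by unfold tabU; omega
  unfold knOK at h
  generalize tabU i = U at *
  have m1 : 63 / U * U ≤ 63 := Nat.div_mul_le_self _ _
  have m2 : 63 < 63 / U * U + U := Nat.lt_div_mul_add U0
  generalize 63 / U = m at *
  obtain ⟨r, hr⟩ : ∃ r, 128 = 2 * (m * U) + r := Nat.exists_eq_add_of_le (by omega)
  rw [show 128 - 2 * (m * U) = r by omega] at h
  have r0 : 0 < r := by omega
  have r1 : (r : ℝ) ≤ (2 * U : ℕ) := by exact_mod_cast (by omega : r ≤ 2 * U)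
  have hr' : (128 : ℝ) = 2 * (m * U) + r := by exact_mod_cast hr
  have z2 : (z : ℝ) ≤ 64 := by exact_mod_cast z1
  have eP : ∀ s, vb (x :: l) s ≤ (x :: l).prod := fun s => by
    linarith [sym0 x l s, show 0 ≤ vb (x :: l) _ from dif_nonneg _ hl ((x :: l).sum - s)]
  rcases (List.prod_nonneg hl).eq_or_lt with e | e
  · exact (eP _).trans (by rw [← e, zero_mul])
  have hp : ∀ y ∈ x :: l, 0 < y := fun y hy => (hl y hy).lt_of_ne fun e' =>
    e.ne' (List.prod_eq_zero (e' ▸ hy))
  obtain ⟨u, hu'⟩ : ∃ u, (x :: l).sum = 128 * u := ⟨(x :: l).sum / 128, by ring⟩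
  have u0 : 0 < u := by linarith
  have hV : ∀ y ∈ x :: l, y ≤ (2 * U : ℕ) * u := fun y hy => by
    have := hu y hy
    rw [hu'] at hU
    push_cast
    linarith
  have eS : (x :: l).sum = m * ((2 * U : ℕ) * u) + r * u := by
    push_cast
    linear_combination u * hr' + hu'
  have g1 := pr_peak (m := m) (s := z * u) (show 0 < r * u by positivity)
    (mul_le_mul_of_nonneg_right r1 u0.le) (by rw [← eS]; nlinarith) l 0 x
    (fun y hy => ⟨hp y (by simp [hy]), hV y (by simp [hy])⟩) (hp x (by simp)) (hV x (by simp))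
    (by rw [← eS]; simp [add_comm])
  have g2 := vb_ext u0.le m (2 * U) r z
  have g3 : (extS m (2 * U) r z : ℝ) * 131072 ≤
      (m + 1).factorial * (2 * U : ℕ) ^ m * r * c := by exact_mod_cast h
  simp only [List.replicate_zero, List.append_nil, pow_zero, mul_one, ← List.prod_cons] at g1
  rw [hu', show z * (128 * u) / 128 = z * u by ring]
  have f0 : (0 : ℝ) < (m + 1).factorial := by positivity
  refine le_of_mul_le_mul_left ?_ (show 0 < (m + 1).factorial * (r * u * ((2 * U : ℕ) * u) ^ m) by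
    positivity)
  have g4 := mul_le_mul_of_nonneg_left g1 f0.le
  have g5 := mul_le_mul_of_nonneg_left g3 (show 0 ≤ (x :: l).prod * u ^ (m + 1) by positivity)
  rw [mul_pow] at g4 ⊢
  linear_combination g4 + (x :: l).prod * g2 + g5 / 131072

lemma cvx_chord {H : ℝ} {f : ℝ → ℝ} (h : ConvexOn ℝ (Set.Iic H) f) {u v w p q : ℝ} (h1 : u ≤ v)
    (h2 : v ≤ w) (h3 : w ≤ H) (hu : f u ≤ p + q * u) (hw : f w ≤ p + q * w) : f v ≤ p + q * v := by
  rcases (h1.trans h2).eq_or_lt with e | e
  · obtain rfl : v = u := by linarith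
    exact hu
  have d : 0 < w - u := sub_pos.2 e
  have := h.2 (show u ∈ Set.Iic H from (h1.trans h2).trans h3) (show w ∈ Set.Iic H from h3)
    (div_nonneg (sub_nonneg.2 h2) d.le) (div_nonneg (sub_nonneg.2 h1) d.le)
    (by field_simp; ring)
  simp only [smul_eq_mul] at this
  rw [show (w - v) / (w - u) * u + (v - u) / (w - u) * w = v by field_simp; ring] at this
  have a := mul_le_mul_of_nonneg_left hu (div_nonneg (sub_nonneg.2 h2) d.le)
  have b := mul_le_mul_of_nonneg_left hw (div_nonneg (sub_nonneg.2 h1) d.le)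
  have e : (w - v) / (w - u) * (p + q * u) + (v - u) / (w - u) * (p + q * w) = p + q * v := by
    field_simp
    ring
  linarith

lemma tail_four {H P W a b c d x y z : ℝ} {f : ℝ → ℝ} (h : ConvexOn ℝ (Set.Iic H) f)
    (h0 : ∀ s ≤ 0, f s = 0) (hH : 2 * f H = P) (hP : ∀ s, f s ≤ P)
    (hL : ∀ u v, u ≤ v → W * (f v - f u) ≤ P * (v - u)) (hW : 0 ≤ W) (x0 : 0 < x) (xy : x ≤ y)
    (yz : y ≤ z) (z1 : z ≤ H) (ha : 0 ≤ a) (hb : 0 ≤ b) (hc : 0 ≤ c) (hd : 0 ≤ d)
    (h1 : f x ≤ P * (a * x)) (h2 : f y ≤ P * (a * y + b * (y - x)))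
    (h3 : f z ≤ P * (a * z + b * (z - x) + c * (z - y)))
    (h4 : 1 ≤ a * (H + W / 2) + b * (H + W / 2 - x) + c * (H + W / 2 - y) + d * (H + W / 2 - z))
    (s : ℝ) :
    f s ≤ P * (a * max s 0 + b * max (s - x) 0 + c * max (s - y) 0 + d * max (s - z) 0) := by
  have P0 : 0 ≤ P := (h0 0 le_rfl).ge.trans (hP 0)
  rcases le_total s 0 with e0 | e0
  · rw [h0 s e0]
    positivity
  rw [max_eq_left e0]
  rcases le_total s x with e1 | e1
  · rw [max_eq_right (by linarith), max_eq_right (by linarith), max_eq_right (by linarith)]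
    have := cvx_chord h e0 e1 (by linarith) (p := 0) (q := P * a) (by simp [h0]) (by linarith)
    linarith
  rw [max_eq_left (sub_nonneg.2 e1)]
  rcases le_total s y with e2 | e2
  · rw [max_eq_right (by linarith), max_eq_right (by linarith)]
    have := cvx_chord h e1 e2 (by linarith) (p := -(P * b * x)) (q := P * (a + b)) (by linarith)
      (by linarith)
    linarith
  rw [max_eq_left (sub_nonneg.2 e2)]
  rcases le_total s z with e3 | e3
  · rw [max_eq_right (by linarith)]
    have := cvx_chord h e2 e3 z1 (p := -(P * (b * x + c * y))) (q := P * (a + b + c))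
      (by linarith) (by linarith)
    linarith
  have z0 : 0 < z := by linarith
  obtain ⟨k, hk⟩ : ∃ k, b * x + c * y = k * z := ⟨(b * x + c * y) / z, by field_simp⟩
  have k0 : 0 ≤ k := le_of_mul_le_mul_right (by rw [← hk]; nlinarith) z0
  have k1 : k ≤ b + c := le_of_mul_le_mul_right (by rw [← hk]; nlinarith) z0
  have := tail_gen h h0 hH hP hL hW z0 z1 (a := a + b + c - k) (b := d + k) (by linarith)
    (by linarith) (by linear_combination h3 - P * hk) (by linear_combination h4 - hk) s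
  rw [max_eq_left e0, max_eq_left (sub_nonneg.2 e3)] at this
  rw [max_eq_left (sub_nonneg.2 e3)]
  linear_combination this + P * hk

theorem vb_tab4 {i A B C D x y z : ℕ} (h : tabO4 i A B C D x y z) {l : List ℝ}
    (hl : ∀ y ∈ l, 0 ≤ y) {W : ℝ} (hW : W ∈ l) (hu : ∀ y ∈ l, y ≤ W) (h0 : 0 < l.sum)
    (h1 : i * l.sum ≤ 64 * W) (h2 : 64 * W ≤ (i + 1) * l.sum) (s : ℝ) :
    vb l s ≤ l.prod * (A / (1024 * l.sum) * max s 0 +
      B / (1024 * l.sum) * max (s - x * l.sum / 128) 0 +
      C / (1024 * l.sum) * max (s - y * l.sum / 128) 0 +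
      D / (1024 * l.sum) * max (s - z * l.sum / 128) 0) := by
  obtain ⟨x0, xy, yz, z1, k1, k2, k3, h4⟩ := h
  obtain _ | ⟨w, l⟩ := l
  · simp at hW
  have g1 := vb_knot k1 (by omega) hl hW hu h0 h2
  have g2 := vb_knot k2 (by omega) hl hW hu h0 h2
  have g3 := vb_knot k3 z1 hl hW hu h0 h2
  have h5 : (262144 : ℝ) ≤ A * (128 + 2 * i) + B * (128 + 2 * i - 2 * x) +
      C * (128 + 2 * i - 2 * y) + D * (128 + 2 * i - 2 * z) := by
    have := (Nat.cast_le (α := ℝ)).2 h4
    push_cast [Nat.cast_sub (show 2 * x ≤ 128 + 2 * i by omega),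
      Nat.cast_sub (show 2 * y ≤ 128 + 2 * i by omega),
      Nat.cast_sub (show 2 * z ≤ 128 + 2 * i by omega)] at this
    exact this
  push_cast [Nat.cast_sub xy, Nat.cast_sub yz, Nat.cast_sub (xy.trans yz)] at g1 g2 g3
  have c := vb_cvx l w hl
  have e0 : ∀ s ≤ 0, vb (w :: l) s = 0 := dif_neg hl _
  have eH : 2 * vb (w :: l) ((w :: l).sum / 2) = (w :: l).prod := by
    have := sym0 w l ((w :: l).sum / 2)
    rwa [show (w :: l).sum - (w :: l).sum / 2 = (w :: l).sum / 2 by ring, ← two_mul] at this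
  have eP : ∀ s, vb (w :: l) s ≤ (w :: l).prod := fun s => by
    linarith [sym0 w l s, show 0 ≤ vb (w :: l) _ from dif_nonneg _ hl ((w :: l).sum - s)]
  have x1 : (0 : ℝ) < x := by exact_mod_cast x0
  have xy' : (x : ℝ) ≤ y := by exact_mod_cast xy
  have yz' : (y : ℝ) ≤ z := by exact_mod_cast yz
  have z2 : (z : ℝ) ≤ 64 := by exact_mod_cast z1
  have L := fun u v => vb_lip hl (Or.inr hW) (a := u) (b := v)
  have W0 := hl W hW
  generalize (w :: l).sum = S at *
  refine tail_four c e0 eH eP L W0 (by positivity) (by nlinarith) (by nlinarith) (by nlinarith)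
    (by positivity) (by positivity) (by positivity) (by positivity) ?_ ?_ ?_ ?_ s
  · exact g1.trans (le_of_eq (by field_simp; ring))
  · exact g2.trans (le_of_eq (by field_simp; ring))
  · exact g3.trans (le_of_eq (by field_simp; ring))
  · rw [div_mul_eq_mul_div, div_mul_eq_mul_div, div_mul_eq_mul_div, div_mul_eq_mul_div, ← add_div,
      ← add_div, ← add_div, le_div_iff₀ (by positivity)]
    have t1 := mul_le_mul_of_nonneg_left h1 (show (0 : ℝ) ≤ A + B + C + D by positivity)
    have t2 := mul_le_mul_of_nonneg_right h5 h0.le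
    linear_combination t1 / 128 + t2 / 256

end Pool.Agent.MP_c853c5_nt.X
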