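import Pool.Agent.MP_c853c5_nt.X.QvD
import Pool.Agent.MP_c853c5_nt.X.GtH
import Pool.Agent.MP_c853c5_nt.X.E2

/-!
Soundness of the three uses of a packed table.
-/

set_option autoImplicit false

open Finset

namespace Pool.Agent.MP_c853c5_nt.X

open Pool.Agent.MP_c853c5_nt.S Pool.Agent.MP_c853c5_nt.REG

variable {S : NS} {A : ℕ → Finset ℕ} {t : ℝ} {q : PQ} {e : ℕ} {c f : ℕ → ℕ} {p : QP}

/-- the table has the rows `(c r, f r)` -/
structure QF (q : PQ) (e : ℕ) (c f : ℕ → ℕ) : Prop where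
  w : q.w = 232
  R : q.R = pw 232 (fun r => c r * 2 ^ 40) q.n
  e : e = pw 232 f q.n
  c : ∀ r, c r < 2 ^ 192
  f : ∀ r, f r < 2 ^ 40

def QOK (t : ℝ) (p : QP) : Prop := ∀ (sg : Bool) (S : NS) (A : ℕ → Finset ℕ) (s : ℕ) (K : KQ),
  Inv S A → p S s K < INF → ∃ (q : PQ) (e G u : ℕ) (c f : ℕ → ℕ), p S s K = K q e G u ∧
    QF q e c f ∧ (∀ j < S.k, d4 G j < q.k) ∧
    H sg t S.k S.kind (fun a => Om S A a ∧ ∀ r < q.n, Pr S.k G (c r, f r) a) 0

def qE (q : PQ) (e : ℕ) : PQ := ⟨q.k, q.n, q.w, q.R + e⟩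

lemma lt16 (G j : ℕ) : d4 G j < 16 := Nat.mod_lt _ (by norm_num)

lemma qfl_lt {x y : ℕ} (hx : x < 2 ^ 192) (hy : y < 2 ^ 40) : x * 2 ^ 40 + y < 2 ^ 232 := by omega

lemma row_pw {n r : ℕ} (hc : ∀ r, c r < 2 ^ 192) (hf : ∀ r, f r < 2 ^ 40) (hr : r < n) :
    (∀ g < 16, dg (rowQ 232 (pw 232 (fun r => c r * 2 ^ 40 + f r) n) r).1 (12 * g) =
      dg (c r) (12 * g)) ∧ (rowQ 232 (pw 232 (fun r => c r * 2 ^ 40 + f r) n) r).2 = f r := by
  have l : ∀ r < n, c r * 2 ^ 40 + f r < 2 ^ 232 := fun r _ => qfl_lt (hc r) (hf r)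
  have := hf r
  refine ⟨fun g hg => ?_, ?_⟩
  · show _ >>> (232 * r + 40) >>> (12 * g) % 2 ^ 12 = c r >>> (12 * g) % 2 ^ 12
    rw [← Nat.shiftRight_add, add_assoc, pw_get l hr (by omega), Nat.shiftRight_add,
      Nat.shiftRight_eq_div_pow _ 40, show (c r * 2 ^ 40 + f r) / 2 ^ 40 = c r by omega]
  · show _ >>> (232 * r + 0) % 2 ^ 40 = _
    rw [pw_get l hr (by omega), Nat.shiftRight_zero]
    omega

namespace QF

variable (h : QF q e c f)
include h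

lemma rowE {r : ℕ} (hr : r < q.n) : (∀ g < 16, dg (rowQ q.w (q.R + e) r).1 (12 * g) =
    dg (c r) (12 * g)) ∧ (rowQ q.w (q.R + e) r).2 = f r := by
  rw [h.w, h.R, h.e, pw_add]
  exact row_pw h.c h.f hr

lemma row0 {r : ℕ} (hr : r < q.n) : (∀ g < 16, dg (rowQ q.w q.R r).1 (12 * g) =
    dg (c r) (12 * g)) ∧ (rowQ q.w q.R r).2 = 0 := by
  rw [h.w, h.R, pw_congr (g := fun r => c r * 2 ^ 40 + 0) fun _ _ => (add_zero _).symm]
  exact row_pw h.c (fun _ => Nat.two_pow_pos _) hr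

lemma w4 : 44 ≤ q.w := by rw [h.w]; norm_num

lemma pr {G r k : ℕ} {a : Pt} (hr : r < q.n) (g : Pr k G (rowQ q.w (q.R + e) r) a) :
    Pr k G (c r, f r) a := fun b h1 h2 => by
  have := g b h1 h2
  simp only [wt, (h.rowE hr).1 _ (lt16 _ _), (h.rowE hr).2] at this
  exact this

lemma cE {g : ℕ} (hg : g < 16) : cQ (qE q e) g = cQ q g := by
  rw [cQ_eq h.w4, cQ_eq (q := qE q e) h.w4]
  exact pw_congr fun r hr => congrArg (· % 64) (((h.rowE hr).1 g hg).trans ((h.row0 hr).1 g hg).symm)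

lemma z0 (g : ℕ) : e + zQ q g =
    pw q.w (fun r => f r + 8796093022208 - uQ q g r * 1000000) q.n := by
  rw [zQ_eq h.w4, h.e, ← h.w, pw_add]
  refine pw_congr fun r hr => ?_
  have := uQ_lt q g r
  rw [(h.row0 hr).2]
  omega

lemma zE {g : ℕ} (hg : g < 16) : zQ (qE q e) g = e + zQ q g := by
  rw [h.z0, zQ_eq (q := qE q e) h.w4]
  exact pw_congr fun r hr => congrArg₂ (fun x y => x + 8796093022208 - y % 64 * 1000000)
    (h.rowE hr).2 (((h.rowE hr).1 g hg).trans ((h.row0 hr).1 g hg).symm)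

lemma okE : okQ (qE q e) = okQ q := by
  have e1 : ones 12 q.k * 4032 = pw 12 (fun _ => 4032) q.k := by
    rw [ones, one_eq, one_eq]
    exact (congrArg (· * 4032) (pw_one (by omega) _)).trans (pw_mul ..)
  show band (Nat.ble (12 * q.k + 40) q.w) (Nat.beq ((q.R + e) &&& mQ q * (ones 12 q.k * 4032) <<< 40)
    0) = band (Nat.ble (12 * q.k + 40) q.w) (Nat.beq (q.R &&& mQ q * (ones 12 q.k * 4032) <<< 40) 0)
  cases g : Nat.ble (12 * q.k + 40) q.w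
  · rfl
  have l : pw 12 (fun _ => 4032) q.k * 2 ^ 40 < 2 ^ 232 :=
    (Nat.mul_lt_mul_of_pos_right (pw_lt fun _ _ => by norm_num) (Nat.two_pow_pos _)).trans_le
      (by rw [← pow_add, ← h.w]; exact Nat.pow_le_pow_right two_pos (Nat.ble_eq ▸ g))
  rw [e1, mQ_eq h.w4, h.w, h.R, h.e, pw_add, pw_mul, Nat.shiftLeft_eq, one_mul,
    pw_land (by norm_num) (fun r _ => qfl_lt (h.c r) (h.f r)) fun _ _ => l,
    pw_land (by norm_num) (fun r _ => (Nat.le_add_right _ _).trans_lt (qfl_lt (h.c r) (h.f r)))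
      fun _ _ => l, pw_congr fun r _ => ?_]
  refine Nat.eq_of_testBit_eq fun i => ?_
  rw [Nat.testBit_and, Nat.testBit_and, mul_comm (c r), Nat.testBit_two_pow_mul_add _ (h.f r),
    Nat.testBit_mul_two_pow, Nat.testBit_two_pow_mul]
  split_ifs with d
  · simp [d.not_ge]
  · simp [not_lt.1 d]

lemma xE {a b : ℕ} (ha : a < 16) (hb : b < 16) : xQ (qE q e) a b = xQ q a b ∧
    dQ (qE q e) a b = dQ q a b ∧ sQ (qE q e) a b = sQ q a b := by
  have e1 : xQ (qE q e) a b = xQ q a b := by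
    rw [xQ, xQ, h.cE ha, h.cE hb]
    rfl
  have e2 : dQ (qE q e) a b = dQ q a b := by
    rw [dQ, dQ, e1]
    rfl
  exact ⟨e1, e2, by rw [sQ, sQ, e1, e2]; rfl⟩

lemma fE (g : Gr) (G : ℕ) (K : KA) (n : ℕ) : fAc (qE q e) g S G K n = fAc q g S G K n := by
  induction n with
  | zero => rfl
  | succ n ih =>
    funext P Q V U L
    show force (d4 G (n + 1)) (fun a => force (d4 G (get S.par (n + 1)))
      (fA1 _ g S (fAc _ g S G K n) _ P Q V U L a)) = force (d4 G (n + 1)) (fun a =>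
        force (d4 G (get S.par (n + 1))) (fA1 _ g S (fAc _ g S G K n) _ P Q V U L a))
    simp only [force_eq, fA1, ih, h.xE (lt16 _ _) (lt16 _ _)]

end QF

lemma pair_lt : ∀ a < 16, ∀ b < 16, nA (a * 16 * (b * 16 + 1) - 1) < 16 ∧
    nP (a * 16 * (b * 16 + 1) - 1) < 16 := by decide +kernel

lemma QF.tE (h : QF q e c f) (T G C : ℕ) (K : ℕ → ℕ → ℕ → KT) (n : N2) :
    tN (qE q e) T G C K n = tN q T G C K n := by
  induction n with
  | nil => rfl
  | cons s p l c' h' H b o r ih =>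
    funext o γ P Q A W U L E F
    have e1 := tN_cons (q := qE q e) (s := ⟨γ, P, Q, A, W, U, L, E, F⟩) (C := C) T G K s p l c' h' H b
    have e2 := tN_cons (q := q) (s := ⟨γ, P, Q, A, W, U, L, E, F⟩) (C := C) T G K s p l c' h' H b
    refine (e1 _ r o).trans (Eq.trans ?_ (e2 _ r o).symm)
    have := pair_lt _ (Nat.mod_lt ((G >>> s ^^^ G >>> p) >>> 4) (by norm_num)) _
      (Nat.mod_lt (G >>> p >>> 4) (by norm_num))
    rw [show 240 = (2 ^ 4 - 1) * 2 ^ 4 from rfl, land_mask, land_mask, ih]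
    generalize _ * 16 * _ = n at *
    cases n with
    | zero => rfl
    | succ n =>
      simp only [aJ, sJ, dJ, xJ, h.xE (a := nA n) (b := nP n) this.1 this.2]

theorem gtQ_ok {τ : ℕ} (hτ : τ ≤ 30) (hp : QOK t p) : AOK2 t (gtQ τ p) :=
    fun x _ S A w s K _ h hl => by
  rw [gtQ, frc_eq] at hl ⊢
  obtain ⟨q, e, G, u, c, f, e1, h1, h2, h3⟩ := hp true S A _ _ h.gx.hI hl
  have e2 : tH2 q x S (fun v => K v u) τ G (Nat.mod s 32) (e + zQ q (G % 16)) =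
      tH (fun _ _ _ => 0) (qE q e) x S (fun v => K v u) τ G (Nat.mod s 32) := by
    rw [tH, tH2, h1.tE, vQ, vQ, h1.okE, ← h1.zE (Nat.mod_lt _ (by norm_num))]
    rfl
  rw [e1.trans e2] at hl ⊢
  obtain ⟨N, ν, e3, h4⟩ := tH_ok (q := qE q e) hτ h
    (fun _ => ⟨h2, h3.anti fun a ha => ⟨ha.1, fun r hr => h1.pr hr (ha.2 r hr)⟩⟩) hl
  exact ⟨N, ν, u, 0, e3.trans (zero_add _).symm, h4⟩

theorem fqQ_ok (hp : QOK t p) : Itok t (fqQ p) := fun g _ sg S A s K _ hI hg hl => by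
  rw [fqQ] at hl ⊢
  obtain ⟨q, e, G, u, c, f, e1, h1, h2, h3⟩ := hp sg S A _ _ hI hl
  rw [e1] at hl ⊢
  obtain ⟨g1, g2⟩ := grd_lt hl
  rw [band_eq, Bool.and_eq_true, ← h1.okE] at g1
  refine ⟨fpM (qE q e) g S G, u, 0, g2.trans ?_, ?_⟩
  · rw [fpM, force_eq, h1.fE, h1.zE (g := Nat.mod G 16) (lt16 G 0), zero_add]
    rfl
  rw [Nat.cast_zero, zero_div]
  exact h3.anti fun a ⟨b1, _, _, b3, b4⟩ => ⟨b1, fun r hr =>
    h1.pr hr (fpM_ok (q := qE q e) hI hg h1.w4 g1.1 g1.2 h2 b1 b3 b4 hr)⟩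

lemma hN_ok (hw : 44 ≤ q.w) (G : ℕ) (K : ℕ → ℕ → ℕ) (m : ℕ) : ∀ P V,
    hN q S.lo S.hi (G <<< 4) K (mk3 S.par (m + 1)) P V =
      K (P + pw q.w (fun r => sNeg q S.par G m r (get S.lo)) q.n)
        (V + pw q.w (fun r => sPos q S.par G m r (fHi S) + sNeg q S.par G m r fun _ => 16) q.n) := by
  induction m with
  | zero => simp [sPos, sNeg, pw, hN, mk3]
  | succ m ih =>
    intro P V
    have e : hN q S.lo S.hi (G <<< 4) K (mk3 S.par (m + 1 + 1)) P V =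
        Nat.rec (motive := fun _ => ℕ) (hN q S.lo S.hi (G <<< 4) K (mk3 S.par (m + 1)) P V)
          (fun n _ => hN q S.lo S.hi (G <<< 4) K (mk3 S.par (m + 1))
            (P + sJ q n * get S.lo (m + 1)) (V + aJ q n * 16 + dJ q n * get S.hi (m + 1)))
          ((((G <<< 4) >>> (4 * (m + 1)) ^^^ (G <<< 4) >>> (4 * get S.par (m + 1))) &&& 240) *
            (((G <<< 4) >>> (4 * get S.par (m + 1)) &&& 240) + 1)) := rfl
    rw [e, pair_eq]
    simp only [sPos_succ, sNeg_succ, ih]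
    by_cases d : d4 G (m + 1) = d4 G (get S.par (m + 1))
    · simp [d]
    obtain ⟨p1, p2, p3⟩ := pair_ok (d4 G (m + 1)) (Nat.mod_lt _ (by norm_num))
      (d4 G (get S.par (m + 1))) (Nat.mod_lt _ (by norm_num)) d
    rw [p1]
    simp only [aJ, sJ, dJ, p2, p3, sQ_eq hw, dQ_eq hw, Nat.add_eq, pw_add, pw_mul, add_assoc, fHi]
    exact congrArg _ (congrArg _ (pw_congr fun r _ => by ring))

theorem qvR_ok (hp : QOK t p) : XTok t (qvR p) := fun _ _ _ _ sg S s hl A hI => by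
  rw [qvR] at hl ⊢
  obtain ⟨q, e, G, u, c, f, e1, h1, h2, h3⟩ := hp sg S A _ _ hI hl
  have k1 := hI.pos
  have k2 := hI.le
  have w4 := h1.w4
  have e2 := hN_ok (S := S) w4 G (fun P V => gz (Nat.add (vQ q) (Nat.xor (mQ q)
    (Nat.land (Nat.shiftRight (Nat.sub P V) 43) (mQ q)))) 0) (S.k - 1) (e + zQ q (d4 G 0)) 0
  rw [Nat.sub_add_cancel k1] at e2
  rw [e1.trans e2] at hl ⊢
  obtain ⟨g1, g2⟩ := gz_lt hl
  rw [g2, Nat.cast_zero, zero_div]
  have a1 := fun r => sNeg_le (q := q) (par := S.par) (G := G) (m := S.k - 1) (r := r)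
    (c := 16777232) (f := get S.lo) (by omega) fun j _ => by have := get_lt S.lo j; omega
  have a2 := fun r => sNeg_le (q := q) (par := S.par) (G := G) (m := S.k - 1) (r := r)
    (c := 16) (f := fun _ => 16) (by omega) fun j _ => le_rfl
  have a3 := fun r => sPos_le (q := q) (par := S.par) (G := G) (m := S.k - 1) (r := r)
    (c := 16777232) (f := fHi S) (by omega) fun j _ => Nat.add_le_add_right (get_lt _ j).le 16
  have a5 := uQ_lt q (d4 G 0)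
  simp only [Nat.add_eq, Nat.add_eq_zero_iff, Nat.xor_eq, Nat.xor_eq_zero_iff, Nat.shiftRight_eq,
    Nat.land_eq, Nat.sub_eq, h1.z0, zero_add, pw_add, vQ, cnd_eq, mQ_eq w4] at g1
  rw [pw_sub fun r _ => by have := a2 r; have := a3 r; have := a5 r; omega,
    pw_mask (fun r _ => lt_w w4 (by have := a1 r; have := h1.f r; omega)) (by omega)] at g1
  refine h3.anti fun a ha => ⟨ha, fun r hr b b1 b2 => ?_⟩
  have hu : ∀ j < S.k, wt (c r) G j = uQ q (d4 G j) r := fun j hj => by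
    rw [wt, ← (h1.row0 hr).1 _ (lt16 _ _),
      okQ_ok w4 (by_contra fun d => by simp [d] at g1) hr (h2 j hj)]
  have g3 := congrArg (· / 2 ^ (q.w * r) % 2 ^ 1) g1.2
  rw [pw_fld (by omega) (fun _ _ => one_lt_two) hr,
    pw_fld (b := 1) (by omega) (fun _ _ => by omega) hr, Nat.shiftRight_eq_div_pow] at g3
  have g4 : sNeg q S.par G (S.k - 1) r (get S.lo) ≤ sNeg q S.par G (S.k - 1) r (fLo S) +
      sNeg q S.par G (S.k - 1) r fun _ => 16 :=
    le_trans (sum_le_sum fun j _ => Nat.mul_le_mul_left _ le_tsub_add) (sNeg_add ..).le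
  have g5 : ((uQ q (d4 G 0) r * 1000000 + sPos q S.par G (S.k - 1) r (fHi S) : ℕ) : ℝ) ≤
      (f r + sNeg q S.par G (S.k - 1) r (fLo S) : ℕ) := Nat.cast_le.2 (by
    have := a2 r
    have := a3 r
    have := a5 r
    omega)
  have g6 : (∑ j ∈ Ico 1 S.k, (wt (c r) G j - wt (c r) G (get S.par j)) * Y A b j) * SC ≤
      (sPos q S.par G (S.k - 1) r (fHi S) : ℝ) - sNeg q S.par G (S.k - 1) r (fLo S) := by
    rw [sPos, sNeg, Nat.sub_add_cancel k1, Nat.cast_sum, Nat.cast_sum, ← sum_sub_distrib, sum_mul]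
    refine sum_le_sum fun j hj => ?_
    obtain ⟨j1, j2⟩ := mem_Ico.1 hj
    rw [hu j j2, hu _ ((hI.par j j1 j2).trans j2)]
    exact term_le _ _ _ _ (bx16_of hI ha k2 b1 j2).1 (bx16_of hI ha k2 b1 j2).2
  rw [hI.wsum, Y, hI.top, b2, le_div_iff₀ SC_pos, add_mul, mul_one, hu 0 k1]
  push_cast at g5
  rw [SC_eq_SndL] at *
  linarith

theorem altR_ok {a b : Rule} (ha : XTok t a) (hb : XTok t b) : XTok t (altR a b) :=
    fun T ih h1 h2 sg S s => by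
  rw [altR]
  cases Nat.mod s 2
  exacts [ha T ih h1 h2 sg S _, hb T ih h1 h2 sg S _]

theorem it6_ok {i2 i3 iu i8 ku k8 : Item} (h2 : Itok t i2) (h3 : Itok t i3) (hu : Itok t iu)
    (h8 : Itok t i8) (gu : Itok t ku) (g8 : Itok t k8) : (it6 i2 i3 iu i8 ku k8).All (Itok t) :=
  ⟨⟨⟨⟨kill_it t, small_it t⟩, child_it t⟩, h2, hu⟩, ⟨h3, h8⟩, gu, g8⟩

theorem ia7_ok {i2 i3 iu i8 j2 j3 ku k8 lu l8 : AItem} (h2 : AOK2 t i2) (h3 : AOK2 t i3)
    (hu : AOK2 t iu) (h8 : AOK2 t i8) (g2 : AOK2 t j2) (g3 : AOK2 t j3) (a1 : AOK2 t ku)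
    (a2 : AOK2 t k8) (a3 : AOK2 t lu) (a4 : AOK2 t l8) :
    (ia7 i2 i3 iu i8 j2 j3 ku k8 lu l8).All (AOK2 t) :=
  ⟨ia6_ok h2 h3 hu h8 g2 g3, ⟨a1, a2⟩, a3, a4⟩

end Pool.Agent.MP_c853c5_nt.X
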