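import Pool.Agent.MP_c853c5_nt.X.QvA
import Pool.Agent.MP_c853c5_nt.X.EW

/-!
The packed table of the uniform leaves at the plain level.
-/

set_option autoImplicit false

open Finset

namespace Pool.Agent.MP_c853c5_nt.X

open Pool.Agent.MP_c853c5_nt.S Pool.Agent.MP_c853c5_nt.REG Pool.Agent.MP_c853c5_nt.Y

variable {t : ℝ} {tn : ℕ}

lemma pkL_eq (L : List ℕ) : ∀ {n : ℕ}, L.length ≤ n → pkL L = pw 232 (fun r => L.getD r 0) n := by
  induction L with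
  | nil => simp [pw, pkL]
  | cons y L ih =>
    rintro (_ | n) h
    · simp at h
    show y + pkL L <<< 232 = _
    rw [ih (Nat.le_of_succ_le_succ h), Nat.shiftLeft_eq, pw, pw, sum_range_succ', sum_mul, add_comm,
      mul_zero, pow_zero, mul_one]
    exact congrArg (· + y) (sum_congr rfl fun r _ => by rw [mul_add, pow_add, mul_assoc]; rfl)

lemma d4_rep {c m : ℕ} (hc : c < 16) (hm : m < 16) : d4 (c * 1229782938247303441) m = c := by
  rw [mul_comm, show 1229782938247303441 = pw 4 (fun _ => 1) 16 by decide +kernel, pw_mul]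
  show _ >>> (4 * m + 0) % 2 ^ 4 = c
  rw [pw_get (w := 4) (s := 0) (b := 4) (fun _ _ => by omega) hm le_rfl, Nat.shiftRight_zero]
  omega

lemma lab_ok {G h a m : ℕ} (ha : a ≤ 13) (hm : m < 16)
    (e : Nat.land (Nat.xor G (fH4 h)) (mH a h) = 0) :
    if m = iH h ∨ m = jH h then d4 G m = 4 else d4 G m &&& (a + 2 * neH h) = 0 := by
  have e1 : ∀ x y, d4 (Nat.land x y) m = d4 x m &&& d4 y m := fun x y =>
    (congrArg (· % 2 ^ 4) Nat.shiftRight_and_distrib).trans Nat.and_mod_two_pow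
  have e2 : ∀ x y, d4 (Nat.lor x y) m = d4 x m ||| d4 y m := fun x y =>
    (congrArg (· % 2 ^ 4) Nat.shiftRight_or_distrib).trans Nat.or_mod_two_pow
  have e3 : ∀ x y, d4 (Nat.xor x y) m = d4 x m ^^^ d4 y m := fun x y =>
    (congrArg (· % 2 ^ 4) Nat.shiftRight_xor_distrib).trans Nat.xor_mod_two_pow
  have e4 : ∀ i, d4 (Nat.shiftLeft 15 (Nat.mul 4 i)) m = if m = i then 15 else 0 := fun i => by
    simpa [put4, d4, mod_eq] using d4_put 0 i (c := 15) (by norm_num) m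
  have n1 : a + 2 * neH h < 16 := by
    simp only [neH, Nat.sub_eq]
    omega
  have g := congrArg (d4 · m) e
  simp only [fH4, mH, xH, e1, e2, e3, e4, Nat.add_eq, Nat.mul_eq (y := neH h)] at g
  rw [show d4 (Nat.mul _ _) m = _ from d4_rep n1 hm,
    show d4 4919131752989213764 m = 4 from d4_rep (c := 4) (by norm_num) hm,
    show d4 0 m = 0 by simp [d4, mod_eq]] at g
  have k : ∀ x < 16, ∀ y < 16, (x ^^^ 4) &&& (15 ||| y) = 0 → x = 4 := by decide +kernel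
  by_cases c1 : m = iH h <;> by_cases c2 : m = jH h
  · rw [if_pos c1, if_pos c2] at g
    exact (if_pos (Or.inl c1)).mpr (k _ (lt16 _ _) _ n1 g)
  · rw [if_pos c1, if_neg c2] at g
    exact (if_pos (Or.inl c1)).mpr (k _ (lt16 _ _) _ n1 g)
  · rw [if_neg c1, if_pos c2] at g
    exact (if_pos (Or.inr c2)).mpr (k _ (lt16 _ _) _ n1 g)
  · rw [if_neg c1, if_neg c2] at g
    rw [if_neg (by tauto)]
    simpa using g

lemma mem_ix {α : Type} {L : List α} {F : ℕ → α} {n : ℕ} (I : List ℕ) (h : ∀ r ∈ I, r < n)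
    (e : L = I.map F) {y : α} (hy : y ∈ L) : ∃ r < n, y = F r := by
  obtain ⟨r, h1, h2⟩ := List.mem_map.1 (e ▸ hy)
  exact ⟨r, h r h1, h2.symm⟩

lemma uw_rows {d c : ℕ} (h : tn + d ≤ 500000) {b : Bool} (e : bit c 2 = !b) {C : List ℕ}
    (hC : C = cnd b [1, 549755830272, 549755830276, 33558528, 33558530, 549822947328, 549822947332]
      [1, 16384, 16386]) : (C.length ≤ 7 ∧ (uwA tn c).length ≤ 7 ∧ (uwB c).length ≤ 7) ∧
    (∀ r, C.getD r 0 < 2 ^ 192 ∧ (uwB c).getD r 0 * d ≤ (uwA tn c).getD r 0 ∧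
      (uwA tn c).getD r 0 < 2 ^ 40) ∧
    ∀ y ∈ cnd b (uw1 tn d (bit c 0) (bit c 1)) (uw2 tn d), ∃ r < 7,
      y = (C.getD r 0, (uwA tn c).getD r 0 - (uwB c).getD r 0 * d) := by
  rw [hC, uwA, uwB, e]
  refine ⟨by cases b <;> simp [cnd], fun r => ?_, ?_⟩
  · cases b <;> cases bit c 0 <;> cases bit c 1 <;>
      rcases r with _ | _ | _ | _ | _ | _ | _ | r <;> simp [cnd, band] <;> omega
  refine fun y hy => mem_ix (cnd b (cnd (bit c 0) (cnd (bit c 1) [0, 1, 2, 3, 4, 5, 6] [0, 1, 2, 3])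
    (cnd (bit c 1) [0, 1, 3, 4] [0, 1, 3])) [0, 1, 2]) ?_ ?_ hy <;>
    cases b <;> cases bit c 0 <;> cases bit c 1 <;>
    simp only [cnd, band, uw1, uw2, List.map, List.getD_cons_zero, List.getD_cons_succ, Bool.not_true,
      Bool.not_false, List.getD_nil, List.cons.injEq, Prod.mk.injEq, true_and, and_true] <;> first | decide | omega

lemma neH_eq {h : ℕ} (a : iH h ≤ jH h) : neH h = if iH h = jH h then 0 else 1 := by
  simp only [neH, Nat.sub_eq]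
  split_ifs <;> omega

lemma bit_two {x n : ℕ} (hn : n ≤ 1) : bit (x % 4 + 4 * n) 2 = !Nat.beq n 0 ∧
    bit (x % 4 + 4 * n) 0 = bit x 0 ∧ bit (x % 4 + 4 * n) 1 = bit x 1 := by
  have e : ∀ y < 4, ∀ n ≤ 1, bit (y + 4 * n) 2 = !Nat.beq n 0 := by decide
  exact ⟨e _ (Nat.mod_lt _ (by norm_num)) n hn, congrArg (Nat.beq · 1) (by
    simp only [mod_eq, Nat.shiftRight_eq, Nat.shiftRight_eq_div_pow]; omega),
    congrArg (Nat.beq · 1) (by
      simp only [mod_eq, Nat.shiftRight_eq, Nat.shiftRight_eq_div_pow]; omega)⟩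

lemma qf_of {k n e : ℕ} {C : List ℕ} {f : ℕ → ℕ} (l : C.length ≤ n) (hc : ∀ r, C.getD r 0 < 2 ^ 192)
    (he : e = pw 232 f n) (hf : ∀ r, f r < 2 ^ 40) :
    QF ⟨k, n, 232, Nat.shiftLeft (pkL C) 40⟩ e (fun r => C.getD r 0) f :=
  ⟨rfl, (Nat.shiftLeft_eq _ _).trans ((congrArg (· * _) (pkL_eq _ l)).trans (pw_mul ..)), he, hc, hf⟩

theorem uwK_ok {Z : Sys} (h1 : 1 / 3 ≤ t) (h2 : t < (tn : ℝ) / SC) (cut : CutStmt2)
    (hL : LeafSG (sysW.or2 Z)) (hL2 : LeafS2G (sysW.or2 Z))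
    {ct : ℕ → ℕ → ℕ → Bool} (hct : ∀ r z d, ct r z d = true →
      Crs (sysW.or2 Z) ((tn : ℝ) / SC) ((z : ℝ) / SC) ((d : ℝ) / SC)) {sg : Bool} {S : NS}
    {A : ℕ → Finset ℕ} {K : KQ} {v G h : ℕ} (hI : Inv S A) (hl : uwK tn ct K S.k S.kd v G h < INF) :
    ∃ (q : PQ) (e G' u : ℕ) (c f : ℕ → ℕ), uwK tn ct K S.k S.kd v G h = K q e G' u ∧
      QF q e c f ∧ (∀ j < S.k, d4 G' j < q.k) ∧
      H sg t S.k S.kind (fun a => Om S A a ∧ ∀ r < q.n, Pr S.k G' (c r, f r) a) 0 := by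
  obtain ⟨g1, g2⟩ := gz_lt hl
  obtain ⟨g3, g4⟩ := Nat.add_eq_zero_iff.1 g1
  have k2 := hI.le
  simp only [uwY, frc_eq, gH, lH, mn0, Nat.add_eq, Nat.sub_eq, Nat.add_eq_zero_iff, cnd_eq,
    Nat.succ_eq_add_one, ite_eq_left_iff, one_ne_zero, imp_false, not_not] at g3
  obtain ⟨⟨⟨a1, a2⟩, a3⟩, ⟨a4, a5⟩, a6⟩ := g3
  have n1 := neH_eq (h := h) (by omega)
  have n2 : Nat.beq (neH h) 0 = Nat.beq (iH h) (jH h) := by
    rw [Bool.eq_iff_iff, Nat.beq_eq, Nat.beq_eq, n1]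
    split_ifs with c <;> simp [c]
  obtain ⟨⟨l1, l2, l3⟩, b1, b2⟩ := uw_rows (tn := tn) (d := Nat.shiftRight h 14)
    (c := Nat.shiftRight h 8 % 4 + 4 * neH h) (by omega)
    (bit_two (by rw [n1]; split_ifs <;> omega)).1 rfl
  have b3 := pw_sub (w := 232) (n := 7) fun r _ => (b1 r).2.1
  rw [← pw_mul, ← pkL_eq _ l2, ← pkL_eq _ l3, mul_comm (pkL _)] at b3
  have b4 : uwE tn h = _ := Eq.trans (by
    simp only [uwE, frc_eq, Nat.sub_eq, Nat.mul_eq, Nat.add_eq, mod_eq]) b3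
  rw [n2] at b2
  refine ⟨uwT (neH h), uwE tn h, G, v, _, _, g2.trans (frc_eq _ _), qf_of l1 (fun r => (b1 r).1)
    b4 fun r => (Nat.sub_le _ _).trans_lt (b1 r).2.2, fun j hj => ?_,
    (uw_node (i := iH h) (j := jH h) (G := G) (f := bit (Nat.shiftRight h 8 % 4 + 4 * neH h) 0)
      (g := bit (Nat.shiftRight h 8 % 4 + 4 * neH h) 1) h1 h2 cut hL hL2 hI ?_ (hct _ _ _ a6)).anti
      fun a ha => ⟨⟨fun y hy => ?_, fun y hy => ?_⟩, fun y hy => ?_⟩⟩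
  · have := lab_ok (m := j) (by norm_num) (by omega) g4
    have k : ∀ x < 16, x &&& 12 = 0 ∨ x &&& 14 = 0 → x < 5 := by decide
    rw [n1] at this
    show _ < 5
    split_ifs at this
    exacts [by omega, k _ (lt16 _ _) (Or.inl this), k _ (lt16 _ _) (Or.inr this)]
  · simp only [uwG, band_eq, bor_eq, Bool.and_eq_true, Bool.or_eq_true, Nat.ble_eq, Nat.blt_eq,
      allN_iff, cnd_eq, Nat.beq_eq, Nat.add_eq]
    refine ⟨⟨⟨by omega, by omega⟩, by omega, by omega⟩, ⟨by omega, by omega⟩, fun m hm => ?_⟩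
    have := lab_ok (m := m) (by norm_num) (by omega) g4
    have k : ∀ x < 16, (x &&& 12 = 0 → x < 4) ∧ (x &&& 14 = 0 → x < 2) := by decide
    rw [n1] at this
    split_ifs at this ⊢
    exacts [Nat.beq_eq.mpr this, Nat.blt_eq.mpr ((k _ (lt16 _ _)).1 this),
      Nat.blt_eq.mpr ((k _ (lt16 _ _)).2 this)]
  any_goals
    rw [NS.kind, kindOf, if_neg (by omega), if_neg (by omega)] at hy
    exact le_trans hy (div_le_div_of_nonneg_right (Nat.cast_le.2 (by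
      simp only [cH, Nat.add_eq, Nat.sub_eq]; omega)) SC_pos.le)
  obtain ⟨r, r1, rfl⟩ := b2 y hy
  rw [← n2]
  exact ha.2 r r1

lemma uwQ_eq (ct : ℕ → ℕ → ℕ → Bool) (S : NS) (s : ℕ) (K : KQ) :
    ∃ v G h, uwQ tn ct S s K = uwK tn ct K S.k S.kd v G h :=
  have e : uwQ tn ct S s K = frc (Nat.mod s 17179869184) (uwK tn ct K S.k S.kd
    (Nat.shiftRight (Nat.shiftRight s 34) (wK S.k)) (Nat.mod (Nat.shiftRight s 34) (oK S.k))) := rfl
  ⟨_, _, _, e.trans (frc_eq _ _)⟩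

theorem Hy.uwQ (h : Hy tn t) : QOK t (uwQ tn (ctE tn)) := fun _ S _ s K hI hl => by
  obtain ⟨v, G, x, e⟩ := uwQ_eq (tn := tn) (ctE tn) S s K
  rw [e] at hl ⊢
  exact uwK_ok h.h1 h.h2 cut2_all DU.lSE DU.lS2E (ctE_ok h.h1 h.h2) hI hl

end Pool.Agent.MP_c853c5_nt.X
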