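import Pool.Agent.MP_c853c5_nt.X.QvB

/-!
The packed table of the uniform leaves at a raised level.
-/

set_option autoImplicit false

open Finset

namespace Pool.Agent.MP_c853c5_nt.X

open Pool.Agent.MP_c853c5_nt.S Pool.Agent.MP_c853c5_nt.REG Pool.Agent.MP_c853c5_nt.Y
open Pool.Agent.MP_c853c5_nt.DV

variable {S : NS} {A : ℕ → Finset ℕ} {t : ℝ} {sg : Bool} {tn nu d : ℕ}

lemma dg_fr5 {g c x : ℕ} (b : ℕ) (h0 : dg c 60 = 0) (h1 : dg c (12 * g) + x < 4096) :
    dg (fr5 g c x) (12 * b) = if b = 5 then dg c (12 * g) + x else dg c (12 * b) := by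
  show (c + (dg c (12 * g) + x) <<< 60) >>> (12 * b) % 4096 = _
  generalize dg c (12 * g) + x = y at *
  simp only [dg, mod_eq, Nat.shiftRight_eq, Nat.shiftLeft_eq] at h0 ⊢
  rw [Nat.shiftRight_eq_div_pow] at h0
  rcases lt_or_ge b 6 with c1 | c1
  · rw [Nat.shiftRight_eq_div_pow, Nat.shiftRight_eq_div_pow]
    interval_cases b <;> simp only [Nat.reduceMul, Nat.reduceEqDiff, if_false, if_true] <;> omega
  · obtain ⟨n, rfl⟩ := Nat.exists_eq_add_of_le c1
    rw [if_neg (by omega), mul_add, Nat.shiftRight_add, Nat.shiftRight_add,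
      Nat.shiftRight_eq_div_pow _ (12 * 6), Nat.shiftRight_eq_div_pow _ (12 * 6),
      show (c + y * 2 ^ 60) / 2 ^ (12 * 6) = c / 2 ^ (12 * 6) by omega]

lemma dg_k4 {r : ℕ} (g : ℕ) (hr : r < 4096) : dg (r * 68736258049) (12 * g) = r * K4 g := by
  rw [show r * 68736258049 = r + 4096 * (r + 4096 * (r + 4096 * (r + 4096 * 0))) by omega, K4]
  rcases g with _ | _ | _ | _ | g <;>
    simp only [Nat.mul_succ, add_comm _ 12, dg_succ _ _ hr, mul_zero 12, dg_zero _ hr] <;>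
    simp [dg, mod_eq]

lemma fr5_lt {g c x : ℕ} (hc : c < 2 ^ 191) (hx : x < 4096) : fr5 g c x < 2 ^ 192 := by
  have : dg c (12 * g) < 4096 := Nat.mod_lt _ (by norm_num)
  show c + (dg c (12 * g) + x) <<< 60 < _
  rw [Nat.shiftLeft_eq]
  omega

lemma pkL_sub (x a b c e y z : ℕ) (R : List ℕ) (h : y * z ≤ e) :
    pkL (0 :: a :: b :: c :: e :: R) - y <<< 928 * z + x =
      pkL (x :: a :: b :: c :: (e - y * z) :: R) := by
  show 0 + (a + (b + (c + (e + pkL R <<< 232) <<< 232) <<< 232) <<< 232) <<< 232 - _ + x =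
    x + (a + (b + (c + (e - y * z + pkL R <<< 232) <<< 232) <<< 232) <<< 232) <<< 232
  simp only [Nat.shiftLeft_eq]
  rw [mul_right_comm y]
  omega

/-- the right sides -/
noncomputable def ewF (tn nu d : ℕ) (x : TO) (zc s z e : ℕ) (b f g : Bool) : List ℕ :=
  e :: (x.E - (16 * x.r + 2 * x.cz)) :: (999984 - x.lo) ::
    (cnd (Nat.blt nu zc) ((x.E - x.cz * zc) / x.r) (tn + d) - 16) ::
    ((1 - s) * (tn + d - 16) - (1 - s) * x.j * z) :: (ewA tn nu d x zc s b f g).drop 5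

theorem ew_core (h1 : 1 / 3 ≤ t) (h2 : t < (tn : ℝ) / SC) (cut : CutStmt2)
    (hL : LeafSG sysG) (hL2 : LeafS2G sysG) (d0 : 0 < d) (d1 : tn + d ≤ 500000)
    (hC : Crs sysG ((tn : ℝ) / SC) ((nu : ℝ) / SC) ((d : ℝ) / SC)) (hI : Inv S A) {x : TO}
    (hx : x.Good tn nu d) {i j l zc G G' z s g r c e : ℕ} {f1 f2 : Bool} (hij : i ≤ j)
    (hj : j < S.k) (hl : l = min (get S.kd i) (get S.kd j)) (hm : zc = max (get S.kd i) (get S.kd j))
    (l0 : 0 < l) (l1 : zc ≤ l ∨ 17 ≤ zc) (hz : z ≤ x.zm) (hc : zc ≤ z) (hs : s ≤ 1)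
    (hG : ∀ m < S.k, if m = i ∨ m = j then d4 G m = 4 else d4 G m % 8 < if i = j then 4 else 2)
    (hw : ∀ c, dg c 60 = 0 → ∀ m < S.k, wt (fr5 g c 0) G' m = wt c G m)
    (hk : l ≤ 16 → ∀ a, Om S A a → NrS S.k a → Pr S.k G' (fr5 g 0 1, e) a →
      Pr S.k G' (fr5 g (r * 68736258049) c, x.E - (16 * x.r + 2 * x.cz)) a →
        a (l - 1) + un ≤ (z : ℝ) / SC ∧ x.r * sA S.k G K4 a + x.cz * a (l - 1) ≤
          ((x.E - (16 * x.r + 2 * x.cz) : ℕ) : ℝ) / SC) :
    H sg t S.k S.kind (fun a => Om S A a ∧ ∀ n < 8, Pr S.k G'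
      ((ewL (Nat.blt i j) (Nat.beq s 1) g r c).getD n 0,
        (ewF tn nu d x zc s z e (Nat.blt i j) f1 f2).getD n 0) a) 0 := by
  have hi := hij.trans_lt hj
  have gi : d4 G i = 4 := by simpa using hG i hi
  have hG2 : ∀ m < S.k, d4 G m = 4 ∨ d4 G m % 8 < 4 := fun m hm => by
    have := hG m hm
    split_ifs at this <;> omega
  refine (ew_node (i := i) (j := j) (G := G) (sub := false) (f := f1) (g := f2) h1 h2 cut hL hL2 hI
    d0 d1 ?_ (by positivity) hC hx.win).anti fun a ha => ?_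
  · simp only [ewG, band_eq, bor_eq, Bool.and_eq_true, Bool.or_eq_true, Nat.ble_eq, Nat.blt_eq,
      allN_iff, cnd_eq, Nat.beq_eq]
    refine ⟨⟨⟨hij, hj⟩, by omega, by omega⟩, fun m hm => ?_⟩
    have := hG m hm
    split_ifs at this ⊢ <;> simpa [bnot_eq, mod_eq] using this
  have tr : ∀ c e, dg c 60 = 0 → Pr S.k G' (fr5 g c 0, e) a → Pr S.k G (c, e) a :=
    fun c e h0 p b b1 b2 => le_trans (le_of_eq (sum_congr rfl fun m hm => by
      rw [hw c h0 m (mem_range.1 hm)])) (p b b1 b2)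
  have p0 := ha.2 0 (by norm_num)
  have p4 := ha.2 1 (by norm_num)
  have p1 := ha.2 2 (by norm_num)
  have p2 := ha.2 3 (by norm_num)
  have p3 := ha.2 4 (by norm_num)
  have p5 := ha.2 5 (by norm_num)
  have p6 := ha.2 6 (by norm_num)
  have p7 := ha.2 7 (by norm_num)
  simp only [ewL, ewF, ewA, List.drop_succ_cons, List.drop_zero, List.getD_cons_succ,
    List.getD_cons_zero] at p0 p1 p2 p3 p4 p5 p6 p7
  replace p1 := tr _ _ (by decide) p1
  replace p2 := tr _ _ (by decide) p2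
  replace p3 := tr _ _ (by cases Nat.beq s 1 <;> decide) p3
  simp only [cnd_eq, Nat.blt_eq] at p2 p3
  have key : ∀ b < S.k, get S.kd b = l ∨ get S.kd b = zc →
      Lt ((tn : ℝ) / SC) ((nu : ℝ) / SC) ((d : ℝ) / SC) ((x.zm : ℝ) / SC) ((x.lo : ℝ) / SC)
        ((x.E : ℝ) / SC) x.j x.r S G b a := fun b hb bm hn y hy => by
    have sl : ∀ (c x : ℕ) (φ : ℕ → ℕ), Pr S.k G (c, x) a → φ 4 = 0 →
        (∀ g < 16, dg c (12 * g) = φ g) → sA S.k G φ a ≤ (x : ℝ) / SC := fun c x φ p e0 e1 => by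
      have w : wt c G = fun m => (φ (d4 G m) : ℝ) := funext fun m => by rw [wt, e1 _ (d4_lt _ _)]
      have := p.self hi (by rw [w]; simp [gi, e0]) hn.1 hn.2
      rwa [w] at this
    have lb : y ≤ (z : ℝ) / SC ∧ (y ≤ (zc : ℝ) / SC ∨ x.r * sA S.k G K4 a + x.cz * y ≤
        ((x.E - (16 * x.r + 2 * x.cz) : ℕ) : ℝ) / SC + 2 * x.cz * un) := by
      rw [NS.kind, kindOf, if_neg (by omega)] at hy
      split_ifs at hy with c
      · obtain ⟨q1, q2⟩ := hk (by omega) a ha.1 hn p0 p4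
        have hy' : y ≤ a (get S.kd b - 1) + un := hy
        rw [show get S.kd b = l by omega] at hy'
        have c1 : (0 : ℝ) ≤ x.cz := Nat.cast_nonneg _
        have c4 : 0 ≤ x.cz * un := mul_nonneg c1 (by rw [un_eq_SndL]; norm_num)
        exact ⟨hy'.trans q1, Or.inr (by linarith [mul_le_mul_of_nonneg_left hy' c1])⟩
      · have : y ≤ (zc : ℝ) / SC :=
          le_trans hy (div_le_div_of_nonneg_right (Nat.cast_le.2 (by omega)) SC_pos.le)
        exact ⟨this.trans (div_le_div_of_nonneg_right (Nat.cast_le.2 hc) SC_pos.le), Or.inl this⟩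
    refine ⟨lb.1.trans (div_le_div_of_nonneg_right (Nat.cast_le.2 hz) SC_pos.le),
      hx.ta (sub := Nat.beq s 1) hz (Or.inl hc) lb.1 ?_ (sl _ _ K4 p2 rfl (by decide)) ?_ lb.2⟩
    · have w : ∀ m < S.k, wt 5445847423328582152227888928193112965120 G m =
          1 - (K4 (d4 G m) : ℝ) := fun m hm => by
        rw [wt, eq_sub_iff_add_eq]
        exact_mod_cast (by decide : ∀ g < 16, g = 4 ∨ g % 8 < 4 →
          dg 5445847423328582152227888928193112965120 (12 * g) + K4 g = 1) _ (d4_lt _ _) (hG2 m hm)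
      have := p1.at hi hn.1 hn.2
      rw [sum_congr rfl fun m hm => by rw [w m (mem_range.1 hm)], w i hi, gi] at this
      simp only [sub_mul, one_mul, sum_sub_distrib, show K4 4 = 0 from rfl, Nat.cast_zero,
        sub_zero] at this
      rw [sA]
      linarith
    · split_ifs at p3 ⊢ with c
      · have := sl _ _ (fun g => if g = 8 then 1 else 0) p3 rfl (by decide)
        rw [Nat.beq_eq.mp c, Nat.sub_self, zero_mul, Nat.zero_sub, Nat.cast_zero, zero_div] at this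
        refine le_trans ?_ (add_le_of_nonpos_right this)
        rw [sA, sA, sA, ← sum_add_distrib]
        refine sum_le_sum fun m hm => ?_
        rw [← add_mul, ← Nat.cast_add]
        exact mul_le_mul_of_nonneg_right (Nat.cast_le.2 ((by decide : ∀ g < 16,
          K5 g ≤ K4 g + if g = 8 then 1 else 0) _ (d4_lt _ _))) (by linarith [hn.1 m (mem_range.1 hm)])
      · rw [Nat.beq_eq] at c
        rw [show 1 - s = 1 by omega, one_mul, one_mul, Nat.sub_sub, add_comm 16] at p3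
        exact sl _ _ K5 p3 rfl (by decide)
  refine ⟨⟨key i hi (by omega), key j hj (by omega)⟩, fun y hy => ?_⟩
  rcases hij.eq_or_lt with c | c
  · rw [show Nat.blt i j = false by simp [← Bool.not_eq_true, c]] at p5 p6 p7
    rw [Nat.beq_eq.mpr c] at hy
    simp only [cnd, List.getD_cons_succ, List.getD_cons_zero] at p5 p6 p7
    replace p5 := tr _ _ (by decide) p5
    replace p6 := tr _ _ (by decide) p6
    replace p7 := tr _ _ (by decide) p7
    cases f1 <;> cases f2 <;> simp only [cnd, ew1, List.mem_cons, List.not_mem_nil, or_false] at hy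
    · rcases hy with rfl | rfl
      exacts [p5, p6]
    · rcases hy with rfl | rfl
      exacts [p5, p6]
    · rcases hy with rfl | rfl
      exacts [p5, p6]
    · rcases hy with rfl | rfl | rfl
      exacts [p5, p6, p7]
  · rw [Nat.blt_eq.mpr c] at p5
    rw [show Nat.beq i j = false by simp [← Bool.not_eq_true, c.ne]] at hy
    obtain rfl := List.mem_singleton.1 hy
    simp only [cnd, List.getD_cons_zero] at p5
    exact tr _ _ (by decide) p5

lemma ew_link (hI : Inv S A) {i m G z r c e : ℕ} (hi : i < S.k) (hm : m < S.k) (im : i ≠ m)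
    (gi : d4 G i = 4) (hG : ∀ n < S.k, d4 G n ≠ 5) (z0 : 0 < z) (hr : r + c < 4096) :
    (∀ c, dg c 60 = 0 → ∀ n < S.k, wt (fr5 (d4 G m) c 0) (put4 G m 5) n = wt c G n) ∧
    ∀ a, Om S A a → NrS S.k a →
      Pr S.k (put4 G m 5) (fr5 (d4 G m) 0 1, (z - get S.hi m) <<< 20 + (z - 1)) a →
      Pr S.k (put4 G m 5) (fr5 (d4 G m) (r * 68736258049) c, e) a →
        a m + un ≤ (z : ℝ) / SC ∧ r * sA S.k G K4 a + c * a m ≤ (e : ℝ) / SC := by
  have w : ∀ c x, dg c 60 = 0 → dg c (12 * d4 G m) + x < 4096 → ∀ n < S.k,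
      wt (fr5 (d4 G m) c x) (put4 G m 5) n = wt c G n + if n = m then (x : ℝ) else 0 :=
    fun c x h0 h1 n hn => by
      rw [wt, wt, dg_fr5 _ h0 h1, d4_put _ _ (by norm_num)]
      by_cases e : n = m <;> simp [e, hG n hn]
  refine ⟨fun c h0 n hn => (w c 0 h0 (Nat.mod_lt _ (by norm_num)) n hn).trans (by simp),
    fun a ha hn p q => ⟨?_, ?_⟩⟩
  · have z1 : (1 : ℝ) ≤ z := by exact_mod_cast z0
    rcases le_or_gt z (get S.hi m) with c1 | c1
    · have w0 : ∀ n < S.k, wt (fr5 (d4 G m) 0 1) (put4 G m 5) n = if n = m then 1 else 0 :=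
        fun n hn => (w 0 1 rfl (by simp [dg, mod_eq]) n hn).trans (by simp [wt, dg, mod_eq])
      have := p.self hi (by rw [w0 i hi, if_neg im]) hn.1 hn.2
      rw [sum_congr rfl fun n hn => by rw [w0 n (mem_range.1 hn)], Nat.sub_eq_zero_of_le c1] at this
      simp only [ite_mul, one_mul, zero_mul, sum_ite_eq', mem_range, hm, if_true, Nat.zero_shiftLeft,
        zero_add, Nat.cast_pred z0] at this
      rw [un_eq_SndL, SC_eq_SndL] at *
      linarith
    · have h1 : a m ≤ Y A a m := single_le_sum (f := a) (fun n h => by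
        linarith [hn.1 n (mem_range.1 ((hI.sub m hm).1 h))]) (hI.sub m hm).2.1
      have h2 := (ha.1 m hm).2
      have h3 : (get S.hi m : ℝ) + 1 ≤ z := by exact_mod_cast c1
      rw [un_eq_SndL, SC_eq_SndL] at *
      linarith
  · have k : ∀ g, dg (r * 68736258049) (12 * g) = r * K4 g := fun g => dg_k4 g (by omega)
    have w1 : ∀ n < S.k, wt (fr5 (d4 G m) (r * 68736258049) c) (put4 G m 5) n =
        r * (K4 (d4 G n) : ℝ) + if n = m then (c : ℝ) else 0 := fun n hn => by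
      rw [w _ c (k 5) (by rw [k, K4]; split_ifs <;> omega) n hn, wt, k, Nat.cast_mul]
    have := q.self hi (by rw [w1 i hi]; simp [gi, im, K4]) hn.1 hn.2
    rw [sum_congr rfl fun n hn => by rw [w1 n (mem_range.1 hn)]] at this
    simpa only [add_mul, sum_add_distrib, mul_assoc, ← mul_sum, ite_mul, zero_mul, sum_ite_eq',
      mem_range, hm, if_true, sA] using this

lemma getD_lt {L : List ℕ} {n : ℕ} (h : ∀ y ∈ L, y < n) (h0 : 0 < n) (r : ℕ) : L.getD r 0 < n := by
  rcases lt_or_ge r L.length with c | c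
  · rw [List.getD_eq_getElem _ _ c]
    exact h _ (List.getElem_mem c)
  · rwa [List.getD_eq_default _ _ c]

lemma ew_qf (d1 : tn + d ≤ 500000) {x : TO} {zc s z e g r c : ℕ} {b b' f1 f2 : Bool}
    (hr : r < 4096) (hc : c < 4096) (hE : x.E < 2 ^ 39) (he : e < 2 ^ 40) :
    QF ⟨12, 8, 232, Nat.shiftLeft (pkL (ewL b b' g r c)) 40⟩ (pkL (ewF tn nu d x zc s z e b f1 f2))
      (fun n => (ewL b b' g r c).getD n 0) fun n => (ewF tn nu d x zc s z e b f1 f2).getD n 0 := by
  refine qf_of (by cases b <;> simp [ewL, cnd]) (getD_lt ?_ (Nat.two_pow_pos _))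
    (pkL_eq _ (by cases b <;> simp [ewF, ewA, cnd])) (getD_lt ?_ (Nat.two_pow_pos _))
  · have k : ∀ c < 2 ^ 191, fr5 g c 0 < 2 ^ 192 := fun c h => fr5_lt h (by norm_num)
    simp only [ewL, List.forall_mem_cons]
    refine ⟨fr5_lt (by norm_num) (by norm_num), fr5_lt (by rw [Nat.mul_eq]; omega) hc, k _ (by norm_num),
      k _ (by norm_num), k _ (by cases b' <;> simp [cnd]), ?_⟩
    cases b <;> simp only [cnd, List.forall_mem_cons]
    exacts [⟨k _ (by norm_num), k _ (by norm_num), k _ (by norm_num), by simp⟩,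
      ⟨k _ (by norm_num), by simp⟩]
  · have a1 := Nat.div_le_self (x.E - x.cz * zc) x.r
    have a2 := Nat.mul_le_mul_right (tn + d - 16) (Nat.sub_le 1 s)
    simp only [ewF, ewA, List.drop_succ_cons, List.drop_zero, List.forall_mem_cons]
    refine ⟨he, by omega, by omega, by cases Nat.blt nu zc <;> simp only [cnd] <;> omega, by omega, ?_⟩
    cases b <;> cases f1 <;> cases f2 <;> simp only [cnd, band, List.forall_mem_cons] <;>
      simp only [List.not_mem_nil, false_imp_iff, implies_true, and_true] <;> omega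

theorem ewK_ok (h1 : 1 / 3 ≤ t) (h2 : t < (tn : ℝ) / SC) (cut : CutStmt2)
    (hL : LeafSG sysG) (hL2 : LeafS2G sysG) (d0 : 0 < d) (d1 : tn + d ≤ 500000)
    (hC : Crs sysG ((tn : ℝ) / SC) ((nu : ℝ) / SC) ((d : ℝ) / SC)) {TT : BT TO}
    (hT : TT.All (TO.Good tn nu d)) (hI : Inv S A) {K : KQ} {h z v G : ℕ}
    (hl : ewK1 tn nu d TT K S.k S.kd S.hi h z v G < INF) :
    ∃ (q : PQ) (e G' u : ℕ) (c f : ℕ → ℕ), ewK1 tn nu d TT K S.k S.kd S.hi h z v G = K q e G' u ∧
      QF q e c f ∧ (∀ j < S.k, d4 G' j < q.k) ∧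
      H sg t S.k S.kind (fun a => Om S A a ∧ ∀ r < q.n, Pr S.k G' (c r, f r) a) 0 := by
  obtain ⟨g1, g2⟩ := gz_lt hl
  obtain ⟨g3, g5⟩ := Nat.add_eq_zero_iff.1 g1
  obtain ⟨g3, g4⟩ := Nat.add_eq_zero_iff.1 g3
  have k2 := hI.le
  have hx : (tHh TT h).Good tn nu d := hT.find _
  have hl : lH S.kd h = min (get S.kd (iH h)) (get S.kd (jH h)) := by
    simp only [lH, mn0, Nat.sub_eq]
    omega
  have hm : cH S.kd h = max (get S.kd (iH h)) (get S.kd (jH h)) := by
    simp only [cH, Nat.sub_eq, Nat.add_eq]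
    omega
  simp only [ewY, gH, zmH, Nat.add_eq, Nat.sub_eq, Nat.mul_eq, Nat.add_eq_zero_iff, Nat.mul_eq_zero,
    Nat.succ_eq_add_one, Nat.shiftRight_eq, Nat.shiftRight_eq_div_pow] at g3 g5
  obtain ⟨⟨⟨a1, a2⟩, a3⟩, a4, a5, a6⟩ := g3
  have n1 := neH_eq (h := h) (by omega)
  have hs : sH h ≤ 1 := Nat.le_of_lt_succ (Nat.mod_lt _ two_pos)
  have hG : ∀ m < S.k, if m = iH h ∨ m = jH h then d4 G m = 4 else
      d4 G m % 8 < if iH h = jH h then 4 else 2 := fun m hm => by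
    have := lab_ok (m := m) (by norm_num) (by omega) g4
    have k : ∀ x < 16, (x &&& 4 = 0 → x % 8 < 4) ∧ (x &&& 6 = 0 → x % 8 < 2) := by decide
    rw [n1] at this
    split_ifs at this ⊢
    exacts [this, (k _ (lt16 _ _)).1 this, (k _ (lt16 _ _)).2 this]
  have hG2 : ∀ m < S.k, d4 G m < 12 ∧ d4 G m ≠ 5 := fun m hm => by
    have := hG m hm
    have := lt16 G m
    split_ifs at * <;> omega
  have e1 : ∀ y, ewE tn nu d TT S.kd h - ewJ TT h * z + y = pkL (ewF tn nu d (tHh TT h) (cH S.kd h)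
      (sH h) z y (Nat.blt (iH h) (jH h)) (bit h 8) (bit h 9)) := fun y => by
    have := Nat.mul_le_mul_left (tHh TT h).j (show z ≤ (tHh TT h).zm by omega)
    have := hx.m
    delta ewJ
    rw [ewE, ewF, ewA, Nat.shiftLeft_eq']
    refine pkL_sub _ _ _ _ _ _ _ _ ?_
    rw [Nat.mul_eq, mul_assoc]
    exact Nat.mul_le_mul_left _ (by omega)
  have bt : ∀ c n, c = neH h + 2 * sH h + 4 * n →
      bit c 0 = Nat.blt (iH h) (jH h) ∧ bit c 1 = Nat.beq (sH h) 1 := fun c n e => by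
    refine ⟨?_, congrArg (Nat.beq · 1) ?_⟩
    · rw [Bool.eq_iff_iff, bit, Nat.beq_eq, Nat.blt_eq, e, n1, mod_eq, Nat.shiftRight_eq,
        Nat.shiftRight_zero]
      split_ifs <;> omega
    · simp only [e, n1, mod_eq, Nat.shiftRight_eq, Nat.shiftRight_eq_div_pow]
      split_ifs <;> omega
  have core := fun G' g r c e => ew_core (sg := sg) (G' := G') (g := g) (r := r) (c := c) (e := e)
    (f1 := bit h 8) (f2 := bit h 9) (z := z) h1 h2 cut hL hL2 d0 d1 hC hI hx (by omega) (by omega)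
    hl hm (by omega) (by omega) (by omega) (by omega) hs hG
  have hE : (tHh TT h).E < 2 ^ 39 := by omega
  rw [ewK1, g2, ewK2]
  cases e2 : lkH S.kd h with
  | zero =>
    have hy := hT.find (Nat.shiftRight (k0H h) 7)
    obtain ⟨b1, b2⟩ := bt (k0H h) 0 rfl
    refine ⟨ewT TT (k0H h), _, G, v, _, _, frc_eq _ _, ?_, fun j hj => (hG2 j hj).1,
      core G (Nat.mod (Nat.shiftRight (k0H h) 2) 16) (Nat.mul (Nat.mod (Nat.shiftRight (k0H h) 6) 2)
        (TT.find (Nat.shiftRight (k0H h) 7)).r) (TT.find (Nat.shiftRight (k0H h) 7)).cz 0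
        (fun c h0 m hm => ?_) fun c => ?_⟩
    · rw [ewT, b1, b2, Nat.sub_eq, Nat.mul_eq (x := ewJ TT h), ← add_zero (_ - _), e1]
      have := hy.dg
      have := Nat.mul_le_mul_right (TT.find (Nat.shiftRight (k0H h) 7)).r
        (show Nat.shiftRight (k0H h) 6 % 2 ≤ 1 by omega)
      exact ew_qf d1 (by rw [Nat.mul_eq, mod_eq]; omega) ((Nat.le_add_left _ _).trans_lt hy.dg) hE
        (Nat.two_pow_pos _)
    · rw [wt, wt, dg_fr5 _ h0 (Nat.mod_lt _ (by norm_num)), if_neg (hG2 m hm).2]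
    · simp only [lkH, Nat.sub_eq] at e2
      omega
  | succ n =>
    simp only [lkH, Nat.sub_eq] at e2
    have hv : lH S.kd h - 1 < S.k ∧ get S.kd (lH S.kd h - 1) = 0 := by
      have : ∀ b < S.k, get S.kd b = lH S.kd h → _ ∧ get S.kd (lH S.kd h - 1) = 0 := fun b hb e => by
        have := (hI.kv b hb).2 (lH S.kd h - 1) (by
          rw [NS.kind, kindOf, e, if_neg (by omega), if_pos (by omega)])
        exact ⟨this.1, by_contra fun c => kind_ne_P (Nat.pos_of_ne_zero c) this.2⟩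
      rcases min_choice (get S.kd (iH h)) (get S.kd (jH h)) with c | c
      exacts [this _ (by omega) (hl.trans c).symm, this _ (by omega) (hl.trans c).symm]
    have dg0 := hx.dg
    obtain ⟨c1, c2⟩ := ew_link (i := iH h) (z := z) (r := (tHh TT h).r) (c := (tHh TT h).cz)
      (e := (tHh TT h).E - (16 * (tHh TT h).r + 2 * (tHh TT h).cz)) hI (by omega) hv.1
      (fun c => by rw [← c] at hv; omega) (by simpa using hG (iH h) (by omega))
      (fun n hn => (hG2 n hn).2) (by omega) dg0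
    obtain ⟨κ, e3⟩ : ∃ κ, κ = k1H h + 4 * d4 G (lH S.kd h - 1) := ⟨_, rfl⟩
    have e4 : κ = neH h + 2 * sH h + 4 * (16 + 32 * Nat.shiftRight h 11 + d4 G (lH S.kd h - 1)) := by
      simp only [e3, k1H, k0H, Nat.add_eq, Nat.mul_eq]
      omega
    obtain ⟨b1, b2⟩ := bt κ _ e4
    have := lt16 G (lH S.kd h - 1)
    have n2 : neH h ≤ 1 := Nat.sub_le _ _
    have b3 : Nat.mod (Nat.shiftRight κ 2) 16 = d4 G (lH S.kd h - 1) ∧
        Nat.mod (Nat.shiftRight κ 6) 2 = 1 ∧ Nat.shiftRight κ 7 = Nat.shiftRight h 11 := by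
      generalize Nat.shiftRight h 11 = y at *
      simp only [mod_eq, Nat.shiftRight_eq, Nat.shiftRight_eq_div_pow]
      omega
    refine ⟨ewT TT κ, ewE tn nu d TT S.kd h - ewJ TT h * z + (z - 1) +
      (z - get S.hi (lH S.kd h - 1)) <<< 20, put4 G (lH S.kd h - 1) 5, v, _, _, ?_, ?_,
      fun j hj => ?_, core _ _ _ _ _ c1 fun _ => c2⟩
    · rw [e3]
      exact frc_eq _ _
    · rw [ewT, b1, b2, b3.1, b3.2.1, b3.2.2, Nat.mul_eq, one_mul, add_assoc, add_comm (z - 1), e1]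
      refine ew_qf d1 ((Nat.le_add_right _ _).trans_lt dg0) ((Nat.le_add_left _ _).trans_lt dg0) hE ?_
      rw [Nat.shiftLeft_eq]
      omega
    · rw [d4_put _ _ (by norm_num)]
      show _ < 12
      split_ifs
      exacts [by norm_num, (hG2 j hj).1]

lemma ewQ_eq (TT : BT TO) (S : NS) (s : ℕ) (K : KQ) :
    ∃ h z v G, ewQ tn nu d TT S s K = ewK1 tn nu d TT K S.k S.kd S.hi h z v G :=
  have e : ewQ tn nu d TT S s K = frc (Nat.mod s 65536) fun h => ewK0 tn nu d TT K S.k S.kd S.hi h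
    (Nat.add (Nat.mod (Nat.shiftRight s 16) (zoH h)) (zaH TT h)) (Nat.shiftRight s (zwH h)) := rfl
  ⟨_, _, _, _, e.trans ((frc_eq _ _).trans (ewK0.eq_1 ..))⟩

/-- `r` is the power at the level `nu`, `P` the list of pieces -/
theorem Hy.ewQ (h : Hy tn t) {TT : BT TO} (r : ℕ) (P : List PC) (d0 : 0 < d)
    (d1 : tn + d ≤ 500000) (hc : ctE tn r nu d = true) (hT : ttB tn nu d P TT = true) :
    QOK t (ewQ tn nu d TT) := fun _ S _ s K hI hl => by
  obtain ⟨x, z, v, G, e⟩ := ewQ_eq (tn := tn) (nu := nu) (d := d) TT S s K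
  rw [e] at hl ⊢
  exact ewK_ok h.h1 h.h2 cut2_all (leafSG okSysG) (leafS2G okSysG) d0 d1
    (crs_G (ctE_ok h.h1 h.h2 _ _ _ hc)) (ttB_ok hT) hI hl

end Pool.Agent.MP_c853c5_nt.X
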