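import Pool.Agent.MP_c853c5_nt.X.GtD
import Pool.Agent.MP_c853c5_nt.X.EWD
import Pool.Agent.MP_c853c5_nt.X.E4D

/-!
The rows of the uniform leaves as packed tables (definitions only).
-/

set_option autoImplicit false

namespace Pool.Agent.MP_c853c5_nt.X

/-- weights, right sides, labels, rest of the code -/
abbrev KQ := PQ → ℕ → ℕ → ℕ → ℕ

abbrev QP := NS → ℕ → KQ → ℕ

/-- fields of `232` bits -/
noncomputable def pkL (L : List ℕ) : ℕ :=
  List.rec (motive := fun _ => ℕ) 0 (fun y _ ih => Nat.add y (Nat.shiftLeft ih 232)) L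

def iH (h : ℕ) : ℕ := Nat.mod h 16
def jH (h : ℕ) : ℕ := Nat.mod (Nat.shiftRight h 4) 16
def neH (h : ℕ) : ℕ := Nat.sub 1 (Nat.sub 1 (Nat.sub (jH h) (iH h)))

def xH (h : ℕ) : ℕ :=
  Nat.lor (Nat.shiftLeft 15 (Nat.mul 4 (iH h))) (Nat.shiftLeft 15 (Nat.mul 4 (jH h)))

def fH4 (h : ℕ) : ℕ := Nat.land (xH h) 4919131752989213764

def mH (a h : ℕ) : ℕ :=
  Nat.lor (xH h) (Nat.mul (Nat.add a (Nat.mul 2 (neH h))) 1229782938247303441)

def wK (k : ℕ) : ℕ := Nat.mul 4 k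
def oK (k : ℕ) : ℕ := one (Nat.mul 4 k)
def lH (kd h : ℕ) : ℕ := mn0 (get kd (iH h)) (get kd (jH h))
def cH (kd h : ℕ) : ℕ := Nat.add (get kd (iH h)) (Nat.sub (get kd (jH h)) (get kd (iH h)))
def gH (k h : ℕ) : ℕ := Nat.add (Nat.sub (iH h) (jH h)) (Nat.sub (Nat.succ (jH h)) k)

/-! ### the plain level -/

noncomputable def uwT (e : ℕ) : PQ :=
  ⟨5, 7, 232, Nat.shiftLeft (pkL (cnd (Nat.beq e 0)
    [1, 549755830272, 549755830276, 33558528, 33558530, 549822947328, 549822947332]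
    [1, 16384, 16386])) 40⟩

noncomputable def uwA (tn c : ℕ) : List ℕ :=
  (1000000 - (tn + 16)) :: cnd (bit c 2) [2000000 - (3 * tn + 66), 2000000 - (tn + 66)]
    [cnd (bit c 0) (4000000 - (7 * tn + 132)) (tn - 128),
      cnd (bit c 0) (4000000 - (3 * tn + 132)) 1073741824,
      cnd (bit c 1) (2000000 - (3 * tn + 34)) (tn - 32),
      cnd (bit c 1) (2000000 - (tn + 34)) 1073741824,
      cnd (band (bit c 0) (bit c 1)) (4000000 - (5 * tn + 132)) 1073741824,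
      cnd (band (bit c 0) (bit c 1)) (4000000 - (tn + 132)) 1073741824]

noncomputable def uwB (c : ℕ) : List ℕ :=
  1 :: cnd (bit c 2) [2] [cnd (bit c 0) 4 0, 0, cnd (bit c 1) 2 0, 0,
    cnd (band (bit c 0) (bit c 1)) 4 0]

noncomputable def uwE (tn h : ℕ) : ℕ :=
  frc (Nat.add (Nat.mod (Nat.shiftRight h 8) 4) (Nat.mul 4 (neH h))) fun c =>
    Nat.sub (pkL (uwA tn c)) (Nat.mul (Nat.shiftRight h 14) (pkL (uwB c)))

noncomputable def uwY (tn : ℕ) (ct : ℕ → ℕ → ℕ → Bool) (k kd h : ℕ) : ℕ :=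
  frc (Nat.shiftRight h 14) fun d => frc (cH kd h) fun z =>
    frc (Nat.mod (Nat.shiftRight h 10) 16) fun r =>
      Nat.add (Nat.add (gH k h) (Nat.sub 17 (lH kd h)))
        (Nat.add (Nat.add (Nat.sub 1 d) (Nat.sub (Nat.add tn d) 500000)) (cnd (ct r z d) 0 1))

noncomputable def uwK (tn : ℕ) (ct : ℕ → ℕ → ℕ → Bool) (K : KQ) (k kd v G h : ℕ) : ℕ :=
  gz (Nat.add (uwY tn ct k kd h) (Nat.land (Nat.xor G (fH4 h)) (mH 12 h)))
    (frc (neH h) fun e => K (uwT e) (uwE tn h) G v)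

/-- code: blocks `i ≤ j`, two flags, `4` bits `r`, `20` bits `d`, labels -/
noncomputable def uwQ (tn : ℕ) (ct : ℕ → ℕ → ℕ → Bool) : QP := fun S s K =>
  NS.rec (motive := fun _ => ℕ) (fun k _ kd _ _ _ => frc (Nat.mod s 17179869184)
    (uwK tn ct K k kd (Nat.shiftRight (Nat.shiftRight s 34) (wK k))
      (Nat.mod (Nat.shiftRight s 34) (oK k)))) S

/-! ### the raised level -/

def sH (h : ℕ) : ℕ := Nat.mod (Nat.shiftRight h 10) 2
noncomputable def tHh (TT : BT TO) (h : ℕ) : TO := TT.find (Nat.shiftRight h 11)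
def TO.cz (x : TO) : ℕ := Nat.succ (Nat.mul x.r x.j)

/-- the label `5` has the weight of the label `g`, and `x` more -/
def fr5 (g c x : ℕ) : ℕ := Nat.add c (Nat.shiftLeft (Nat.add (dg c (Nat.mul 12 g)) x) 60)

noncomputable def ewL (b s : Bool) (g r c : ℕ) : List ℕ :=
  fr5 g 0 1 :: fr5 g (Nat.mul r 68736258049) c ::
    fr5 g 5445847423328582152227888928193112965120 0 :: fr5 g 68736258049 0 ::
    fr5 g (cnd s 79228162514264337593543950336 79228162514264337593543950337) 0 ::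
    cnd b [fr5 g 1298074214633706907132624082321408 0]
      [fr5 g 43556144263954337957018856884440169201664 0,
        fr5 g 2658780510123490172534397276614823936 0,
        fr5 g 43561461824974584937363925678993398849536 0]

noncomputable def ewT (TT : BT TO) (c : ℕ) : PQ :=
  ⟨12, 8, 232, Nat.shiftLeft (pkL (ewL (bit c 0) (bit c 1) (Nat.mod (Nat.shiftRight c 2) 16)
    (Nat.mul (Nat.mod (Nat.shiftRight c 6) 2) (TT.find (Nat.shiftRight c 7)).r)
    (TT.find (Nat.shiftRight c 7)).cz)) 40⟩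

noncomputable def ewA (tn nu d : ℕ) (x : TO) (zc s : ℕ) (b f g : Bool) : List ℕ :=
  0 :: (x.E - (16 * x.r + 2 * x.cz)) :: (999984 - x.lo) ::
    (cnd (Nat.blt nu zc) ((x.E - x.cz * zc) / x.r) (tn + d) - 16) :: (1 - s) * (tn + d - 16) ::
    cnd b [2000000 - (3 * tn + 2 * d + 66)]
      [cnd f (4000000 - (7 * tn + 4 * d + 132)) (tn - 128),
        cnd g (2000000 - (3 * tn + 2 * d + 34)) (tn - 32),
        cnd (band f g) (4000000 - (5 * tn + 4 * d + 132)) 1073741824]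

noncomputable def ewE (tn nu d : ℕ) (TT : BT TO) (kd h : ℕ) : ℕ :=
  pkL (ewA tn nu d (tHh TT h) (cH kd h) (sH h) (Nat.blt (iH h) (jH h)) (bit h 8) (bit h 9))

noncomputable def ewJ (TT : BT TO) (h : ℕ) : ℕ :=
  Nat.shiftLeft (Nat.mul (Nat.sub 1 (sH h)) (tHh TT h).j) 928

noncomputable def ewY (TT : BT TO) (k kd h : ℕ) : ℕ :=
  Nat.add (Nat.add (gH k h) (Nat.sub 1 (lH kd h)))
    (Nat.add (Nat.mul (Nat.sub (cH kd h) (lH kd h)) (Nat.sub 17 (cH kd h)))
      (Nat.add (Nat.shiftRight (tHh TT h).zm 19) (Nat.shiftRight (tHh TT h).E 39)))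

noncomputable def zmH (TT : BT TO) (h : ℕ) : ℕ := (tHh TT h).zm
noncomputable def zaH (TT : BT TO) (h : ℕ) : ℕ := Nat.mul (sH h) (tHh TT h).zm
def zoH (h : ℕ) : ℕ := one (Nat.mul 17 (Nat.sub 1 (sH h)))
def zwH (h : ℕ) : ℕ := Nat.sub 33 (Nat.mul 17 (sH h))
def k0H (h : ℕ) : ℕ := Nat.add (neH h) (Nat.mul 2 (sH h))
def k1H (h : ℕ) : ℕ := Nat.add (Nat.add (k0H h) 64) (Nat.mul 128 (Nat.shiftRight h 11))
def lkH (kd h : ℕ) : ℕ := Nat.sub 17 (lH kd h)
def m4H (kd h : ℕ) : ℕ := Nat.mul 4 (Nat.pred (lH kd h))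
def m6H (kd h : ℕ) : ℕ := Nat.mul 24 (Nat.pred (lH kd h))

noncomputable def ewK3 (TT : BT TO) (K : KQ) (kd hi h z v G e g : ℕ) : ℕ :=
  frc (Nat.add (k1H h) (Nat.mul 4 g)) fun c => K (ewT TT c)
    (Nat.add (Nat.add e (Nat.pred z))
      (Nat.shiftLeft (Nat.sub z (Nat.mod (Nat.shiftRight hi (m6H kd h)) 16777216)) 20))
    (Nat.xor G (Nat.shiftLeft (Nat.xor g 5) (m4H kd h))) v

noncomputable def ewK2 (TT : BT TO) (K : KQ) (kd hi h z v G e : ℕ) : ℕ :=
  Nat.rec (motive := fun _ => ℕ) (frc (k0H h) fun c => K (ewT TT c) e G v)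
    (fun _ _ => ewK3 TT K kd hi h z v G e (Nat.mod (Nat.shiftRight G (m4H kd h)) 16)) (lkH kd h)

noncomputable def ewK1 (tn nu d : ℕ) (TT : BT TO) (K : KQ) (k kd hi h z v G : ℕ) : ℕ :=
  gz (Nat.add (Nat.add (ewY TT k kd h) (Nat.land (Nat.xor G (fH4 h)) (mH 4 h)))
      (Nat.add (Nat.sub z (zmH TT h)) (Nat.sub (cH kd h) z)))
    (ewK2 TT K kd hi h z v G (Nat.sub (ewE tn nu d TT kd h) (Nat.mul (ewJ TT h) z)))

noncomputable def ewK0 (tn nu d : ℕ) (TT : BT TO) (K : KQ) (k kd hi h z u : ℕ) : ℕ :=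
  ewK1 tn nu d TT K k kd hi h z (Nat.shiftRight u (wK k)) (Nat.mod u (oK k))

/-- the code of `ewP`; at most one level is a link -/
noncomputable def ewQ (tn nu d : ℕ) (TT : BT TO) : QP := fun S s K =>
  NS.rec (motive := fun _ => ℕ) (fun k _ kd _ hi _ => frc (Nat.mod s 65536) fun h =>
    ewK0 tn nu d TT K k kd hi h (Nat.add (Nat.mod (Nat.shiftRight s 16) (zoH h)) (zaH TT h))
      (Nat.shiftRight s (zwH h))) S

/-! ### the three uses -/

noncomputable def tH2 (q : PQ) (x : Ga) (S : NS) (K : ℕ → ℕ) (t G C P : ℕ) : ℕ :=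
  tN q (tQ q) (Nat.shiftLeft G 4) C
    (tE0 K q (zT x t) t (Nat.add (vQ q) (Nat.shiftRight (zX x t) 26)) C) (nX x S) 0 0 P 0 0 (tQ q) 0
    (fun _ V => V) (fun _ V => V) fun _ V => V

/-- `5` bits for the size of the small grid, then the code of the provider -/
noncomputable def gtQ (t : ℕ) (p : QP) : AItem := fun x _ S s K =>
  frc (Nat.mod s 32) fun C => p S (Nat.shiftRight s 5) fun q e G u => frc (Nat.mod G 16) fun a =>
    tH2 q x S (fun v => K v u) t G C (Nat.add e (zQ q a))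

noncomputable def fqQ (p : QP) : Item := fun g _ _ S s K =>
  p S s fun q e G u => grd (band (okG g S) (okQ q)) (K (frc (Nat.mod G 16) fun a =>
    fAc q g S G (fpE q g) (fK1 S) (Nat.add e (zQ q a)) 0 0 0 IL.nil) u)

/-- shifts of the labels of a node and of its parent, and of its ends -/
inductive N3 : Type
  | nil : N3
  | cons (s p u : ℕ) (r : N3) : N3

noncomputable def mk3 (par k : ℕ) : N3 :=
  Nat.rec (motive := fun _ => N3) N3.nil (fun j ih => N3.cons (Nat.mul 4 (Nat.succ j))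
    (Nat.mul 4 (get par (Nat.succ j))) (Nat.mul 24 (Nat.succ j)) ih) (Nat.pred k)

def aS (q : PQ) (n : ℕ) : ℕ := Nat.mul (aJ q n) 16

noncomputable def hN (q : PQ) (lo hi G : ℕ) (K : ℕ → ℕ → ℕ) (n : N3) : ℕ → ℕ → ℕ :=
  N3.rec (motive := fun _ => ℕ → ℕ → ℕ) K
    (fun s p u _ ih P V => Nat.rec (motive := fun _ => ℕ) (ih P V)
      (fun n _ => ih (Nat.add P (Nat.mul (sJ q n) (Nat.mod (Nat.shiftRight lo u) 16777216)))
        (Nat.add (Nat.add V (aS q n))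
          (Nat.mul (dJ q n) (Nat.mod (Nat.shiftRight hi u) 16777216))))
      (Nat.mul (Nat.land (Nat.xor (Nat.shiftRight G s) (Nat.shiftRight G p)) 240)
        (Nat.succ (Nat.land (Nat.shiftRight G p) 240)))) n

/-- all rows hold on the box -/
noncomputable def qvR (p : QP) : Rule := fun _ _ _ S s =>
  p S s fun q e G _ => NS.rec (motive := fun _ => ℕ) (fun k par _ lo hi _ =>
    frc (Nat.mod G 16) fun a => hN q lo hi (Nat.shiftLeft G 4) (fun P V => gz (Nat.add (vQ q)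
      (Nat.xor (mQ q) (Nat.land (Nat.shiftRight (Nat.sub P V) 43) (mQ q)))) 0) (mk3 par k)
      (Nat.add e (zQ q a)) 0) S

/-- one bit selects the rule -/
noncomputable def altR (a b : Rule) : Rule := fun T ih sg S s =>
  Nat.rec (motive := fun _ => ℕ) (a T ih sg S (Nat.shiftRight s 1))
    (fun _ _ => b T ih sg S (Nat.shiftRight s 1)) (Nat.mod s 2)

/-- as `it5`; `9` is `ku`, `10` is `k8` -/
noncomputable def it6 (i2 i3 iu i8 ku k8 : Item) : BT Item :=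
  .nd 7 (.nd 3 (.nd 2 (.nd 1 (.lf killI) (.lf (ofP smallP))) (.lf childI))
      (.nd 1 (.lf i2) (.lf iu)))
    (.nd 2 (.nd 1 (.lf i3) (.lf i8)) (.nd 1 (.lf ku) (.lf k8)))

/-- as `ia6`; `12` to `15` are `ku`, `k8`, `lu`, `l8` -/
noncomputable def ia7 (i2 i3 iu i8 j2 j3 ku k8 lu l8 : AItem) : BT AItem :=
  .nd 12 (ia6 i2 i3 iu i8 j2 j3) (.nd 2 (.nd 1 (.lf ku) (.lf k8)) (.nd 1 (.lf lu) (.lf l8)))

end Pool.Agent.MP_c853c5_nt.X
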