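import Pool.Agent.MP_c853c5_nt.X.SndB

/-!
Soundness of the checker: opening of a block.
-/

set_option autoImplicit false

open Finset

namespace Pool.Agent.MP_c853c5_nt.X

open Pool.Agent.MP_c853c5_nt.S Pool.Agent.MP_c853c5_nt.REG

variable {t : ℝ} {sg : Bool} {S : NS} {A : ℕ → Finset ℕ} {ih : Bool → NS → ℕ → ℕ}

lemma kindOf_zero : kindOf 0 = .P := if_pos rfl

lemma kindOf_link {q : ℕ} (h0 : q ≠ 0) (h : q ≤ 16) : kindOf q = .L (q - 1) := by
  rw [kindOf, if_neg h0, if_pos h]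

lemma kindOf_lev {q : ℕ} (h : ¬ q ≤ 16) : kindOf q = .R ((q : ℝ) / SC) := by
  rw [kindOf, if_neg (by omega), if_neg h]

lemma kind_put (kd i : ℕ) {c : ℕ} (hc : c < 16777216) :
    (fun j => kindOf (get (put kd i c) j)) =
      Function.update (fun j => kindOf (get kd j)) i (kindOf c) := by
  funext j
  rw [get_put _ _ hc, Function.update_apply]
  split_ifs <;> rfl

/-- the subtrees after the opening -/
def opA (A : ℕ → Finset ℕ) (i k : ℕ) : ℕ → Finset ℕ :=
  fun j => if j = k then {k} else if i ∈ A j then insert k (A j) else A j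

lemma mg_lt {i k n : ℕ} (a : Pt) (h : n < k) :
    mg i k a n = a n + if n = i then a k else 0 := by
  rw [mg, Function.update_of_ne h.ne, Function.update_apply]
  split_ifs with e
  · rw [e]
  · rw [add_zero]

lemma Y_new (A : ℕ → Finset ℕ) (i k : ℕ) (a : Pt) : Y (opA A i k) a k = a k := by simp [Y, opA]

lemma Y_old (hI : Inv S A) (i : ℕ) (a : Pt) {j : ℕ} (hj : j < S.k) :
    Y (opA A i S.k) a j = Y A (mg i S.k a) j := by
  have h := (hI.sub j hj).1
  rw [Y, Y, opA, if_neg hj.ne, sum_congr rfl fun n hn => mg_lt a (mem_range.1 (h hn)),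
    sum_add_distrib, sum_ite_eq']
  split_ifs
  · rw [sum_insert fun e => lt_irrefl _ (mem_range.1 (h e)), add_comm]
  · rw [add_zero]

lemma kv_opn {k i : ℕ} {kind : ℕ → Kind} (h : KV k kind) (hi : i < k)
    (hl : ∀ j < k, kind j ≠ .L i) : KV (k + 1) (opn kind i k) := by
  intro j hj
  by_cases e : j = k
  · simp [opn, e]
  by_cases e' : j = i
  · simp [opn, e', hi.ne]
  have hj' : j < k := by omega
  have e2 : opn kind i k j = kind j := by simp [opn, e, e']
  rw [e2]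
  refine ⟨(h j hj').1, fun l g => ?_⟩
  obtain ⟨g1, g2⟩ := (h j hj').2 l g
  have g3 : l ≠ i := fun c => hl j hj' (c ▸ g)
  exact ⟨by omega, by simp [opn, g1.ne, g3, g2]⟩

lemma inv_opn (hI : Inv S A) {i : ℕ} (hi : i < S.k) (hk : S.k < 16)
    (hl : ∀ j < S.k, S.kind j ≠ .L i) (lo hi' : ℕ) {rs : List Rw}
    (hr : ∀ r ∈ rs, r.In (S.k + 1)) :
    Inv ⟨S.k + 1, put S.par S.k i, put (put S.kd i (S.k + 1)) S.k 0, lo, hi', rs⟩ (opA A i S.k) ∧
      NS.kind ⟨S.k + 1, put S.par S.k i, put (put S.kd i (S.k + 1)) S.k 0, lo, hi', rs⟩ =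
        opn S.kind i S.k := by
  have e : NS.kind ⟨S.k + 1, put S.par S.k i, put (put S.kd i (S.k + 1)) S.k 0, lo, hi', rs⟩ =
      opn S.kind i S.k := by
    refine (kind_put _ _ (by norm_num)).trans ?_
    rw [kind_put _ _ (by omega), kindOf_zero, kindOf_link (by omega) (by omega)]
    rfl
  have p : ∀ j, get (put S.par S.k i) j = if j = S.k then i else get S.par j :=
    get_put _ _ (by omega)
  have k0 := hI.pos
  refine ⟨⟨by simp, e ▸ kv_opn hI.kv hi hl, fun j h1 h2 => ?_, fun j hj => ?_, ?_,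
    fun a n hn => ?_, hr, hk⟩, e⟩
  · simp only [p] at h2 ⊢
    split_ifs with c
    · omega
    · exact hI.par j h1 (by omega)
  · simp only [opA] at hj ⊢
    split_ifs with c d
    · exact ⟨by simp, by simp [c], fun _ => by simp; omega⟩
    · obtain ⟨g1, g2, g3⟩ := hI.sub j (by omega)
      exact ⟨by rw [range_add_one]; exact insert_subset_insert _ g1, mem_insert_of_mem g2,
        fun g => by simp [g3 g]; omega⟩
    · obtain ⟨g1, g2, g3⟩ := hI.sub j (by omega)
      exact ⟨g1.trans (by simp), g2, g3⟩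
  · simp only [opA]
    rw [if_neg (by omega), hI.top, if_pos (mem_range.2 hi), range_add_one]
  · simp only [p] at hn ⊢
    rw [sum_filter, sum_Ico_succ_top k0, if_pos rfl, Y_new,
      sum_congr rfl fun j (hj : j ∈ Ico 1 S.k) => by
        rw [if_neg (mem_Ico.1 hj).2.ne, Y_old hI i a (mem_Ico.1 hj).2]]
    rcases Nat.lt_succ_iff_lt_or_eq.1 hn with c | rfl
    · rw [Y_old hI i a c, hI.tree _ n c, mg_lt a c, sum_filter]
      simp only [eq_comm (a := n)]
      ring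
    · rw [Y_new, if_neg hi.ne, sum_eq_zero fun j hj => if_neg
        ((hI.par j (mem_Ico.1 hj).1 (mem_Ico.1 hj).2).trans (mem_Ico.1 hj).2).ne]
      ring

lemma Rw.ok_congr {r : Rw} {k : ℕ} {y y' : Pt} (hr : r.In k) (h : ∀ j < k, y j = y' j)
    (h' : r.ok y') : r.ok y := by
  have e : ∀ e, nd e < k → W y e = W y' e := fun e he => by rw [W, W, h _ he]
  rw [Rw.ok, List.map_congr_left fun f he => e f (hr.1 f he),
    List.map_congr_left fun f he => e f (hr.2 f he)]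
  exact h'

lemma opnS_ok (R : Rules) (hH : ∀ S s, Val t sg S (ih sg S s)) (hI : Inv S A) {i l h X X' u : ℕ}
    (hi : i < S.k) (hl : ∀ j < S.k, S.kind j ≠ .L i)
    (hv : opnS S i l h X X' (fun S' => ih sg S' u) < INF) :
    H sg t (S.k + 1) (opn S.kind i S.k)
      (fun a => Om S A (mg i S.k a) ∧ a S.k ≤ a i ∧ (l = 0 ∨ (l : ℝ) / SC ≤ a S.k) ∧
        (16777216 ≤ h ∨ a S.k ≤ (h : ℝ) / SC) ∧ ms (S.k + 1) X a ≤ ms (S.k + 1) X' a)
      ((opnS S i l h X X' (fun S' => ih sg S' u) : ℝ) / 10 ^ 9) := by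
  rw [opnS, force_eq] at hv ⊢
  obtain ⟨g, e⟩ := grd_lt hv
  rw [e] at hv ⊢
  simp only [band_eq, Bool.and_eq_true, Nat.blt_eq] at g
  simp only [force_eq, addRow_eq, Nat.succ_eq_add_one] at hv g ⊢
  have r0 : ∀ r ∈ rowOf (put S.par S.k i) (S.k + 1) (one S.k) (one i) 0 0 :: S.rs,
      r.In (S.k + 1) := List.forall_mem_cons.2 ⟨rowOf_lt _ _ _ _ _ _, fun r hr =>
    ⟨fun e he => ((hI.rows r hr).1 e he).trans S.k.lt_succ_self,
      fun e he => ((hI.rows r hr).2 e he).trans S.k.lt_succ_self⟩⟩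
  have main : ∀ rs : List Rw, (∀ r ∈ rs, r.In (S.k + 1)) → ∀ v, v < INF →
      v = ih sg ⟨S.k + 1, put S.par S.k i, put (put S.kd i (S.k + 1)) S.k 0, put S.lo S.k l,
        put S.hi S.k (mn h (Nat.shiftRight (ahi S i + 1) 1)), rs⟩ u →
      (∀ a, Om S A (mg i S.k a) → a S.k ≤ a i → ms (S.k + 1) X a ≤ ms (S.k + 1) X' a →
        ∀ r ∈ rs, r.ok (Y (opA A i S.k) a)) →
      H sg t (S.k + 1) (opn S.kind i S.k)
        (fun a => Om S A (mg i S.k a) ∧ a S.k ≤ a i ∧ (l = 0 ∨ (l : ℝ) / SC ≤ a S.k) ∧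
          (16777216 ≤ h ∨ a S.k ≤ (h : ℝ) / SC) ∧ ms (S.k + 1) X a ≤ ms (S.k + 1) X' a)
        ((v : ℝ) / 10 ^ 9) := by
    intro rs hr v h1 h2 h3
    obtain ⟨i1, i2⟩ := inv_opn hI hi g.1 hl (put S.lo S.k l)
      (put S.hi S.k (mn h (Nat.shiftRight (ahi S i + 1) 1))) hr
    have := hH _ u (h2 ▸ h1) _ i1
    rw [i2, ← h2] at this
    refine R.mono sg t _ _ _ _ _ _ (by omega) (i2 ▸ i1.kv) le_rfl (fun a ha hb _ =>
      ⟨fun j hj => ?_, h3 a ha.1 ha.2.1 ha.2.2.2.2⟩) this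
    simp only [get_put _ _ g.2.1, get_put _ _ g.2.2]
    split_ifs with c
    · rw [c, Y_new]
      refine ⟨ha.2.2.1.elim (fun e => ?_) id, ?_⟩
      · rw [e, Nat.cast_zero, zero_div]
        linarith [(hb S.k S.k.lt_succ_self).1]
      have a0 := g.2.2
      rw [mn_eq] at a0 ⊢
      rcases le_total h (Nat.shiftRight (ahi S i + 1) 1) with d | d
      · rw [min_eq_left d] at a0 ⊢
        exact ha.2.2.2.1.resolve_left a0.not_ge
      have a1 := ahi_ok hI ha.1 hi
      have a2 := half_le (ahi S i)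
      rw [mg_lt a hi, if_pos rfl] at a1
      rw [mul_div_assoc] at a2
      rw [min_eq_right d]
      linarith [ha.2.1]
    · have hj' : j < S.k := by
        simp only at hj
        omega
      rw [Y_old hI i a hj']
      exact ha.1.1 j hj'
  have i1 := (inv_opn hI hi g.1 hl 0 0 r0).1
  have base : ∀ a, Om S A (mg i S.k a) → a S.k ≤ a i →
      ∀ r ∈ rowOf (put S.par S.k i) (S.k + 1) (one S.k) (one i) 0 0 :: S.rs,
        r.ok (Y (opA A i S.k) a) := fun a h1 h2 =>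
    List.forall_mem_cons.2 ⟨(rowOf_iff i1 _ _ _ _ a).2 (by
        rw [ms_one S.k.lt_succ_self, ms_one (hi.trans S.k.lt_succ_self)]
        linarith),
      fun r hr => Rw.ok_congr (hI.rows r hr) (fun j hj => Y_old hI i a hj) (h1.2 r hr)⟩
  revert hv
  cases Nat.beq X 0 <;> intro hv
  · exact main _ (List.forall_mem_cons.2 ⟨rowOf_lt _ _ _ _ _ _, r0⟩) _ hv rfl fun a h1 h2 h3 =>
      List.forall_mem_cons.2 ⟨(rowOf_iff i1 _ _ _ _ a).2 (by linarith), base a h1 h2⟩
  · exact main _ r0 _ hv rfl fun a h1 h2 _ => base a h1 h2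

lemma mg_ne {i k l : ℕ} (a : Pt) (h : l < k) (h' : l ≠ i) : mg i k a l = a l := by
  rw [mg_lt a h, if_neg h', add_zero]

lemma link_ok (hI : Inv S A) {i : ℕ} (hi : i < S.k) (h0 : get S.kd i ≠ 0) (h : get S.kd i ≤ 16) :
    S.kind i = .L (get S.kd i - 1) ∧ get S.kd i - 1 < S.k ∧ get S.kd i - 1 ≠ i := by
  have e : S.kind i = .L (get S.kd i - 1) := kindOf_link h0 h
  obtain ⟨g1, g2⟩ := (hI.kv i hi).2 _ e
  refine ⟨e, g1, fun c => ?_⟩
  rw [c, e] at g2
  cases g2

lemma kv_upd {k i : ℕ} {kind : ℕ → Kind} (h : KV k kind) {κ : Kind}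
    (hl : κ = .P ∨ ∀ j < k, kind j ≠ .L i) (h1 : ∀ c, κ = .R c → 1 / 50 ≤ c ∧ c < 1)
    (h2 : ∀ l, κ ≠ .L l) : KV k (Function.update kind i κ) := by
  intro j hj
  by_cases e : j = i
  · rw [e, Function.update_self]
    exact ⟨h1, fun l g => (h2 l g).elim⟩
  rw [Function.update_of_ne e]
  refine ⟨(h j hj).1, fun l g => ⟨((h j hj).2 l g).1, ?_⟩⟩
  by_cases d : l = i
  · rw [d, Function.update_self]
    exact hl.resolve_right fun c => c j hj (d ▸ g)
  · rw [Function.update_of_ne d]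
    exact ((h j hj).2 l g).2

lemma Inv.updK (h : Inv S A) {kd : ℕ} (hk : KV S.k fun j => kindOf (get kd j)) {rs : List Rw}
    (hr : ∀ r ∈ rs, r.In S.k) : Inv ⟨S.k, S.par, kd, S.lo, S.hi, rs⟩ A :=
  ⟨h.pos, hk, h.par, h.sub, h.top, h.tree, hr, h.le⟩

lemma down_ok (R : Rules) (hH : ∀ sg S s, Val t sg S (ih sg S s)) (i : ℕ) {ν : ℕ} (s : ℕ) :
    Val t sg S (down ih sg S i ν s) := by
  rw [down, force_eq]
  refine Val.grd fun h => val_two fun u v h1 h2 A hI => ?_
  simp only [band_eq, bnot_eq, Bool.and_eq_true, Nat.blt_eq, Nat.ble_eq, allN_iff, cnd_eq,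
    Bool.not_eq_true', force_eq, addRow_eq, Nat.beq_eq, Nat.pred_eq_sub_one] at h h1 h2 ⊢
  obtain ⟨⟨hi, n1, n2⟩, h3, h4⟩ := h
  have hSC : (SC : ℝ) = 1000000 := by norm_num [SC]
  have hl : ∀ j < S.k, S.kind j ≠ .L i := fun j hj c => by
    have c1 := h3 j hj
    rw [← Bool.not_eq_true, Nat.beq_eq] at c1
    by_cases d0 : get S.kd j = 0
    · rw [NS.kind, d0, kindOf_zero] at c
      cases c
    by_cases d1 : get S.kd j ≤ 16
    · rw [NS.kind, kindOf_link d0 d1] at c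
      injection c with c
      omega
    · rw [NS.kind, kindOf_lev d1] at c
      cases c
  have m1 : 1 / 50 ≤ (ν : ℝ) / SC := by
    have : (20000 : ℝ) ≤ ν := by exact_mod_cast n1
    rw [hSC]
    linarith
  have m2 : (ν : ℝ) / SC < 1 := by
    have : (ν : ℝ) < 1000000 := by exact_mod_cast n2
    rw [hSC]
    linarith
  have ek : (fun j => kindOf (get (put S.kd i ν) j)) =
      Function.update S.kind i (.R ((ν : ℝ) / SC)) := by
    rw [kind_put _ _ (by omega), kindOf_lev (by omega)]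
    rfl
  have kv : KV S.k (Function.update S.kind i (.R ((ν : ℝ) / SC))) :=
    kv_upd hI.kv (Or.inr hl) (fun c e => by cases e; exact ⟨m1, m2⟩) fun l e => by cases e
  have cA := hH sg _ u h1 A (hI.updK (ek ▸ kv)
    (List.forall_mem_cons.2 ⟨rowOf_lt _ _ _ _ _ _, hI.rows⟩))
  change H sg t S.k (fun j => kindOf (get (put S.kd i ν) j)) _ _ at cA
  rw [ek] at cA
  have cA' := R.mono sg t _ _ _ _ (Om S A) _ hI.pos kv le_rfl (fun a ha g _ => ⟨ha.1,
    List.forall_mem_cons.2 ⟨(rowOf_iff hI _ _ _ _ a).2 (by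
      have := (g i hi).2
      rw [Function.update_self] at this
      rw [ms_zero, ms_one hi]
      simpa using le_of_lt this), ha.2⟩⟩) cA
  have lt : ∀ {p q : ℕ}, p < q → (p : ℝ) / SC < (q : ℝ) / SC := fun e =>
    div_lt_div_of_pos_right (by exact_mod_cast e) SC_pos
  split_ifs at h4 h2 ⊢ with c0 c1 <;> simp only [Nat.blt_eq, Nat.ble_eq] at h4
  · have e : S.kind i = .P := by rw [NS.kind, c0, kindOf_zero]
    refine R.down sg t _ _ _ _ i _ _ _ hI.kv hi hl m1 (fun a ha => ?_) (fun a g1 g2 g3 _ => ?_)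
      cA' (opnS_ok R (hH _) hI hi hl h2)
    · rw [e]
      exact (lt h4).trans_le (alo_ok hI ha hi (by omega))
    · exact ⟨g1, g3, Or.inr g2, Or.inl (by norm_num), le_rfl⟩
  · obtain ⟨e, e1, e2⟩ := link_ok hI hi c0 c1
    refine R.down sg t _ _ _ _ i _ _ _ hI.kv hi hl m1 (fun a ha => ?_) (fun a g1 g2 g3 g4 => ?_)
      cA' (opnS_ok R (hH _) hI hi hl h2)
    · rw [e]
      exact (lt h4).trans_le (alo_ok hI ha e1 (by omega))
    · rw [e] at g4
      refine ⟨g1, g3, Or.inr g2, Or.inr (le_trans g4 ?_), ?_⟩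
      · rw [← mg_ne a e1 e2]
        exact ahi_ok hI g1 e1
      · rw [ms_one S.k.lt_succ_self, ms_one (e1.trans S.k.lt_succ_self)]
        exact g4
  · have e : S.kind i = .R _ := kindOf_lev c1
    refine R.down sg t _ _ _ _ i _ _ _ hI.kv hi hl m1 (fun a ha => ?_) (fun a g1 g2 g3 g4 => ?_)
      cA' (opnS_ok R (hH _) hI hi hl h2)
    · rw [e]
      exact cdiv h4
    · rw [e] at g4
      exact ⟨g1, g3, Or.inr g2, Or.inr g4, le_rfl⟩

lemma up_ok (R : Rules) (hH : ∀ sg S s, Val t sg S (ih sg S s)) (i s : ℕ) :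
    Val t sg S (up ih sg S i s) := by
  rw [up, force_eq]
  refine Val.grd fun h => val_two fun u v h1 h2 A hI => ?_
  simp only [band_eq, Bool.and_eq_true, Nat.blt_eq, Nat.ble_eq, cnd_eq, force_eq,
    Nat.pred_eq_sub_one] at h h1 h2 ⊢
  obtain ⟨hi, c0⟩ := h
  have hP : S.kind i ≠ .P := fun c => by
    by_cases d1 : get S.kd i ≤ 16
    · rw [NS.kind, kindOf_link c0.ne' d1] at c
      cases c
    · rw [NS.kind, kindOf_lev d1] at c
      cases c
  have hl : ∀ j < S.k, S.kind j ≠ .L i := fun j hj c => hP ((hI.kv j hj).2 i c).2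
  have ek : (fun j => kindOf (get (put S.kd i 0) j)) = Function.update S.kind i .P := by
    rw [kind_put _ _ (by omega), kindOf_zero]
    rfl
  have kv : KV S.k (Function.update S.kind i .P) :=
    kv_upd hI.kv (Or.inl rfl) (fun c e => by cases e) fun l e => by cases e
  have cA := hH sg _ u h1 A (hI.updK (ek ▸ kv) hI.rows)
  change H sg t S.k (fun j => kindOf (get (put S.kd i 0) j)) (Om S A) _ at cA
  rw [ek] at cA
  split_ifs at h2 ⊢ with c1
  · obtain ⟨e, e1, e2⟩ := link_ok hI hi c0.ne' c1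
    refine R.up sg t _ _ _ i _ _ _ hI.kv hi hP (fun a g1 g3 g4 => ?_) cA
      (opnS_ok R (hH _) hI hi hl h2)
    rw [e] at g4
    refine ⟨g1, g3, ?_, Or.inl (by norm_num), ?_⟩
    · refine (Nat.eq_zero_or_pos _).imp_right fun d => le_trans ?_ g4
      rw [← mg_ne a e1 e2]
      exact alo_ok hI g1 e1 d
    · rw [ms_one S.k.lt_succ_self, ms_one (e1.trans S.k.lt_succ_self)]
      exact g4
  · have e : S.kind i = .R _ := kindOf_lev c1
    refine R.up sg t _ _ _ i _ _ _ hI.kv hi hP (fun a g1 g3 g4 => ?_) cA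
      (opnS_ok R (hH _) hI hi hl h2)
    rw [e] at g4
    exact ⟨g1, g3, Or.inr g4, Or.inl (by norm_num), le_rfl⟩

end Pool.Agent.MP_c853c5_nt.X
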