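import Pool.Agent.MP_c853c5_nt.X.Defs
import Pool.Agent.MP_c853c5_nt.REG.In

/-!
Integer states of the sieve calculus, in node coordinates.
-/

set_option autoImplicit false

open Finset

namespace Pool.Agent.MP_c853c5_nt.X

open Pool.Agent.MP_c853c5_nt.S Pool.Agent.MP_c853c5_nt.REG

/-- evaluate `x` before continuing -/
noncomputable def force (x : ℕ) (f : ℕ → ℕ) : ℕ :=
  Nat.rec (motive := fun _ => ℕ) (f 0) (fun n _ => f (Nat.succ n)) x

noncomputable def cnd {α : Type} (b : Bool) (x y : α) : α := Bool.rec (motive := fun _ => α) y x b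

/-- fields of `24` bits -/
def get (v i : ℕ) : ℕ := Nat.mod (Nat.shiftRight v (Nat.mul 24 i)) 16777216

def put (v i c : ℕ) : ℕ := Nat.xor v (Nat.shiftLeft (Nat.xor (get v i) c) (Nat.mul 24 i))

/-- an entry of a row is a node with a coefficient -/
def nd (e : ℕ) : ℕ := Nat.mod e 16

def cf (e : ℕ) : ℕ := Nat.succ (Nat.shiftRight e 4)

noncomputable def W (y : Pt) : Pt := fun e => (cf e : ℝ) * y (nd e)

/-- `c1 + ∑ l1 ≤ c2 + ∑ l2` in node coordinates -/
structure Rw where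
  c1 : ℕ
  l1 : List ℕ
  c2 : ℕ
  l2 : List ℕ

def Rw.ok (r : Rw) (y : Pt) : Prop :=
  (r.c1 : ℝ) / SC + (r.l1.map (W y)).sum ≤ (r.c2 : ℝ) / SC + (r.l2.map (W y)).sum

/-- `k` blocks, parents, codes of the kinds, box of the nodes, rows -/
structure NS where
  k : ℕ
  par : ℕ
  kd : ℕ
  lo : ℕ
  hi : ℕ
  rs : List Rw

/-- `0` is prime, `l + 1 ≤ 16` is a link to `l`, larger values are levels -/
noncomputable def kindOf (c : ℕ) : Kind :=
  if c = 0 then .P else if c ≤ 16 then .L (c - 1) else .R ((c : ℝ) / SC)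

noncomputable def NS.kind (S : NS) : ℕ → Kind := fun j => kindOf (get S.kd j)

/-- node coordinates: `A j` is the subtree of the node `j` -/
noncomputable def Y (A : ℕ → Finset ℕ) (a : Pt) : Pt := fun j => ∑ i ∈ A j, a i

structure Inv (S : NS) (A : ℕ → Finset ℕ) : Prop where
  pos : 1 ≤ S.k
  kv : KV S.k S.kind
  par : ∀ j, 1 ≤ j → j < S.k → get S.par j < j
  sub : ∀ j < S.k, A j ⊆ range S.k ∧ j ∈ A j ∧ (j ≠ 0 → 0 ∉ A j)
  top : A 0 = range S.k
  tree : ∀ (a : Pt), ∀ i < S.k,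
    Y A a i = a i + ∑ j ∈ (Ico 1 S.k).filter (fun j => get S.par j = i), Y A a j
  rows : ∀ r ∈ S.rs, (∀ e ∈ r.l1, nd e < S.k) ∧ ∀ e ∈ r.l2, nd e < S.k
  le : S.k ≤ 16

/-- the region of a state -/
def Om (S : NS) (A : ℕ → Finset ℕ) (a : Pt) : Prop :=
  (∀ j < S.k, (get S.lo j : ℝ) / SC ≤ Y A a j ∧ Y A a j ≤ (get S.hi j : ℝ) / SC) ∧
    ∀ r ∈ S.rs, r.ok (Y A a)

/-- losses are integers in units of `10 ^ (-9)`; `INF` is failure -/
def INF : ℕ := 1000000000000000

def Val (t : ℝ) (sg : Bool) (S : NS) (l : ℕ) : Prop :=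
  l < INF → ∀ A, Inv S A → H sg t S.k S.kind (Om S A) ((l : ℝ) / 10 ^ 9)

/-- interface of the mass bound; `d` is free data -/
def MNok (MN : ℕ → NS → ℕ) : Prop := ∀ (d : ℕ) (S : NS) (A : ℕ → Finset ℕ), Inv S A →
  MN d S < INF →
  Mass (SF S.k S.kind fun a => Om S A a ∧ ∀ j < S.k, 1 / 50 ≤ a j) ((MN d S : ℝ) / 10 ^ 9)

lemma force_eq (x : ℕ) (f : ℕ → ℕ) : force x f = f x := by cases x <;> rfl

lemma cnd_eq {α : Type} (b : Bool) (x y : α) : cnd b x y = if b = true then x else y := by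
  cases b <;> rfl

lemma nd_le (e : ℕ) : nd e ≤ e := Nat.mod_le _ _

lemma W_lt {e : ℕ} (h : e < 16) (y : Pt) : W y e = y e := by
  have e1 : nd e = e := Nat.mod_eq_of_lt h
  have e2 : cf e = 1 := congrArg Nat.succ (Nat.shiftRight_eq_zero e 4 h)
  rw [W, e1, e2, Nat.cast_one, one_mul]

lemma get_eq (v i : ℕ) : get v i = v >>> (24 * i) % 2 ^ 24 := rfl

lemma get_lt (v i : ℕ) : get v i < 16777216 := Nat.mod_lt _ (by norm_num)

lemma get_put (v i : ℕ) {c : ℕ} (hc : c < 16777216) (j : ℕ) :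
    get (put v i c) j = if j = i then c else get v j := by
  have h1 : get v i ^^^ c < 2 ^ 24 := Nat.xor_lt_two_pow (get_lt v i) hc
  refine Nat.eq_of_testBit_eq fun n => ?_
  show ((v ^^^ ((get v i ^^^ c) <<< (24 * i))) >>> (24 * j) % 2 ^ 24).testBit n = _
  rw [Nat.testBit_mod_two_pow, Nat.testBit_shiftRight, Nat.testBit_xor, Nat.testBit_shiftLeft]
  by_cases hn : n < 24
  · split_ifs with e
    · subst e
      rw [Nat.add_sub_cancel_left, Nat.testBit_xor, get_eq, Nat.testBit_mod_two_pow,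
        Nat.testBit_shiftRight]
      simp [hn]
    · rw [get_eq v j, Nat.testBit_mod_two_pow, Nat.testBit_shiftRight]
      rcases lt_or_gt_of_ne e with g | g
      · simp [hn, show ¬ 24 * i ≤ 24 * j + n by omega]
      · rw [Nat.testBit_lt_two_pow
          (h1.trans_le (Nat.pow_le_pow_right two_pos (show 24 ≤ 24 * j + n - 24 * i by omega)))]
        simp
  · have g : 2 ^ 24 ≤ 2 ^ n := Nat.pow_le_pow_right two_pos (not_lt.1 hn)
    rw [Nat.testBit_lt_two_pow (lt_of_lt_of_le (by split_ifs; exacts [hc, get_lt v j]) g)]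
    simp [hn]

/-- every weighted sum of sizes in node coordinates -/
lemma Inv.wsum {S : NS} {A : ℕ → Finset ℕ} (h : Inv S A) (w : ℕ → ℝ) (a : Pt) :
    ∑ i ∈ range S.k, w i * a i =
      w 0 * Y A a 0 + ∑ j ∈ Ico 1 S.k, (w j - w (get S.par j)) * Y A a j := by
  have e1 : ∑ i ∈ range S.k, w i * Y A a i = ∑ i ∈ range S.k, w i * a i +
      ∑ j ∈ Ico 1 S.k, w (get S.par j) * Y A a j := by
    rw [← sum_fiberwise_of_maps_to (s := Ico 1 S.k) (t := range S.k) (g := get S.par)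
      (fun j hj => mem_range.2 ((h.par j (mem_Ico.1 hj).1 (mem_Ico.1 hj).2).trans
        (mem_Ico.1 hj).2)), ← sum_add_distrib]
    refine sum_congr rfl fun i hi => ?_
    rw [h.tree a i (mem_range.1 hi), mul_add, mul_sum]
    exact congrArg _ (sum_congr rfl fun j hj => by rw [(mem_filter.1 hj).2])
  rw [range_eq_Ico, sum_eq_sum_Ico_succ_bot h.pos] at e1
  simp only [sub_mul, sum_sub_distrib]
  rw [range_eq_Ico]
  linarith

end Pool.Agent.MP_c853c5_nt.X
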