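import Pool.Agent.MP_c853c5_nt.X.UWD
import Pool.Agent.MP_c853c5_nt.X.GdD

/-!
The rows of the uniform leaves for a grid of cells (definitions only).
-/

set_option autoImplicit false

namespace Pool.Agent.MP_c853c5_nt.X

/-- the rows of `P` in node coordinates, in front of `L` -/
noncomputable def mkRs (S : NS) (G g0 : ℕ) (L : List Rw) (P : List (ℕ × ℕ)) : (List Rw → ℕ) → ℕ :=
  List.rec (motive := fun _ => (List Rw → ℕ) → ℕ) (fun K => K L)
    (fun y _ ih K => mkRow S.par G y.1 (Nat.pred S.k) fun m l1 l2 =>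
      force (Nat.add (Nat.mul (dg y.1 g0) 1000000) (Nat.mul 16 m)) fun c => force y.2 fun e =>
        ih fun M => K (⟨c, l1, e, l2⟩ :: M)) P

/-- the level with code `q` is at most `z`: a row for a link, a test for a constant -/
noncomputable def lkR (S : NS) (z q : ℕ) (L : List Rw) (K : List Rw → ℕ) : ℕ :=
  cnd (Nat.ble q 16) (addRow S.par S.k (one (Nat.pred q)) 0 1 z L K) (grd (Nat.ble q z) (K L))

/-- code: blocks `i ≤ j`, two flags, `4` bits `r`, `20` bits `z`, `20` bits `d` if `r ≠ 0`,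
labels -/
noncomputable def uwP (tn0 : ℕ) (ct : ℕ → ℕ → ℕ → Bool) : Prov := fun S s K =>
  force tn0 fun tn => force (Nat.mod s 16) fun i =>
  force (Nat.mod (Nat.shiftRight s 4) 16) fun j =>
  force (Nat.mod (Nat.shiftRight s 10) 16) fun r =>
  force (Nat.mod (Nat.shiftRight s 14) 1048576) fun z =>
  force (cnd (Nat.beq r 0) (Nat.add (Nat.shiftRight z 1) 2)
    (Nat.mod (Nat.shiftRight s 34) 1048576)) fun d =>
  force (Nat.shiftRight s (cnd (Nat.beq r 0) 34 54)) fun u =>
  force (Nat.mul 4 S.k) fun w => force (Nat.mod u (one w)) fun G =>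
  force (Nat.shiftRight u w) fun v => force (Nat.mul 12 (d4 G 0)) fun g0 =>
  force (get S.kd i) fun p => force (get S.kd j) fun q =>
  grd (band (uwG tn S i j d G) (ct r z d))
    (lkR S z p [] fun L => lkR S z (cnd (Nat.beq p q) 17 q) L fun M =>
      mkRs S G g0 M (cnd (Nat.beq i j) (uw1 tn d (bit s 8) (bit s 9)) (uw2 tn d)) fun N => K N v)

end Pool.Agent.MP_c853c5_nt.X
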