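import Pool.Agent.MP_c853c5_nt.X.UWD
import Pool.Agent.MP_c853c5_nt.X.Cv
import Pool.Agent.MP_c853c5_nt.Y.X
import Pool.Agent.MP_c853c5_nt.REG.UG

/-!
Soundness of the rule for the uniform leaves with the mixed fourth moment.
-/

set_option autoImplicit false

open Finset

namespace Pool.Agent.MP_c853c5_nt.X

open Pool.Agent.MP_c853c5_nt.S Pool.Agent.MP_c853c5_nt.REG Pool.Agent.MP_c853c5_nt.Y

variable {S : NS} {A : ℕ → Finset ℕ} {t : ℝ} {sg : Bool} {tn : ℕ}

def CvOK (t : ℝ) (cv : Cv) : Prop := ∀ (sg : Bool) (ih : NS → ℕ → ℕ),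
  (∀ S s, Val t sg S (ih S s)) → ∀ (S : NS) (G : ℕ) (P : List (ℕ × ℕ)) (v : ℕ) (A : ℕ → Finset ℕ),
    Inv S A → H sg t S.k S.kind (fun a => Om S A a ∧ ∀ y ∈ P, Pr S.k G y a) 0 →
    cv ih S G P v < INF → H sg t S.k S.kind (Om S A) ((cv ih S G P v : ℝ) / 10 ^ 9)

theorem cv1_ok (t : ℝ) : CvOK t cv1 := fun sg ih hH S G P v A hI h hl => by
  obtain ⟨r, e, hr⟩ := row_ok hI G false
  rw [cv1, force_eq, e] at hl ⊢
  exact (crv_ok hH hI.le _ _ _ _ r _ _ hI hr h hl).anti fun _ ha => ⟨ha, ha⟩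

theorem cv2_ok (t : ℝ) {im : NS → Rw → ℕ → Bool} (hm : Imok im) : CvOK t (cv im) :=
  fun _ _ hH _ _ _ _ _ hI h hl => cv_ok hm hH hI h hl

/-- the level of the block `i` is at most `z` -/
def Lz (S : NS) (i z : ℕ) (a : Pt) : Prop := ∀ y, (S.kind i).lev a y → y ≤ (z : ℝ) / SC

/-- a row at the point itself -/
lemma Pr.self {k G i : ℕ} {y : ℕ × ℕ} {a : Pt} (h : Pr k G y a) (hi : i < k)
    (h0 : wt y.1 G i = 0) (h1 : ∀ m < k, 1 / 50 ≤ a m) (hs : |∑ m ∈ range k, a m - 1| ≤ un) :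
    ∑ m ∈ range k, wt y.1 G m * a m ≤ (y.2 : ℝ) / SC := by
  have u := un_eq_SndL
  obtain ⟨s1, s2⟩ := abs_le.1 hs
  have := h (fun m => a m + if m = i then 1 - ∑ m ∈ range k, a m else 0) (fun m hm => by
    have := h1 m hm
    split_ifs
    · exact ⟨by linarith, by linarith, by linarith⟩
    · exact ⟨by linarith, by linarith, by linarith⟩) (by simp [sum_add_distrib, hi])
  simpa [mul_add, sum_add_distrib, hi, h0] using this

def K1 (g : ℕ) : ℕ := if g = 1 then 1 else if g = 3 then 2 else 0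
def K2 (g : ℕ) : ℕ := if g = 1 then 1 else if g = 2 then 2 else 0
def K3 (g : ℕ) : ℕ := if g = 0 then 1 else 0

lemma row_fin {r G n c μ α β γ : ℕ} {e : Fin r → ℕ} {a : Pt} {w : Fin r → ℝ} {x : ℝ} (hr : r ≤ 16)
    (hG : ∀ m, d4 G (e m) < n) (hw : ∀ m, w m ≤ a (e m) + un)
    (hc : ∀ g < n, dg c (12 * g) = α * K1 g + β * K2 g + γ * K3 g ∧ dg c (12 * g) ≤ μ)
    (h : ∑ m, wt c G (e m) * a (e m) ≤ x) :
    α * ∑ m, (K1 (d4 G (e m)) : ℝ) * w m + β * ∑ m, (K2 (d4 G (e m)) : ℝ) * w m +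
      γ * ∑ m, (K3 (d4 G (e m)) : ℝ) * w m ≤ x + 16 * μ / 1000000 := by
  have u := un_eq_SndL
  have r' : (r : ℝ) ≤ 16 := by exact_mod_cast hr
  have : ∑ m, wt c G (e m) * w m ≤ ∑ m : Fin r, (wt c G (e m) * a (e m) + μ * un) :=
    sum_le_sum fun m _ => by
      have h1 : wt c G (e m) ≤ μ := Nat.cast_le.2 (hc _ (hG m)).2
      have h2 : 0 ≤ wt c G (e m) := Nat.cast_nonneg _
      nlinarith [mul_le_mul_of_nonneg_left (hw m) h2]
  rw [sum_add_distrib, sum_const, card_univ, Fintype.card_fin, nsmul_eq_mul] at this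
  rw [mul_sum, mul_sum, mul_sum, ← sum_add_distrib, ← sum_add_distrib]
  refine le_trans (le_of_eq (sum_congr rfl fun m _ => ?_)) (this.trans ?_)
  · rw [wt, (hc _ (hG m)).1]
    push_cast
    ring
  · have : (0 : ℝ) ≤ μ := Nat.cast_nonneg _
    rw [u]
    nlinarith

lemma sub_UW {x y : ℕ} (h : y ≤ x) : ((x - y : ℕ) : ℝ) / SC = ((x : ℝ) - y) / 1000000 := by
  rw [Nat.cast_sub h, SC_eq_SndL]

lemma fin_UW {τ δ x y m : ℝ} (h0 : 1 / 1000000 ≤ δ) (h1 : 2 * τ + 2 * δ ≤ 1) (h2 : τ + δ + m ≤ 1)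
    (h3 : x ≤ τ ∨ x + 3 * τ + 2 * δ + 2 / 1000000 ≤ 2 ∧ x + τ + 2 * m + 2 / 1000000 ≤ 2)
    (h4 : y ≤ τ ∨ y + 3 * τ + 2 * δ + 2 / 1000000 ≤ 2 ∧ y + τ + 2 * m + 2 / 1000000 ≤ 2)
    (h5 : x ≤ τ ∨ y ≤ τ ∨ x + y + 2 * τ + 2 * δ + 2 / 1000000 ≤ 2 ∧ x + y + 2 * m + 2 / 1000000 ≤ 2) :
    ∃ W : ℝ, max τ x + max τ y ≤ 2 * W ∧ τ + δ + m ≤ 1 ∧ W + 1 / 1000000 + τ + δ ≤ 1 ∧
      W + 1 / 1000000 + m ≤ 1 := by
  refine ⟨_, (mul_div_cancel₀ _ two_ne_zero).ge, h2, ?_⟩
  rcases le_or_gt x τ with a | a <;> rcases le_or_gt y τ with b | b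
  · rw [max_eq_left a, max_eq_left b]
    exact ⟨by linarith, by linarith⟩
  · obtain ⟨c, d⟩ := h4.resolve_left b.not_ge
    rw [max_eq_left a, max_eq_right b.le]
    exact ⟨by linarith, by linarith⟩
  · obtain ⟨c, d⟩ := h3.resolve_left a.not_ge
    rw [max_eq_right a.le, max_eq_left b]
    exact ⟨by linarith, by linarith⟩
  · obtain ⟨c, d⟩ := (h5.resolve_left a.not_ge).resolve_left b.not_ge
    rw [max_eq_right a.le, max_eq_right b.le]
    exact ⟨by linarith, by linarith⟩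

theorem uw_node {Z : Sys} (h1 : 1 / 3 ≤ t) (h2 : t < (tn : ℝ) / SC) (cut : CutStmt2)
    (hL : LeafSG (sysW.or2 Z)) (hL2 : LeafS2G (sysW.or2 Z)) (hI : Inv S A) {i j d G z : ℕ}
    {f g : Bool} (hG : uwG tn S i j d G = true)
    (hC : Crs (sysW.or2 Z) ((tn : ℝ) / SC) ((z : ℝ) / SC) ((d : ℝ) / SC)) :
    H sg t S.k S.kind (fun a => (Lz S i z a ∧ Lz S j z a) ∧
      ∀ y ∈ cnd (Nat.beq i j) (uw1 tn d f g) (uw2 tn d), Pr S.k G y a) 0 := by
  simp only [uwG, band_eq, bor_eq, Bool.and_eq_true, Bool.or_eq_true, Nat.ble_eq, Nat.blt_eq,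
    allN_iff, cnd_eq, Nat.beq_eq, Nat.add_eq] at hG
  obtain ⟨⟨⟨hij, hj⟩, hi0, hj0⟩, ⟨d0, d1⟩, hG⟩ := hG
  have hi : i < S.k := by omega
  have hk := hI.le
  have t0 : 333333 < tn := by
    have : (333333 : ℝ) < tn := by
      rw [SC_eq_SndL, lt_div_iff₀ (by norm_num)] at h2
      linarith
    exact_mod_cast this
  have d0' : (1 : ℝ) ≤ d := by exact_mod_cast d0
  have d1' : (tn : ℝ) + d ≤ 500000 := by exact_mod_cast d1
  have gi : d4 G i = 4 := by simpa using hG i hi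
  have gj : d4 G j = 4 := by simpa using hG j hj
  have hv := hI.kv
  have h3 : (tn : ℝ) / SC ≤ 1 / 2 := by
    rw [SC_eq_SndL]
    linarith
  have h4 : 2 * ((tn : ℝ) / SC) + 2 * ((d : ℝ) / SC) ≤ 1 := by
    rw [SC_eq_SndL]
    linarith
  have h5 : 0 ≤ (d : ℝ) / SC := by positivity
  rcases hij.eq_or_lt with rfl | hlt
  · obtain ⟨r, hr⟩ : ∃ r, S.k = r + 1 := ⟨S.k - 1, by omega⟩
    rw [hr] at hv hG ⊢
    have hG' : ∀ m : Fin r, d4 G (sk i m) < 4 := fun m => by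
      simpa [sk_ne_SndL] using hG _ (sk_lt_SndL (i := i) m.2)
    refine xLeafSG cut hL h1 h2 h3 (by omega) hv (kind_ne_P hi0)
      fun B a y ha h50 hs hc _ hy => ug_one (s := 1 / 1000000)
        (k1 := fun m => K1 (d4 G (sk i m))) (k2 := fun m => K2 (d4 G (sk i m)))
        (k3 := fun m => K3 (d4 G (sk i m))) (by linarith) (by norm_num) h5 h4 hC (ha.1.1 y hy)
        (fun m => (by decide : ∀ g < 4, K1 g + K2 g + 2 * K3 g = 2) _ (hG' m)) fun w hw => ?_
    have key := fun (c x μ α β γ : ℕ) (hy : (c, x) ∈ uw1 tn d f g) (e : dg c 48 = 0) hc' =>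
      row_fin (c := c) (μ := μ) (α := α) (β := β) (γ := γ) (a := a) (w := w) (x := (x : ℝ) / SC)
        (by omega) hG' (fun m => (hw m).2.2.trans (hc m).2.1) hc' (by
          have w0 : wt c G i = 0 := by rw [wt, gi, e, Nat.cast_zero]
          have := (ha.2 (c, x) (by simpa [cnd_eq] using hy)).self (by omega) w0 h50 hs
          rwa [sum_sk_U (i := i) (by omega), w0, zero_mul, add_zero] at this)
    have D := key _ _ 1 0 0 1 List.mem_cons_self rfl (by decide)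
    have N1 := fun h => key 549755830272 (tn - 128) 8 4 0 0 h rfl (by decide)
    have N2 := fun h => key 33558528 (tn - 32) 2 0 1 0 h rfl (by decide)
    have N3 := fun h => key 549755830272 (4000000 - (7 * tn + 4 * d + 132)) 8 4 0 0 h rfl
      (by decide)
    have N4 := fun h => key 549755830276 (4000000 - (3 * tn + 132)) 8 4 0 4 h rfl (by decide)
    have N5 := fun h => key 33558528 (2000000 - (3 * tn + 2 * d + 34)) 2 0 1 0 h rfl (by decide)
    have N6 := fun h => key 33558530 (2000000 - (tn + 34)) 2 0 1 2 h rfl (by decide)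
    have N7 := fun h => key 549822947328 (4000000 - (5 * tn + 4 * d + 132)) 8 4 2 0 h rfl
      (by decide)
    have N8 := fun h => key 549822947332 (4000000 - (tn + 132)) 8 4 2 4 h rfl (by decide)
    rw [sub_UW (by omega)] at D N1 N2 N3 N4 N5 N6 N7 N8
    push_cast at D N1 N2 N3 N4 N5 N6 N7 N8
    rw [SC_eq_SndL]
    refine fin_UW (by linarith only [d0']) (by linarith only [d1']) (by linarith only [D]) ?_ ?_ ?_
    · cases f
      · exact Or.inl (by linarith only [N1 (by simp [uw1, cnd])])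
      · exact Or.inr ⟨by linarith only [N3 (by simp [uw1, cnd])],
          by linarith only [N4 (by simp [uw1, cnd])]⟩
    · cases g
      · exact Or.inl (by linarith only [N2 (by cases f <;> simp [uw1, cnd])])
      · exact Or.inr ⟨by linarith only [N5 (by cases f <;> simp [uw1, cnd])],
          by linarith only [N6 (by cases f <;> simp [uw1, cnd])]⟩
    · cases f
      · exact Or.inl (by linarith only [N1 (by simp [uw1, cnd])])
      cases g
      · exact Or.inr (Or.inl (by linarith only [N2 (by simp [uw1, cnd])]))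
      · exact Or.inr (Or.inr ⟨by linarith only [N7 (by simp [uw1, cnd])],
          by linarith only [N8 (by simp [uw1, cnd])]⟩)
  · obtain ⟨r, hr⟩ : ∃ r, S.k = r + 2 := ⟨S.k - 2, by omega⟩
    obtain ⟨j, rfl, hj'⟩ : ∃ j', j = sk i j' ∧ j' ≤ r :=
      ⟨j - 1, by unfold sk; split_ifs <;> omega, by omega⟩
    rw [hr] at hv hG ⊢
    have hG' : ∀ m : Fin r, d4 G (sk i (sk j m)) < 2 := fun m => by
      have e : sk i (sk j m) ≠ sk i j := by
        have := sk_ne_SndL j m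
        unfold sk at *
        split_ifs at * <;> omega
      simpa [sk_ne_SndL, e, hlt.ne] using hG _ (sk_lt_SndL (i := i) (sk_lt_SndL (i := j) m.2))
    refine xLeafS2G cut hL2 h1 h2 h3 (by omega) hj' hv (kind_ne_P hi0) (kind_ne_P hj0)
      fun B a y1 y2 lo hi ha h50 hs hc _ _ hy1 hy2 _ _ => ug_two (s := 1 / 1000000)
        (k1 := fun m => K1 (d4 G (sk i (sk j m)))) (k2 := fun m => K1 (d4 G (sk i (sk j m))))
        (k3 := fun m => K3 (d4 G (sk i (sk j m)))) (by linarith) (by norm_num) h5 h4 hC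
        (ha.1.1 y1 hy1) (ha.1.2 y2 hy2)
        (fun m => (by decide : ∀ g < 2, K1 g + K1 g + 2 * K3 g = 2) _ (hG' m)) fun w hw => ?_
    have key := fun (c x μ α γ : ℕ) (hy : (c, x) ∈ uw2 tn d) (e : dg c 48 = 0) hc' =>
      row_fin (c := c) (μ := μ) (α := α) (β := 0) (γ := γ) (a := a) (w := w) (x := (x : ℝ) / SC)
        (by omega) hG' (fun m => (hw m).2.2.trans (hc m).2.1) hc' (by
          have w0 : wt c G i = 0 := by rw [wt, gi, e, Nat.cast_zero]
          have w1 : wt c G (sk i j) = 0 := by rw [wt, gj, e, Nat.cast_zero]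
          have := (ha.2 (c, x) (by simpa [cnd_eq, hlt.ne] using hy)).self (by omega) w0 h50 hs
          rwa [sum_sk_U (r := r + 1) (i := i) (by omega), w0, zero_mul, add_zero,
            ← sum_range fun m => wt c G (sk i m) * a (sk i m), sum_sk_U hj', w1, zero_mul,
            add_zero] at this)
    have D := key _ _ 1 0 1 List.mem_cons_self rfl (by decide)
    have N1 := key 16384 (2000000 - (3 * tn + 2 * d + 66)) 4 4 0 (by simp [uw2]) rfl (by decide)
    have N2 := key 16386 (2000000 - (tn + 66)) 4 4 2 (by simp [uw2]) rfl (by decide)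
    rw [sub_UW (by omega)] at D N1 N2
    push_cast at D N1 N2
    rw [SC_eq_SndL]
    rcases le_total ((tn : ℝ) / 1000000 / 2 + 2 * ∑ m : Fin r, (K1 (d4 G (sk i (sk j m))) : ℝ) * w m)
      ((tn : ℝ) / 1000000) with c | c
    · exact fin_UW (by linarith only [d0']) (by linarith only [d1']) (by linarith only [D])
        (Or.inl c) (Or.inl c) (Or.inl c)
    · exact fin_UW (by linarith only [d0']) (by linarith only [d1']) (by linarith only [D])
        (Or.inr ⟨by linarith only [N1, c], by linarith only [N2, c]⟩)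
        (Or.inr ⟨by linarith only [N1, c], by linarith only [N2, c]⟩)
        (Or.inr (Or.inr ⟨by linarith only [N1], by linarith only [N2]⟩))

theorem uwR_ok {Z : Sys} (h1 : 1 / 3 ≤ t) (h2 : t < (tn : ℝ) / SC) (cut : CutStmt2)
    (hL : LeafSG (sysW.or2 Z)) (hL2 : LeafS2G (sysW.or2 Z)) {cv : Cv} (hcv : CvOK t cv)
    {ct : ℕ → ℕ → ℕ → Bool} (hct : ∀ r z d, ct r z d = true →
      Crs (sysW.or2 Z) ((tn : ℝ) / SC) ((z : ℝ) / SC) ((d : ℝ) / SC)) :
    XTok t (uwR cv tn ct) := fun _ ih _ hH sg S s => by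
  simp only [uwR, force_eq]
  refine Val.grd fun g hl A hI => ?_
  rw [band_eq, Bool.and_eq_true] at g
  have g1 := g.1
  simp only [uwG, band_eq, Bool.and_eq_true, Nat.ble_eq, Nat.blt_eq] at g1
  obtain ⟨⟨⟨hij, hj⟩, hi0, hj0⟩, -⟩ := g1
  refine hcv sg _ (hH sg) S _ _ _ A hI ((uw_node h1 h2 cut hL hL2 hI g.1 (hct _ _ _ g.2)).anti
    fun a ha => ⟨⟨fun y hy => (lev_le hI ha.1 (hij.trans_lt hj) hi0 hy).trans ?_,
      fun y hy => (lev_le hI ha.1 hj hj0 hy).trans ?_⟩, ha.2⟩) hl <;> rw [mx_eq]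
  exacts [div_le_div_of_nonneg_right (Nat.cast_le.2 (le_max_left _ _)) SC_pos.le,
    div_le_div_of_nonneg_right (Nat.cast_le.2 (le_max_right _ _)) SC_pos.le]

theorem ctW_ok (Z : Sys) (h1 : 1 / 3 ≤ t) (h2 : t < (tn : ℝ) / SC) {z d : ℕ} (h : ctW z d = true) :
    Crs (sysW.or2 Z) ((tn : ℝ) / SC) ((z : ℝ) / SC) ((d : ℝ) / SC) := by
  simp only [ctW, Bool.and_eq_true, Nat.ble_eq] at h
  have a1 : (z : ℝ) ≤ 100000 := by exact_mod_cast h.1
  have a2 : (z : ℝ) + 2 ≤ 2 * d := by exact_mod_cast h.2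
  refine crs_win Z (s := 1 / 1000000) (by linarith) (by norm_num) ?_ ?_ <;> rw [SC_eq_SndL] <;>
    linarith

end Pool.Agent.MP_c853c5_nt.X
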