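import Pool.Agent.MP_c853c5_nt.X.XTD

/-!
The region of the uniform leaves with the mixed fourth moment is cut out of a state
(definitions only).
-/

set_option autoImplicit false

namespace Pool.Agent.MP_c853c5_nt.X

/-- rows for one sieved block; labels `0` rest, `1` both moments, `2` second, `3` first -/
noncomputable def uw1 (tn d : ℕ) (f g : Bool) : List (ℕ × ℕ) :=
  (1, 1000000 - (tn + d + 16)) :: cnd f
    ((549755830272, 4000000 - (7 * tn + 4 * d + 132)) ::
      (549755830276, 4000000 - (3 * tn + 132)) :: cnd g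
        [(33558528, 2000000 - (3 * tn + 2 * d + 34)), (33558530, 2000000 - (tn + 34)),
          (549822947328, 4000000 - (5 * tn + 4 * d + 132)), (549822947332, 4000000 - (tn + 132))]
        [(33558528, tn - 32)])
    ((549755830272, tn - 128) :: cnd g
      [(33558528, 2000000 - (3 * tn + 2 * d + 34)), (33558530, 2000000 - (tn + 34))]
      [(33558528, tn - 32)])

/-- rows for two sieved blocks -/
def uw2 (tn d : ℕ) : List (ℕ × ℕ) :=
  [(1, 1000000 - (tn + d + 16)), (16384, 2000000 - (3 * tn + 2 * d + 66)),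
    (16386, 2000000 - (tn + 66))]

/-- guards of the rule -/
noncomputable def uwG (tn : ℕ) (S : NS) (i j d G : ℕ) : Bool :=
  band (band (band (Nat.ble i j) (Nat.blt j S.k))
      (band (Nat.blt 0 (get S.kd i)) (Nat.blt 0 (get S.kd j))))
    (band (band (Nat.blt 0 d) (Nat.ble (Nat.add tn d) 500000))
      (allN (fun m => cnd (bor (Nat.beq m i) (Nat.beq m j)) (Nat.beq (d4 G m) 4)
        (Nat.blt (d4 G m) (cnd (Nat.beq i j) 4 2))) S.k))

/-- a procedure that cuts along a list of rows: state, labels, rows, code -/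
abbrev Cv := (NS → ℕ → ℕ) → NS → ℕ → List (ℕ × ℕ) → ℕ → ℕ

noncomputable def cv1 : Cv := fun ih S G P v =>
  force (Nat.mul 12 (d4 G 0)) fun g0 => mkRL S G false (Nat.pred S.k) fun q =>
    crv ih S.k S.par S.kd G g0 P S.lo S.hi S.rs q v

/-- code: blocks `i ≤ j`, two flags, `4` bits `r`, `20` bits `d` if `r ≠ 0`, labels, cuts;
`ct r z d` tests the level `z` against the margin `d` -/
noncomputable def uwR (cv : Cv) (tn0 : ℕ) (ct : ℕ → ℕ → ℕ → Bool) : Rule := fun _ ih sg S s =>
  force tn0 fun tn => force (Nat.mod s 16) fun i =>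
  force (Nat.mod (Nat.shiftRight s 4) 16) fun j =>
  force (Nat.mod (Nat.shiftRight s 10) 16) fun r =>
  force (mx (levU S i) (levU S j)) fun z =>
  force (cnd (Nat.beq r 0) (Nat.add (Nat.shiftRight z 1) 2)
    (Nat.mod (Nat.shiftRight s 14) 1048576)) fun d =>
  force (Nat.shiftRight s (cnd (Nat.beq r 0) 14 34)) fun u =>
  force (Nat.mul 4 S.k) fun w => force (Nat.mod u (one w)) fun G =>
  force (Nat.shiftRight u w) fun v =>
  grd (band (uwG tn S i j d G) (ct r z d))
    (cv (ih sg) S G (cnd (Nat.beq i j) (uw1 tn d (bit s 8) (bit s 9)) (uw2 tn d)) v)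

/-- the window test -/
def ctW (z d : ℕ) : Bool := Nat.ble z 100000 && Nat.ble (z + 2) (2 * d)

/-- the window test or the dispersion test -/
noncomputable def ctD (tn r z d : ℕ) : Bool :=
  cnd (Nat.beq r 0) (ctW z d)
    (Nat.ble 400000 tn && Nat.ble z 100000 && Nat.ble 2 r && Nat.ble 1000003 (2 * tn + 3 * d) &&
      Nat.ble (2 * r * z + 1) (tn + d + z) &&
      Nat.ble (4 * r * z + 2 * z + 2 * d + 3 * tn + 2) (2000000 + 4 * r * d) &&
      Nat.ble 2502 d && Nat.ble (z + 1) (r * d))

end Pool.Agent.MP_c853c5_nt.X
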