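import Pool.Agent.MP_c853c5_nt.X.EWD

set_option autoImplicit false

namespace Pool.Agent.MP_c853c5_nt.X.W4945

def TT : BT TO :=
  .nd 8 (.nd 4 (.nd 2 (.nd 1 (.lf ⟨0, 6, 462467, 45636, 3032900⟩)
    (.lf ⟨0, 5, 462467, 54800, 2527400⟩))
    (.nd 1 (.lf ⟨0, 5, 472600, 56181, 2527400⟩)
    (.lf ⟨0, 4, 472600, 73244, 2021900⟩)))
    (.nd 2 (.nd 1 (.lf ⟨0, 3, 474390, 78800, 1516400⟩)
    (.lf ⟨0, 3, 476790, 84800, 1516400⟩))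
    (.nd 1 (.lf ⟨1, 6, 424007, 45636, 3032900⟩)
    (.lf ⟨1, 5, 424007, 56181, 2527400⟩))))
    (.nd 4 (.nd 2 (.nd 1 (.lf ⟨1, 4, 424007, 66800, 2021900⟩)
    (.lf ⟨2, 6, 385547, 45636, 3032900⟩))
    (.nd 1 (.lf ⟨2, 5, 385547, 54800, 2527400⟩)
    (.lf ⟨3, 6, 347087, 45636, 3032900⟩)))
    (.nd 2 (.nd 1 (.lf ⟨3, 5, 347087, 54800, 2527400⟩)
    (.lf ⟨4, 6, 308627, 45636, 3032900⟩))
    (.nd 1 (.lf ⟨4, 5, 308627, 54800, 2527400⟩)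
    (.lf ⟨5, 6, 270167, 45636, 3032900⟩))))

def PCS : List PC :=
  [⟨45636, 5, 3, 23839, 462467⟩,
   ⟨54800, 4, 2, 21900, 458012⟩,
   ⟨56181, 4, 2, 21900, 472600⟩,
   ⟨60800, 3, 2, 21900, 472600⟩,
   ⟨66800, 3, 2, 21900, 472600⟩,
   ⟨72800, 3, 2, 21900, 472600⟩,
   ⟨73244, 3, 2, 21900, 472600⟩,
   ⟨78800, 2, 2, 20110, 474390⟩,
   ⟨84800, 2, 2, 17710, 476790⟩]

theorem tt_ok : ttB 494500 38460 5495 PCS TT = true := by decide +kernel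

theorem ct_ok : ctE 494500 7 38460 5495 = true := by decide +kernel

end Pool.Agent.MP_c853c5_nt.X.W4945
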