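import Pool.Agent.MP_c853c5_nt.X.EWD

set_option autoImplicit false

namespace Pool.Agent.MP_c853c5_nt.X.W4958

def TT : BT TO :=
  .nd 9 (.nd 4 (.nd 2 (.nd 1 (.lf ⟨0, 7, 467246, 38554, 3529300⟩)
    (.lf ⟨0, 6, 467246, 45756, 3025100⟩))
    (.nd 1 (.lf ⟨0, 5, 467246, 51926, 2520900⟩)
    (.lf ⟨0, 5, 475294, 56329, 2520900⟩)))
    (.nd 2 (.nd 1 (.lf ⟨0, 4, 475751, 57926, 2016700⟩)
    (.lf ⟨0, 4, 477465, 63926, 2016700⟩))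
    (.nd 1 (.lf ⟨0, 4, 479100, 73437, 2016700⟩)
    (.nd 1 (.lf ⟨1, 7, 433916, 38554, 3529300⟩)
    (.lf ⟨1, 6, 433916, 45756, 3025100⟩)))))
    (.nd 5 (.nd 2 (.nd 1 (.lf ⟨1, 5, 433916, 56329, 2520900⟩)
    (.lf ⟨2, 7, 400586, 38554, 3529300⟩))
    (.nd 1 (.lf ⟨2, 6, 400586, 45756, 3025100⟩)
    (.nd 1 (.lf ⟨2, 5, 400586, 51926, 2520900⟩)
    (.lf ⟨3, 7, 367256, 38554, 3529300⟩))))
    (.nd 2 (.nd 1 (.lf ⟨3, 6, 367256, 45756, 3025100⟩)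
    (.lf ⟨4, 7, 333926, 38554, 3529300⟩))
    (.nd 1 (.lf ⟨4, 6, 333926, 45756, 3025100⟩)
    (.nd 1 (.lf ⟨5, 7, 300596, 38554, 3529300⟩)
    (.lf ⟨5, 6, 300596, 45756, 3025100⟩)))))

def PCS : List PC :=
  [⟨38554, 6, 3, 24972, 467246⟩,
   ⟨45756, 5, 3, 23526, 463689⟩,
   ⟨51926, 4, 3, 21764, 459216⟩,
   ⟨56329, 4, 3, 20506, 475294⟩,
   ⟨57926, 3, 3, 20049, 475751⟩,
   ⟨63926, 3, 3, 18335, 477465⟩,
   ⟨69926, 3, 2, 16700, 479100⟩,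
   ⟨73437, 3, 2, 16700, 479100⟩]

theorem tt_ok : ttB 495800 33330 4167 PCS TT = true := by decide +kernel

theorem ct_ok : ctE 495800 8 33330 4167 = true := by decide +kernel

end Pool.Agent.MP_c853c5_nt.X.W4958
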